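import Pool.Agent.Lib.H47A.EGau

/-! # H47A, chunk EACT (S/M): active facets
`act_fst_ne`: if lf alpha u = lf beta u = gg u > 0 with alpha != beta, then alpha.1 != beta.1 (otherwise beta = ng alpha and the two
values are opposite). `cross_ne`: alpha.1 != beta.1: if the cross product of the two normals vanished, det3 with a third normal
would vanish; if there is no third index, then A has exactly two elements and there is u != 0 orthogonal to both normals,
contradicting bdd (so A has at least three elements: `bdd` excludes two). `no_four`: scale to gg = 1 and use `four`.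
`three_point`: with three active indices alpha, beta, delta at u, v in bd: both solve the same regular linear system (`three`,
`cramer`). `vert_finite`: the set is covered by the finitely many triples. `tie_plane`: alpha != beta: {lf alpha = lf beta} is a
proper subspace: nn alpha != nn beta: for alpha.1 != beta.1 by `cross_ne`, for beta = ng alpha since nn alpha != 0. -/

open Real

namespace H47A

variable {A : Type} [Fintype A] [DecidableEq A] {n : A → E3}

theorem eact_ng {α β : A × Bool} (h : α ≠ β) (h1 : α.1 = β.1) : β = ng α := by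
  obtain ⟨a, s⟩ := α
  obtain ⟨b, t⟩ := β
  simp only at h1
  subst h1
  cases s <;> cases t <;> simp_all [ng]

theorem eact_ng_inj {α β : A × Bool} (h : α ≠ β) : ng α ≠ ng β := by
  intro h1
  apply h
  rw [← ng_ng α, h1, ng_ng]

theorem act_fst_ne (hG : Gnr n) {α β : A × Bool} (hne : α ≠ β) {u : E3} (hu : u ≠ 0) (h : Act n α u)
    (h' : Act n β u) : α.1 ≠ β.1 := by
  intro h1
  have h2 := eact_ng hne h1
  rw [act_iff hG] at h h'
  rw [h2, lf_ng, h] at h'
  have := gg_pos hG hu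
  linarith

/-- Two vectors have a common nonzero orthogonal vector. -/
theorem eact_orth (v w : E3) : ∃ u : E3, u ≠ 0 ∧ inner ℝ v u = 0 ∧ inner ℝ w u = 0 := by
  have h1 : LinearMap.ker ((innerₗ E3 v).prod (innerₗ E3 w)) ≠ ⊥ := by
    apply LinearMap.ker_ne_bot_of_finrank_lt
    simp
  obtain ⟨u, hu, hu0⟩ := Submodule.exists_mem_ne_zero_of_ne_bot h1
  rw [LinearMap.mem_ker, LinearMap.prod_apply, Prod.ext_iff] at hu
  exact ⟨u, hu0, hu.1, hu.2⟩

theorem eact_nn0 {α : A × Bool} {u : E3} (h : inner ℝ (nn n α) u = 0) : inner ℝ (n α.1) u = 0 := by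
  obtain ⟨a, s⟩ := α
  cases s
  · simp [nn, inner_neg_left] at h
    exact h
  · simpa [nn] using h

theorem eact_cz (v : E3) : cross3 0 v = 0 := by
  have := cross3_smul 0 1 (0 : E3) v
  rwa [zero_smul, one_smul, zero_mul, zero_smul] at this

theorem eact_sn {v : E3} (h : v = -v) : v = 0 := by
  have h1 : (2 : ℝ) • v = 0 := by
    rw [two_smul]
    nth_rewrite 1 [h]
    exact neg_add_cancel v
  exact (smul_eq_zero.mp h1).resolve_left (by norm_num)

theorem eact_cs (v : E3) : cross3 v v = 0 := eact_sn (cross3_swap v v)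

theorem cross_ne (hG : Gnr n) {α β : A × Bool} (h : α.1 ≠ β.1) : cross3 (nn n α) (nn n β) ≠ 0 := by
  intro h0
  by_cases hex : ∃ c : A, c ≠ α.1 ∧ c ≠ β.1
  · obtain ⟨c, hc1, hc2⟩ := hex
    refine hG.three α β (c, true) h hc2.symm hc1.symm ?_
    unfold det3
    rw [h0, inner_zero_left]
  · push Not at hex
    obtain ⟨u, hu, h1, h2⟩ := eact_orth (nn n α) (nn n β)
    obtain ⟨a, ha⟩ := hG.bdd u hu
    apply ha
    by_cases hc : a = α.1
    · rw [hc]
      exact eact_nn0 h1
    · rw [hex a hc]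
      exact eact_nn0 h2

theorem nn_ne_zero (hG : Gnr n) (α : A × Bool) : nn n α ≠ 0 := by
  intro h0
  by_cases hex : ∃ b : A, α.1 ≠ b
  · obtain ⟨b, hb⟩ := hex
    refine cross_ne hG (α := α) (β := (b, true)) hb ?_
    rw [h0, eact_cz]
  · push Not at hex
    obtain ⟨u, hu, h1, -⟩ := eact_orth (nn n α) 0
    obtain ⟨a, ha⟩ := hG.bdd u hu
    apply ha
    rw [← hex a]
    exact eact_nn0 h1

theorem nn_inj (hG : Gnr n) {α β : A × Bool} (h : α ≠ β) : nn n α ≠ nn n β := by
  intro h0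
  by_cases h1 : α.1 = β.1
  · rw [eact_ng h h1, nn_ng] at h0
    exact nn_ne_zero hG α (eact_sn h0)
  · refine cross_ne hG h1 ?_
    rw [h0, eact_cs]

theorem no_four (hG : Gnr n) {u : E3} (hu : u ≠ 0) {α β γ δ : A × Bool} (h1 : Act n α u) (h2 : Act n β u)
    (h3 : Act n γ u) (h4 : Act n δ u) (h12 : α ≠ β) (h13 : α ≠ γ) (h23 : β ≠ γ) : δ = α ∨ δ = β ∨ δ = γ := by
  by_contra hc
  push Not at hc
  exact hG.four α β γ δ h12 h13 hc.1.symm h23 hc.2.1.symm hc.2.2.symm (psi n u)
    ⟨lf_psi hG hu h1, lf_psi hG hu h2, lf_psi hG hu h3, lf_psi hG hu h4⟩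

theorem det_ne (hG : Gnr n) {u : E3} (hu : u ≠ 0) {α β γ : A × Bool} (h1 : Act n α u) (h2 : Act n β u)
    (h3 : Act n γ u) (h12 : α ≠ β) (h13 : α ≠ γ) (h23 : β ≠ γ) : det3 (nn n α) (nn n β) (nn n γ) ≠ 0 :=
  hG.three α β γ (act_fst_ne hG h12 hu h1 h2) (act_fst_ne hG h23 hu h2 h3) (act_fst_ne hG h13 hu h1 h3)

theorem three_point (hG : Gnr n) {u v : E3} (hu : gg n u = 1) (hv : gg n v = 1) {α β γ : A × Bool} (h12 : α ≠ β)
    (h13 : α ≠ γ) (h23 : β ≠ γ) (h1 : Act n α u) (h2 : Act n β u) (h3 : Act n γ u) (h1' : Act n α v)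
    (h2' : Act n β v) (h3' : Act n γ v) : u = v := by
  have hu0 : u ≠ 0 := bd_ne_zero hG hu
  have hd := det_ne hG hu0 h1 h2 h3 h12 h13 h23
  have key : ∀ δ : A × Bool, Act n δ u → Act n δ v → inner ℝ (nn n δ) (u - v) = 0 := by
    intro δ a b
    rw [act_iff hG] at a b
    unfold lf at a b
    rw [inner_sub_right, a, b, hu, hv, sub_self]
  obtain ⟨a, b, c, hx⟩ := comb3 hd (u - v)
  have h4 : inner ℝ (u - v) (u - v) = 0 := by
    nth_rewrite 1 [hx]
    rw [inner_add_left, inner_add_left, real_inner_smul_left, real_inner_smul_left, real_inner_smul_left,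
      key α h1 h1', key β h2 h2', key γ h3 h3']
    ring
  exact sub_eq_zero.mp (inner_self_eq_zero.mp h4)

theorem vx_finite (hG : Gnr n) : (Vx n).Finite := by
  have h1 : ∀ p : (A × Bool) × (A × Bool) × (A × Bool),
      ({u : E3 | gg n u = 1 ∧ p.1 ≠ p.2.1 ∧ p.2.1 ≠ p.2.2 ∧ p.1 ≠ p.2.2 ∧ Act n p.1 u ∧ Act n p.2.1 u ∧
        Act n p.2.2 u}).Finite := by
    intro p
    refine Set.Subsingleton.finite ?_
    rintro u ⟨hu, a1, a2, a3, a4, a5, a6⟩ v ⟨hv, -, -, -, b4, b5, b6⟩
    exact three_point hG hu hv a1 a3 a2 a4 a5 a6 b4 b5 b6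
  refine (Set.finite_iUnion h1).subset ?_
  rintro u ⟨hu, α, β, γ, hh⟩
  rw [Set.mem_iUnion]
  exact ⟨(α, β, γ), hu, hh⟩

theorem vx_neg (hG : Gnr n) {u : E3} (hu : u ∈ Vx n) : -u ∈ Vx n := by
  obtain ⟨h0, α, β, γ, h1, h2, h3, h4, h5, h6⟩ := hu
  refine ⟨?_, ng α, ng β, ng γ, eact_ng_inj h1, eact_ng_inj h2, eact_ng_inj h3, h4.neg, h5.neg, h6.neg⟩
  rw [gg_neg hG]
  exact h0

end H47A
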