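import Mathlib

/-! # H47A, module B: the space V of flat deformations of the projective plane cut open along Gamma
Vertices are the integers modulo `2m`, the antipode of `k` is `k + m`; the segment `k` of the boundary is `[k, k+1]`.
`h k` is half of the rotation angle of the gluing of the segments `k` and `k + m`. -/

open Real Finset

namespace H47A

/-- The cross product of two complex numbers. -/
def cr (z w : ℂ) : ℝ := z.re * w.im - z.im * w.re

/-- The linear part of the gluing of the segments `k` and `k + m`: the reflection `w ↦ e^{2 i h_k} conj w`. -/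
noncomputable def Phi (h : ℤ → ℝ) (k : ℤ) (w : ℂ) : ℂ :=
  Complex.exp (((2 * h k : ℝ) : ℂ) * Complex.I) * (starRingEnd ℂ) w

/-- Half angles: nondecreasing (the curvature at `k` is `2 (h k - h (k-1))`, in `[0, 2 pi)`), total curvature `2 pi`. -/
structure IsHalf (m : ℕ) (h : ℤ → ℝ) : Prop where
  two_le : 2 ≤ m
  mono : ∀ k, h (k - 1) ≤ h k
  lt : ∀ k, h k - h (k - 1) < π
  per : ∀ k, h (k + m) = h k + π

/-- The space `V`. -/
structure InV (m : ℕ) (h : ℤ → ℝ) (D : ℤ → ℂ) : Prop where
  per : ∀ k, D (k + 2 * m) = D k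
  glue : ∀ k, D (k + 1 + m) - D (k + m) = Phi h k (D (k + 1) - D k)

/-- The polarised area form (shoelace formula over the `2m` vertices). -/
noncomputable def AA (m : ℕ) (D D' : ℤ → ℂ) : ℝ :=
  1 / 4 * ∑ k ∈ range (2 * m), (cr (D k) (D' (k + 1)) + cr (D' k) (D (k + 1)))

/-- The quadratic form `q(b) = sum_{k < l < m} sin(h_l - h_k) b_k b_l`. -/
noncomputable def qf (m : ℕ) (h : ℤ → ℝ) (b : ℕ → ℝ) : ℝ :=
  ∑ l ∈ range m, ∑ k ∈ range l, sin (h l - h k) * b k * b l

/-- The coordinates `e^{-i h_k} (D (k+1) - D k) = al_k + i be_k`. -/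
noncomputable def co (h : ℤ → ℝ) (D : ℤ → ℂ) (k : ℕ) : ℂ :=
  Complex.exp (-((h k : ℝ) : ℂ) * Complex.I) * (D (k + 1) - D k)

end H47A
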