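import Pool.Agent.Lib.H47A.EAr1
import Pool.Agent.Lib.H47A.BDefs

/-! # H47A, chunk EAR2 (M): area of triangles in facet planes
`tri_area`: see EAr1.lean. `tri3`: X, Y, Z in the plane lf α = 1. The map psi : C -> E3, psi z = (|nn|^{-2}) nn α + z.re • ee α + z.im • ff α is an isometry
(Frm, ee ⟂ nn, ff = nu x ee unit) with psi (ch α X) = X for X in the plane; so conv{X,Y,Z} = psi '' conv{ch X, ch Y, ch Z} (affine map), and
Isometry.hausdorffMeasure_image. Then `haus_le`, `tri_area`, `ch_cross`. -/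

open Real MeasureTheory

namespace H47A

variable {A : Type} [Fintype A] [DecidableEq A] {n : A → E3} {fr : A → E3}

theorem ear2_vol : volume {p : ℝ × ℝ | 0 ≤ p.1 ∧ 0 ≤ p.2 ∧ p.1 + p.2 ≤ 1} = ENNReal.ofReal (1 / 2) := by
  have hcl : IsClosed {p : ℝ × ℝ | 0 ≤ p.1 ∧ 0 ≤ p.2 ∧ p.1 + p.2 ≤ 1} :=
    (isClosed_le continuous_const continuous_fst).inter
      ((isClosed_le continuous_const continuous_snd).inter (isClosed_le (continuous_fst.add continuous_snd) continuous_const))
  rw [Measure.volume_eq_prod, Measure.prod_apply hcl.measurableSet]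
  have h1 : ∀ x : ℝ, volume (Prod.mk x ⁻¹' {p : ℝ × ℝ | 0 ≤ p.1 ∧ 0 ≤ p.2 ∧ p.1 + p.2 ≤ 1}) =
      (Set.Icc (0 : ℝ) 1).indicator (fun x => ENNReal.ofReal (1 - x)) x := by
    intro x
    by_cases hx : x ∈ Set.Icc (0 : ℝ) 1
    · rw [Set.indicator_of_mem hx]
      have : Prod.mk x ⁻¹' {p : ℝ × ℝ | 0 ≤ p.1 ∧ 0 ≤ p.2 ∧ p.1 + p.2 ≤ 1} = Set.Icc 0 (1 - x) := by
        ext y
        simp only [Set.mem_preimage, Set.mem_ofPred_eq, Set.mem_Icc]
        exact ⟨fun h => ⟨h.2.1, by linarith⟩, fun h => ⟨hx.1, h.1, by linarith⟩⟩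
      rw [this, Real.volume_Icc, sub_zero]
    · rw [Set.indicator_of_notMem hx]
      have : Prod.mk x ⁻¹' {p : ℝ × ℝ | 0 ≤ p.1 ∧ 0 ≤ p.2 ∧ p.1 + p.2 ≤ 1} = ∅ := by
        ext y
        simp only [Set.mem_preimage, Set.mem_ofPred_eq, Set.mem_empty_iff_false, iff_false]
        rintro ⟨a, b, c⟩
        exact hx ⟨a, by linarith⟩
      rw [this, measure_empty]
  simp only [h1]
  rw [lintegral_indicator measurableSet_Icc, ← ofReal_integral_eq_lintegral_ofReal]
  · congr 1
    rw [integral_Icc_eq_integral_Ioc, ← intervalIntegral.integral_of_le (by norm_num)]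
    rw [intervalIntegral.integral_sub (by simp) (by simp)]
    simp
    norm_num
  · exact (Continuous.integrableOn_Icc (by fun_prop))
  · refine (ae_restrict_iff' measurableSet_Icc).2 (Filter.Eventually.of_forall fun x hx => ?_)
    show (0 : ℝ) ≤ 1 - x
    linarith [hx.2]

/-- The standard triangle has area at most one half. -/
theorem ear2_std : volume (convexHull ℝ {(0 : ℂ), 1, Complex.I}) ≤ ENNReal.ofReal (1 / 2) := by
  have h1 : convexHull ℝ {(0 : ℂ), 1, Complex.I} ⊆
      Complex.measurableEquivRealProd ⁻¹' {p : ℝ × ℝ | 0 ≤ p.1 ∧ 0 ≤ p.2 ∧ p.1 + p.2 ≤ 1} := by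
    refine convexHull_min ?_ ?_
    · rintro z (rfl | rfl | rfl) <;> simp [Complex.measurableEquivRealProd_apply]
    · intro x hx y hy a b ha hb hab
      simp only [Set.mem_preimage, Set.mem_ofPred_eq, Complex.measurableEquivRealProd_apply] at hx hy ⊢
      simp only [Complex.add_re, Complex.real_smul, Complex.mul_re, Complex.ofReal_re, Complex.ofReal_im, zero_mul, sub_zero,
        Complex.add_im, Complex.mul_im, add_zero]
      obtain ⟨x1, x2, x3⟩ := hx
      obtain ⟨y1, y2, y3⟩ := hy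
      refine ⟨by positivity, by positivity, ?_⟩
      nlinarith
  refine (measure_mono h1).trans ?_
  rw [Complex.volume_preserving_equiv_real_prod.measure_preimage_equiv, ear2_vol]

theorem tri_area (a b c : ℂ) : volume (convexHull ℝ {a, b, c}) ≤ ENNReal.ofReal (|cr (b - a) (c - a)| / 2) := by
  let M : Matrix (Fin 2) (Fin 2) ℝ := !![(b - a).re, (c - a).re; (b - a).im, (c - a).im]
  let L : ℂ →ₗ[ℝ] ℂ := Matrix.toLin Complex.basisOneI Complex.basisOneI M
  have hdet : LinearMap.det L = cr (b - a) (c - a) := by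
    rw [LinearMap.det_toLin]
    simp only [M, Matrix.det_fin_two_of, cr]
    ring
  have h1 : L 1 = b - a := by
    have := Matrix.toLin_self Complex.basisOneI Complex.basisOneI M 0
    simp only [Complex.coe_basisOneI, Fin.sum_univ_two, M, Matrix.of_apply, Matrix.cons_val_zero, Matrix.cons_val_one,
      Matrix.cons_val', Matrix.cons_val_fin_one] at this
    rw [show L 1 = _ from this]
    apply Complex.ext <;> simp
  have hI : L Complex.I = c - a := by
    have := Matrix.toLin_self Complex.basisOneI Complex.basisOneI M 1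
    simp only [Complex.coe_basisOneI, Fin.sum_univ_two, M, Matrix.of_apply, Matrix.cons_val_zero, Matrix.cons_val_one,
      Matrix.cons_val', Matrix.cons_val_fin_one] at this
    rw [show L Complex.I = _ from this]
    apply Complex.ext <;> simp
  have h2 : convexHull ℝ {a, b, c} = (fun z => a + z) '' (L '' convexHull ℝ {(0 : ℂ), 1, Complex.I}) := by
    rw [L.isLinear.image_convexHull]
    have e1 : L '' {(0 : ℂ), 1, Complex.I} = {0, b - a, c - a} := by
      simp [Set.image_insert_eq, h1, hI]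
    rw [e1]
    have e2 : ({a, b, c} : Set ℂ) = (AffineEquiv.constVAdd ℝ ℂ a) '' {0, b - a, c - a} := by
      simp [Set.image_insert_eq]
    rw [e2]
    exact (AffineMap.image_convexHull (AffineEquiv.constVAdd ℝ ℂ a).toAffineMap _).symm
  rw [h2, Set.image_add_left, measure_preimage_add, Measure.addHaar_image_linearMap, hdet]
  calc ENNReal.ofReal |cr (b - a) (c - a)| * volume (convexHull ℝ {(0 : ℂ), 1, Complex.I})
      ≤ ENNReal.ofReal |cr (b - a) (c - a)| * ENNReal.ofReal (1 / 2) := by gcongr; exact ear2_std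
    _ = _ := by
      rw [← ENNReal.ofReal_mul (abs_nonneg _)]
      congr 1
      ring

theorem tri3 (hG : Gnr n) (hf : Frm n fr) (α : A × Bool) {X Y Z : E3} (hX : lf n α X = 1) (hY : lf n α Y = 1)
    (hZ : lf n α Z = 1) (hD : 0 ≤ det3 X Y Z) :
    ENNReal.ofReal (π / 4) * Measure.hausdorffMeasure 2 (convexHull ℝ {X, Y, Z}) ≤
      ENNReal.ofReal (det3 X Y Z * ‖nn n α‖ / 2) := by
  set T := convexHull ℝ {X, Y, Z} with hT
  have hpl : ∀ W ∈ T, lf n α W = 1 := by
    have hconv : Convex ℝ {W : E3 | lf n α W = 1} := by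
      intro x hx y hy a b ha hb hab
      show lf n α (a • x + b • y) = 1
      have hx' : lf n α x = 1 := hx
      have hy' : lf n α y = 1 := hy
      rw [lf_add, lf_smul, lf_smul, hx', hy', mul_one, mul_one, hab]
    exact fun W hW => convexHull_min (by rintro z (rfl | rfl | rfl) <;> assumption) hconv hW
  have hlin : IsLinearMap ℝ (ch n fr α) := ⟨ch_add α, fun c x => by rw [ch_smul, Complex.real_smul]⟩
  have himg : ch n fr α '' T = convexHull ℝ {ch n fr α X, ch n fr α Y, ch n fr α Z} := by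
    rw [hT, hlin.image_convexHull]
    simp [Set.image_insert_eq]
  set g := Function.invFunOn (ch n fr α) T with hg
  have hgch : ∀ W ∈ T, g (ch n fr α W) = W := by
    intro W hW
    have h1 : ch n fr α (g (ch n fr α W)) = ch n fr α W := Function.invFunOn_eq ⟨W, hW, rfl⟩
    have h2 : g (ch n fr α W) ∈ T := Function.invFunOn_mem ⟨W, hW, rfl⟩
    have h3 := ch_isom hG hf α (X := g (ch n fr α W)) (Y := W) ((hpl _ h2).trans (hpl _ hW).symm)
    rw [h1, sub_self, norm_zero] at h3
    exact sub_eq_zero.1 (norm_eq_zero.1 h3.symm)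
  have hlip : LipschitzOnWith 1 g (ch n fr α '' T) := by
    refine LipschitzOnWith.of_dist_le_mul ?_
    rintro _ ⟨U, hU, rfl⟩ _ ⟨W, hW, rfl⟩
    rw [hgch U hU, hgch W hW, dist_eq_norm, dist_eq_norm, ch_isom hG hf α ((hpl _ hU).trans (hpl _ hW).symm)]
    simp
  have hsub : T ⊆ g '' (ch n fr α '' T) := fun W hW => ⟨_, ⟨W, hW, rfl⟩, hgch W hW⟩
  have h1 : Measure.hausdorffMeasure 2 T ≤ Measure.hausdorffMeasure 2 (ch n fr α '' T) := by
    refine (measure_mono hsub).trans ((hlip.hausdorffMeasure_image_le (by norm_num)).trans ?_)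
    simp
  calc ENNReal.ofReal (π / 4) * Measure.hausdorffMeasure 2 T
      ≤ ENNReal.ofReal (π / 4) * Measure.hausdorffMeasure 2 (ch n fr α '' T) := by gcongr
    _ ≤ volume (ch n fr α '' T) := haus_le _
    _ ≤ ENNReal.ofReal (|cr (ch n fr α Y - ch n fr α X) (ch n fr α Z - ch n fr α X)| / 2) := by
        rw [himg]; exact tri_area _ _ _
    _ = _ := by
        rw [cr, ch_cross hG hf α hX hY hZ, abs_of_nonneg (by positivity)]

/-- The same in the developed picture. -/
theorem ev_cross (hG : Gnr n) (hf : Frm n fr) (α : A × Bool) {D : ℂ × ℂ} (hD : ‖D.1‖ = 1) {X Y Z : E3}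
    (hX : lf n α X = 1) (hY : lf n α Y = 1) (hZ : lf n α Z = 1) :
    det3 X Y Z * ‖nn n α‖ = cr (ev n fr α D X) (ev n fr α D Y) + cr (ev n fr α D Y) (ev n fr α D Z) +
      cr (ev n fr α D Z) (ev n fr α D X) := by
  rw [← ch_cross hG hf α hX hY hZ]
  obtain ⟨d, t⟩ := D
  have hd : d.re ^ 2 + d.im ^ 2 = 1 := by
    have h := Complex.sq_norm d
    rw [show ‖d‖ = 1 from hD, Complex.normSq_apply] at h
    nlinarith
  simp only [cr, ev, Complex.add_re, Complex.add_im, Complex.mul_re, Complex.mul_im, Complex.sub_re, Complex.sub_im]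
  linear_combination (-1 : ℝ) * (((ch n fr α Y).re - (ch n fr α X).re) * ((ch n fr α Z).im - (ch n fr α X).im) -
    ((ch n fr α Y).im - (ch n fr α X).im) * ((ch n fr α Z).re - (ch n fr α X).re)) * hd

end H47A
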