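import Pool.Agent.Lib.H47A.ECh

/-! # H47A, chunk EHOL4 (M): holonomy around a vertex
Write X = P x Q, Y = Q x R, Z = R x P (P, Q, R the normals), D = det3 P Q R > 0. tr P Q = ch_P X / ch_Q X, tr Q R = ch_Q Y / ch_R Y,
tr R P = ch_R Z / ch_P Z. The product is (ch_P X / ch_P Z) (ch_Q Y / ch_Q X) (ch_R Z / ch_R Y). X and Z are orthogonal to P, and
Z x X = (R x P) x (P x Q) = det3 R P Q P = D P (`cross3_cross`, `det3_rot`): so the rotation from ch_P Z to ch_P X is counterclockwise by the angle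
between Z and X: ch_P X / ch_P Z = (|X|/|Z|) exp(i angle(Z,X)): real part: inner product (`frame` identity: Re(conj(ch Z) ch X) = <Z,X>
for Z, X orthogonal to P), imaginary part = <Z x X, P>/|P| = D |P| = |Z x X| > 0 = |Z||X| sin angle. Same for the others; the moduli cancel. -/

open Real

namespace H47A

variable {A : Type} [Fintype A] [DecidableEq A] {n : A → E3} {fr : A → E3}

/-- Sum of the three face angles. -/
noncomputable def ang3 (u v w : E3) : ℝ :=
  InnerProductGeometry.angle (cross3 u v) (cross3 v w) + InnerProductGeometry.angle (cross3 v w) (cross3 w u) +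
    InnerProductGeometry.angle (cross3 w u) (cross3 u v)

theorem ch_quot (hG : Gnr n) (hf : Frm n fr) (α : A × Bool) {Z X : E3} (hZ : inner ℝ (nn n α) Z = 0)
    (hX : inner ℝ (nn n α) X = 0) {c : ℝ} (hc : 0 < c) (h : cross3 Z X = c • nn n α) :
    ch n fr α X / ch n fr α Z = ((‖X‖ / ‖Z‖ : ℝ) : ℂ) *
      Complex.exp ((InnerProductGeometry.angle Z X : ℂ) * Complex.I) := by
  have hn := nn_ne_zero hG α
  have hnn : 0 < ‖nn n α‖ := norm_pos_iff.2 hn
  have hcr : cross3 Z X ≠ 0 := by
    rw [h]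
    exact smul_ne_zero hc.ne' hn
  have hZ0 : Z ≠ 0 := by
    rintro rfl
    exact hcr (eact_cz X)
  have hX0 : X ≠ 0 := by
    rintro rfl
    apply hcr
    rw [cross3_swap, eact_cz, neg_zero]
  have hZn : 0 < ‖Z‖ := norm_pos_iff.2 hZ0
  have hXn : 0 < ‖X‖ := norm_pos_iff.2 hX0
  have nZ := ech_norm hG hf α (X := Z) hZ
  have nX := ech_norm hG hf α (X := X) hX
  have nS := ech_norm hG hf α (X := Z + X) (by unfold lf; rw [inner_add_right, hZ, hX, add_zero])
  rw [ch_add] at nS
  obtain ⟨z, hz⟩ : ∃ z, z = ch n fr α Z := ⟨_, rfl⟩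
  obtain ⟨w, hw⟩ : ∃ w, w = ch n fr α X := ⟨_, rfl⟩
  rw [← hz] at nZ nS
  rw [← hw] at nX nS
  have hre : z.re * w.re + z.im * w.im = inner ℝ Z X := by
    have h1 : ‖z + w‖ ^ 2 = ‖Z + X‖ ^ 2 := by rw [nS]
    rw [norm_add_sq_real Z X, ← nZ, ← nX, ← Complex.normSq_eq_norm_sq, ← Complex.normSq_eq_norm_sq,
      ← Complex.normSq_eq_norm_sq, Complex.normSq_apply, Complex.normSq_apply, Complex.normSq_apply,
      Complex.add_re, Complex.add_im] at h1
    linarith
  have him : z.re * w.im - z.im * w.re = c * ‖nn n α‖ := by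
    have h1 := frame_cross (ech_nu hG α) (ech_unit hf α) (by rw [inner_smul_right, ech_perp hf, mul_zero]) Z X
    rw [← ech_ff, h, inner_smul_right, real_inner_smul_left, real_inner_self_eq_norm_sq] at h1
    rw [hz, hw]
    show inner ℝ (ee fr α) Z * inner ℝ (ff n fr α) X - inner ℝ (ff n fr α) Z * inner ℝ (ee fr α) X = _
    rw [h1]
    field_simp
  have hcn : c * ‖nn n α‖ = ‖cross3 Z X‖ := by
    rw [h, norm_smul, Real.norm_of_nonneg hc.le]
  have hcos : inner ℝ Z X = ‖Z‖ * ‖X‖ * cos (InnerProductGeometry.angle Z X) := by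
    rw [InnerProductGeometry.cos_angle]
    field_simp
  have hsin : ‖cross3 Z X‖ = ‖Z‖ * ‖X‖ * sin (InnerProductGeometry.angle Z X) := by
    have h1 : ‖cross3 Z X‖ ^ 2 = (‖Z‖ * ‖X‖ * sin (InnerProductGeometry.angle Z X)) ^ 2 := by
      rw [cross3_norm, hcos]
      have := sin_sq_add_cos_sq (InnerProductGeometry.angle Z X)
      nlinarith [this]
    rwa [sq_eq_sq₀ (norm_nonneg _) (mul_nonneg (by positivity) (InnerProductGeometry.sin_angle_nonneg Z X))] at h1
  have hz0 : z ≠ 0 := by
    intro h0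
    rw [h0, norm_zero] at nZ
    linarith
  rw [← hz, ← hw, div_eq_iff hz0]
  have hzsq : z.re * z.re + z.im * z.im = ‖Z‖ ^ 2 := by
    rw [← nZ, ← Complex.normSq_eq_norm_sq, Complex.normSq_apply]
  rw [hcn, hsin] at him
  rw [hcos] at hre
  apply Complex.ext
  · rw [mul_assoc, Complex.re_ofReal_mul, Complex.mul_re, Complex.exp_ofReal_mul_I_re, Complex.exp_ofReal_mul_I_im]
    have h1 : w.re * ‖Z‖ ^ 2 = ‖Z‖ * ‖X‖ * (cos (InnerProductGeometry.angle Z X) * z.re -
        sin (InnerProductGeometry.angle Z X) * z.im) := by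
      rw [← hzsq]
      linear_combination z.re * hre - z.im * him
    have h2 : w.re = ‖X‖ / ‖Z‖ * (cos (InnerProductGeometry.angle Z X) * z.re -
        sin (InnerProductGeometry.angle Z X) * z.im) := by
      field_simp
      nlinarith [h1]
    exact h2
  · rw [mul_assoc, Complex.im_ofReal_mul, Complex.mul_im, Complex.exp_ofReal_mul_I_re, Complex.exp_ofReal_mul_I_im]
    have h1 : w.im * ‖Z‖ ^ 2 = ‖Z‖ * ‖X‖ * (cos (InnerProductGeometry.angle Z X) * z.im +
        sin (InnerProductGeometry.angle Z X) * z.re) := by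
      rw [← hzsq]
      linear_combination z.im * hre + z.re * him
    have h2 : w.im = ‖X‖ / ‖Z‖ * (cos (InnerProductGeometry.angle Z X) * z.im +
        sin (InnerProductGeometry.angle Z X) * z.re) := by
      field_simp
      nlinarith [h1]
    exact h2

theorem tri_hol (hG : Gnr n) (hf : Frm n fr) {P Q R : A × Bool} (h : 0 < det3 (nn n P) (nn n Q) (nn n R)) :
    tr n fr P Q * tr n fr Q R * tr n fr R P =
      Complex.exp ((ang3 (nn n P) (nn n Q) (nn n R) : ℂ) * Complex.I) := by
  obtain ⟨D, hD⟩ : ∃ D, D = det3 (nn n P) (nn n Q) (nn n R) := ⟨_, rfl⟩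
  rw [← hD] at h
  have c1 : cross3 (cross3 (nn n R) (nn n P)) (cross3 (nn n P) (nn n Q)) = D • nn n P := by
    rw [cross3_cross, det3_rot, ← hD]
  have c2 : cross3 (cross3 (nn n P) (nn n Q)) (cross3 (nn n Q) (nn n R)) = D • nn n Q := by
    rw [cross3_cross, ← hD]
  have c3 : cross3 (cross3 (nn n Q) (nn n R)) (cross3 (nn n R) (nn n P)) = D • nn n R := by
    rw [cross3_cross, ← det3_rot, ← hD]
  have q1 := ch_quot hG hf P (Z := cross3 (nn n R) (nn n P)) (X := cross3 (nn n P) (nn n Q))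
    (by rw [real_inner_comm]; exact cross3_self_right _ _) (by rw [real_inner_comm]; exact cross3_self_left _ _) h c1
  have q2 := ch_quot hG hf Q (Z := cross3 (nn n P) (nn n Q)) (X := cross3 (nn n Q) (nn n R))
    (by rw [real_inner_comm]; exact cross3_self_right _ _) (by rw [real_inner_comm]; exact cross3_self_left _ _) h c2
  have q3 := ch_quot hG hf R (Z := cross3 (nn n Q) (nn n R)) (X := cross3 (nn n R) (nn n P))
    (by rw [real_inner_comm]; exact cross3_self_right _ _) (by rw [real_inner_comm]; exact cross3_self_left _ _) h c3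
  have e1 : tr n fr P Q * tr n fr Q R * tr n fr R P =
      (ch n fr P (cross3 (nn n P) (nn n Q)) / ch n fr P (cross3 (nn n R) (nn n P))) *
      (ch n fr Q (cross3 (nn n Q) (nn n R)) / ch n fr Q (cross3 (nn n P) (nn n Q))) *
      (ch n fr R (cross3 (nn n R) (nn n P)) / ch n fr R (cross3 (nn n Q) (nn n R))) := by
    unfold tr
    simp only [div_eq_mul_inv]
    ring
  rw [e1, q1, q2, q3]
  have hne : ∀ (S T : A × Bool) (W : E3), cross3 (cross3 (nn n S) (nn n T)) W = D • nn n T →
      ‖cross3 (nn n S) (nn n T)‖ ≠ 0 := by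
    intro S T W hW h0
    rw [norm_eq_zero] at h0
    rw [h0, eact_cz] at hW
    exact smul_ne_zero h.ne' (nn_ne_zero hG T) hW.symm
  have n1 := hne _ _ _ c1
  have n2 := hne _ _ _ c2
  have n3 := hne _ _ _ c3
  unfold ang3
  have hprod : (((‖cross3 (nn n P) (nn n Q)‖ / ‖cross3 (nn n R) (nn n P)‖ : ℝ) : ℂ) *
      ((‖cross3 (nn n Q) (nn n R)‖ / ‖cross3 (nn n P) (nn n Q)‖ : ℝ) : ℂ)) *
      ((‖cross3 (nn n R) (nn n P)‖ / ‖cross3 (nn n Q) (nn n R)‖ : ℝ) : ℂ) = 1 := by
    rw [← Complex.ofReal_mul, ← Complex.ofReal_mul, ← Complex.ofReal_one]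
    congr 1
    field_simp
  have hexp : Complex.exp (((InnerProductGeometry.angle (cross3 (nn n P) (nn n Q)) (cross3 (nn n Q) (nn n R)) +
      InnerProductGeometry.angle (cross3 (nn n Q) (nn n R)) (cross3 (nn n R) (nn n P)) +
      InnerProductGeometry.angle (cross3 (nn n R) (nn n P)) (cross3 (nn n P) (nn n Q)) : ℝ) : ℂ) * Complex.I) =
      Complex.exp ((InnerProductGeometry.angle (cross3 (nn n R) (nn n P)) (cross3 (nn n P) (nn n Q)) : ℂ) * Complex.I) *
      Complex.exp ((InnerProductGeometry.angle (cross3 (nn n P) (nn n Q)) (cross3 (nn n Q) (nn n R)) : ℂ) * Complex.I) *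
      Complex.exp ((InnerProductGeometry.angle (cross3 (nn n Q) (nn n R)) (cross3 (nn n R) (nn n P)) : ℂ) * Complex.I) := by
    rw [← Complex.exp_add, ← Complex.exp_add]
    congr 1
    push_cast
    ring
  rw [hexp]
  linear_combination (Complex.exp ((InnerProductGeometry.angle (cross3 (nn n R) (nn n P)) (cross3 (nn n P) (nn n Q)) : ℂ) *
      Complex.I) *
      Complex.exp ((InnerProductGeometry.angle (cross3 (nn n P) (nn n Q)) (cross3 (nn n Q) (nn n R)) : ℂ) * Complex.I) *
      Complex.exp ((InnerProductGeometry.angle (cross3 (nn n Q) (nn n R)) (cross3 (nn n R) (nn n P)) : ℂ) *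
        Complex.I)) * hprod

theorem ang3_swap (u v w : E3) : ang3 u w v = ang3 u v w := by
  unfold ang3
  rw [cross3_swap w u, cross3_swap v w, cross3_swap u v, InnerProductGeometry.angle_neg_neg,
    InnerProductGeometry.angle_neg_neg, InnerProductGeometry.angle_neg_neg,
    InnerProductGeometry.angle_comm (cross3 w u) (cross3 v w),
    InnerProductGeometry.angle_comm (cross3 v w) (cross3 u v),
    InnerProductGeometry.angle_comm (cross3 u v) (cross3 w u)]
  ring

end H47A
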