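import Pool.Agent.Lib.H47A.EKap1b
import Pool.Agent.Lib.H47A.EHol4

/-! # H47A, chunks EKAP2 (S/M), EKAP3 (M): Girard and the normal cone of a vertex
EKAP2 `girard`: m = mB, total m0 = mB univ. The map p -> -p (`mB_isom`) sends Hs X ∩ Hs Y ∩ Hs Z to {<p,X> <= 0, <p,Y> <= 0, <p,Z> <= 0}, which up to
the null planes is the complement of Hs X ∪ Hs Y ∪ Hs Z. Inclusion exclusion (finite measure): m(XYZ) = m0 - 3 m0/2 + m(XY) + m(YZ) + m(ZX) - m(XYZ), where
m(Hs X) = m0/2 (`wedge` with Y = X, angle 0). So m(XYZ) = (1/2)(m(XY) + m(YZ) + m(ZX) - m0/2), by `wedge` = m0 (3 pi - sum - pi)/(4 pi).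
EKAP3 (EKap3.lean) `kap_vertex`: D = det3 a b c != 0 (a, b, c the normals of three active facets at v). y = x1 a + x2 b + x3 c (`comb3`), with
x1 D = <y, b x c>, x2 D = <y, c x a>, x3 D = <y, a x b>. y in NC iff x1, x2, x3 >= 0: if: <a,x> <= gg x <= 1 = <a,v>. Only if: let E be the vector with <a,E> = -1,
<b,E> = <c,E> = 0 (`cramer`: E = -(b x c)/D); for small r > 0, v + r E is in P: the other facets are not active at v (`no_four`); y in NC: <y, r E> = - r x1 <= 0.
So if D > 0: NC = Hs (b x c) ∩ Hs (c x a) ∩ Hs (a x b); if D < 0: with the opposite signs (angles of negated pairs are the same). `girard` gives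
kap v = 4 pi (2 pi - ang3)/(4 pi) = 2 pi - ang3. -/

open Real MeasureTheory

namespace H47A

theorem ekap2_mB (S : Set E3) : mB S = ((volume : Measure E3).restrict (Metric.closedBall 0 1)).real S := by
  rw [measureReal_def, Measure.restrict_apply' Metric.isClosed_closedBall.measurableSet]
  rfl

instance ekap2_fin : IsFiniteMeasure ((volume : Measure E3).restrict (Metric.closedBall 0 1)) :=
  ⟨by
    rw [Measure.restrict_apply_univ]
    exact (isCompact_closedBall (0 : E3) 1).measure_lt_top⟩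

theorem ekap2_Hs_closed (X : E3) : IsClosed (Hs X) :=
  isClosed_le continuous_const (continuous_id.inner continuous_const)

theorem ekap2_half {X : E3} (hX : X ≠ 0) : mB (Hs X) = 1 / 2 * mB Set.univ := by
  have h := wedge hX hX
  rw [Set.inter_self, InnerProductGeometry.angle_self hX, sub_zero] at h
  rw [h]
  have := Real.pi_ne_zero
  field_simp

/-- sets which differ by null sets -/
theorem ekap2_congr {S T N : Set E3} (hN : volume N = 0) (h1 : S ⊆ T ∪ N) (h2 : T ⊆ S ∪ N) : mB S = mB T := by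
  unfold mB
  congr 1
  refine le_antisymm ?_ ?_
  · calc volume (S ∩ Metric.closedBall 0 1) ≤ volume ((T ∩ Metric.closedBall 0 1) ∪ N) := by
          refine measure_mono ?_
          rintro x ⟨hx, hx'⟩
          rcases h1 hx with h | h
          · exact Or.inl ⟨h, hx'⟩
          · exact Or.inr h
      _ ≤ volume (T ∩ Metric.closedBall 0 1) + volume N := measure_union_le _ _
      _ = _ := by rw [hN, add_zero]
  · calc volume (T ∩ Metric.closedBall 0 1) ≤ volume ((S ∩ Metric.closedBall 0 1) ∪ N) := by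
          refine measure_mono ?_
          rintro x ⟨hx, hx'⟩
          rcases h2 hx with h | h
          · exact Or.inl ⟨h, hx'⟩
          · exact Or.inr h
      _ ≤ volume (S ∩ Metric.closedBall 0 1) + volume N := measure_union_le _ _
      _ = _ := by rw [hN, add_zero]

theorem ekap2_neg (S : Set E3) : mB {p | -p ∈ S} = mB S := mB_isom (LinearIsometryEquiv.neg ℝ) S

theorem girard {X Y Z : E3} (hX : X ≠ 0) (hY : Y ≠ 0) (hZ : Z ≠ 0) :
    mB (Hs X ∩ Hs Y ∩ Hs Z) = (2 * π - (InnerProductGeometry.angle X Y + InnerProductGeometry.angle Y Z +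
      InnerProductGeometry.angle Z X)) / (4 * π) * mB Set.univ := by
  obtain ⟨μ, hμ⟩ : ∃ μ : Measure E3, μ = (volume : Measure E3).restrict (Metric.closedBall 0 1) := ⟨_, rfl⟩
  have : IsFiniteMeasure μ := by rw [hμ]; infer_instance
  have hm : ∀ S, mB S = μ.real S := fun S => by rw [hμ]; exact ekap2_mB S
  have mX := (ekap2_Hs_closed X).measurableSet
  have mY := (ekap2_Hs_closed Y).measurableSet
  have mZ := (ekap2_Hs_closed Z).measurableSet
  have e1 := measureReal_union_add_inter (μ := μ) (s := Hs X) mY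
  have e2 := measureReal_union_add_inter (μ := μ) (s := Hs X ∪ Hs Y) mZ
  have e3 := measureReal_union_add_inter (μ := μ) (s := Hs X ∩ Hs Z) (mY.inter mZ)
  rw [← Set.union_inter_distrib_right] at e3
  have e4 : (Hs X ∩ Hs Z) ∩ (Hs Y ∩ Hs Z) = Hs X ∩ Hs Y ∩ Hs Z := by
    ext p
    constructor
    · rintro ⟨⟨a, b⟩, c, d⟩
      exact ⟨⟨a, c⟩, b⟩
    · rintro ⟨⟨a, c⟩, b⟩
      exact ⟨⟨a, b⟩, c, b⟩
  rw [e4] at e3
  have e5 := measureReal_compl (μ := μ) ((mX.union mY).union mZ)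
  have e6 : mB ((Hs X ∪ Hs Y ∪ Hs Z)ᶜ) = mB (Hs X ∩ Hs Y ∩ Hs Z) := by
    rw [← ekap2_neg (Hs X ∩ Hs Y ∩ Hs Z)]
    refine ekap2_congr (N := {p : E3 | (inner ℝ p X : ℝ) = 0} ∪ {p : E3 | (inner ℝ p Y : ℝ) = 0} ∪
      {p : E3 | (inner ℝ p Z : ℝ) = 0}) ?_ ?_ ?_
    · exact measure_union_null (measure_union_null (plane_null hX) (plane_null hY)) (plane_null hZ)
    · intro p hp
      left
      have h1 : ¬ (0 ≤ (inner ℝ p X : ℝ)) := fun h => hp (Or.inl (Or.inl h))
      have h2 : ¬ (0 ≤ (inner ℝ p Y : ℝ)) := fun h => hp (Or.inl (Or.inr h))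
      have h3 : ¬ (0 ≤ (inner ℝ p Z : ℝ)) := fun h => hp (Or.inr h)
      refine ⟨⟨?_, ?_⟩, ?_⟩
      · show 0 ≤ (inner ℝ (-p) X : ℝ)
        rw [inner_neg_left]; linarith
      · show 0 ≤ (inner ℝ (-p) Y : ℝ)
        rw [inner_neg_left]; linarith
      · show 0 ≤ (inner ℝ (-p) Z : ℝ)
        rw [inner_neg_left]; linarith
    · rintro p ⟨⟨h1, h2⟩, h3⟩
      have h1' : 0 ≤ (inner ℝ (-p) X : ℝ) := h1
      have h2' : 0 ≤ (inner ℝ (-p) Y : ℝ) := h2
      have h3' : 0 ≤ (inner ℝ (-p) Z : ℝ) := h3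
      rw [inner_neg_left] at h1' h2' h3'
      by_cases k1 : (inner ℝ p X : ℝ) = 0
      · exact Or.inr (Or.inl (Or.inl k1))
      by_cases k2 : (inner ℝ p Y : ℝ) = 0
      · exact Or.inr (Or.inl (Or.inr k2))
      by_cases k3 : (inner ℝ p Z : ℝ) = 0
      · exact Or.inr (Or.inr k3)
      left
      rintro ((h | h) | h)
      · have h' : 0 ≤ (inner ℝ p X : ℝ) := h
        exact k1 (by linarith)
      · have h' : 0 ≤ (inner ℝ p Y : ℝ) := h
        exact k2 (by linarith)
      · have h' : 0 ≤ (inner ℝ p Z : ℝ) := h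
        exact k3 (by linarith)
  have a1 := ekap2_half hX
  have a2 := ekap2_half hY
  have a3 := ekap2_half hZ
  have w1 := wedge hX hY
  have w2 := wedge hY hZ
  have w3 := wedge hZ hX
  rw [Set.inter_comm (Hs Z) (Hs X)] at w3
  rw [hm] at a1 a2 a3 w1 w2 w3 e6 ⊢
  rw [hm] at a1 a2 a3 w1 w2 w3 e6 ⊢
  have hpi := Real.pi_pos
  have key : 2 * μ.real (Hs X ∩ Hs Y ∩ Hs Z) = μ.real (Hs X ∩ Hs Y) + μ.real (Hs Y ∩ Hs Z) + μ.real (Hs X ∩ Hs Z) -
      1 / 2 * μ.real Set.univ := by
    linarith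
  rw [w1, w2, w3] at key
  have h2 : μ.real (Hs X ∩ Hs Y ∩ Hs Z) = 1 / 2 * ((π - InnerProductGeometry.angle X Y) / (2 * π) * μ.real Set.univ +
      (π - InnerProductGeometry.angle Y Z) / (2 * π) * μ.real Set.univ +
      (π - InnerProductGeometry.angle Z X) / (2 * π) * μ.real Set.univ - 1 / 2 * μ.real Set.univ) := by
    rw [← key]; ring
  rw [h2]
  field_simp
  ring

end H47A
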