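import Pool.Agent.Lib.H47A.FAp1
import Pool.Agent.Lib.H47F.Gen

/-! # H47A, chunk FAP2 (M/L): see the docstring of FAp1.lean -/

open Real Metric

namespace H47A

/-- Generic families. -/
structure GFam {N : ℕ} (n : Fin N → E3) : Prop where
  ne : ∀ a, n a ≠ 0
  two : ∀ a b, a ≠ b → cross3 (n a) (n b) ≠ 0
  three : ∀ a b c, a ≠ b → b ≠ c → a ≠ c → det3 (n a) (n b) (n c) ≠ 0
  four : ∀ a b c d, a ≠ b → a ≠ c → a ≠ d → b ≠ c → b ≠ d → c ≠ d → ∀ s1 s2 s3 s4 : ℝ, (s1 = 1 ∨ s1 = -1) →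
    (s2 = 1 ∨ s2 = -1) → (s3 = 1 ∨ s3 = -1) → (s4 = 1 ∨ s4 = -1) → ∀ u : E3,
    ¬ (s1 * inner ℝ (n a) u = 1 ∧ s2 * inner ℝ (n b) u = 1 ∧ s3 * inner ℝ (n c) u = 1 ∧ s4 * inner ℝ (n d) u = 1)

open Pool.Agent.H47F in
theorem fap2_exists : ∀ (N : ℕ) (c : Fin N → E3) (r : Fin N → ℝ), (∀ a, 0 < r a) →
    ∃ n : Fin N → E3, (∀ a, ‖n a - c a‖ < r a) ∧ Cnd n
  | 0, _, _, _ => ⟨fun i => i.elim0, fun i => i.elim0,
      ⟨fun i => i.elim0, fun i => i.elim0, fun i => i.elim0, fun i => i.elim0⟩⟩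
  | N + 1, c, r, hr => by
    obtain ⟨n, h1, h2⟩ := fap2_exists N (fun i => c i.castSucc) (fun i => r i.castSucc) (fun i => hr _)
    obtain ⟨x, hx, h3⟩ := Pool.Agent.H47F.step h2 (c (Fin.last N)) (hr (Fin.last N))
    refine ⟨_, fun i => ?_, h3⟩
    refine Fin.lastCases ?_ (fun i => ?_) i
    · simpa [dist_eq_norm] using hx
    · simpa using h1 i

theorem fap2_lf {N : ℕ} (n : Fin N → E3) (a : Fin N) (u : E3) {s : ℝ} (hs : s = 1 ∨ s = -1) :
    ∃ b : Bool, lf n (a, b) u = s * inner ℝ (n a) u := by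
  rcases hs with rfl | rfl
  · exact ⟨true, by simp [lf, nn]⟩
  · exact ⟨false, by simp [lf, nn]⟩

theorem exists_generic : ∀ (N : ℕ) (c : Fin N → E3) (r : Fin N → ℝ), (∀ a, 0 < r a) →
    ∃ n : Fin N → E3, (∀ a, ‖n a - c a‖ < r a) ∧ GFam n := by
  intro N c r hr
  obtain ⟨n, h1, h2⟩ := fap2_exists N c r hr
  refine ⟨n, h1, h2.c1, ?_, fun a b c hab hbc hac => h2.det_ne hab hbc hac, ?_⟩
  · intro a b hab
    rcases lt_or_gt_of_ne hab with h | h
    · exact h2.c2 a b h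
    · rw [cross3_swap]
      exact neg_ne_zero.2 (h2.c2 b a h)
  · rintro a b c d hab hac had hbc hbd hcd s1 s2 s3 s4 h1 h2' h3 h4 u ⟨g1, g2, g3, g4⟩
    obtain ⟨b1, e1⟩ := fap2_lf n a u h1
    obtain ⟨b2, e2⟩ := fap2_lf n b u h2'
    obtain ⟨b3, e3⟩ := fap2_lf n c u h3
    obtain ⟨b4, e4⟩ := fap2_lf n d u h4
    refine Pool.Agent.H47F.no_four_cnd h2 (α := (a, b1)) (β := (b, b2)) (γ := (c, b3)) (δ := (d, b4)) ?_ ?_ ?_ ?_ ?_ ?_ u
      ⟨e1.trans g1, e2.trans g2, e3.trans g3, e4.trans g4⟩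
    all_goals
      intro h
      have := congrArg Prod.fst h
      simp only at this
      first
        | exact hab this
        | exact hac this
        | exact had this
        | exact hbc this
        | exact hbd this
        | exact hcd this

end H47A
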