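import Pool.Agent.Lib.H47A.EAct

/-! # H47A, chunk ECH (M): charts of the facet planes
nu = nn alpha/|nn alpha| is a unit vector, ee alpha a unit vector orthogonal to it (Frm), ff alpha = nu x ee alpha (`cross3_smul`).
`ch_isom`: `frame_norm` for X - Y (orthogonal to nn alpha as lf X = lf Y). `ch_neg`: ee (ng alpha) = - ee alpha, ff (ng alpha) =
ff alpha. `ch_cross`: `frame_cross` and (Y-X) x (Z-X) = det3 X Y Z • nn alpha for X, Y, Z with lf = 1: the left side is orthogonal to
Y-X and Z-X, as nn alpha; multiply with X. (If Y-X and Z-X are parallel both sides vanish; or use the identity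
det3 X Y Z = <nn-component> directly: with c defined by (Y-X) x (Z-X) = c nn, det3 X Y Z = <X,(Y-X) x (Z-X)> = c <X,nn> = c. If nn is
orthogonal to both Y-X and Z-X the cross product is a multiple of nn.)
`tr_norm`: the vector t = nn alpha x nn beta is orthogonal to both normals, so |ch alpha t| = |t| = |ch beta t| != 0 (`ch_isom`).
`tr_mul`: X - Y orthogonal to both normals is a multiple of t (`perp_two`). `step_ev`: pt is a common point (`two_planes`,
`cross_ne`); ev (step D) beta X - ev alpha D X = D.1 * (tr (ch beta X - ch beta pt) - (ch alpha X - ch alpha pt)) = 0 by `tr_mul`. -/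

open Real

namespace H47A

variable {A : Type} [Fintype A] [DecidableEq A] {n : A → E3} {fr : A → E3}

theorem ch_add (α : A × Bool) (X Y : E3) : ch n fr α (X + Y) = ch n fr α X + ch n fr α Y := by
  apply Complex.ext
  · show inner ℝ (ee fr α) (X + Y) = inner ℝ (ee fr α) X + inner ℝ (ee fr α) Y
    rw [inner_add_right]
  · show inner ℝ (ff n fr α) (X + Y) = inner ℝ (ff n fr α) X + inner ℝ (ff n fr α) Y
    rw [inner_add_right]

theorem ch_smul (α : A × Bool) (c : ℝ) (X : E3) : ch n fr α (c • X) = (c : ℂ) * ch n fr α X := by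
  rw [← Complex.real_smul]
  apply Complex.ext
  · rw [Complex.smul_re]
    show inner ℝ (ee fr α) (c • X) = c • inner ℝ (ee fr α) X
    rw [inner_smul_right, smul_eq_mul]
  · rw [Complex.smul_im]
    show inner ℝ (ff n fr α) (c • X) = c • inner ℝ (ff n fr α) X
    rw [inner_smul_right, smul_eq_mul]

theorem ch_cont (α : A × Bool) : Continuous (ch n fr α) := by
  have h : ch n fr α = fun X => ((inner ℝ (ee fr α) X : ℝ) : ℂ) + ((inner ℝ (ff n fr α) X : ℝ) : ℂ) * Complex.I := by
    funext X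
    exact (Complex.mk_eq_add_mul_I _ _)
  rw [h]
  have h1 : Continuous fun X : E3 => inner ℝ (ee fr α) X := continuous_const.inner continuous_id
  have h2 : Continuous fun X : E3 => inner ℝ (ff n fr α) X := continuous_const.inner continuous_id
  exact (Complex.continuous_ofReal.comp h1).add ((Complex.continuous_ofReal.comp h2).mul continuous_const)

theorem ech_zero (α : A × Bool) : ch n fr α 0 = 0 := by
  have := ch_smul (n := n) (fr := fr) α 0 0
  simpa using this

theorem ech_sub (α : A × Bool) (X Y : E3) : ch n fr α (X - Y) = ch n fr α X - ch n fr α Y := by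
  have h1 := ch_add (n := n) (fr := fr) α (X - Y) Y
  rw [sub_add_cancel] at h1
  rw [h1, add_sub_cancel_right]

theorem ech_negX (α : A × Bool) (X : E3) : ch n fr α (-X) = -ch n fr α X := by
  have h1 := ech_sub (n := n) (fr := fr) α 0 X
  rw [zero_sub, ech_zero, zero_sub] at h1
  exact h1

theorem ech_unit (hf : Frm n fr) (α : A × Bool) : ‖ee fr α‖ = 1 := by
  unfold ee
  split_ifs
  · exact hf.unit _
  · rw [norm_neg, hf.unit]

theorem ech_perp (hf : Frm n fr) (α : A × Bool) : inner ℝ (ee fr α) (nn n α) = 0 := by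
  unfold ee nn
  split_ifs
  · exact hf.perp _
  · rw [inner_neg_neg, hf.perp]

theorem ech_nu (hG : Gnr n) (α : A × Bool) : ‖(‖nn n α‖)⁻¹ • nn n α‖ = 1 := by
  rw [norm_smul, norm_inv, norm_norm, inv_mul_cancel₀ (norm_ne_zero_iff.mpr (nn_ne_zero hG α))]

theorem ech_ff (α : A × Bool) : ff n fr α = cross3 ((‖nn n α‖)⁻¹ • nn n α) (ee fr α) := by
  have := cross3_smul (‖nn n α‖)⁻¹ 1 (nn n α) (ee fr α)
  rw [one_smul, mul_one] at this
  rw [this]
  rfl

theorem ech_norm (hG : Gnr n) (hf : Frm n fr) (α : A × Bool) {X : E3} (h : lf n α X = 0) :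
    ‖ch n fr α X‖ = ‖X‖ := by
  have h1 := frame_norm (ech_nu hG α) (ech_unit hf α)
    (by rw [inner_smul_right, ech_perp hf, mul_zero]) X
    (by rw [real_inner_smul_left]; unfold lf at h; rw [h, mul_zero])
  rw [← ech_ff] at h1
  have h2 : ‖ch n fr α X‖ ^ 2 = ‖X‖ ^ 2 := by
    rw [← h1, ← Complex.normSq_eq_norm_sq, Complex.normSq_apply]
    show inner ℝ (ee fr α) X * inner ℝ (ee fr α) X + inner ℝ (ff n fr α) X * inner ℝ (ff n fr α) X = _
    ring
  exact (sq_eq_sq₀ (norm_nonneg _) (norm_nonneg _)).mp h2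

theorem ch_isom (hG : Gnr n) (hf : Frm n fr) (α : A × Bool) {X Y : E3} (h : lf n α X = lf n α Y) :
    ‖ch n fr α X - ch n fr α Y‖ = ‖X - Y‖ := by
  rw [← ech_sub]
  apply ech_norm hG hf
  unfold lf at h ⊢
  rw [inner_sub_right, h, sub_self]

theorem ech_ee_ng (α : A × Bool) : ee fr (ng α) = -ee fr α := by
  obtain ⟨a, b⟩ := α
  cases b <;> simp [ee, ng]

theorem ech_ff_ng (α : A × Bool) : ff n fr (ng α) = ff n fr α := by
  unfold ff
  rw [nn_ng, ech_ee_ng, cross3_neg_neg, norm_neg]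

theorem ch_neg (α : A × Bool) (X : E3) : ch n fr (ng α) (-X) = (starRingEnd ℂ) (ch n fr α X) := by
  apply Complex.ext
  · rw [Complex.conj_re]
    show inner ℝ (ee fr (ng α)) (-X) = inner ℝ (ee fr α) X
    rw [ech_ee_ng, inner_neg_neg]
  · rw [Complex.conj_im]
    show inner ℝ (ff n fr (ng α)) (-X) = -inner ℝ (ff n fr α) X
    rw [ech_ff_ng, inner_neg_right]

theorem ech_expand (X Y Z : E3) : cross3 (Y - X) (Z - X) = cross3 Y Z + cross3 Z X + cross3 X Y := by
  ext i
  fin_cases i <;> simp [cross3] <;> ring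

theorem ch_cross (hG : Gnr n) (hf : Frm n fr) (α : A × Bool) {X Y Z : E3} (hX : lf n α X = 1) (hY : lf n α Y = 1)
    (hZ : lf n α Z = 1) :
    (ch n fr α Y - ch n fr α X).re * (ch n fr α Z - ch n fr α X).im -
      (ch n fr α Y - ch n fr α X).im * (ch n fr α Z - ch n fr α X).re = det3 X Y Z * ‖nn n α‖ := by
  rw [← ech_sub, ← ech_sub]
  show inner ℝ (ee fr α) (Y - X) * inner ℝ (ff n fr α) (Z - X) - inner ℝ (ff n fr α) (Y - X) * inner ℝ (ee fr α) (Z - X) = _
  rw [ech_ff, frame_cross (ech_nu hG α) (ech_unit hf α) (by rw [inner_smul_right, ech_perp hf, mul_zero])]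
  have h1 := cramer X Y Z (nn n α)
  unfold lf at hX hY hZ
  rw [real_inner_comm] at hX hY hZ
  rw [hX, hY, hZ, one_smul, one_smul, one_smul, ← ech_expand] at h1
  rw [← h1, real_inner_smul_left, inner_smul_right, real_inner_self_eq_norm_sq]
  have h2 : ‖nn n α‖ ≠ 0 := norm_ne_zero_iff.mpr (nn_ne_zero hG α)
  field_simp

theorem ech_t1 (α β : A × Bool) : lf n α (cross3 (nn n α) (nn n β)) = 0 := by
  unfold lf
  rw [real_inner_comm, cross3_self_left]

theorem ech_t2 (α β : A × Bool) : lf n β (cross3 (nn n α) (nn n β)) = 0 := by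
  unfold lf
  rw [real_inner_comm, cross3_self_right]

theorem ech_n1 (hG : Gnr n) (hf : Frm n fr) {α β : A × Bool} (h : α.1 ≠ β.1) :
    ch n fr α (cross3 (nn n α) (nn n β)) ≠ 0 := by
  rw [← norm_ne_zero_iff, ech_norm hG hf α (ech_t1 α β), norm_ne_zero_iff]
  exact cross_ne hG h

theorem ech_n2 (hG : Gnr n) (hf : Frm n fr) {α β : A × Bool} (h : α.1 ≠ β.1) :
    ch n fr β (cross3 (nn n α) (nn n β)) ≠ 0 := by
  rw [← norm_ne_zero_iff, ech_norm hG hf β (ech_t2 α β), norm_ne_zero_iff]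
  exact cross_ne hG h

theorem tr_norm (hG : Gnr n) (hf : Frm n fr) {α β : A × Bool} (h : α.1 ≠ β.1) : ‖tr n fr α β‖ = 1 := by
  unfold tr
  rw [norm_div, ech_norm hG hf α (ech_t1 α β), ech_norm hG hf β (ech_t2 α β), div_self]
  exact norm_ne_zero_iff.mpr (cross_ne hG h)

theorem tr_symm (hG : Gnr n) (hf : Frm n fr) {α β : A × Bool} (h : α.1 ≠ β.1) : tr n fr α β * tr n fr β α = 1 := by
  unfold tr
  rw [cross3_swap (nn n α) (nn n β), ech_negX, ech_negX]
  have h1 := ech_n1 hG hf h
  have h2 := ech_n2 hG hf h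
  field_simp

theorem tr_ng (hG : Gnr n) (hf : Frm n fr) {α β : A × Bool} (h : α.1 ≠ β.1) :
    tr n fr (ng α) (ng β) = tr n fr β α := by
  have h1 : tr n fr (ng α) (ng β) = (starRingEnd ℂ) (tr n fr α β) := by
    unfold tr
    rw [nn_ng, nn_ng, cross3_neg_neg]
    have h2 : ∀ γ : A × Bool, ch n fr (ng γ) (cross3 (nn n α) (nn n β)) =
        -(starRingEnd ℂ) (ch n fr γ (cross3 (nn n α) (nn n β))) := by
      intro γ
      have := ch_neg (n := n) (fr := fr) γ (-(cross3 (nn n α) (nn n β)))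
      rw [neg_neg, ech_negX, map_neg] at this
      exact this
    rw [h2, h2, neg_div_neg_eq, map_div₀]
  have h3 := tr_symm hG hf h
  have h4 : tr n fr α β * (starRingEnd ℂ) (tr n fr α β) = 1 := by
    rw [Complex.mul_conj, Complex.normSq_eq_norm_sq, tr_norm hG hf h]
    norm_num
  have h5 : tr n fr α β ≠ 0 := by
    rw [← norm_ne_zero_iff, tr_norm hG hf h]
    norm_num
  rw [h1]
  exact mul_left_cancel₀ h5 (h4.trans h3.symm)

theorem tr_mul (hG : Gnr n) (hf : Frm n fr) {α β : A × Bool} (h : α.1 ≠ β.1) {X Y : E3}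
    (h1 : lf n α X = lf n α Y) (h2 : lf n β X = lf n β Y) :
    ch n fr α X - ch n fr α Y = tr n fr α β * (ch n fr β X - ch n fr β Y) := by
  rw [← ech_sub, ← ech_sub]
  obtain ⟨c, hc⟩ := perp_two (cross_ne hG h) (x := X - Y) (by unfold lf at h1; rw [inner_sub_right, h1, sub_self])
    (by unfold lf at h2; rw [inner_sub_right, h2, sub_self])
  rw [hc, ch_smul, ch_smul]
  unfold tr
  have h3 := ech_n2 hG hf h
  field_simp

theorem step_ev (hG : Gnr n) (hf : Frm n fr) {α β : A × Bool} (h : α.1 ≠ β.1) (D : ℂ × ℂ) {X : E3}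
    (h1 : lf n α X = 1) (h2 : lf n β X = 1) : ev n fr β (step n fr α β D) X = ev n fr α D X := by
  have hex : ∃ p, lf n α p = 1 ∧ lf n β p = 1 := ⟨X, h1, h2⟩
  have hp : lf n α (pt n α β) = 1 ∧ lf n β (pt n α β) = 1 := by
    unfold pt
    rw [dif_pos hex]
    exact hex.choose_spec
  have h3 := tr_mul hG hf h (X := X) (Y := pt n α β) (h1.trans hp.1.symm) (h2.trans hp.2.symm)
  unfold ev step
  simp only
  linear_combination -D.1 * h3

theorem step_norm (hG : Gnr n) (hf : Frm n fr) {α β : A × Bool} (h : α.1 ≠ β.1) {D : ℂ × ℂ} (hD : ‖D.1‖ = 1) :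
    ‖(step n fr α β D).1‖ = 1 := by
  unfold step
  simp only
  rw [norm_mul, hD, tr_norm hG hf h, one_mul]

end H47A
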