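import Pool.Agent.Lib.H47A.EAct
import Pool.Agent.Lib.H47A.ECh
import Pool.Agent.Lib.H47F.Meas

/-! # H47A, chunks EAR1 (M), EAR2 (M): Hausdorff measure and area
EAR1 `haus_le`: mu = μH[2] on the complex plane is a Haar measure (isAddHaarMeasure_hausdorffMeasure with finrank 2; the exponent (2 : ℝ) against
(finrank : ℝ)), so mu = c * volume, c finite (Measure.isAddHaarMeasure_eq_smul / addHaarScalarFactor). It suffices: c <= 4/pi. Let B be the closed unit disc,
c pi = mu B. For every d > 0 a Vitali/Besicovitch covering (Besicovitch.exists_disjoint_closedBall_covering_ae, or Vitali.exists_disjoint_covering_ae)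
gives countably many disjoint closed discs B_i of radius r_i <= d inside the disc of radius 1 + d (or inside the open unit disc) covering almost all of the open unit
disc; the rest R is volume null, so mu null. By the definition of the Hausdorff measure (Measure.hausdorffMeasure_apply / mkMetric, or
hausdorffMeasure_le_liminf_tsum): mu(∪ B_i) <= liminf of Σ diam(B_i)^2 = Σ 4 r_i^2 = (4/pi) Σ volume(B_i) <= (4/pi) pi.
EAR2 `tri_area`: T(a,b,c) = convexHull {a,b,c} is the image of the standard triangle {(x,y) : x, y >= 0, x + y <= 1} (volume 1/2) under the affine map a + x (b-a) +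
y (c-a), real determinant cr (b-a) (c-a) (Measure.addHaar_image_linearMap). -/

open Real MeasureTheory

namespace H47A

theorem haus_le (s : Set ℂ) : ENNReal.ofReal (π / 4) * Measure.hausdorffMeasure 2 s ≤ volume s := by
  have h := Pool.Agent.H47F.muH_le (Complex.orthonormalBasisOneI.repr '' s)
  rw [Complex.orthonormalBasisOneI.repr.isometry.hausdorffMeasure_image (Or.inl (by norm_num))] at h
  have h2 : volume (Complex.orthonormalBasisOneI.repr '' s) = volume s := by
    rw [← (Complex.orthonormalBasisOneI.measurePreserving_repr).measure_preimage_equiv
      (f := Complex.orthonormalBasisOneI.measurableEquiv)]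
    congr 1
    ext x
    simp [OrthonormalBasis.measurableEquiv]
  rwa [h2] at h

end H47A
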