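import Pool.Agent.Lib.H47A.EGau
import Pool.Agent.Lib.H47A.BDefs

/-! # H47A, module E: the curve and the two discs of a fan (definitions) -/

open Real Finset

namespace H47A

variable {A : Type} [Fintype A] [DecidableEq A] {n : A → E3} {f1 f2 : E3} {m : ℕ}

namespace Fan

/-- The curve Gamma, parametrised by the real line. -/
noncomputable def G (F : Fan n f1 f2 m) (x : ℝ) : E3 := seg (F.γ ⌊x⌋) (F.γ (⌊x⌋ + 1)) (Int.fract x)

/-- The convex cone over the triangle `e`, `γ k`, `γ (k+1)`. -/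
def Cn (F : Fan n f1 f2 m) (e : E3) (k : ℤ) : Set E3 :=
  {u | ∃ a b c : ℝ, 0 ≤ a ∧ 0 ≤ b ∧ 0 ≤ c ∧ u = a • e + b • F.γ k + c • F.γ (k + 1)}

/-- The upper disc. -/
def UU (F : Fan n f1 f2 m) (e : E3) : Set E3 := {u | gg n u = 1 ∧ ∃ k, u ∈ F.Cn e k}

end Fan

/-- The length distance in a set (the form used in the frozen statement). -/
noncomputable def pl (S : Set E3) (x y : E3) : ENNReal :=
  ⨅ (γ : ℝ → E3) (_ : Continuous γ) (_ : γ 0 = x) (_ : γ 1 = y) (_ : ∀ t ∈ Set.Icc (0 : ℝ) 1, γ t ∈ S),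
    eVariationOn γ (Set.Icc (0 : ℝ) 1)

/-- The inner distance of the upper disc between boundary points. -/
noncomputable def dU (F : Fan n f1 f2 m) (e : E3) (x y : ℝ) : ℝ := (pl (F.UU e) (F.G x) (F.G y)).toReal

end H47A
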