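import Pool.Agent.Lib.H47A.EKDefs

/-! # H47A, chunks EKAP1A (M), EKAP1B (M/L): the volume of a wedge
EKAP1A `sector_area`: polar coordinates `Complex.lintegral_comp_polarCoord_symm` (or `Complex.polarCoord`): the indicator of {|z| <= R, a < arg z < b}
gives int_{a}^{b} int_0^R r dr dt = (b - a) R^2/2; the boundary rays and 0 are null sets (or only compute with a <= arg z <= b; the
target of polarCoord is (0,inf) x (-pi,pi)). -/

open Real MeasureTheory

namespace H47A

theorem ekap1_r {R : ℝ} (hR : 0 ≤ R) :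
    ∫⁻ r in Set.Ioi (0 : ℝ), ENNReal.ofReal r * (Set.Iic R).indicator 1 r = ENNReal.ofReal (R ^ 2 / 2) := by
  have h1 : ∀ r : ℝ, ENNReal.ofReal r * (Set.Iic R).indicator 1 r = (Set.Iic R).indicator (fun r => ENNReal.ofReal r) r := by
    intro r
    by_cases h : r ∈ Set.Iic R
    · rw [Set.indicator_of_mem h, Set.indicator_of_mem h, Pi.one_apply, mul_one]
    · rw [Set.indicator_of_notMem h, Set.indicator_of_notMem h, mul_zero]
  simp only [h1]
  rw [lintegral_indicator measurableSet_Iic, Measure.restrict_restrict measurableSet_Iic]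
  have h2 : Set.Iic R ∩ Set.Ioi (0 : ℝ) = Set.Ioc 0 R := by
    ext r
    simp only [Set.mem_inter_iff, Set.mem_Iic, Set.mem_Ioi, Set.mem_Ioc]
    tauto
  rw [h2]
  have h3 : IntervalIntegrable (fun r : ℝ => r) volume 0 R := continuous_id.intervalIntegrable _ _
  have h4 : ∫ r in Set.Ioc (0 : ℝ) R, r = R ^ 2 / 2 := by
    rw [← intervalIntegral.integral_of_le hR, integral_id]
    ring
  rw [← h4, ofReal_integral_eq_lintegral_ofReal]
  · exact h3.1
  · exact (ae_restrict_iff' measurableSet_Ioc).2 (ae_of_all _ fun r hr => hr.1.le)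

theorem ekap1_t {a b : ℝ} (ha : -π ≤ a) (hab : a ≤ b) (hb : b ≤ π) :
    ∫⁻ t in Set.Ioo (-π) π, (Set.Icc a b).indicator (1 : ℝ → ENNReal) t = ENNReal.ofReal (b - a) := by
  rw [lintegral_indicator measurableSet_Icc, Measure.restrict_restrict measurableSet_Icc]
  simp only [Pi.one_apply]
  rw [lintegral_one, Measure.restrict_apply_univ]
  refine le_antisymm ?_ ?_
  · rw [← Real.volume_Icc]
    exact measure_mono Set.inter_subset_left
  · rw [← Real.volume_Ioo]
    refine measure_mono fun t ht => ⟨⟨ht.1.le, ht.2.le⟩, ?_, ?_⟩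
    · exact lt_of_le_of_lt ha ht.1
    · exact lt_of_lt_of_le ht.2 hb

theorem sector_area {a b R : ℝ} (ha : -π ≤ a) (hab : a ≤ b) (hb : b ≤ π) (hR : 0 ≤ R) :
    volume {z : ℂ | ‖z‖ ≤ R ∧ a ≤ Complex.arg z ∧ Complex.arg z ≤ b} = ENNReal.ofReal ((b - a) * R ^ 2 / 2) := by
  have hS : MeasurableSet {z : ℂ | ‖z‖ ≤ R ∧ a ≤ Complex.arg z ∧ Complex.arg z ≤ b} := by
    refine (measurableSet_le measurable_norm measurable_const).inter
      ((measurableSet_le measurable_const Complex.measurable_arg).inter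
        (measurableSet_le Complex.measurable_arg measurable_const))
  have h1 : volume {z : ℂ | ‖z‖ ≤ R ∧ a ≤ Complex.arg z ∧ Complex.arg z ≤ b} =
      ∫⁻ z, {z : ℂ | ‖z‖ ≤ R ∧ a ≤ Complex.arg z ∧ Complex.arg z ≤ b}.indicator (1 : ℂ → ENNReal) z := by
    rw [lintegral_indicator_one hS]
  rw [h1, ← Complex.lintegral_comp_polarCoord_symm]
  have h2 : ∫⁻ p in polarCoord.target, ENNReal.ofReal p.1 •
      {z : ℂ | ‖z‖ ≤ R ∧ a ≤ Complex.arg z ∧ Complex.arg z ≤ b}.indicator (1 : ℂ → ENNReal) (Complex.polarCoord.symm p) =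
      ∫⁻ p in polarCoord.target, (ENNReal.ofReal p.1 * (Set.Iic R).indicator 1 p.1) *
        (Set.Icc a b).indicator (1 : ℝ → ENNReal) p.2 := by
    refine setLIntegral_congr_fun polarCoord.open_target.measurableSet fun p hp => ?_
    have hp1 : 0 < p.1 := hp.1
    have hp2 : p.2 ∈ Set.Ioo (-π) π := hp.2
    have e1 : ‖Complex.polarCoord.symm p‖ = p.1 := by
      rw [Complex.norm_polarCoord_symm, abs_of_pos hp1]
    have e2 : Complex.arg (Complex.polarCoord.symm p) = p.2 := by
      rw [Complex.polarCoord_symm_apply]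
      have := Complex.arg_mul_cos_add_sin_mul_I hp1 (Set.Ioo_subset_Ioc_self hp2)
      rw [Complex.ofReal_cos, Complex.ofReal_sin]
      exact this
    beta_reduce
    rw [smul_eq_mul, mul_assoc]
    congr 1
    by_cases h3 : p.1 ≤ R
    · have h3' : p.1 ∈ Set.Iic R := h3
      rw [Set.indicator_of_mem h3', Pi.one_apply, one_mul]
      by_cases h4 : p.2 ∈ Set.Icc a b
      · have h5 : Complex.polarCoord.symm p ∈ {z : ℂ | ‖z‖ ≤ R ∧ a ≤ Complex.arg z ∧ Complex.arg z ≤ b} := by
          show ‖Complex.polarCoord.symm p‖ ≤ R ∧ a ≤ Complex.arg (Complex.polarCoord.symm p) ∧ Complex.arg (Complex.polarCoord.symm p) ≤ b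
          rw [e1, e2]
          exact ⟨h3, h4.1, h4.2⟩
        rw [Set.indicator_of_mem h5, Set.indicator_of_mem h4]
        rfl
      · have h5 : Complex.polarCoord.symm p ∉ {z : ℂ | ‖z‖ ≤ R ∧ a ≤ Complex.arg z ∧ Complex.arg z ≤ b} := by
          intro h6
          have h7 : ‖Complex.polarCoord.symm p‖ ≤ R ∧ a ≤ Complex.arg (Complex.polarCoord.symm p) ∧ Complex.arg (Complex.polarCoord.symm p) ≤ b := h6
          rw [e1, e2] at h7
          exact h4 ⟨h7.2.1, h7.2.2⟩
        rw [Set.indicator_of_notMem h5, Set.indicator_of_notMem h4]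
    · have h3' : p.1 ∉ Set.Iic R := h3
      have h5 : Complex.polarCoord.symm p ∉ {z : ℂ | ‖z‖ ≤ R ∧ a ≤ Complex.arg z ∧ Complex.arg z ≤ b} := by
        intro h6
        have h7 : ‖Complex.polarCoord.symm p‖ ≤ R ∧ a ≤ Complex.arg (Complex.polarCoord.symm p) ∧ Complex.arg (Complex.polarCoord.symm p) ≤ b := h6
        rw [e1] at h7
        exact h3 h7.1
      rw [Set.indicator_of_notMem h5, Set.indicator_of_notMem h3', zero_mul]
  have h3 : (polarCoord.target : Set (ℝ × ℝ)) = Set.Ioi (0 : ℝ) ×ˢ Set.Ioo (-π) π := rfl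
  rw [h2, h3, Measure.volume_eq_prod, ← Measure.prod_restrict, lintegral_prod_mul
    (f := fun r => ENNReal.ofReal r * (Set.Iic R).indicator 1 r) (g := (Set.Icc a b).indicator (1 : ℝ → ENNReal)),
    ekap1_r hR, ekap1_t ha hab hb, ← ENNReal.ofReal_mul (by positivity)]
  · congr 1
    ring
  · exact ((ENNReal.measurable_ofReal).mul (measurable_one.indicator measurableSet_Iic)).aemeasurable
  · exact (measurable_one.indicator measurableSet_Icc).aemeasurable

end H47A
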