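import Mathlib

/-! # H47A, module A: definitions for the matrix inequality
Weights `mu i >= 0` of total mass one, sign matrix `S` (zero diagonal, off-diagonal entries `1` or `-1`). -/

open Real Finset

namespace H47A

variable {ι : Type*} [Fintype ι] [DecidableEq ι]

/-- A sign matrix: zero on the diagonal, plus or minus one off the diagonal (no symmetry). -/
structure IsSign (S : ι → ι → ℝ) : Prop where
  diag : ∀ i, S i i = 0
  off : ∀ i j, i ≠ j → S i j = 1 ∨ S i j = -1

/-- Probability weights. -/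
structure IsWt (μ : ι → ℝ) : Prop where
  nonneg : ∀ i, 0 ≤ μ i
  sum : ∑ i, μ i = 1

/-- `G i j = sum_k mu_k S_ik S_jk`. -/
noncomputable def Gm (μ : ι → ℝ) (S : ι → ι → ℝ) (i j : ι) : ℝ := ∑ k, μ k * (S i k * S j k)

/-- The symmetric nonnegative matrix `P`. -/
noncomputable def Pm (μ : ι → ℝ) (S : ι → ι → ℝ) (i j : ι) : ℝ :=
  if i = j then (π / 2) ^ 2 * μ i else π / 2 * cos (π / 2 * Gm μ S i j)

/-- The matrix `W`, row `j`, column `i`: `(pi/2) S_ij sin((pi/2) G_ij)` (zero on the diagonal). -/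
noncomputable def Wm (μ : ι → ℝ) (S : ι → ι → ℝ) (j i : ι) : ℝ :=
  π / 2 * (S i j * sin (π / 2 * Gm μ S i j))

/-- The matrix `K`: `-S_ij S_ji P_ij` off the diagonal, zero on it. -/
noncomputable def Km (μ : ι → ℝ) (S : ι → ι → ℝ) (i j : ι) : ℝ :=
  -(S i j * S j i * Pm μ S i j)

/-- Action of a matrix on a vector with the weights: `(M a)_i = sum_j mu_j M_ij a_j`. -/
noncomputable def app (μ : ι → ℝ) (M : ι → ι → ℝ) (a : ι → ℝ) (i : ι) : ℝ := ∑ j, μ j * (M i j * a j)

/-- Weighted inner product. -/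
noncomputable def ip (μ : ι → ℝ) (a b : ι → ℝ) : ℝ := ∑ i, μ i * (a i * b i)

/-- The function `theta(d) = tau (sin (tau d) - tau d cos (tau d))`, `tau = pi/2`. -/
noncomputable def th (d : ℝ) : ℝ := π / 2 * (sin (π / 2 * d) - π / 2 * d * cos (π / 2 * d))

/-- `c(u) = (pi/2) |cos(pi u/2)|`, period 2. -/
noncomputable def cc (u : ℝ) : ℝ := π / 2 * |cos (π / 2 * u)|

/-- The autocorrelation of `c` over a period. -/
noncomputable def Psi (d : ℝ) : ℝ := ∫ u in (0 : ℝ)..2, cc u * cc (u - d)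

end H47A
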