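import Pool.Agent.Lib.H47A.AStep2

/-! # H47A, chunk AFINAL (M)
The matrix inequality in the form used by the geometry: for each `i` two coefficients `y i`, `z i` for the two sign vectors
`Sg S i 1`, `Sg S i (-1)` (the sign vector of row `i` with own entry 1 or -1), `x_i = y_i e^{i tau mu_i} + z_i e^{-i tau mu_i}`.
PROOF. tau = pi/2, a, b from `step2`. al_i = mu_i a_i, be_i = - mu_i b_i,
 y_i = (al_i/cos(tau mu_i) + be_i/sin(tau mu_i))/2, z_i = (al_i/cos(tau mu_i) - be_i/sin(tau mu_i))/2 (0/0 = 0 when mu_i = 0).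
 cos(tau mu_i) > 0 as 0 <= mu_i < 1. Then (y_i + z_i) cos(tau mu_i) = al_i, (y_i - z_i) sin(tau mu_i) = be_i, so
 x_i = al_i + I be_i, norm x_i = mu_i sqrt(a_i^2+b_i^2).
 For i != j, GG i e j e' = sum_k mu_k Sg_i^e(k) Sg_j^e'(k) = G_ij + e mu_i S_ji + e' mu_j S_ij (split off k = i, k = j). So the
 four-term sum for (i,j) is the real part of e^{i tau G}(y_i e^{i tau mu_i S_ji} + z_i e^{-i tau mu_i S_ji}) (same for j)
 = cos(tau G)(al_i al_j - S_ji S_ij be_i be_j) - sin(tau G)(S_ji be_i al_j + S_ij be_j al_i)  (S_ji = +-1: cos(tau mu S) =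
 cos(tau mu), sin(tau mu S) = S sin(tau mu)). Times tau this is mu_i mu_j [P_ij a_i a_j + K_ij b_i b_j
 + tau sin(tau G)(S_ji b_i a_j + S_ij b_j a_i)]; summed over i != j: the off-diagonal part of ip a (Pa), ip b (Kb) and
 2 ip b (Wa). For i = j: GG i 1 i 1 = 1 = GG i (-1) i (-1) (cos tau = 0), GG i 1 i (-1) = 1 - 2 mu_i,
 cos(tau - pi mu_i) = sin(pi mu_i) = 2 sin(tau mu_i) cos(tau mu_i): the sum is 2 y_i z_i sin(pi mu_i) =
 al_i^2 tan(tau mu_i) - be_i^2 cot(tau mu_i) and tau times it is >= mu_i^2 P_ii a_i^2 - mu_i b_i^2 since tan x >= x for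
 0 <= x < pi/2 (`Real.le_tan`) (for mu_i = 0 everything is zero). Adding up: tau * (total) >= right side of `step2`
 >= (sum |x_i|)^2, divide by tau. -/

open Real Finset

namespace H47A

variable {ι : Type*} [Fintype ι] [DecidableEq ι]

/-- Row `i` of the sign matrix with own entry `e`. -/
def Sg (S : ι → ι → ℝ) (i : ι) (e : ℝ) (k : ι) : ℝ := if k = i then e else S i k

/-- `sum_k mu_k Sg_i^e(k) Sg_j^e'(k)`. -/
noncomputable def GG (μ : ι → ℝ) (S : ι → ι → ℝ) (i : ι) (e : ℝ) (j : ι) (e' : ℝ) : ℝ :=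
  ∑ k, μ k * (Sg S i e k * Sg S j e' k)

/-- `x_i = y_i e^{i tau mu_i} + z_i e^{-i tau mu_i}`. -/
noncomputable def xx (μ : ι → ℝ) (y z : ι → ℝ) (i : ι) : ℂ :=
  y i * Complex.exp ((π / 2 * μ i : ℝ) * Complex.I) + z i * Complex.exp (-(π / 2 * μ i : ℝ) * Complex.I)

/-- the sign matrix with zero diagonal -/
def afinal_S (S : ι → ι → ℝ) (i j : ι) : ℝ := if i = j then 0 else S i j

theorem afinal_sign {S : ι → ι → ℝ} (hS : ∀ i j, i ≠ j → S i j = 1 ∨ S i j = -1) :
    IsSign (afinal_S S) where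
  diag i := by simp [afinal_S]
  off i j h := by
    unfold afinal_S
    rw [if_neg h]
    exact hS i j h

theorem afinal_GG (μ : ι → ℝ) (S : ι → ι → ℝ) {i j : ι} (h : i ≠ j) (e e' : ℝ) :
    GG μ S i e j e' = Gm μ (afinal_S S) i j + e * (μ i * S j i) + e' * (μ j * S i j) := by
  have h1 : ∀ k, μ k * (Sg S i e k * Sg S j e' k) = μ k * (afinal_S S i k * afinal_S S j k) +
      (if k = i then e * (μ i * S j i) else 0) + (if k = j then e' * (μ j * S i j) else 0) := by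
    intro k
    unfold Sg afinal_S
    by_cases hi : k = i
    · subst hi
      rw [if_pos rfl, if_neg h, if_pos rfl, if_pos rfl, if_neg h]
      ring
    · by_cases hj : k = j
      · subst hj
        rw [if_neg hi, if_pos rfl, if_neg (fun h' => hi h'.symm), if_pos rfl, if_neg hi, if_pos rfl]
        ring
      · rw [if_neg hi, if_neg hj, if_neg (fun h' => hi h'.symm), if_neg (fun h' => hj h'.symm),
          if_neg hi, if_neg hj]
        ring
  unfold GG Gm
  rw [Finset.sum_congr rfl fun k _ => h1 k, Finset.sum_add_distrib, Finset.sum_add_distrib,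
    Finset.sum_ite_eq', Finset.sum_ite_eq', if_pos (Finset.mem_univ _), if_pos (Finset.mem_univ _)]

theorem afinal_GG' {μ : ι → ℝ} (hμ : IsWt μ) {S : ι → ι → ℝ}
    (hS : ∀ i j, i ≠ j → S i j = 1 ∨ S i j = -1) (i : ι) (e e' : ℝ) :
    GG μ S i e i e' = 1 + (e * e' - 1) * μ i := by
  have h1 : ∀ k, μ k * (Sg S i e k * Sg S i e' k) =
      μ k + (if k = i then (e * e' - 1) * μ i else 0) := by
    intro k
    unfold Sg
    by_cases hi : k = i
    · subst hi
      rw [if_pos rfl, if_pos rfl, if_pos rfl]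
      ring
    · rw [if_neg hi, if_neg hi, if_neg hi]
      rcases hS i k (fun h' => hi h'.symm) with h2 | h2 <;> rw [h2] <;> ring
  unfold GG
  rw [Finset.sum_congr rfl fun k _ => h1 k, Finset.sum_add_distrib, hμ.sum,
    Finset.sum_ite_eq', if_pos (Finset.mem_univ _)]

theorem afinal_xx (μ y z : ι → ℝ) (i : ι) : xx μ y z i =
    (((y i + z i) * cos (π / 2 * μ i) : ℝ) : ℂ) +
      (((y i - z i) * sin (π / 2 * μ i) : ℝ) : ℂ) * Complex.I := by
  unfold xx
  have e1 : -((π / 2 * μ i : ℝ) : ℂ) * Complex.I = ((-(π / 2 * μ i) : ℝ) : ℂ) * Complex.I := by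
    push_cast
    ring
  rw [e1, Complex.exp_mul_I, Complex.exp_mul_I, ← Complex.ofReal_cos, ← Complex.ofReal_sin,
    ← Complex.ofReal_cos, ← Complex.ofReal_sin, Real.cos_neg, Real.sin_neg]
  push_cast
  ring

theorem afinal_trig (θ u v Y Z Y' Z' : ℝ) :
    Y * Y' * cos (θ + u + v) + Y * Z' * cos (θ + u - v) + Z * Y' * cos (θ - u + v) +
      Z * Z' * cos (θ - u - v) =
    cos θ * ((Y + Z) * cos u * ((Y' + Z') * cos v) - (Y - Z) * sin u * ((Y' - Z') * sin v)) -
      sin θ * ((Y - Z) * sin u * ((Y' + Z') * cos v) + (Y + Z) * cos u * ((Y' - Z') * sin v)) := by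
  simp only [Real.cos_add, Real.cos_sub, Real.sin_add, Real.sin_sub]
  ring

theorem afinal_sgn {p : ℝ} (hp : p = 1 ∨ p = -1) (x : ℝ) : cos (p * x) = cos x ∧
    sin (p * x) = p * sin x := by
  rcases hp with h | h <;> rw [h]
  · rw [one_mul, one_mul]
    exact ⟨rfl, rfl⟩
  · rw [neg_one_mul, neg_one_mul, Real.cos_neg, Real.sin_neg]
    exact ⟨rfl, rfl⟩

/-- the four-term expression -/
noncomputable def afinal_F (μ : ι → ℝ) (S : ι → ι → ℝ) (y z : ι → ℝ) (i j : ι) : ℝ :=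
  y i * y j * cos (π / 2 * GG μ S i 1 j 1) + y i * z j * cos (π / 2 * GG μ S i 1 j (-1)) +
    z i * y j * cos (π / 2 * GG μ S i (-1) j 1) + z i * z j * cos (π / 2 * GG μ S i (-1) j (-1))

/-- the comparison term -/
noncomputable def afinal_R (μ : ι → ℝ) (S : ι → ι → ℝ) (a b : ι → ℝ) (i j : ι) : ℝ :=
  μ i * μ j * (Pm μ (afinal_S S) i j * (a i * a j) + Km μ (afinal_S S) i j * (b i * b j) +
    b i * Wm μ (afinal_S S) i j * a j + b j * Wm μ (afinal_S S) j i * a i) -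
    (if i = j then μ i * (b i * b i) else 0)

theorem afinal_off {μ : ι → ℝ} {S : ι → ι → ℝ} (hS : ∀ i j, i ≠ j → S i j = 1 ∨ S i j = -1)
    {y z a b : ι → ℝ} (h1 : ∀ i, (y i + z i) * cos (π / 2 * μ i) = μ i * a i)
    (h2 : ∀ i, (y i - z i) * sin (π / 2 * μ i) = -(μ i * b i)) {i j : ι} (h : i ≠ j) :
    afinal_R μ S a b i j = π / 2 * afinal_F μ S y z i j := by
  obtain ⟨θ, hθ⟩ : ∃ θ, θ = π / 2 * Gm μ (afinal_S S) i j := ⟨_, rfl⟩
  obtain ⟨p, hp⟩ : ∃ p, p = S j i := ⟨_, rfl⟩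
  obtain ⟨q, hq⟩ : ∃ q, q = S i j := ⟨_, rfl⟩
  have hp1 : p = 1 ∨ p = -1 := by
    rw [hp]
    exact hS j i (fun h' => h h'.symm)
  have hq1 : q = 1 ∨ q = -1 := by
    rw [hq]
    exact hS i j h
  have eF : afinal_F μ S y z i j =
      y i * y j * cos (θ + p * (π / 2 * μ i) + q * (π / 2 * μ j)) +
      y i * z j * cos (θ + p * (π / 2 * μ i) - q * (π / 2 * μ j)) +
      z i * y j * cos (θ - p * (π / 2 * μ i) + q * (π / 2 * μ j)) +
      z i * z j * cos (θ - p * (π / 2 * μ i) - q * (π / 2 * μ j)) := by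
    unfold afinal_F
    rw [afinal_GG μ S h, afinal_GG μ S h, afinal_GG μ S h, afinal_GG μ S h, hθ, hp, hq]
    congr 1
    · congr 1
      · congr 1
        · congr 2
          ring
        · congr 2
          ring
      · congr 2
        ring
    · congr 2
      ring
  obtain ⟨c1, s1⟩ := afinal_sgn hp1 (π / 2 * μ i)
  obtain ⟨c2, s2⟩ := afinal_sgn hq1 (π / 2 * μ j)
  have e3 : (y i - z i) * (p * sin (π / 2 * μ i)) = p * -(μ i * b i) := by
    rw [← h2 i]
    ring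
  have e4 : (y j - z j) * (q * sin (π / 2 * μ j)) = q * -(μ j * b j) := by
    rw [← h2 j]
    ring
  rw [eF, afinal_trig, c1, s1, c2, s2, h1 i, h1 j, e3, e4]
  have k1 : Pm μ (afinal_S S) i j = π / 2 * cos θ := by
    unfold Pm
    rw [if_neg h, hθ]
  have k2 : Km μ (afinal_S S) i j = -(q * p * (π / 2 * cos θ)) := by
    unfold Km
    rw [k1]
    unfold afinal_S
    rw [if_neg h, if_neg (fun h' => h h'.symm), hp, hq]
  have k3 : Wm μ (afinal_S S) i j = π / 2 * (p * sin θ) := by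
    unfold Wm
    rw [Gm_symm, ← hθ]
    unfold afinal_S
    rw [if_neg (fun h' => h h'.symm), hp]
  have k4 : Wm μ (afinal_S S) j i = π / 2 * (q * sin θ) := by
    unfold Wm
    rw [← hθ]
    unfold afinal_S
    rw [if_neg h, hq]
  unfold afinal_R
  rw [k1, k2, k3, k4, if_neg h]
  ring

theorem afinal_dg {μ : ι → ℝ} (hμ : IsWt μ) (hμ1 : ∀ i, μ i < 1) {S : ι → ι → ℝ}
    (hS : ∀ i j, i ≠ j → S i j = 1 ∨ S i j = -1)
    {y z a b : ι → ℝ} (h1 : ∀ i, (y i + z i) * cos (π / 2 * μ i) = μ i * a i)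
    (h2 : ∀ i, (y i - z i) * sin (π / 2 * μ i) = -(μ i * b i)) (i : ι) :
    afinal_R μ S a b i i ≤ π / 2 * afinal_F μ S y z i i := by
  have hpi := Real.pi_pos
  have k1 : Pm μ (afinal_S S) i i = (π / 2) ^ 2 * μ i := by
    unfold Pm
    rw [if_pos rfl]
  have k0 : afinal_S S i i = 0 := by
    unfold afinal_S
    rw [if_pos rfl]
  have k2 : Km μ (afinal_S S) i i = 0 := by
    unfold Km
    rw [k0]
    ring
  have k3 : Wm μ (afinal_S S) i i = 0 := by
    unfold Wm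
    rw [k0]
    ring
  have eF : afinal_F μ S y z i i =
      4 * (y i * z i) * (sin (π / 2 * μ i) * cos (π / 2 * μ i)) := by
    unfold afinal_F
    rw [afinal_GG' hμ hS, afinal_GG' hμ hS, afinal_GG' hμ hS, afinal_GG' hμ hS]
    have t1 : cos (π / 2 * (1 + (1 * 1 - 1) * μ i)) = 0 := by
      rw [show π / 2 * (1 + (1 * 1 - 1) * μ i) = π / 2 by ring, Real.cos_pi_div_two]
    have t2 : cos (π / 2 * (1 + (1 * -1 - 1) * μ i)) = 2 * sin (π / 2 * μ i) * cos (π / 2 * μ i) := by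
      rw [show π / 2 * (1 + (1 * -1 - 1) * μ i) = π / 2 - 2 * (π / 2 * μ i) by ring,
        Real.cos_pi_div_two_sub, Real.sin_two_mul]
    have t3 : cos (π / 2 * (1 + (-1 * 1 - 1) * μ i)) = 2 * sin (π / 2 * μ i) * cos (π / 2 * μ i) := by
      rw [show π / 2 * (1 + (-1 * 1 - 1) * μ i) = π / 2 - 2 * (π / 2 * μ i) by ring,
        Real.cos_pi_div_two_sub, Real.sin_two_mul]
    have t4 : cos (π / 2 * (1 + (-1 * -1 - 1) * μ i)) = 0 := by
      rw [show π / 2 * (1 + (-1 * -1 - 1) * μ i) = π / 2 by ring, Real.cos_pi_div_two]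
    rw [t1, t2, t3, t4]
    ring
  unfold afinal_R
  rw [eF, k1, k2, k3, if_pos rfl]
  have hm0 := hμ.nonneg i
  rcases hm0.eq_or_lt with h0 | h0
  · rw [← h0]
    simp
  · obtain ⟨x, hx⟩ : ∃ x, x = π / 2 * μ i := ⟨_, rfl⟩
    have hx0 : 0 < x := by
      rw [hx]
      positivity
    have hx1 : x < π / 2 := by
      rw [hx]
      nlinarith [hμ1 i]
    have hc : 0 < cos x := Real.cos_pos_of_mem_Ioo ⟨by linarith, hx1⟩
    have hs : 0 < sin x := Real.sin_pos_of_pos_of_lt_pi hx0 (by linarith)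
    have ht : x ≤ sin x / cos x := by
      have := Real.le_tan hx0.le hx1
      rwa [Real.tan_eq_sin_div_cos] at this
    have ht' : x * cos x ≤ sin x := by
      rwa [le_div_iff₀ hc] at ht
    have g1 := h1 i
    have g2 := h2 i
    rw [← hx] at g1 g2 ⊢
    have e1 : 4 * (y i * z i) * (sin x * cos x) =
        (μ i * a i) ^ 2 * (sin x / cos x) - (μ i * b i) ^ 2 * (cos x / sin x) := by
      have e2 : (μ i * b i) ^ 2 = ((y i - z i) * sin x) ^ 2 := by
        rw [g2]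
        ring
      rw [e2, ← g1]
      field_simp
      ring
    rw [e1]
    have e3 : (π / 2) * ((μ i * a i) ^ 2 * (sin x / cos x)) ≥ (π / 2) * ((μ i * a i) ^ 2 * x) :=
      mul_le_mul_of_nonneg_left (mul_le_mul_of_nonneg_left ht (sq_nonneg _)) (by positivity)
    have e4 : (π / 2) * ((μ i * b i) ^ 2 * (cos x / sin x)) ≤ μ i * (b i * b i) := by
      have e5 : x * (cos x / sin x) ≤ 1 := by
        rw [← mul_div_assoc, div_le_one hs]
        exact ht'
      have e6 : (π / 2) * ((μ i * b i) ^ 2 * (cos x / sin x)) =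
          μ i * (b i * b i) * (x * (cos x / sin x)) := by
        rw [hx]
        ring
      rw [e6]
      exact mul_le_of_le_one_right (mul_nonneg hm0 (mul_self_nonneg _)) e5
    have e7 : (π / 2) * ((μ i * a i) ^ 2 * x) = μ i * μ i * ((π / 2) ^ 2 * μ i * (a i * a i)) := by
      rw [hx]
      ring
    rw [e7] at e3
    rw [mul_sub]
    linarith

theorem afinal_sumR (μ : ι → ℝ) (S : ι → ι → ℝ) (a b : ι → ℝ) :
    ∑ i, ∑ j, afinal_R μ S a b i j =
      ip μ a (app μ (Pm μ (afinal_S S)) a) + 2 * ip μ b (app μ (Wm μ (afinal_S S)) a) +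
        ip μ b (app μ (Km μ (afinal_S S)) b) - ip μ b b := by
  have hM : ∀ (M : ι → ι → ℝ) (f g : ι → ℝ), ip μ f (app μ M g) =
      ∑ i, ∑ j, μ i * μ j * (f i * M i j * g j) := by
    intro M f g
    unfold ip app
    refine Finset.sum_congr rfl fun i _ => ?_
    rw [Finset.mul_sum, Finset.mul_sum]
    exact Finset.sum_congr rfl fun j _ => by ring
  have hI : ip μ b b = ∑ i, ∑ j, (if i = j then μ i * (b i * b i) else 0) := by
    unfold ip
    refine Finset.sum_congr rfl fun i _ => ?_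
    rw [Finset.sum_ite_eq, if_pos (Finset.mem_univ _)]
  have hW : ip μ b (app μ (Wm μ (afinal_S S)) a) =
      ∑ i, ∑ j, μ i * μ j * (b j * Wm μ (afinal_S S) j i * a i) := by
    rw [hM, Finset.sum_comm]
    exact Finset.sum_congr rfl fun i _ => Finset.sum_congr rfl fun j _ => by ring
  rw [two_mul, hI]
  nth_rewrite 2 [hW]
  rw [hM, hM, hM]
  simp only [← Finset.sum_add_distrib, ← Finset.sum_sub_distrib]
  refine Finset.sum_congr rfl fun i _ => Finset.sum_congr rfl fun j _ => ?_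
  unfold afinal_R
  ring

theorem matrix_inequality {μ : ι → ℝ} (hμ : IsWt μ) (hμ1 : ∀ i, μ i < 1) {S : ι → ι → ℝ}
    (hS : ∀ i j, i ≠ j → S i j = 1 ∨ S i j = -1) : ∃ y z : ι → ℝ,
    0 < ∑ i, ‖xx μ y z i‖ ∧
    2 / π * (∑ i, ‖xx μ y z i‖) ^ 2 ≤
      ∑ i, ∑ j, (y i * y j * cos (π / 2 * GG μ S i 1 j 1) + y i * z j * cos (π / 2 * GG μ S i 1 j (-1)) +
        z i * y j * cos (π / 2 * GG μ S i (-1) j 1) + z i * z j * cos (π / 2 * GG μ S i (-1) j (-1))) := by
  have hpi := Real.pi_pos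
  obtain ⟨a, b, hab1, hab2⟩ := step2 hμ (afinal_sign hS)
  have hc : ∀ i, 0 < cos (π / 2 * μ i) := fun i =>
    Real.cos_pos_of_mem_Ioo ⟨by nlinarith [hμ.nonneg i], by nlinarith [hμ1 i]⟩
  obtain ⟨y, hy⟩ : ∃ y : ι → ℝ, y = fun i => (μ i * a i / cos (π / 2 * μ i) +
    -(μ i * b i) / sin (π / 2 * μ i)) / 2 := ⟨_, rfl⟩
  obtain ⟨z, hz⟩ : ∃ z : ι → ℝ, z = fun i => (μ i * a i / cos (π / 2 * μ i) -
    -(μ i * b i) / sin (π / 2 * μ i)) / 2 := ⟨_, rfl⟩
  have h1 : ∀ i, (y i + z i) * cos (π / 2 * μ i) = μ i * a i := by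
    intro i
    have e : y i + z i = μ i * a i / cos (π / 2 * μ i) := by
      rw [hy, hz]
      ring
    rw [e, div_mul_cancel₀ _ (hc i).ne']
  have h2 : ∀ i, (y i - z i) * sin (π / 2 * μ i) = -(μ i * b i) := by
    intro i
    have e : y i - z i = -(μ i * b i) / sin (π / 2 * μ i) := by
      rw [hy, hz]
      ring
    rw [e]
    rcases (hμ.nonneg i).eq_or_lt with h0 | h0
    · rw [← h0]
      simp
    · have hs : 0 < sin (π / 2 * μ i) :=
        Real.sin_pos_of_pos_of_lt_pi (by positivity) (by nlinarith [hμ1 i])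
      rw [div_mul_cancel₀ _ hs.ne']
  have h3 : ∑ i, ‖xx μ y z i‖ = ∑ i, μ i * √(a i ^ 2 + b i ^ 2) := by
    refine Finset.sum_congr rfl fun i _ => ?_
    rw [afinal_xx, h1, h2, Complex.norm_add_mul_I]
    rw [show (μ i * a i) ^ 2 + (-(μ i * b i)) ^ 2 = μ i ^ 2 * (a i ^ 2 + b i ^ 2) by ring,
      Real.sqrt_mul (sq_nonneg _), Real.sqrt_sq (hμ.nonneg i)]
  refine ⟨y, z, ?_, ?_⟩
  · rw [h3]
    linarith
  · have h4 : ∑ i, ∑ j, afinal_R μ S a b i j ≤ ∑ i, ∑ j, π / 2 * afinal_F μ S y z i j := by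
      refine Finset.sum_le_sum fun i _ => Finset.sum_le_sum fun j _ => ?_
      by_cases h : i = j
      · subst h
        exact afinal_dg hμ hμ1 hS h1 h2 i
      · exact (afinal_off hS h1 h2 h).le
    have h5 : ∑ i, ∑ j, π / 2 * afinal_F μ S y z i j = π / 2 * ∑ i, ∑ j, afinal_F μ S y z i j := by
      rw [Finset.mul_sum]
      refine Finset.sum_congr rfl fun i _ => ?_
      rw [Finset.mul_sum]
    rw [afinal_sumR, h5] at h4
    have h6 := hab2.trans h4
    rw [h3]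
    have h7 : 2 / π * (∑ i, μ i * √(a i ^ 2 + b i ^ 2)) ^ 2 ≤
        2 / π * (π / 2 * ∑ i, ∑ j, afinal_F μ S y z i j) :=
      mul_le_mul_of_nonneg_left h6 (by positivity)
    refine h7.trans (le_of_eq ?_)
    have h8 : 2 / π * (π / 2 * ∑ i, ∑ j, afinal_F μ S y z i j) =
        ∑ i, ∑ j, afinal_F μ S y z i j := by
      field_simp
    rw [h8]
    rfl

end H47A
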