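import Pool.Agent.Lib.H47A.ADefs

/-! # H47A, chunk ALIP (S)
Elementary estimates for `G`.
PROOF. `Gm_symm`: mul_comm. `Gm_abs_le`: |G i j| <= sum mu_k |S_ik S_jk| <= sum mu_k = 1.
`lip`: with p = S i j * S i' j (= 1 or -1), S i j * G i j - S i' j * G i' j = sum_k mu_k S_jk (S_ij S_ik - S_i'j S_i'k) and
1 - p G i i' = sum_k mu_k (1 - p S_ik S_i'k) (weights have sum one). Compare termwise:
|S_jk (S_ij S_ik - S_i'j S_i'k)| <= 1 - p S_ik S_i'k for every k: if k is none of i, i', j all entries are signs, put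
x = S_ij S_ik, y = S_i'j S_i'k (signs), |x - y| = 1 - x y and x y = p S_ik S_i'k; if k = i (or k = i') then S_ii = 0 and both
sides are 1; if k = j then S_jj = 0 and the right side is 1 - p^2 = 0. (Finite case check: rcases on the signs.)
`mass`: sum over k of mu_k = 1 and sum_k mu_k S_ik S_i'k = G, the terms k = i, i' of the second sum vanish. -/

open Real Finset

namespace H47A

variable {ι : Type*} [Fintype ι] [DecidableEq ι] {μ : ι → ℝ} {S : ι → ι → ℝ}

theorem Gm_symm (i j : ι) : Gm μ S i j = Gm μ S j i := by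
  unfold Gm
  refine Finset.sum_congr rfl fun k _ => ?_
  ring

theorem alip_abs (hS : IsSign S) (i j : ι) : |S i j| ≤ 1 := by
  by_cases h : i = j
  · rw [h, hS.diag, abs_zero]
    exact zero_le_one
  · rcases hS.off i j h with h' | h' <;> rw [h'] <;> norm_num

theorem Gm_abs_le (hμ : IsWt μ) (hS : IsSign S) (i j : ι) : |Gm μ S i j| ≤ 1 := by
  unfold Gm
  refine (Finset.abs_sum_le_sum_abs _ _).trans ?_
  rw [← hμ.sum]
  refine Finset.sum_le_sum fun k _ => ?_
  rw [abs_mul, abs_mul, abs_of_nonneg (hμ.nonneg k)]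
  have h1 := alip_abs hS i k
  have h2 := alip_abs hS j k
  have h3 : |S i k| * |S j k| ≤ 1 := mul_le_one₀ h1 (abs_nonneg _) h2
  exact mul_le_of_le_one_right (hμ.nonneg k) h3

theorem Pm_symm (i j : ι) : Pm μ S i j = Pm μ S j i := by
  unfold Pm
  by_cases h : i = j
  · rw [if_pos h, if_pos h.symm, h]
  · rw [if_neg h, if_neg (Ne.symm h), Gm_symm]

theorem Pm_nonneg (hμ : IsWt μ) (hS : IsSign S) (i j : ι) : 0 ≤ Pm μ S i j := by
  unfold Pm
  have hpi := Real.pi_pos
  split_ifs with h
  · have := hμ.nonneg i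
    positivity
  · apply mul_nonneg (by positivity)
    have h1 := abs_le.mp (Gm_abs_le hμ hS i j)
    apply Real.cos_nonneg_of_mem_Icc
    constructor
    · nlinarith [h1.1]
    · nlinarith [h1.2]

theorem alip_term (hS : IsSign S) {i i' j : ι} (hi : j ≠ i) (hi' : j ≠ i') (k : ι) :
    |S i j * (S i k * S j k) - S i' j * (S i' k * S j k)| ≤ 1 - (S i j * S i' j) * (S i k * S i' k) := by
  have a1 := hS.off i j (Ne.symm hi)
  have a2 := hS.off i' j (Ne.symm hi')
  by_cases hkj : k = j
  · subst hkj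
    rw [hS.diag k]
    rcases a1 with a1 | a1 <;> rcases a2 with a2 | a2 <;> rw [a1, a2] <;> norm_num
  by_cases hki : k = i
  · subst hki
    rw [hS.diag k]
    have h1 := alip_abs hS i' j
    have h2 := alip_abs hS i' k
    have h3 := alip_abs hS j k
    have h4 : |S i' j * (S i' k * S j k)| ≤ 1 := by
      rw [abs_mul, abs_mul]
      exact mul_le_one₀ h1 (by positivity) (mul_le_one₀ h2 (abs_nonneg _) h3)
    rw [zero_mul, mul_zero, zero_sub, abs_neg, zero_mul, mul_zero, sub_zero]
    exact h4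
  by_cases hki' : k = i'
  · subst hki'
    rw [hS.diag k]
    have h1 := alip_abs hS i j
    have h2 := alip_abs hS i k
    have h3 := alip_abs hS j k
    have h4 : |S i j * (S i k * S j k)| ≤ 1 := by
      rw [abs_mul, abs_mul]
      exact mul_le_one₀ h1 (by positivity) (mul_le_one₀ h2 (abs_nonneg _) h3)
    rw [zero_mul, mul_zero, sub_zero, mul_zero, mul_zero, sub_zero]
    exact h4
  have a3 := hS.off i k (Ne.symm hki)
  have a4 := hS.off i' k (Ne.symm hki')
  have a5 := hS.off j k (Ne.symm hkj)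
  rcases a1 with a1 | a1 <;> rcases a2 with a2 | a2 <;> rcases a3 with a3 | a3 <;>
    rcases a4 with a4 | a4 <;> rcases a5 with a5 | a5 <;> rw [a1, a2, a3, a4, a5] <;> norm_num

theorem lip (hμ : IsWt μ) (hS : IsSign S) {i i' j : ι} (hi : j ≠ i) (hi' : j ≠ i') :
    |S i j * Gm μ S i j - S i' j * Gm μ S i' j| ≤ 1 - (S i j * S i' j) * Gm μ S i i' := by
  have e1 : S i j * Gm μ S i j - S i' j * Gm μ S i' j =
      ∑ k, μ k * (S i j * (S i k * S j k) - S i' j * (S i' k * S j k)) := by
    unfold Gm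
    rw [Finset.mul_sum, Finset.mul_sum, ← Finset.sum_sub_distrib]
    refine Finset.sum_congr rfl fun k _ => ?_
    ring
  have e2 : 1 - (S i j * S i' j) * Gm μ S i i' =
      ∑ k, μ k * (1 - (S i j * S i' j) * (S i k * S i' k)) := by
    unfold Gm
    conv_lhs => rw [← hμ.sum]
    rw [Finset.mul_sum, ← Finset.sum_sub_distrib]
    refine Finset.sum_congr rfl fun k _ => ?_
    ring
  rw [e1, e2]
  refine (Finset.abs_sum_le_sum_abs _ _).trans ?_
  refine Finset.sum_le_sum fun k _ => ?_
  rw [abs_mul, abs_of_nonneg (hμ.nonneg k)]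
  exact mul_le_mul_of_nonneg_left (alip_term hS hi hi' k) (hμ.nonneg k)

/-- The masses: for `i ≠ i'`, any affine function `x + y * (S i j * S i' j)` of the sign product sums over `j ∉ {i,i'}` to
`x (1 - mu_i - mu_i') + y G`. -/
theorem mass (hμ : IsWt μ) (hS : IsSign S) {i i' : ι} (h : i ≠ i') (x y : ℝ) :
    ∑ j ∈ univ.filter (fun j => j ≠ i ∧ j ≠ i'), μ j * (x + y * (S i j * S i' j)) =
      x * (1 - μ i - μ i') + y * Gm μ S i i' := by
  have h1 : ∀ f : ι → ℝ, ∑ j ∈ univ.filter (fun j => j ≠ i ∧ j ≠ i'), f j =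
      ∑ j, f j - f i - f i' := by
    intro f
    have e : univ.filter (fun j => j ≠ i ∧ j ≠ i') = (univ.erase i).erase i' := by
      ext j
      simp only [Finset.mem_filter, Finset.mem_univ, true_and, Finset.mem_erase, and_true]
      tauto
    rw [e]
    have m1 : i' ∈ univ.erase i := by
      simp [Ne.symm h]
    rw [Finset.sum_erase_eq_sub m1, Finset.sum_erase_eq_sub (Finset.mem_univ i)]
  rw [h1]
  have e2 : ∑ j, μ j * (x + y * (S i j * S i' j)) = x + y * Gm μ S i i' := by
    unfold Gm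
    rw [Finset.mul_sum]
    have : x = ∑ j, x * μ j := by rw [← Finset.mul_sum, hμ.sum, mul_one]
    conv_rhs => rw [this]
    rw [← Finset.sum_add_distrib]
    refine Finset.sum_congr rfl fun k _ => ?_
    ring
  rw [e2, hS.diag i, hS.diag i']
  ring

end H47A
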