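import Pool.Agent.Lib.H47A.ADefs

/-! # H47A, chunk APERRON (M)
Perron vector of `P + 1 x 1` for a symmetric nonnegative matrix `P` and probability weights (some may vanish).
PROOF. Let B i j = sqrt(mu_i) sqrt(mu_j) (P i j + 1): symmetric with nonnegative entries. Maximise u |-> sum_ij B_ij u_i u_j on
the unit sphere of EuclideanSpace (compact; ι is nonempty since the weights have sum one); let the maximum be s. For a maximiser
u also |u| (entrywise) is a maximiser since B >= 0, so take u >= 0; a maximiser of the Rayleigh quotient of a symmetric matrix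
is an eigenvector: B u = s u (`IsSelfAdjoint.hasEigenvector_of_isMaxOn` or
`LinearMap.IsSymmetric.hasEigenvalue_iSup_of_finiteDimensional`-style lemmas, or directly: the maximum over the line
u + t v gives sum B u v = s <u,v>). s >= value at the unit vector sqrt(mu), which is sum mu_i mu_j (P_ij + 1) >= 1.
Put a'_i = (1/s) sum_j (P_ij + 1) sqrt(mu_j) u_j >= 0 for all i; then sqrt(mu_i) a'_i = (1/s)(B u)_i = u_i, hence
sum_j mu_j (P_ij + 1) a'_j = sum_j (P_ij+1) sqrt(mu_j) u_j = s a'_i. c = sum mu_i a'_i = sum sqrt(mu_i) u_i > 0: u is not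
zero, and u_i != 0 forces mu_i > 0. Put a = a'/c: sum_j mu_j P_ij a_j + sum_j mu_j a_j = s a_i and sum mu a = 1. -/

open Real Finset

namespace H47A

theorem aperron_eig {ι : Type*} [Fintype ι] (B : ι → ι → ℝ) (hs : ∀ i j, B i j = B j i)
    (hB : ∀ i j, 0 ≤ B i j) (m : ι → ℝ) (hm : ∀ i, 0 ≤ m i) (hm1 : ∑ i, m i ^ 2 = 1)
    (hm2 : 1 ≤ ∑ i, ∑ j, B i j * (m i * m j)) :
    ∃ (s : ℝ) (u : ι → ℝ), 1 ≤ s ∧ (∀ i, 0 ≤ u i) ∧ ∑ i, u i ^ 2 = 1 ∧
      ∀ i, ∑ j, B i j * u j = s * u i := by
  classical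
  let Q : (ι → ℝ) → ℝ := fun u => ∑ i, ∑ j, B i j * (u i * u j)
  have hQc : Continuous Q :=
    continuous_finsetSum _ fun i _ => continuous_finsetSum _ fun j _ =>
      ((continuous_apply i).mul (continuous_apply j)).const_mul _
  let K : Set (ι → ℝ) := {u | (∀ i, 0 ≤ u i) ∧ ∑ i, u i ^ 2 = 1}
  have hKc : IsCompact K := by
    refine (isCompact_univ_pi (fun _ : ι => isCompact_Icc (a := (0 : ℝ)) (b := 1))).of_isClosed_subset
      ?_ ?_
    · have h1 : IsClosed {u : ι → ℝ | ∀ i, 0 ≤ u i} := by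
        simp only [Set.ofPred_forall]
        exact isClosed_iInter fun i => isClosed_le continuous_const (continuous_apply i)
      have h2 : IsClosed {u : ι → ℝ | ∑ i, u i ^ 2 = 1} :=
        isClosed_eq (continuous_finsetSum _ fun i _ => (continuous_apply i).pow 2) continuous_const
      exact h1.inter h2
    · rintro u ⟨h0, h1⟩ i _
      have h2 : u i ^ 2 ≤ 1 := by
        rw [← h1]
        exact single_le_sum (f := fun j => u j ^ 2) (fun j _ => sq_nonneg (u j)) (mem_univ i)
      refine ⟨h0 i, ?_⟩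
      nlinarith [h0 i]
  obtain ⟨u, huK, hmax⟩ := hKc.exists_isMaxOn ⟨m, hm, hm1⟩ hQc.continuousOn
  obtain ⟨hu0, hu1⟩ := huK
  set s : ℝ := Q u with hsdef
  have hs1 : 1 ≤ s := hm2.trans (hmax ⟨hm, hm1⟩)
  -- the quadratic form is at most `s` times the square of the norm
  have hR : ∀ v : ι → ℝ, Q v ≤ s * ∑ i, v i ^ 2 := by
    intro v
    have h1 : Q v ≤ Q (fun i => |v i|) := by
      refine sum_le_sum fun i _ => sum_le_sum fun j _ => ?_
      refine mul_le_mul_of_nonneg_left ?_ (hB i j)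
      show v i * v j ≤ |v i| * |v j|
      rw [← abs_mul]
      exact le_abs_self _
    refine h1.trans ?_
    set N : ℝ := ∑ i, v i ^ 2 with hN
    have hN0 : 0 ≤ N := sum_nonneg fun i _ => sq_nonneg _
    rcases hN0.eq_or_lt with h2 | h2
    · have h3 : ∀ i, v i = 0 := by
        intro i
        have h4 := (sum_eq_zero_iff_of_nonneg (fun i _ => sq_nonneg (v i))).1 h2.symm i (mem_univ i)
        exact pow_eq_zero_iff (two_ne_zero) |>.1 h4
      have h5 : Q (fun i => |v i|) = 0 := by
        refine sum_eq_zero fun i _ => sum_eq_zero fun j _ => ?_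
        show B i j * (|v i| * |v j|) = 0
        rw [h3 i, abs_zero, zero_mul, mul_zero]
      rw [h5, ← h2, mul_zero]
    · have h6 : (fun i => |v i| / √N) ∈ K := by
        refine ⟨fun i => div_nonneg (abs_nonneg _) (Real.sqrt_nonneg _), ?_⟩
        show ∑ i, (|v i| / √N) ^ 2 = 1
        simp_rw [div_pow, Real.sq_sqrt hN0, sq_abs]
        rw [← sum_div, ← hN, div_self h2.ne']
      have h7 : Q (fun i => |v i| / √N) ≤ s := hmax h6
      have h8 : Q (fun i => |v i|) = N * Q (fun i => |v i| / √N) := by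
        show ∑ i, ∑ j, B i j * (|v i| * |v j|) = N * ∑ i, ∑ j, B i j * (|v i| / √N * (|v j| / √N))
        rw [mul_sum]
        refine sum_congr rfl fun i _ => ?_
        rw [mul_sum]
        refine sum_congr rfl fun j _ => ?_
        have h9 : √N * √N = N := Real.mul_self_sqrt hN0
        have h10 : √N ≠ 0 := (Real.sqrt_pos.2 h2).ne'
        rw [div_mul_div_comm, h9]
        field_simp
      rw [h8, mul_comm s N]
      exact mul_le_mul_of_nonneg_left h7 hN0
  refine ⟨s, u, hs1, hu0, hu1, fun k => ?_⟩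
  -- the first order condition in the direction of the basis vector
  set r : ℝ := s - B k k with hr
  set c : ℝ := s * u k - ∑ j, B k j * u j with hc
  have hQt : ∀ t : ℝ, Q (fun i => u i + t * (if i = k then 1 else 0)) =
      s + 2 * t * (∑ j, B k j * u j) + t ^ 2 * B k k := by
    intro t
    have e1 : Q (fun i => u i + t * (if i = k then 1 else 0)) =
        ∑ i, ∑ j, (B i j * (u i * u j) + t * (B i j * u j * (if i = k then 1 else 0)) +
          t * (B i j * u i * (if j = k then 1 else 0)) +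
          t ^ 2 * (B i j * (if i = k then 1 else 0) * (if j = k then 1 else 0))) := by
      refine sum_congr rfl fun i _ => sum_congr rfl fun j _ => ?_
      ring
    rw [e1]
    simp only [sum_add_distrib, ← mul_sum]
    have e2 : ∑ i, ∑ j, B i j * u j * (if i = k then (1 : ℝ) else 0) = ∑ j, B k j * u j := by
      rw [sum_comm]
      refine sum_congr rfl fun j _ => ?_
      simp
    have e3 : ∑ i, ∑ j, B i j * u i * (if j = k then (1 : ℝ) else 0) = ∑ j, B k j * u j := by
      refine sum_congr rfl fun i _ => ?_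
      simp [hs i k]
    have e4 : ∑ i, ∑ j, B i j * (if i = k then (1 : ℝ) else 0) * (if j = k then (1 : ℝ) else 0) =
        B k k := by
      simp
    rw [e2, e3, e4, hsdef]
    show Q u + _ + _ + _ = _
    ring
  have hNt : ∀ t : ℝ, ∑ i, (u i + t * (if i = k then 1 else 0)) ^ 2 = 1 + 2 * t * u k + t ^ 2 := by
    intro t
    have e1 : ∀ i, (u i + t * (if i = k then (1 : ℝ) else 0)) ^ 2 =
        u i ^ 2 + 2 * t * (u i * (if i = k then 1 else 0)) + t ^ 2 * (if i = k then 1 else 0) := by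
      intro i
      split_ifs <;> ring
    simp_rw [e1]
    simp only [sum_add_distrib, ← mul_sum]
    rw [hu1]
    simp
  have hlin : ∀ t : ℝ, 0 ≤ 2 * t * c + t ^ 2 * r := by
    intro t
    have h1 := hR (fun i => u i + t * (if i = k then 1 else 0))
    rw [hQt] at h1
    have h2 := hNt t
    rw [h2] at h1
    rw [hc, hr]
    nlinarith [h1]
  have hr0 : 0 ≤ r := by
    have h1 := hlin 1
    have h2 := hlin (-1)
    nlinarith [h1, h2]
  have h1 := hlin (-c / (r + 1))
  have h2 : 2 * (-c / (r + 1)) * c + (-c / (r + 1)) ^ 2 * r = -(c ^ 2 * (r + 2) / (r + 1) ^ 2) := by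
    field_simp
    ring
  rw [h2] at h1
  have h3 : 0 ≤ c ^ 2 * (r + 2) / (r + 1) ^ 2 := by positivity
  have h4 : c ^ 2 * (r + 2) / (r + 1) ^ 2 = 0 := le_antisymm (by linarith) h3
  have h5 : c = 0 := by
    rw [div_eq_zero_iff] at h4
    rcases h4 with h4 | h4
    · rcases mul_eq_zero.1 h4 with h6 | h6
      · exact pow_eq_zero_iff two_ne_zero |>.1 h6
      · exfalso
        linarith
    · exfalso
      have : 0 < (r + 1) ^ 2 := by positivity
      linarith
  rw [hc] at h5
  linarith

theorem perron {ι : Type*} [Fintype ι] (μ : ι → ℝ) (hμ : IsWt μ) (P : ι → ι → ℝ)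
    (hsymm : ∀ i j, P i j = P j i) (hpos : ∀ i j, 0 ≤ P i j) :
    ∃ (s : ℝ) (a : ι → ℝ), 0 < s ∧ (∀ i, 0 < a i) ∧ ∑ i, μ i * a i = 1 ∧
      ∀ i, app μ P a i + 1 = s * a i := by
  have hsq : ∀ i, √(μ i) * √(μ i) = μ i := fun i => Real.mul_self_sqrt (hμ.nonneg i)
  have hm1 : ∑ i, √(μ i) ^ 2 = 1 := by
    rw [← hμ.sum]
    exact sum_congr rfl fun i _ => Real.sq_sqrt (hμ.nonneg i)
  have hm2 : 1 ≤ ∑ i, ∑ j, (√(μ i) * √(μ j) * (P i j + 1)) * (√(μ i) * √(μ j)) := by
    have e1 : ∑ i, ∑ j, μ i * μ j = 1 := by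
      rw [← sum_mul_sum, hμ.sum, one_mul]
    refine e1.symm.le.trans (sum_le_sum fun i _ => sum_le_sum fun j _ => ?_)
    have e2 : (√(μ i) * √(μ j) * (P i j + 1)) * (√(μ i) * √(μ j)) = μ i * μ j * (P i j + 1) := by
      calc _ = (√(μ i) * √(μ i)) * (√(μ j) * √(μ j)) * (P i j + 1) := by ring
        _ = _ := by rw [hsq, hsq]
    rw [e2]
    nlinarith [mul_nonneg (mul_nonneg (hμ.nonneg i) (hμ.nonneg j)) (hpos i j)]
  obtain ⟨s, u, hs1, hu0, hu1, hBu⟩ := aperron_eig (fun i j => √(μ i) * √(μ j) * (P i j + 1))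
    (fun i j => by
      show √(μ i) * √(μ j) * (P i j + 1) = √(μ j) * √(μ i) * (P j i + 1)
      rw [hsymm i j, mul_comm √(μ i)])
    (fun i j => mul_nonneg (mul_nonneg (Real.sqrt_nonneg _) (Real.sqrt_nonneg _))
      (by linarith [hpos i j]))
    (fun i => √(μ i)) (fun i => Real.sqrt_nonneg _) hm1 hm2
  have hs0 : 0 < s := by linarith
  set a' : ι → ℝ := fun i => (∑ j, (P i j + 1) * (√(μ j) * u j)) / s with ha'
  have hra : ∀ i, √(μ i) * a' i = u i := by
    intro i
    have h1 := hBu i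
    rw [ha']
    show √(μ i) * ((∑ j, (P i j + 1) * (√(μ j) * u j)) / s) = u i
    rw [← mul_div_assoc, div_eq_iff hs0.ne', mul_comm (u i) s, ← h1, mul_sum]
    refine sum_congr rfl fun j _ => ?_
    ring
  set c : ℝ := ∑ i, √(μ i) * u i with hc
  have hc0 : 0 < c := by
    have h1 : ∃ i, u i ≠ 0 := by
      by_contra h
      push Not at h
      simp [h] at hu1
    obtain ⟨i, hi⟩ := h1
    have h2 : 0 < √(μ i) := by
      rcases (Real.sqrt_nonneg (μ i)).eq_or_lt with h3 | h3
      · exfalso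
        apply hi
        rw [← hra i, ← h3, zero_mul]
      · exact h3
    have h4 : 0 < u i := lt_of_le_of_ne (hu0 i) (Ne.symm hi)
    have h5 : √(μ i) * u i ≤ c :=
      single_le_sum (f := fun j => √(μ j) * u j)
        (fun j _ => mul_nonneg (Real.sqrt_nonneg _) (hu0 j)) (mem_univ i)
    exact lt_of_lt_of_le (mul_pos h2 h4) h5
  have hca : ∑ i, μ i * a' i = c := by
    rw [hc]
    refine sum_congr rfl fun i _ => ?_
    calc μ i * a' i = √(μ i) * (√(μ i) * a' i) := by rw [← mul_assoc, hsq]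
      _ = _ := by rw [hra]
  have ha'0 : ∀ i, 0 < a' i := by
    intro i
    refine div_pos ?_ hs0
    refine lt_of_lt_of_le hc0 (sum_le_sum fun j _ => ?_)
    have h1 : 0 ≤ √(μ j) * u j := mul_nonneg (Real.sqrt_nonneg _) (hu0 j)
    nlinarith [mul_nonneg (hpos i j) h1]
  refine ⟨s, fun i => a' i / c, hs0, fun i => div_pos (ha'0 i) hc0, ?_, fun i => ?_⟩
  · simp_rw [← mul_div_assoc]
    rw [← sum_div, hca, div_self hc0.ne']
  · have h1 : app μ P (fun i => a' i / c) i = (∑ j, μ j * (P i j * a' j)) / c := by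
      unfold app
      rw [sum_div]
      refine sum_congr rfl fun j _ => ?_
      ring
    have h2 : ∑ j, μ j * (P i j * a' j) + c = s * a' i := by
      rw [← hca, ← sum_add_distrib]
      have h3 : s * a' i = ∑ j, (P i j + 1) * (√(μ j) * u j) := by
        rw [ha']
        show s * ((∑ j, (P i j + 1) * (√(μ j) * u j)) / s) = _
        field_simp
      rw [h3]
      refine sum_congr rfl fun j _ => ?_
      rw [← hra j, ← mul_assoc √(μ j), hsq]
      ring
    rw [h1]
    show _ = s * (a' i / c)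
    rw [div_add_one hc0.ne', h2]
    ring

end H47A
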