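import Pool.Agent.Lib.H47A.APsi

/-! # H47A, chunk APSD (S/M)
Positive definiteness of `Psi` with the constant 2.
PROOF. `Psi (U i - U j) = int_0^2 cc(u - U i) cc(u - U j) du`: in the definition substitute u -> u - U j (period 2,
`Function.Periodic.intervalIntegral_add_eq`): int_0^2 cc(u) cc(u - (U i - U j)) du = int_0^2 cc(u - U j) cc(u - U i) du.
Hence the double sum is int_0^2 F(u)^2 du, F(u) = sum_i w_i cc(u - U i), and int_0^2 F = 2 sum w (`cc_integral`).
Cauchy-Schwarz: 0 <= int_0^2 (F - s)^2 = int F^2 - 2 s int F + 2 s^2 with s = sum w gives int F^2 >= 4 s^2 - 2 s^2 = 2 s^2. -/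

open Real Finset

namespace H47A

theorem apsd_shift (a b : ℝ) :
    Psi (a - b) = ∫ u in (0 : ℝ)..2, cc (u - a) * cc (u - b) := by
  have h1 : ∫ u in (0 : ℝ)..2, cc (u - a) * cc (u - b) =
      ∫ u in (0 : ℝ)..2, (fun v => cc v * cc (v - (a - b))) (u - b) := by
    refine intervalIntegral.integral_congr fun u _ => ?_
    show cc (u - a) * cc (u - b) = cc (u - b) * cc (u - b - (a - b))
    rw [show u - b - (a - b) = u - a by ring, mul_comm]
  rw [h1, intervalIntegral.integral_comp_sub_right (fun v => cc v * cc (v - (a - b))) b]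
  have h2 := (apsi_per (a - b)).intervalIntegral_add_eq 0 (0 - b)
  rw [zero_add, show (0 : ℝ) - b + 2 = 2 - b by ring] at h2
  exact h2

theorem apsd_int (a : ℝ) : ∫ u in (0 : ℝ)..2, cc (u - a) = 2 := by
  rw [intervalIntegral.integral_comp_sub_right (fun v => cc v) a]
  have h2 := cc_integral (0 - a)
  rw [show (0 : ℝ) - a + 2 = 2 - a by ring] at h2
  exact h2

theorem psi_psd {ι : Type*} [Fintype ι] (w U : ι → ℝ) :
    2 * (∑ i, w i) ^ 2 ≤ ∑ i, ∑ j, w i * w j * Psi (U i - U j) := by
  have hc : ∀ a : ℝ, Continuous fun u => cc (u - a) := fun a =>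
    cc_continuous.comp (continuous_id.sub continuous_const)
  set F : ℝ → ℝ := fun u => ∑ i, w i * cc (u - U i) with hF
  have hFc : Continuous F := continuous_finsetSum _ fun i _ => (hc (U i)).const_mul (w i)
  set s : ℝ := ∑ i, w i with hs
  have h1 : ∫ u in (0 : ℝ)..2, F u = 2 * s := by
    rw [hF, intervalIntegral.integral_finsetSum
      (fun i _ => ((hc (U i)).const_mul (w i)).intervalIntegrable _ _), hs, mul_sum]
    refine sum_congr rfl fun i _ => ?_
    rw [intervalIntegral.integral_const_mul, apsd_int, mul_comm]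
  have h2 : ∑ i, ∑ j, w i * w j * Psi (U i - U j) = ∫ u in (0 : ℝ)..2, F u ^ 2 := by
    have e1 : ∀ u, F u ^ 2 = ∑ i, ∑ j, w i * w j * (cc (u - U i) * cc (u - U j)) := by
      intro u
      rw [hF, sq, sum_mul_sum]
      refine sum_congr rfl fun i _ => sum_congr rfl fun j _ => ?_
      ring
    have hij : ∀ i j, Continuous fun u => w i * w j * (cc (u - U i) * cc (u - U j)) :=
      fun i j => ((hc (U i)).mul (hc (U j))).const_mul _
    simp_rw [e1]
    rw [intervalIntegral.integral_finsetSum
      (fun i _ => (continuous_finsetSum _ fun j _ => hij i j).intervalIntegrable _ _)]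
    refine sum_congr rfl fun i _ => ?_
    rw [intervalIntegral.integral_finsetSum (fun j _ => (hij i j).intervalIntegrable _ _)]
    refine sum_congr rfl fun j _ => ?_
    rw [intervalIntegral.integral_const_mul, apsd_shift]
  rw [h2]
  have h3 : 0 ≤ ∫ u in (0 : ℝ)..2, (F u - s) ^ 2 :=
    intervalIntegral.integral_nonneg (by norm_num) fun u _ => sq_nonneg _
  have h4 : ∫ u in (0 : ℝ)..2, (F u - s) ^ 2 =
      (∫ u in (0 : ℝ)..2, F u ^ 2) - 2 * s * (∫ u in (0 : ℝ)..2, F u) + 2 * s ^ 2 := by
    have e1 : ∀ u, (F u - s) ^ 2 = F u ^ 2 - 2 * s * F u + s ^ 2 := fun u => by ring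
    simp_rw [e1]
    have i1 : IntervalIntegrable (fun u => F u ^ 2) MeasureTheory.volume 0 2 :=
      (hFc.pow 2).intervalIntegrable _ _
    have i2 : IntervalIntegrable (fun u => 2 * s * F u) MeasureTheory.volume 0 2 :=
      (hFc.const_mul _).intervalIntegrable _ _
    rw [intervalIntegral.integral_add (f := fun u => F u ^ 2 - 2 * s * F u) (i1.sub i2)
      (continuous_const.intervalIntegrable _ _),
      intervalIntegral.integral_sub i1 i2, intervalIntegral.integral_const_mul,
      intervalIntegral.integral_const]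
    rw [smul_eq_mul, sub_zero]
  rw [h4, h1] at h3
  nlinarith [h3]

end H47A
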