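import Pool.Agent.Lib.H47A.ADefs

/-! # H47A, chunk APSI (M)
The autocorrelation of `c(u) = (pi/2)|cos(pi u/2)|` over the period 2.
PROOF of `Psi_eq`: put tau = pi/2, 0 <= d <= 2. By periodicity (`Function.Periodic.intervalIntegral_add_eq`, the integrand
`cc u * cc (u - d)` has period 2) the integral over [0,2] equals the integral over [-1,1]. On [-1,1] cos(tau u) >= 0. For
u in [d-1, 1] the argument tau(u-d) lies in [-tau, tau] so cos(tau(u-d)) >= 0; for u in [-1, d-1] the argument tau(u-d) lies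
in [-tau - tau d, -tau], i.e. between -3 pi/2 and -pi/2 (as d <= 2), so cos(tau(u-d)) <= 0. Hence
 Psi d = tau^2 ( int_{d-1}^{1} cos(tau u) cos(tau(u-d)) du - int_{-1}^{d-1} cos(tau u) cos(tau(u-d)) du ),
and cos(tau u)cos(tau(u-d)) = (1/2)(cos(tau d) + cos(2 tau u - tau d)) has the primitive
 Fp(u) = (1/2) u cos(tau d) + sin(2 tau u - tau d)/(4 tau). So Psi d = tau^2 (Fp(1) - 2 Fp(d-1) + Fp(-1))
 = tau^2 ( (1-d) cos(tau d) + [sin(pi - tau d) - 2 sin(pi d - pi - tau d) + sin(-pi - tau d)]/(4 tau) )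
 = tau^2 (1-d) cos(tau d) + (tau/4) [ sin(tau d) + 2 sin(tau d) + sin(tau d) ] = tau (sin(tau d) + tau (1-d) cos(tau d)).
(2 tau = pi; sin(pi d - pi - tau d) = sin(tau d - pi) = - sin(tau d); sin(-pi - tau d) = sin(tau d).)
`Psi_even`: substitute u -> u + d and use periodicity. `Psi_split`, `Psi_one_sub`: from `Psi_eq` by trigonometry
(sin(pi/2 - x) = cos x, cos(pi/2 - x) = sin x). `Psi_zero`: d = 0. -/

open Real Finset

namespace H47A

theorem cc_periodic : Function.Periodic cc 2 := by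
  intro u
  unfold cc
  rw [show π / 2 * (u + 2) = π / 2 * u + π by ring, Real.cos_add_pi, abs_neg]

theorem cc_continuous : Continuous cc := by
  unfold cc
  fun_prop

theorem apsi_cos {u : ℝ} (h : |u| ≤ 1) : cc u = π / 2 * cos (π / 2 * u) := by
  unfold cc
  have hpi := Real.pi_pos
  have h1 := abs_le.1 h
  rw [abs_of_nonneg (Real.cos_nonneg_of_mem_Icc ⟨by nlinarith [h1.1], by nlinarith [h1.2]⟩)]

/-- The integral of `c` over a period is 2 (over any interval of length 2). -/
theorem cc_integral (t : ℝ) : ∫ u in t..(t + 2), cc u = 2 := by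
  rw [cc_periodic.intervalIntegral_add_eq t (-1), show (-1 : ℝ) + 2 = 1 by norm_num]
  have h1 : ∫ u in (-1 : ℝ)..1, cc u = ∫ u in (-1 : ℝ)..1, π / 2 * cos (π / 2 * u) := by
    refine intervalIntegral.integral_congr fun u hu => ?_
    rw [Set.uIcc_of_le (by norm_num)] at hu
    exact apsi_cos (abs_le.2 ⟨hu.1, hu.2⟩)
  rw [h1]
  have h2 : ∀ x ∈ Set.uIcc (-1 : ℝ) 1, HasDerivAt (fun u : ℝ => sin (π / 2 * u))
      (π / 2 * cos (π / 2 * x)) x := by
    intro x _
    have h0 : HasDerivAt (fun d : ℝ => π / 2 * d) (π / 2 * 1) x :=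
      (hasDerivAt_id x).const_mul (π / 2)
    refine h0.sin.congr_deriv ?_
    ring
  rw [intervalIntegral.integral_eq_sub_of_hasDerivAt h2
    ((by fun_prop : Continuous fun u : ℝ => π / 2 * cos (π / 2 * u)).intervalIntegrable _ _)]
  rw [show π / 2 * (-1 : ℝ) = -(π / 2) by ring, mul_one, Real.sin_neg, Real.sin_pi_div_two]
  norm_num

theorem apsi_per (d : ℝ) : Function.Periodic (fun u => cc u * cc (u - d)) 2 := by
  intro u
  show cc (u + 2) * cc (u + 2 - d) = cc u * cc (u - d)
  rw [cc_periodic u, show u + 2 - d = u - d + 2 by ring, cc_periodic (u - d)]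

theorem apsi_prim (d x : ℝ) : HasDerivAt
    (fun u : ℝ => (π / 2) ^ 2 * (1 / 2 * (u * cos (π / 2 * d)) +
      sin (π * u - π / 2 * d) / (2 * π)))
    (π / 2 * cos (π / 2 * x) * (π / 2 * cos (π / 2 * (x - d)))) x := by
  have hpi := Real.pi_pos
  have h0 : HasDerivAt (fun u : ℝ => π * u - π / 2 * d) (π * 1) x :=
    ((hasDerivAt_id x).const_mul π).sub_const _
  have h1 := ((((hasDerivAt_id x).mul_const (cos (π / 2 * d))).const_mul (1 / 2)).add
    (h0.sin.div_const (2 * π))).const_mul ((π / 2) ^ 2)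
  refine h1.congr_deriv ?_
  have e1 : cos (π / 2 * x) * cos (π / 2 * (x - d)) =
      (cos (π / 2 * d) + cos (π * x - π / 2 * d)) / 2 := by
    have a1 : cos (π / 2 * d) = cos (π / 2 * x - π / 2 * (x - d)) := by
      congr 1
      ring
    have a2 : cos (π * x - π / 2 * d) = cos (π / 2 * x + π / 2 * (x - d)) := by
      congr 1
      ring
    rw [a1, a2, Real.cos_sub, Real.cos_add]
    ring
  have e2 : π / 2 * cos (π / 2 * x) * (π / 2 * cos (π / 2 * (x - d))) =
      (π / 2) ^ 2 * (cos (π / 2 * x) * cos (π / 2 * (x - d))) := by ring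
  rw [e2, e1]
  field_simp

theorem Psi_eq {d : ℝ} (h0 : 0 ≤ d) (h2 : d ≤ 2) :
    Psi d = π / 2 * (sin (π / 2 * d) + π / 2 * (1 - d) * cos (π / 2 * d)) := by
  have hpi := Real.pi_pos
  have hc : Continuous fun u => cc u * cc (u - d) :=
    cc_continuous.mul (cc_continuous.comp (continuous_id.sub continuous_const))
  have e0 : Psi d = ∫ u in (-1 : ℝ)..1, cc u * cc (u - d) := by
    have h1 := (apsi_per d).intervalIntegral_add_eq 0 (-1)
    rw [zero_add, show (-1 : ℝ) + 2 = 1 by norm_num] at h1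
    exact h1
  have e1 : ∫ u in (-1 : ℝ)..1, cc u * cc (u - d) =
      (∫ u in (-1 : ℝ)..(d - 1), cc u * cc (u - d)) + ∫ u in (d - 1)..1, cc u * cc (u - d) :=
    (intervalIntegral.integral_add_adjacent_intervals (hc.intervalIntegrable _ _)
      (hc.intervalIntegrable _ _)).symm
  have c0 : Continuous fun u : ℝ => π / 2 * cos (π / 2 * u) * (π / 2 * cos (π / 2 * (u - d))) := by
    fun_prop
  have e2 : ∫ u in (d - 1)..1, cc u * cc (u - d) =
      ∫ u in (d - 1)..1, π / 2 * cos (π / 2 * u) * (π / 2 * cos (π / 2 * (u - d))) := by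
    refine intervalIntegral.integral_congr fun u hu => ?_
    rw [Set.uIcc_of_le (by linarith)] at hu
    show cc u * cc (u - d) = _
    rw [apsi_cos (abs_le.2 ⟨by linarith [hu.1], hu.2⟩),
      apsi_cos (abs_le.2 ⟨by linarith [hu.1], by linarith [hu.2]⟩)]
  have e3 : ∫ u in (-1 : ℝ)..(d - 1), cc u * cc (u - d) =
      ∫ u in (-1 : ℝ)..(d - 1), -(π / 2 * cos (π / 2 * u) * (π / 2 * cos (π / 2 * (u - d)))) := by
    refine intervalIntegral.integral_congr fun u hu => ?_
    rw [Set.uIcc_of_le (by linarith)] at hu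
    show cc u * cc (u - d) = _
    have h5 : cc (u - d) = -(π / 2 * cos (π / 2 * (u - d))) := by
      unfold cc
      have h6 : cos (π / 2 * (u - d)) ≤ 0 := by
        rw [← Real.cos_neg]
        apply Real.cos_nonpos_of_pi_div_two_le_of_le
        · nlinarith [hu.2]
        · nlinarith [hu.1]
      rw [abs_of_nonpos h6]
      ring
    rw [apsi_cos (abs_le.2 ⟨by linarith [hu.1], by linarith [hu.2]⟩), h5]
    ring
  rw [e0, e1, e2, e3, intervalIntegral.integral_neg,
    intervalIntegral.integral_eq_sub_of_hasDerivAt (fun x _ => apsi_prim d x)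
      (c0.intervalIntegrable _ _),
    intervalIntegral.integral_eq_sub_of_hasDerivAt (fun x _ => apsi_prim d x)
      (c0.intervalIntegrable _ _)]
  have s1 : sin (π * 1 - π / 2 * d) = sin (π / 2 * d) := by
    rw [mul_one, Real.sin_pi_sub]
  have s2 : sin (π * (d - 1) - π / 2 * d) = -sin (π / 2 * d) := by
    rw [show π * (d - 1) - π / 2 * d = π / 2 * d - π by ring, Real.sin_sub_pi]
  have s3 : sin (π * (-1) - π / 2 * d) = sin (π / 2 * d) := by
    rw [show π * (-1) - π / 2 * d = -(π / 2 * d + π) by ring, Real.sin_neg, Real.sin_add_pi, neg_neg]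
  rw [s1, s2, s3]
  field_simp
  ring

theorem Psi_even (d : ℝ) : Psi (-d) = Psi d := by
  have h1 : Psi (-d) = ∫ u in (0 : ℝ)..2, (fun v => cc v * cc (v - d)) (u + d) := by
    unfold Psi
    refine intervalIntegral.integral_congr fun u _ => ?_
    show cc u * cc (u - -d) = cc (u + d) * cc (u + d - d)
    rw [sub_neg_eq_add, add_sub_cancel_right, mul_comm]
  rw [h1, intervalIntegral.integral_comp_add_right (fun v => cc v * cc (v - d)) d]
  have h2 := (apsi_per d).intervalIntegral_add_eq d 0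
  rw [zero_add] at h2
  rw [zero_add, add_comm 2 d]
  exact h2

theorem Psi_abs (d : ℝ) : Psi |d| = Psi d := by
  rcases abs_choice d with h | h
  · rw [h]
  · rw [h, Psi_even]

theorem Psi_zero : Psi 0 = (π / 2) ^ 2 := by
  rw [Psi_eq le_rfl (by norm_num)]
  simp
  ring

theorem Psi_split {d : ℝ} (h0 : 0 ≤ d) (h2 : d ≤ 2) :
    Psi d = (π / 2) ^ 2 * cos (π / 2 * d) + th d := by
  rw [Psi_eq h0 h2, th]
  ring

theorem Psi_one_sub {U : ℝ} (h : |U| ≤ 1) :
    Psi (1 - U) = π / 2 * (cos (π / 2 * U) + π / 2 * U * sin (π / 2 * U)) := by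
  have h1 := abs_le.1 h
  rw [Psi_eq (by linarith [h1.2]) (by linarith [h1.1]),
    show π / 2 * (1 - U) = π / 2 - π / 2 * U by ring, Real.sin_pi_div_two_sub,
    Real.cos_pi_div_two_sub, sub_sub_cancel]

end H47A
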