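import Pool.Agent.Lib.H47A.ATh
import Pool.Agent.Lib.H47A.APsd
import Pool.Agent.Lib.H47A.ALip

/-! # H47A, chunk ASTEP1 (M)
STEP 1 of the matrix inequality: for `a >= 0`: `|Wa|^2 + |Pa|^2 + <a,Pa> >= 2 (sum mu a)^2`.
PROOF. tau = pi/2. Put U i j = if i = j then 1 else S i j * G i j. For every j, `psi_psd` with the weights w_i = mu_i a_i and
the points U i j gives 2 (sum mu a)^2 <= sum_{i,i'} mu_i mu_i' a_i a_i' Psi(U i j - U i' j). Multiply by mu_j and sum over j
(sum mu_j = 1), exchange the sums: it is enough to show for all i, i' (then multiply by mu_i mu_i' a_i a_i' >= 0)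
 (*) sum_j mu_j Psi(U i j - U i' j) <= sum_j mu_j (W_ji W_ji' + P_ji P_ji') + P_ii'.
(The right sides add up to |Wa|^2 + |Pa|^2 + <a,Pa> by expanding `app` and `ip`.)
 Case i = i': the left side is Psi 0 = tau^2 (`Psi_zero`). Right side: for j != i, W_ji^2 + P_ji^2 = tau^2 (S_ij^2 = 1,
 sin^2 + cos^2 = 1); for j = i it is >= 0; and P_ii = tau^2 mu_i. Sum >= tau^2 (1 - mu_i) + tau^2 mu_i.
 Case i != i', G = G i i'. For j not in {i,i'}: W_ji W_ji' + P_ji P_ji' = tau^2 (S_ij S_i'j sin sin + cos cos)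
 = tau^2 cos(tau(U i j - U i' j)) (cos even, sin odd: cos(tau G_ij) = cos(tau S_ij G_ij), S_ij sin(tau G_ij) =
 sin(tau S_ij G_ij)), and with delta = |U i j - U i' j| <= 1 - pG <= 2 (`lip`, p = S_ij S_i'j), `Psi_abs`, `Psi_split` and
 `th_mono`: Psi(U i j - U i' j) <= tau^2 cos(tau delta) + th(1 - p G), and th(1 - pG) =
 tau (cos(tau G) + tau G sin(tau G)) - tau^2 sin(tau G) p  (sin(tau - tau p G) = cos(tau G), cos(tau - tau p G) =
 p sin(tau G), p^2 = 1). For j = i: Psi(1 - U i' i) = tau (cos(tau G) + tau G sin(tau G)) (`Psi_one_sub`; U i' i =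
 S i' i G i' i, G symmetric, the expression is even in G) while W_ii W_ii' + P_ii P_ii' >= 0 (W_ii = 0); the same for j = i'
 (Psi even). Summing with `mass`: sum of the th-terms over j not in {i,i'} =
 tau (cos + tau G sin)(1 - mu_i - mu_i') - tau^2 sin(tau G) G, adding (mu_i + mu_i') tau (cos + tau G sin) gives
 tau (cos + tau G sin) - tau^2 G sin = tau cos(tau G) = P_ii'. So (*) holds. -/

open Real Finset

namespace H47A

variable {ι : Type*} [Fintype ι] [DecidableEq ι] {μ : ι → ℝ} {S : ι → ι → ℝ}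

/-- the points -/
noncomputable def astep1_U (μ : ι → ℝ) (S : ι → ι → ℝ) (i j : ι) : ℝ :=
  if i = j then 1 else S i j * Gm μ S i j

theorem astep1_sq (hS : IsSign S) {i j : ι} (h : i ≠ j) : S i j ^ 2 = 1 := by
  rcases hS.off i j h with h1 | h1 <;> rw [h1] <;> norm_num

theorem astep1_cos (hS : IsSign S) {i j : ι} (h : i ≠ j) (x : ℝ) : cos (S i j * x) = cos x := by
  rcases hS.off i j h with h1 | h1 <;> rw [h1]
  · rw [one_mul]
  · rw [neg_one_mul, Real.cos_neg]

theorem astep1_sin (hS : IsSign S) {i j : ι} (h : i ≠ j) (x : ℝ) :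
    sin (S i j * x) = S i j * sin x := by
  rcases hS.off i j h with h1 | h1 <;> rw [h1]
  · rw [one_mul, one_mul]
  · rw [neg_one_mul, neg_one_mul, Real.sin_neg]

theorem astep1_U_le (hμ : IsWt μ) (hS : IsSign S) (i j : ι) : |astep1_U μ S i j| ≤ 1 := by
  unfold astep1_U
  split_ifs with h
  · simp
  · rw [abs_mul]
    have h1 : |S i j| = 1 := by
      rcases hS.off i j h with h1 | h1 <;> rw [h1] <;> simp
    rw [h1, one_mul]
    exact Gm_abs_le hμ hS i j

/-- the expression at `j = i` -/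
theorem astep1_diag (hμ : IsWt μ) (hS : IsSign S) {i i' : ι} (h : i ≠ i') :
    Psi (1 - astep1_U μ S i' i) =
      π / 2 * (cos (π / 2 * Gm μ S i i') + π / 2 * Gm μ S i i' * sin (π / 2 * Gm μ S i i')) := by
  rw [Psi_one_sub (astep1_U_le hμ hS i' i)]
  have e1 : astep1_U μ S i' i = S i' i * Gm μ S i i' := by
    unfold astep1_U
    rw [if_neg h.symm, Gm_symm]
  rw [e1, show π / 2 * (S i' i * Gm μ S i i') = S i' i * (π / 2 * Gm μ S i i') by ring,
    astep1_cos hS h.symm, astep1_sin hS h.symm]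
  have h2 := astep1_sq hS h.symm
  linear_combination (π / 2 * (π / 2 * Gm μ S i i' * sin (π / 2 * Gm μ S i i'))) * h2

theorem astep1_point (hμ : IsWt μ) (hS : IsSign S) {i i' : ι} (h : i ≠ i') (j : ι) :
    Psi (astep1_U μ S i j - astep1_U μ S i' j) ≤
      (Wm μ S j i * Wm μ S j i' + Pm μ S j i * Pm μ S j i') +
        (π / 2 * (cos (π / 2 * Gm μ S i i') + π / 2 * Gm μ S i i' * sin (π / 2 * Gm μ S i i')) -
          (π / 2) ^ 2 * sin (π / 2 * Gm μ S i i') * (S i j * S i' j)) := by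
  have hPP : 0 ≤ Pm μ S j i * Pm μ S j i' := mul_nonneg (Pm_nonneg hμ hS _ _) (Pm_nonneg hμ hS _ _)
  by_cases hj : j = i
  · subst hj
    have e1 : astep1_U μ S j j = 1 := by
      unfold astep1_U
      rw [if_pos rfl]
    have e2 : Wm μ S j j = 0 := by
      unfold Wm
      rw [hS.diag]
      ring
    rw [e1, astep1_diag hμ hS h, e2, hS.diag]
    linarith
  · by_cases hj' : j = i'
    · subst hj'
      have e1 : astep1_U μ S j j = 1 := by
        unfold astep1_U
        rw [if_pos rfl]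
      have e2 : Wm μ S j j = 0 := by
        unfold Wm
        rw [hS.diag]
        ring
      rw [e1, show astep1_U μ S i j - 1 = -(1 - astep1_U μ S i j) by ring, Psi_even,
        astep1_diag hμ hS h.symm, e2, hS.diag, Gm_symm j i]
      linarith
    · have hij : i ≠ j := fun h' => hj h'.symm
      have hij' : i' ≠ j := fun h' => hj' h'.symm
      have eU : astep1_U μ S i j = S i j * Gm μ S i j := by
        unfold astep1_U
        rw [if_neg hij]
      have eU' : astep1_U μ S i' j = S i' j * Gm μ S i' j := by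
        unfold astep1_U
        rw [if_neg hij']
      obtain ⟨δ, hδ⟩ : ∃ δ, δ = |astep1_U μ S i j - astep1_U μ S i' j| := ⟨_, rfl⟩
      obtain ⟨g, hg⟩ : ∃ g, g = Gm μ S i i' := ⟨_, rfl⟩
      obtain ⟨q, hq⟩ : ∃ q, q = S i j * S i' j := ⟨_, rfl⟩
      have hq1 : q = 1 ∨ q = -1 := by
        rw [hq]
        rcases hS.off i j hij with h1 | h1 <;> rcases hS.off i' j hij' with h2 | h2 <;>
          rw [h1, h2] <;> norm_num
      have hδ1 : δ ≤ 1 - q * g := by
        rw [hδ, eU, eU', hq, hg]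
        exact lip hμ hS hj hj'
      have hg1 : |g| ≤ 1 := by
        rw [hg]
        exact Gm_abs_le hμ hS i i'
      have hqg : -1 ≤ q * g ∧ q * g ≤ 1 := by
        have h1 := abs_le.1 hg1
        rcases hq1 with h2 | h2 <;> rw [h2] <;> constructor <;> linarith [h1.1, h1.2]
      have hδ0 : 0 ≤ δ := by
        rw [hδ]
        exact abs_nonneg _
      have k1 : Psi (astep1_U μ S i j - astep1_U μ S i' j) ≤
          (π / 2) ^ 2 * cos (π / 2 * δ) + th (1 - q * g) := by
        rw [← Psi_abs, ← hδ, Psi_split hδ0 (by linarith [hqg.1])]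
        have := th_mono ⟨hδ0, by linarith [hqg.1]⟩ ⟨by linarith [hqg.2], by linarith [hqg.1]⟩ hδ1
        linarith
      have k2 : th (1 - q * g) = π / 2 * (cos (π / 2 * g) + π / 2 * g * sin (π / 2 * g)) -
          (π / 2) ^ 2 * sin (π / 2 * g) * q := by
        unfold th
        rw [show π / 2 * (1 - q * g) = π / 2 - q * (π / 2 * g) by ring, Real.sin_pi_div_two_sub,
          Real.cos_pi_div_two_sub]
        rcases hq1 with h2 | h2 <;> rw [h2]
        · rw [one_mul]
          ring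
        · rw [neg_one_mul, Real.cos_neg, Real.sin_neg]
          ring
      have k3 : cos (π / 2 * δ) = cos (π / 2 * Gm μ S i j) * cos (π / 2 * Gm μ S i' j) +
          S i j * sin (π / 2 * Gm μ S i j) * (S i' j * sin (π / 2 * Gm μ S i' j)) := by
        have e1 : cos (π / 2 * δ) =
            cos (π / 2 * (astep1_U μ S i j - astep1_U μ S i' j)) := by
          rw [hδ]
          rcases abs_choice (astep1_U μ S i j - astep1_U μ S i' j) with h3 | h3
          · rw [h3]
          · rw [h3, mul_neg, Real.cos_neg]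
        rw [e1, eU, eU', show π / 2 * (S i j * Gm μ S i j - S i' j * Gm μ S i' j) =
          S i j * (π / 2 * Gm μ S i j) - S i' j * (π / 2 * Gm μ S i' j) by ring, Real.cos_sub,
          astep1_cos hS hij, astep1_cos hS hij', astep1_sin hS hij, astep1_sin hS hij']
      have k4 : Pm μ S j i = π / 2 * cos (π / 2 * Gm μ S i j) := by
        unfold Pm
        rw [if_neg hj, Gm_symm]
      have k5 : Pm μ S j i' = π / 2 * cos (π / 2 * Gm μ S i' j) := by
        unfold Pm
        rw [if_neg hj', Gm_symm]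
      have k6 : Wm μ S j i = π / 2 * (S i j * sin (π / 2 * Gm μ S i j)) := rfl
      have k7 : Wm μ S j i' = π / 2 * (S i' j * sin (π / 2 * Gm μ S i' j)) := rfl
      rw [k4, k5, k6, k7, ← hq, ← hg]
      rw [k2, k3] at k1
      refine k1.trans (le_of_eq ?_)
      ring

theorem astep1_key (hμ : IsWt μ) (hS : IsSign S) (i i' : ι) :
    ∑ j, μ j * Psi (astep1_U μ S i j - astep1_U μ S i' j) ≤
      (∑ j, μ j * (Wm μ S j i * Wm μ S j i' + Pm μ S j i * Pm μ S j i')) + Pm μ S i i' := by
  by_cases h : i = i'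
  · subst h
    have h1 : ∀ j, μ j * Psi (astep1_U μ S i j - astep1_U μ S i j) =
        μ j * (π / 2) ^ 2 := by
      intro j
      rw [sub_self, Psi_zero]
    rw [Finset.sum_congr rfl fun j _ => h1 j, ← Finset.sum_mul, hμ.sum, one_mul]
    have h2 : ∀ j, μ j * ((π / 2) ^ 2 - if j = i then (π / 2) ^ 2 else 0) ≤
        μ j * (Wm μ S j i * Wm μ S j i + Pm μ S j i * Pm μ S j i) := by
      intro j
      refine mul_le_mul_of_nonneg_left ?_ (hμ.nonneg j)
      split_ifs with hj
      · nlinarith [sq_nonneg (Wm μ S j i), sq_nonneg (Pm μ S j i)]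
      · have e1 : Wm μ S j i = π / 2 * (S i j * sin (π / 2 * Gm μ S i j)) := rfl
        have e2 : Pm μ S j i = π / 2 * cos (π / 2 * Gm μ S i j) := by
          unfold Pm
          rw [if_neg hj, Gm_symm]
        have e3 := astep1_sq hS (i := i) (j := j) (fun h' => hj h'.symm)
        have e4 := Real.sin_sq_add_cos_sq (π / 2 * Gm μ S i j)
        rw [e1, e2, sub_zero]
        refine le_of_eq ?_
        linear_combination (-(π / 2) ^ 2) * e4 -
          ((π / 2) ^ 2 * sin (π / 2 * Gm μ S i j) ^ 2) * e3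
    have h3 := Finset.sum_le_sum fun j (_ : j ∈ Finset.univ) => h2 j
    have h4 : ∑ j, μ j * ((π / 2) ^ 2 - if j = i then (π / 2) ^ 2 else 0) =
        (π / 2) ^ 2 - μ i * (π / 2) ^ 2 := by
      simp only [mul_sub, Finset.sum_sub_distrib, ← Finset.sum_mul, hμ.sum, mul_ite, mul_zero,
        Finset.sum_ite_eq', Finset.mem_univ, if_true, one_mul]
    have h5 : Pm μ S i i = (π / 2) ^ 2 * μ i := by
      unfold Pm
      rw [if_pos rfl]
    rw [h4] at h3
    rw [h5]
    linarith
  · have h1 : ∀ j, μ j * Psi (astep1_U μ S i j - astep1_U μ S i' j) ≤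
        μ j * (Wm μ S j i * Wm μ S j i' + Pm μ S j i * Pm μ S j i') +
        (μ j * (π / 2 * (cos (π / 2 * Gm μ S i i') +
          π / 2 * Gm μ S i i' * sin (π / 2 * Gm μ S i i'))) -
          (π / 2) ^ 2 * sin (π / 2 * Gm μ S i i') * (μ j * (S i j * S i' j))) := by
      intro j
      have := mul_le_mul_of_nonneg_left (astep1_point hμ hS h j) (hμ.nonneg j)
      refine this.trans (le_of_eq ?_)
      ring
    refine (Finset.sum_le_sum fun j _ => h1 j).trans (le_of_eq ?_)
    rw [Finset.sum_add_distrib, Finset.sum_sub_distrib, ← Finset.sum_mul, ← Finset.mul_sum, hμ.sum]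
    have h2 : ∑ j, μ j * (S i j * S i' j) = Gm μ S i i' := rfl
    have h3 : Pm μ S i i' = π / 2 * cos (π / 2 * Gm μ S i i') := by
      unfold Pm
      rw [if_neg h]
    rw [h2, h3]
    ring

theorem astep1_ip (M : ι → ι → ℝ) (a : ι → ℝ) : ip μ (app μ M a) (app μ M a) =
    ∑ i, ∑ i', μ i * a i * (μ i' * a i') * ∑ j, μ j * (M j i * M j i') := by
  unfold ip app
  have h1 : ∀ j, μ j * ((∑ i, μ i * (M j i * a i)) * ∑ i, μ i * (M j i * a i)) =
      ∑ i, ∑ i', μ i * a i * (μ i' * a i') * (μ j * (M j i * M j i')) := by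
    intro j
    rw [Finset.sum_mul_sum, Finset.mul_sum]
    refine Finset.sum_congr rfl fun i _ => ?_
    rw [Finset.mul_sum]
    refine Finset.sum_congr rfl fun i' _ => ?_
    ring
  rw [Finset.sum_congr rfl fun j _ => h1 j, Finset.sum_comm]
  refine Finset.sum_congr rfl fun i _ => ?_
  rw [Finset.sum_comm]
  refine Finset.sum_congr rfl fun i' _ => ?_
  rw [Finset.mul_sum]

theorem step1 (hμ : IsWt μ) (hS : IsSign S) (a : ι → ℝ) (ha : ∀ i, 0 ≤ a i) :
    2 * (∑ i, μ i * a i) ^ 2 ≤
      ip μ (app μ (Wm μ S) a) (app μ (Wm μ S) a) + ip μ (app μ (Pm μ S) a) (app μ (Pm μ S) a) +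
        ip μ a (app μ (Pm μ S) a) := by
  have h1 : ∀ j, μ j * (2 * (∑ i, μ i * a i) ^ 2) ≤
      μ j * ∑ i, ∑ i', μ i * a i * (μ i' * a i') *
        Psi (astep1_U μ S i j - astep1_U μ S i' j) := fun j =>
    mul_le_mul_of_nonneg_left (psi_psd (fun i => μ i * a i) fun i => astep1_U μ S i j)
      (hμ.nonneg j)
  have h2 : 2 * (∑ i, μ i * a i) ^ 2 = ∑ j, μ j * (2 * (∑ i, μ i * a i) ^ 2) := by
    rw [← Finset.sum_mul, hμ.sum, one_mul]
  rw [h2]
  refine (Finset.sum_le_sum fun j _ => h1 j).trans ?_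
  have h3 : ∑ j, μ j * ∑ i, ∑ i', μ i * a i * (μ i' * a i') *
      Psi (astep1_U μ S i j - astep1_U μ S i' j) =
      ∑ i, ∑ i', μ i * a i * (μ i' * a i') *
        ∑ j, μ j * Psi (astep1_U μ S i j - astep1_U μ S i' j) := by
    have e1 : ∀ j, μ j * ∑ i, ∑ i', μ i * a i * (μ i' * a i') *
        Psi (astep1_U μ S i j - astep1_U μ S i' j) = ∑ i, ∑ i', μ i * a i * (μ i' * a i') *
        (μ j * Psi (astep1_U μ S i j - astep1_U μ S i' j)) := by
      intro j
      rw [Finset.mul_sum]
      refine Finset.sum_congr rfl fun i _ => ?_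
      rw [Finset.mul_sum]
      refine Finset.sum_congr rfl fun i' _ => ?_
      ring
    rw [Finset.sum_congr rfl fun j _ => e1 j, Finset.sum_comm]
    refine Finset.sum_congr rfl fun i _ => ?_
    rw [Finset.sum_comm]
    refine Finset.sum_congr rfl fun i' _ => ?_
    rw [Finset.mul_sum]
  rw [h3]
  have h4 : ∑ i, ∑ i', μ i * a i * (μ i' * a i') *
      ∑ j, μ j * Psi (astep1_U μ S i j - astep1_U μ S i' j) ≤
      ∑ i, ∑ i', μ i * a i * (μ i' * a i') *
        ((∑ j, μ j * (Wm μ S j i * Wm μ S j i' + Pm μ S j i * Pm μ S j i')) + Pm μ S i i') :=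
    Finset.sum_le_sum fun i _ => Finset.sum_le_sum fun i' _ =>
      mul_le_mul_of_nonneg_left (astep1_key hμ hS i i')
        (mul_nonneg (mul_nonneg (hμ.nonneg i) (ha i)) (mul_nonneg (hμ.nonneg i') (ha i')))
  refine h4.trans (le_of_eq ?_)
  have h5 : ip μ a (app μ (Pm μ S) a) =
      ∑ i, ∑ i', μ i * a i * (μ i' * a i') * Pm μ S i i' := by
    unfold ip app
    refine Finset.sum_congr rfl fun i _ => ?_
    rw [Finset.mul_sum, Finset.mul_sum]
    refine Finset.sum_congr rfl fun i' _ => ?_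
    ring
  rw [astep1_ip, astep1_ip, h5, ← Finset.sum_add_distrib, ← Finset.sum_add_distrib]
  refine Finset.sum_congr rfl fun i _ => ?_
  rw [← Finset.sum_add_distrib, ← Finset.sum_add_distrib]
  refine Finset.sum_congr rfl fun i' _ => ?_
  have h6 : ∑ j, μ j * (Wm μ S j i * Wm μ S j i' + Pm μ S j i * Pm μ S j i') =
      (∑ j, μ j * (Wm μ S j i * Wm μ S j i')) + ∑ j, μ j * (Pm μ S j i * Pm μ S j i') := by
    rw [← Finset.sum_add_distrib]
    exact Finset.sum_congr rfl fun j _ => by ring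
  rw [h6]
  ring

end H47A
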