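import Pool.Agent.Lib.H47A.AStep1
import Pool.Agent.Lib.H47A.APerron

/-! # H47A, chunk ASTEP2 (M)
STEP 2. PROOF. Take s, a from `perron` with P = Pm (symmetric and nonnegative: `Pm_symm`, `Pm_nonneg`). Write E f = sum mu f,
|f|^2 = ip f f, w = app Wm a, b = w/(s+1). From `perron`: Pa = s a - 1, so ip a (Pa) = s |a|^2 - 1 (E a = 1) and
|Pa|^2 = s^2|a|^2 - 2s + 1 (E 1 = 1). `step1`: |w|^2 >= 2 - (s^2|a|^2 - 2s + 1) - (s|a|^2 - 1) = 2 + 2s - s(s+1)|a|^2.
Schur test: |ip b (Kb)| <= sum_ij mu_i mu_j P_ij |b_i||b_j| and |b_i||b_j| <= (1/2)(b_i^2 a_j/a_i + b_j^2 a_i/a_j), so it is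
<= sum_i mu_i b_i^2 (Pa)_i/a_i = sum mu_i b_i^2 (s - 1/a_i) = s|b|^2 - E(b^2/a). (|K_ij| <= P_ij: products of signs, K_ii = 0.)
Cauchy-Schwarz: (E sqrt(a^2+b^2))^2 <= (E a)(E (a^2+b^2)/a) = 1 + E(b^2/a)  (`Finset.sum_mul_sq_le_sq_mul_sq` with
sqrt(mu a) and sqrt(mu (a^2+b^2)/a), or `div_add_div_same`-style; also E (a^2/a) = E a = 1).
Sum: ip a (Pa) + 2 ip b w + ip b (Kb) - |b|^2 >= s|a|^2 - 1 + 2|w|^2/(s+1) - s|b|^2 + E(b^2/a) - |b|^2
 = s|a|^2 - 1 + 2|w|^2/(s+1) - |w|^2/(s+1) + E(b^2/a) >= s|a|^2 - 1 + (2 - s|a|^2) + E(b^2/a) = 1 + E(b^2/a).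
Positivity of the sum: sqrt(a^2+b^2) >= a and E a = 1. -/

open Real Finset

namespace H47A

variable {ι : Type*} [Fintype ι] [DecidableEq ι] {μ : ι → ℝ} {S : ι → ι → ℝ}

theorem astep2_K (hμ : IsWt μ) (hS : IsSign S) (i j : ι) : |Km μ S i j| ≤ Pm μ S i j := by
  have hP := Pm_nonneg hμ hS i j
  unfold Km
  by_cases h : i = j
  · subst h
    rw [hS.diag]
    simpa using hP
  · rw [abs_neg, abs_mul, abs_mul, abs_of_nonneg hP]
    have h1 : |S i j| = 1 := by
      rcases hS.off i j h with h1 | h1 <;> rw [h1] <;> simp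
    have h2 : |S j i| = 1 := by
      rcases hS.off j i (fun h' => h h'.symm) with h1 | h1 <;> rw [h1] <;> simp
    rw [h1, h2, one_mul, one_mul]

/-- Schur test -/
theorem astep2_schur (hμ : IsWt μ) (hS : IsSign S) {s : ℝ} {a : ι → ℝ} (ha : ∀ i, 0 < a i)
    (hP : ∀ i, app μ (Pm μ S) a i + 1 = s * a i) (b : ι → ℝ) :
    -(s * ip μ b b - ∑ i, μ i * (b i ^ 2 / a i)) ≤ ip μ b (app μ (Km μ S) b) := by
  have h1 : ∀ i j, -(μ i * μ j * Pm μ S i j * (b i ^ 2 * (a j / a i) / 2 + b j ^ 2 * (a i / a j) / 2)) ≤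
      μ i * μ j * (Km μ S i j * (b i * b j)) := by
    intro i j
    have k0 : 0 ≤ μ i * μ j := mul_nonneg (hμ.nonneg i) (hμ.nonneg j)
    have k1 : |b i * b j| ≤ b i ^ 2 * (a j / a i) / 2 + b j ^ 2 * (a i / a j) / 2 := by
      have hai := ha i
      have haj := ha j
      have e1 : b i ^ 2 * (a j / a i) / 2 + b j ^ 2 * (a i / a j) / 2 =
          ((b i * a j) ^ 2 + (b j * a i) ^ 2) / (2 * (a i * a j)) := by
        field_simp
      rw [e1, le_div_iff₀ (by positivity)]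
      have e2 : |b i * b j| * (2 * (a i * a j)) = 2 * |(b i * a j) * (b j * a i)| := by
        rw [abs_mul, abs_mul, abs_mul, abs_mul, abs_of_pos hai, abs_of_pos haj]
        ring
      rw [e2]
      rcases abs_choice ((b i * a j) * (b j * a i)) with h3 | h3 <;> rw [h3]
      · nlinarith [sq_nonneg (b i * a j - b j * a i)]
      · nlinarith [sq_nonneg (b i * a j + b j * a i)]
    have k2 : |Km μ S i j * (b i * b j)| ≤
        Pm μ S i j * (b i ^ 2 * (a j / a i) / 2 + b j ^ 2 * (a i / a j) / 2) := by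
      rw [abs_mul]
      exact mul_le_mul (astep2_K hμ hS i j) k1 (abs_nonneg _) (Pm_nonneg hμ hS i j)
    have k3 := neg_le_of_abs_le k2
    have k4 := mul_le_mul_of_nonneg_left k3 k0
    linarith
  have h2 : ip μ b (app μ (Km μ S) b) = ∑ i, ∑ j, μ i * μ j * (Km μ S i j * (b i * b j)) := by
    unfold ip app
    refine Finset.sum_congr rfl fun i _ => ?_
    rw [Finset.mul_sum, Finset.mul_sum]
    exact Finset.sum_congr rfl fun j _ => by ring
  have h3 : ∑ i, ∑ j, μ i * μ j * Pm μ S i j * (b i ^ 2 * (a j / a i)) =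
      s * ip μ b b - ∑ i, μ i * (b i ^ 2 / a i) := by
    unfold ip
    rw [Finset.mul_sum, ← Finset.sum_sub_distrib]
    refine Finset.sum_congr rfl fun i _ => ?_
    have e1 : ∑ j, μ i * μ j * Pm μ S i j * (b i ^ 2 * (a j / a i)) =
        μ i * (b i ^ 2 / a i) * app μ (Pm μ S) a i := by
      unfold app
      rw [Finset.mul_sum]
      refine Finset.sum_congr rfl fun j _ => ?_
      ring
    have e2 : app μ (Pm μ S) a i = s * a i - 1 := by linarith [hP i]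
    rw [e1, e2]
    have := (ha i).ne'
    field_simp
  have h4 : ∑ i, ∑ j, μ i * μ j * Pm μ S i j * (b j ^ 2 * (a i / a j)) =
      ∑ i, ∑ j, μ i * μ j * Pm μ S i j * (b i ^ 2 * (a j / a i)) := by
    rw [Finset.sum_comm]
    refine Finset.sum_congr rfl fun i _ => Finset.sum_congr rfl fun j _ => ?_
    rw [Pm_symm j i]
    ring
  have h5 : ∑ i, ∑ j, μ i * μ j * Pm μ S i j *
      (b i ^ 2 * (a j / a i) / 2 + b j ^ 2 * (a i / a j) / 2) =
      s * ip μ b b - ∑ i, μ i * (b i ^ 2 / a i) := by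
    have e1 : ∑ i, ∑ j, μ i * μ j * Pm μ S i j *
        (b i ^ 2 * (a j / a i) / 2 + b j ^ 2 * (a i / a j) / 2) =
        (∑ i, ∑ j, μ i * μ j * Pm μ S i j * (b i ^ 2 * (a j / a i))) / 2 +
        (∑ i, ∑ j, μ i * μ j * Pm μ S i j * (b j ^ 2 * (a i / a j))) / 2 := by
      rw [Finset.sum_div, Finset.sum_div, ← Finset.sum_add_distrib]
      refine Finset.sum_congr rfl fun i _ => ?_
      rw [Finset.sum_div, Finset.sum_div, ← Finset.sum_add_distrib]
      refine Finset.sum_congr rfl fun j _ => ?_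
      ring
    rw [e1, h4, h3]
    ring
  rw [h2, ← h5, ← Finset.sum_neg_distrib]
  refine Finset.sum_le_sum fun i _ => ?_
  rw [← Finset.sum_neg_distrib]
  exact Finset.sum_le_sum fun j _ => h1 i j

/-- Cauchy-Schwarz -/
theorem astep2_cs (hμ : IsWt μ) {a : ι → ℝ} (ha : ∀ i, 0 < a i) (hE : ∑ i, μ i * a i = 1)
    (b : ι → ℝ) : (∑ i, μ i * √(a i ^ 2 + b i ^ 2)) ^ 2 ≤ 1 + ∑ i, μ i * (b i ^ 2 / a i) := by
  have h1 := Finset.sum_mul_sq_le_sq_mul_sq Finset.univ (fun i => √(μ i * a i))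
    (fun i => √(μ i * ((a i ^ 2 + b i ^ 2) / a i)))
  have h2 : ∀ i, √(μ i * a i) * √(μ i * ((a i ^ 2 + b i ^ 2) / a i)) =
      μ i * √(a i ^ 2 + b i ^ 2) := by
    intro i
    have hai := ha i
    rw [← Real.sqrt_mul (mul_nonneg (hμ.nonneg i) hai.le)]
    have e1 : μ i * a i * (μ i * ((a i ^ 2 + b i ^ 2) / a i)) =
        μ i ^ 2 * (a i ^ 2 + b i ^ 2) := by
      field_simp
    rw [e1, Real.sqrt_mul (sq_nonneg _), Real.sqrt_sq (hμ.nonneg i)]
  have h3 : ∀ i, √(μ i * a i) ^ 2 = μ i * a i := fun i =>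
    Real.sq_sqrt (mul_nonneg (hμ.nonneg i) (ha i).le)
  have h4 : ∀ i, √(μ i * ((a i ^ 2 + b i ^ 2) / a i)) ^ 2 =
      μ i * a i + μ i * (b i ^ 2 / a i) := by
    intro i
    have hai := ha i
    rw [Real.sq_sqrt (mul_nonneg (hμ.nonneg i) (by positivity))]
    field_simp
  rw [Finset.sum_congr rfl fun i _ => h2 i, Finset.sum_congr rfl fun i _ => h3 i,
    Finset.sum_congr rfl fun i _ => h4 i, Finset.sum_add_distrib, hE, one_mul] at h1
  exact h1

theorem step2 (hμ : IsWt μ) (hS : IsSign S) : ∃ a b : ι → ℝ,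
    1 ≤ ∑ i, μ i * √(a i ^ 2 + b i ^ 2) ∧
    (∑ i, μ i * √(a i ^ 2 + b i ^ 2)) ^ 2 ≤
      ip μ a (app μ (Pm μ S) a) + 2 * ip μ b (app μ (Wm μ S) a) + ip μ b (app μ (Km μ S) b) - ip μ b b := by
  obtain ⟨s, a, hs, ha, hE, hP⟩ := perron μ hμ (Pm μ S) (fun i j => Pm_symm i j)
    (fun i j => Pm_nonneg hμ hS i j)
  obtain ⟨w, hw⟩ : ∃ w, w = app μ (Wm μ S) a := ⟨_, rfl⟩
  have hs1 : 0 < s + 1 := by linarith
  have hPa : ∀ i, app μ (Pm μ S) a i = s * a i - 1 := fun i => by linarith [hP i]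
  have f1 : ip μ a (app μ (Pm μ S) a) = s * ip μ a a - 1 := by
    unfold ip
    rw [Finset.mul_sum, ← hE, ← Finset.sum_sub_distrib]
    refine Finset.sum_congr rfl fun i _ => ?_
    rw [hPa]
    ring
  have f2 : ip μ (app μ (Pm μ S) a) (app μ (Pm μ S) a) = s ^ 2 * ip μ a a - 2 * s + 1 := by
    have e1 : ∀ i, μ i * (app μ (Pm μ S) a i * app μ (Pm μ S) a i) =
        s ^ 2 * (μ i * (a i * a i)) - 2 * s * (μ i * a i) + μ i := by
      intro i
      rw [hPa]
      ring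
    unfold ip
    rw [Finset.sum_congr rfl fun i _ => e1 i, Finset.sum_add_distrib, Finset.sum_sub_distrib,
      ← Finset.mul_sum, ← Finset.mul_sum, hE, hμ.sum, mul_one]
  have f3 := step1 hμ hS a fun i => (ha i).le
  rw [← hw, f1, f2, hE] at f3
  refine ⟨a, fun i => w i / (s + 1), ?_, ?_⟩
  · refine hE.symm.le.trans (Finset.sum_le_sum fun i _ =>
      mul_le_mul_of_nonneg_left ?_ (hμ.nonneg i))
    rw [Real.le_sqrt (ha i).le (by positivity)]
    have : 0 ≤ (w i / (s + 1)) ^ 2 := sq_nonneg _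
    linarith
  · refine (astep2_cs hμ ha hE fun i => w i / (s + 1)).trans ?_
    have f4 := astep2_schur hμ hS ha hP fun i => w i / (s + 1)
    have f5 : ip μ (fun i => w i / (s + 1)) (app μ (Wm μ S) a) = ip μ w w / (s + 1) := by
      unfold ip
      rw [← hw, Finset.sum_div]
      exact Finset.sum_congr rfl fun i _ => by ring
    have f6 : ip μ (fun i => w i / (s + 1)) (fun i => w i / (s + 1)) = ip μ w w / (s + 1) / (s + 1) := by
      unfold ip
      rw [Finset.sum_div, Finset.sum_div]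
      refine Finset.sum_congr rfl fun i _ => ?_
      field_simp
    rw [f6] at f4
    rw [f1, f5, f6]
    obtain ⟨W, hW⟩ : ∃ W, W = ip μ w w / (s + 1) := ⟨_, rfl⟩
    have f7 : (2 + 2 * s - s * (s + 1) * ip μ a a) ≤ ip μ w w := by linarith
    have f8 : 2 - s * ip μ a a ≤ W := by
      rw [hW, le_div_iff₀ hs1]
      linarith
    rw [← hW] at f4 ⊢
    have f9 : W = (s + 1) * (W / (s + 1)) := by field_simp
    linarith

end H47A
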