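import Pool.Agent.Lib.H47A.ADefs

/-! # H47A, chunk ATH (S)
`th d = tau (sin (tau d) - tau d cos (tau d))` is monotone on [0,2].
PROOF. Its derivative is `tau * (tau cos - tau cos + tau^2 d sin(tau d)) = tau^3 d sin(tau d) >= 0` for `0 <= tau d <= pi`.
Use `monotoneOn_of_deriv_nonneg (convex_Icc 0 2)`. -/

open Real Finset

namespace H47A

theorem ath_deriv (x : ℝ) : HasDerivAt th (π / 2 * (π / 2) ^ 2 * (x * sin (π / 2 * x))) x := by
  have h0 : HasDerivAt (fun d : ℝ => π / 2 * d) (π / 2 * 1) x := (hasDerivAt_id x).const_mul (π / 2)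
  have h1 := ((h0.sin).sub (h0.mul h0.cos)).const_mul (π / 2)
  refine h1.congr_deriv ?_
  ring

theorem th_mono : MonotoneOn th (Set.Icc 0 2) := by
  refine monotoneOn_of_deriv_nonneg (convex_Icc 0 2)
    (fun x _ => (ath_deriv x).continuousAt.continuousWithinAt)
    (fun x _ => (ath_deriv x).differentiableAt.differentiableWithinAt) fun x hx => ?_
  rw [interior_Icc] at hx
  rw [(ath_deriv x).deriv]
  have hpi := Real.pi_pos
  have h1 : 0 ≤ sin (π / 2 * x) := by
    apply Real.sin_nonneg_of_nonneg_of_le_pi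
    · exact mul_nonneg (by linarith) hx.1.le
    · nlinarith [hx.2]
  exact mul_nonneg (by positivity) (mul_nonneg hx.1.le h1)

end H47A
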