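import Pool.Agent.Lib.H47A.BDefs

/-! # H47A, chunk BBIL (S)
Bilinearity and symmetry of `AA`, linearity of `InV` and `Phi`. All by unfolding, `Finset.sum_congr`, `ring`; for `Phi_cr` use
cr z w = Im (conj z * w) and |e^{ix}| = 1; `Phi_invol`: e^{2ih} conj(e^{2ih} conj w) = w; `Phi_per`: e^{2i(h+pi)} = e^{2ih}. -/

open Real Finset

namespace H47A

variable {m : ℕ} {h : ℤ → ℝ}

theorem bbil_cr_add_left (x y z : ℂ) : cr (x + y) z = cr x z + cr y z := by
  unfold cr
  simp only [Complex.add_re, Complex.add_im]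
  ring

theorem bbil_cr_add_right (x y z : ℂ) : cr x (y + z) = cr x y + cr x z := by
  unfold cr
  simp only [Complex.add_re, Complex.add_im]
  ring

theorem bbil_cr_real_left (c : ℝ) (x y : ℂ) : cr ((c : ℂ) * x) y = c * cr x y := by
  unfold cr
  simp only [Complex.mul_re, Complex.mul_im, Complex.ofReal_re, Complex.ofReal_im]
  ring

theorem bbil_cr_real_right (c : ℝ) (x y : ℂ) : cr x ((c : ℂ) * y) = c * cr x y := by
  unfold cr
  simp only [Complex.mul_re, Complex.mul_im, Complex.ofReal_re, Complex.ofReal_im]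
  ring

theorem bbil_cr_zero_left (x : ℂ) : cr 0 x = 0 := by
  unfold cr
  simp

theorem bbil_cr_zero_right (x : ℂ) : cr x 0 = 0 := by
  unfold cr
  simp

theorem bbil_cr_anti (x y : ℂ) : cr x y = -cr y x := by
  unfold cr
  ring

theorem bbil_cr_sum_left {ι : Type*} (s : Finset ι) (F : ι → ℂ) (y : ℂ) : cr (∑ i ∈ s, F i) y = ∑ i ∈ s, cr (F i) y := by
  classical
  induction s using Finset.induction_on with
  | empty => simp [bbil_cr_zero_left]
  | insert a s ha ih => rw [Finset.sum_insert ha, Finset.sum_insert ha, bbil_cr_add_left, ih]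

theorem bbil_cr_sum_right {ι : Type*} (s : Finset ι) (F : ι → ℂ) (y : ℂ) : cr y (∑ i ∈ s, F i) = ∑ i ∈ s, cr y (F i) := by
  rw [bbil_cr_anti, bbil_cr_sum_left, ← Finset.sum_neg_distrib]
  exact Finset.sum_congr rfl fun i _ => (bbil_cr_anti _ _).symm

theorem AA_symm (D D' : ℤ → ℂ) : AA m D D' = AA m D' D := by
  unfold AA
  congr 1
  exact Finset.sum_congr rfl fun k _ => add_comm _ _

theorem AA_add (D D₁ D₂ : ℤ → ℂ) : AA m D (fun k => D₁ k + D₂ k) = AA m D D₁ + AA m D D₂ := by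
  unfold AA
  rw [← mul_add, ← Finset.sum_add_distrib]
  congr 1
  refine Finset.sum_congr rfl fun k _ => ?_
  simp only [bbil_cr_add_left, bbil_cr_add_right]
  ring

theorem AA_smul (D D' : ℤ → ℂ) (c : ℝ) : AA m D (fun k => (c : ℂ) * D' k) = c * AA m D D' := by
  unfold AA
  rw [mul_left_comm, Finset.mul_sum (a := c)]
  congr 1
  refine Finset.sum_congr rfl fun k _ => ?_
  simp only [bbil_cr_real_left, bbil_cr_real_right]
  ring

theorem AA_sum {ι : Type*} (s : Finset ι) (D : ℤ → ℂ) (c : ι → ℝ) (F : ι → ℤ → ℂ) :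
    AA m D (fun k => ∑ i ∈ s, (c i : ℂ) * F i k) = ∑ i ∈ s, c i * AA m D (F i) := by
  classical
  induction s using Finset.induction_on with
  | empty => simp [AA, bbil_cr_zero_left, bbil_cr_zero_right]
  | insert a s ha ih =>
    rw [Finset.sum_insert ha, ← ih, ← AA_smul, ← AA_add]
    congr 1
    funext k
    rw [Finset.sum_insert ha]

theorem bbil_shift (f : ℤ → ℝ) (hf : ∀ k, f (k + 2 * m) = f k) :
    ∑ k ∈ range (2 * m), f ((k : ℤ) + 1) = ∑ k ∈ range (2 * m), f k := by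
  have h1 := Finset.sum_range_succ (fun k : ℕ => f k) (2 * m)
  have h2 := Finset.sum_range_succ' (fun k : ℕ => f k) (2 * m)
  have h3 : f ((2 * m : ℕ) : ℤ) = f ((0 : ℕ) : ℤ) := by
    have := hf 0
    push_cast
    simpa using this
  rw [h1] at h2
  rw [h3] at h2
  have h4 : ∑ k ∈ range (2 * m), f ((k : ℤ) + 1) = ∑ k ∈ range (2 * m), f ((k + 1 : ℕ) : ℤ) :=
    Finset.sum_congr rfl fun k _ => by push_cast; rfl
  rw [h4]
  linarith

theorem AA_const (D : ℤ → ℂ) (hD : ∀ k, D (k + 2 * m) = D k) (D' : ℤ → ℂ) (z : ℂ) :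
    AA m D (fun k => D' k + z) = AA m D D' := by
  have h := AA_add (m := m) D D' (fun _ => z)
  rw [h]
  have h2 : AA m D (fun _ => z) = 0 := by
    unfold AA
    have h3 : ∑ k ∈ range (2 * m), (cr (D k) z + cr z (D (k + 1))) =
        ∑ k ∈ range (2 * m), cr (D k) z + ∑ k ∈ range (2 * m), cr z (D ((k : ℤ) + 1)) := Finset.sum_add_distrib
    rw [h3, bbil_shift (m := m) (fun k => cr z (D k)) (fun k => by simp only [hD]), ← Finset.sum_add_distrib]
    rw [Finset.sum_eq_zero fun k _ => ?_, mul_zero]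
    rw [bbil_cr_anti]
    ring
  rw [h2, add_zero]

theorem Phi_add (k : ℤ) (z w : ℂ) : Phi h k (z + w) = Phi h k z + Phi h k w := by
  unfold Phi
  rw [map_add, mul_add]

theorem Phi_neg (k : ℤ) (z : ℂ) : Phi h k (-z) = -Phi h k z := by
  unfold Phi
  rw [map_neg, mul_neg]

theorem Phi_sub (k : ℤ) (z w : ℂ) : Phi h k (z - w) = Phi h k z - Phi h k w := by
  unfold Phi
  rw [map_sub, mul_sub]

theorem Phi_real (k : ℤ) (c : ℝ) (z : ℂ) : Phi h k ((c : ℂ) * z) = (c : ℂ) * Phi h k z := by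
  unfold Phi
  rw [map_mul, Complex.conj_ofReal]
  ring

theorem bbil_exp (x : ℝ) : Complex.exp ((x : ℂ) * Complex.I) * (starRingEnd ℂ) (Complex.exp ((x : ℂ) * Complex.I)) = 1 := by
  rw [Complex.mul_conj, Complex.normSq_eq_norm_sq, Complex.norm_exp_ofReal_mul_I]
  norm_num

theorem Phi_invol (k : ℤ) (z : ℂ) : Phi h k (Phi h k z) = z := by
  unfold Phi
  rw [map_mul, Complex.conj_conj, ← mul_assoc, bbil_exp, one_mul]

theorem bbil_cr_eq (z w : ℂ) : cr z w = ((starRingEnd ℂ) z * w).im := by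
  unfold cr
  simp only [Complex.mul_im, Complex.conj_re, Complex.conj_im]
  ring

theorem Phi_cr (k : ℤ) (z w : ℂ) : cr (Phi h k z) (Phi h k w) = -cr z w := by
  rw [bbil_cr_eq]
  unfold Phi
  rw [map_mul, Complex.conj_conj]
  have e : (starRingEnd ℂ) (Complex.exp (((2 * h k : ℝ) : ℂ) * Complex.I)) * z *
      (Complex.exp (((2 * h k : ℝ) : ℂ) * Complex.I) * (starRingEnd ℂ) w) = z * (starRingEnd ℂ) w := by
    have := bbil_exp (2 * h k)
    calc _ = (Complex.exp (((2 * h k : ℝ) : ℂ) * Complex.I) * (starRingEnd ℂ) (Complex.exp (((2 * h k : ℝ) : ℂ) * Complex.I))) *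
        (z * (starRingEnd ℂ) w) := by ring
      _ = _ := by rw [this, one_mul]
  rw [e]
  unfold cr
  simp only [Complex.mul_im, Complex.conj_re, Complex.conj_im]
  ring

theorem Phi_per (hh : IsHalf m h) (k : ℤ) (w : ℂ) : Phi h (k + m) w = Phi h k w := by
  unfold Phi
  rw [hh.per k]
  have e : (((2 * (h k + π) : ℝ) : ℂ) * Complex.I) = ((2 * h k : ℝ) : ℂ) * Complex.I + 2 * π * Complex.I := by
    push_cast
    ring
  rw [e, Complex.exp_add, Complex.exp_two_pi_mul_I, mul_one]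

theorem Phi_norm (k : ℤ) (w : ℂ) : ‖Phi h k w‖ = ‖w‖ := by
  unfold Phi
  rw [norm_mul, Complex.norm_exp_ofReal_mul_I, one_mul, RCLike.norm_conj]

theorem InV_sum {ι : Type*} (s : Finset ι) (c : ι → ℝ) (F : ι → ℤ → ℂ) (hF : ∀ i ∈ s, InV m h (F i)) :
    InV m h (fun k => ∑ i ∈ s, (c i : ℂ) * F i k) := by
  refine ⟨fun k => ?_, fun k => ?_⟩
  · exact Finset.sum_congr rfl fun i hi => by rw [(hF i hi).per k]
  · classical
    have h1 : ∀ (s : Finset ι) (G : ι → ℂ), Phi h k (∑ i ∈ s, G i) = ∑ i ∈ s, Phi h k (G i) := by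
      intro s G
      induction s using Finset.induction_on with
      | empty => simp [Phi]
      | insert a s ha ih => rw [Finset.sum_insert ha, Finset.sum_insert ha, Phi_add, ih]
    show ∑ i ∈ s, (c i : ℂ) * F i (k + 1 + m) - ∑ i ∈ s, (c i : ℂ) * F i (k + m) =
      Phi h k (∑ i ∈ s, (c i : ℂ) * F i (k + 1) - ∑ i ∈ s, (c i : ℂ) * F i k)
    rw [← Finset.sum_sub_distrib, ← Finset.sum_sub_distrib, h1]
    refine Finset.sum_congr rfl fun i hi => ?_
    rw [← mul_sub, ← mul_sub, Phi_real, (hF i hi).glue k]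

end H47A
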