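import Pool.Agent.Lib.H47A.BBil

/-! # H47A, chunk BCO (M)
Coordinates on V. g_k = D_{k+1} - D_k = e^{i h_k} (al_k + i be_k) (co h D k = al_k + i be_k, 0 <= k < m) and
g_{k+m} = Phi_k g_k = e^{i h_k} (al_k - i be_k).
`closing`: 0 = D_{2m} - D_0 = sum_{k<m} (g_k + g_{k+m}) = 2 sum_{k<m} al_k e^{i h_k}.
`AA_co`: D_k = D_0 + sum_{j<k} g_j, cr(D_k, D_{k+1}) = cr(D_k, g_k), so AA D D = (1/2) sum_{k<2m} cr(D_k, D_{k+1})
 = (1/2) cr(D_0, sum g) + (1/2) sum_{j<k<2m} cr(g_j,g_k), the first term vanishes (closing). Split the pairs j<k<2m: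
 both < m; both >= m; j < m <= k: the last kind gives cr(sum_{k<m} g_k, sum_{k<m} g_{k+m}) = cr(Q,-Q) = 0 because the two sums
 add up to zero. For j<k<m: cr(e^{ih_j}u, e^{ih_k}v) = Im(e^{i(h_k-h_j)} conj(u) v), and with u = al_j + i be_j,
 v = al_k + i be_k:  cr(g_j,g_k) + cr(g_{j+m},g_{k+m}) = Im(e^{i(h_k-h_j)} (conj(u) v + u conj(v)))
 = 2 sin(h_k-h_j)(al_j al_k + be_j be_k). Hence AA D D = qf al + qf be. -/

open Real Finset

namespace H47A

variable {m : ℕ} {h : ℤ → ℝ}

/-- The edge vectors. -/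
noncomputable def bco_g (D : ℤ → ℂ) (k : ℕ) : ℂ := D ((k : ℤ) + 1) - D k

theorem bco_g_co (D : ℤ → ℂ) (k : ℕ) : bco_g D k = Complex.exp (((h k : ℝ) : ℂ) * Complex.I) * co h D k := by
  unfold bco_g co
  rw [← mul_assoc, ← Complex.exp_add]
  have e : ((h k : ℝ) : ℂ) * Complex.I + -((h k : ℝ) : ℂ) * Complex.I = 0 := by ring
  rw [e, Complex.exp_zero, one_mul]

theorem bco_g_m {D : ℤ → ℂ} (hD : InV m h D) (k : ℕ) :
    bco_g D (m + k) = Complex.exp (((h k : ℝ) : ℂ) * Complex.I) * (starRingEnd ℂ) (co h D k) := by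
  have h1 : bco_g D (m + k) = Phi h k (bco_g D k) := by
    unfold bco_g
    rw [← hD.glue k]
    push_cast
    congr 2 <;> ring
  rw [h1, bco_g_co (h := h)]
  unfold Phi
  rw [map_mul, ← mul_assoc]
  congr 1
  rw [← Complex.exp_conj, map_mul, Complex.conj_ofReal, Complex.conj_I, ← Complex.exp_add]
  congr 1
  push_cast
  ring

theorem bco_tel (D : ℤ → ℂ) (n : ℕ) : D n = D 0 + ∑ j ∈ range n, bco_g D j := by
  induction n with
  | zero => simp
  | succ n ih =>
    rw [Finset.sum_range_succ, ← add_assoc, ← ih]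
    unfold bco_g
    push_cast
    ring

theorem bco_sum0 {D : ℤ → ℂ} (hD : InV m h D) : ∑ j ∈ range m, bco_g D j + ∑ j ∈ range m, bco_g D (m + j) = 0 := by
  have h1 := bco_tel D (m + m)
  have h2 : D ((m + m : ℕ) : ℤ) = D 0 := by
    have := hD.per 0
    rw [← this]
    congr 1
    push_cast
    ring
  rw [h2, Finset.sum_range_add] at h1
  exact (left_eq_add.1 h1)

theorem closing (hh : IsHalf m h) {D : ℤ → ℂ} (hD : InV m h D) :
    ∑ k ∈ range m, ((co h D k).re : ℂ) * Complex.exp (((h k : ℝ) : ℂ) * Complex.I) = 0 := by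
  have h1 := bco_sum0 hD
  rw [← Finset.sum_add_distrib] at h1
  have h2 : ∀ k ∈ range m, bco_g D k + bco_g D (m + k) =
      2 * (((co h D k).re : ℂ) * Complex.exp (((h k : ℝ) : ℂ) * Complex.I)) := by
    intro k _
    rw [bco_g_co (h := h), bco_g_m hD, ← mul_add, Complex.add_conj]
    push_cast
    ring
  rw [Finset.sum_congr rfl h2, ← Finset.mul_sum] at h1
  exact (mul_eq_zero.1 h1).resolve_left two_ne_zero

theorem bco_pair (a b : ℝ) (u v : ℂ) :
    cr (Complex.exp ((a : ℂ) * Complex.I) * u) (Complex.exp ((b : ℂ) * Complex.I) * v) +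
      cr (Complex.exp ((a : ℂ) * Complex.I) * (starRingEnd ℂ) u) (Complex.exp ((b : ℂ) * Complex.I) * (starRingEnd ℂ) v) =
      2 * (sin (b - a) * u.re * v.re + sin (b - a) * u.im * v.im) := by
  rw [Complex.exp_mul_I, Complex.exp_mul_I, ← Complex.ofReal_cos, ← Complex.ofReal_sin, ← Complex.ofReal_cos,
    ← Complex.ofReal_sin, sin_sub]
  unfold cr
  simp only [Complex.mul_re, Complex.mul_im, Complex.add_re, Complex.add_im, Complex.ofReal_re, Complex.ofReal_im,
    Complex.I_re, Complex.I_im, Complex.conj_re, Complex.conj_im]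
  ring

theorem AA_co (hh : IsHalf m h) {D : ℤ → ℂ} (hD : InV m h D) :
    AA m D D = qf m h (fun k => (co h D k).re) + qf m h (fun k => (co h D k).im) := by
  obtain ⟨G, hG⟩ : ∃ G : ℕ → ℂ, G = bco_g D := ⟨_, rfl⟩
  have h0 := bco_sum0 hD
  rw [← hG] at h0
  -- the area as a double sum
  have h1 : ∑ k ∈ range (m + m), cr (D k) (D ((k : ℤ) + 1)) = ∑ k ∈ range (m + m), ∑ j ∈ range k, cr (G j) (G k) := by
    have h2 : ∀ k ∈ range (m + m), cr (D k) (D ((k : ℤ) + 1)) = cr (D 0) (G k) + ∑ j ∈ range k, cr (G j) (G k) := by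
      intro k _
      have e1 : D ((k : ℤ) + 1) = D k + G k := by
        rw [hG]
        unfold bco_g
        ring
      have e2 : cr (D k) (D k) = 0 := by
        unfold cr
        ring
      rw [e1, bbil_cr_add_right, e2, zero_add, ← bbil_cr_sum_left, ← bbil_cr_add_left]
      congr 1
      rw [hG]
      exact bco_tel D k
    rw [Finset.sum_congr rfl h2, Finset.sum_add_distrib, ← bbil_cr_sum_right, Finset.sum_range_add, h0,
      bbil_cr_zero_right, zero_add]
  have h3 : ∑ k ∈ range m, ∑ j ∈ range (m + k), cr (G j) (G (m + k)) =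
      ∑ k ∈ range m, ∑ j ∈ range k, cr (G (m + j)) (G (m + k)) := by
    have e1 : ∀ k ∈ range m, ∑ j ∈ range (m + k), cr (G j) (G (m + k)) =
        cr (∑ j ∈ range m, G j) (G (m + k)) + ∑ j ∈ range k, cr (G (m + j)) (G (m + k)) := by
      intro k _
      rw [Finset.sum_range_add, bbil_cr_sum_left]
    rw [Finset.sum_congr rfl e1, Finset.sum_add_distrib, ← bbil_cr_sum_right]
    have e2 : ∑ j ∈ range m, G (m + j) = -∑ j ∈ range m, G j := by
      rw [eq_neg_iff_add_eq_zero, add_comm]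
      exact h0
    rw [e2]
    have e3 : cr (∑ j ∈ range m, G j) (-∑ j ∈ range m, G j) = 0 := by
      unfold cr
      simp only [Complex.neg_re, Complex.neg_im]
      ring
    rw [e3, zero_add]
  have h4 : AA m D D = 1 / 2 * ∑ k ∈ range (m + m), cr (D k) (D ((k : ℤ) + 1)) := by
    unfold AA
    rw [two_mul m, Finset.mul_sum, Finset.mul_sum]
    refine Finset.sum_congr rfl fun k _ => ?_
    ring
  rw [h4, h1, Finset.sum_range_add, h3, ← Finset.sum_add_distrib]
  unfold qf
  rw [← Finset.sum_add_distrib, Finset.mul_sum]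
  refine Finset.sum_congr rfl fun k _ => ?_
  rw [← Finset.sum_add_distrib, ← Finset.sum_add_distrib, Finset.mul_sum]
  refine Finset.sum_congr rfl fun j _ => ?_
  have h5 := bco_pair (h j) (h k) (co h D j) (co h D k)
  rw [hG, bco_g_co (h := h), bco_g_co (h := h), bco_g_m hD, bco_g_m hD, h5]
  ring

end H47A
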