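import Pool.Agent.Lib.H47A.BDefs

/-! # H47A, chunk BWIRT (M)
A discrete Wirtinger inequality: if `sum b_k sin(h_k - h_0) = 0` then `q(b) <= 0`.
PROOF. t_k = h_k - h_0, so t_0 = 0, t nondecreasing, 0 <= t_k <= pi for 0 <= k < m (h_m = h_0 + pi). f k l = sin(t_l - t_k) b_k b_l.
(i) Let Z0 = {k : t_k = 0} (an initial segment, contains 0), Zp = {k : t_k = pi} (a final segment), Mid the rest, there
sin t_k > 0. For k in Z0: sum_{l>k} f k l = b_k sum_{l > k} sin(t_l) b_l = b_k * (full sum) = 0 (indices l <= k are in Z0, their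
sines vanish). For l in Zp: the sum over k < l, k not in Z0, of f k l = b_l sum_k sin(pi - t_k) b_k = b_l sum sin(t_k) b_k = 0
(pairs inside Zp have sin 0). So q(b) is the sum over the pairs k < l both in Mid.
(ii) On Mid: sin(t_l - t_k) = sin t_k sin t_l (c_k - c_l), c = cos t/sin t, which is nonincreasing in k. Put x_k = b_k sin t_k for
all k (zero outside Mid), c_k = cos t_k/sin t_k (junk 0 outside Mid, harmless as x_k = 0 there), B_k = sum_{j<=k} x_j,
C_k = sum_{j<=k} x_j c_j. By induction on M, for an interval of indices k0 <= k < k1 (= Mid):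
 sum_{k0<=k<l<=M} x_k x_l (c_k - c_l) = - sum_{k=k0}^{M-1} B_k^2 (c_k - c_{k+1}) + B_M C_M - c_M B_M^2
(the step: both sides grow by x_M (C_{M-1} - c_M B_{M-1})). With M = k1 - 1 and B_M = 0 (hypothesis) the sum is
- sum B_k^2 (c_k - c_{k+1}) <= 0.
(Alternative: prove the case of strictly increasing h first and pass to the limit, h_k + e k, adjusting one b_k with sin t_k > 0.) -/

open Real Finset

namespace H47A

/-- one step of the summation by parts -/
theorem bwirt_step {s c s' c' X E : ℝ} (hs : 0 < s) (hAA : s * E + c * X ^ 2 ≤ 0) (hs' : 0 ≤ s')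
    (hcr : 0 ≤ s' * c - c' * s) : s' * E + c' * X ^ 2 ≤ 0 := by
  have h1 : s * (s' * E + c' * X ^ 2) = s' * (s * E + c * X ^ 2) - (s' * c - c' * s) * X ^ 2 := by ring
  have h2 : s * (s' * E + c' * X ^ 2) ≤ 0 := by
    rw [h1]
    have h3 : s' * (s * E + c * X ^ 2) ≤ 0 := mul_nonpos_of_nonneg_of_nonpos hs' hAA
    have h4 : 0 ≤ (s' * c - c' * s) * X ^ 2 := mul_nonneg hcr (sq_nonneg X)
    linarith
  by_contra h
  push Not at h
  have := mul_pos hs h
  linarith

/-- the abstract inequality -/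
theorem bwirt_abs (t b : ℕ → ℝ) (m : ℕ) (h0 : t 0 = 0) (hmono : ∀ k, k + 1 < m → t k ≤ t (k + 1))
    (hnn : ∀ k, k < m → 0 ≤ t k) (hpi : ∀ k, k < m → t k ≤ π) (n : ℕ) (hn : n + 1 ≤ m) :
    (t n = 0 → (∑ l ∈ range (n + 1), ∑ k ∈ range l, sin (t l - t k) * b k * b l = 0) ∧
      ∑ k ∈ range (n + 1), b k * sin (t k) = 0) ∧
    (sin (t n) * ((∑ l ∈ range (n + 1), ∑ k ∈ range l, sin (t l - t k) * b k * b l) -
      (∑ k ∈ range (n + 1), b k * sin (t k)) * (∑ k ∈ range (n + 1), b k * cos (t k))) +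
      cos (t n) * (∑ k ∈ range (n + 1), b k * sin (t k)) ^ 2 ≤ 0) ∧
    ((∑ k ∈ range (n + 1), b k * sin (t k)) = 0 →
      (∑ l ∈ range (n + 1), ∑ k ∈ range l, sin (t l - t k) * b k * b l) ≤ 0) := by
  induction n with
  | zero => simp [h0]
  | succ n ih =>
    obtain ⟨ih1, ih2, ih3⟩ := ih (by omega)
    have hq : ∑ l ∈ range (n + 1 + 1), ∑ k ∈ range l, sin (t l - t k) * b k * b l =
        ∑ l ∈ range (n + 1), ∑ k ∈ range l, sin (t l - t k) * b k * b l +
        b (n + 1) * (sin (t (n + 1)) * ∑ k ∈ range (n + 1), b k * cos (t k) -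
          cos (t (n + 1)) * ∑ k ∈ range (n + 1), b k * sin (t k)) := by
      rw [Finset.sum_range_succ]
      congr 1
      rw [Finset.mul_sum, Finset.mul_sum, ← Finset.sum_sub_distrib, Finset.mul_sum]
      refine Finset.sum_congr rfl fun k _ => ?_
      rw [Real.sin_sub]
      ring
    obtain ⟨q, hqd⟩ : ∃ q, q = ∑ l ∈ range (n + 1), ∑ k ∈ range l, sin (t l - t k) * b k * b l := ⟨_, rfl⟩
    obtain ⟨X, hX⟩ : ∃ X, X = ∑ k ∈ range (n + 1), b k * sin (t k) := ⟨_, rfl⟩
    obtain ⟨Y, hY⟩ : ∃ Y, Y = ∑ k ∈ range (n + 1), b k * cos (t k) := ⟨_, rfl⟩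
    rw [Finset.sum_range_succ (fun k => b k * sin (t k)), Finset.sum_range_succ (fun k => b k * cos (t k)), hq,
      ← hqd, ← hX, ← hY]
    rw [← hqd, ← hX] at ih1
    rw [← hqd, ← hX, ← hY] at ih2
    rw [← hqd, ← hX] at ih3
    obtain ⟨β, hβ⟩ : ∃ β, β = b (n + 1) := ⟨_, rfl⟩
    rw [← hβ]
    have m1 := hmono n (by omega)
    have p0 := hnn n (by omega)
    have p1 := hnn (n + 1) (by omega)
    have q0 := hpi n (by omega)
    have q1 := hpi (n + 1) (by omega)
    have s0 : 0 ≤ sin (t n) := Real.sin_nonneg_of_nonneg_of_le_pi p0 q0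
    have s1 : 0 ≤ sin (t (n + 1)) := Real.sin_nonneg_of_nonneg_of_le_pi p1 q1
    have hcr : 0 ≤ sin (t (n + 1)) * cos (t n) - cos (t (n + 1)) * sin (t n) := by
      rw [← Real.sin_sub]
      exact Real.sin_nonneg_of_nonneg_of_le_pi (by linarith) (by linarith)
    have hA : sin (t (n + 1)) * (q - X * Y) + cos (t (n + 1)) * X ^ 2 ≤ 0 := by
      rcases s0.lt_or_eq with h | h
      · exact bwirt_step h ih2 s1 hcr
      · rcases p0.lt_or_eq with h' | h'
        · have h3 : t n = π := by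
            by_contra hne
            have := Real.sin_pos_of_pos_of_lt_pi h' (lt_of_le_of_ne q0 hne)
            linarith
          have h4 : t (n + 1) = π := le_antisymm q1 (by linarith)
          rw [h4, Real.sin_pi, Real.cos_pi]
          nlinarith [sq_nonneg X]
        · obtain ⟨h5, h6⟩ := ih1 h'.symm
          rw [h5, h6]
          simp
    have hA' : sin (t (n + 1)) * (q + β * (sin (t (n + 1)) * Y - cos (t (n + 1)) * X) -
        (X + β * sin (t (n + 1))) * (Y + β * cos (t (n + 1)))) +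
        cos (t (n + 1)) * (X + β * sin (t (n + 1))) ^ 2 ≤ 0 := by
      have e : sin (t (n + 1)) * (q + β * (sin (t (n + 1)) * Y - cos (t (n + 1)) * X) -
        (X + β * sin (t (n + 1))) * (Y + β * cos (t (n + 1)))) +
        cos (t (n + 1)) * (X + β * sin (t (n + 1))) ^ 2 =
        sin (t (n + 1)) * (q - X * Y) + cos (t (n + 1)) * X ^ 2 := by ring
      rw [e]
      exact hA
    have hB : t (n + 1) = 0 → q + β * (sin (t (n + 1)) * Y - cos (t (n + 1)) * X) = 0 ∧
        X + β * sin (t (n + 1)) = 0 := by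
      intro h
      have h1 : t n = 0 := le_antisymm (by linarith) p0
      obtain ⟨h2, h3⟩ := ih1 h1
      rw [h, h2, h3, Real.sin_zero]
      simp
    refine ⟨hB, hA', ?_⟩
    intro hX0
    rcases s1.lt_or_eq with h | h
    · rw [hX0] at hA'
      have h1 : sin (t (n + 1)) * (q + β * (sin (t (n + 1)) * Y - cos (t (n + 1)) * X)) ≤ 0 := by
        have h2 : sin (t (n + 1)) * (q + β * (sin (t (n + 1)) * Y - cos (t (n + 1)) * X) -
          0 * (Y + β * cos (t (n + 1)))) + cos (t (n + 1)) * 0 ^ 2 =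
          sin (t (n + 1)) * (q + β * (sin (t (n + 1)) * Y - cos (t (n + 1)) * X)) := by ring
        rw [h2] at hA'
        exact hA'
      by_contra hcon
      push Not at hcon
      have := mul_pos h hcon
      linarith
    · rcases p1.lt_or_eq with h' | h'
      · rw [← h, mul_zero, add_zero] at hX0
        rw [← h, hX0]
        have := ih3 hX0
        simpa using this
      · rw [(hB h'.symm).1]

theorem qf_nonpos {m : ℕ} {h : ℤ → ℝ} (hh : IsHalf m h) (b : ℕ → ℝ)
    (hb : ∑ k ∈ range m, b k * sin (h k - h 0) = 0) : qf m h b ≤ 0 := by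
  have hm := hh.two_le
  have hmono : ∀ k : ℕ, h k - h 0 ≤ h (k + 1 : ℕ) - h 0 := by
    intro k
    have h1 := hh.mono ((k + 1 : ℕ) : ℤ)
    rw [show ((k + 1 : ℕ) : ℤ) - 1 = (k : ℤ) by push_cast; ring] at h1
    linarith
  have hmon : Monotone (fun k : ℕ => h k - h 0) := monotone_nat_of_le_succ hmono
  have hm0 : h (m : ℤ) = h 0 + π := by
    have := hh.per 0
    rwa [zero_add] at this
  have key := bwirt_abs (fun k : ℕ => h k - h 0) b m (by simp) (fun k _ => hmono k)
    (fun k _ => by have := hmon (Nat.zero_le k); simpa using this)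
    (fun k hk => by
      have h1 : h k - h 0 ≤ h m - h 0 := hmon hk.le
      show h k - h 0 ≤ π
      linarith) (m - 1) (by omega)
  rw [show m - 1 + 1 = m by omega] at key
  have h2 := key.2.2 hb
  unfold qf
  refine le_trans (le_of_eq ?_) h2
  refine Finset.sum_congr rfl fun l _ => Finset.sum_congr rfl fun k _ => ?_
  congr 3
  ring

end H47A
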