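import Pool.Agent.Lib.H47A.BCo
import Pool.Agent.Lib.H47A.BWirt

/-! # H47A, chunk BLOR (M)
The area form is Lorentzian: reversed Cauchy-Schwarz.
PROOF. ell(D) = sum_{k<m} (co h D k).im * sin(h_k - h_0) is linear in D. `closing` (times e^{-i h_0}, imaginary part) gives
sum (co h D k).re sin(h_k - h_0) = 0 for all D in V, so `qf_nonpos` applies to the real parts; if ell(D) = 0 it applies also to
the imaginary parts and AA D D <= 0 by `AA_co`. Now let M, N in V, AA M M >= 0. If AA N N <= 0 the claim is clear. Otherwise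
ell(N) != 0; t = -ell(M)/ell(N), D = M + t N is in V (InV_sum or directly) with ell(D) = 0, hence
0 >= AA D D = AA M M + 2 t AA M N + t^2 AA N N; multiply by AA N N > 0:
(AA M N + t AA N N)^2 - (AA M N)^2 + AA M M AA N N <= 0.
`lorentz_null`: for null N, N': D = (AA M N') N - (AA M N) N' has AA M D = 0, so by `lorentz` AA M M * AA D D <= 0, AA D D <= 0
and AA D D = -2 (AA M N)(AA M N')(AA N N').
`lorentz_zero`: if AA M N = 0, N and N' null: for all real t, `lorentz` for N + t N': AA M M * 2 t AA N N' <= t^2 (AA M N')^2;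
divide by t and let t -> 0 from both sides (or choose t = +-small explicitly): AA N N' = 0. -/

open Real Finset

namespace H47A

variable {m : ℕ} {h : ℤ → ℝ}

theorem blor_inv {M N : ℤ → ℂ} (hM : InV m h M) (hN : InV m h N) (t : ℝ) :
    InV m h (fun k => M k + (t : ℂ) * N k) := by
  refine ⟨fun k => ?_, fun k => ?_⟩
  · show M (k + 2 * m) + (t : ℂ) * N (k + 2 * m) = _
    rw [hM.per, hN.per]
  · show (M (k + 1 + m) + (t : ℂ) * N (k + 1 + m)) - (M (k + m) + (t : ℂ) * N (k + m)) =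
      Phi h k ((M (k + 1) + (t : ℂ) * N (k + 1)) - (M k + (t : ℂ) * N k))
    have e1 : (M (k + 1) + (t : ℂ) * N (k + 1)) - (M k + (t : ℂ) * N k) =
        (M (k + 1) - M k) + (t : ℂ) * (N (k + 1) - N k) := by ring
    rw [e1, Phi_add, Phi_real, ← hM.glue, ← hN.glue]
    ring

theorem blor_AA {M N : ℤ → ℂ} (t : ℝ) :
    AA m (fun k => M k + (t : ℂ) * N k) (fun k => M k + (t : ℂ) * N k) =
      AA m M M + 2 * t * AA m M N + t ^ 2 * AA m N N := by
  have e1 : ∀ D : ℤ → ℂ, AA m D (fun k => M k + (t : ℂ) * N k) = AA m D M + t * AA m D N := by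
    intro D
    rw [AA_add, AA_smul]
  rw [e1, AA_symm _ M, AA_symm _ N, e1, e1, AA_symm N M]
  ring

/-- the linear functional -/
noncomputable def blor_ell (m : ℕ) (h : ℤ → ℝ) (D : ℤ → ℂ) : ℝ :=
  ∑ k ∈ range m, (co h D k).im * sin (h k - h 0)

theorem blor_ell_add (M N : ℤ → ℂ) (t : ℝ) :
    blor_ell m h (fun k => M k + (t : ℂ) * N k) = blor_ell m h M + t * blor_ell m h N := by
  unfold blor_ell
  rw [Finset.mul_sum, ← Finset.sum_add_distrib]
  refine Finset.sum_congr rfl fun k _ => ?_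
  have e : co h (fun k => M k + (t : ℂ) * N k) k = co h M k + (t : ℂ) * co h N k := by
    unfold co
    ring
  rw [e, Complex.add_im, Complex.im_ofReal_mul]
  ring

theorem blor_re (hh : IsHalf m h) {D : ℤ → ℂ} (hD : InV m h D) :
    ∑ k ∈ range m, (co h D k).re * sin (h k - h 0) = 0 := by
  have h1 := congrArg (fun z : ℂ => (Complex.exp (-((h 0 : ℝ) : ℂ) * Complex.I) * z).im) (closing hh hD)
  simp only [Finset.mul_sum, mul_zero, Complex.zero_im, Complex.im_sum] at h1
  rw [← h1]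
  refine Finset.sum_congr rfl fun k _ => ?_
  have e : Complex.exp (-((h 0 : ℝ) : ℂ) * Complex.I) *
      (((co h D k).re : ℂ) * Complex.exp (((h k : ℝ) : ℂ) * Complex.I)) =
      ((co h D k).re : ℂ) * Complex.exp (((h k - h 0 : ℝ) : ℂ) * Complex.I) := by
    rw [mul_left_comm, ← Complex.exp_add]
    congr 2
    push_cast
    ring
  rw [e, Complex.im_ofReal_mul, Complex.exp_ofReal_mul_I_im]

theorem blor_neg (hh : IsHalf m h) {D : ℤ → ℂ} (hD : InV m h D) (h0 : blor_ell m h D = 0) :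
    AA m D D ≤ 0 := by
  rw [AA_co hh hD]
  have h1 := qf_nonpos hh _ (blor_re hh hD)
  have h2 := qf_nonpos hh _ h0
  linarith

theorem lorentz (hh : IsHalf m h) {M N : ℤ → ℂ} (hM : InV m h M) (hN : InV m h N) (h0 : 0 ≤ AA m M M) :
    AA m M M * AA m N N ≤ AA m M N ^ 2 := by
  rcases le_or_gt (AA m N N) 0 with h1 | h1
  · have := mul_nonpos_of_nonneg_of_nonpos h0 h1
    nlinarith [sq_nonneg (AA m M N)]
  · have hl : blor_ell m h N ≠ 0 := by
      intro h2
      have := blor_neg hh hN h2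
      linarith
    obtain ⟨t, ht⟩ : ∃ t, t = -blor_ell m h M / blor_ell m h N := ⟨_, rfl⟩
    have h2 : blor_ell m h (fun k => M k + (t : ℂ) * N k) = 0 := by
      rw [blor_ell_add, ht]
      field_simp
      ring
    have h3 := blor_neg hh (blor_inv hM hN t) h2
    rw [blor_AA] at h3
    have h4 := mul_nonpos_of_nonneg_of_nonpos h1.le h3
    nlinarith [sq_nonneg (AA m M N + t * AA m N N)]

theorem lorentz_null (hh : IsHalf m h) {M N N' : ℤ → ℂ} (hM : InV m h M) (hN : InV m h N) (hN' : InV m h N')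
    (h0 : 0 < AA m M M) (h1 : AA m N N = 0) (h2 : AA m N' N' = 0) :
    0 ≤ AA m M N * AA m M N' * AA m N N' := by
  obtain ⟨a, ha⟩ : ∃ a, a = AA m M N := ⟨_, rfl⟩
  obtain ⟨b, hb⟩ : ∃ b, b = AA m M N' := ⟨_, rfl⟩
  rw [← ha, ← hb]
  by_cases hb0 : b = 0
  · rw [hb0]; simp
  -- D = N - (a/b) N'
  have h3 := lorentz hh hM (blor_inv hN hN' (-(a / b))) h0.le
  rw [blor_AA, h1, h2, AA_add, AA_smul, ← ha, ← hb] at h3
  have h4 : a + -(a / b) * b = 0 := by field_simp; ring
  rw [h4] at h3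
  have h5 : AA m M M * (-(2 * (a / b) * AA m N N')) ≤ 0 := by nlinarith
  have h6 : 0 ≤ a / b * AA m N N' := by
    by_contra hcon
    push Not at hcon
    have : 0 < AA m M M * (-(2 * (a / b) * AA m N N')) := mul_pos h0 (by linarith)
    linarith
  have h7 : a * b * AA m N N' = b ^ 2 * (a / b * AA m N N') := by field_simp
  rw [h7]
  exact mul_nonneg (sq_nonneg b) h6

theorem lorentz_zero (hh : IsHalf m h) {M N N' : ℤ → ℂ} (hM : InV m h M) (hN : InV m h N) (hN' : InV m h N')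
    (h0 : 0 < AA m M M) (h1 : AA m N N = 0) (h2 : AA m N' N' = 0) (h3 : AA m M N = 0) : AA m N N' = 0 := by
  -- N' + t N has AA M = b, AA = 2 t AA N N'
  by_contra hne
  obtain ⟨b, hb⟩ : ∃ b, b = AA m M N' := ⟨_, rfl⟩
  obtain ⟨c, hc⟩ : ∃ c, c = AA m N N' := ⟨_, rfl⟩
  rw [← hc] at hne
  have key : ∀ t : ℝ, AA m M M * (2 * t * c) ≤ b ^ 2 := by
    intro t
    have h4 := lorentz hh hM (blor_inv hN' hN t) h0.le
    rw [blor_AA, h1, h2, AA_add, AA_smul, ← hb, h3, AA_symm N' N, ← hc] at h4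
    have e : AA m M M * (0 + 2 * t * c + t ^ 2 * 0) = AA m M M * (2 * t * c) := by ring
    have e2 : (b + t * 0) ^ 2 = b ^ 2 := by ring
    rw [e, e2] at h4
    exact h4
  have h5 := key ((b ^ 2 + 1) / (2 * c * AA m M M))
  have h6 : AA m M M * (2 * ((b ^ 2 + 1) / (2 * c * AA m M M)) * c) = b ^ 2 + 1 := by
    have := h0.ne'
    field_simp
  rw [h6] at h5
  linarith

end H47A
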