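import Pool.Agent.Lib.H47A.COrd

/-! # H47A, chunk CABEL (M)
Summation by parts against a sign function. J a finite set of indices, even number, points y_j not integers, pairwise different
modulo m; F p = prod_j (-1)^⌈(p - y_j)/m⌉. Then F (p + m) = F p (even number of factors).
PROOF. Replace y_j by z_j = y_j - m ⌊y_j/m⌋ in (0,m): F changes by the constant sign prod (-1)^{⌊y_j/m⌋}, which appears on both
sides... more simply: F (y_j) = F (z_j) (period m, in fact F (p + m k) = F p), and h ⌊z_j⌋ = h ⌊y_j⌋ - pi ⌊y_j/m⌋ (h (k + m) =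
h k + pi). So the right side is pi F 0 + 2 sum_j h ⌊z_j⌋ F z_j. Left side: shifting the index,
 sum_{k<m} (h k - h (k-1)) F k = pi F 0 + sum_{k<m} h k (F k - F (k+1))
(use h (-1) = h (m-1) - pi, F m = F 0). Finally for k < m: F k - F (k+1) = 2 sum_{j : z_j in (k,k+1)} F z_j: general lemma for
phi p = (-1)^{number of z in B with z < p}, B a finite set of reals, a < b not in B: phi a - phi b = 2 sum_{z in B, a < z < b} phi z
(induction on B with `Finset.induction_on_max`: adding a new maximum z* changes phi only beyond z*). On [0,m]: F p = F 0 *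
(-1)^{#{j : z_j < p}} because ⌈(p - z_j)/m⌉ is 0 for 0 <= p <= z_j (p > z_j - m) and 1 for z_j < p <= m. -/

open Real Finset

namespace H47A

/-- The product of sign functions. -/
noncomputable def FF {J : Type*} [Fintype J] (m : ℕ) (y : J → ℝ) (p : ℝ) : ℝ := ∏ j, (-1) ^ ⌈(p - y j) / m⌉

theorem FF_jump {B : Finset ℝ} {a b : ℝ} (hab : a ≤ b) (ha : a ∉ B) (hb : b ∉ B) :
    (-1 : ℝ) ^ (B.filter (fun z => z < a)).card - (-1) ^ (B.filter (fun z => z < b)).card =
      2 * ∑ z ∈ B.filter (fun z => a < z ∧ z < b), (-1 : ℝ) ^ (B.filter (fun w => w < z)).card := by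
  classical
  induction B using Finset.induction_on_max with
  | empty => simp
  | insert z B hz ih =>
    have hzB : z ∉ B := fun h => lt_irrefl _ (hz z h)
    have ha' : a ∉ B := fun h => ha (Finset.mem_insert_of_mem h)
    have hb' : b ∉ B := fun h => hb (Finset.mem_insert_of_mem h)
    have haz : a ≠ z := fun h => ha (h ▸ Finset.mem_insert_self z B)
    have hbz : b ≠ z := fun h => hb (h ▸ Finset.mem_insert_self z B)
    have ih := ih ha' hb'
    have hlow : ∀ w ∈ B, (insert z B).filter (fun v => v < w) = B.filter (fun v => v < w) := by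
      intro w hw
      rw [Finset.filter_insert, if_neg (not_lt.2 (hz w hw).le)]
    have hself : (insert z B).filter (fun v => v < z) = B := by
      rw [Finset.filter_insert, if_neg (lt_irrefl z)]
      exact Finset.filter_true_of_mem hz
    have hsum : ∑ w ∈ B.filter (fun v => a < v ∧ v < b),
        (-1 : ℝ) ^ ((insert z B).filter (fun v => v < w)).card =
        ∑ w ∈ B.filter (fun v => a < v ∧ v < b), (-1 : ℝ) ^ (B.filter (fun v => v < w)).card := by
      refine Finset.sum_congr rfl fun w hw => ?_
      rw [hlow w (Finset.mem_filter.1 hw).1]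
    rcases lt_or_gt_of_ne haz with h1 | h1
    · -- a < z
      have e1 : (insert z B).filter (fun v => v < a) = B.filter (fun v => v < a) := by
        rw [Finset.filter_insert, if_neg (not_lt.2 h1.le)]
      rcases lt_or_gt_of_ne hbz with h2 | h2
      · -- b < z
        have e2 : (insert z B).filter (fun v => v < b) = B.filter (fun v => v < b) := by
          rw [Finset.filter_insert, if_neg (not_lt.2 h2.le)]
        have e3 : (insert z B).filter (fun v => a < v ∧ v < b) =
            B.filter (fun v => a < v ∧ v < b) := by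
          rw [Finset.filter_insert, if_neg (fun h => absurd h.2 (not_lt.2 h2.le))]
        rw [e1, e2, e3, hsum, ih]
      · -- z < b
        have e2 : (insert z B).filter (fun v => v < b) = insert z (B.filter (fun v => v < b)) := by
          rw [Finset.filter_insert, if_pos h2]
        have e4 : B.filter (fun v => v < b) = B :=
          Finset.filter_true_of_mem (fun v hv => (hz v hv).trans h2)
        have e3 : (insert z B).filter (fun v => a < v ∧ v < b) =
            insert z (B.filter (fun v => a < v ∧ v < b)) := by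
          rw [Finset.filter_insert, if_pos ⟨h1, h2⟩]
        rw [e4] at ih e2
        rw [e1, e2, e3, Finset.card_insert_of_notMem hzB,
          Finset.sum_insert (fun h => hzB (Finset.mem_filter.1 h).1), hsum, hself, pow_succ]
        linarith
    · -- z < a
      have h2 : z < b := lt_of_lt_of_le h1 hab
      have e1 : (insert z B).filter (fun v => v < a) = insert z B := by
        apply Finset.filter_true_of_mem
        intro v hv
        rcases Finset.mem_insert.1 hv with h | h
        · rw [h]
          exact h1
        · exact (hz v h).trans h1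
      have e2 : (insert z B).filter (fun v => v < b) = insert z B := by
        apply Finset.filter_true_of_mem
        intro v hv
        rcases Finset.mem_insert.1 hv with h | h
        · rw [h]
          exact h2
        · exact (hz v h).trans h2
      have e3 : (insert z B).filter (fun v => a < v ∧ v < b) = ∅ := by
        apply Finset.filter_false_of_mem
        intro v hv h
        rcases Finset.mem_insert.1 hv with h3 | h3
        · rw [h3] at h
          exact absurd h.1 (not_lt.2 h1.le)
        · exact absurd h.1 (not_lt.2 ((hz v h3).trans h1).le)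
      rw [e1, e2, e3]
      simp

/-- Abel summation -/
theorem cabel_sum (a : ℤ → ℝ) (F : ℝ → ℝ) (m : ℕ) :
    ∑ k ∈ range m, (a k - a (k - 1)) * F k =
      a (m - 1) * F m - a (-1) * F 0 + ∑ k ∈ range m, a k * (F k - F (k + 1)) := by
  induction m with
  | zero => simp
  | succ m ih =>
    rw [Finset.sum_range_succ, Finset.sum_range_succ, ih]
    push_cast
    rw [add_sub_cancel_right]
    ring

theorem cabel_h {m : ℕ} {h : ℤ → ℝ} (hh : IsHalf m h) (k q : ℤ) : h (k + m * q) = h k + π * q := by
  have hnat : ∀ (k : ℤ) (j : ℕ), h (k + m * j) = h k + π * j := by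
    intro k j
    induction j with
    | zero => simp
    | succ j ih =>
      have e : k + (m : ℤ) * ((j + 1 : ℕ) : ℤ) = (k + m * j) + m := by push_cast; ring
      rw [e, hh.per, ih]
      push_cast
      ring
  rcases Int.le_total 0 q with h0 | h0
  · obtain ⟨j, rfl⟩ := Int.eq_ofNat_of_zero_le h0
    have := hnat k j
    simpa using this
  · obtain ⟨j, hj⟩ := Int.eq_ofNat_of_zero_le (show 0 ≤ -q by omega)
    have h1 := hnat (k + m * q) j
    have e : k + (m : ℤ) * q + m * j = k := by
      have : q = -(j : ℤ) := by omega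
      rw [this]
      ring
    rw [e] at h1
    have h2 : (q : ℝ) = -(j : ℝ) := by
      have : q = -(j : ℤ) := by omega
      rw [this]
      push_cast
      ring
    rw [h2]
    linarith

theorem abel {m : ℕ} {h : ℤ → ℝ} (hh : IsHalf m h) {J : Type*} [Fintype J] (hJ : Even (Fintype.card J))
    (y : J → ℝ) (hy : ∀ j, ∀ k : ℤ, y j ≠ k) (hinj : ∀ i j, i ≠ j → Nq m (y i) (y j)) :
    ∑ k ∈ range m, (h k - h (k - 1)) * FF m y k =
      π * FF m y 0 + 2 * ∑ j, (h ⌊y j⌋ - π * ⌊y j / m⌋) * FF m y (y j) := by
  classical
  have hm2 := hh.two_le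
  have hm0 : (0 : ℝ) < m := by exact_mod_cast (by omega : 0 < m)
  have hm0' : (m : ℝ) ≠ 0 := hm0.ne'
  obtain ⟨q, hq⟩ : ∃ q : J → ℤ, ∀ j, q j = ⌊y j / m⌋ := ⟨_, fun _ => rfl⟩
  obtain ⟨z, hz⟩ : ∃ z : J → ℝ, ∀ j, z j = y j - m * q j := ⟨_, fun _ => rfl⟩
  have hz0 : ∀ j, 0 < z j := by
    intro j
    have h1 := Int.floor_le (y j / m)
    rw [← hq, le_div_iff₀ hm0] at h1
    have h2 : z j ≠ 0 := by
      intro h3
      rw [hz] at h3
      apply hy j (m * q j)
      push_cast
      linarith
    have h3 : 0 ≤ z j := by
      rw [hz]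
      linarith
    exact lt_of_le_of_ne h3 (Ne.symm h2)
  have hzm : ∀ j, z j < m := by
    intro j
    have h1 := Int.lt_floor_add_one (y j / m)
    rw [← hq, div_lt_iff₀ hm0] at h1
    rw [hz]
    linarith
  have hzk : ∀ j, ∀ k : ℤ, z j ≠ k := by
    intro j k h1
    rw [hz] at h1
    apply hy j (k + m * q j)
    push_cast
    linarith
  have hzinj : Function.Injective z := by
    intro i j hij
    by_contra hne
    apply hinj i j hne (q i - q j)
    rw [hz, hz] at hij
    push_cast
    linarith
  -- periodicity
  have hper : ∀ (p : ℝ) (k : ℤ), FF m y (p + m * k) = FF m y p := by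
    intro p k
    unfold FF
    have h1 : ∀ j, (-1 : ℝ) ^ ⌈(p + m * k - y j) / m⌉ = (-1) ^ k * (-1) ^ ⌈(p - y j) / m⌉ := by
      intro j
      have e : (p + m * k - y j) / m = (p - y j) / m + (k : ℤ) := by
        field_simp
        ring
      rw [e, Int.ceil_add_intCast, zpow_add₀ (by norm_num), mul_comm]
    rw [Finset.prod_congr rfl (fun j _ => h1 j), Finset.prod_mul_distrib, Finset.prod_const,
      Finset.card_univ]
    have h2 : ((-1 : ℝ) ^ k) ^ Fintype.card J = 1 := by
      obtain ⟨t, ht⟩ := hJ
      rw [ht, ← two_mul, pow_mul]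
      have : ((-1 : ℝ) ^ k) ^ 2 = 1 := by
        rw [← zpow_natCast, ← zpow_mul, mul_comm, zpow_mul]
        norm_num
      rw [this, one_pow]
    rw [h2, one_mul]
  have hFy : ∀ j, FF m y (y j) = FF m y (z j) := by
    intro j
    have h1 := hper (z j) (q j)
    rw [← h1]
    congr 1
    rw [hz]
    ring
  obtain ⟨B, hB⟩ : ∃ B : Finset ℝ, B = Finset.univ.image z := ⟨_, rfl⟩
  have hBint : ∀ k : ℤ, (k : ℝ) ∉ B := by
    intro k hk
    rw [hB, Finset.mem_image] at hk
    obtain ⟨j, -, hj⟩ := hk
    exact hzk j k hj
  obtain ⟨ε, hε⟩ : ∃ ε : ℝ, ε = ∏ j, (-1 : ℝ) ^ (-(q j)) := ⟨_, rfl⟩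
  have hval : ∀ p : ℝ, 0 ≤ p → p ≤ m → FF m y p = ε * (-1) ^ (B.filter (fun w => w < p)).card := by
    intro p hp0 hpm
    unfold FF
    have h1 : ∀ j, (-1 : ℝ) ^ ⌈(p - y j) / m⌉ =
        (-1) ^ (-(q j)) * (if z j < p then -1 else 1) := by
      intro j
      have e : (p - y j) / m = (p - z j) / m + ((-(q j) : ℤ) : ℝ) := by
        rw [hz]
        push_cast
        field_simp
        ring
      rw [e, Int.ceil_add_intCast, zpow_add₀ (by norm_num), mul_comm]
      congr 1
      have a1 := hz0 j
      have a2 := hzm j
      by_cases h2 : z j < p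
      · rw [if_pos h2]
        have h3 : ⌈(p - z j) / m⌉ = 1 := by
          rw [Int.ceil_eq_iff]
          constructor
          · push_cast
            rw [sub_self]
            exact div_pos (by linarith) hm0
          · rw [div_le_iff₀ hm0]
            push_cast
            linarith
        rw [h3]
        norm_num
      · rw [if_neg h2]
        have h3 : ⌈(p - z j) / m⌉ = 0 := by
          rw [Int.ceil_eq_iff]
          constructor
          · rw [lt_div_iff₀ hm0]
            push_cast
            linarith
          · rw [div_le_iff₀ hm0]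
            push_cast
            linarith [not_lt.1 h2]
        rw [h3]
        norm_num
    rw [Finset.prod_congr rfl (fun j _ => h1 j), Finset.prod_mul_distrib, ← hε]
    congr 1
    rw [Finset.prod_ite, Finset.prod_const, Finset.prod_const_one, mul_one]
    congr 1
    rw [hB, Finset.filter_image, Finset.card_image_of_injective _ hzinj]
  have hjump : ∀ k ∈ range m, FF m y k - FF m y (k + 1) =
      2 * ∑ w ∈ B.filter (fun w => (k : ℝ) < w ∧ w < k + 1), FF m y w := by
    intro k hk
    rw [Finset.mem_range] at hk
    have k1 : ((k : ℝ) + 1) ≤ m := by exact_mod_cast hk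
    have k0 : (0 : ℝ) ≤ (k : ℝ) := Nat.cast_nonneg k
    rw [hval k k0 (by linarith), hval (k + 1) (by linarith) k1, ← mul_sub]
    have h1 := FF_jump (B := B) (a := (k : ℝ)) (b := (k : ℝ) + 1) (by linarith)
      (by exact_mod_cast hBint (k : ℤ)) (by exact_mod_cast hBint ((k : ℤ) + 1))
    rw [h1, mul_left_comm]
    congr 1
    rw [Finset.mul_sum]
    refine Finset.sum_congr rfl fun w hw => ?_
    rw [Finset.mem_filter] at hw
    rw [hval w (by linarith [hw.2.1]) (by linarith [hw.2.2])]
  have hA := cabel_sum h (FF m y) m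
  rw [hA]
  have hFm : FF m y m = FF m y 0 := by
    have := hper 0 1
    simpa using this
  have hh1 : h (m - 1) = h (-1) + π := by
    have := hh.per (-1)
    rw [← this]
    congr 1
  rw [hFm, hh1]
  have hmain : ∑ k ∈ range m, h k * (FF m y k - FF m y (k + 1)) =
      2 * ∑ j, (h ⌊y j⌋ - π * ⌊y j / m⌋) * FF m y (y j) := by
    have e1 : ∑ k ∈ range m, h k * (FF m y k - FF m y (k + 1)) =
        2 * ∑ k ∈ range m, ∑ w ∈ B, (if (k : ℝ) < w ∧ w < k + 1 then h k * FF m y w else 0) := by
      rw [Finset.mul_sum]
      refine Finset.sum_congr rfl fun k hk => ?_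
      rw [hjump k hk, mul_left_comm]
      congr 1
      rw [Finset.mul_sum, Finset.sum_filter]
    rw [e1, Finset.sum_comm]
    congr 1
    have e2 : ∀ w ∈ B, ∑ k ∈ range m, (if (k : ℝ) < w ∧ w < k + 1 then h k * FF m y w else 0) =
        h ⌊w⌋ * FF m y w := by
      intro w hw
      have hw' := hw
      rw [hB, Finset.mem_image] at hw'
      obtain ⟨j, -, hj⟩ := hw'
      have a1 := hz0 j
      have a2 := hzm j
      rw [hj] at a1 a2
      have hfl0 : 0 ≤ ⌊w⌋ := Int.floor_nonneg.2 a1.le
      obtain ⟨f, hf⟩ := Int.eq_ofNat_of_zero_le hfl0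
      have b1 := Int.floor_le w
      have b2 := Int.lt_floor_add_one w
      rw [hf] at b1 b2
      push_cast at b1 b2
      have b3 : (f : ℝ) ≠ w := by
        intro h1
        have := hBint (f : ℤ)
        push_cast at this
        rw [h1] at this
        exact this hw
      have b4 : (f : ℝ) < w := lt_of_le_of_ne b1 b3
      rw [Finset.sum_eq_single f]
      · rw [if_pos ⟨b4, b2⟩, hf]
      · intro k _ hkf
        rw [if_neg]
        rintro ⟨c1, c2⟩
        apply hkf
        have d1 : (k : ℝ) < (f : ℝ) + 1 := by linarith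
        have d2 : (f : ℝ) < (k : ℝ) + 1 := by linarith
        have d3 : k < f + 1 := by exact_mod_cast d1
        have d4 : f < k + 1 := by exact_mod_cast d2
        omega
      · intro hf2
        exfalso
        apply hf2
        rw [Finset.mem_range]
        have : (f : ℝ) < m := by linarith
        exact_mod_cast this
    rw [Finset.sum_congr rfl e2, hB, Finset.sum_image (fun i _ j _ hij => hzinj hij)]
    refine Finset.sum_congr rfl fun j _ => ?_
    rw [hFy j]
    congr 1
    have e3 : ⌊y j⌋ = ⌊z j⌋ + m * q j := by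
      have e4 : y j = z j + ((m * q j : ℤ) : ℝ) := by
        rw [hz]
        push_cast
        ring
      rw [e4, Int.floor_add_intCast]
    rw [e3, cabel_h hh, ← hq]
    ring
  rw [hmain]
  ring

end H47A
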