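import Pool.Agent.Lib.H47A.BBil

/-! # H47A, module C: closed one-sided curves as chord systems
The boundary circle of the disc U is `R/2mZ`; the antipodal map is `x ↦ x + m`. A closed one-sided curve in general position is a
cyclic sequence of chords `X t → Y t`, `X (t+1) = Y t + m`, with an odd number `n` of chords. -/

open Real Finset

namespace H47A

/-- `⌈x/2m⌉`: counts the points `2mZ` in `[0,x)` (left continuous). -/
noncomputable def Cl (m : ℕ) (x : ℝ) : ℤ := ⌈x / (2 * m)⌉

/-- Position of `p` with respect to the chord `(x,y)`: a sign, `2m`-periodic in `p` and (up to nothing) in `x`, `y` jointly used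
in products. -/
noncomputable def side (m : ℕ) (x y p : ℝ) : ℝ := (-1) ^ (Cl m (p - x) + Cl m (p - y))

/-- Interleaving sign of the chords `(p,q)` and `(x,y)`: `-1` if they cross, `1` if not (for four points distinct mod `2m`). -/
noncomputable def il (m : ℕ) (p q x y : ℝ) : ℝ := side m x y p * side m x y q

/-- The signed crossing number of `(p,q)` and `(x,y)`. -/
noncomputable def bb (m : ℕ) (p q x y : ℝ) : ℤ :=
  Cl m (q - y) - Cl m (q - x) - Cl m (p - y) + Cl m (p - x)

/-- Two points are different modulo `m`. -/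
def Nq (m : ℕ) (x y : ℝ) : Prop := ∀ k : ℤ, x - y ≠ k * m

/-- A closed one-sided chord system. -/
structure CS (m : ℕ) where
  n : ℕ
  odd : Odd n
  Y : ℤ → ℝ
  per : ∀ t, Y (t + n) = Y t
  nv : ∀ t, ∀ k : ℤ, Y t ≠ k
  inj : ∀ s t, ¬ ((n : ℤ) ∣ s - t) → Nq m (Y s) (Y t)

namespace CS

variable {m : ℕ}

/-- Starting point of the chord `t`. -/
noncomputable def X (c : CS m) (t : ℤ) : ℝ := c.Y (t - 1) + m

/-- The axis angle at the chord `t`: alternating sum of the half angles starting at `t`. -/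
noncomputable def E (h : ℤ → ℝ) (c : CS m) (t : ℤ) : ℝ :=
  ∑ i ∈ range c.n, (-1) ^ i * h ⌊c.Y (t + i)⌋

/-- The jump vector at the chord `t`. -/
noncomputable def xi (h : ℤ → ℝ) (c : CS m) (t : ℤ) : ℂ :=
  Complex.I * Complex.exp (((c.E h t : ℝ) : ℂ) * Complex.I)

/-- The null vector of the curve, as a step function on the real line. -/
noncomputable def nf (h : ℤ → ℝ) (c : CS m) (p : ℝ) : ℂ :=
  ∑ t ∈ range c.n, ((Cl m (p - c.Y t) - Cl m (p - c.X t) : ℤ) : ℂ) * c.xi h t

/-- The null vector at the vertices. -/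
noncomputable def nV (h : ℤ → ℝ) (c : CS m) (k : ℤ) : ℂ := c.nf h k

/-- The sign function of the curve. -/
noncomputable def sgn (c : CS m) (p : ℝ) : ℝ := ∏ t ∈ range c.n, (-1) ^ ⌈(p - c.Y t) / m⌉

/-- Simple: different chords do not cross. -/
def Simple (c : CS m) : Prop :=
  ∀ s t : ℤ, ¬ ((c.n : ℤ) ∣ s - t) → il m (c.X s) (c.Y s) (c.X t) (c.Y t) = 1

end CS

/-- Two systems in general position: all points different modulo `m`. -/
def GenPos {m : ℕ} (c c' : CS m) : Prop := ∀ s t, Nq m (c.Y s) (c'.Y t)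

/-- The chord `t` of `c` and the chord `u` of `c'` is the only crossing pair. -/
def OneCross {m : ℕ} (c c' : CS m) (t u : ℤ) : Prop :=
  il m (c.X t) (c.Y t) (c'.X u) (c'.Y u) = -1 ∧
  ∀ s v : ℤ, ¬ ((c.n : ℤ) ∣ s - t ∧ (c'.n : ℤ) ∣ v - u) → il m (c.X s) (c.Y s) (c'.X v) (c'.Y v) = 1

/-- Functions on the circle which satisfy the gluing relations on the closed segments. -/
structure Glued (m : ℕ) (h : ℤ → ℝ) (f : ℝ → ℂ) : Prop where
  per : ∀ x, f (x + 2 * m) = f x
  glue : ∀ k : ℤ, ∀ x ∈ Set.Icc (k : ℝ) (k + 1), f (x + m) - f (k + m) = Phi h k (f x - f k)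

/-- The correlation of two sign functions with the weights `mu_k = (h_k - h_{k-1})/pi`. -/
noncomputable def Gc {m : ℕ} (h : ℤ → ℝ) (c c' : CS m) : ℝ :=
  ∑ k ∈ range m, (h k - h (k - 1)) / π * (c.sgn k * c'.sgn k)

end H47A
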