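import Pool.Agent.Lib.H47A.CGlue

/-! # H47A, chunk CDUAL (M)
Duality: the pairing of the null vector with any glued function f is the axis component of the displacement. The points
`th t` may be chosen anywhere in the closed segment of `Y t`.
PROOF. Write f_k = f k, n_k = nf k (periodic mod 2m, `nf_glued`). Summation over the period gives
 AA f n = (1/4) sum_k [cr(f_k, n_{k+1}) + cr(n_k, f_{k+1})] = (1/4) sum_{k<2m} cr(f_k + f_{k+1}, n_{k+1} - n_k)
(cr antisymmetric, sum_k cr(f_k,n_k) = sum_k cr(f_{k+1},n_{k+1})). n_{k+1} - n_k = sum_t xi t ([Y t in (k,k+1) mod 2m] -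
[X t in (k,k+1) mod 2m]) where the brackets are Cl (k+1-Y t) - Cl (k - Y t) in {0,1}. For fixed t exactly one k of the period has
bracket 1, namely k = ⌊Y t⌋ mod 2m, and k -> f_k is 2m-periodic. Therefore
 AA f n = (1/4) sum_t [ cr(f_k + f_{k+1}, xi t) (k = ⌊Y t⌋) - cr(f_k' + f_{k'+1}, xi t) (k' = ⌊X t⌋ = ⌊Y (t-1)⌋ + m) ]
        = (1/4) sum_t [ cr(f_k + f_{k+1}, xi t) - cr(f_{k+m} + f_{k+m+1}, xi (t+1)) ],  k = ⌊Y t⌋ (sum_shift).
For theta in [k,k+1] let e = f theta - f_k, f(theta + m) = f_{k+m} + Phi_k e, and cr(Phi_k e, xi (t+1)) = cr(Phi_k e, - Phi_k xi t)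
= cr(e, xi t) (`xi_succ`, `Phi_cr`). So G(theta) = cr(f theta, xi t) - cr(f (theta+m), xi (t+1)) does not depend on theta in [k,k+1];
the bracket is G(k) + G(k+1) = 2 G(th t). So AA f n = (1/2) sum_t [cr(f (th t), xi t) - cr(f (th t + m), xi (t+1))] and the claim
follows by shifting the second part (th and xi are n-periodic).
`dual_Y`: th = Y. `gram_bb`: f = nf of another system: nf' (Y t) - nf' (X t) = sum_u bb(X t,Y t;X' u,Y' u) xi' u and `cr_xi`. -/

open Real Finset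

namespace H47A

variable {m : ℕ} {h : ℤ → ℝ}

theorem cdual_per (G : ℤ → ℝ) (hG : ∀ k, G (k + 2 * m) = G k) (k q : ℤ) : G (k + q * (2 * m)) = G k := by
  have hP : Function.Periodic G (2 * m : ℤ) := hG
  exact (hP.int_mul q) k

theorem cdual_pick (hm : 0 < m) (G : ℤ → ℝ) (hG : ∀ k, G (k + 2 * m) = G k) (y : ℝ)
    (hy : ∀ k : ℤ, y ≠ k) :
    ∑ k ∈ range (2 * m), ((Cl m ((k : ℝ) + 1 - y) - Cl m ((k : ℝ) - y) : ℤ) : ℝ) * G k = G ⌊y⌋ := by
  have hm0 : (0 : ℝ) < m := by exact_mod_cast hm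
  have h2 : (0 : ℝ) < 2 * m := by positivity
  obtain ⟨q, hq⟩ : ∃ q : ℤ, q = ⌊y / (2 * m)⌋ := ⟨_, rfl⟩
  obtain ⟨y0, hy0⟩ : ∃ y0 : ℝ, y0 = y - 2 * m * q := ⟨_, rfl⟩
  have h0 : 0 < y0 := by
    have h1 := Int.floor_le (y / (2 * m))
    rw [← hq, le_div_iff₀ h2] at h1
    have h3 : y0 ≠ 0 := by
      intro h4
      apply hy (2 * m * q)
      push_cast
      linarith
    have h4 : 0 ≤ y0 := by rw [hy0]; linarith
    exact lt_of_le_of_ne h4 (Ne.symm h3)
  have h1 : y0 < 2 * m := by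
    have h1 := Int.lt_floor_add_one (y / (2 * m))
    rw [← hq, div_lt_iff₀ h2] at h1
    rw [hy0]
    linarith
  obtain ⟨f, hf⟩ := Int.eq_ofNat_of_zero_le (Int.floor_nonneg.2 h0.le)
  have f1 := Int.floor_le y0
  have f2 := Int.lt_floor_add_one y0
  rw [hf] at f1 f2
  push_cast at f1 f2
  have hfm : f < 2 * m := by
    have : (f : ℝ) < 2 * m := by linarith
    exact_mod_cast this
  have hfl : ⌊y⌋ = f + q * (2 * m) := by
    have e : y = y0 + ((q * (2 * m) : ℤ) : ℝ) := by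
      rw [hy0]
      push_cast
      ring
    rw [e, Int.floor_add_intCast, hf]
  have hcl : ∀ x : ℝ, 0 ≤ x → x ≤ 2 * m → Cl m (x - y) = -q + (if y0 < x then 1 else 0) := by
    intro x hx0 hx1
    unfold Cl
    have e : (x - y) / (2 * m) = (x - y0) / (2 * m) + ((-q : ℤ) : ℝ) := by
      rw [hy0]
      push_cast
      field_simp
      ring
    rw [e, Int.ceil_add_intCast, add_comm]
    congr 1
    split_ifs with hc
    · rw [Int.ceil_eq_iff]
      constructor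
      · push_cast
        rw [sub_self]
        exact div_pos (by linarith) h2
      · rw [div_le_iff₀ h2]
        push_cast
        linarith
    · rw [Int.ceil_eq_iff]
      constructor
      · rw [lt_div_iff₀ h2]
        push_cast
        linarith
      · rw [div_le_iff₀ h2]
        push_cast
        linarith [not_lt.1 hc]
  have hterm : ∀ k ∈ range (2 * m), ((Cl m ((k : ℝ) + 1 - y) - Cl m ((k : ℝ) - y) : ℤ) : ℝ) * G k =
      if k = f then G k else 0 := by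
    intro k hk
    rw [Finset.mem_range] at hk
    have k0 : (0 : ℝ) ≤ k := Nat.cast_nonneg k
    have k1 : (k : ℝ) + 1 ≤ 2 * m := by exact_mod_cast hk
    rw [hcl _ (by linarith) k1, hcl _ k0 (by linarith)]
    rcases lt_trichotomy k f with hkf | hkf | hkf
    · have a1 : (k : ℝ) + 1 ≤ f := by exact_mod_cast hkf
      rw [if_neg (by linarith), if_neg (by linarith), if_neg hkf.ne]
      simp
    · rw [hkf, if_pos f2, if_neg (by linarith), if_pos rfl]
      simp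
    · have a1 : (f : ℝ) + 1 ≤ k := by exact_mod_cast hkf
      rw [if_pos (by linarith), if_pos (by linarith), if_neg hkf.ne']
      simp
  rw [Finset.sum_congr rfl hterm, Finset.sum_ite_eq' (range (2 * m)) f, if_pos (Finset.mem_range.2 hfm),
    hfl, cdual_per G hG]

/-- the bracket does not depend on the point of the segment -/
theorem cdual_H (c : CS m) {f : ℝ → ℂ} (hf : Glued m h f) (t : ℤ) {θ : ℝ}
    (hθ : θ ∈ Set.Icc (⌊c.Y t⌋ : ℝ) (⌊c.Y t⌋ + 1)) :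
    cr (f θ) (c.xi h t) - cr (f (θ + m)) (c.xi h (t + 1)) =
      cr (f ⌊c.Y t⌋) (c.xi h t) - cr (f (⌊c.Y t⌋ + m)) (c.xi h (t + 1)) := by
  obtain ⟨k, hk⟩ : ∃ k, k = ⌊c.Y t⌋ := ⟨_, rfl⟩
  have h1 := hf.glue ⌊c.Y t⌋ θ hθ
  have h2 := c.xi_succ (h := h) t
  rw [← hk] at h1 h2 ⊢
  obtain ⟨e, he⟩ : ∃ e, e = f θ - f k := ⟨_, rfl⟩
  rw [← he] at h1
  have e1 : f (θ + m) = f (k + m) + Phi h k e := by rw [← h1]; ring
  have e2 : f θ = f k + e := by rw [he]; ring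
  have e3 : cr (Phi h k e) (c.xi h (t + 1)) = cr e (c.xi h t) := by
    rw [h2, bbil_cr_anti, bbil_cr_anti e]
    have e4 : cr (-Phi h k (c.xi h t)) (Phi h k e) = -cr (Phi h k (c.xi h t)) (Phi h k e) := by
      unfold cr
      simp only [Complex.neg_re, Complex.neg_im]
      ring
    rw [e4, Phi_cr]
    ring
  rw [e1, e2, bbil_cr_add_left, bbil_cr_add_left, e3]
  ring

theorem dual (hh : IsHalf m h) (c : CS m) {f : ℝ → ℂ} (hf : Glued m h f) (th : ℤ → ℝ)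
    (hper : ∀ t, th (t + c.n) = th t) (hth : ∀ t, th t ∈ Set.Icc (⌊c.Y t⌋ : ℝ) (⌊c.Y t⌋ + 1)) :
    AA m (fun k => f k) (c.nV h) =
      1 / 2 * ∑ t ∈ range c.n, cr (f (th t) - f (th (t - 1) + m)) (c.xi h t) := by
  have hm : 0 < m := by
    have := hh.two_le
    omega
  have hm0 : (0 : ℝ) < m := by exact_mod_cast hm
  obtain ⟨F, hF⟩ : ∃ F : ℤ → ℂ, ∀ k, F k = f k := ⟨_, fun _ => rfl⟩
  obtain ⟨N, hN⟩ : ∃ N : ℤ → ℂ, N = c.nV h := ⟨_, rfl⟩
  have hFp : ∀ k, F (k + 2 * m) = F k := by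
    intro k
    rw [hF, hF]
    push_cast
    exact hf.per _
  have hNp : ∀ k, N (k + 2 * m) = N k := by
    intro k
    rw [hN]
    exact (nV_inV hh c).per k
  have hFf : (fun k : ℤ => f k) = F := by funext k; rw [hF]
  rw [hFf, ← hN]
  -- summation by parts
  have s1 : AA m F N = 1 / 4 * ∑ k ∈ range (2 * m), cr (F k + F (k + 1)) (N (k + 1) - N k) := by
    unfold AA
    congr 1
    have h1 := bbil_shift (m := m) (fun k => cr (F k) (N k)) (fun k => by
      show cr (F (k + 2 * m)) (N (k + 2 * m)) = cr (F k) (N k)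
      rw [hFp, hNp])
    have h2 : ∀ k : ℤ, cr (F k + F (k + 1)) (N (k + 1) - N k) =
        (cr (F k) (N (k + 1)) + cr (N k) (F (k + 1))) +
          (cr (F (k + 1)) (N (k + 1)) - cr (F k) (N k)) := by
      intro k
      unfold cr
      simp only [Complex.add_re, Complex.add_im, Complex.sub_re, Complex.sub_im]
      ring
    have h3 : ∑ k ∈ range (2 * m), (cr (F (k + 1)) (N (k + 1)) - cr (F k) (N k)) = 0 := by
      rw [Finset.sum_sub_distrib]
      exact sub_eq_zero.2 h1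
    rw [Finset.sum_congr rfl (fun (k : ℕ) _ => h2 (k : ℤ)),
      Finset.sum_add_distrib (f := fun k : ℕ => cr (F k) (N (k + 1)) + cr (N k) (F (k + 1))), h3, add_zero]
  -- the steps of N
  have s2 : ∀ k : ℕ, N ((k : ℤ) + 1) - N k = ∑ t ∈ range c.n,
      ((((Cl m ((k : ℝ) + 1 - c.Y t) - Cl m ((k : ℝ) - c.Y t) : ℤ) : ℝ) -
        ((Cl m ((k : ℝ) + 1 - c.X t) - Cl m ((k : ℝ) - c.X t) : ℤ) : ℝ) : ℝ) : ℂ) * c.xi h t := by
    intro k
    rw [hN]
    unfold CS.nV CS.nf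
    rw [← Finset.sum_sub_distrib]
    refine Finset.sum_congr rfl fun t _ => ?_
    push_cast
    ring
  have hG : ∀ t : ℤ, ∀ k : ℤ, cr (F (k + 2 * m) + F (k + 2 * m + 1)) (c.xi h t) =
      cr (F k + F (k + 1)) (c.xi h t) := by
    intro t k
    rw [hFp, show k + 2 * (m : ℤ) + 1 = (k + 1) + 2 * m by ring, hFp]
  have hX : ∀ t : ℤ, ∀ k : ℤ, c.X t ≠ k := by
    intro t k hk
    unfold CS.X at hk
    apply c.nv (t - 1) (k - m)
    push_cast
    linarith
  have s3 : ∑ k ∈ range (2 * m), cr (F k + F (k + 1)) (N (k + 1) - N k) =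
      ∑ t ∈ range c.n, (cr (F ⌊c.Y t⌋ + F (⌊c.Y t⌋ + 1)) (c.xi h t) -
        cr (F ⌊c.X t⌋ + F (⌊c.X t⌋ + 1)) (c.xi h t)) := by
    have h1 : ∀ k ∈ range (2 * m), cr (F k + F (k + 1)) (N (k + 1) - N k) = ∑ t ∈ range c.n,
        (((Cl m ((k : ℝ) + 1 - c.Y t) - Cl m ((k : ℝ) - c.Y t) : ℤ) : ℝ) *
            cr (F k + F (k + 1)) (c.xi h t) -
        ((Cl m ((k : ℝ) + 1 - c.X t) - Cl m ((k : ℝ) - c.X t) : ℤ) : ℝ) *
            cr (F k + F (k + 1)) (c.xi h t)) := by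
      intro k _
      rw [s2, bbil_cr_sum_right]
      refine Finset.sum_congr rfl fun t _ => ?_
      rw [bbil_cr_real_right, sub_mul]
    rw [Finset.sum_congr rfl h1, Finset.sum_comm]
    refine Finset.sum_congr rfl fun t _ => ?_
    rw [Finset.sum_sub_distrib]
    rw [cdual_pick hm (fun k => cr (F k + F (k + 1)) (c.xi h t)) (hG t) (c.Y t) (c.nv t),
      cdual_pick hm (fun k => cr (F k + F (k + 1)) (c.xi h t)) (hG t) (c.X t) (hX t)]
  have hfl : ∀ t : ℤ, ⌊c.X (t + 1)⌋ = ⌊c.Y t⌋ + m := by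
    intro t
    rw [c.X_succ]
    have : c.Y t + (m : ℝ) = c.Y t + ((m : ℤ) : ℝ) := by push_cast; rfl
    rw [this, Int.floor_add_intCast]
  have s4 : ∑ t ∈ range c.n, cr (F ⌊c.X t⌋ + F (⌊c.X t⌋ + 1)) (c.xi h t) =
      ∑ t ∈ range c.n, cr (F (⌊c.Y t⌋ + m) + F (⌊c.Y t⌋ + m + 1)) (c.xi h (t + 1)) := by
    rw [← sum_shift c.n (fun t : ℤ => cr (F ⌊c.X t⌋ + F (⌊c.X t⌋ + 1)) (c.xi h t)) (fun t => by
      rw [c.X_mod (s := t + c.n) (t := t) ⟨1, by ring⟩, c.xi_mod (s := t + c.n) (t := t) ⟨1, by ring⟩]) 1]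
    refine Finset.sum_congr rfl fun t _ => ?_
    rw [hfl]
  have hbr : ∀ t : ℤ, cr (F ⌊c.Y t⌋ + F (⌊c.Y t⌋ + 1)) (c.xi h t) -
      cr (F (⌊c.Y t⌋ + m) + F (⌊c.Y t⌋ + m + 1)) (c.xi h (t + 1)) =
      2 * (cr (f (th t)) (c.xi h t) - cr (f (th t + m)) (c.xi h (t + 1))) := by
    intro t
    have a1 := cdual_H c hf t (hth t)
    have a2 := cdual_H c hf t (θ := (⌊c.Y t⌋ : ℝ) + 1) ⟨by linarith, le_rfl⟩
    rw [a1, bbil_cr_add_left, bbil_cr_add_left, hF, hF, hF, hF]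
    push_cast
    rw [show (⌊c.Y t⌋ : ℝ) + m + 1 = ⌊c.Y t⌋ + 1 + m by ring]
    linarith
  have s5 : ∑ t ∈ range c.n, cr (f (th t + m)) (c.xi h (t + 1)) =
      ∑ t ∈ range c.n, cr (f (th (t - 1) + m)) (c.xi h t) := by
    rw [← sum_shift c.n (fun t : ℤ => cr (f (th (t - 1) + m)) (c.xi h t)) (fun t => by
      rw [show t + (c.n : ℤ) - 1 = (t - 1) + c.n by ring, hper,
        c.xi_mod (s := t + c.n) (t := t) ⟨1, by ring⟩]) 1]
    refine Finset.sum_congr rfl fun t _ => ?_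
    rw [add_sub_cancel_right]
  rw [s1, s3, Finset.sum_sub_distrib, s4, ← Finset.sum_sub_distrib,
    Finset.sum_congr rfl (fun (t : ℕ) _ => hbr t), ← Finset.mul_sum, Finset.sum_sub_distrib, s5,
    ← Finset.sum_sub_distrib]
  have h1 : ∀ t : ℕ, cr (f (th t) - f (th (t - 1) + m)) (c.xi h t) =
      cr (f (th t)) (c.xi h t) - cr (f (th (t - 1) + m)) (c.xi h t) := by
    intro t
    unfold cr
    simp only [Complex.sub_re, Complex.sub_im]
    ring
  rw [Finset.sum_congr rfl (fun (t : ℕ) _ => h1 t)]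
  ring

theorem dual_Y (hh : IsHalf m h) (c : CS m) {f : ℝ → ℂ} (hf : Glued m h f) :
    AA m (fun k => f k) (c.nV h) = 1 / 2 * ∑ t ∈ range c.n, cr (f (c.Y t) - f (c.X t)) (c.xi h t) := by
  exact dual hh c hf c.Y c.per fun t => ⟨Int.floor_le _, (Int.lt_floor_add_one _).le⟩

theorem gram_bb (hh : IsHalf m h) (c c' : CS m) :
    AA m (c'.nV h) (c.nV h) = 1 / 2 * ∑ t ∈ range c.n, ∑ u ∈ range c'.n,
      (bb m (c.X t) (c.Y t) (c'.X u) (c'.Y u) : ℝ) * sin (c.E h t - c'.E h u) := by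
  have h1 := dual_Y hh c (nf_glued hh c')
  have h2 : AA m (c'.nV h) (c.nV h) = AA m (fun k => c'.nf h k) (c.nV h) := rfl
  rw [h2, h1]
  congr 1
  refine Finset.sum_congr rfl fun t _ => ?_
  have h3 : c'.nf h (c.Y t) - c'.nf h (c.X t) = ∑ u ∈ range c'.n,
      (((bb m (c.X t) (c.Y t) (c'.X u) (c'.Y u) : ℤ) : ℝ) : ℂ) * c'.xi h u := by
    unfold CS.nf bb
    rw [← Finset.sum_sub_distrib]
    refine Finset.sum_congr rfl fun u _ => ?_
    push_cast
    ring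
  rw [h3, bbil_cr_sum_left]
  refine Finset.sum_congr rfl fun u _ => ?_
  rw [bbil_cr_real_left, cr_xi]

end H47A
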