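import Pool.Agent.Lib.H47A.COrd
import Pool.Agent.Lib.H47A.BBil

/-! # H47A, chunk CE (S/M)
Elementary facts on a chord system.
`E_per`: the sequence Y is n-periodic. `E_succ`: E(t+1) = sum_{i<n} (-1)^i h(t+1+i) (h(t) short for h⌊Y t⌋) = -(E t - h(t)) +
(-1)^(n-1) h(t+n) = 2 h(t) - E t, as n is odd and h(t+n) = h(t) (`Finset.sum_range_succ`, `sum_range_succ'`).
`xi_succ`: xi(t+1) = I e^{i(2h - E)} and Phi (I e^{iE}) = e^{2ih} (-I) e^{-iE}. `Phi_xi`: apply Phi to `xi_succ` (`Phi_invol`).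
`cr_xi`: cr(I e^{ia}, I e^{ib}) = sin(b - a). `nd_*`: from `inj`; for X: X s - X t = Y(s-1) - Y(t-1); X s - Y t = Y(s-1) - Y t + m is
not a multiple of 2m: if n does not divide s-1-t by Nq; otherwise Y(s-1) = Y t and m is not a multiple of 2m.
(`Y_mod`: Y depends only on the class mod n: induction from `per`.) -/

open Real Finset

namespace H47A

namespace CS

variable {m : ℕ} {h : ℤ → ℝ} (c : CS m)

theorem n_pos : 0 < c.n := c.odd.pos

theorem ce_mul (t : ℤ) (k : ℤ) : c.Y (t + k * c.n) = c.Y t := by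
  induction k using Int.induction_on with
  | zero => simp
  | succ i ih =>
    rw [← ih, ← c.per (t + (i : ℤ) * c.n)]
    congr 1
    push_cast
    ring
  | pred i ih =>
    rw [← ih, ← c.per (t + (-(i : ℤ) - 1) * c.n)]
    congr 1
    ring

theorem Y_mod {s t : ℤ} (hst : (c.n : ℤ) ∣ s - t) : c.Y s = c.Y t := by
  obtain ⟨k, hk⟩ := hst
  have : s = t + k * c.n := by linarith
  rw [this, ce_mul]

theorem X_mod {s t : ℤ} (hst : (c.n : ℤ) ∣ s - t) : c.X s = c.X t := by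
  unfold X
  rw [c.Y_mod (s := s - 1) (t := t - 1) (by simpa using hst)]

theorem X_succ (t : ℤ) : c.X (t + 1) = c.Y t + m := by
  unfold X
  rw [add_sub_cancel_right]

theorem E_per (t : ℤ) : c.E h (t + c.n) = c.E h t := by
  unfold E
  refine Finset.sum_congr rfl fun i _ => ?_
  rw [show t + (c.n : ℤ) + i = t + i + c.n by ring, c.per]

theorem E_mod {s t : ℤ} (hst : (c.n : ℤ) ∣ s - t) : c.E h s = c.E h t := by
  unfold E
  refine Finset.sum_congr rfl fun i _ => ?_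
  rw [c.Y_mod (s := s + i) (t := t + i) (by simpa using hst)]

theorem E_succ (t : ℤ) : c.E h (t + 1) = 2 * h ⌊c.Y t⌋ - c.E h t := by
  have h1 := Finset.sum_range_succ (fun i : ℕ => (-1 : ℝ) ^ i * h ⌊c.Y (t + i)⌋) c.n
  have h2 := Finset.sum_range_succ' (fun i : ℕ => (-1 : ℝ) ^ i * h ⌊c.Y (t + i)⌋) c.n
  rw [h1] at h2
  have h3 : ∑ i ∈ range c.n, (-1 : ℝ) ^ (i + 1) * h ⌊c.Y (t + ((i + 1 : ℕ) : ℤ))⌋ = -c.E h (t + 1) := by
    unfold E
    rw [← Finset.sum_neg_distrib]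
    refine Finset.sum_congr rfl fun i _ => ?_
    rw [show t + ((i + 1 : ℕ) : ℤ) = t + 1 + i by push_cast; ring, pow_succ]
    ring
  rw [h3, c.per, c.odd.neg_one_pow] at h2
  have h4 : ∑ i ∈ range c.n, (-1 : ℝ) ^ i * h ⌊c.Y (t + i)⌋ = c.E h t := rfl
  rw [h4] at h2
  have h5 : t + ((0 : ℕ) : ℤ) = t := by simp
  rw [h5, pow_zero] at h2
  linarith

theorem xi_mod {s t : ℤ} (hst : (c.n : ℤ) ∣ s - t) : c.xi h s = c.xi h t := by
  unfold xi
  rw [c.E_mod hst]

theorem xi_succ (t : ℤ) : c.xi h (t + 1) = -Phi h ⌊c.Y t⌋ (c.xi h t) := by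
  unfold xi Phi
  rw [E_succ, map_mul, Complex.conj_I, ← Complex.exp_conj, map_mul, Complex.conj_ofReal, Complex.conj_I]
  rw [show ((2 * h ⌊c.Y t⌋ - c.E h t : ℝ) : ℂ) * Complex.I =
    ((2 * h ⌊c.Y t⌋ : ℝ) : ℂ) * Complex.I + ((c.E h t : ℝ) : ℂ) * -Complex.I by push_cast; ring, Complex.exp_add]
  ring

theorem Phi_xi (t : ℤ) : Phi h ⌊c.Y t⌋ (c.xi h (t + 1)) = -c.xi h t := by
  rw [xi_succ, Phi_neg, Phi_invol]

theorem xi_norm (t : ℤ) : ‖c.xi h t‖ = 1 := by
  unfold xi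
  rw [norm_mul, Complex.norm_I, Complex.norm_exp_ofReal_mul_I, one_mul]

theorem nd_YY {s t : ℤ} (hst : ¬ (c.n : ℤ) ∣ s - t) : Nd m (c.Y s) (c.Y t) :=
  (c.inj s t hst).nd

theorem nd_XX {s t : ℤ} (hst : ¬ (c.n : ℤ) ∣ s - t) : Nd m (c.X s) (c.X t) := by
  intro k hk
  unfold X at hk
  refine (c.inj (s - 1) (t - 1) (by simpa using hst)) (2 * k) ?_
  push_cast
  linarith

theorem nd_XY (hm : 0 < m) (s t : ℤ) : Nd m (c.X s) (c.Y t) := by
  intro k hk
  unfold X at hk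
  by_cases hst : (c.n : ℤ) ∣ (s - 1) - t
  · rw [c.Y_mod hst] at hk
    have h1 : (m : ℝ) * (1 - 2 * k) = 0 := by linarith
    have hm0 : (m : ℝ) ≠ 0 := by exact_mod_cast hm.ne'
    have h2 : (1 : ℝ) - 2 * k = 0 := (mul_eq_zero.mp h1).resolve_left hm0
    have h3 : (1 : ℤ) - 2 * k = 0 := by exact_mod_cast h2
    omega
  · refine (c.inj (s - 1) t hst) (2 * k - 1) ?_
    push_cast
    linarith

end CS

theorem cr_xi {m : ℕ} {h : ℤ → ℝ} (c c' : CS m) (t u : ℤ) :
    cr (c'.xi h u) (c.xi h t) = sin (c.E h t - c'.E h u) := by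
  unfold cr CS.xi
  rw [sin_sub]
  simp only [Complex.mul_re, Complex.mul_im, Complex.I_re, Complex.I_im, Complex.exp_ofReal_mul_I_re,
    Complex.exp_ofReal_mul_I_im]
  ring

theorem cr_unit {m : ℕ} {h : ℤ → ℝ} (c : CS m) (t : ℤ) (w : ℂ) : |cr w (c.xi h t)| ≤ ‖w‖ := by
  rw [bbil_cr_eq]
  refine (Complex.abs_im_le_norm _).trans ?_
  rw [norm_mul, RCLike.norm_conj, c.xi_norm, mul_one]

/-- Sums over a period may be shifted (one step: n = k+1, `Finset.sum_range_succ` on the left, `sum_range_succ'` on the right). -/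
theorem sum_shift {M : Type*} [AddCommMonoid M] (n : ℕ) (f : ℤ → M) (hf : ∀ t, f (t + n) = f t) (s : ℤ) :
    ∑ t ∈ range n, f (t + s) = ∑ t ∈ range n, f t := by
  have h1 : ∀ s : ℤ, ∑ t ∈ range n, f (t + (s + 1)) = ∑ t ∈ range n, f (t + s) := by
    intro s
    rcases n with _ | k
    · simp
    · rw [Finset.sum_range_succ (fun t : ℕ => f (t + (s + 1))), Finset.sum_range_succ' (fun t : ℕ => f (t + s))]
      congr 1
      · refine Finset.sum_congr rfl fun t _ => ?_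
        congr 1
        push_cast
        ring
      · rw [show ((0 : ℕ) : ℤ) + s = s by simp, ← hf s]
        congr 1
        push_cast
        ring
  induction s using Int.induction_on with
  | zero => simp
  | succ i ih => rw [h1, ih]
  | pred i ih => rw [← ih, ← h1 (-(i : ℤ) - 1), sub_add_cancel]

theorem prod_shift {M : Type*} [CommMonoid M] (n : ℕ) (f : ℤ → M) (hf : ∀ t, f (t + n) = f t) (s : ℤ) :
    ∏ t ∈ range n, f (t + s) = ∏ t ∈ range n, f t := by
  have := sum_shift (M := Additive M) n (fun t => Additive.ofMul (f t)) (fun t => by simp only [hf]) s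
  rw [← ofMul_prod, ← ofMul_prod] at this
  exact Additive.ofMul.injective this

end H47A
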