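import Pool.Agent.Lib.H47A.CE

/-! # H47A, chunk CGLUE (M)
The null vector of a chord system satisfies the gluing relations.
PROOF of `nf_glued`. Period: Cl (x + 2m) = Cl x + 1, the two ceilings cancel. Gluing: fix k, x in [k,k+1]. For t put
J t = Cl (x - Y t) - Cl (k - Y t) and J' t = Cl (x - X t) - Cl (k - X t). Then (Cl_add, X (t+1) = Y t + m)
 Cl (x + m - X (t+1)) - Cl (k + m - X (t+1)) = J t,
 Cl (x + m - Y t) - Cl (k + m - Y t) = J' (t+1)   (x + m - Y t = x - X (t+1) + 2m).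
So nf(x+m) - nf(k+m) = sum_t (J' (t+1) - J (t-1)) xi t = sum_t (J' (t+1) xi t - J t xi (t+1)) (`sum_shift`), and
Phi_k (nf x - nf k) = sum_t (J t - J' t) Phi_k (xi t) = sum_t (J t Phi_k (xi t) - J' (t+1) Phi_k (xi (t+1))).
If J t != 0 then Y t + 2m j lies in [k,x) for some integer j, so (Y t is not an integer) ⌊Y t⌋ = k - 2mj and Phi_k = Phi ⌊Y t⌋
(`Phi_per` twice |j| times: make the lemma Phi h (k + m * j) = Phi h k), Phi_k (xi t) = - xi (t+1) (`xi_succ`). If J' (t+1) != 0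
then X (t+1) + 2mj = Y t + m + 2mj lies in [k,x), Phi_k = Phi ⌊Y t⌋ again and Phi_k (xi (t+1)) = - xi t (`Phi_xi`). So both
sums agree. (Cl (x - y) - Cl (k - y) != 0 with k <= x <= k+1 means: there is an integer j with k <= y + 2mj < x.)
`Glued.inV`: the gluing relation at x = k + 1. -/

open Real Finset

namespace H47A

variable {m : ℕ} {h : ℤ → ℝ}

theorem Phi_mul (hh : IsHalf m h) (k j : ℤ) (w : ℂ) : Phi h (k + m * j) w = Phi h k w := by
  induction j using Int.induction_on with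
  | zero => simp
  | succ i ih =>
    rw [← ih, ← Phi_per hh (k + m * (i : ℤ))]
    congr 1
    ring
  | pred i ih =>
    rw [← ih, ← Phi_per hh (k + m * (-(i : ℤ) - 1))]
    congr 1
    ring

theorem Cl_jump (hm : 0 < m) {x y : ℝ} {k : ℤ} (hx : x ∈ Set.Icc (k : ℝ) (k + 1))
    (hne : Cl m (x - y) - Cl m (k - y) ≠ 0) : ∃ j : ℤ, (k : ℝ) ≤ y + 2 * m * j ∧ y + 2 * m * j < x := by
  have hm0 : (0 : ℝ) < m := by exact_mod_cast hm
  have h2 : (0 : ℝ) < 2 * m := by positivity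
  refine ⟨Cl m (k - y), ?_, ?_⟩
  · have h3 : (k - y) / (2 * m) ≤ (Cl m (k - y) : ℝ) := Int.le_ceil _
    rw [div_le_iff₀ h2] at h3
    linarith
  · by_contra hc
    push Not at hc
    apply hne
    have h4 : Cl m (x - y) ≤ Cl m (k - y) := by
      have h5 : (x - y) / (2 * m) ≤ (Cl m (k - y) : ℝ) := by
        rw [div_le_iff₀ h2]
        linarith
      exact Int.ceil_le.mpr h5
    have h6 : Cl m (k - y) ≤ Cl m (x - y) := by
      unfold Cl
      exact Int.ceil_mono (div_le_div_of_nonneg_right (by linarith [hx.1]) h2.le)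
    omega

theorem cglue_floor (hh : IsHalf m h) {x y : ℝ} {k : ℤ} (hx : x ∈ Set.Icc (k : ℝ) (k + 1)) (e j : ℤ)
    (h1 : (k : ℝ) ≤ y + m * e + 2 * m * j) (h2 : y + m * e + 2 * m * j < x) (w : ℂ) :
    Phi h k w = Phi h ⌊y⌋ w := by
  have h3 : ⌊y⌋ = k + m * (-(e + 2 * j)) := by
    rw [Int.floor_eq_iff]
    push_cast
    constructor
    · linarith
    · linarith [hx.2]
  rw [h3, Phi_mul hh]

theorem cglue_J (hh : IsHalf m h) (c : CS m) {x : ℝ} {k : ℤ} (hx : x ∈ Set.Icc (k : ℝ) (k + 1)) (t : ℤ) :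
    ((Cl m (x - c.Y t) - Cl m (k - c.Y t) : ℤ) : ℂ) * Phi h k (c.xi h t) =
      -(((Cl m (x - c.Y t) - Cl m (k - c.Y t) : ℤ) : ℂ) * c.xi h (t + 1)) := by
  have hm : 0 < m := by have := hh.two_le; omega
  by_cases h0 : Cl m (x - c.Y t) - Cl m (k - c.Y t) = 0
  · rw [h0]
    simp
  · obtain ⟨j, h1, h2⟩ := Cl_jump hm hx h0
    rw [cglue_floor hh hx (y := c.Y t) 0 j (by push_cast; linarith) (by push_cast; linarith) (c.xi h t),
      c.xi_succ]
    ring

theorem cglue_J' (hh : IsHalf m h) (c : CS m) {x : ℝ} {k : ℤ} (hx : x ∈ Set.Icc (k : ℝ) (k + 1)) (t : ℤ) :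
    ((Cl m (x - c.X (t + 1)) - Cl m (k - c.X (t + 1)) : ℤ) : ℂ) * Phi h k (c.xi h (t + 1)) =
      -(((Cl m (x - c.X (t + 1)) - Cl m (k - c.X (t + 1)) : ℤ) : ℂ) * c.xi h t) := by
  have hm : 0 < m := by have := hh.two_le; omega
  by_cases h0 : Cl m (x - c.X (t + 1)) - Cl m (k - c.X (t + 1)) = 0
  · rw [h0]
    simp
  · obtain ⟨j, h1, h2⟩ := Cl_jump hm hx h0
    rw [c.X_succ] at h1 h2
    rw [cglue_floor hh hx (y := c.Y t) 1 j (by push_cast; linarith) (by push_cast; linarith) (c.xi h (t + 1)),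
      c.Phi_xi]
    ring

theorem cglue_sum (k : ℤ) (s : Finset ℕ) (a : ℕ → ℤ) (f : ℕ → ℂ) :
    Phi h k (∑ t ∈ s, (a t : ℂ) * f t) = ∑ t ∈ s, (a t : ℂ) * Phi h k (f t) := by
  classical
  induction s using Finset.induction_on with
  | empty => simp [Phi]
  | insert b s hb ih =>
    rw [Finset.sum_insert hb, Finset.sum_insert hb, Phi_add, ih]
    congr 1
    have := Phi_real (h := h) k (a b : ℝ) (f b)
    push_cast at this
    exact this

theorem cglue_Xp (c : CS m) (t : ℤ) : c.X (t + c.n) = c.X t := c.X_mod (by simp)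

theorem cglue_xip (c : CS m) (t : ℤ) : c.xi h (t + c.n) = c.xi h t := c.xi_mod (by simp)

theorem nf_glued (hh : IsHalf m h) (c : CS m) : Glued m h (c.nf h) := by
  have hm : 0 < m := by have := hh.two_le; omega
  refine ⟨fun x => ?_, fun k x hx => ?_⟩
  · unfold CS.nf
    refine Finset.sum_congr rfl fun t _ => ?_
    rw [show x + 2 * (m : ℝ) - c.Y t = (x - c.Y t) + 2 * m by ring, show x + 2 * (m : ℝ) - c.X t = (x - c.X t) + 2 * m by ring,
      Cl_add hm, Cl_add hm]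
    congr 2
    ring
  · have e1 : c.nf h (x + m) - c.nf h (k + m) =
        ∑ t ∈ range c.n, ((Cl m (x - c.X ((t : ℤ) + 1)) - Cl m (k - c.X ((t : ℤ) + 1)) : ℤ) : ℂ) * c.xi h t -
        ∑ t ∈ range c.n, ((Cl m (x - c.Y ((t : ℤ) - 1)) - Cl m (k - c.Y ((t : ℤ) - 1)) : ℤ) : ℂ) * c.xi h t := by
      unfold CS.nf
      rw [← Finset.sum_sub_distrib, ← Finset.sum_sub_distrib]
      refine Finset.sum_congr rfl fun t _ => ?_
      have a1 : ∀ z : ℝ, z + m - c.Y t = (z - c.X ((t : ℤ) + 1)) + 2 * m := by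
        intro z
        rw [c.X_succ]
        ring
      have a2 : ∀ z : ℝ, z + m - c.X t = z - c.Y ((t : ℤ) - 1) := by
        intro z
        unfold CS.X
        ring
      rw [a1, a1, a2, a2, Cl_add hm, Cl_add hm]
      push_cast
      ring
    have e2 : ∑ t ∈ range c.n, ((Cl m (x - c.Y ((t : ℤ) - 1)) - Cl m (k - c.Y ((t : ℤ) - 1)) : ℤ) : ℂ) * c.xi h t =
        ∑ t ∈ range c.n, ((Cl m (x - c.Y t) - Cl m (k - c.Y t) : ℤ) : ℂ) * c.xi h ((t : ℤ) + 1) := by
      rw [← sum_shift c.n (fun t : ℤ => ((Cl m (x - c.Y (t - 1)) - Cl m (k - c.Y (t - 1)) : ℤ) : ℂ) * c.xi h t) ?_ 1]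
      · refine Finset.sum_congr rfl fun t _ => ?_
        simp only [add_sub_cancel_right]
      · intro t
        simp only [cglue_xip]
        rw [show t + (c.n : ℤ) - 1 = t - 1 + c.n by ring, c.per]
    have e3 : Phi h k (c.nf h x - c.nf h k) =
        ∑ t ∈ range c.n, ((Cl m (x - c.Y t) - Cl m (k - c.Y t) : ℤ) : ℂ) * Phi h k (c.xi h t) -
        ∑ t ∈ range c.n, ((Cl m (x - c.X t) - Cl m (k - c.X t) : ℤ) : ℂ) * Phi h k (c.xi h t) := by
      have b1 : c.nf h x - c.nf h k =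
          ∑ t ∈ range c.n, ((Cl m (x - c.Y t) - Cl m (k - c.Y t) : ℤ) : ℂ) * c.xi h t -
          ∑ t ∈ range c.n, ((Cl m (x - c.X t) - Cl m (k - c.X t) : ℤ) : ℂ) * c.xi h t := by
        unfold CS.nf
        rw [← Finset.sum_sub_distrib, ← Finset.sum_sub_distrib]
        refine Finset.sum_congr rfl fun t _ => ?_
        push_cast
        ring
      rw [b1, Phi_sub, cglue_sum, cglue_sum]
    have e4 : ∑ t ∈ range c.n, ((Cl m (x - c.X t) - Cl m (k - c.X t) : ℤ) : ℂ) * Phi h k (c.xi h t) =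
        ∑ t ∈ range c.n, ((Cl m (x - c.X ((t : ℤ) + 1)) - Cl m (k - c.X ((t : ℤ) + 1)) : ℤ) : ℂ) *
          Phi h k (c.xi h ((t : ℤ) + 1)) := by
      rw [← sum_shift c.n (fun t : ℤ => ((Cl m (x - c.X t) - Cl m (k - c.X t) : ℤ) : ℂ) * Phi h k (c.xi h t)) ?_ 1]
      intro t
      simp only [cglue_xip, cglue_Xp]
    have e5 := Finset.sum_congr (s₁ := range c.n) rfl (fun (t : ℕ) _ => cglue_J hh c hx (t : ℤ))
    have e6 := Finset.sum_congr (s₁ := range c.n) rfl (fun (t : ℕ) _ => cglue_J' hh c hx (t : ℤ))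
    rw [Finset.sum_neg_distrib] at e5 e6
    rw [e1, e2, e3, e4, e5, e6]
    ring

theorem Glued.inV (hh : IsHalf m h) {f : ℝ → ℂ} (hf : Glued m h f) : InV m h (fun k => f k) := by
  refine ⟨fun k => ?_, fun k => ?_⟩
  · have := hf.per k
    push_cast
    exact this
  · have := hf.glue k (k + 1) ⟨by linarith, le_rfl⟩
    push_cast
    exact this

theorem nV_inV (hh : IsHalf m h) (c : CS m) : InV m h (c.nV h) :=
  (nf_glued hh c).inV hh

end H47A
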