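import Pool.Agent.Lib.H47A.COrd

/-! # H47A, chunk CORD2 (M)
Finite combinatorics of crossing chords (points on a circle). All statements depend only on the order of the numbers
`fr` of the points involved (`il_eq`, `bb_eq`, `fr_ne`); they were checked by computer for all orders. PROOF: rewrite with `il_eq`
(`bb_eq`), unfold `ob`, `split_ifs` (contradictory orders are closed by linarith / order), the remaining goals are numerical.
For the six point statements it may be better to name the orders first: `rcases lt_or_gt_of_ne` for the needed pairs, or to reduce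
to integers / `Fin`: e.g. the truth values of `fr a < fr b` determine everything, transitivity by `lt_trans`.
A human proof of `cross_monge`: the function (1 - il . . x y)/2 is the cut metric of the two arcs determined by x, y (it is 1 iff
the two points are on different sides); if p, q, r, s are interleaved then p, r and q, s are non-crossing pairs: if p, r are on
different sides of (x,y) and q, s too, then (p,q) and (r,s) are both cut or ... (each case is clear).
`same_side`: p,q on one side of (x,y), r,s on one side, and (p,q), (r,s) cross, so it is the same side. -/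

open Real Finset

namespace H47A

variable {m : ℕ}

theorem cord2_one (hm : 0 < m) (p q x y : ℝ) : il m p q x y = 1 ↔
    (((fr m x < fr m p) ↔ (fr m y < fr m p)) ↔ ((fr m x < fr m q) ↔ (fr m y < fr m q))) := by
  rw [il_eq hm]
  unfold ob
  by_cases h1 : fr m x < fr m p <;> by_cases h2 : fr m y < fr m p <;>
    by_cases h3 : fr m x < fr m q <;> by_cases h4 : fr m y < fr m q <;>
    simp [h1, h2, h3, h4] <;> norm_num

theorem cord2_neg (hm : 0 < m) (p q x y : ℝ) : il m p q x y = -1 ↔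
    ¬ (((fr m x < fr m p) ↔ (fr m y < fr m p)) ↔ ((fr m x < fr m q) ↔ (fr m y < fr m q))) := by
  rw [← cord2_one hm]
  rcases il_pm (m := m) p q x y with h | h <;> rw [h] <;> norm_num

theorem il_symm (hm : 0 < m) {p q x y : ℝ} (h1 : Nd m p x) (h2 : Nd m p y) (h3 : Nd m q x) (h4 : Nd m q y) :
    il m p q x y = il m x y p q := by
  have n1 := fr_ne hm h1
  have n2 := fr_ne hm h2
  have n3 := fr_ne hm h3
  have n4 := fr_ne hm h4
  have e1 := cord2_one hm p q x y
  have e2 := cord2_one hm x y p q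
  have e3 : il m p q x y = 1 ↔ il m x y p q = 1 := by
    rw [e1, e2]
    clear e1 e2 h1 h2 h3 h4
    grind
  rcases il_pm (m := m) p q x y with h | h <;> rcases il_pm (m := m) x y p q with h' | h'
  · rw [h, h']
  · have := e3.1 h
    rw [h'] at this
    norm_num at this
  · have := e3.2 h'
    rw [h] at this
    norm_num at this
  · rw [h, h']

theorem il_self (hm : 0 < m) {p q : ℝ} (h : Nd m p q) : il m p q p q = -1 := by
  have n1 := fr_ne hm h
  rw [cord2_neg hm]
  clear h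
  grind

theorem bb_self (hm : 0 < m) {p q : ℝ} (h : Nd m p q) : bb m p q p q = -1 := by
  have n1 := fr_ne hm h
  rw [bb_eq hm]
  unfold ob
  rcases lt_or_gt_of_ne n1 with h1 | h1
  · simp [h1, not_lt.2 h1.le]
  · simp [h1, not_lt.2 (le_of_lt h1)]

theorem bb_zero (hm : 0 < m) {p q x y : ℝ} (h : il m p q x y = 1) (h0 : Nd m p q) (h0' : Nd m x y)
    (h1 : Nd m p x) (h2 : Nd m p y) (h3 : Nd m q x) (h4 : Nd m q y) : bb m p q x y = 0 := by
  have m1 := fr_ne hm h0
  have m2 := fr_ne hm h0'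
  have n1 := fr_ne hm h1
  have n2 := fr_ne hm h2
  have n3 := fr_ne hm h3
  have n4 := fr_ne hm h4
  rw [cord2_one hm] at h
  rw [bb_eq hm]
  unfold ob
  clear h0 h0' h1 h2 h3 h4
  grind

theorem bb_one (hm : 0 < m) {p q x y : ℝ} (h : il m p q x y = -1) (h0 : Nd m p q) (h0' : Nd m x y)
    (h1 : Nd m p x) (h2 : Nd m p y) (h3 : Nd m q x) (h4 : Nd m q y) : bb m p q x y = 1 ∨ bb m p q x y = -1 := by
  have m1 := fr_ne hm h0
  have m2 := fr_ne hm h0'
  have n1 := fr_ne hm h1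
  have n2 := fr_ne hm h2
  have n3 := fr_ne hm h3
  have n4 := fr_ne hm h4
  rw [cord2_neg hm] at h
  rw [bb_eq hm]
  unfold ob
  clear h0 h0' h1 h2 h3 h4
  grind

/-- After resolving a crossing the two new chords do not cross. -/
theorem cross_resolve (hm : 0 < m) {p q r s : ℝ} (h : il m p q r s = -1) (h0 : Nd m p q) (h0' : Nd m r s)
    (h1 : Nd m p r) (h2 : Nd m p s) (h3 : Nd m q r) (h4 : Nd m q s) : il m p r q s = 1 := by
  have m1 := fr_ne hm h0
  have m2 := fr_ne hm h0'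
  have n1 := fr_ne hm h1
  have n2 := fr_ne hm h2
  have n3 := fr_ne hm h3
  have n4 := fr_ne hm h4
  rw [cord2_neg hm] at h
  rw [cord2_one hm]
  clear h0 h0' h1 h2 h3 h4
  grind

theorem cord2_ss (hm : 0 < m) {p q r s x y : ℝ} (h : il m p q r s = -1)
    (h1 : Nd m p r) (h2 : Nd m p s) (h3 : Nd m q r) (h4 : Nd m q s)
    (hpx : Nd m p x) (hqx : Nd m q x) (hrx : Nd m r x) (hsx : Nd m s x)
    (hpy : Nd m p y) (hqy : Nd m q y) (hry : Nd m r y) (hsy : Nd m s y)
    (ha : il m p q x y = 1) (hb : il m r s x y = 1) : il m q s x y = 1 := by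
  have n1 := fr_ne hm h1
  have n2 := fr_ne hm h2
  have n3 := fr_ne hm h3
  have n4 := fr_ne hm h4
  have n5 := fr_ne hm hpx
  have n6 := fr_ne hm hqx
  have n7 := fr_ne hm hrx
  have n8 := fr_ne hm hsx
  have n9 := fr_ne hm hpy
  have n10 := fr_ne hm hqy
  have n11 := fr_ne hm hry
  have n12 := fr_ne hm hsy
  rw [cord2_neg hm] at h
  rw [cord2_one hm] at ha hb ⊢
  clear h1 h2 h3 h4 hpx hqx hrx hsx hpy hqy hry hsy
  grind

/-- Two crossing chords which do not cross a third one lie on the same side of it. -/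
theorem same_side (hm : 0 < m) {p q r s x y : ℝ} (h : il m p q r s = -1) (h0 : Nd m p q) (h0' : Nd m r s)
    (h1 : Nd m p r) (h2 : Nd m p s) (h3 : Nd m q r) (h4 : Nd m q s) (hxy : Nd m x y)
    (hpx : Nd m p x) (hqx : Nd m q x) (hrx : Nd m r x) (hsx : Nd m s x)
    (hpy : Nd m p y) (hqy : Nd m q y) (hry : Nd m r y) (hsy : Nd m s y)
    (ha : il m p q x y = 1) (hb : il m r s x y = 1) : side m x y q = side m x y s := by
  have h5 := cord2_ss hm h h1 h2 h3 h4 hpx hqx hrx hsx hpy hqy hry hsy ha hb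
  unfold il at h5
  rcases side_pm (m := m) x y q with h6 | h6 <;> rcases side_pm (m := m) x y s with h7 | h7 <;>
    rw [h6, h7] at h5 ⊢ <;> norm_num at h5

/-- The number of crossings with a third chord does not increase when a crossing is resolved. -/
theorem cross_monge (hm : 0 < m) {p q r s x y : ℝ} (h : il m p q r s = -1) (h0 : Nd m p q) (h0' : Nd m r s)
    (h1 : Nd m p r) (h2 : Nd m p s) (h3 : Nd m q r) (h4 : Nd m q s) (hxy : Nd m x y)
    (hpx : Nd m p x) (hqx : Nd m q x) (hrx : Nd m r x) (hsx : Nd m s x)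
    (hpy : Nd m p y) (hqy : Nd m q y) (hry : Nd m r y) (hsy : Nd m s y) :
    (1 - il m p r x y) + (1 - il m q s x y) ≤ (1 - il m p q x y) + (1 - il m r s x y) := by
  have h5 := same_side hm h h0 h0' h1 h2 h3 h4 hxy hpx hqx hrx hsx hpy hqy hry hsy
  unfold il at h5 ⊢
  rcases side_pm (m := m) x y p with e1 | e1 <;> rcases side_pm (m := m) x y q with e2 | e2 <;>
    rcases side_pm (m := m) x y r with e3 | e3 <;> rcases side_pm (m := m) x y s with e4 | e4 <;>
    rw [e1, e2, e3, e4] at h5 ⊢ <;> norm_num at h5 <;> norm_num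

theorem cord2_sy (A' B B' C' : ℝ) (n10 : A' ≠ B) (n11 : A' ≠ B') (n12 : A' ≠ C')
    (n13 : B ≠ B') (n14 : B ≠ C') (n15 : B' ≠ C')
    (h3 : ((B' < A') ↔ (C' < A')) ↔ ((B' < B) ↔ (C' < B))) :
    ((A' < B') ↔ (B < B')) ↔ ((A' < C') ↔ (B < C')) := by
  grind

theorem cord2_l1 {α : Type*} [LinearOrder α] (X Y P Q : α) (n1 : P ≠ X) (n2 : Q ≠ X) (n3 : P ≠ Y) (n4 : Q ≠ Y)
    (h1 : ¬ ((X < P) ↔ (Y < P))) (hC : ¬ ((X < Q) ↔ (Y < Q))) (h2 : ¬ ((P < X) ↔ (Q < X))) : False := by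
  rcases lt_or_gt_of_ne n1 with e1 | e1 <;> rcases lt_or_gt_of_ne n2 with e2 | e2
  · exact h2 ⟨fun _ => e2, fun _ => e1⟩
  · have h3 : Y < P := by
      by_contra h3
      exact h1 ⟨fun h => absurd h (not_lt.2 e1.le), fun h => absurd h h3⟩
    have h4 : Q < Y := by
      rcases lt_or_gt_of_ne n4 with h4 | h4
      · exact h4
      · exact absurd ⟨fun _ => h4, fun _ => e2⟩ hC
    exact absurd (h4.trans (h3.trans (e1.trans e2))) (lt_irrefl _)
  · have h3 : Y < Q := by
      by_contra h3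
      exact hC ⟨fun h => absurd h (not_lt.2 e2.le), fun h => absurd h h3⟩
    have h4 : P < Y := by
      rcases lt_or_gt_of_ne n3 with h4 | h4
      · exact h4
      · exact absurd ⟨fun _ => h4, fun _ => e1⟩ h1
    exact absurd (h4.trans (h3.trans (e2.trans e1))) (lt_irrefl _)
  · exact h2 ⟨fun h => absurd h (not_lt.2 (le_of_lt e1)), fun h => absurd h (not_lt.2 (le_of_lt e2))⟩

theorem cord2_l2 (A X P : ℝ) (hX : A ≠ X) (hP : A ≠ P) :
    (toLex ((if X < A then (1 : ℕ) else 0), X) < toLex ((if P < A then (1 : ℕ) else 0), P)) ↔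
      ((X < A ↔ P < A) ∧ X < P ∨ (A < X ∧ P < A)) := by
  rw [Prod.Lex.toLex_lt_toLex]
  by_cases h1 : X < A <;> by_cases h2 : P < A
  · simp [h1, h2, not_lt.2 h1.le]
  · simp [h1, h2]
  · have h3 : A < X := lt_of_le_of_ne (not_lt.1 h1) hX
    simp [h1, h2, h3]
  · simp [h1, h2]

theorem cord2_l3 (A X Y P : ℝ) (hX : A ≠ X) (hY : A ≠ Y) (hP : A ≠ P) :
    ((toLex ((if X < A then (1 : ℕ) else 0), X) < toLex ((if P < A then (1 : ℕ) else 0), P)) ↔
      (toLex ((if Y < A then (1 : ℕ) else 0), Y) < toLex ((if P < A then (1 : ℕ) else 0), P))) ↔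
    (((X < A) ↔ (Y < A)) ↔ ((X < P) ↔ (Y < P))) := by
  rw [cord2_l2 A X P hX hP, cord2_l2 A Y P hY hP]
  rcases lt_or_gt_of_ne hX with h1 | h1 <;> rcases lt_or_gt_of_ne hY with h2 | h2 <;>
    rcases lt_or_gt_of_ne hP with h3 | h3
  · simp [not_lt.2 h1.le, not_lt.2 h2.le, not_lt.2 h3.le]
  · simp [not_lt.2 h1.le, not_lt.2 h2.le, h1, h2, h3, not_lt.2 (h3.trans h1).le, not_lt.2 (h3.trans h2).le]
  · simp [not_lt.2 h1.le, h2, h1, not_lt.2 h3.le, not_lt.2 (le_of_lt h2), h2.trans h3]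
    try tauto
  · simp [not_lt.2 h1.le, h2, h1, h3, not_lt.2 (le_of_lt h2), not_lt.2 (h3.trans h1).le]
    try tauto
  · simp [not_lt.2 h2.le, h2, h1, not_lt.2 h3.le, not_lt.2 (le_of_lt h1), h1.trans h3]
    try tauto
  · simp [not_lt.2 h2.le, h2, h1, h3, not_lt.2 (le_of_lt h1), not_lt.2 (h3.trans h2).le]
    try tauto
  · simp [h1, h2, not_lt.2 (le_of_lt h1), not_lt.2 (le_of_lt h2), not_lt.2 h3.le, h1.trans h3, h2.trans h3]
  · simp [h1, h2, h3, not_lt.2 (le_of_lt h1), not_lt.2 (le_of_lt h2)]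

theorem cord2_five (A A' B B' C' : ℝ) (n2 : A ≠ A') (n3 : A ≠ B) (n4 : A ≠ B') (n5 : A ≠ C')
    (n11 : A' ≠ B') (n12 : A' ≠ C')
    (n13 : B ≠ B') (n14 : B ≠ C')
    (h1 : ¬ (((A' < A) ↔ (B < A)) ↔ ((A' < B') ↔ (B < B'))))
    (h1' : ¬ (((A' < A) ↔ (B < A)) ↔ ((A' < C') ↔ (B < C'))))
    (h2 : ¬ (((B' < A) ↔ (C' < A)) ↔ ((B' < A') ↔ (C' < A')))) : False := by
  rw [← cord2_l3 A A' B B' n2 n3 n4] at h1
  rw [← cord2_l3 A A' B C' n2 n3 n5] at h1'
  rw [← cord2_l3 A B' C' A' n4 n5 n2] at h2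
  refine cord2_l1 _ _ _ _ ?_ ?_ ?_ ?_ h1 h1' h2
  · intro h
    exact n11 ((Prod.ext_iff.1 (toLex.injective h)).2).symm
  · intro h
    exact n12 ((Prod.ext_iff.1 (toLex.injective h)).2).symm
  · intro h
    exact n13 ((Prod.ext_iff.1 (toLex.injective h)).2).symm
  · intro h
    exact n14 ((Prod.ext_iff.1 (toLex.injective h)).2).symm

theorem cord2_so (A C A' B B' C' : ℝ) (n2 : A ≠ A') (n3 : A ≠ B) (n4 : A ≠ B') (n5 : A ≠ C')
    (n10 : A' ≠ B) (n11 : A' ≠ B') (n12 : A' ≠ C')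
    (n13 : B ≠ B') (n14 : B ≠ C') (n15 : B' ≠ C')
    (h1 : ¬ (((A' < A) ↔ (B < A)) ↔ ((A' < C) ↔ (B < C))))
    (h2 : ¬ (((B' < A) ↔ (C' < A)) ↔ ((B' < C) ↔ (C' < C))))
    (h3 : ((B' < A') ↔ (C' < A')) ↔ ((B' < B) ↔ (C' < B))) :
    (¬ (((B' < A') ↔ (C' < A')) ↔ ((B' < C) ↔ (C' < C)))) ∨
      (¬ (((A' < C) ↔ (B < C)) ↔ ((A' < C') ↔ (B < C')))) := by
  by_contra hc
  rw [not_or, not_not, not_not] at hc
  obtain ⟨c1, c2⟩ := hc
  have k1 := cord2_sy A' B B' C' n10 n11 n12 n13 n14 n15 h3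
  exact cord2_five A A' B B' C' n2 n3 n4 n5 n11 n12 n13 n14
    (fun e => h1 (e.trans (k1.trans c2.symm))) (fun e => h1 (e.trans c2.symm)) (fun e => h2 (e.trans c1))

/-- The chord `(a,c)` crosses the non-crossing chords `(a',b)` and `(b',c')`: one of them comes first. -/
theorem special_order (hm : 0 < m) {a c a' b b' c' : ℝ} (hN : ∀ z w : ℝ, ∀ i j : Fin 6,
      z = ![a, c, a', b, b', c'] i → w = ![a, c, a', b, b', c'] j → i ≠ j → Nd m z w)
    (h1 : il m a c a' b = -1) (h2 : il m a c b' c' = -1) (h3 : il m a' b b' c' = 1) :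
    il m a' c b' c' = -1 ∨ il m c c' a' b = -1 := by
  have hn : ∀ i j : Fin 6, i ≠ j → fr m (![a, c, a', b, b', c'] i) ≠ fr m (![a, c, a', b, b', c'] j) :=
    fun i j hij => fr_ne hm (hN _ _ i j rfl rfl hij)
  rw [cord2_neg hm] at h1 h2 ⊢
  rw [cord2_one hm] at h3
  rw [cord2_neg hm]
  exact cord2_so (fr m a) (fr m c) (fr m a') (fr m b) (fr m b') (fr m c')
    (hn 0 2 (by decide)) (hn 0 3 (by decide)) (hn 0 4 (by decide))
    (hn 0 5 (by decide)) (hn 2 3 (by decide)) (hn 2 4 (by decide)) (hn 2 5 (by decide))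
    (hn 3 4 (by decide)) (hn 3 5 (by decide)) (hn 4 5 (by decide)) h1 h2 h3

end H47A
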