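import Pool.Agent.Lib.H47A.CE
import Pool.Agent.Lib.H47A.COrd2

/-! # H47A, chunk CSGN (M)
The sign function of a chord system.
`sgn_add`: each exponent grows by one and n is odd. `sgn_side`: ⌈(p - Y t)/m⌉ = Cl (p - Y t) + Cl (p - Y t - m) (`ceil_half`) and
Y t + m = X (t+1); reindex the second factor (`prod_shift`): sgn p = prod_t side (X t) (Y t) p.
`sgn_chord`: multiply: sgn p * sgn q = prod_t il p q (X t) (Y t).
`simple_const`: c simple. sgn (X t) sgn (Y t) = prod_s il (X t)(Y t)(X s)(Y s): the factors s != t (mod n) are 1, the factor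
s = t is -1 (`il_self`). So sgn (Y t) = - sgn (X t), and X (t+1) = Y t + m gives sgn (X (t+1)) = - sgn (Y t); hence
sgn (Y (t+1)) = sgn (Y t), for all t.
`parity`: the product over all pairs of il is prod_t sgn' (X t) sgn' (Y t) = prod_t (- sgn' (Y (t-1)) sgn' (Y t)) = (-1)^n = -1
(each sgn' (Y t) appears twice). So the number of crossing pairs is odd.
`alt`: if (t,u) is the only crossing pair: sgn' (X s) sgn' (Y s) = prod_v il (X s)(Y s)(X' v)(Y' v) is 1 for s != t mod n, so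
sgn' (Y s) = sgn' (X s) = - sgn' (Y (s-1)) for s = t+1, ..., t+n-1: sgn' (Y (t+i)) = (-1)^i sgn' (Y t). -/

open Real Finset

namespace H47A

variable {m : ℕ}

theorem csgn_zpow (k : ℤ) : (-1 : ℝ) ^ k = 1 ∨ (-1 : ℝ) ^ k = -1 := by
  rcases Int.even_or_odd k with h | h
  · exact Or.inl h.neg_one_zpow
  · exact Or.inr h.neg_one_zpow

theorem csgn_prod {J : Type*} (s : Finset J) (f : J → ℝ) (h : ∀ i ∈ s, f i = 1 ∨ f i = -1) :
    ∏ i ∈ s, f i = 1 ∨ ∏ i ∈ s, f i = -1 := by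
  refine Finset.prod_induction f (fun x => x = 1 ∨ x = -1) ?_ (Or.inl rfl) h
  rintro a b (ha | ha) (hb | hb) <;> rw [ha, hb] <;> norm_num

theorem csgn_uniq {n : ℕ} (hn : 0 < n) (t : ℤ) : ∃ s0 : ℕ, s0 < n ∧ (n : ℤ) ∣ (s0 : ℤ) - t ∧
    ∀ s : ℕ, s < n → s ≠ s0 → ¬ (n : ℤ) ∣ (s : ℤ) - t := by
  have hn' : (0 : ℤ) < n := by exact_mod_cast hn
  have h0 : 0 ≤ t % n := Int.emod_nonneg _ hn'.ne'
  have h1 : t % n < n := Int.emod_lt_of_pos _ hn'
  obtain ⟨s0, hs0⟩ := Int.eq_ofNat_of_zero_le h0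
  refine ⟨s0, by omega, ?_, ?_⟩
  · have h2 := Int.emod_add_mul_ediv t n
    refine ⟨-(t / n), ?_⟩
    have : (s0 : ℤ) = t % n := by rw [hs0]
    rw [this]
    linarith
  · intro s hs hne hdvd
    have h2 := Int.emod_add_mul_ediv t n
    have h3 : (n : ℤ) ∣ (s : ℤ) - s0 := by
      have h4 : (n : ℤ) ∣ t - s0 := by
        refine ⟨t / n, ?_⟩
        have : (s0 : ℤ) = t % n := by rw [hs0]
        rw [this]
        linarith
      have h5 := dvd_add hdvd h4
      have e : (s : ℤ) - t + (t - s0) = (s : ℤ) - s0 := by ring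
      rwa [e] at h5
    obtain ⟨k, hk⟩ := h3
    have hs' : (s : ℤ) < n := by exact_mod_cast hs
    have hs0' : (s0 : ℤ) < n := by
      have : (s0 : ℤ) = t % n := by rw [hs0]
      rw [this]
      exact h1
    have a1 : (0 : ℤ) ≤ s := Int.natCast_nonneg _
    have a2 : (0 : ℤ) ≤ s0 := Int.natCast_nonneg _
    have hk0 : k = 0 := by
      rcases lt_trichotomy k 0 with h6 | h6 | h6
      · exfalso
        have : (n : ℤ) * k ≤ n * (-1) := mul_le_mul_of_nonneg_left (by omega) hn'.le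
        omega
      · exact h6
      · exfalso
        have : (n : ℤ) * 1 ≤ n * k := mul_le_mul_of_nonneg_left (by omega) hn'.le
        omega
    rw [hk0, mul_zero] at hk
    omega

namespace CS

theorem sgn_pm (c : CS m) (p : ℝ) : c.sgn p = 1 ∨ c.sgn p = -1 := by
  unfold sgn
  exact csgn_prod _ _ (fun i _ => csgn_zpow _)

theorem sgn_add (hm : 0 < m) (c : CS m) (p : ℝ) : c.sgn (p + m) = -c.sgn p := by
  unfold sgn
  have hm0 : (m : ℝ) ≠ 0 := by
    have : (0 : ℝ) < m := by exact_mod_cast hm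
    exact this.ne'
  have h1 : ∀ t ∈ range c.n, (-1 : ℝ) ^ ⌈(p + m - c.Y t) / m⌉ = (-1) * (-1) ^ ⌈(p - c.Y t) / m⌉ := by
    intro t _
    have e : (p + m - c.Y t) / m = (p - c.Y t) / m + ((1 : ℤ) : ℝ) := by
      push_cast
      field_simp
      ring
    rw [e, Int.ceil_add_intCast, zpow_add₀ (by norm_num), mul_comm]
    norm_num
  rw [Finset.prod_congr rfl h1, Finset.prod_mul_distrib, Finset.prod_const, Finset.card_range,
    c.odd.neg_one_pow]
  ring

theorem sgn_side (hm : 0 < m) (c : CS m) (p : ℝ) : c.sgn p = ∏ t ∈ range c.n, side m (c.X t) (c.Y t) p := by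
  unfold sgn side
  have h1 : ∀ t ∈ range c.n, (-1 : ℝ) ^ ⌈(p - c.Y t) / m⌉ =
      (-1) ^ (Cl m (p - c.X ((t : ℤ) + 1))) * (-1) ^ (Cl m (p - c.Y t)) := by
    intro t _
    rw [ceil_half hm, zpow_add₀ (by norm_num), mul_comm]
    congr 3
    rw [CS.X_succ]
    ring
  have h2 : ∀ t ∈ range c.n, (-1 : ℝ) ^ (Cl m (p - c.X t) + Cl m (p - c.Y t)) =
      (-1) ^ (Cl m (p - c.X t)) * (-1) ^ (Cl m (p - c.Y t)) := by
    intro t _
    rw [zpow_add₀ (by norm_num)]
  rw [Finset.prod_congr rfl h1, Finset.prod_congr rfl h2, Finset.prod_mul_distrib,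
    Finset.prod_mul_distrib]
  congr 1
  exact prod_shift c.n (fun t => (-1 : ℝ) ^ (Cl m (p - c.X t)))
    (fun t => by
      have : c.X (t + c.n) = c.X t := c.X_mod ⟨1, by ring⟩
      simp only [this]) 1

theorem sgn_chord (hm : 0 < m) (c : CS m) (p q : ℝ) :
    c.sgn p * c.sgn q = ∏ t ∈ range c.n, il m p q (c.X t) (c.Y t) := by
  rw [c.sgn_side hm p, c.sgn_side hm q, ← Finset.prod_mul_distrib]
  rfl

theorem simple_const (hm : 0 < m) (c : CS m) (hc : c.Simple) (s t : ℤ) : c.sgn (c.Y s) = c.sgn (c.Y t) := by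
  have h1 : ∀ t : ℤ, c.sgn (c.X t) * c.sgn (c.Y t) = -1 := by
    intro t
    rw [c.sgn_chord hm]
    obtain ⟨s0, hs0, hd, hne⟩ := csgn_uniq c.n_pos t
    rw [Finset.prod_eq_single s0]
    · rw [c.X_mod hd, c.Y_mod hd]
      exact il_self hm (c.nd_XY hm t t)
    · intro s hs hs2
      apply hc
      intro h
      apply hne s (Finset.mem_range.1 hs) hs2
      have := dvd_neg.2 h
      rwa [neg_sub] at this
    · intro h
      exact absurd (Finset.mem_range.2 hs0) h
  have h2 : ∀ t : ℤ, c.sgn (c.Y (t + 1)) = c.sgn (c.Y t) := by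
    intro t
    have h3 := h1 (t + 1)
    rw [CS.X_succ, c.sgn_add hm] at h3
    rcases c.sgn_pm (c.Y t) with h4 | h4 <;> rcases c.sgn_pm (c.Y (t + 1)) with h5 | h5 <;>
      rw [h4, h5] at h3 ⊢ <;> norm_num at h3
  have h3 : ∀ t : ℤ, c.sgn (c.Y t) = c.sgn (c.Y 0) := by
    intro t
    induction t using Int.induction_on with
    | zero => rfl
    | succ i ih => rw [h2, ih]
    | pred i ih =>
      have := h2 (-(i : ℤ) - 1)
      rw [sub_add_cancel] at this
      rw [← this, ih]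
  rw [h3 s, h3 t]

end CS

theorem parity (hm : 0 < m) (c c' : CS m) :
    ∏ t ∈ range c.n, ∏ u ∈ range c'.n, il m (c.X t) (c.Y t) (c'.X u) (c'.Y u) = -1 := by
  have h1 : ∀ t ∈ range c.n, ∏ u ∈ range c'.n, il m (c.X t) (c.Y t) (c'.X u) (c'.Y u) =
      (-1) * (c'.sgn (c.Y ((t : ℤ) + (-1))) * c'.sgn (c.Y t)) := by
    intro t _
    rw [← c'.sgn_chord hm]
    have h2 : c.X t = c.Y ((t : ℤ) + (-1)) + m := by
      unfold CS.X
      rw [sub_eq_add_neg]
    rw [h2, c'.sgn_add hm]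
    ring
  rw [Finset.prod_congr rfl h1, Finset.prod_mul_distrib, Finset.prod_mul_distrib, Finset.prod_const,
    Finset.card_range, c.odd.neg_one_pow]
  have h3 := prod_shift c.n (fun t => c'.sgn (c.Y t)) (fun t => by simp only [c.per]) (-1)
  rw [h3]
  rcases csgn_prod (range c.n) (fun t : ℕ => c'.sgn (c.Y t)) (fun t _ => c'.sgn_pm _) with h4 | h4 <;>
    rw [h4] <;> norm_num

theorem alt (hm : 0 < m) (c c' : CS m) (t u : ℤ) (ho : OneCross c c' t u) (i : ℕ) (hi : i < c.n) :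
    c'.sgn (c.Y (t + i)) = (-1) ^ i * c'.sgn (c.Y t) := by
  induction i with
  | zero => simp
  | succ i ih =>
    have h1 : ¬ (c.n : ℤ) ∣ (t + ((i + 1 : ℕ) : ℤ)) - t := by
      rw [add_sub_cancel_left]
      intro h
      have := Int.le_of_dvd (by positivity) h
      omega
    have h2 : c'.sgn (c.X (t + ((i + 1 : ℕ) : ℤ))) * c'.sgn (c.Y (t + ((i + 1 : ℕ) : ℤ))) = 1 := by
      rw [c'.sgn_chord hm]
      apply Finset.prod_eq_one
      intro v _
      apply ho.2
      rintro ⟨h3, -⟩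
      exact h1 h3
    have h3 : c.X (t + ((i + 1 : ℕ) : ℤ)) = c.Y (t + i) + m := by
      unfold CS.X
      congr 2
      push_cast
      ring
    rw [h3, c'.sgn_add hm, ih (by omega)] at h2
    rw [pow_succ]
    rcases c'.sgn_pm (c.Y t) with h4 | h4 <;>
      rcases c'.sgn_pm (c.Y (t + ((i + 1 : ℕ) : ℤ))) with h5 | h5 <;>
      rw [h4, h5] at h2 <;> rw [h4, h5] <;> linarith

end H47A
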