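import Pool.Agent.Lib.H47A.CDual
import Pool.Agent.Lib.H47A.CSgn
import Pool.Agent.Lib.H47A.CAbel

/-! # H47A, chunk CSIN (M): the angle between the axes at the crossing
PROOF of `cross_sign`. F = c.sgn * c'.sgn. By `sgn_side` the product F(Y t) F(Y' u) is the product over all chords w of c and of c'
of side_w(Y t) side_w(Y' u). For a chord w of c, w != t: c simple and `OneCross` give il (X t)(Y t) w = 1 and il (X' u)(Y' u) w = 1
so `same_side` (with p = X t, q = Y t, r = X' u, s = Y' u) gives side_w (Y t) = side_w (Y' u), factor 1. (il is symmetric: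
`il_symm`.) The same for the chords w != u of c'. The two remaining factors: side_t(Y t) side_t(Y' u) side_u(Y t) side_u(Y' u) =
(-1)^(Cl(Y-X) + Cl(Y'-X) + Cl(Y'-Y) + Cl(Y-X') + Cl(Y-Y') + Cl(Y'-X')) and Cl(Y'-Y) + Cl(Y-Y') = 1 (`Cl_neg`), so it is
- side (X,X') Y * side (X,X') Y' = - il Y Y' X X' = -1 by `cross_resolve` and `il_symm` (chords (X,Y), (X',Y') cross, so (X,X'),
(Y,Y') do not).
PROOF of `sin_cos`. Apply `abel` to J = Fin c.n + Fin c'.n (n + n' even), y = Y and Y': FF = F, so with tau = pi/2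
 tau G = (1/2) sum_{k<m} (h k - h(k-1)) F k = tau F(0) + sum_s h⌊Y s⌋ F(Y s) + sum_v h⌊Y' v⌋ F(Y' v) - pi * (integer)
(F values are signs). With eps = c.sgn (Y s) (constant, `simple_const`), F(Y (t+i)) = eps * c'.sgn (Y (t+i)) = (-1)^i F(Y t)
(`alt`): sum_s h⌊Y s⌋ F(Y s) = F(Y t) * E t (sum over i < n starting at t, `sum_shift`, definition of E). In the same way the second
sum is F(Y' u) * E' u (`alt` for c', c: OneCross is symmetric by `il_symm`). F(Y' u) = - F(Y t) by `cross_sign`. So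
tau G = +-pi/2 +- (E t - E' u) - pi * integer, hence |cos(tau G)| = |sin(E t - E' u)|; and cos(tau G) >= 0 since |G| <= 1
(the weights (h k - h(k-1))/pi are positive with sum 1). -/

open Real Finset

namespace H47A

variable {m : ℕ} {h : ℤ → ℝ}

theorem cgram_prod_single (n : ℕ) (hn : 0 < n) (g : ℤ → ℝ) (hg : ∀ t, g (t + n) = g t) (t : ℤ)
    (h1 : ∀ s, ¬ ((n : ℤ) ∣ s - t) → g s = 1) : ∏ s ∈ range n, g s = g t := by
  rw [← prod_shift n g hg t, Finset.prod_eq_single 0]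
  · simp
  · intro s hs hs0
    rw [Finset.mem_range] at hs
    apply h1
    rintro ⟨k, hk⟩
    have h2 : (s : ℤ) = n * k := by linarith
    have h3 : 0 < (s : ℤ) := by exact_mod_cast Nat.pos_of_ne_zero hs0
    have h4 : (s : ℤ) < n := by exact_mod_cast hs
    have h5 : 0 < k := by
      by_contra h6
      have : (n : ℤ) * k ≤ 0 := mul_nonpos_of_nonneg_of_nonpos (by positivity) (not_lt.1 h6)
      linarith
    have h7 : (n : ℤ) * 1 ≤ n * k := mul_le_mul_of_nonneg_left h5 (by positivity)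
    linarith
  · intro h0
    exact absurd (Finset.mem_range.2 hn) h0

theorem cgram_Nq_add {x y : ℝ} (h : Nq m x y) : Nq m (x + m) y := by
  intro k hk
  apply h (k - 1)
  push_cast
  linarith

theorem cgram_Nq_add' {x y : ℝ} (h : Nq m x y) : Nq m x (y + m) := by
  intro k hk
  apply h (k + 1)
  push_cast
  linarith

theorem cgram_XX {c c' : CS m} (hg : GenPos c c') (s t : ℤ) : Nd m (c.X s) (c'.X t) :=
  (cgram_Nq_add (cgram_Nq_add' (hg (s - 1) (t - 1)))).nd

theorem cgram_XY {c c' : CS m} (hg : GenPos c c') (s t : ℤ) : Nd m (c.X s) (c'.Y t) :=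
  (cgram_Nq_add (hg (s - 1) t)).nd

theorem cgram_YX {c c' : CS m} (hg : GenPos c c') (s t : ℤ) : Nd m (c.Y s) (c'.X t) :=
  (cgram_Nq_add' (hg s (t - 1))).nd

theorem cgram_YY {c c' : CS m} (hg : GenPos c c') (s t : ℤ) : Nd m (c.Y s) (c'.Y t) := (hg s t).nd

theorem cgram_symm {c c' : CS m} (hg : GenPos c c') : GenPos c' c := fun s t => (hg t s).symm

theorem cgram_one (hm : 0 < m) {c c' : CS m} (hg : GenPos c c') {t u : ℤ} (ho : OneCross c c' t u) :
    OneCross c' c u t := by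
  refine ⟨?_, fun s v hsv => ?_⟩
  · rw [← il_symm hm (cgram_XX hg t u) (cgram_XY hg t u) (cgram_YX hg t u) (cgram_YY hg t u)]
    exact ho.1
  · rw [← il_symm hm (cgram_XX hg v s) (cgram_XY hg v s) (cgram_YX hg v s) (cgram_YY hg v s)]
    exact ho.2 v s fun h1 => hsv ⟨h1.2, h1.1⟩

theorem cgram_Fsq (c c' : CS m) (p : ℝ) :
    (c.sgn p * c'.sgn p) = 1 ∨ (c.sgn p * c'.sgn p) = -1 := by
  rcases c.sgn_pm p with h1 | h1 <;> rcases c'.sgn_pm p with h2 | h2 <;> rw [h1, h2] <;> norm_num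

theorem cgram_wt (hh : IsHalf m h) : ∑ k ∈ range m, (h k - h (k - 1)) / π = 1 := by
  rw [← Finset.sum_div]
  have h1 : ∀ n : ℕ, ∑ k ∈ range n, (h k - h (k - 1)) = h (n - 1) - h (-1) := by
    intro n
    induction n with
    | zero => simp
    | succ n ih =>
      rw [Finset.sum_range_succ, ih]
      push_cast
      rw [add_sub_cancel_right]
      ring
  rw [h1]
  have h2 := hh.per (-1)
  rw [show (-1 : ℤ) + m = m - 1 by ring] at h2
  rw [h2, add_sub_cancel_left, div_self Real.pi_pos.ne']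

theorem Gc_abs_le (hh : IsHalf m h) (c c' : CS m) : |Gc h c c'| ≤ 1 := by
  rw [← cgram_wt hh]
  unfold Gc
  refine (Finset.abs_sum_le_sum_abs _ _).trans (Finset.sum_le_sum fun k _ => ?_)
  rw [abs_mul]
  have h1 : 0 ≤ (h k - h (k - 1)) / π := div_nonneg (by linarith [hh.mono k]) Real.pi_pos.le
  have h2 : |c.sgn k * c'.sgn k| = 1 := by
    rcases cgram_Fsq c c' k with h | h <;> rw [h] <;> norm_num
  rw [h2, mul_one, abs_of_nonneg h1]

theorem cgram_chord (hm : 0 < m) (c c' : CS m) (hc : c.Simple) (hg : GenPos c c') (t u : ℤ)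
    (ho : OneCross c c' t u) : c.sgn (c.Y t) * c.sgn (c'.Y u) = il m (c.Y t) (c'.Y u) (c.X t) (c.Y t) := by
  rw [c.sgn_chord hm]
  refine cgram_prod_single c.n c.n_pos (fun s => il m (c.Y t) (c'.Y u) (c.X s) (c.Y s)) (fun s => ?_) t
    fun s hs => ?_
  · rw [c.X_mod (s := s + c.n) (t := s) ⟨1, by ring⟩, c.per]
  · have hs' : ¬ (c.n : ℤ) ∣ t - s := by
      intro h1
      apply hs
      have := (dvd_neg (α := ℤ)).2 h1
      rwa [neg_sub] at this
    have a1 := same_side hm ho.1 (c.nd_XY hm t t) (c'.nd_XY hm u u) (cgram_XX hg t u) (cgram_XY hg t u)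
      (cgram_YX hg t u) (cgram_YY hg t u) (c.nd_XY hm s s) (c.nd_XX hs') (c.nd_XY hm s t).symm
      (cgram_XX hg s u).symm (cgram_XY hg s u).symm (c.nd_XY hm t s) (c.nd_YY hs')
      (cgram_YX hg s u).symm (cgram_YY hg s u).symm (hc t s hs') (by
        rw [← il_symm hm (cgram_XX hg s u) (cgram_XY hg s u) (cgram_YX hg s u) (cgram_YY hg s u)]
        exact ho.2 s u fun h1 => hs h1.1)
    show side m (c.X s) (c.Y s) (c.Y t) * side m (c.X s) (c.Y s) (c'.Y u) = 1
    rw [a1, side_sq]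

theorem cross_sign (hm : 0 < m) (c c' : CS m) (hc : c.Simple) (hc' : c'.Simple) (hg : GenPos c c') (t u : ℤ)
    (ho : OneCross c c' t u) : c.sgn (c.Y t) * c'.sgn (c.Y t) = -(c.sgn (c'.Y u) * c'.sgn (c'.Y u)) := by
  have h1 := cgram_chord hm c c' hc hg t u ho
  have h2 := cgram_chord hm c' c hc' (cgram_symm hg) u t (cgram_one hm hg ho)
  have h3 : il m (c.Y t) (c'.Y u) (c.X t) (c.Y t) * il m (c'.Y u) (c.Y t) (c'.X u) (c'.Y u) = -1 := by
    have h4 := cross_resolve hm ho.1 (c.nd_XY hm t t) (c'.nd_XY hm u u) (cgram_XX hg t u)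
      (cgram_XY hg t u) (cgram_YX hg t u) (cgram_YY hg t u)
    rw [il_symm hm (c.nd_XY hm t t) (cgram_XY hg t u) (cgram_YX hg t u).symm (c'.nd_XY hm u u)] at h4
    have h5 : Cl m (c'.Y u - c.Y t) + Cl m (c.Y t - c'.Y u) = 1 := by
      have := Cl_neg hm (x := c'.Y u - c.Y t) (by
        intro k hk
        apply (cgram_YY hg t u).symm k
        linarith)
      rwa [neg_sub] at this
    have h6 : il m (c.Y t) (c'.Y u) (c.X t) (c.Y t) * il m (c'.Y u) (c.Y t) (c'.X u) (c'.Y u) =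
        il m (c.Y t) (c'.Y u) (c.X t) (c'.X u) *
          (-1) ^ (Cl m (c'.Y u - c.Y t) + Cl m (c.Y t - c'.Y u)) := by
      unfold il side
      rw [sub_self, sub_self, Cl_zero]
      simp only [zpow_add₀ (show (-1 : ℝ) ≠ 0 by norm_num), zpow_zero]
      ring
    rw [h6, h4, h5]
    norm_num
  rw [← h1, ← h2] at h3
  rcases c.sgn_pm (c.Y t) with a1 | a1 <;> rcases c'.sgn_pm (c.Y t) with a2 | a2 <;>
    rcases c.sgn_pm (c'.Y u) with a3 | a3 <;> rcases c'.sgn_pm (c'.Y u) with a4 | a4 <;>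
    rw [a1, a2, a3, a4] at h3 ⊢ <;> linarith

/-- the sum over one curve -/
theorem cgram_sum (hm : 0 < m) (c c' : CS m) (hc : c.Simple) (t u : ℤ) (ho : OneCross c c' t u) :
    ∑ s ∈ range c.n, h ⌊c.Y s⌋ * (c.sgn (c.Y s) * c'.sgn (c.Y s)) =
      (c.sgn (c.Y t) * c'.sgn (c.Y t)) * c.E h t := by
  rw [← sum_shift c.n (fun s : ℤ => h ⌊c.Y s⌋ * (c.sgn (c.Y s) * c'.sgn (c.Y s))) (fun s => by
    rw [c.per]) t]
  unfold CS.E
  rw [Finset.mul_sum]
  refine Finset.sum_congr rfl fun i hi => ?_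
  rw [Finset.mem_range] at hi
  rw [add_comm (i : ℤ) t, alt hm c c' t u ho i hi, CS.simple_const hm c hc (t + i) t]
  ring

theorem sin_cos (hh : IsHalf m h) (c c' : CS m) (hc : c.Simple) (hc' : c'.Simple) (hg : GenPos c c') (t u : ℤ)
    (ho : OneCross c c' t u) : |sin (c.E h t - c'.E h u)| = cos (π / 2 * Gc h c c') := by
  have hm : 0 < m := by
    have := hh.two_le
    omega
  have hπ := Real.pi_pos
  have hcos : 0 ≤ cos (π / 2 * Gc h c c') := by
    have h1 := abs_le.1 (Gc_abs_le hh c c')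
    apply Real.cos_nonneg_of_mem_Icc
    constructor <;> nlinarith [h1.1, h1.2]
  rw [← abs_of_nonneg hcos]
  obtain ⟨y, hy⟩ : ∃ y : Fin c.n ⊕ Fin c'.n → ℝ,
      y = Sum.elim (fun i : Fin c.n => c.Y ((i : ℕ) : ℤ)) (fun i : Fin c'.n => c'.Y ((i : ℕ) : ℤ)) :=
    ⟨_, rfl⟩
  have hdv : ∀ (n : ℕ) (i j : Fin n), i ≠ j → ¬ ((n : ℤ) ∣ ((i : ℕ) : ℤ) - ((j : ℕ) : ℤ)) := by
    intro n i j hij h1
    apply hij
    have h2 := i.2
    have h3 := j.2
    obtain ⟨k, hk⟩ := h1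
    have hn : (0 : ℤ) < n := by omega
    have k1 : k < 1 := by
      by_contra h4
      have : (n : ℤ) * 1 ≤ n * k := mul_le_mul_of_nonneg_left (not_lt.1 h4) hn.le
      omega
    have k2 : -1 < k := by
      by_contra h4
      have : (n : ℤ) * k ≤ n * (-1) := mul_le_mul_of_nonneg_left (not_lt.1 h4) hn.le
      omega
    have k0 : k = 0 := by omega
    rw [k0, mul_zero] at hk
    apply Fin.ext
    omega
  have hab := abel hh (J := Fin c.n ⊕ Fin c'.n) (by
      rw [Fintype.card_sum, Fintype.card_fin, Fintype.card_fin]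
      exact c.odd.add_odd c'.odd) y (by
      rintro (i | i) k
      · rw [hy]
        exact c.nv _ k
      · rw [hy]
        exact c'.nv _ k) (by
      rintro (i | i) (j | j) hij
      · rw [hy]
        exact c.inj _ _ (hdv _ i j fun h1 => hij (by rw [h1]))
      · rw [hy]
        exact hg _ _
      · rw [hy]
        exact (hg _ _).symm
      · rw [hy]
        exact c'.inj _ _ (hdv _ i j fun h1 => hij (by rw [h1])))
  have hFF : ∀ p, FF m y p = c.sgn p * c'.sgn p := by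
    intro p
    unfold FF CS.sgn
    rw [Fintype.prod_sum_type, hy, Finset.prod_range, Finset.prod_range]
    rfl
  simp only [hFF] at hab
  rw [Fintype.sum_sum_type, hy] at hab
  simp only [Sum.elim_inl, Sum.elim_inr] at hab
  have hL : ∑ k ∈ range m, (h k - h (k - 1)) * (c.sgn k * c'.sgn k) = π * Gc h c c' := by
    unfold Gc
    rw [Finset.mul_sum]
    refine Finset.sum_congr rfl fun k _ => ?_
    field_simp
  rw [hL] at hab
  have hint : ∀ (c c' c'' : CS m), ∃ M : ℤ, ∑ i : Fin c''.n, (⌊c''.Y (i : ℕ) / m⌋ : ℝ) *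
      (c.sgn (c''.Y (i : ℕ)) * c'.sgn (c''.Y (i : ℕ))) = M := by
    intro c c' c''
    have h1 : ∀ i : Fin c''.n, ∃ M : ℤ, (⌊c''.Y (i : ℕ) / m⌋ : ℝ) *
      (c.sgn (c''.Y (i : ℕ)) * c'.sgn (c''.Y (i : ℕ))) = M := by
      intro i
      rcases cgram_Fsq c c' (c''.Y (i : ℕ)) with h2 | h2
      · exact ⟨⌊c''.Y (i : ℕ) / m⌋, by rw [h2, mul_one]⟩
      · exact ⟨-⌊c''.Y (i : ℕ) / m⌋, by rw [h2]; push_cast; ring⟩
    choose M hM using h1
    exact ⟨∑ i, M i, by push_cast; exact Finset.sum_congr rfl fun i _ => hM i⟩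
  obtain ⟨M1, hM1⟩ := hint c c' c
  obtain ⟨M2, hM2⟩ := hint c c' c'
  have hS1 := cgram_sum (h := h) hm c c' hc t u ho
  have hS2 := cgram_sum (h := h) hm c' c hc' u t (cgram_one hm hg ho)
  rw [Finset.sum_range] at hS1 hS2
  have hcs := cross_sign hm c c' hc hc' hg t u ho
  have e1 : ∑ i : Fin c.n, (h ⌊c.Y (i : ℕ)⌋ - π * ⌊c.Y (i : ℕ) / m⌋) *
      (c.sgn (c.Y (i : ℕ)) * c'.sgn (c.Y (i : ℕ))) =
      (c.sgn (c.Y t) * c'.sgn (c.Y t)) * c.E h t - π * M1 := by
    rw [← hS1, ← hM1, Finset.mul_sum, ← Finset.sum_sub_distrib]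
    refine Finset.sum_congr rfl fun i _ => ?_
    ring
  have e2 : ∑ i : Fin c'.n, (h ⌊c'.Y (i : ℕ)⌋ - π * ⌊c'.Y (i : ℕ) / m⌋) *
      (c.sgn (c'.Y (i : ℕ)) * c'.sgn (c'.Y (i : ℕ))) =
      (c.sgn (c'.Y u) * c'.sgn (c'.Y u)) * c'.E h u - π * M2 := by
    rw [← hM2, mul_comm (c.sgn (c'.Y u)), ← hS2, Finset.mul_sum, ← Finset.sum_sub_distrib]
    refine Finset.sum_congr rfl fun i _ => ?_
    ring
  rw [e1, e2] at hab
  have hb : c.sgn (c'.Y u) * c'.sgn (c'.Y u) = -(c.sgn (c.Y t) * c'.sgn (c.Y t)) := by linarith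
  rw [hb] at hab
  obtain ⟨D, hD⟩ : ∃ D, D = c.E h t - c'.E h u := ⟨_, rfl⟩
  have e3 : π / 2 * Gc h c c' = (π / 2 * (c.sgn 0 * c'.sgn 0) + (c.sgn (c.Y t) * c'.sgn (c.Y t)) * D) -
      ((M1 + M2 : ℤ) : ℝ) * π := by
    rw [hD]
    push_cast
    linarith
  rw [← hD, e3, Real.cos_sub_int_mul_pi, abs_mul]
  have h1 : |(-1 : ℝ) ^ (M1 + M2)| = 1 := by
    rcases cord_pm (M1 + M2) with h | h <;> rw [h] <;> norm_num
  rw [h1, one_mul]
  have hsp : ∀ x : ℝ, cos (π / 2 * 1 + x) = -sin x := by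
    intro x
    rw [mul_one, add_comm, Real.cos_add_pi_div_two]
  have hsm : ∀ x : ℝ, cos (π / 2 * (-1) + x) = sin x := by
    intro x
    rw [show π / 2 * (-1) + x = x - π / 2 by ring, Real.cos_sub_pi_div_two]
  rcases cgram_Fsq c c' 0 with h2 | h2 <;> rcases cgram_Fsq c c' (c.Y t) with h3 | h3 <;>
    rw [h2, h3]
  · rw [hsp, abs_neg, one_mul]
  · rw [hsp, abs_neg, neg_mul, one_mul, Real.sin_neg, abs_neg]
  · rw [hsm, one_mul]
  · rw [hsm, neg_mul, one_mul, Real.sin_neg, abs_neg]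

end H47A
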