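import Pool.Agent.Lib.H47A.CGram

/-! # H47A, chunk CGRAM (S/M): the Gram matrix of the null vectors
PROOF. `null`: in `gram_bb` with c' = c the terms s != t vanish (`bb_zero`, c simple; the points are different mod 2m: `nd_*`) and
the terms s = t have sin 0 = 0. `gram`: in `gram_bb` only the crossing pair survives (`bb_zero` for the others), bb = +-1
(`bb_one`), and `sin_cos`. AA symmetric. (Points of c and c' are different mod 2m by GenPos: Nq m (Y s) (Y' t) implies the four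
differences of X, Y with X', Y' are not in 2mZ.) -/

open Real Finset

namespace H47A

variable {m : ℕ} {h : ℤ → ℝ}

theorem cgram2_dvd (n a b : ℕ) (ha : a < n) (hb : b < n) (hab : a ≠ b) :
    ¬ ((n : ℤ) ∣ (a : ℤ) - (b : ℤ)) := by
  intro h1
  have h2 := Int.emod_emod_of_dvd ((a : ℤ)) h1
  obtain ⟨k, hk⟩ := h1
  have hn : (0 : ℤ) < n := by omega
  have k1 : k < 1 := by
    by_contra h4
    have : (n : ℤ) * 1 ≤ n * k := mul_le_mul_of_nonneg_left (not_lt.1 h4) hn.le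
    omega
  have k2 : -1 < k := by
    by_contra h4
    have : (n : ℤ) * k ≤ n * (-1) := mul_le_mul_of_nonneg_left (not_lt.1 h4) hn.le
    omega
  have k0 : k = 0 := by omega
  rw [k0, mul_zero] at hk
  omega

theorem cgram2_sum_single (n : ℕ) (hn : 0 < n) (g : ℤ → ℝ) (hg : ∀ t, g (t + n) = g t) (t : ℤ)
    (h1 : ∀ s, ¬ ((n : ℤ) ∣ s - t) → g s = 0) : ∑ s ∈ range n, g s = g t := by
  rw [← sum_shift n g hg t, Finset.sum_eq_single 0]
  · simp
  · intro s hs hs0
    rw [Finset.mem_range] at hs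
    apply h1
    rw [add_sub_cancel_right]
    have := cgram2_dvd n s 0 hs hn hs0
    simpa using this
  · intro h0
    exact absurd (Finset.mem_range.2 hn) h0

theorem null (hh : IsHalf m h) (c : CS m) (hc : c.Simple) : AA m (c.nV h) (c.nV h) = 0 := by
  have hm : 0 < m := by
    have := hh.two_le
    omega
  rw [gram_bb hh c c, Finset.sum_eq_zero, mul_zero]
  intro t ht
  refine Finset.sum_eq_zero fun u hu => ?_
  rw [Finset.mem_range] at ht hu
  by_cases htu : t = u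
  · rw [htu, sub_self, Real.sin_zero, mul_zero]
  · have h1 := cgram2_dvd c.n t u ht hu htu
    rw [bb_zero hm (hc t u h1) (c.nd_XY hm t t) (c.nd_XY hm u u) (c.nd_XX h1) (c.nd_XY hm t u)
      (c.nd_XY hm u t).symm (c.nd_YY h1)]
    simp

theorem gram (hh : IsHalf m h) (c c' : CS m) (hc : c.Simple) (hc' : c'.Simple) (hg : GenPos c c') (t u : ℤ)
    (ho : OneCross c c' t u) : |AA m (c.nV h) (c'.nV h)| = 1 / 2 * cos (π / 2 * Gc h c c') := by
  have hm : 0 < m := by
    have := hh.two_le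
    omega
  rw [AA_symm, gram_bb hh c c', ← sin_cos hh c c' hc hc' hg t u ho]
  have hz : ∀ s v : ℤ, ¬ ((c.n : ℤ) ∣ s - t ∧ (c'.n : ℤ) ∣ v - u) →
      (bb m (c.X s) (c.Y s) (c'.X v) (c'.Y v) : ℝ) * sin (c.E h s - c'.E h v) = 0 := by
    intro s v hsv
    rw [bb_zero hm (ho.2 s v hsv) (c.nd_XY hm s s) (c'.nd_XY hm v v) (cgram_XX hg s v)
      (cgram_XY hg s v) (cgram_YX hg s v) (cgram_YY hg s v)]
    simp
  have h1 : ∀ s : ℤ, ∑ v ∈ range c'.n,
      (bb m (c.X s) (c.Y s) (c'.X v) (c'.Y v) : ℝ) * sin (c.E h s - c'.E h v) =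
      (bb m (c.X s) (c.Y s) (c'.X u) (c'.Y u) : ℝ) * sin (c.E h s - c'.E h u) := by
    intro s
    refine cgram2_sum_single c'.n c'.n_pos
      (fun v => (bb m (c.X s) (c.Y s) (c'.X v) (c'.Y v) : ℝ) * sin (c.E h s - c'.E h v))
      (fun v => ?_) u fun v hv => hz s v fun h2 => hv h2.2
    rw [c'.X_mod (s := v + c'.n) (t := v) ⟨1, by ring⟩, c'.per, c'.E_per]
  have h2 : ∑ s ∈ range c.n, ∑ v ∈ range c'.n,
      (bb m (c.X s) (c.Y s) (c'.X v) (c'.Y v) : ℝ) * sin (c.E h s - c'.E h v) =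
      (bb m (c.X t) (c.Y t) (c'.X u) (c'.Y u) : ℝ) * sin (c.E h t - c'.E h u) := by
    rw [Finset.sum_congr rfl fun (s : ℕ) _ => h1 (s : ℤ)]
    refine cgram2_sum_single c.n c.n_pos
      (fun s => (bb m (c.X s) (c.Y s) (c'.X u) (c'.Y u) : ℝ) * sin (c.E h s - c'.E h u))
      (fun s => ?_) t fun s hs => hz s u fun h2 => hs h2.1
    rw [c.X_mod (s := s + c.n) (t := s) ⟨1, by ring⟩, c.per, c.E_per]
  rw [h2, abs_mul, abs_mul]
  have h3 : |(bb m (c.X t) (c.Y t) (c'.X u) (c'.Y u) : ℝ)| = 1 := by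
    rcases bb_one hm ho.1 (c.nd_XY hm t t) (c'.nd_XY hm u u) (cgram_XX hg t u)
      (cgram_XY hg t u) (cgram_YX hg t u) (cgram_YY hg t u) with h | h <;> rw [h] <;> norm_num
  rw [h3, one_mul, abs_of_pos (by norm_num : (0 : ℝ) < 1 / 2)]

end H47A
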