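import Pool.Agent.Lib.H47A.CDefs

/-! # H47A, chunk CORD1 (S/M)
Arithmetic of `Cl m x = ⌈x/2m⌉` (m > 0).
`Cl_sub`: write x = 2m a + fr x, a = ⌊x/2m⌋, 0 <= fr x < 2m, same for y: (x-y)/2m = a - b + (fr x - fr y)/2m with
(fr x - fr y)/2m in (-1,1), so the ceiling is a - b + (1 if fr y < fr x, else 0). `Cl_zero`, `Cl_add`, `Cl_neg` clear.
`ceil_half`: ⌈z⌉ = ⌈z/2⌉ + ⌈(z-1)/2⌉ with z = x/m (split z/2 into integer part k and fractional part).
`il_eq`, `bb_eq`: insert `Cl_sub` everywhere; the integer parts cancel (in `bb`) or appear an even number of times (in `il`). -/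

open Real Finset

namespace H47A

/-- The representative of `x` modulo `2m` in `[0,2m)`. -/
noncomputable def fr (m : ℕ) (x : ℝ) : ℝ := x - 2 * m * ⌊x / (2 * m)⌋

/-- Order indicator of the representatives: `1` if `fr y < fr x`. -/
noncomputable def ob (m : ℕ) (x y : ℝ) : ℤ := if fr m y < fr m x then 1 else 0

/-- Different modulo `2m`. -/
def Nd (m : ℕ) (x y : ℝ) : Prop := ∀ k : ℤ, x - y ≠ 2 * m * k

variable {m : ℕ}

theorem cord_fr (hm : 0 < m) (x : ℝ) : fr m x = 2 * m * Int.fract (x / (2 * m)) := by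
  have hm0 : (0 : ℝ) < m := by exact_mod_cast hm
  unfold fr Int.fract
  field_simp

theorem Cl_sub (hm : 0 < m) (x y : ℝ) :
    Cl m (x - y) = ⌊x / (2 * m)⌋ - ⌊y / (2 * m)⌋ + ob m x y := by
  have hm0 : (0 : ℝ) < m := by exact_mod_cast hm
  have h2 : (0 : ℝ) < 2 * m := by positivity
  unfold Cl ob
  rw [cord_fr hm, cord_fr hm, Int.ceil_eq_iff]
  have e : (x - y) / (2 * m) = (⌊x / (2 * m)⌋ : ℝ) + Int.fract (x / (2 * m)) -
      ((⌊y / (2 * m)⌋ : ℝ) + Int.fract (y / (2 * m))) := by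
    rw [Int.floor_add_fract, Int.floor_add_fract]
    ring
  rw [e]
  have a1 := Int.fract_nonneg (x / (2 * m : ℝ))
  have a2 := Int.fract_nonneg (y / (2 * m : ℝ))
  have a3 := Int.fract_lt_one (x / (2 * m : ℝ))
  have a4 := Int.fract_lt_one (y / (2 * m : ℝ))
  split_ifs with h
  · have h' : Int.fract (y / (2 * m : ℝ)) < Int.fract (x / (2 * m : ℝ)) := lt_of_mul_lt_mul_left h h2.le
    push_cast
    constructor <;> linarith
  · have h' : Int.fract (x / (2 * m : ℝ)) ≤ Int.fract (y / (2 * m : ℝ)) := by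
      by_contra hc
      push Not at hc
      exact h (mul_lt_mul_of_pos_left hc h2)
    push_cast
    constructor <;> linarith

theorem Cl_zero : Cl m 0 = 0 := by
  simp [Cl]

theorem Cl_add (hm : 0 < m) (x : ℝ) : Cl m (x + 2 * m) = Cl m x + 1 := by
  have hm0 : (0 : ℝ) < m := by exact_mod_cast hm
  unfold Cl
  have e : (x + 2 * m) / (2 * m) = x / (2 * m) + 1 := by field_simp
  rw [e, Int.ceil_add_one]

theorem Cl_sub' (hm : 0 < m) (x : ℝ) : Cl m (x - 2 * m) = Cl m x - 1 := by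
  have hm0 : (0 : ℝ) < m := by exact_mod_cast hm
  unfold Cl
  have e : (x - 2 * m) / (2 * m) = x / (2 * m) - 1 := by field_simp
  rw [e, Int.ceil_sub_one]

theorem Cl_neg (hm : 0 < m) {x : ℝ} (hx : Nd m x 0) : Cl m x + Cl m (-x) = 1 := by
  have hm0 : (0 : ℝ) < m := by exact_mod_cast hm
  unfold Cl
  rw [neg_div, Int.ceil_neg]
  have h1 : ⌈x / (2 * m)⌉ = ⌊x / (2 * m)⌋ + 1 := by
    rw [Int.ceil_eq_iff]
    push_cast
    have h2 := Int.floor_le (x / (2 * m))
    have h3 := Int.lt_floor_add_one (x / (2 * m))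
    refine ⟨?_, h3.le⟩
    rw [add_sub_cancel_right]
    rcases h2.lt_or_eq with h4 | h4
    · exact h4
    · exfalso
      apply hx ⌊x / (2 * m)⌋
      rw [h4, sub_zero]
      field_simp
  rw [h1]
  ring

theorem cord_herm (z : ℝ) : ⌈2 * z⌉ = ⌈z⌉ + ⌈z - 1 / 2⌉ := by
  obtain ⟨k, hk⟩ : ∃ k : ℤ, k = ⌈z⌉ := ⟨_, rfl⟩
  have h1 : z ≤ k := by rw [hk]; exact Int.le_ceil z
  have h2 : (k : ℝ) - 1 < z := by
    rw [hk]
    linarith [Int.ceil_lt_add_one z]
  rw [← hk]
  rcases le_or_gt z (k - 1 / 2) with h | h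
  · have e : ⌈z - 1 / 2⌉ = k - 1 := by
      rw [Int.ceil_eq_iff]
      push_cast
      constructor <;> linarith
    rw [e, Int.ceil_eq_iff]
    push_cast
    constructor <;> linarith
  · have e : ⌈z - 1 / 2⌉ = k := by
      rw [Int.ceil_eq_iff]
      constructor <;> linarith
    rw [e, Int.ceil_eq_iff]
    push_cast
    constructor <;> linarith

theorem ceil_half (hm : 0 < m) (x : ℝ) : ⌈x / m⌉ = Cl m x + Cl m (x - m) := by
  have hm0 : (0 : ℝ) < m := by exact_mod_cast hm
  unfold Cl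
  have e1 : x / m = 2 * (x / (2 * m)) := by field_simp
  have e2 : (x - m) / (2 * m) = x / (2 * m) - 1 / 2 := by field_simp
  rw [e1, e2, cord_herm]

theorem cord_even (a b : ℤ) : ((-1 : ℝ)) ^ (a + 2 * b) = (-1) ^ a := by
  rw [zpow_add₀ (by norm_num), zpow_mul]
  norm_num

theorem il_eq (hm : 0 < m) (p q x y : ℝ) :
    il m p q x y = (-1) ^ (ob m p x + ob m p y + ob m q x + ob m q y) := by
  unfold il side
  rw [← zpow_add₀ (by norm_num), Cl_sub hm, Cl_sub hm, Cl_sub hm, Cl_sub hm,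
    ← cord_even (ob m p x + ob m p y + ob m q x + ob m q y)
      (⌊p / (2 * m)⌋ + ⌊q / (2 * m)⌋ - ⌊x / (2 * m)⌋ - ⌊y / (2 * m)⌋)]
  congr 1
  ring

theorem bb_eq (hm : 0 < m) (p q x y : ℝ) : bb m p q x y = ob m q y - ob m q x - ob m p y + ob m p x := by
  unfold bb
  rw [Cl_sub hm, Cl_sub hm, Cl_sub hm, Cl_sub hm]
  ring

theorem fr_ne (hm : 0 < m) {x y : ℝ} (h : Nd m x y) : fr m x ≠ fr m y := by
  intro he
  apply h (⌊x / (2 * m)⌋ - ⌊y / (2 * m)⌋)
  unfold fr at he
  push_cast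
  linarith

theorem fr_add (hm : 0 < m) (x : ℝ) : fr m (x + 2 * m) = fr m x := by
  have hm0 : (0 : ℝ) < m := by exact_mod_cast hm
  unfold fr
  have e : (x + 2 * m) / (2 * m) = x / (2 * m) + 1 := by field_simp
  rw [e, Int.floor_add_one]
  push_cast
  ring

theorem Nq.nd {x y : ℝ} (h : Nq m x y) : Nd m x y := by
  intro k hk
  apply h (2 * k)
  rw [hk]
  push_cast
  ring

theorem Nq.symm {x y : ℝ} (h : Nq m x y) : Nq m y x := by
  intro k hk
  apply h (-k)
  push_cast
  linarith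

theorem Nd.symm {x y : ℝ} (h : Nd m x y) : Nd m y x := by
  intro k hk
  apply h (-k)
  push_cast
  linarith

theorem cord_pm (a : ℤ) : ((-1 : ℝ)) ^ a = 1 ∨ ((-1 : ℝ)) ^ a = -1 := by
  rcases Int.even_or_odd a with h | h
  · exact Or.inl h.neg_one_zpow
  · exact Or.inr h.neg_one_zpow

theorem side_pm (x y p : ℝ) : side m x y p = 1 ∨ side m x y p = -1 := cord_pm _

theorem side_sq (x y p : ℝ) : side m x y p * side m x y p = 1 := by
  rcases side_pm (m := m) x y p with h | h <;> rw [h] <;> norm_num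

theorem il_pm (p q x y : ℝ) : il m p q x y = 1 ∨ il m p q x y = -1 := by
  unfold il
  rcases side_pm (m := m) x y p with h | h <;> rcases side_pm (m := m) x y q with h' | h' <;>
    rw [h, h'] <;> norm_num

theorem cord_side_p (hm : 0 < m) (x y p : ℝ) : side m x y (p + 2 * m) = side m x y p := by
  unfold side
  have e1 : p + 2 * m - x = (p - x) + 2 * m := by ring
  have e2 : p + 2 * m - y = (p - y) + 2 * m := by ring
  rw [e1, e2, Cl_add hm, Cl_add hm, ← cord_even (Cl m (p - x) + Cl m (p - y)) 1]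
  congr 1
  ring

theorem cord_side_x (hm : 0 < m) (x y p : ℝ) : side m (x + 2 * m) y p = -side m x y p := by
  unfold side
  have e1 : p - (x + 2 * m) = (p - x) - 2 * m := by ring
  rw [e1, Cl_sub' hm]
  have e2 : Cl m (p - x) - 1 + Cl m (p - y) = (Cl m (p - x) + Cl m (p - y)) + (-1) := by ring
  rw [e2, zpow_add₀ (by norm_num)]
  norm_num

theorem cord_side_swap (x y p : ℝ) : side m x y p = side m y x p := by
  unfold side
  rw [add_comm]

theorem il_per1 (hm : 0 < m) (p q x y : ℝ) : il m (p + 2 * m) q x y = il m p q x y := by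
  unfold il
  rw [cord_side_p hm]

theorem il_per2 (hm : 0 < m) (p q x y : ℝ) : il m p (q + 2 * m) x y = il m p q x y := by
  unfold il
  rw [cord_side_p hm]

theorem il_per3 (hm : 0 < m) (p q x y : ℝ) : il m p q (x + 2 * m) y = il m p q x y := by
  unfold il
  rw [cord_side_x hm, cord_side_x hm]
  ring

theorem il_swap (p q x y : ℝ) : il m p q x y = il m q p x y := by
  unfold il
  ring

theorem il_swap' (p q x y : ℝ) : il m p q x y = il m p q y x := by
  unfold il
  rw [cord_side_swap x y p, cord_side_swap x y q]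

theorem il_per4 (hm : 0 < m) (p q x y : ℝ) : il m p q x (y + 2 * m) = il m p q x y := by
  rw [il_swap', il_per3 hm, il_swap']

end H47A
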