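import Pool.Agent.Lib.H47A.COrd2

/-! # H47A, module D: uncrossing of loops (definitions)
The boundary circle is `R/2mZ`, all functions are `2m`-periodic. A path from the boundary point `a` to `b` with breakpoints
`l = [y_1, ..., y_k]` consists of the chords `(a,y_1), (y_1+m,y_2), ..., (y_k+m,b)`. A loop at the vertex `i` is a path from `i` to
`i + m` with an even number of breakpoints. -/

open Real Finset

namespace H47A

/-- The chords of the path from `a` to `b` with breakpoints `l`. -/
noncomputable def chs (m : ℕ) : ℝ → List ℝ → ℝ → List (ℝ × ℝ)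
  | a, [], b => [(a, b)]
  | a, y :: l, b => (a, y) :: chs m (y + m) l b

/-- Length of a list of chords. -/
noncomputable def len (d : ℝ → ℝ → ℝ) (L : List (ℝ × ℝ)) : ℝ := (L.map fun p => d p.1 p.2).sum

/-- Crossing number (0 or 1) of two chords. -/
noncomputable def chi (m : ℕ) (p q : ℝ × ℝ) : ℝ := (1 - il m p.1 p.2 q.1 q.2) / 2

/-- Normal form of a chord: unordered pair of representatives in `[0,2m)`. -/
noncomputable def nfc (m : ℕ) (p : ℝ × ℝ) : ℝ × ℝ :=
  (min (fr m p.1) (fr m p.2), max (fr m p.1) (fr m p.2))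

/-- The breakpoints of the reversed path. -/
noncomputable def rv (m : ℕ) (l : List ℝ) : List ℝ := l.reverse.map (· + (m : ℝ))

/-- Inner distance axioms on the boundary circle: periodic, symmetric, triangle inequality, Monge inequalities, continuity. -/
structure IsMonge (m : ℕ) (d : ℝ → ℝ → ℝ) : Prop where
  symm : ∀ x y, d x y = d y x
  self : ∀ x, d x x = 0
  tri : ∀ x y z, d x z ≤ d x y + d y z
  per : ∀ x y, d (x + 2 * m) y = d x y
  monge : ∀ x y z w : ℝ, x < y → y < z → z < w → w < x + 2 * m →
    d x y + d z w ≤ d x z + d y w ∧ d x w + d y z ≤ d x z + d y w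
  cont : Continuous fun p : ℝ × ℝ => d p.1 p.2

/-- The total weight of a multiset of chords: length plus `δ` times the number of ordered crossing pairs (self pairs count one). -/
noncomputable def JJ (m : ℕ) (d : ℝ → ℝ → ℝ) (δ : ℝ) (C : Multiset (ℝ × ℝ)) : ℝ :=
  (C.map fun p => d p.1 p.2).sum + δ * (C.map fun p => (C.map fun q => chi m p q).sum).sum

/-- A family of loops, one at each vertex `i < m`, given by the breakpoints. -/
structure GenFam (m : ℕ) (l : Fin m → List ℝ) : Prop where
  even : ∀ i, Even (l i).length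
  nv : ∀ i, ∀ y ∈ l i, ∀ k : ℤ, y ≠ k
  nq : ∀ i, (l i).Pairwise (Nq m)
  nq' : ∀ i j, i ≠ j → ∀ y ∈ l i, ∀ z ∈ l j, Nq m y z

/-- The chords of the loop `i` of a family. -/
noncomputable def lp (m : ℕ) (l : Fin m → List ℝ) (i : Fin m) : List (ℝ × ℝ) :=
  chs m (i : ℕ) (l i) ((i : ℕ) + m)

/-- All chords of a family, in normal form. -/
noncomputable def allc (m : ℕ) (l : Fin m → List ℝ) : Multiset (ℝ × ℝ) :=
  ∑ i, (((lp m l i).map (nfc m) : List (ℝ × ℝ)) : Multiset (ℝ × ℝ))

end H47A
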