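import Pool.Agent.Lib.H47A.DEx2

/-! # H47A, chunk DEX1 (M/L): exchanging two nonempty arcs of different loops
Notation: al = en A, be = head B, be' = last B + m, ga = head of C or i + m; al', b, b', ga' for the loop j.
DIRECT: the loops A ++ B' ++ C at i and A' ++ B ++ C' at j. The chords (al,be),(be',ga),(al',b),(b',ga') are replaced by
(al,b),(b',ga),(al',be),(be',ga'); all others are unchanged. Two applications of `resolve`: {(al,be),(b,al')} -> {(al,b),(be,al')}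
and {(be',ga),(ga',b')} -> {(be',ga'),(ga,b')} (orientation of chords is irrelevant: nfc_swap, il_swap).
REVERSED: the loops A ++ rv B' ++ C and A' ++ rv B ++ C': new chords (al,b'),(b+2m,ga),(al',be'),(be+2m,ga') and the chords of
rv B', rv B (same normal forms, `mid_rv`). `resolve`: {(al,be),(b',ga')} -> {(al,b'),(be,ga')}, {(be',ga),(al',b)} -> {(be',al'),
(ga,b)}. In the second `resolve` the chords created by the first belong to R; all 8 end points are different mod 2m.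
Lengths of the new lists are even since B and B' have the same parity. -/

open Real Finset

namespace H47A

variable {m : ℕ} {d : ℝ → ℝ → ℝ} {δ : ℝ} {l : Fin m → List ℝ}

theorem dex1_even {a b c b' : ℕ} (h : Even (a + b + c)) (hb : Even (b + b')) : Even (a + b' + c) := by
  rw [Nat.even_iff] at h hb ⊢
  omega

theorem dex1_rv_ne {B : List ℝ} (hB : B ≠ []) : rv m B ≠ [] := by
  intro h
  have := congrArg List.length h
  rw [rv_length] at this
  exact hB (List.length_eq_zero_iff.1 (by simpa using this))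

theorem exch_direct (hm : 0 < m) (hd : IsMonge m d) (hδ : 0 ≤ δ) (hl : GenFam m l) {i j : Fin m} (hij : i ≠ j)
    (A B C A' B' C' : List ℝ) (hB : B ≠ []) (hB' : B' ≠ []) (hi : l i = A ++ B ++ C) (hj : l j = A' ++ B' ++ C')
    (hpar : Even (B.length + B'.length))
    (hx : il m (en m (i : ℕ) A) (B.headD 0) (en m (j : ℕ) A') (B'.headD 0) = -1)
    (hy : il m (B.getLastD 0 + m) (C.headD ((i : ℕ) + m)) (B'.getLastD 0 + m) (C'.headD ((j : ℕ) + m)) = -1) :
    ∃ l' : Fin m → List ℝ, GenFam m l' ∧ JJ m d δ (allc m l') ≤ JJ m d δ (allc m l) - 2 * δ := by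
  classical
  obtain ⟨al, hal⟩ : ∃ x, x = en m (i : ℕ) A := ⟨_, rfl⟩
  obtain ⟨be, hbe⟩ : ∃ x, x = B.headD 0 := ⟨_, rfl⟩
  obtain ⟨be', hbe'⟩ : ∃ x, x = B.getLastD 0 + m := ⟨_, rfl⟩
  obtain ⟨ga, hga⟩ : ∃ x, x = C.headD ((i : ℕ) + m) := ⟨_, rfl⟩
  obtain ⟨al', hal'⟩ : ∃ x, x = en m (j : ℕ) A' := ⟨_, rfl⟩
  obtain ⟨b, hb⟩ : ∃ x, x = B'.headD 0 := ⟨_, rfl⟩
  obtain ⟨b', hb'⟩ : ∃ x, x = B'.getLastD 0 + m := ⟨_, rfl⟩
  obtain ⟨ga', hga'⟩ : ∃ x, x = C'.headD ((j : ℕ) + m) := ⟨_, rfl⟩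
  rw [← hal, ← hbe, ← hal', ← hb] at hx
  rw [← hbe', ← hga, ← hb', ← hga'] at hy
  -- the old chords
  obtain ⟨R0, hR0⟩ : ∃ R0 : Multiset (ℝ × ℝ), R0 = (pre m (i : ℕ) A : Multiset (ℝ × ℝ)) +
    (post m C ((i : ℕ) + m) : Multiset (ℝ × ℝ)) + (pre m (j : ℕ) A' : Multiset (ℝ × ℝ)) +
    (post m C' ((j : ℕ) + m) : Multiset (ℝ × ℝ)) + dex2_raw m l ((univ.erase i).erase j) := ⟨_, rfl⟩
  obtain ⟨Mi, hMi⟩ : ∃ Mi : Multiset (ℝ × ℝ), Mi = (mid m B : Multiset (ℝ × ℝ)) + (mid m B' : Multiset (ℝ × ℝ)) :=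
    ⟨_, rfl⟩
  have hold : dex2_raw m l univ = (al, be) ::ₘ (be', ga) ::ₘ (al', b) ::ₘ (b', ga') ::ₘ (R0 + Mi) := by
    rw [dex2_raw_two hij]
    unfold lp
    rw [hi, hj, chs_split _ _ _ _ _ hB, chs_split _ _ _ _ _ hB', ← hal, ← hbe, ← hbe', ← hga, ← hal', ← hb, ← hb',
      ← hga', hR0, hMi]
    simp only [← Multiset.coe_add, Multiset.coe_singleton, ← Multiset.singleton_add]
    abel
  have hPW := dex2_pw_raw hm hl univ
  rw [hold] at hPW
  -- the combinatorics of the breakpoints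
  have hperm : ((A ++ B' ++ C) ++ (A' ++ B ++ C')).Pairwise (Nq m) := by
    have h1 : (l i ++ l j).Pairwise (Nq m) := by
      rw [List.pairwise_append]
      exact ⟨hl.nq i, hl.nq j, hl.nq' i j hij⟩
    rw [← Multiset.pairwise_coe_iff_pairwise] at h1 ⊢
    have h2 : (((A ++ B' ++ C) ++ (A' ++ B ++ C') : List ℝ) : Multiset ℝ) = ((l i ++ l j : List ℝ) : Multiset ℝ) := by
      rw [hi, hj]
      simp only [← Multiset.coe_add]
      abel
    rw [h2]
    exact h1
  have heven_i : Even (A.length + B.length + C.length) := by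
    have := hl.even i
    rw [hi, List.length_append, List.length_append] at this
    exact this
  have heven_j : Even (A'.length + B'.length + C'.length) := by
    have := hl.even j
    rw [hj, List.length_append, List.length_append] at this
    exact this
  refine ⟨Function.update (Function.update l i (A ++ B' ++ C)) j (A' ++ B ++ C'), ?_, ?_⟩
  · refine genFam_update2 hm hl hij _ _ ?_ ?_ hperm ?_
    · rw [List.length_append, List.length_append]
      exact dex1_even heven_i hpar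
    · rw [List.length_append, List.length_append]
      exact dex1_even heven_j (by rw [add_comm]; exact hpar)
    · intro y hy
      refine ⟨y, ?_, 0, by simp⟩
      rw [hi, hj]
      simp only [List.mem_append] at hy ⊢
      tauto
  · rw [dex2_JJ_raw hm hd, dex2_JJ_raw hm hd l, dex2_raw_upd hij, hold]
    have hnew : ((chs m (i : ℕ) (A ++ B' ++ C) ((i : ℕ) + m) : List (ℝ × ℝ)) : Multiset (ℝ × ℝ)) +
        ((chs m (j : ℕ) (A' ++ B ++ C') ((j : ℕ) + m) : List (ℝ × ℝ)) : Multiset (ℝ × ℝ)) +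
        dex2_raw m l ((univ.erase i).erase j) =
        (al, b) ::ₘ (b', ga) ::ₘ (al', be) ::ₘ (be', ga') ::ₘ (R0 + Mi) := by
      rw [chs_split _ _ A B' C hB', chs_split _ _ A' B C' hB, ← hal, ← hbe, ← hbe', ← hga, ← hal', ← hb, ← hb',
        ← hga', hR0, hMi]
      simp only [← Multiset.coe_add, Multiset.coe_singleton, ← Multiset.singleton_add]
      abel
    rw [hnew]
    -- first resolution
    have s1 : JJ m d δ ((al, b) ::ₘ (be, al') ::ₘ ((be', ga) ::ₘ (b', ga') ::ₘ (R0 + Mi))) ≤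
        JJ m d δ ((al, be) ::ₘ (b, al') ::ₘ ((be', ga) ::ₘ (b', ga') ::ₘ (R0 + Mi))) - 2 * δ := by
      refine dex2_resolve hm hd hδ (by rw [il_swap']; exact hx) _ ?_
      have h1 : dex2_ep ((al, be) ::ₘ (b, al') ::ₘ ((be', ga) ::ₘ (b', ga') ::ₘ (R0 + Mi))) =
          dex2_ep ((al, be) ::ₘ (be', ga) ::ₘ (al', b) ::ₘ (b', ga') ::ₘ (R0 + Mi)) := by
        simp only [dex2_ep_cons]
        simp only [← Multiset.singleton_add]
        abel
      rw [h1]
      exact hPW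
    have s2 : JJ m d δ ((be', ga') ::ₘ (ga, b') ::ₘ ((al, b) ::ₘ (be, al') ::ₘ (R0 + Mi))) ≤
        JJ m d δ ((be', ga) ::ₘ (ga', b') ::ₘ ((al, b) ::ₘ (be, al') ::ₘ (R0 + Mi))) - 2 * δ := by
      refine dex2_resolve hm hd hδ (by rw [il_swap']; exact hy) _ ?_
      have h1 : dex2_ep ((be', ga) ::ₘ (ga', b') ::ₘ ((al, b) ::ₘ (be, al') ::ₘ (R0 + Mi))) =
          dex2_ep ((al, be) ::ₘ (be', ga) ::ₘ (al', b) ::ₘ (b', ga') ::ₘ (R0 + Mi)) := by
        simp only [dex2_ep_cons]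
        simp only [← Multiset.singleton_add]
        abel
      rw [h1]
      exact hPW
    have c1 : JJ m d δ ((al, be) ::ₘ (b, al') ::ₘ ((be', ga) ::ₘ (b', ga') ::ₘ (R0 + Mi))) =
        JJ m d δ ((al, be) ::ₘ (be', ga) ::ₘ (al', b) ::ₘ (b', ga') ::ₘ (R0 + Mi)) := by
      apply dex2_JJ_congr hm hd
      simp only [Multiset.map_cons]
      rw [nfc_swap al' b]
      simp only [← Multiset.singleton_add]
      abel
    have c2 : JJ m d δ ((be', ga) ::ₘ (ga', b') ::ₘ ((al, b) ::ₘ (be, al') ::ₘ (R0 + Mi))) =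
        JJ m d δ ((al, b) ::ₘ (be, al') ::ₘ ((be', ga) ::ₘ (b', ga') ::ₘ (R0 + Mi))) := by
      apply dex2_JJ_congr hm hd
      simp only [Multiset.map_cons]
      rw [nfc_swap b' ga']
      simp only [← Multiset.singleton_add]
      abel
    have c3 : JJ m d δ ((al, b) ::ₘ (b', ga) ::ₘ (al', be) ::ₘ (be', ga') ::ₘ (R0 + Mi)) =
        JJ m d δ ((be', ga') ::ₘ (ga, b') ::ₘ ((al, b) ::ₘ (be, al') ::ₘ (R0 + Mi))) := by
      apply dex2_JJ_congr hm hd
      simp only [Multiset.map_cons]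
      rw [nfc_swap b' ga, nfc_swap al' be]
      simp only [← Multiset.singleton_add]
      abel
    linarith

theorem exch_reversed (hm : 0 < m) (hd : IsMonge m d) (hδ : 0 ≤ δ) (hl : GenFam m l) {i j : Fin m} (hij : i ≠ j)
    (A B C A' B' C' : List ℝ) (hB : B ≠ []) (hB' : B' ≠ []) (hi : l i = A ++ B ++ C) (hj : l j = A' ++ B' ++ C')
    (hpar : Even (B.length + B'.length))
    (hx : il m (en m (i : ℕ) A) (B.headD 0) (B'.getLastD 0 + m) (C'.headD ((j : ℕ) + m)) = -1)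
    (hy : il m (B.getLastD 0 + m) (C.headD ((i : ℕ) + m)) (en m (j : ℕ) A') (B'.headD 0) = -1) :
    ∃ l' : Fin m → List ℝ, GenFam m l' ∧ JJ m d δ (allc m l') ≤ JJ m d δ (allc m l) - 2 * δ := by
  classical
  obtain ⟨al, hal⟩ : ∃ x, x = en m (i : ℕ) A := ⟨_, rfl⟩
  obtain ⟨be, hbe⟩ : ∃ x, x = B.headD 0 := ⟨_, rfl⟩
  obtain ⟨be', hbe'⟩ : ∃ x, x = B.getLastD 0 + m := ⟨_, rfl⟩
  obtain ⟨ga, hga⟩ : ∃ x, x = C.headD ((i : ℕ) + m) := ⟨_, rfl⟩
  obtain ⟨al', hal'⟩ : ∃ x, x = en m (j : ℕ) A' := ⟨_, rfl⟩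
  obtain ⟨b, hb⟩ : ∃ x, x = B'.headD 0 := ⟨_, rfl⟩
  obtain ⟨b', hb'⟩ : ∃ x, x = B'.getLastD 0 + m := ⟨_, rfl⟩
  obtain ⟨ga', hga'⟩ : ∃ x, x = C'.headD ((j : ℕ) + m) := ⟨_, rfl⟩
  rw [← hal, ← hbe, ← hb', ← hga'] at hx
  rw [← hbe', ← hga, ← hal', ← hb] at hy
  -- the old chords
  obtain ⟨R0, hR0⟩ : ∃ R0 : Multiset (ℝ × ℝ), R0 = (pre m (i : ℕ) A : Multiset (ℝ × ℝ)) +
    (post m C ((i : ℕ) + m) : Multiset (ℝ × ℝ)) + (pre m (j : ℕ) A' : Multiset (ℝ × ℝ)) +
    (post m C' ((j : ℕ) + m) : Multiset (ℝ × ℝ)) + dex2_raw m l ((univ.erase i).erase j) := ⟨_, rfl⟩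
  obtain ⟨Mi, hMi⟩ : ∃ Mi : Multiset (ℝ × ℝ), Mi = (mid m B : Multiset (ℝ × ℝ)) + (mid m B' : Multiset (ℝ × ℝ)) :=
    ⟨_, rfl⟩
  have hold : dex2_raw m l univ = (al, be) ::ₘ (be', ga) ::ₘ (al', b) ::ₘ (b', ga') ::ₘ (R0 + Mi) := by
    rw [dex2_raw_two hij]
    unfold lp
    rw [hi, hj, chs_split _ _ _ _ _ hB, chs_split _ _ _ _ _ hB', ← hal, ← hbe, ← hbe', ← hga, ← hal', ← hb, ← hb',
      ← hga', hR0, hMi]
    simp only [← Multiset.coe_add, Multiset.coe_singleton, ← Multiset.singleton_add]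
    abel
  have hPW := dex2_pw_raw hm hl univ
  rw [hold] at hPW
  -- the combinatorics of the breakpoints
  have hperm : ((A ++ rv m B' ++ C) ++ (A' ++ rv m B ++ C')).Pairwise (Nq m) := by
    have h1 : (l i ++ l j).Pairwise (Nq m) := by
      rw [List.pairwise_append]
      exact ⟨hl.nq i, hl.nq j, hl.nq' i j hij⟩
    have h3 : ((A ++ B' ++ C) ++ (A' ++ B ++ C')).Pairwise (Nq m) := by
      rw [← Multiset.pairwise_coe_iff_pairwise] at h1 ⊢
      have h2 : (((A ++ B' ++ C) ++ (A' ++ B ++ C') : List ℝ) : Multiset ℝ) =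
          ((l i ++ l j : List ℝ) : Multiset ℝ) := by
        rw [hi, hj]
        simp only [← Multiset.coe_add]
        abel
      rw [h2]
      exact h1
    have h4 : ((A ++ rv m B' ++ C) ++ (A' ++ B ++ C')).Pairwise (Nq m) := by
      rw [List.append_assoc (A ++ rv m B')]
      apply dex2_nq_rv
      rw [← List.append_assoc (A ++ B')]
      exact h3
    have h5 : (((A ++ rv m B' ++ C) ++ A') ++ rv m B ++ C').Pairwise (Nq m) := by
      apply dex2_nq_rv
      have e : ((A ++ rv m B' ++ C) ++ A') ++ B ++ C' = (A ++ rv m B' ++ C) ++ (A' ++ B ++ C') := by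
        simp only [List.append_assoc]
      rw [e]
      exact h4
    have e : ((A ++ rv m B' ++ C) ++ A') ++ rv m B ++ C' = (A ++ rv m B' ++ C) ++ (A' ++ rv m B ++ C') := by
      simp only [List.append_assoc]
    rw [e] at h5
    exact h5
  have heven_i : Even (A.length + B.length + C.length) := by
    have := hl.even i
    rw [hi, List.length_append, List.length_append] at this
    exact this
  have heven_j : Even (A'.length + B'.length + C'.length) := by
    have := hl.even j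
    rw [hj, List.length_append, List.length_append] at this
    exact this
  refine ⟨Function.update (Function.update l i (A ++ rv m B' ++ C)) j (A' ++ rv m B ++ C'), ?_, ?_⟩
  · refine genFam_update2 hm hl hij _ _ ?_ ?_ hperm ?_
    · rw [List.length_append, List.length_append, rv_length]
      exact dex1_even heven_i hpar
    · rw [List.length_append, List.length_append, rv_length]
      exact dex1_even heven_j (by rw [add_comm]; exact hpar)
    · intro y hy
      rw [hi, hj]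
      simp only [List.mem_append] at hy ⊢
      rcases hy with ((h | h) | h) | ((h | h) | h)
      · exact ⟨y, Or.inl (Or.inl (Or.inl h)), 0, by simp⟩
      · unfold rv at h
        rw [List.mem_map] at h
        obtain ⟨z, hz, hzy⟩ := h
        exact ⟨z, Or.inr (Or.inl (Or.inr (List.mem_reverse.1 hz))), 1, by rw [← hzy]; push_cast; ring⟩
      · exact ⟨y, Or.inl (Or.inr h), 0, by simp⟩
      · exact ⟨y, Or.inr (Or.inl (Or.inl h)), 0, by simp⟩
      · unfold rv at h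
        rw [List.mem_map] at h
        obtain ⟨z, hz, hzy⟩ := h
        exact ⟨z, Or.inl (Or.inl (Or.inr (List.mem_reverse.1 hz))), 1, by rw [← hzy]; push_cast; ring⟩
      · exact ⟨y, Or.inr (Or.inr h), 0, by simp⟩
  · rw [dex2_JJ_raw hm hd, dex2_JJ_raw hm hd l, dex2_raw_upd hij, hold]
    have hnew : ((chs m (i : ℕ) (A ++ rv m B' ++ C) ((i : ℕ) + m) : List (ℝ × ℝ)) : Multiset (ℝ × ℝ)) +
        ((chs m (j : ℕ) (A' ++ rv m B ++ C') ((j : ℕ) + m) : List (ℝ × ℝ)) : Multiset (ℝ × ℝ)) +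
        dex2_raw m l ((univ.erase i).erase j) =
        (al, b') ::ₘ (b + 2 * m, ga) ::ₘ (al', be') ::ₘ (be + 2 * m, ga') ::ₘ
          (R0 + ((mid m (rv m B) : Multiset (ℝ × ℝ)) + (mid m (rv m B') : Multiset (ℝ × ℝ)))) := by
      rw [chs_split _ _ A (rv m B') C (dex1_rv_ne hB'), chs_split _ _ A' (rv m B) C' (dex1_rv_ne hB),
        rv_head B' hB', rv_last B' hB', rv_head B hB, rv_last B hB, ← hal, ← hbe, ← hbe', ← hga, ← hal', ← hb, ← hb',
        ← hga', hR0, show b + m + m = b + 2 * m by ring, show be + m + m = be + 2 * m by ring]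
      simp only [← Multiset.coe_add, Multiset.coe_singleton, ← Multiset.singleton_add]
      abel
    rw [hnew]
    -- first resolution
    have s1 : JJ m d δ ((al, b') ::ₘ (be, ga') ::ₘ ((be', ga) ::ₘ (al', b) ::ₘ (R0 + Mi))) ≤
        JJ m d δ ((al, be) ::ₘ (b', ga') ::ₘ ((be', ga) ::ₘ (al', b) ::ₘ (R0 + Mi))) - 2 * δ := by
      refine dex2_resolve hm hd hδ hx _ ?_
      have h1 : dex2_ep ((al, be) ::ₘ (b', ga') ::ₘ ((be', ga) ::ₘ (al', b) ::ₘ (R0 + Mi))) =
          dex2_ep ((al, be) ::ₘ (be', ga) ::ₘ (al', b) ::ₘ (b', ga') ::ₘ (R0 + Mi)) := by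
        simp only [dex2_ep_cons]
        simp only [← Multiset.singleton_add]
        abel
      rw [h1]
      exact hPW
    have s2 : JJ m d δ ((be', al') ::ₘ (ga, b) ::ₘ ((al, b') ::ₘ (be, ga') ::ₘ (R0 + Mi))) ≤
        JJ m d δ ((be', ga) ::ₘ (al', b) ::ₘ ((al, b') ::ₘ (be, ga') ::ₘ (R0 + Mi))) - 2 * δ := by
      refine dex2_resolve hm hd hδ hy _ ?_
      have h1 : dex2_ep ((be', ga) ::ₘ (al', b) ::ₘ ((al, b') ::ₘ (be, ga') ::ₘ (R0 + Mi))) =
          dex2_ep ((al, be) ::ₘ (be', ga) ::ₘ (al', b) ::ₘ (b', ga') ::ₘ (R0 + Mi)) := by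
        simp only [dex2_ep_cons]
        simp only [← Multiset.singleton_add]
        abel
      rw [h1]
      exact hPW
    have c1 : JJ m d δ ((al, be) ::ₘ (b', ga') ::ₘ ((be', ga) ::ₘ (al', b) ::ₘ (R0 + Mi))) =
        JJ m d δ ((al, be) ::ₘ (be', ga) ::ₘ (al', b) ::ₘ (b', ga') ::ₘ (R0 + Mi)) := by
      congr 1
      simp only [← Multiset.singleton_add]
      abel
    have c2 : JJ m d δ ((be', ga) ::ₘ (al', b) ::ₘ ((al, b') ::ₘ (be, ga') ::ₘ (R0 + Mi))) =
        JJ m d δ ((al, b') ::ₘ (be, ga') ::ₘ ((be', ga) ::ₘ (al', b) ::ₘ (R0 + Mi))) := by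
      congr 1
      simp only [← Multiset.singleton_add]
      abel
    have c3 : JJ m d δ ((al, b') ::ₘ (b + 2 * m, ga) ::ₘ (al', be') ::ₘ (be + 2 * m, ga') ::ₘ
          (R0 + ((mid m (rv m B) : Multiset (ℝ × ℝ)) + (mid m (rv m B') : Multiset (ℝ × ℝ))))) =
        JJ m d δ ((be', al') ::ₘ (ga, b) ::ₘ ((al, b') ::ₘ (be, ga') ::ₘ (R0 + Mi))) := by
      apply dex2_JJ_congr hm hd
      have h1 : Multiset.map (nfc m) ((mid m (rv m B') : List (ℝ × ℝ)) : Multiset (ℝ × ℝ)) =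
          Multiset.map (nfc m) ((mid m B' : List (ℝ × ℝ)) : Multiset (ℝ × ℝ)) := mid_rv hm B'
      have h2 : Multiset.map (nfc m) ((mid m (rv m B) : List (ℝ × ℝ)) : Multiset (ℝ × ℝ)) =
          Multiset.map (nfc m) ((mid m B : List (ℝ × ℝ)) : Multiset (ℝ × ℝ)) := mid_rv hm B
      rw [hMi]
      simp only [Multiset.map_cons, Multiset.map_add]
      rw [nfc_per1 hm, nfc_per1 hm, nfc_swap ga b, nfc_swap al' be', h1, h2]
      simp only [← Multiset.singleton_add]
      abel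
    linarith

end H47A
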