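import Pool.Agent.Lib.H47A.DFam

/-! # H47A, chunk DEX2 (M): one chord of the loop i crosses two chords of the loop j
l i = A ++ C, l j = A' ++ B' ++ C', B' nonempty of even length; al = en A, ga = head of C or i + m, al' = en A', b = head B',
b' = last B' + m, ga' = head of C' or j + m. The chord (al,ga) crosses (al',b) and (b',ga') which do not cross each other.
`special_order` (a = al, c = ga, a' = al', b = b, b' = b', c' = ga'): either il (al',ga) (b',ga') = -1 or il (ga,ga') (al',b) = -1.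
CASE 1: new loops A ++ B' ++ C at i and A' ++ C' at j; chords (al,b),(b',ga),(al',ga') instead of (al,ga),(al',b),(b',ga').
`resolve` {(al,ga),(b,al')} -> {(al,b),(ga,al')}, then {(al',ga),(ga',b')} -> {(al',ga'),(ga,b')}.
CASE 2: new loops A ++ rv B' ++ C at i and A' ++ C' at j; chords (al,b'),(b+2m,ga),(al',ga') (and `mid_rv`).
`resolve` {(al,ga),(b',ga')} -> {(al,b'),(ga,ga')}, then {(ga,ga'),(b,al')} -> {(ga,b),(ga',al')}. -/

open Real Finset

namespace H47A

variable {m : ℕ} {d : ℝ → ℝ → ℝ} {δ : ℝ} {l : Fin m → List ℝ}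

/-- the end points of the chords -/
noncomputable def dex2_ep (C : Multiset (ℝ × ℝ)) : Multiset ℝ := C.bind fun p => {p.1, p.2}

theorem dex2_ep_add (C D : Multiset (ℝ × ℝ)) : dex2_ep (C + D) = dex2_ep C + dex2_ep D := by
  unfold dex2_ep
  rw [Multiset.add_bind]

theorem dex2_ep_cons (p : ℝ × ℝ) (D : Multiset (ℝ × ℝ)) : dex2_ep (p ::ₘ D) = p.1 ::ₘ p.2 ::ₘ dex2_ep D := by
  unfold dex2_ep
  rw [Multiset.cons_bind]
  show (p.1 ::ₘ {p.2}) + _ = _
  rw [Multiset.cons_add, Multiset.singleton_add]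

instance dex2_symm : Std.Symm (Nd m) := ⟨fun _ _ h => h.symm⟩

instance dex2_nq_symm : Std.Symm (Nq m) := ⟨fun _ _ h => h.symm⟩

theorem dex2_pw_cons (a : ℝ) (M : Multiset ℝ) : Multiset.Pairwise (Nd m) (a ::ₘ M) ↔
    (∀ b ∈ M, Nd m a b) ∧ Multiset.Pairwise (Nd m) M := by
  induction M using Quotient.inductionOn with
  | h L =>
    show Multiset.Pairwise (Nd m) (a ::ₘ (L : Multiset ℝ)) ↔
      (∀ b ∈ (L : Multiset ℝ), Nd m a b) ∧ Multiset.Pairwise (Nd m) (L : Multiset ℝ)
    rw [Multiset.cons_coe, Multiset.pairwise_coe_iff_pairwise,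
      Multiset.pairwise_coe_iff_pairwise, List.pairwise_cons]
    simp

theorem dex2_pw_add (M N : Multiset ℝ) : Multiset.Pairwise (Nd m) (M + N) ↔
    Multiset.Pairwise (Nd m) M ∧ Multiset.Pairwise (Nd m) N ∧ ∀ a ∈ M, ∀ b ∈ N, Nd m a b := by
  induction M using Quotient.inductionOn with
  | h L =>
    induction N using Quotient.inductionOn with
    | h L' =>
      show Multiset.Pairwise (Nd m) ((L : Multiset ℝ) + (L' : Multiset ℝ)) ↔
        Multiset.Pairwise (Nd m) (L : Multiset ℝ) ∧ Multiset.Pairwise (Nd m) (L' : Multiset ℝ) ∧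
          ∀ a ∈ (L : Multiset ℝ), ∀ b ∈ (L' : Multiset ℝ), Nd m a b
      rw [Multiset.coe_add, Multiset.pairwise_coe_iff_pairwise,
        Multiset.pairwise_coe_iff_pairwise, Multiset.pairwise_coe_iff_pairwise,
        List.pairwise_append]
      simp

theorem dex2_ep_chs (a : ℝ) (l : List ℝ) (b : ℝ) :
    dex2_ep ((chs m a l b : List (ℝ × ℝ)) : Multiset (ℝ × ℝ)) =
      ((a :: b :: (l ++ l.map (· + (m : ℝ))) : List ℝ) : Multiset ℝ) := by
  induction l generalizing a with
  | nil =>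
    show dex2_ep (((a, b) :: [] : List (ℝ × ℝ)) : Multiset (ℝ × ℝ)) = _
    rw [← Multiset.cons_coe, dex2_ep_cons]
    rfl
  | cons y l ih =>
    show dex2_ep (((a, y) :: chs m (y + m) l b : List (ℝ × ℝ)) : Multiset (ℝ × ℝ)) = _
    rw [← Multiset.cons_coe, dex2_ep_cons, ih]
    show (((a :: y :: (y + m) :: b :: (l ++ l.map (· + (m : ℝ)))) : List ℝ) : Multiset ℝ) =
      ((a :: b :: (y :: l ++ (y + m) :: l.map (· + (m : ℝ))) : List ℝ) : Multiset ℝ)
    rw [Multiset.coe_eq_coe]
    refine List.Perm.cons _ ?_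
    have h1 : (y :: l ++ (y + m) :: l.map (· + (m : ℝ))).Perm (y :: (y + m) :: (l ++ l.map (· + (m : ℝ)))) := by
      refine List.Perm.cons _ ?_
      exact List.perm_middle
    refine List.Perm.trans ?_ (List.Perm.cons b h1).symm
    refine List.Perm.trans (List.Perm.cons y (List.Perm.swap b (y + m) _)) ?_
    exact List.Perm.swap b y _

/-- the raw chords of a set of loops -/
noncomputable def dex2_raw (m : ℕ) (l : Fin m → List ℝ) (S : Finset (Fin m)) : Multiset (ℝ × ℝ) :=
  ∑ k ∈ S, ((lp m l k : List (ℝ × ℝ)) : Multiset (ℝ × ℝ))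

theorem dex2_ep_lp (l : Fin m → List ℝ) (k : Fin m) :
    dex2_ep ((lp m l k : List (ℝ × ℝ)) : Multiset (ℝ × ℝ)) = ((ends m (k : ℕ) (l k) : List ℝ) : Multiset ℝ) := by
  unfold lp ends
  rw [dex2_ep_chs]

theorem dex2_mem_raw {S : Finset (Fin m)} {x : ℝ} (hx : x ∈ dex2_ep (dex2_raw m l S)) :
    ∃ k ∈ S, x ∈ ends m (k : ℕ) (l k) := by
  classical
  induction S using Finset.induction_on with
  | empty =>
    unfold dex2_raw dex2_ep at hx
    simp at hx
  | insert k S hk ih =>
    unfold dex2_raw at hx ih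
    rw [Finset.sum_insert hk, dex2_ep_add, Multiset.mem_add, dex2_ep_lp] at hx
    rcases hx with h | h
    · exact ⟨k, Finset.mem_insert_self _ _, by simpa using h⟩
    · obtain ⟨j, hj, hjx⟩ := ih h
      exact ⟨j, Finset.mem_insert_of_mem hj, hjx⟩

theorem dex2_pw_raw (hm : 0 < m) (hl : GenFam m l) (S : Finset (Fin m)) :
    Multiset.Pairwise (Nd m) (dex2_ep (dex2_raw m l S)) := by
  classical
  induction S using Finset.induction_on with
  | empty =>
    unfold dex2_raw dex2_ep
    simp only [Finset.sum_empty, Multiset.zero_bind]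
    exact Multiset.pairwise_zero _
  | insert k S hk ih =>
    have h0 : dex2_raw m l (insert k S) = ((lp m l k : List (ℝ × ℝ)) : Multiset (ℝ × ℝ)) + dex2_raw m l S := by
      unfold dex2_raw
      rw [Finset.sum_insert hk]
    rw [h0, dex2_ep_add, dex2_pw_add]
    refine ⟨?_, ih, ?_⟩
    · rw [dex2_ep_lp, Multiset.pairwise_coe_iff_pairwise]
      exact ends_pairwise hm hl k
    · intro a ha b hb
      rw [dex2_ep_lp] at ha
      obtain ⟨j, hj, hjb⟩ := dex2_mem_raw hb
      refine ends_ne hm hl (i := k) (j := j) ?_ a b (by simpa using ha) hjb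
      rintro rfl
      exact hk hj

theorem dex2_JJ_raw (hm : 0 < m) (hd : IsMonge m d) (l : Fin m → List ℝ) :
    JJ m d δ (allc m l) = JJ m d δ (dex2_raw m l univ) := by
  rw [← JJ_nfc hm hd (dex2_raw m l univ)]
  congr 1
  unfold allc dex2_raw
  have h := map_sum (Multiset.mapAddMonoidHom (nfc m)) (fun k => ((lp m l k : List (ℝ × ℝ)) : Multiset (ℝ × ℝ))) univ
  rw [Multiset.coe_mapAddMonoidHom] at h
  rw [h]
  rfl

theorem dex2_JJ_congr (hm : 0 < m) (hd : IsMonge m d) {C D : Multiset (ℝ × ℝ)} (h : C.map (nfc m) = D.map (nfc m)) :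
    JJ m d δ C = JJ m d δ D := by
  rw [← JJ_nfc hm hd C, ← JJ_nfc hm hd D, h]

/-- `resolve` with the position conditions from the list of end points -/
theorem dex2_resolve (hm : 0 < m) (hd : IsMonge m d) (hδ : 0 ≤ δ) {p q r s : ℝ}
    (h : il m p q r s = -1) (R : Multiset (ℝ × ℝ))
    (hP : Multiset.Pairwise (Nd m) (dex2_ep ((p, q) ::ₘ (r, s) ::ₘ R))) :
    JJ m d δ ((p, r) ::ₘ (q, s) ::ₘ R) ≤ JJ m d δ ((p, q) ::ₘ (r, s) ::ₘ R) - 2 * δ := by
  rw [dex2_ep_cons, dex2_ep_cons, dex2_pw_cons, dex2_pw_cons, dex2_pw_cons, dex2_pw_cons] at hP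
  obtain ⟨h1, h2, h3, h4, h5⟩ := hP
  have hmem : ∀ u ∈ R, u.1 ∈ dex2_ep R ∧ u.2 ∈ dex2_ep R := by
    intro u hu
    unfold dex2_ep
    rw [Multiset.mem_bind, Multiset.mem_bind]
    exact ⟨⟨u, hu, by simp⟩, ⟨u, hu, by simp⟩⟩
  have hoff : ∀ x : ℝ, (∀ b ∈ dex2_ep R, Nd m x b) → Off m x R := by
    intro x hx u hu
    exact ⟨hx _ (hmem u hu).1, hx _ (hmem u hu).2⟩
  refine resolve hm hd hδ h (h1 _ (by simp)) (h3 _ (by simp)) (h1 _ (by simp)) (h1 _ (by simp)) (h2 _ (by simp))
    (h2 _ (by simp)) R ?_ ?_ ?_ ?_ ?_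
  · intro u hu
    obtain ⟨R', hR'⟩ := Multiset.exists_cons_of_mem hu
    rw [hR', dex2_ep_cons, dex2_pw_cons] at h5
    exact h5.1 _ (by simp)
  · exact hoff p fun b hb => h1 b (by simp [hb])
  · exact hoff q fun b hb => h2 b (by simp [hb])
  · exact hoff r fun b hb => h3 b (by simp [hb])
  · exact hoff s fun b hb => h4 b (by simp [hb])

theorem dex2_raw_two {i j : Fin m} (hij : i ≠ j) (l : Fin m → List ℝ) :
    dex2_raw m l univ = ((lp m l i : List (ℝ × ℝ)) : Multiset (ℝ × ℝ)) +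
      ((lp m l j : List (ℝ × ℝ)) : Multiset (ℝ × ℝ)) + dex2_raw m l ((univ.erase i).erase j) := by
  unfold dex2_raw
  rw [← Finset.add_sum_erase univ _ (Finset.mem_univ i),
    ← Finset.add_sum_erase (univ.erase i) _ (Finset.mem_erase.2 ⟨Ne.symm hij, Finset.mem_univ j⟩), add_assoc]

theorem dex2_raw_upd {i j : Fin m} (hij : i ≠ j) (l : Fin m → List ℝ) (l' l'' : List ℝ) :
    dex2_raw m (Function.update (Function.update l i l') j l'') univ =
      ((chs m (i : ℕ) l' ((i : ℕ) + m) : List (ℝ × ℝ)) : Multiset (ℝ × ℝ)) +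
      ((chs m (j : ℕ) l'' ((j : ℕ) + m) : List (ℝ × ℝ)) : Multiset (ℝ × ℝ)) +
      dex2_raw m l ((univ.erase i).erase j) := by
  rw [dex2_raw_two hij]
  have e1 : lp m (Function.update (Function.update l i l') j l'') i = chs m (i : ℕ) l' ((i : ℕ) + m) := by
    unfold lp
    rw [Function.update_of_ne hij, Function.update_self]
  have e2 : lp m (Function.update (Function.update l i l') j l'') j = chs m (j : ℕ) l'' ((j : ℕ) + m) := by
    unfold lp
    rw [Function.update_self]
  rw [e1, e2]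
  congr 1
  unfold dex2_raw
  refine Finset.sum_congr rfl fun k hk => ?_
  have hk1 : k ≠ j := (Finset.mem_erase.1 hk).1
  have hk2 : k ≠ i := (Finset.mem_erase.1 (Finset.mem_erase.1 hk).2).1
  unfold lp
  rw [Function.update_of_ne hk1, Function.update_of_ne hk2]

theorem dex2_nq_shift {x y : ℝ} (h : Nq m x y) : Nq m (x + m) y := by
  intro k hk
  apply h (k - 1)
  push_cast
  linarith

theorem dex2_nq_rv (A B D : List ℝ) (h : (A ++ B ++ D).Pairwise (Nq m)) : (A ++ rv m B ++ D).Pairwise (Nq m) := by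
  rw [List.append_assoc, List.pairwise_append, List.pairwise_append] at h ⊢
  obtain ⟨h1, ⟨h2, h3, h4⟩, h5⟩ := h
  have hmem : ∀ y ∈ rv m B, ∃ z ∈ B, y = z + m := by
    intro y hy
    unfold rv at hy
    rw [List.mem_map] at hy
    obtain ⟨z, hz, hzy⟩ := hy
    exact ⟨z, List.mem_reverse.1 hz, hzy.symm⟩
  refine ⟨h1, ⟨?_, h3, ?_⟩, ?_⟩
  · unfold rv
    rw [List.pairwise_map, List.pairwise_reverse]
    refine h2.imp fun {a b} hab => ?_
    intro k hk
    apply hab.symm k
    linarith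
  · intro a ha b hb
    obtain ⟨z, hz, rfl⟩ := hmem a ha
    exact dex2_nq_shift (h4 z hz b hb)
  · intro a ha b hb
    rw [List.mem_append] at hb
    rcases hb with hb | hb
    · obtain ⟨z, hz, rfl⟩ := hmem b hb
      exact (dex2_nq_shift (h5 a ha z (List.mem_append_left _ hz)).symm).symm
    · exact h5 a ha b (List.mem_append_right _ hb)

theorem exch_special (hm : 0 < m) (hd : IsMonge m d) (hδ : 0 ≤ δ) (hl : GenFam m l) {i j : Fin m} (hij : i ≠ j)
    (A C A' B' C' : List ℝ) (hB' : B' ≠ []) (hi : l i = A ++ C) (hj : l j = A' ++ B' ++ C')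
    (hpar : Even B'.length)
    (hx : il m (en m (i : ℕ) A) (C.headD ((i : ℕ) + m)) (en m (j : ℕ) A') (B'.headD 0) = -1)
    (hy : il m (en m (i : ℕ) A) (C.headD ((i : ℕ) + m)) (B'.getLastD 0 + m) (C'.headD ((j : ℕ) + m)) = -1)
    (hz : il m (en m (j : ℕ) A') (B'.headD 0) (B'.getLastD 0 + m) (C'.headD ((j : ℕ) + m)) = 1) :
    ∃ l' : Fin m → List ℝ, GenFam m l' ∧ JJ m d δ (allc m l') ≤ JJ m d δ (allc m l) - 2 * δ := by
  classical
  obtain ⟨al, hal⟩ : ∃ x, x = en m (i : ℕ) A := ⟨_, rfl⟩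
  obtain ⟨ga, hga⟩ : ∃ x, x = C.headD ((i : ℕ) + m) := ⟨_, rfl⟩
  obtain ⟨al', hal'⟩ : ∃ x, x = en m (j : ℕ) A' := ⟨_, rfl⟩
  obtain ⟨b, hb⟩ : ∃ x, x = B'.headD 0 := ⟨_, rfl⟩
  obtain ⟨b', hb'⟩ : ∃ x, x = B'.getLastD 0 + m := ⟨_, rfl⟩
  obtain ⟨ga', hga'⟩ : ∃ x, x = C'.headD ((j : ℕ) + m) := ⟨_, rfl⟩
  rw [← hal, ← hga, ← hal', ← hb] at hx
  rw [← hal, ← hga, ← hb', ← hga'] at hy
  rw [← hal', ← hb, ← hb', ← hga'] at hz
  -- the old chords
  obtain ⟨R0, hR0⟩ : ∃ R0 : Multiset (ℝ × ℝ), R0 = (pre m (i : ℕ) A : Multiset (ℝ × ℝ)) +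
    (post m C ((i : ℕ) + m) : Multiset (ℝ × ℝ)) + (pre m (j : ℕ) A' : Multiset (ℝ × ℝ)) +
    (post m C' ((j : ℕ) + m) : Multiset (ℝ × ℝ)) + dex2_raw m l ((univ.erase i).erase j) := ⟨_, rfl⟩
  obtain ⟨Mi, hMi⟩ : ∃ Mi : Multiset (ℝ × ℝ), Mi = (mid m B' : Multiset (ℝ × ℝ)) := ⟨_, rfl⟩
  have hold : dex2_raw m l univ = (al, ga) ::ₘ (al', b) ::ₘ (b', ga') ::ₘ (R0 + Mi) := by
    rw [dex2_raw_two hij]
    unfold lp
    rw [hi, hj, chs_split0, chs_split _ _ _ _ _ hB', ← hal, ← hga, ← hal', ← hb, ← hb', ← hga', hR0, hMi]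
    simp only [← Multiset.coe_add, Multiset.coe_singleton, ← Multiset.singleton_add]
    abel
  have hPW := dex2_pw_raw hm hl univ
  rw [hold] at hPW
  -- the distinctness of the end points
  have hN : ∀ z w : ℝ, ∀ u v : Fin 6, z = ![al, ga, al', b, b', ga'] u → w = ![al, ga, al', b, b', ga'] v →
      u ≠ v → Nd m z w := by
    have h1 := hPW
    rw [dex2_ep_cons, dex2_ep_cons, dex2_ep_cons, dex2_pw_cons, dex2_pw_cons, dex2_pw_cons, dex2_pw_cons,
      dex2_pw_cons, dex2_pw_cons] at h1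
    obtain ⟨k1, k2, k3, k4, k5, -⟩ := h1
    have a1 := k1 ga (by simp)
    have a2 := k1 al' (by simp)
    have a3 := k1 b (by simp)
    have a4 := k1 b' (by simp)
    have a5 := k1 ga' (by simp)
    have b1 := k2 al' (by simp)
    have b2 := k2 b (by simp)
    have b3 := k2 b' (by simp)
    have b4 := k2 ga' (by simp)
    have c1 := k3 b (by simp)
    have c2 := k3 b' (by simp)
    have c3 := k3 ga' (by simp)
    have d1 := k4 b' (by simp)
    have d2 := k4 ga' (by simp)
    have e1 := k5 ga' (by simp)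
    intro z w u v hzu hwv huv
    rw [hzu, hwv]
    fin_cases u <;> fin_cases v <;> first
      | exact absurd rfl huv
      | assumption
      | (apply Nd.symm; assumption)
  have hso := special_order hm hN hx hy hz
  -- the combinatorics of the breakpoints
  have hperm : ((A ++ B' ++ C) ++ (A' ++ C')).Pairwise (Nq m) := by
    have h1 : (l i ++ l j).Pairwise (Nq m) := by
      rw [List.pairwise_append]
      exact ⟨hl.nq i, hl.nq j, hl.nq' i j hij⟩
    rw [← Multiset.pairwise_coe_iff_pairwise] at h1 ⊢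
    have h2 : (((A ++ B' ++ C) ++ (A' ++ C') : List ℝ) : Multiset ℝ) = ((l i ++ l j : List ℝ) : Multiset ℝ) := by
      rw [hi, hj]
      simp only [← Multiset.coe_add]
      abel
    rw [h2]
    exact h1
  have heven_i : Even (A.length + C.length) := by
    have := hl.even i
    rw [hi, List.length_append] at this
    exact this
  have heven_j : Even (A'.length + C'.length) := by
    have h1 := hl.even j
    rw [hj, List.length_append, List.length_append] at h1
    have h2 : Even ((A'.length + C'.length) + B'.length) := by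
      rw [show (A'.length + C'.length) + B'.length = A'.length + B'.length + C'.length by ring]
      exact h1
    exact (Nat.even_add.1 h2).2 hpar
  rcases hso with hc | hc
  · -- case 1
    refine ⟨Function.update (Function.update l i (A ++ B' ++ C)) j (A' ++ C'), ?_, ?_⟩
    · refine genFam_update2 hm hl hij _ _ ?_ ?_ hperm ?_
      · rw [List.length_append, List.length_append,
          show A.length + B'.length + C.length = (A.length + C.length) + B'.length by ring]
        exact heven_i.add hpar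
      · rw [List.length_append]; exact heven_j
      · intro y hy
        refine ⟨y, ?_, 0, by simp⟩
        rw [hi, hj]
        simp only [List.mem_append] at hy ⊢
        tauto
    · rw [dex2_JJ_raw hm hd, dex2_JJ_raw hm hd l, dex2_raw_upd hij, hold]
      have hnew : ((chs m (i : ℕ) (A ++ B' ++ C) ((i : ℕ) + m) : List (ℝ × ℝ)) : Multiset (ℝ × ℝ)) +
          ((chs m (j : ℕ) (A' ++ C') ((j : ℕ) + m) : List (ℝ × ℝ)) : Multiset (ℝ × ℝ)) +
          dex2_raw m l ((univ.erase i).erase j) =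
          (al, b) ::ₘ (b', ga) ::ₘ (al', ga') ::ₘ (R0 + Mi) := by
        rw [chs_split0 (j : ℕ), chs_split _ _ _ _ _ hB', ← hal, ← hga, ← hal', ← hb, ← hb', ← hga', hR0, hMi]
        simp only [← Multiset.coe_add, Multiset.coe_singleton, ← Multiset.singleton_add]
        abel
      rw [hnew]
      -- first resolution
      have s1 : JJ m d δ ((al, b) ::ₘ (ga, al') ::ₘ ((b', ga') ::ₘ (R0 + Mi))) ≤
          JJ m d δ ((al, ga) ::ₘ (b, al') ::ₘ ((b', ga') ::ₘ (R0 + Mi))) - 2 * δ := by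
        refine dex2_resolve hm hd hδ (by rw [il_swap']; exact hx) _ ?_
        have h1 : dex2_ep ((al, ga) ::ₘ (b, al') ::ₘ ((b', ga') ::ₘ (R0 + Mi))) =
            dex2_ep ((al, ga) ::ₘ (al', b) ::ₘ ((b', ga') ::ₘ (R0 + Mi))) := by
          simp only [dex2_ep_cons]
          rw [Multiset.cons_swap b al']
        rw [h1]
        exact hPW
      have s2 : JJ m d δ ((al', ga') ::ₘ (ga, b') ::ₘ ((al, b) ::ₘ (R0 + Mi))) ≤
          JJ m d δ ((al', ga) ::ₘ (ga', b') ::ₘ ((al, b) ::ₘ (R0 + Mi))) - 2 * δ := by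
        refine dex2_resolve hm hd hδ (by rw [il_swap']; exact hc) _ ?_
        have h1 : dex2_ep ((al', ga) ::ₘ (ga', b') ::ₘ ((al, b) ::ₘ (R0 + Mi))) =
            dex2_ep ((al, ga) ::ₘ (al', b) ::ₘ ((b', ga') ::ₘ (R0 + Mi))) := by
          simp only [dex2_ep_cons]
          simp only [← Multiset.singleton_add]
          abel
        rw [h1]
        exact hPW
      have c1 : JJ m d δ ((al, ga) ::ₘ (b, al') ::ₘ ((b', ga') ::ₘ (R0 + Mi))) =
          JJ m d δ ((al, ga) ::ₘ (al', b) ::ₘ (b', ga') ::ₘ (R0 + Mi)) := by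
        apply dex2_JJ_congr hm hd
        simp only [Multiset.map_cons]
        rw [nfc_swap al' b]
      have c2 : JJ m d δ ((al', ga) ::ₘ (ga', b') ::ₘ ((al, b) ::ₘ (R0 + Mi))) =
          JJ m d δ ((al, b) ::ₘ (ga, al') ::ₘ ((b', ga') ::ₘ (R0 + Mi))) := by
        apply dex2_JJ_congr hm hd
        simp only [Multiset.map_cons]
        rw [nfc_swap al' ga, nfc_swap b' ga']
        simp only [← Multiset.singleton_add]
        abel
      have c3 : JJ m d δ ((al, b) ::ₘ (b', ga) ::ₘ (al', ga') ::ₘ (R0 + Mi)) =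
          JJ m d δ ((al', ga') ::ₘ (ga, b') ::ₘ ((al, b) ::ₘ (R0 + Mi))) := by
        apply dex2_JJ_congr hm hd
        simp only [Multiset.map_cons]
        rw [nfc_swap b' ga]
        simp only [← Multiset.singleton_add]
        abel
      linarith
  · -- case 2
    refine ⟨Function.update (Function.update l i (A ++ rv m B' ++ C)) j (A' ++ C'), ?_, ?_⟩
    · refine genFam_update2 hm hl hij _ _ ?_ ?_ ?_ ?_
      · rw [List.length_append, List.length_append, rv_length,
          show A.length + B'.length + C.length = (A.length + C.length) + B'.length by ring]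
        exact heven_i.add hpar
      · rw [List.length_append]; exact heven_j
      · rw [List.append_assoc (A ++ rv m B')]
        apply dex2_nq_rv
        rw [← List.append_assoc (A ++ B')]
        exact hperm
      · intro y hy
        rw [hi, hj]
        simp only [List.mem_append] at hy ⊢
        rcases hy with ((h | h) | h) | (h | h)
        · exact ⟨y, Or.inl (Or.inl h), 0, by simp⟩
        · unfold rv at h
          rw [List.mem_map] at h
          obtain ⟨z, hz, hzy⟩ := h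
          exact ⟨z, Or.inr (Or.inl (Or.inr (List.mem_reverse.1 hz))), 1, by rw [← hzy]; push_cast; ring⟩
        · exact ⟨y, Or.inl (Or.inr h), 0, by simp⟩
        · exact ⟨y, Or.inr (Or.inl (Or.inl h)), 0, by simp⟩
        · exact ⟨y, Or.inr (Or.inr h), 0, by simp⟩
    · rw [dex2_JJ_raw hm hd, dex2_JJ_raw hm hd l, dex2_raw_upd hij, hold]
      have hrvne : rv m B' ≠ [] := by
        intro h
        have := congrArg List.length h
        rw [rv_length] at this
        exact hB' (List.length_eq_zero_iff.1 (by simpa using this))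
      have hnew : ((chs m (i : ℕ) (A ++ rv m B' ++ C) ((i : ℕ) + m) : List (ℝ × ℝ)) : Multiset (ℝ × ℝ)) +
          ((chs m (j : ℕ) (A' ++ C') ((j : ℕ) + m) : List (ℝ × ℝ)) : Multiset (ℝ × ℝ)) +
          dex2_raw m l ((univ.erase i).erase j) =
          (al, b') ::ₘ (b + 2 * m, ga) ::ₘ (al', ga') ::ₘ (R0 + (mid m (rv m B') : Multiset (ℝ × ℝ))) := by
        rw [chs_split0 (j : ℕ), chs_split _ _ _ _ _ hrvne, rv_head B' hB', rv_last B' hB', ← hal, ← hga, ← hal',
          ← hb, ← hb', ← hga', hR0, show b + m + m = b + 2 * m by ring]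
        simp only [← Multiset.coe_add, Multiset.coe_singleton, ← Multiset.singleton_add]
        abel
      rw [hnew]
      have s1 : JJ m d δ ((al, b') ::ₘ (ga, ga') ::ₘ ((al', b) ::ₘ (R0 + Mi))) ≤
          JJ m d δ ((al, ga) ::ₘ (b', ga') ::ₘ ((al', b) ::ₘ (R0 + Mi))) - 2 * δ := by
        refine dex2_resolve hm hd hδ hy _ ?_
        have h1 : dex2_ep ((al, ga) ::ₘ (b', ga') ::ₘ ((al', b) ::ₘ (R0 + Mi))) =
            dex2_ep ((al, ga) ::ₘ (al', b) ::ₘ ((b', ga') ::ₘ (R0 + Mi))) := by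
          simp only [dex2_ep_cons]
          simp only [← Multiset.singleton_add]
          abel
        rw [h1]
        exact hPW
      have s2 : JJ m d δ ((ga, b) ::ₘ (ga', al') ::ₘ ((al, b') ::ₘ (R0 + Mi))) ≤
          JJ m d δ ((ga, ga') ::ₘ (b, al') ::ₘ ((al, b') ::ₘ (R0 + Mi))) - 2 * δ := by
        refine dex2_resolve hm hd hδ (by rw [il_swap']; exact hc) _ ?_
        have h1 : dex2_ep ((ga, ga') ::ₘ (b, al') ::ₘ ((al, b') ::ₘ (R0 + Mi))) =
            dex2_ep ((al, ga) ::ₘ (al', b) ::ₘ ((b', ga') ::ₘ (R0 + Mi))) := by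
          simp only [dex2_ep_cons]
          simp only [← Multiset.singleton_add]
          abel
        rw [h1]
        exact hPW
      have c1 : JJ m d δ ((al, ga) ::ₘ (b', ga') ::ₘ ((al', b) ::ₘ (R0 + Mi))) =
          JJ m d δ ((al, ga) ::ₘ (al', b) ::ₘ (b', ga') ::ₘ (R0 + Mi)) := by
        congr 1
        simp only [← Multiset.singleton_add]
        abel
      have c2 : JJ m d δ ((ga, ga') ::ₘ (b, al') ::ₘ ((al, b') ::ₘ (R0 + Mi))) =
          JJ m d δ ((al, b') ::ₘ (ga, ga') ::ₘ ((al', b) ::ₘ (R0 + Mi))) := by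
        apply dex2_JJ_congr hm hd
        simp only [Multiset.map_cons]
        rw [nfc_swap al' b]
        simp only [← Multiset.singleton_add]
        abel
      have c3 : JJ m d δ ((al, b') ::ₘ (b + 2 * m, ga) ::ₘ (al', ga') ::ₘ (R0 + (mid m (rv m B') : Multiset (ℝ × ℝ)))) =
          JJ m d δ ((ga, b) ::ₘ (ga', al') ::ₘ ((al, b') ::ₘ (R0 + Mi))) := by
        apply dex2_JJ_congr hm hd
        have h1 : Multiset.map (nfc m) ((mid m (rv m B') : List (ℝ × ℝ)) : Multiset (ℝ × ℝ)) = Multiset.map (nfc m) Mi := by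
          rw [hMi]
          exact mid_rv hm B'
        simp only [Multiset.map_cons, Multiset.map_add]
        rw [nfc_per1 hm, nfc_swap ga b, nfc_swap al' ga', h1]
        simp only [← Multiset.singleton_add]
        abel
      linarith

end H47A
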