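import Pool.Agent.Lib.H47A.DDefs

/-! # H47A, chunk DRES (M): resolving a crossing
`monge'`: by periodicity (d and il are 2m-periodic in every variable: first `per` iterated, also in the second variable by symm)
move q, r, s into (p, p + 2m); il = -1 means that exactly one of r, s lies between p and q (`il_eq` or directly from the definition:
C(p - .) = 0 and C(q - .) = 1 or 0). If r < q < s: `monge` for p < r < q < s gives d p r + d q s <= d p q + d r s. If s < q < r:
`monge` (second part) for p < s < q < r: d p r + d s q <= d p q + d s r.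
`resolve`: the length part by `monge'`; the crossing part: W(C) = sum over ordered pairs. Write C = {a,b} + R. By bilinearity
W = chi a a + chi b b + 2 chi a b + 2 sum_{u in R} (chi a u + chi b u) + W(R) (chi symmetric for different points: `il_symm`;
for a, b themselves il a b = il b a). chi a a = 1 (`il_self`). For the new pair: chi' = 0 (`cross_resolve`), own terms 1 + 1 and for
u in R: chi (p,r) u + chi (q,s) u <= chi (p,q) u + chi (r,s) u (`cross_monge`). So W drops by at least 2, JJ by at least 2 δ. -/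

open Real Finset

namespace H47A

variable {m : ℕ}

theorem dres_fr0 (hm : 0 < m) (x : ℝ) : 0 ≤ fr m x := by
  have hm0 : (0 : ℝ) < m := by exact_mod_cast hm
  unfold fr
  have h := Int.floor_le (x / (2 * m))
  have h2 : (⌊x / (2 * m)⌋ : ℝ) * (2 * m) ≤ x := by
    rwa [le_div_iff₀ (by positivity)] at h
  linarith

theorem dres_fr1 (hm : 0 < m) (x : ℝ) : fr m x < 2 * m := by
  have hm0 : (0 : ℝ) < m := by exact_mod_cast hm
  unfold fr
  have h := Int.lt_floor_add_one (x / (2 * m))
  have h2 : x < (⌊x / (2 * m)⌋ + 1 : ℝ) * (2 * m) := by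
    rwa [div_lt_iff₀ (by positivity)] at h
  linarith

theorem dres_pern {d : ℝ → ℝ → ℝ} (hd : IsMonge m d) (x y : ℝ) (k : ℤ) : d (x + 2 * m * k) y = d x y := by
  induction k using Int.induction_on with
  | zero => simp
  | succ k ih =>
    rw [← ih, ← hd.per (x + 2 * m * (k : ℤ)) y]
    congr 1
    push_cast
    ring
  | pred k ih =>
    rw [← ih, ← hd.per (x + 2 * m * ((-(k : ℤ) - 1 : ℤ) : ℝ)) y]
    congr 1
    push_cast
    ring

theorem dres_d {d : ℝ → ℝ → ℝ} (hd : IsMonge m d) (x y : ℝ) : d x y = d (fr m x) (fr m y) := by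
  have h1 : ∀ x y : ℝ, d (fr m x) y = d x y := by
    intro x y
    have h := dres_pern hd (fr m x) y ⌊x / (2 * m)⌋
    rw [← h]
    congr 1
    unfold fr
    ring
  rw [h1, hd.symm, ← h1 y x, hd.symm]

theorem monge' (hm : 0 < m) {d : ℝ → ℝ → ℝ} (hd : IsMonge m d) {p q r s : ℝ} (h : il m p q r s = -1)
    (h0 : Nd m p q) (h0' : Nd m r s) (h1 : Nd m p r) (h2 : Nd m p s) (h3 : Nd m q r) (h4 : Nd m q s) :
    d p r + d q s ≤ d p q + d r s := by
  have hm0 : (0 : ℝ) < m := by exact_mod_cast hm
  rw [dres_d hd p r, dres_d hd q s, dres_d hd p q, dres_d hd r s]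
  rw [il_eq hm] at h
  unfold ob at h
  have g1 := fr_ne hm h1
  have g2 := fr_ne hm h2
  have g3 := fr_ne hm h3
  have g4 := fr_ne hm h4
  obtain ⟨P, hP⟩ : ∃ P, P = fr m p := ⟨_, rfl⟩
  obtain ⟨Q, hQ⟩ : ∃ Q, Q = fr m q := ⟨_, rfl⟩
  obtain ⟨R, hR⟩ : ∃ R, R = fr m r := ⟨_, rfl⟩
  obtain ⟨S, hS⟩ : ∃ S, S = fr m s := ⟨_, rfl⟩
  have P0 : 0 ≤ P := by rw [hP]; exact dres_fr0 hm p
  have Q0 : 0 ≤ Q := by rw [hQ]; exact dres_fr0 hm q
  have R0 : 0 ≤ R := by rw [hR]; exact dres_fr0 hm r
  have S0 : 0 ≤ S := by rw [hS]; exact dres_fr0 hm s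
  have P1 : P < 2 * m := by rw [hP]; exact dres_fr1 hm p
  have Q1 : Q < 2 * m := by rw [hQ]; exact dres_fr1 hm q
  have R1 : R < 2 * m := by rw [hR]; exact dres_fr1 hm r
  have S1 : S < 2 * m := by rw [hS]; exact dres_fr1 hm s
  rw [← hP, ← hQ, ← hR, ← hS] at h ⊢
  rw [← hP, ← hR] at g1
  rw [← hP, ← hS] at g2
  rw [← hQ, ← hR] at g3
  rw [← hQ, ← hS] at g4
  have sy1 := hd.symm P Q
  have sy2 := hd.symm P R
  have sy3 := hd.symm P S
  have sy4 := hd.symm Q R
  have sy5 := hd.symm Q S
  have sy6 := hd.symm R S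
  rcases lt_or_gt_of_ne g1 with a1 | a1 <;> rcases lt_or_gt_of_ne g2 with a2 | a2 <;>
    rcases lt_or_gt_of_ne g3 with a3 | a3 <;> rcases lt_or_gt_of_ne g4 with a4 | a4 <;>
    simp only [a1, a2, a3, a4, a1.not_gt, a2.not_gt, a3.not_gt, a4.not_gt, if_true, if_false] at h <;>
    norm_num at h
  all_goals first
    | (have k := hd.monge P R Q S (by linarith) (by linarith) (by linarith) (by linarith); linarith [k.1, k.2])
    | (have k := hd.monge R Q S P (by linarith) (by linarith) (by linarith) (by linarith); linarith [k.1, k.2])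
    | (have k := hd.monge Q S P R (by linarith) (by linarith) (by linarith) (by linarith); linarith [k.1, k.2])
    | (have k := hd.monge S P R Q (by linarith) (by linarith) (by linarith) (by linarith); linarith [k.1, k.2])
    | (have k := hd.monge P S Q R (by linarith) (by linarith) (by linarith) (by linarith); linarith [k.1, k.2])
    | (have k := hd.monge S Q R P (by linarith) (by linarith) (by linarith) (by linarith); linarith [k.1, k.2])
    | (have k := hd.monge Q R P S (by linarith) (by linarith) (by linarith) (by linarith); linarith [k.1, k.2])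
    | (have k := hd.monge R P S Q (by linarith) (by linarith) (by linarith) (by linarith); linarith [k.1, k.2])

/-- All end points of the chords of a multiset differ from `x` modulo `2m`. -/
def Off (m : ℕ) (x : ℝ) (R : Multiset (ℝ × ℝ)) : Prop := ∀ u ∈ R, Nd m x u.1 ∧ Nd m x u.2

theorem dres_chi_symm (hm : 0 < m) {p q r s : ℝ} (h1 : Nd m p r) (h2 : Nd m p s) (h3 : Nd m q r)
    (h4 : Nd m q s) : chi m (p, q) (r, s) = chi m (r, s) (p, q) := by
  unfold chi
  rw [il_symm hm h1 h2 h3 h4]

/-- the total crossing weight of two chords and the rest -/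
theorem dres_expand (a b : ℝ × ℝ) (R : Multiset (ℝ × ℝ)) :
    ((a ::ₘ b ::ₘ R).map fun p => ((a ::ₘ b ::ₘ R).map fun q => chi m p q).sum).sum =
      chi m a a + chi m a b + chi m b a + chi m b b + (R.map fun u => chi m a u + chi m b u).sum +
      (R.map fun u => chi m u a + chi m u b).sum + (R.map fun p => (R.map fun q => chi m p q).sum).sum := by
  simp only [Multiset.map_cons, Multiset.sum_cons, Multiset.sum_map_add]
  ring

theorem resolve (hm : 0 < m) {d : ℝ → ℝ → ℝ} (hd : IsMonge m d) {δ : ℝ} (hδ : 0 ≤ δ) {p q r s : ℝ}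
    (h : il m p q r s = -1) (h0 : Nd m p q) (h0' : Nd m r s) (h1 : Nd m p r) (h2 : Nd m p s) (h3 : Nd m q r)
    (h4 : Nd m q s) (R : Multiset (ℝ × ℝ)) (hR : ∀ u ∈ R, Nd m u.1 u.2)
    (hp : Off m p R) (hq : Off m q R) (hr : Off m r R) (hs : Off m s R) :
    JJ m d δ ((p, r) ::ₘ (q, s) ::ₘ R) ≤ JJ m d δ ((p, q) ::ₘ (r, s) ::ₘ R) - 2 * δ := by
  have hc : chi m (p, q) (r, s) = 1 := by
    unfold chi
    rw [h]; norm_num
  have hself : ∀ x y : ℝ, Nd m x y → chi m (x, y) (x, y) = 1 := by
    intro x y hxy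
    unfold chi
    rw [il_self hm hxy]; norm_num
  have hc' : chi m (p, r) (q, s) = 0 := by
    unfold chi
    rw [cross_resolve hm h h0 h0' h1 h2 h3 h4]; norm_num
  have e1 : chi m (r, s) (p, q) = 1 := by
    rw [← dres_chi_symm hm h1 h2 h3 h4]; exact hc
  have e2 : chi m (q, s) (p, r) = 0 := by
    rw [← dres_chi_symm hm h0 h2 h3.symm h0']; exact hc'
  have hmon := monge' hm hd h h0 h0' h1 h2 h3 h4
  have key : ∀ u ∈ R, chi m (p, r) u + chi m (q, s) u ≤ chi m (p, q) u + chi m (r, s) u := by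
    rintro ⟨x, y⟩ hu
    have k1 := hp _ hu
    have k2 := hq _ hu
    have k3 := hr _ hu
    have k4 := hs _ hu
    have k5 := hR _ hu
    have := cross_monge hm h h0 h0' h1 h2 h3 h4 k5 k1.1 k2.1 k3.1 k4.1 k1.2 k2.2 k3.2 k4.2
    unfold chi
    show (1 - il m p r x y) / 2 + (1 - il m q s x y) / 2 ≤ (1 - il m p q x y) / 2 + (1 - il m r s x y) / 2
    linarith
  have hsym : ∀ x y : ℝ, Off m x R → Off m y R → ∀ u ∈ R, chi m u (x, y) = chi m (x, y) u := by
    rintro x y hx hy ⟨z, w⟩ hu
    have k1 := hx _ hu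
    have k2 := hy _ hu
    exact (dres_chi_symm hm k1.1 k1.2 k2.1 k2.2).symm
  have s1 : (R.map fun u => chi m (p, r) u + chi m (q, s) u).sum ≤
      (R.map fun u => chi m (p, q) u + chi m (r, s) u).sum := Multiset.sum_map_le_sum_map _ _ key
  have s2 : (R.map fun u => chi m u (p, r) + chi m u (q, s)).sum ≤
      (R.map fun u => chi m u (p, q) + chi m u (r, s)).sum := by
    refine Multiset.sum_map_le_sum_map _ _ ?_
    intro u hu
    rw [hsym p r hp hr u hu, hsym q s hq hs u hu, hsym p q hp hq u hu, hsym r s hr hs u hu]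
    exact key u hu
  unfold JJ
  rw [dres_expand, dres_expand, hself p r h1, hself q s h4, hself p q h0, hself r s h0', hc, hc', e1, e2]
  simp only [Multiset.map_cons, Multiset.sum_cons]
  have s3 : δ * ((R.map fun u => chi m (p, r) u + chi m (q, s) u).sum +
      (R.map fun u => chi m u (p, r) + chi m u (q, s)).sum) ≤
      δ * ((R.map fun u => chi m (p, q) u + chi m (r, s) u).sum +
      (R.map fun u => chi m u (p, q) + chi m u (r, s)).sum) :=
    mul_le_mul_of_nonneg_left (add_le_add s1 s2) hδ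
  linarith

end H47A
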