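import Pool.Agent.Lib.H47A.DList
import Pool.Agent.Lib.H47A.DRes

/-! # H47A, chunk DFAM (M): families of loops, bookkeeping
`JJ_nfc`: both sums are invariant (`d_nfc`, `chi_nfc`, Multiset.map_map). `allc_split`: split off one or two indices of the sum.
`nd_ends`: the list of all end points of the chords of one loop i: i, the y and y + m for y in l i, and i + m. Two different
entries (as positions) differ modulo 2m: y - z for different positions is not in mZ; y + m - y = m is not in 2mZ; i - y is not an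
integer multiple of m as y is not an integer; i + m - i = m. For different loops in addition i - j is not in mZ (0 < |i-j| < m).
The statement is given for the pieces needed: `ends_pairwise`: the list ends m i l := i :: (i + m) :: l ++ l.map (· + m) is
Pairwise Nd for GenFam, and the lists for i != j are mutually Nd. `mem_ends`: every end point of a chord of lp belongs to that list. -/

open Real Finset

namespace H47A

variable {m : ℕ} {d : ℝ → ℝ → ℝ} {δ : ℝ} {l : Fin m → List ℝ}

/-- All end points of chords of a loop at `i` with breakpoints `l`. -/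
noncomputable def ends (m : ℕ) (i : ℝ) (l : List ℝ) : List ℝ := i :: (i + m) :: (l ++ l.map (· + (m : ℝ)))

theorem dfam_mem (a : ℝ) (l : List ℝ) (b : ℝ) (p : ℝ × ℝ) (hp : p ∈ chs m a l b) :
    (p.1 = a ∨ p.1 ∈ l.map (· + (m : ℝ))) ∧ (p.2 = b ∨ p.2 ∈ l) := by
  induction l generalizing a with
  | nil =>
    have h : p = (a, b) := by
      have : p ∈ [(a, b)] := hp
      simpa using this
    rw [h]
    exact ⟨Or.inl rfl, Or.inl rfl⟩
  | cons y l ih =>
    have h : p ∈ (a, y) :: chs m (y + m) l b := hp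
    rw [List.mem_cons] at h
    rcases h with h | h
    · rw [h]
      exact ⟨Or.inl rfl, Or.inr (by simp)⟩
    · obtain ⟨h1, h2⟩ := ih _ h
      refine ⟨Or.inr ?_, ?_⟩
      · rw [List.map_cons, List.mem_cons]
        exact h1
      · rcases h2 with h2 | h2
        · exact Or.inl h2
        · exact Or.inr (List.mem_cons_of_mem _ h2)

theorem mem_ends (i : ℝ) (l : List ℝ) (p : ℝ × ℝ) (hp : p ∈ chs m i l (i + m)) :
    p.1 ∈ ends m i l ∧ p.2 ∈ ends m i l := by
  obtain ⟨h1, h2⟩ := dfam_mem i l (i + m) p hp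
  unfold ends
  simp only [List.mem_cons, List.mem_append]
  constructor
  · rcases h1 with h1 | h1
    · exact Or.inl h1
    · exact Or.inr (Or.inr (Or.inr h1))
  · rcases h2 with h2 | h2
    · exact Or.inr (Or.inl h2)
    · exact Or.inr (Or.inr (Or.inl h2))

/-- shift by a multiple of m -/
theorem dfam_shift {x y : ℝ} (h : Nq m x y) (k : ℤ) : Nq m (x + m * k) y := by
  intro j hj
  apply h (j - k)
  push_cast
  linarith

theorem dfam_int (i : ℕ) {y : ℝ} (h : ∀ k : ℤ, y ≠ k) : Nq m (i : ℝ) y := by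
  intro k hk
  apply h ((i : ℤ) - m * k)
  push_cast
  linarith

theorem dfam_odd (hm : 0 < m) (x : ℝ) : Nd m x (x + m) := by
  have hm0 : (0 : ℝ) < m := by exact_mod_cast hm
  intro k hk
  have h1 : (m : ℝ) * (2 * k + 1) = 0 := by linarith
  have h2 : (2 * k + 1 : ℝ) = 0 := by
    rcases mul_eq_zero.1 h1 with h | h
    · exact absurd h hm0.ne'
    · exact h
  have h3 : (2 * k + 1 : ℤ) = 0 := by exact_mod_cast h2
  omega

theorem ends_pairwise (hm : 0 < m) (hl : GenFam m l) (i : Fin m) : (ends m (i : ℕ) (l i)).Pairwise (Nd m) := by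
  have hc : ∀ y ∈ l i, Nq m ((i : ℕ) : ℝ) y := fun y hy => dfam_int _ (hl.nv i y hy)
  have h1 : ∀ y ∈ l i, Nq m (((i : ℕ) : ℝ) + m) y := by
    intro y hy
    have := dfam_shift (hc y hy) 1
    simpa using this
  have hs : ∀ {x y : ℝ}, Nq m x y → Nq m x (y + m) := by
    intro x y hxy
    have := dfam_shift hxy.symm 1
    exact (by simpa using this : Nq m (y + m) x).symm
  unfold ends
  rw [List.pairwise_cons, List.pairwise_cons, List.pairwise_append]
  refine ⟨?_, ?_, ?_, ?_, ?_⟩
  · intro x hx
    rw [List.mem_cons, List.mem_append, List.mem_map] at hx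
    rcases hx with rfl | hx | ⟨y, hy, rfl⟩
    · exact dfam_odd hm _
    · exact (hc x hx).nd
    · exact (hs (hc y hy)).nd
  · intro x hx
    rw [List.mem_append, List.mem_map] at hx
    rcases hx with hx | ⟨y, hy, rfl⟩
    · exact (h1 x hx).nd
    · exact (hs (h1 y hy)).nd
  · exact (hl.nq i).imp fun {a b} hab => hab.nd
  · rw [List.pairwise_map]
    refine (hl.nq i).imp fun {a b} hab => ?_
    intro k hk
    apply hab.nd k
    linarith
  · have key : ∀ x ∈ l i, ∀ y ∈ l i, Nd m x (y + m) := by
      have hsym : Std.Symm (fun x y : ℝ => Nd m x (y + m)) := by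
        refine ⟨?_⟩
        intro x y hxy k hk
        apply hxy (-k - 1)
        push_cast
        linarith
      have hpw : (l i).Pairwise (fun x y : ℝ => Nd m x (y + m)) := (hl.nq i).imp fun {a b} hab => (hs hab).nd
      exact List.Pairwise.forall_of_forall (R := fun x y : ℝ => Nd m x (y + m)) (fun x _ => dfam_odd hm x) hpw
    intro a ha b hb
    rw [List.mem_map] at hb
    obtain ⟨y, hy, rfl⟩ := hb
    exact key a ha y hy

theorem ends_ne (hm : 0 < m) (hl : GenFam m l) {i j : Fin m} (hij : i ≠ j) (x y : ℝ)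
    (hx : x ∈ ends m (i : ℕ) (l i)) (hy : y ∈ ends m (j : ℕ) (l j)) : Nd m x y := by
  have hm0 : (0 : ℝ) < m := by exact_mod_cast hm
  have hf : ∀ (i : Fin m) (x : ℝ), x ∈ ends m (i : ℕ) (l i) →
      ∃ x0 : ℝ, ∃ k : ℤ, x = x0 + m * k ∧ (x0 = ((i : ℕ) : ℝ) ∨ x0 ∈ l i) := by
    intro i x hx
    unfold ends at hx
    rw [List.mem_cons, List.mem_cons, List.mem_append, List.mem_map] at hx
    rcases hx with rfl | rfl | hx | ⟨y, hy, rfl⟩
    · exact ⟨_, 0, by simp, Or.inl rfl⟩
    · exact ⟨_, 1, by simp, Or.inl rfl⟩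
    · exact ⟨_, 0, by simp, Or.inr hx⟩
    · exact ⟨_, 1, by simp, Or.inr hy⟩
  obtain ⟨x0, k, rfl, hx0⟩ := hf i x hx
  obtain ⟨y0, k', rfl, hy0⟩ := hf j y hy
  have key : Nq m x0 y0 := by
    rcases hx0 with rfl | hx0
    · rcases hy0 with rfl | hy0
      · intro n hn
        have h1 : ((i : ℕ) : ℤ) - ((j : ℕ) : ℤ) = m * n := by
          have : ((((i : ℕ) : ℤ) - ((j : ℕ) : ℤ) : ℤ) : ℝ) = ((m * n : ℤ) : ℝ) := by push_cast; linarith
          exact_mod_cast this
        have hi := i.2
        have hj := j.2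
        have hn0 : n = 0 := by
          by_contra hne
          rcases lt_or_gt_of_ne hne with h | h
          · have : (m : ℤ) * n ≤ -m := by nlinarith
            omega
          · have : (m : ℤ) ≤ m * n := by nlinarith
            omega
        rw [hn0] at h1
        apply hij
        apply Fin.ext
        omega
      · exact dfam_int _ (hl.nv j y0 hy0)
    · rcases hy0 with rfl | hy0
      · exact (dfam_int _ (hl.nv i x0 hx0)).symm
      · exact hl.nq' i j hij x0 hx0 y0 hy0
  exact (dfam_shift (dfam_shift key k).symm k').symm.nd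

theorem JJ_nfc (hm : 0 < m) (hd : IsMonge m d) (C : Multiset (ℝ × ℝ)) : JJ m d δ (C.map (nfc m)) = JJ m d δ C := by
  unfold JJ
  rw [Multiset.map_map, Multiset.map_map]
  have h1 : (C.map ((fun p : ℝ × ℝ => d p.1 p.2) ∘ nfc m)) = C.map fun p => d p.1 p.2 :=
    Multiset.map_congr rfl fun p _ => d_nfc hm hd p
  have h2 : (C.map ((fun p : ℝ × ℝ => ((C.map (nfc m)).map fun q => chi m p q).sum) ∘ nfc m)) =
      C.map fun p => (C.map fun q => chi m p q).sum := by
    refine Multiset.map_congr rfl fun p _ => ?_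
    show ((C.map (nfc m)).map fun q => chi m (nfc m p) q).sum = _
    rw [Multiset.map_map]
    congr 1
    exact Multiset.map_congr rfl fun q _ => chi_nfc hm p q
  rw [h1, h2]

/-- The chords of the loops other than `i`. -/
noncomputable def rest1 (m : ℕ) (l : Fin m → List ℝ) (i : Fin m) : Multiset (ℝ × ℝ) :=
  ∑ k ∈ univ.erase i, (((lp m l k).map (nfc m) : List (ℝ × ℝ)) : Multiset (ℝ × ℝ))

/-- The chords of the loops other than `i` and `j`. -/
noncomputable def rest2 (m : ℕ) (l : Fin m → List ℝ) (i j : Fin m) : Multiset (ℝ × ℝ) :=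
  ∑ k ∈ (univ.erase i).erase j, (((lp m l k).map (nfc m) : List (ℝ × ℝ)) : Multiset (ℝ × ℝ))

theorem allc_split1 (i : Fin m) :
    allc m l = (((lp m l i).map (nfc m) : List (ℝ × ℝ)) : Multiset (ℝ × ℝ)) + rest1 m l i := by
  unfold allc rest1
  rw [Finset.add_sum_erase univ (fun k => (((lp m l k).map (nfc m) : List (ℝ × ℝ)) : Multiset (ℝ × ℝ)))
    (Finset.mem_univ i)]

theorem allc_split2 {i j : Fin m} (hij : i ≠ j) :
    allc m l = (((lp m l i).map (nfc m) : List (ℝ × ℝ)) : Multiset (ℝ × ℝ)) +
      (((lp m l j).map (nfc m) : List (ℝ × ℝ)) : Multiset (ℝ × ℝ)) + rest2 m l i j := by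
  unfold allc rest2
  rw [add_assoc, Finset.add_sum_erase (univ.erase i)
    (fun k => (((lp m l k).map (nfc m) : List (ℝ × ℝ)) : Multiset (ℝ × ℝ)))
    (Finset.mem_erase.2 ⟨Ne.symm hij, Finset.mem_univ j⟩),
    Finset.add_sum_erase univ (fun k => (((lp m l k).map (nfc m) : List (ℝ × ℝ)) : Multiset (ℝ × ℝ)))
    (Finset.mem_univ i)]

theorem genFam_update (hm : 0 < m) (hl : GenFam m l) (i : Fin m) (l' : List ℝ) (he : Even l'.length)
    (hp : l'.Pairwise (Nq m)) (hsub : ∀ y ∈ l', ∃ z ∈ l i, ∃ k : ℤ, y = z + m * k) :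
    GenFam m (Function.update l i l') := by
  have hnv : ∀ y ∈ l', ∀ k : ℤ, y ≠ k := by
    intro y hy k hk
    obtain ⟨z, hz, j, hj⟩ := hsub y hy
    apply hl.nv i z hz (k - m * j)
    push_cast
    linarith
  have hnq : ∀ j, j ≠ i → ∀ y ∈ l', ∀ z ∈ l j, Nq m y z := by
    intro j hj y hy z hz
    obtain ⟨w, hw, k, rfl⟩ := hsub y hy
    exact dfam_shift (hl.nq' i j hj.symm w hw z hz) k
  refine ⟨?_, ?_, ?_, ?_⟩
  · intro j
    by_cases h : j = i
    · subst h
      rw [Function.update_self]; exact he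
    · rw [Function.update_of_ne h]; exact hl.even j
  · intro j
    by_cases h : j = i
    · subst h
      rw [Function.update_self]; exact hnv
    · rw [Function.update_of_ne h]; exact hl.nv j
  · intro j
    by_cases h : j = i
    · subst h
      rw [Function.update_self]; exact hp
    · rw [Function.update_of_ne h]; exact hl.nq j
  · intro j k hjk y hy z hz
    by_cases h : j = i
    · subst h
      rw [Function.update_self] at hy
      rw [Function.update_of_ne hjk.symm] at hz
      exact hnq k hjk.symm y hy z hz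
    · rw [Function.update_of_ne h] at hy
      by_cases h' : k = i
      · subst h'
        rw [Function.update_self] at hz
        exact (hnq j hjk z hz y hy).symm
      · rw [Function.update_of_ne h'] at hz
        exact hl.nq' j k hjk y hy z hz

theorem genFam_update2 (hm : 0 < m) (hl : GenFam m l) {i j : Fin m} (hij : i ≠ j) (l' l'' : List ℝ)
    (he : Even l'.length) (he' : Even l''.length) (hp : (l' ++ l'').Pairwise (Nq m))
    (hsub : ∀ y ∈ l' ++ l'', ∃ z ∈ l i ++ l j, ∃ k : ℤ, y = z + m * k) :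
    GenFam m (Function.update (Function.update l i l') j l'') := by
  rw [List.pairwise_append] at hp
  obtain ⟨p1, p2, p3⟩ := hp
  have hs1 : ∀ y ∈ l', ∃ z, (z ∈ l i ∨ z ∈ l j) ∧ ∃ k : ℤ, y = z + m * k := by
    intro y hy
    obtain ⟨z, hz, h⟩ := hsub y (List.mem_append_left _ hy)
    exact ⟨z, List.mem_append.1 hz, h⟩
  have hs2 : ∀ y ∈ l'', ∃ z, (z ∈ l i ∨ z ∈ l j) ∧ ∃ k : ℤ, y = z + m * k := by
    intro y hy
    obtain ⟨z, hz, h⟩ := hsub y (List.mem_append_right _ hy)
    exact ⟨z, List.mem_append.1 hz, h⟩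
  have hnv : ∀ y : ℝ, (∃ z, (z ∈ l i ∨ z ∈ l j) ∧ ∃ k : ℤ, y = z + m * k) → ∀ k : ℤ, y ≠ k := by
    rintro y ⟨z, hz, n, hn⟩ k hk
    have : ∀ k : ℤ, z ≠ k := by
      rcases hz with hz | hz
      · exact hl.nv i z hz
      · exact hl.nv j z hz
    apply this (k - m * n)
    push_cast
    linarith
  have hnq : ∀ y : ℝ, (∃ z, (z ∈ l i ∨ z ∈ l j) ∧ ∃ k : ℤ, y = z + m * k) → ∀ k, k ≠ i → k ≠ j →
      ∀ z ∈ l k, Nq m y z := by
    rintro y ⟨w, hw, n, rfl⟩ k hki hkj z hz
    apply dfam_shift
    rcases hw with hw | hw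
    · exact hl.nq' i k hki.symm w hw z hz
    · exact hl.nq' j k hkj.symm w hw z hz
  have u0 : ∀ k, k ≠ i → k ≠ j → Function.update (Function.update l i l') j l'' k = l k := by
    intro k hki hkj
    rw [Function.update_of_ne hkj, Function.update_of_ne hki]
  have u1 : Function.update (Function.update l i l') j l'' i = l' := by
    rw [Function.update_of_ne hij, Function.update_self]
  have u2 : Function.update (Function.update l i l') j l'' j = l'' := by
    rw [Function.update_self]
  have cas : ∀ k : Fin m, k = i ∨ k = j ∨ (k ≠ i ∧ k ≠ j) := by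
    intro k
    by_cases h : k = i
    · exact Or.inl h
    · by_cases h' : k = j
      · exact Or.inr (Or.inl h')
      · exact Or.inr (Or.inr ⟨h, h'⟩)
  refine ⟨?_, ?_, ?_, ?_⟩
  · intro k
    rcases cas k with rfl | rfl | ⟨h, h'⟩
    · rw [u1]; exact he
    · rw [u2]; exact he'
    · rw [u0 k h h']; exact hl.even k
  · intro k y hy
    rcases cas k with rfl | rfl | ⟨h, h'⟩
    · rw [u1] at hy; exact hnv y (hs1 y hy)
    · rw [u2] at hy; exact hnv y (hs2 y hy)
    · rw [u0 k h h'] at hy; exact hl.nv k y hy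
  · intro k
    rcases cas k with rfl | rfl | ⟨h, h'⟩
    · rw [u1]; exact p1
    · rw [u2]; exact p2
    · rw [u0 k h h']; exact hl.nq k
  · intro k n hkn y hy z hz
    rcases cas k with h | h | ⟨h, h'⟩
    · rw [h, u1] at hy
      rcases cas n with g | g | ⟨g, g'⟩
      · exact absurd (h.trans g.symm) hkn
      · rw [g, u2] at hz
        exact p3 y hy z hz
      · rw [u0 n g g'] at hz
        exact hnq y (hs1 y hy) n g g' z hz
    · rw [h, u2] at hy
      rcases cas n with g | g | ⟨g, g'⟩
      · rw [g, u1] at hz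
        exact (p3 z hz y hy).symm
      · exact absurd (h.trans g.symm) hkn
      · rw [u0 n g g'] at hz
        exact hnq y (hs2 y hy) n g g' z hz
    · rw [u0 k h h'] at hy
      rcases cas n with g | g | ⟨g, g'⟩
      · rw [g, u1] at hz
        exact (hnq z (hs1 z hz) k h h' y hy).symm
      · rw [g, u2] at hz
        exact (hnq z (hs2 z hz) k h h' y hy).symm
      · rw [u0 n g g'] at hz
        exact hl.nq' k n hkn y hy z hz

end H47A
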