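import Pool.Agent.Lib.H47A.DDefs

/-! # H47A, chunk DLIST (M): lists of chords
`chs_append`: induction on A. `chs_length`: induction. `pre`, `mid`, `post` decompose a path A ++ B ++ C (B nonempty) at the chords
entering and leaving B. `chs_split`: induction on A, then on B. `rv_*`: reversal. `mid_rv`: the chords of rv B are the reversed
chords of B shifted by 2m, so they have the same normal forms: induction with `List.reverse_append`, or from the statement for
`chs`: the multiset of normal forms of chs b (rv l) a equals the one of chs a l b (induction on l with `chs_append`; nfc (x + 2m, y) =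
nfc (x,y) = nfc (y,x)). `chi_nfc`, `d_nfc`: il and d are periodic and symmetric under swapping (`il_per*`, `il_swap*`). -/

open Real Finset

namespace H47A

variable {m : ℕ}

theorem chs_append (a : ℝ) (A : List ℝ) (y : ℝ) (C : List ℝ) (b : ℝ) :
    chs m a (A ++ y :: C) b = chs m a A y ++ chs m (y + m) C b := by
  induction A generalizing a with
  | nil => rfl
  | cons z A ih =>
    show (a, z) :: chs m (z + m) (A ++ y :: C) b = (a, z) :: (chs m (z + m) A y ++ chs m (y + m) C b)
    rw [ih]

theorem chs_length (a : ℝ) (l : List ℝ) (b : ℝ) : (chs m a l b).length = l.length + 1 := by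
  induction l generalizing a with
  | nil => rfl
  | cons z A ih =>
    show ((a, z) :: chs m (z + m) A b).length = _
    rw [List.length_cons, ih, List.length_cons]

/-- Start of the chord after the breakpoints `A`. -/
noncomputable def en (m : ℕ) (a : ℝ) (A : List ℝ) : ℝ := (A.map (· + (m : ℝ))).getLastD a

/-- The chords before the last one. -/
noncomputable def pre (m : ℕ) (a : ℝ) (A : List ℝ) : List (ℝ × ℝ) := (chs m a A 0).dropLast

/-- The chords strictly inside the breakpoints `B`. -/
noncomputable def mid (m : ℕ) (B : List ℝ) : List (ℝ × ℝ) := B.zipWith (fun y z => (y + (m : ℝ), z)) B.tail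

/-- The chords after the first one. -/
noncomputable def post (m : ℕ) (C : List ℝ) (b : ℝ) : List (ℝ × ℝ) := (chs m 0 C b).tail

theorem dlist_ne (a : ℝ) (l : List ℝ) (b : ℝ) : chs m a l b ≠ [] := by
  intro h
  have := chs_length (m := m) a l b
  rw [h] at this
  simp at this

theorem chs_en (a : ℝ) (A : List ℝ) (z : ℝ) : chs m a A z = pre m a A ++ [(en m a A, z)] := by
  induction A generalizing a with
  | nil => rfl
  | cons y A ih =>
    have h1 : pre m a (y :: A) = (a, y) :: pre m (y + m) A := by
      show ((a, y) :: chs m (y + m) A 0).dropLast = _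
      rw [List.dropLast_cons_of_ne_nil (dlist_ne _ _ _)]
      rfl
    have h2 : en m a (y :: A) = en m (y + m) A := by
      unfold en
      rw [List.map_cons, List.getLastD_cons]
    rw [h1, h2]
    show (a, y) :: chs m (y + m) A z = _
    rw [ih]
    rfl

theorem chs_hd (z : ℝ) (C : List ℝ) (b : ℝ) : chs m z C b = (z, C.headD b) :: post m C b := by
  cases C <;> rfl

theorem dlist_mid (y : ℝ) (B C : List ℝ) (b : ℝ) :
    chs m (y + m) (B ++ C) b = mid m (y :: B) ++ [((y :: B).getLastD 0 + m, C.headD b)] ++ post m C b := by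
  induction B generalizing y with
  | nil =>
    rw [List.nil_append, chs_hd]
    rfl
  | cons z B ih =>
    have h1 : mid m (y :: z :: B) = (y + (m : ℝ), z) :: mid m (z :: B) := rfl
    have h2 : (y :: z :: B).getLastD 0 = (z :: B).getLastD 0 := by
      rw [List.getLastD_cons, List.getLastD_cons, List.getLastD_cons]
    rw [h1, h2]
    show (y + (m : ℝ), z) :: chs m (z + m) (B ++ C) b = _
    rw [ih]
    simp only [List.cons_append]

theorem chs_split (a b : ℝ) (A B C : List ℝ) (hB : B ≠ []) :
    chs m a (A ++ B ++ C) b =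
      pre m a A ++ [(en m a A, B.headD 0)] ++ mid m B ++ [(B.getLastD 0 + m, C.headD b)] ++ post m C b := by
  obtain ⟨y, B', rfl⟩ := List.exists_cons_of_ne_nil hB
  rw [List.append_assoc, List.cons_append, chs_append, chs_en, dlist_mid]
  simp only [List.append_assoc, List.headD_cons]

theorem chs_split0 (a b : ℝ) (A C : List ℝ) :
    chs m a (A ++ C) b = pre m a A ++ [(en m a A, C.headD b)] ++ post m C b := by
  cases C with
  | nil =>
    rw [List.append_nil, chs_en]
    show _ = pre m a A ++ [(en m a A, b)] ++ []
    rw [List.append_nil]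
  | cons y C =>
    rw [chs_append, chs_en]
    rfl

theorem rv_length (l : List ℝ) : (rv m l).length = l.length := by
  unfold rv
  rw [List.length_map, List.length_reverse]

theorem rv_head (B : List ℝ) (hB : B ≠ []) : (rv m B).headD 0 = B.getLastD 0 + m := by
  rcases List.eq_nil_or_concat B with h | ⟨L, x, h⟩
  · exact absurd h hB
  · rw [h]
    unfold rv
    simp

theorem rv_last (B : List ℝ) (hB : B ≠ []) : (rv m B).getLastD 0 = B.headD 0 + m := by
  obtain ⟨y, B', rfl⟩ := List.exists_cons_of_ne_nil hB
  unfold rv
  simp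

theorem nfc_per1 (hm : 0 < m) (x y : ℝ) : nfc m (x + 2 * m, y) = nfc m (x, y) := by
  unfold nfc
  simp only [fr_add hm]

theorem nfc_per2 (hm : 0 < m) (x y : ℝ) : nfc m (x, y + 2 * m) = nfc m (x, y) := by
  unfold nfc
  simp only [fr_add hm]

theorem nfc_swap (x y : ℝ) : nfc m (y, x) = nfc m (x, y) := by
  unfold nfc
  rw [min_comm, max_comm]

theorem dlist_concat (L : List ℝ) (hL : L ≠ []) (w : ℝ) :
    mid m (L ++ [w]) = mid m L ++ [(L.getLastD 0 + m, w)] := by
  induction L with
  | nil => exact absurd rfl hL
  | cons x L ih =>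
    cases L with
    | nil => rfl
    | cons z L =>
      have h1 : mid m (x :: z :: L) = (x + (m : ℝ), z) :: mid m (z :: L) := rfl
      have h2 : (x :: z :: L).getLastD 0 = (z :: L).getLastD 0 := by
        rw [List.getLastD_cons, List.getLastD_cons, List.getLastD_cons]
      have h3 : mid m (x :: z :: L ++ [w]) = (x + (m : ℝ), z) :: mid m (z :: L ++ [w]) := rfl
      rw [h1, h2, h3, ih (by simp)]
      rfl

theorem mid_rv (hm : 0 < m) (B : List ℝ) :
    (((mid m (rv m B)).map (nfc m) : List (ℝ × ℝ)) : Multiset (ℝ × ℝ)) = ((mid m B).map (nfc m) : List (ℝ × ℝ)) := by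
  induction B with
  | nil => rfl
  | cons y B ih =>
    cases B with
    | nil => rfl
    | cons z B =>
      have h1 : mid m (y :: z :: B) = (y + (m : ℝ), z) :: mid m (z :: B) := rfl
      have h2 : rv m (y :: z :: B) = rv m (z :: B) ++ [y + (m : ℝ)] := by
        unfold rv
        rw [List.reverse_cons, List.map_append]
        rfl
      have h3 : rv m (z :: B) ≠ [] := by
        intro h4
        have := rv_length (m := m) (z :: B)
        rw [h4] at this
        simp at this
      have h5 : nfc m ((z : ℝ) + m + m, y + (m : ℝ)) = nfc m (y + (m : ℝ), z) := by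
        rw [show z + (m : ℝ) + m = z + 2 * m by ring, nfc_per1 hm, nfc_swap]
      rw [h1, h2, dlist_concat _ h3, rv_last _ (by simp), List.headD_cons, List.map_append,
        List.map_cons, List.map_cons, List.map_nil, h5, ← Multiset.coe_add, ih, ← Multiset.cons_coe,
        add_comm]
      rfl

theorem dlist_fr (hm : 0 < m) (x : ℝ) : fr m (fr m x) = fr m x := by
  have h : ∀ (q : ℤ) (x : ℝ), fr m (x - 2 * m * q) = fr m x := by
    have hm0 : (0 : ℝ) < m := by exact_mod_cast hm
    intro q x
    unfold fr
    have e : (x - 2 * m * q) / (2 * m) = x / (2 * m) - (q : ℤ) := by field_simp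
    rw [e, Int.floor_sub_intCast]
    push_cast
    ring
  exact h ⌊x / (2 * m)⌋ x

theorem dlist_d (hm : 0 < m) {d : ℝ → ℝ → ℝ} (hd : IsMonge m d) (x y : ℝ) : d (fr m x) y = d x y := by
  have hP : Function.Periodic (fun x => d x y) (2 * m) := fun x => hd.per x y
  have h1 := hP.sub_int_mul_eq (x := x) ⌊x / (2 * m)⌋
  unfold fr
  rw [mul_comm]
  exact h1

theorem d_nfc (hm : 0 < m) {d : ℝ → ℝ → ℝ} (hd : IsMonge m d) (p : ℝ × ℝ) :
    d (nfc m p).1 (nfc m p).2 = d p.1 p.2 := by
  have h1 : d (fr m p.1) (fr m p.2) = d p.1 p.2 := by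
    rw [dlist_d hm hd, hd.symm, dlist_d hm hd, hd.symm]
  unfold nfc
  rcases le_total (fr m p.1) (fr m p.2) with h | h
  · simp only [min_eq_left h, max_eq_right h]
    exact h1
  · simp only [min_eq_right h, max_eq_left h]
    rw [hd.symm]
    exact h1

theorem dlist_il (hm : 0 < m) (p q x y : ℝ) :
    il m (fr m p) (fr m q) (fr m x) (fr m y) = il m p q x y := by
  rw [il_eq hm, il_eq hm]
  unfold ob
  simp only [dlist_fr hm]

theorem chi_nfc (hm : 0 < m) (p q : ℝ × ℝ) : chi m (nfc m p) (nfc m q) = chi m p q := by
  have h1 := dlist_il hm p.1 p.2 q.1 q.2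
  unfold chi
  rw [← h1]
  unfold nfc
  rcases le_total (fr m p.1) (fr m p.2) with h | h <;>
    rcases le_total (fr m q.1) (fr m q.2) with h' | h'
  · simp only [min_eq_left h, max_eq_right h, min_eq_left h', max_eq_right h']
  · simp only [min_eq_left h, max_eq_right h, min_eq_right h', max_eq_left h']
    rw [il_swap']
  · simp only [min_eq_right h, max_eq_left h, min_eq_left h', max_eq_right h']
    rw [il_swap]
  · simp only [min_eq_right h, max_eq_left h, min_eq_right h', max_eq_left h']
    rw [il_swap, il_swap']

end H47A
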