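import Pool.Agent.Lib.H47A.DStep

/-! # H47A, chunk DMAIN (M): good families of loops
`generic`: every family of even lists can be perturbed to a GenFam with almost the same lengths: the length of chs is a continuous
function of the breakpoints (d continuous), and the breakpoints can be chosen one after the other in small intervals avoiding a
countable (locally finite) set: the integers and all z + mZ for the points z chosen before.
`uncross`: let ls i = infimum of the lengths of the even lists at i (>= 0 since d >= 0: 2 d x y >= d x x = 0); ls i <= L. By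
`generic` there is a GenFam F0 with lengths <= ls i + e/(2m). Choose δ > 0 with δ * (double chi sum of F0) <= e/2 - (adjust by the
diagonal terms; JJ F0 <= sum ls + e - small). Let I = infimum of JJ over all GenFam (>= 0). Choose F GenFam with JJ F < I + 2 δ and
JJ F <= JJ F0 (F0 itself if JJ F0 = I, otherwise below min(I + 2δ, JJ F0)). Then hmin of `step_simple`, `step_once` holds, and
sum of the lengths of F <= JJ F0 <= sum ls + e with every length >= ls i, so every length <= ls i + e <= L + e.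
(The chi sums are >= 0: chi in {0,1}. The lengths of the normal forms are the lengths: `d_nfc`.) -/

open Real Finset

namespace H47A

variable {m : ℕ} {d : ℝ → ℝ → ℝ}

theorem dmain_cont (hd : IsMonge m d) (L : List (ℝ × ℝ)) (a w b : ℝ) :
    Continuous fun t : ℝ => len d (chs m (a + t * w) (L.map fun p => p.1 + t * p.2) b) := by
  induction L generalizing a w with
  | nil =>
    have h : (fun t : ℝ => len d (chs m (a + t * w) (([] : List (ℝ × ℝ)).map fun p => p.1 + t * p.2) b)) =
        fun t => d (a + t * w) b := by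
      funext t
      change d (a + t * w) b + 0 = _
      rw [add_zero]
    rw [h]
    exact hd.cont.comp (f := fun t : ℝ => (a + t * w, b)) (by fun_prop)
  | cons p L ih =>
    have h : (fun t : ℝ => len d (chs m (a + t * w) ((p :: L).map fun p => p.1 + t * p.2) b)) =
        fun t => d (a + t * w) (p.1 + t * p.2) +
          len d (chs m ((p.1 + m) + t * p.2) (L.map fun p => p.1 + t * p.2) b) := by
      funext t
      have e : (p.1 + (m : ℝ)) + t * p.2 = p.1 + t * p.2 + m := by ring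
      rw [e]
      rfl
    rw [h]
    exact (hd.cont.comp (f := fun t : ℝ => (a + t * w, p.1 + t * p.2)) (by fun_prop)).add (ih _ _)

/-- The data of a perturbation of the loop `i`. -/
noncomputable def dmain_L (m : ℕ) (i : ℕ) (l : List ℝ) : List (ℝ × ℝ) :=
  l.zipIdx.map fun p => (p.1, ((i + m * p.2 + 1 : ℕ) : ℝ))

theorem dmain_len (i : ℕ) (l : List ℝ) : (dmain_L m i l).length = l.length := by
  unfold dmain_L
  rw [List.length_map, List.length_zipIdx]

theorem dmain_get (i : ℕ) (l : List ℝ) (k : ℕ) (hk : k < (dmain_L m i l).length) :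
    (dmain_L m i l)[k] = (l[k]'(by rw [← dmain_len (m := m) i l]; exact hk), ((i + m * k + 1 : ℕ) : ℝ)) := by
  have h : k < (l.zipIdx.map fun p => (p.1, ((i + m * p.2 + 1 : ℕ) : ℝ))).length := hk
  change (l.zipIdx.map fun p => (p.1, ((i + m * p.2 + 1 : ℕ) : ℝ)))[k]'h = _
  rw [List.getElem_map, List.getElem_zipIdx]
  simp

theorem dmain_zero (i : ℕ) (l : List ℝ) : (dmain_L m i l).map (fun p => p.1 + 0 * p.2) = l := by
  apply List.ext_getElem
  · rw [List.length_map, dmain_len]
  · intro k h1 h2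
    rw [List.getElem_map, dmain_get]
    simp

theorem dmain_bad1 (y w : ℝ) (hw : w ≠ 0) (c : ℝ) : {t : ℝ | ∃ k : ℤ, y + t * w = k * c}.Countable := by
  refine (Set.countable_range fun k : ℤ => (k * c - y) / w).mono ?_
  rintro t ⟨k, hk⟩
  refine ⟨k, ?_⟩
  change (k * c - y) / w = t
  rw [div_eq_iff hw]
  linarith

theorem dmain_wne {i j k k' : ℕ} (hi : i < m) (hj : j < m) (h : i ≠ j ∨ k ≠ k') :
    ((i + m * k + 1 : ℕ) : ℝ) - ((j + m * k' + 1 : ℕ) : ℝ) ≠ 0 := by
  intro h0
  have h1 : ((i + m * k + 1 : ℕ) : ℝ) = ((j + m * k' + 1 : ℕ) : ℝ) := by linarith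
  have h2 : i + m * k + 1 = j + m * k' + 1 := by exact_mod_cast h1
  have h3 : i + m * k = j + m * k' := by omega
  have h4 := congrArg (fun x => x % m) h3
  have h5 := congrArg (fun x => x / m) h3
  simp only [Nat.add_mul_mod_self_left, Nat.mod_eq_of_lt hi, Nat.mod_eq_of_lt hj] at h4
  have hm : 0 < m := by omega
  simp only [Nat.add_mul_div_left _ _ hm, Nat.div_eq_of_lt hi, Nat.div_eq_of_lt hj, zero_add] at h5
  rcases h with h | h
  · exact h h4
  · exact h h5

theorem generic (hm : 0 < m) (hd : IsMonge m d) (l : Fin m → List ℝ) (he : ∀ i, Even (l i).length) {ε : ℝ} (hε : 0 < ε) :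
    ∃ l' : Fin m → List ℝ, GenFam m l' ∧ ∀ i, len d (lp m l' i) ≤ len d (lp m l i) + ε := by
  -- the bad parameters
  let P : (i : Fin m) → ℕ → ℝ := fun i k => (l i).getD k 0
  let bad : Set ℝ := (⋃ i : Fin m, ⋃ k : ℕ, {t : ℝ | ∃ q : ℤ, P i k + t * ((i.1 + m * k + 1 : ℕ) : ℝ) = q * 1}) ∪
    ⋃ i : Fin m, ⋃ j : Fin m, ⋃ k : ℕ, ⋃ k' : ℕ, ⋃ _ : i.1 ≠ j.1 ∨ k ≠ k',
      {t : ℝ | ∃ q : ℤ, (P i k - P j k') + t * (((i.1 + m * k + 1 : ℕ) : ℝ) - ((j.1 + m * k' + 1 : ℕ) : ℝ)) = q * m}
  have hbad : bad.Countable := by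
    refine Set.Countable.union ?_ ?_
    · refine Set.countable_iUnion fun i => Set.countable_iUnion fun k => dmain_bad1 _ _ ?_ _
      positivity
    · refine Set.countable_iUnion fun i => Set.countable_iUnion fun j => Set.countable_iUnion fun k =>
        Set.countable_iUnion fun k' => Set.countable_iUnion fun hne => dmain_bad1 _ _ (dmain_wne i.2 j.2 hne) _
  let fam : ℝ → Fin m → List ℝ := fun t i => (dmain_L m i (l i)).map fun p => p.1 + t * p.2
  have hcont : ∀ i : Fin m, Continuous fun t : ℝ => len d (lp m (fam t) i) := by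
    intro i
    have h := dmain_cont hd (dmain_L m i (l i)) (i : ℕ) 0 ((i : ℕ) + m)
    have e : (fun t : ℝ => len d (lp m (fam t) i)) = fun t : ℝ =>
        len d (chs m (((i : ℕ) : ℝ) + t * 0) ((dmain_L m i (l i)).map fun p => p.1 + t * p.2) ((i : ℕ) + m)) := by
      funext t
      rw [mul_zero, add_zero]
      rfl
    rw [e]
    exact h
  have hzero : ∀ i, len d (lp m (fam 0) i) = len d (lp m l i) := by
    intro i
    have e : fam 0 i = l i := dmain_zero _ _
    unfold lp
    rw [e]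
  have hev : ∀ᶠ t in nhds (0 : ℝ), ∀ i, len d (lp m (fam t) i) < len d (lp m l i) + ε := by
    rw [Filter.eventually_all]
    intro i
    have h1 := (hcont i).continuousAt (x := 0)
    have h2 : len d (lp m (fam 0) i) < len d (lp m l i) + ε := by
      rw [hzero]
      linarith
    exact h1.eventually (gt_mem_nhds h2)
  obtain ⟨t, ht1, ht2⟩ := (hbad.dense_compl ℝ).inter_nhds_nonempty hev
  have hg1 : ∀ (i : Fin m) (k : ℕ) (q : ℤ), P i k + t * ((i.1 + m * k + 1 : ℕ) : ℝ) ≠ q := by
    intro i k q hq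
    apply ht1
    left
    rw [Set.mem_iUnion]
    refine ⟨i, ?_⟩
    rw [Set.mem_iUnion]
    exact ⟨k, q, by rw [mul_one]; exact hq⟩
  have hg2 : ∀ (i j : Fin m) (k k' : ℕ), i.1 ≠ j.1 ∨ k ≠ k' →
      Nq m (P i k + t * ((i.1 + m * k + 1 : ℕ) : ℝ)) (P j k' + t * ((j.1 + m * k' + 1 : ℕ) : ℝ)) := by
    intro i j k k' hne q hq
    apply ht1
    right
    rw [Set.mem_iUnion]
    refine ⟨i, ?_⟩
    rw [Set.mem_iUnion]
    refine ⟨j, ?_⟩
    rw [Set.mem_iUnion]
    refine ⟨k, ?_⟩
    rw [Set.mem_iUnion]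
    refine ⟨k', ?_⟩
    rw [Set.mem_iUnion]
    refine ⟨hne, q, ?_⟩
    rw [← hq]
    ring
  have hlen : ∀ i, (fam t i).length = (l i).length := by
    intro i
    change ((dmain_L m i (l i)).map _).length = _
    rw [List.length_map, dmain_len]
  have hget : ∀ (i : Fin m) (k : ℕ) (hk : k < (fam t i).length), (fam t i)[k] =
      P i k + t * ((i.1 + m * k + 1 : ℕ) : ℝ) := by
    intro i k hk
    have hk' : k < (l i).length := by rw [← hlen]; exact hk
    change ((dmain_L m i (l i)).map fun p => p.1 + t * p.2)[k]'hk = _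
    rw [List.getElem_map, dmain_get]
    change (l i)[k] + t * _ = (l i).getD k 0 + t * _
    rw [List.getD_eq_getElem _ _ hk']
  refine ⟨fam t, ⟨?_, ?_, ?_, ?_⟩, fun i => (ht2 i).le⟩
  · intro i
    rw [hlen]
    exact he i
  · intro i y hy q
    obtain ⟨k, hk, rfl⟩ := List.mem_iff_getElem.1 hy
    rw [hget]
    exact hg1 i k q
  · intro i
    rw [List.pairwise_iff_getElem]
    intro k k' hk hk' hkk
    rw [hget, hget]
    exact hg2 i i k k' (Or.inr hkk.ne)
  · intro i j hij y hy z hz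
    obtain ⟨k, hk, rfl⟩ := List.mem_iff_getElem.1 hy
    obtain ⟨k', hk', rfl⟩ := List.mem_iff_getElem.1 hz
    rw [hget, hget]
    exact hg2 i j k k' (Or.inl fun h => hij (Fin.ext h))

theorem dmain_d0 (hd : IsMonge m d) (x y : ℝ) : 0 ≤ d x y := by
  have h1 := hd.tri x y x
  rw [hd.self, hd.symm y x] at h1
  linarith

theorem dmain_len0 (hd : IsMonge m d) (L : List (ℝ × ℝ)) : 0 ≤ len d L := by
  unfold len
  apply List.sum_nonneg
  intro x hx
  obtain ⟨p, _, rfl⟩ := List.mem_map.1 hx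
  exact dmain_d0 hd _ _

/-- The double crossing sum. -/
noncomputable def dmain_W (m : ℕ) (C : Multiset (ℝ × ℝ)) : ℝ := (C.map fun p => (C.map fun q => chi m p q).sum).sum

theorem dmain_W0 (C : Multiset (ℝ × ℝ)) : 0 ≤ dmain_W m C := by
  unfold dmain_W
  apply Multiset.sum_nonneg
  intro x hx
  obtain ⟨p, _, rfl⟩ := Multiset.mem_map.1 hx
  apply Multiset.sum_nonneg
  intro y hy
  obtain ⟨q, _, rfl⟩ := Multiset.mem_map.1 hy
  unfold chi
  rcases il_pm (m := m) p.1 p.2 q.1 q.2 with h | h <;> rw [h] <;> norm_num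

theorem dmain_sum (l : Fin m → List ℝ) (S : Finset (Fin m)) :
    ((dex2_raw m l S).map fun p => d p.1 p.2).sum = ∑ k ∈ S, len d (lp m l k) := by
  classical
  induction S using Finset.induction_on with
  | empty =>
    unfold dex2_raw
    simp
  | insert k S hk ih =>
    have h0 : dex2_raw m l (insert k S) = ((lp m l k : List (ℝ × ℝ)) : Multiset (ℝ × ℝ)) + dex2_raw m l S := by
      unfold dex2_raw
      rw [Finset.sum_insert hk]
    rw [h0, Multiset.map_add, Multiset.sum_add, ih, Finset.sum_insert hk, Multiset.map_coe, Multiset.sum_coe]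
    rfl

theorem dmain_JJ (hm : 0 < m) (hd : IsMonge m d) (δ : ℝ) (l : Fin m → List ℝ) :
    JJ m d δ (allc m l) = ∑ i, len d (lp m l i) + δ * dmain_W m (dex2_raw m l univ) := by
  rw [dex2_JJ_raw hm hd, ← dmain_sum]
  rfl

theorem uncross (hm : 0 < m) (hd : IsMonge m d) (L : ℝ)
    (hL : ∀ i : Fin m, ∀ ε : ℝ, 0 < ε → ∃ l : List ℝ, Even l.length ∧ len d (chs m (i : ℕ) l ((i : ℕ) + m)) ≤ L + ε)
    {ε : ℝ} (hε : 0 < ε) :
    ∃ l : Fin m → List ℝ, GenFam m l ∧ (∀ i, len d (lp m l i) ≤ L + ε) ∧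
      (∀ (i : Fin m) (s t : ℕ), s ≤ (l i).length → t ≤ (l i).length → s ≠ t → xs m l i i s t = 1) ∧
      ∀ i j : Fin m, i ≠ j → ∃ s t, s ≤ (l i).length ∧ t ≤ (l j).length ∧ xs m l i j s t = -1 ∧
        ∀ s' t', s' ≤ (l i).length → t' ≤ (l j).length → (s', t') ≠ (s, t) → xs m l i j s' t' = 1 := by
  have hm0 : (0 : ℝ) < m := by exact_mod_cast hm
  -- the infima
  let A : Fin m → Set ℝ := fun i => {x | ∃ l : List ℝ, Even l.length ∧ len d (chs m (i : ℕ) l ((i : ℕ) + m)) = x}
  have hAbd : ∀ i, BddBelow (A i) := by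
    intro i
    refine ⟨0, ?_⟩
    rintro x ⟨l, _, rfl⟩
    exact dmain_len0 hd _
  have hAne : ∀ i, (A i).Nonempty := fun i => ⟨_, [], by simp, rfl⟩
  let ls : Fin m → ℝ := fun i => sInf (A i)
  have hls1 : ∀ (i : Fin m) (l : List ℝ), Even l.length → ls i ≤ len d (chs m (i : ℕ) l ((i : ℕ) + m)) :=
    fun i l hl => csInf_le (hAbd i) ⟨l, hl, rfl⟩
  have hls2 : ∀ i, ls i ≤ L := by
    intro i
    apply le_of_forall_pos_le_add
    intro η hη
    obtain ⟨l, hl, hlen⟩ := hL i η hη
    exact (hls1 i l hl).trans hlen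
  have hε4 : 0 < ε / (4 * m) := by positivity
  have hex : ∀ i : Fin m, ∃ l : List ℝ, Even l.length ∧ len d (chs m (i : ℕ) l ((i : ℕ) + m)) < ls i + ε / (4 * m) := by
    intro i
    obtain ⟨x, ⟨l, hl, rfl⟩, hx⟩ := exists_lt_of_csInf_lt (hAne i) (show sInf (A i) < ls i + ε / (4 * m) by
      change ls i < _
      linarith)
    exact ⟨l, hl, hx⟩
  choose l0 hl0 hl0' using hex
  obtain ⟨F0, hF0, hF0'⟩ := generic hm hd l0 hl0 hε4
  have hF0s : ∑ i, len d (lp m F0 i) ≤ ∑ i, ls i + ε / 2 := by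
    calc ∑ i, len d (lp m F0 i) ≤ ∑ i, (ls i + 2 * (ε / (4 * m))) := by
          refine Finset.sum_le_sum fun i _ => ?_
          have h1 := hF0' i
          have h2 : len d (lp m l0 i) < ls i + ε / (4 * m) := hl0' i
          linarith
      _ = ∑ i, ls i + ε / 2 := by
          rw [Finset.sum_add_distrib, Finset.sum_const, Finset.card_univ, Fintype.card_fin, nsmul_eq_mul]
          congr 1
          field_simp
          norm_num
  set W0 := dmain_W m (dex2_raw m F0 univ) with hW0
  have hW0' : 0 ≤ W0 := dmain_W0 _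
  set δ : ℝ := ε / (2 * (W0 + 1)) with hδdef
  have hδ : 0 < δ := by positivity
  have hδW : δ * W0 ≤ ε / 2 := by
    have h1 : δ * (W0 + 1) = ε / 2 := by
      rw [hδdef]
      field_simp
    nlinarith
  have hJ0 : JJ m d δ (allc m F0) ≤ ∑ i, ls i + ε := by
    rw [dmain_JJ hm hd, ← hW0]
    linarith
  -- the infimum of JJ
  let J : Set ℝ := {x | ∃ l : Fin m → List ℝ, GenFam m l ∧ JJ m d δ (allc m l) = x}
  have hJbd : BddBelow J := by
    refine ⟨0, ?_⟩
    rintro x ⟨l, _, rfl⟩
    rw [dmain_JJ hm hd]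
    have h1 : 0 ≤ ∑ i, len d (lp m l i) := Finset.sum_nonneg fun i _ => dmain_len0 hd _
    have h2 := mul_nonneg hδ.le (dmain_W0 (m := m) (dex2_raw m l univ))
    linarith
  have hJne : J.Nonempty := ⟨_, F0, hF0, rfl⟩
  obtain ⟨F, hF, hF1, hF2⟩ : ∃ F : Fin m → List ℝ, GenFam m F ∧ JJ m d δ (allc m F) < sInf J + 2 * δ ∧
      JJ m d δ (allc m F) ≤ JJ m d δ (allc m F0) := by
    by_cases hc : JJ m d δ (allc m F0) < sInf J + 2 * δ
    · exact ⟨F0, hF0, hc, le_rfl⟩
    · rw [not_lt] at hc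
      obtain ⟨x, ⟨F, hF, rfl⟩, hx⟩ := exists_lt_of_csInf_lt hJne (show sInf J < sInf J + 2 * δ by linarith)
      exact ⟨F, hF, hx, hx.le.trans hc⟩
  have hmin : ∀ l' : Fin m → List ℝ, GenFam m l' → ¬ JJ m d δ (allc m l') ≤ JJ m d δ (allc m F) - 2 * δ := by
    intro l' hl' h
    have h1 : sInf J ≤ JJ m d δ (allc m l') := csInf_le hJbd ⟨l', hl', rfl⟩
    linarith
  refine ⟨F, hF, ?_, ?_, ?_⟩
  · intro i
    have h1 : ∑ k, len d (lp m F k) ≤ ∑ k, ls k + ε := by
      have h2 := dmain_JJ hm hd δ F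
      have h3 := mul_nonneg hδ.le (dmain_W0 (m := m) (dex2_raw m F univ))
      linarith
    have h4 : ∀ k, ls k ≤ len d (lp m F k) := fun k => hls1 k (F k) (hF.even k)
    rw [← Finset.add_sum_erase univ _ (Finset.mem_univ i), ← Finset.add_sum_erase univ ls (Finset.mem_univ i)] at h1
    have h5 : ∑ k ∈ univ.erase i, ls k ≤ ∑ k ∈ univ.erase i, len d (lp m F k) := Finset.sum_le_sum fun k _ => h4 k
    have h6 := hls2 i
    linarith
  · intro i s t hs ht hst
    exact step_simple hm hd hδ.le hF hmin i s t hs ht hst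
  · intro i j hij
    exact step_once hm hd hδ.le hF hmin i j hij

end H47A
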