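import Pool.Agent.Lib.H47A.DFam

/-! # H47A, chunk DOPT (M): the 2-opt move
l i = A ++ B ++ C. Old chords of the loop i (`chs_split`): pre A, (al, be), mid B, (be', ga), post C with al = en A, be = head B,
be' = last B + m, ga = head of C or i + m. New loop A ++ rv B ++ C: pre A, (al, be'), mid (rv B), (be + 2m, ga), post C (`rv_head`,
`rv_last`). In normal form (`mid_rv`, `nfc_per1`) the multiset of all chords changes from {(al,be),(be',ga)} + R to
{(al,be'),(be,ga)} + R, with R the normal forms of pre A, mid B, post C and the other loops. `resolve` with p = al, q = be, r = be',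
s = ga (after `JJ_nfc`; the end points are different mod 2m by `ends_pairwise`, `ends_ne`, `mem_ends`; elements of R in normal form
have end points congruent mod 2m to those of the chords). `genFam_update`: rv B is a shifted permutation of B. -/

open Real Finset

namespace H47A

variable {m : ℕ} {d : ℝ → ℝ → ℝ} {δ : ℝ} {l : Fin m → List ℝ}

theorem dopt_nq {x y : ℝ} (a b : ℤ) (h : Nq m x y) : Nq m (x + m * a) (y + m * b) := by
  intro k hk
  apply h (k - a + b)
  push_cast
  linarith

theorem dopt_nq1 {x y : ℝ} (h : Nq m x y) : Nq m (x + m) y := by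
  have := dopt_nq 1 0 h
  simpa using this

theorem dopt_nq2 {x y : ℝ} (h : Nq m x y) : Nq m x (y + m) := by
  have := dopt_nq 0 1 h
  simpa using this

theorem dopt_pair {A B C : List ℝ} (h : (A ++ B ++ C).Pairwise (Nq m)) : (A ++ rv m B ++ C).Pairwise (Nq m) := by
  rw [List.pairwise_append, List.pairwise_append] at h ⊢
  obtain ⟨⟨hA, hB, hAB⟩, hC, hABC⟩ := h
  have hmem : ∀ y ∈ rv m B, ∃ z ∈ B, y = z + m := by
    intro y hy
    unfold rv at hy
    rw [List.mem_map] at hy
    obtain ⟨z, hz, rfl⟩ := hy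
    exact ⟨z, List.mem_reverse.mp hz, rfl⟩
  refine ⟨⟨hA, ?_, ?_⟩, hC, ?_⟩
  · unfold rv
    rw [List.pairwise_map, List.pairwise_reverse]
    exact hB.imp fun h => dopt_nq1 (dopt_nq2 h.symm)
  · intro a ha b hb
    obtain ⟨z, hz, rfl⟩ := hmem b hb
    exact dopt_nq2 (hAB a ha z hz)
  · intro a ha b hb
    rcases List.mem_append.mp ha with ha | ha
    · exact hABC a (List.mem_append_left _ ha) b hb
    · obtain ⟨z, hz, rfl⟩ := hmem a ha
      exact dopt_nq1 (hABC z (List.mem_append_right _ hz) b hb)

theorem dopt_flat (l : List ℝ) (a b : ℝ) :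
    ((chs m a l b).flatMap fun p => [p.1, p.2]).Perm (a :: b :: (l ++ l.map (· + (m : ℝ)))) := by
  induction l generalizing a with
  | nil => simp [chs]
  | cons y l ih =>
    unfold chs
    rw [List.flatMap_cons]
    have h1 := ih (y + m)
    have h2 : (a :: y :: ((chs m (y + m) l b).flatMap fun p => [p.1, p.2])).Perm
        (a :: y :: (y + m) :: b :: (l ++ l.map (· + (m : ℝ)))) := (h1.cons y).cons a
    refine h2.trans (List.Perm.cons a ?_)
    rw [← Multiset.coe_eq_coe]
    simp only [← Multiset.cons_coe, ← Multiset.coe_add, List.cons_append, List.map_cons]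
    simp only [← Multiset.singleton_add]
    abel

theorem dopt_chords (hm : 0 < m) (hl : GenFam m l) (i : Fin m) {L : List (ℝ × ℝ)} (hL : L.Perm (lp m l i)) :
    (L.flatMap fun p => [p.1, p.2]).Pairwise (Nd m) := by
  have h1 := ends_pairwise hm hl i
  have h2 : (L.flatMap fun p => [p.1, p.2]).Perm (ends m (i : ℕ) (l i)) :=
    (hL.flatMap_right _).trans (dopt_flat (l i) _ _)
  exact (h2.pairwise_iff (fun h => h.symm)).mpr h1

theorem dopt_own (hm : 0 < m) (hl : GenFam m l) (i : Fin m) (u : ℝ × ℝ) (hu : u ∈ lp m l i) : Nd m u.1 u.2 := by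
  have h1 := dopt_chords hm hl i (List.Perm.refl _)
  rw [List.pairwise_flatMap] at h1
  have h2 := h1.1 u hu
  simpa using h2

/-- The chords of the loops other than `i`, not in normal form. -/
noncomputable def doptRest (m : ℕ) (l : Fin m → List ℝ) (i : Fin m) : Multiset (ℝ × ℝ) :=
  ∑ k ∈ univ.erase i, ((lp m l k : List (ℝ × ℝ)) : Multiset (ℝ × ℝ))

theorem dopt_rest (i : Fin m) : rest1 m l i = (doptRest m l i).map (nfc m) := by
  unfold rest1 doptRest
  have := map_sum (Multiset.mapAddMonoidHom (nfc m)) (fun k => ((lp m l k : List (ℝ × ℝ)) : Multiset (ℝ × ℝ)))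
    (univ.erase i)
  rw [Multiset.coe_mapAddMonoidHom] at this
  rw [this]
  rfl

theorem dopt_rest_up (i : Fin m) (l' : List ℝ) : rest1 m (Function.update l i l') i = rest1 m l i := by
  unfold rest1
  refine Finset.sum_congr rfl fun k hk => ?_
  have hki : k ≠ i := Finset.ne_of_mem_erase hk
  unfold lp
  rw [Function.update_of_ne hki]

theorem dopt_mem_rest {i : Fin m} {u : ℝ × ℝ} (hu : u ∈ doptRest m l i) : ∃ k, k ≠ i ∧ u ∈ lp m l k := by
  unfold doptRest at hu
  rw [Multiset.mem_sum] at hu
  obtain ⟨k, hk, hu⟩ := hu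
  exact ⟨k, Finset.ne_of_mem_erase hk, hu⟩

theorem dopt_ends {i : Fin m} {u : ℝ × ℝ} (hu : u ∈ lp m l i) :
    u.1 ∈ ends m (i : ℕ) (l i) ∧ u.2 ∈ ends m (i : ℕ) (l i) := mem_ends _ _ u hu

theorem two_opt (hm : 0 < m) (hd : IsMonge m d) (hδ : 0 ≤ δ) (hl : GenFam m l) (i : Fin m) (A B C : List ℝ)
    (hB : B ≠ []) (hi : l i = A ++ B ++ C)
    (hx : il m (en m (i : ℕ) A) (B.headD 0) (B.getLastD 0 + m) (C.headD ((i : ℕ) + m)) = -1) :
    GenFam m (Function.update l i (A ++ rv m B ++ C)) ∧
      JJ m d δ (allc m (Function.update l i (A ++ rv m B ++ C))) ≤ JJ m d δ (allc m l) - 2 * δ := by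
  constructor
  · refine genFam_update hm hl i _ ?_ ?_ ?_
    · have h1 := hl.even i
      rw [hi] at h1
      simpa only [List.length_append, rv_length] using h1
    · have h1 := hl.nq i
      rw [hi] at h1
      exact dopt_pair h1
    · intro y hy
      rw [hi]
      rcases List.mem_append.mp hy with hy | hy
      · rcases List.mem_append.mp hy with hy | hy
        · exact ⟨y, by simp [hy], 0, by simp⟩
        · unfold rv at hy
          rw [List.mem_map] at hy
          obtain ⟨z, hz, rfl⟩ := hy
          exact ⟨z, by simp [List.mem_reverse.mp hz], 1, by simp⟩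
      · exact ⟨y, by simp [hy], 0, by simp⟩
  · have hrB : rv m B ≠ [] := by
      intro h0
      have := rv_length (m := m) B
      rw [h0] at this
      exact hB (List.length_eq_zero_iff.mp this.symm)
    obtain ⟨a, ha⟩ : ∃ a : ℝ, a = ((i : ℕ) : ℝ) := ⟨_, rfl⟩
    obtain ⟨b, hb⟩ : ∃ b : ℝ, b = a + m := ⟨_, rfl⟩
    rw [← ha, ← hb] at hx
    obtain ⟨al, hal⟩ : ∃ x : ℝ, x = en m a A := ⟨_, rfl⟩
    obtain ⟨be, hbe⟩ : ∃ x : ℝ, x = B.headD 0 := ⟨_, rfl⟩
    obtain ⟨be', hbe'⟩ : ∃ x : ℝ, x = B.getLastD 0 + m := ⟨_, rfl⟩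
    obtain ⟨ga, hga⟩ : ∃ x : ℝ, x = C.headD b := ⟨_, rfl⟩
    rw [← hal, ← hbe, ← hbe', ← hga] at hx
    -- the chords of the loop `i`
    have hlp : lp m l i = pre m a A ++ [(al, be)] ++ mid m B ++ [(be', ga)] ++ post m C b := by
      unfold lp
      rw [hi, ← ha, ← hb, chs_split a b A B C hB, ← hal, ← hbe, ← hbe', ← hga]
    have hlp' : lp m (Function.update l i (A ++ rv m B ++ C)) i =
        pre m a A ++ [(al, be')] ++ mid m (rv m B) ++ [(be + 2 * m, ga)] ++ post m C b := by
      unfold lp
      rw [Function.update_self, ← ha, ← hb, chs_split a b A (rv m B) C hrB, rv_head B hB, rv_last B hB, ← hal, ← hbe,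
        ← hbe', ← hga]
      congr 4
      ring
    obtain ⟨R0, hR0⟩ : ∃ R0 : Multiset (ℝ × ℝ), R0 = ((pre m a A ++ mid m B ++ post m C b : List (ℝ × ℝ)) :
        Multiset (ℝ × ℝ)) + doptRest m l i := ⟨_, rfl⟩
    have hold : allc m l = ((al, be) ::ₘ (be', ga) ::ₘ R0).map (nfc m) := by
      rw [allc_split1 i, hlp, dopt_rest, hR0]
      simp only [Multiset.map_add, Multiset.map_coe, List.map_append, ← Multiset.coe_add,
        List.map_cons, List.map_nil, ← Multiset.singleton_add, Multiset.coe_singleton,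
        Multiset.map_singleton]
      abel
    have hnew : allc m (Function.update l i (A ++ rv m B ++ C)) = ((al, be') ::ₘ (be, ga) ::ₘ R0).map (nfc m) := by
      rw [allc_split1 i, hlp', dopt_rest_up, dopt_rest, hR0]
      have h1 := mid_rv hm B
      simp only [Multiset.map_add, Multiset.map_coe, List.map_append, ← Multiset.coe_add,
        List.map_cons, List.map_nil, ← Multiset.singleton_add, Multiset.coe_singleton, h1,
        nfc_per1 hm, Multiset.map_singleton]
      abel
    rw [hold, hnew, JJ_nfc hm hd, JJ_nfc hm hd]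
    -- general position
    have hperm : ((al, be) :: (be', ga) :: (pre m a A ++ mid m B ++ post m C b)).Perm (lp m l i) := by
      rw [hlp, ← Multiset.coe_eq_coe]
      simp only [← Multiset.cons_coe, ← Multiset.coe_add, ← Multiset.singleton_add, Multiset.coe_singleton,
        Multiset.map_singleton]
      abel
    have hpw := dopt_chords hm hl i hperm
    simp only [List.flatMap_cons, List.cons_append, List.nil_append, List.pairwise_cons, List.mem_cons] at hpw
    obtain ⟨p1, p2, p3, p4, -⟩ := hpw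
    have hmemi : ∀ u ∈ ((al, be) :: (be', ga) :: (pre m a A ++ mid m B ++ post m C b)), u ∈ lp m l i :=
      fun u hu => hperm.mem_iff.mp hu
    have hfl : ∀ u ∈ (pre m a A ++ mid m B ++ post m C b), u.1 ∈ ((pre m a A ++ mid m B ++ post m C b).flatMap
        fun p => [p.1, p.2]) ∧ u.2 ∈ ((pre m a A ++ mid m B ++ post m C b).flatMap fun p => [p.1, p.2]) := by
      intro u hu
      exact ⟨List.mem_flatMap.mpr ⟨u, hu, by simp⟩, List.mem_flatMap.mpr ⟨u, hu, by simp⟩⟩
    have hoth : ∀ x, x ∈ ends m (i : ℕ) (l i) → ∀ u ∈ doptRest m l i, Nd m x u.1 ∧ Nd m x u.2 := by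
      intro x hx u hu
      obtain ⟨k, hk, hu⟩ := dopt_mem_rest hu
      have := dopt_ends hu
      exact ⟨ends_ne hm hl hk.symm x u.1 hx this.1, ends_ne hm hl hk.symm x u.2 hx this.2⟩
    have e1 := dopt_ends (hmemi (al, be) (by simp))
    have e2 := dopt_ends (hmemi (be', ga) (by simp))
    refine resolve hm hd hδ hx (p1 be (by simp)) (p3 ga (by simp)) (p1 be' (by simp)) (p1 ga (by simp))
      (p2 be' (by simp)) (p2 ga (by simp)) R0 ?_ ?_ ?_ ?_ ?_
    · intro u hu
      rw [hR0, Multiset.mem_add] at hu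
      rcases hu with hu | hu
      · exact dopt_own hm hl i u (hmemi u (List.mem_cons_of_mem _ (List.mem_cons_of_mem _ hu)))
      · obtain ⟨k, hk, hu⟩ := dopt_mem_rest hu
        exact dopt_own hm hl k u hu
    · intro u hu
      rw [hR0, Multiset.mem_add] at hu
      rcases hu with hu | hu
      · have := hfl u hu
        exact ⟨p1 _ (by simp only [this.1, or_true]), p1 _ (by simp only [this.2, or_true])⟩
      · exact hoth _ e1.1 u hu
    · intro u hu
      rw [hR0, Multiset.mem_add] at hu
      rcases hu with hu | hu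
      · have := hfl u hu
        exact ⟨p2 _ (by simp only [this.1, or_true]), p2 _ (by simp only [this.2, or_true])⟩
      · exact hoth _ e1.2 u hu
    · intro u hu
      rw [hR0, Multiset.mem_add] at hu
      rcases hu with hu | hu
      · have := hfl u hu
        exact ⟨p3 _ (by simp only [this.1, or_true]), p3 _ (by simp only [this.2, or_true])⟩
      · exact hoth _ e2.1 u hu
    · intro u hu
      rw [hR0, Multiset.mem_add] at hu
      rcases hu with hu | hu
      · have := hfl u hu
        exact ⟨p4 _ this.1, p4 _ this.2⟩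
      · exact hoth _ e2.2 u hu

end H47A
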