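import Pool.Agent.Lib.H47A.DList

/-! # H47A, chunk DPAR (M): the number of crossings of two loops is odd
S p = product over the chords q of the second loop of side q.1 q.2 p. The exponents: for the chords (X_u, Y_u) with X_0 = j,
X_{u+1} = Y_u + m, last Y = j + m the total exponent is sum_y (Cl (p - y) + Cl (p - (y + m))) over y = j and y in l', which is
⌈(p - j)/m⌉ + sum_{y in l'} ⌈(p - y)/m⌉ (`ceil_half`): 1 + length l' terms, an odd number, each grows by one if p is replaced by
p + m. So S (p + m) = - S p. (Prove by induction on l': prod over chs a l' b of side = (-1)^(Cl (p-a) + Cl (p-b) + sum_{y in l'}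
⌈(p-y)/m⌉).) The product over all pairs of il = prod over the chords of the first loop of S(p.1) S(p.2) = S(i) S(i+m) *
prod_{y in l} S(y) S(y+m) = (-1)^(1 + length l) = -1. `odd_cross`: a product of signs is -1 iff the number of -1 is odd. -/

open Real Finset

namespace H47A

variable {m : ℕ}

theorem dpar_side (a b p : ℝ) (l : List ℝ) : ((chs m a l b).map fun q => side m q.1 q.2 p).prod =
    (-1) ^ (Cl m (p - a) + Cl m (p - b) + (l.map fun y => Cl m (p - y) + Cl m (p - y - m)).sum) := by
  induction l generalizing a with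
  | nil =>
    change side m a b p * 1 = _
    rw [List.map_nil, List.sum_nil, add_zero, mul_one]
    rfl
  | cons y l ih =>
    change side m a y p * ((chs m (y + m) l b).map fun q => side m q.1 q.2 p).prod = _
    rw [ih, side, ← zpow_add₀ (by norm_num), List.map_cons, List.sum_cons,
      show p - (y + (m : ℝ)) = p - y - m by ring]
    congr 1
    ring

theorem dpar_shift (hm : 0 < m) (x : ℝ) : Cl m (x + m) + Cl m (x + m - m) = Cl m x + Cl m (x - m) + 1 := by
  have hm0 : (m : ℝ) ≠ 0 := by
    have : (0 : ℝ) < m := by exact_mod_cast hm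
    exact this.ne'
  rw [← ceil_half hm, ← ceil_half hm]
  have e : (x + m) / (m : ℝ) = x / m + 1 := by
    rw [add_div, div_self hm0]
  rw [e, Int.ceil_add_one]

/-- The product of the sides. -/
noncomputable def dpar_S (m : ℕ) (j : ℝ) (l' : List ℝ) (p : ℝ) : ℝ :=
  ((chs m j l' (j + m)).map fun q => side m q.1 q.2 p).prod

theorem dpar_sum (hm : 0 < m) (p : ℝ) (l : List ℝ) :
    (l.map fun y => Cl m (p + m - y) + Cl m (p + m - y - m)).sum =
      (l.map fun y => Cl m (p - y) + Cl m (p - y - m)).sum + l.length := by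
  induction l with
  | nil => simp
  | cons y l ih =>
    rw [List.map_cons, List.sum_cons, List.map_cons, List.sum_cons, ih, List.length_cons,
      show p + (m : ℝ) - y = p - y + m by ring, dpar_shift hm]
    push_cast
    ring

theorem dpar_S_shift (hm : 0 < m) (j : ℝ) (l' : List ℝ) (hl' : Even l'.length) (p : ℝ) :
    dpar_S m j l' (p + m) = -dpar_S m j l' p := by
  unfold dpar_S
  rw [dpar_side, dpar_side, dpar_sum hm]
  obtain ⟨k, hk⟩ := hl'
  have h1 := dpar_shift hm (p - j)
  have e1 : p + (m : ℝ) - j = p - j + m := by ring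
  have e2 : p + (m : ℝ) - (j + m) = p - j + m - m := by ring
  have e3 : p - (j + (m : ℝ)) = p - j - m := by ring
  rw [e1, e2, e3, hk, h1]
  have e4 : Cl m (p - j) + Cl m (p - j - m) + 1 +
      ((l'.map fun y => Cl m (p - y) + Cl m (p - y - m)).sum + ((k + k : ℕ) : ℤ)) =
      (Cl m (p - j) + Cl m (p - j - m) + (l'.map fun y => Cl m (p - y) + Cl m (p - y - m)).sum + 1) + 2 * (k : ℤ) := by
    push_cast
    ring
  rw [e4, cord_even, zpow_add₀ (by norm_num)]
  norm_num

theorem dpar_S_sq (j : ℝ) (l' : List ℝ) (p : ℝ) : dpar_S m j l' p * dpar_S m j l' p = 1 := by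
  unfold dpar_S
  rw [dpar_side]
  rcases cord_pm (Cl m (p - j) + Cl m (p - (j + m)) + (l'.map fun y => Cl m (p - y) + Cl m (p - y - m)).sum) with h | h <;>
    rw [h] <;> norm_num

theorem dpar_tel (S : ℝ → ℝ) (a b : ℝ) (l : List ℝ) : ((chs m a l b).map fun p => S p.1 * S p.2).prod =
    S a * S b * (l.map fun y => S y * S (y + m)).prod := by
  induction l generalizing a with
  | nil =>
    change S a * S b * 1 = _
    rw [List.map_nil, List.prod_nil]
  | cons y l ih =>
    change S a * S y * ((chs m (y + m) l b).map fun p => S p.1 * S p.2).prod = _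
    rw [ih, List.map_cons, List.prod_cons]
    ring

theorem dpar_mul (f g : ℝ × ℝ → ℝ) (L : List (ℝ × ℝ)) :
    (L.map fun q => f q * g q).prod = (L.map f).prod * (L.map g).prod := by
  induction L with
  | nil => simp
  | cons a L ih =>
    rw [List.map_cons, List.prod_cons, ih, List.map_cons, List.prod_cons, List.map_cons, List.prod_cons]
    ring

theorem par_prod (hm : 0 < m) (i j : ℝ) (l l' : List ℝ) (hl : Even l.length) (hl' : Even l'.length) :
    ((chs m i l (i + m)).map fun p => ((chs m j l' (j + m)).map fun q => il m p.1 p.2 q.1 q.2).prod).prod = -1 := by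
  have h1 : (fun p : ℝ × ℝ => ((chs m j l' (j + m)).map fun q => il m p.1 p.2 q.1 q.2).prod) =
      fun p => dpar_S m j l' p.1 * dpar_S m j l' p.2 := by
    funext p
    exact dpar_mul (fun q => side m q.1 q.2 p.1) (fun q => side m q.1 q.2 p.2) _
  rw [h1, dpar_tel (dpar_S m j l')]
  have h2 : ∀ x, dpar_S m j l' x * dpar_S m j l' (x + m) = -1 := by
    intro x
    rw [dpar_S_shift hm j l' hl', mul_neg, dpar_S_sq]
  have h3 : (fun y => dpar_S m j l' y * dpar_S m j l' (y + m)) = fun _ => (-1 : ℝ) := funext h2
  rw [h2, h3, List.map_const', List.prod_replicate, hl.neg_one_pow, mul_one]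

/-- The number of crossing pairs of indices is odd. -/
theorem odd_cross (hm : 0 < m) (i j : ℝ) (l l' : List ℝ) (hl : Even l.length) (hl' : Even l'.length) :
    Odd ((univ : Finset (Fin (chs m i l (i + m)).length × Fin (chs m j l' (j + m)).length)).filter
      (fun x => il m ((chs m i l (i + m)).get x.1).1 ((chs m i l (i + m)).get x.1).2
        ((chs m j l' (j + m)).get x.2).1 ((chs m j l' (j + m)).get x.2).2 = -1)).card := by
  have h := par_prod hm i j l l' hl hl'
  generalize chs m i l (i + m) = L at *
  generalize chs m j l' (j + m) = L' at *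
  have h1 : ∏ x : Fin L.length × Fin L'.length, il m (L.get x.1).1 (L.get x.1).2 (L'.get x.2).1 (L'.get x.2).2 = -1 := by
    rw [Fintype.prod_prod_type, ← h, ← Fin.prod_univ_fun_getElem]
    refine Finset.prod_congr rfl fun a _ => ?_
    rw [← Fin.prod_univ_fun_getElem]
    rfl
  by_contra hc
  rw [Nat.not_odd_iff_even] at hc
  rw [← Finset.prod_filter_mul_prod_filter_not univ (fun x : Fin L.length × Fin L'.length =>
    il m (L.get x.1).1 (L.get x.1).2 (L'.get x.2).1 (L'.get x.2).2 = -1)] at h1
  have h2 : ∏ x ∈ (univ : Finset (Fin L.length × Fin L'.length)).filter (fun x =>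
      il m (L.get x.1).1 (L.get x.1).2 (L'.get x.2).1 (L'.get x.2).2 = -1),
      il m (L.get x.1).1 (L.get x.1).2 (L'.get x.2).1 (L'.get x.2).2 = 1 := by
    rw [Finset.prod_congr rfl (g := fun _ => (-1 : ℝ)) (fun x hx => (Finset.mem_filter.1 hx).2), Finset.prod_const,
      hc.neg_one_pow]
  have h3 : ∏ x ∈ (univ : Finset (Fin L.length × Fin L'.length)).filter (fun x =>
      ¬il m (L.get x.1).1 (L.get x.1).2 (L'.get x.2).1 (L'.get x.2).2 = -1),
      il m (L.get x.1).1 (L.get x.1).2 (L'.get x.2).1 (L'.get x.2).2 = 1 := by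
    refine Finset.prod_eq_one fun x hx => ?_
    rcases il_pm (m := m) (L.get x.1).1 (L.get x.1).2 (L'.get x.2).1 (L'.get x.2).2 with h4 | h4
    · exact h4
    · exact absurd h4 (Finset.mem_filter.1 hx).2
  rw [h2, h3] at h1
  norm_num at h1

end H47A
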