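import Pool.Agent.Lib.H47A.DOpt
import Pool.Agent.Lib.H47A.DEx1
import Pool.Agent.Lib.H47A.DEx2
import Pool.Agent.Lib.H47A.DPar

/-! # H47A, chunk DSTEP (M): if no move is possible the family is simple and any two loops cross exactly once
`chs_get`: the chord number s of chs a l b is (en a (take s l), head of (drop s l) or b) (`chs_split0` with A = take s l, the length
of pre A is s). Let hmin: no family has JJ <= JJ l - 2 δ.
`step_simple`: if the chords s < t of lp i crossed, put A = take s, B = the next t - s breakpoints, C = drop t; `two_opt`.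
(il is symmetric for different points, so the case s > t is the same.)
`step_once`: let i != j. The number of crossing pairs (s,t) is odd (`odd_cross`), so if it were not one there would be three, and two
of them (s1,t1) != (s2,t2) have s1 + t1 = s2 + t2 mod 2 (pigeonhole). If s1 = s2 then t1 != t2, say t1 < t2: `exch_special` (loop j is
simple by `step_simple`, so hz holds; B' has t2 - t1 elements, even). If t1 = t2: the same with i and j exchanged. Otherwise
s1 < s2 without loss; if t1 < t2 `exch_direct` (|B| = s2 - s1, |B'| = t2 - t1), if t1 > t2 `exch_reversed` (B' = the breakpoints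
between the chords t2 and t1). -/

open Real Finset

namespace H47A

variable {m : ℕ} {d : ℝ → ℝ → ℝ} {δ : ℝ} {l : Fin m → List ℝ}

/-- Crossing sign of the chord number `s` of the loop `i` and the chord number `t` of the loop `j`. -/
noncomputable def xs (m : ℕ) (l : Fin m → List ℝ) (i j : Fin m) (s t : ℕ) : ℝ :=
  il m ((lp m l i).getD s 0).1 ((lp m l i).getD s 0).2 ((lp m l j).getD t 0).1 ((lp m l j).getD t 0).2

theorem dstep_pre (a : ℝ) (A : List ℝ) : (pre m a A).length = A.length := by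
  unfold pre
  rw [List.length_dropLast, chs_length, Nat.add_sub_cancel]

theorem chs_get (a : ℝ) (l : List ℝ) (b : ℝ) (s : ℕ) (hs : s ≤ l.length) :
    (chs m a l b).getD s 0 = (en m a (l.take s), (l.drop s).headD b) := by
  have h1 : chs m a l b = pre m a (l.take s) ++ ([(en m a (l.take s), (l.drop s).headD b)] ++ post m (l.drop s) b) := by
    have h2 := chs_split0 (m := m) a b (l.take s) (l.drop s)
    rw [List.take_append_drop] at h2
    rw [h2, List.append_assoc]
  have h3 : (pre m a (l.take s)).length = s := by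
    rw [dstep_pre, List.length_take, min_eq_left hs]
  rw [h1, List.getD_append_right _ _ _ _ (by rw [h3]), h3, Nat.sub_self]
  rfl

/-- The middle part. -/
def dstep_B (L : List ℝ) (s t : ℕ) : List ℝ := (L.take t).drop s

theorem dstep_take (L : List ℝ) {s t : ℕ} (hst : s < t) : L.take s ++ dstep_B L s t = L.take t := by
  have h := List.take_append_drop s (L.take t)
  rw [List.take_take, min_eq_left hst.le] at h
  exact h

theorem dstep_len (L : List ℝ) {s t : ℕ} (ht : t ≤ L.length) : (dstep_B L s t).length = t - s := by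
  unfold dstep_B
  rw [List.length_drop, List.length_take, min_eq_left ht]

theorem dstep_ne (L : List ℝ) {s t : ℕ} (hst : s < t) (ht : t ≤ L.length) : dstep_B L s t ≠ [] := by
  intro h
  have h1 := congrArg List.length h
  rw [dstep_len L ht, List.length_nil] at h1
  omega

theorem dstep_drop (L : List ℝ) {s t : ℕ} (hst : s < t) (ht : t ≤ L.length) :
    L.drop s = dstep_B L s t ++ L.drop t := by
  unfold dstep_B
  rw [← List.drop_append_of_le_length (by rw [List.length_take, min_eq_left ht]; exact hst.le),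
    List.take_append_drop]

theorem dstep_dec (L : List ℝ) {s t : ℕ} (hst : s < t) :
    L = L.take s ++ dstep_B L s t ++ L.drop t := by
  rw [dstep_take L hst, List.take_append_drop]

theorem dstep_hd (B C : List ℝ) (b : ℝ) (hB : B ≠ []) : (B ++ C).headD b = B.headD 0 := by
  cases B with
  | nil => exact absurd rfl hB
  | cons y B => rfl

theorem dstep_en (a : ℝ) (A B : List ℝ) (hB : B ≠ []) : en m a (A ++ B) = B.getLastD 0 + m := by
  unfold en
  rcases List.eq_nil_or_concat B with h | ⟨B', y, h⟩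
  · exact absurd h hB
  · rw [h]
    simp [List.getLastD_eq_getLast?]

/-- the chord `s` when `s < t` -/
theorem dstep_cs (a b : ℝ) (L : List ℝ) {s t : ℕ} (hst : s < t) (ht : t ≤ L.length) :
    (chs m a L b).getD s 0 = (en m a (L.take s), (dstep_B L s t).headD 0) := by
  rw [chs_get a L b s (by omega), dstep_drop L hst ht, dstep_hd _ _ _ (dstep_ne L hst ht)]

/-- the chord `t` when `s < t` -/
theorem dstep_ct (a b : ℝ) (L : List ℝ) {s t : ℕ} (hst : s < t) (ht : t ≤ L.length) :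
    (chs m a L b).getD t 0 = ((dstep_B L s t).getLastD 0 + m, (L.drop t).headD b) := by
  rw [chs_get a L b t ht, ← dstep_take L hst, dstep_en _ _ _ (dstep_ne L hst ht)]

theorem dstep_rel (L : List (ℝ × ℝ)) (h : Multiset.Pairwise (Nd m) (dex2_ep (L : Multiset (ℝ × ℝ)))) :
    L.Pairwise fun c c' => Nd m c.1 c'.1 ∧ Nd m c.1 c'.2 ∧ Nd m c.2 c'.1 ∧ Nd m c.2 c'.2 := by
  induction L with
  | nil => exact List.Pairwise.nil
  | cons c L ih =>
    rw [← Multiset.cons_coe, dex2_ep_cons, dex2_pw_cons, dex2_pw_cons] at h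
    obtain ⟨h1, h2, h3⟩ := h
    rw [List.pairwise_cons]
    refine ⟨fun c' hc' => ?_, ih h3⟩
    have hmem : c'.1 ∈ dex2_ep (L : Multiset (ℝ × ℝ)) ∧ c'.2 ∈ dex2_ep (L : Multiset (ℝ × ℝ)) := by
      unfold dex2_ep
      rw [Multiset.mem_bind, Multiset.mem_bind]
      exact ⟨⟨c', hc', by simp⟩, ⟨c', hc', by simp⟩⟩
    exact ⟨h1 _ (Multiset.mem_cons_of_mem hmem.1), h1 _ (Multiset.mem_cons_of_mem hmem.2), h2 _ hmem.1, h2 _ hmem.2⟩

theorem dstep_lplen (i : Fin m) : (lp m l i).length = (l i).length + 1 := chs_length _ _ _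

theorem dstep_sym (hm : 0 < m) (hl : GenFam m l) (i : Fin m) {s t : ℕ} (hst : s < t) (ht : t ≤ (l i).length) :
    xs m l i i t s = xs m l i i s t := by
  have h1 := dstep_rel (lp m l i) (by
    rw [dex2_ep_lp, Multiset.pairwise_coe_iff_pairwise]
    exact ends_pairwise hm hl i)
  rw [List.pairwise_iff_getElem] at h1
  have hs' : s < (lp m l i).length := by rw [dstep_lplen]; omega
  have ht' : t < (lp m l i).length := by rw [dstep_lplen]; omega
  have h2 := h1 s t hs' ht' hst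
  unfold xs
  rw [List.getD_eq_getElem _ _ hs', List.getD_eq_getElem _ _ ht']
  exact (il_symm hm h2.1 h2.2.1 h2.2.2.1 h2.2.2.2).symm

theorem dstep_sym2 (hm : 0 < m) (hl : GenFam m l) {i j : Fin m} (hij : i ≠ j) {s t : ℕ} (hs : s ≤ (l i).length)
    (ht : t ≤ (l j).length) : xs m l j i t s = xs m l i j s t := by
  have hs' : s < (lp m l i).length := by rw [dstep_lplen]; omega
  have ht' : t < (lp m l j).length := by rw [dstep_lplen]; omega
  unfold xs
  rw [List.getD_eq_getElem _ _ hs', List.getD_eq_getElem _ _ ht']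
  have h1 := mem_ends (i : ℕ) (l i) _ (List.getElem_mem hs')
  have h2 := mem_ends (j : ℕ) (l j) _ (List.getElem_mem ht')
  exact (il_symm hm (ends_ne hm hl hij _ _ h1.1 h2.1) (ends_ne hm hl hij _ _ h1.1 h2.2)
    (ends_ne hm hl hij _ _ h1.2 h2.1) (ends_ne hm hl hij _ _ h1.2 h2.2)).symm

theorem dstep_simple (hm : 0 < m) (hd : IsMonge m d) (hδ : 0 ≤ δ) (hl : GenFam m l)
    (hmin : ∀ l' : Fin m → List ℝ, GenFam m l' → ¬ JJ m d δ (allc m l') ≤ JJ m d δ (allc m l) - 2 * δ)
    (i : Fin m) (s t : ℕ) (ht : t ≤ (l i).length) (hst : s < t) : xs m l i i s t = 1 := by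
  rcases il_pm (m := m) ((lp m l i).getD s 0).1 ((lp m l i).getD s 0).2 ((lp m l i).getD t 0).1
    ((lp m l i).getD t 0).2 with h | h
  · exact h
  · exfalso
    unfold lp at h
    rw [dstep_cs _ _ _ hst ht, dstep_ct _ _ _ hst ht] at h
    have h1 := two_opt hm hd hδ hl i _ _ _ (dstep_ne (l i) hst ht) (dstep_dec (l i) hst) h
    exact hmin _ h1.1 h1.2

theorem step_simple (hm : 0 < m) (hd : IsMonge m d) (hδ : 0 ≤ δ) (hl : GenFam m l)
    (hmin : ∀ l' : Fin m → List ℝ, GenFam m l' → ¬ JJ m d δ (allc m l') ≤ JJ m d δ (allc m l) - 2 * δ)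
    (i : Fin m) (s t : ℕ) (hs : s ≤ (l i).length) (ht : t ≤ (l i).length) (hst : s ≠ t) : xs m l i i s t = 1 := by
  rcases Nat.lt_or_gt_of_ne hst with h | h
  · exact dstep_simple hm hd hδ hl hmin i s t ht h
  · rw [dstep_sym hm hl i h hs]
    exact dstep_simple hm hd hδ hl hmin i t s hs h

theorem dstep_spec (hm : 0 < m) (hd : IsMonge m d) (hδ : 0 ≤ δ) (hl : GenFam m l)
    (hmin : ∀ l' : Fin m → List ℝ, GenFam m l' → ¬ JJ m d δ (allc m l') ≤ JJ m d δ (allc m l) - 2 * δ)
    {i j : Fin m} (hij : i ≠ j) {s t u : ℕ} (hs : s ≤ (l i).length) (hu : u ≤ (l j).length) (htu : t < u)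
    (hpar : Even (t + u)) (h1 : xs m l i j s t = -1) (h2 : xs m l i j s u = -1) : False := by
  have h3 := dstep_simple hm hd hδ hl hmin j t u hu htu
  unfold xs lp at h1 h2 h3
  rw [chs_get _ (l i) _ s hs, dstep_cs _ _ _ htu hu] at h1
  rw [chs_get _ (l i) _ s hs, dstep_ct _ _ _ htu hu] at h2
  rw [dstep_cs _ _ _ htu hu, dstep_ct _ _ _ htu hu] at h3
  obtain ⟨l', hl', hJ⟩ := exch_special hm hd hδ hl hij ((l i).take s) ((l i).drop s) ((l j).take t)
    (dstep_B (l j) t u) ((l j).drop u) (dstep_ne (l j) htu hu) (List.take_append_drop s (l i)).symm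
    (dstep_dec (l j) htu) (by
      rw [dstep_len _ hu]
      rw [Nat.even_iff] at hpar ⊢
      omega) h1 h2 h3
  exact hmin _ hl' hJ

theorem dstep_lt (hm : 0 < m) (hd : IsMonge m d) (hδ : 0 ≤ δ) (hl : GenFam m l)
    (hmin : ∀ l' : Fin m → List ℝ, GenFam m l' → ¬ JJ m d δ (allc m l') ≤ JJ m d δ (allc m l) - 2 * δ)
    {i j : Fin m} (hij : i ≠ j) {s1 s2 t1 t2 : ℕ} (hs2 : s2 ≤ (l i).length) (ht1 : t1 ≤ (l j).length)
    (ht2 : t2 ≤ (l j).length) (hs : s1 < s2)
    (hpar : Even (s1 + t1 + s2 + t2)) (h1 : xs m l i j s1 t1 = -1) (h2 : xs m l i j s2 t2 = -1) : False := by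
  rcases Nat.lt_trichotomy t1 t2 with ht | ht | ht
  · unfold xs lp at h1 h2
    rw [dstep_cs _ _ _ hs hs2, dstep_cs _ _ _ ht ht2] at h1
    rw [dstep_ct _ _ _ hs hs2, dstep_ct _ _ _ ht ht2] at h2
    obtain ⟨l', hl', hJ⟩ := exch_direct hm hd hδ hl hij ((l i).take s1) (dstep_B (l i) s1 s2) ((l i).drop s2)
      ((l j).take t1) (dstep_B (l j) t1 t2) ((l j).drop t2) (dstep_ne (l i) hs hs2) (dstep_ne (l j) ht ht2)
      (dstep_dec (l i) hs) (dstep_dec (l j) ht) (by
        rw [dstep_len _ hs2, dstep_len _ ht2]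
        rw [Nat.even_iff] at hpar ⊢
        omega) h1 h2
    exact hmin _ hl' hJ
  · subst ht
    refine dstep_spec hm hd hδ hl hmin hij.symm ht1 hs2 hs ?_ (t := s1) (s := t1) ?_ ?_
    · rw [Nat.even_iff] at hpar ⊢
      omega
    · rw [dstep_sym2 hm hl hij (by omega) ht1]
      exact h1
    · rw [dstep_sym2 hm hl hij hs2 ht1]
      exact h2
  · unfold xs lp at h1 h2
    rw [dstep_cs _ _ _ hs hs2, dstep_ct _ _ _ ht ht1] at h1
    rw [dstep_ct _ _ _ hs hs2, dstep_cs _ _ _ ht ht1] at h2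
    obtain ⟨l', hl', hJ⟩ := exch_reversed hm hd hδ hl hij ((l i).take s1) (dstep_B (l i) s1 s2) ((l i).drop s2)
      ((l j).take t2) (dstep_B (l j) t2 t1) ((l j).drop t1) (dstep_ne (l i) hs hs2) (dstep_ne (l j) ht ht1)
      (dstep_dec (l i) hs) (dstep_dec (l j) ht) (by
        rw [dstep_len _ hs2, dstep_len _ ht1]
        rw [Nat.even_iff] at hpar ⊢
        omega) h1 h2
    exact hmin _ hl' hJ

theorem dstep_two (hm : 0 < m) (hd : IsMonge m d) (hδ : 0 ≤ δ) (hl : GenFam m l)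
    (hmin : ∀ l' : Fin m → List ℝ, GenFam m l' → ¬ JJ m d δ (allc m l') ≤ JJ m d δ (allc m l) - 2 * δ)
    {i j : Fin m} (hij : i ≠ j) {s1 s2 t1 t2 : ℕ} (hs1 : s1 ≤ (l i).length) (hs2 : s2 ≤ (l i).length)
    (ht1 : t1 ≤ (l j).length) (ht2 : t2 ≤ (l j).length) (hne : s1 ≠ s2 ∨ t1 ≠ t2)
    (hpar : Even (s1 + t1 + s2 + t2)) (h1 : xs m l i j s1 t1 = -1) (h2 : xs m l i j s2 t2 = -1) : False := by
  rcases Nat.lt_trichotomy s1 s2 with hs | hs | hs
  · exact dstep_lt hm hd hδ hl hmin hij hs2 ht1 ht2 hs hpar h1 h2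
  · subst hs
    rcases Nat.lt_trichotomy t1 t2 with ht | ht | ht
    · refine dstep_spec hm hd hδ hl hmin hij hs1 ht2 ht ?_ h1 h2
      rw [Nat.even_iff] at hpar ⊢
      omega
    · rcases hne with h | h
      · exact h rfl
      · exact h ht
    · refine dstep_spec hm hd hδ hl hmin hij hs1 ht1 ht ?_ h2 h1
      rw [Nat.even_iff] at hpar ⊢
      omega
  · refine dstep_lt hm hd hδ hl hmin hij hs1 ht2 ht1 hs ?_ h2 h1
    rw [Nat.even_iff] at hpar ⊢
    omega

/-- The crossing pairs as a finite set of pairs of numbers. -/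
theorem dstep_gen (L L' : List (ℝ × ℝ)) (h : Odd ((univ : Finset (Fin L.length × Fin L'.length)).filter
      (fun x => il m (L.get x.1).1 (L.get x.1).2 (L'.get x.2).1 (L'.get x.2).2 = -1)).card) :
    ∃ T : Finset (ℕ × ℕ), Odd T.card ∧ ∀ x, x ∈ T ↔ (x.1 < L.length ∧ x.2 < L'.length) ∧
      il m (L.getD x.1 0).1 (L.getD x.1 0).2 (L'.getD x.2 0).1 (L'.getD x.2 0).2 = -1 := by
  have hinj : Function.Injective (fun x : Fin L.length × Fin L'.length => ((x.1 : ℕ), (x.2 : ℕ))) := by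
    intro x y hxy
    exact Prod.ext (Fin.ext (congrArg Prod.fst hxy)) (Fin.ext (congrArg Prod.snd hxy))
  refine ⟨((univ : Finset (Fin L.length × Fin L'.length)).filter
      (fun x => il m (L.get x.1).1 (L.get x.1).2 (L'.get x.2).1 (L'.get x.2).2 = -1)).map ⟨_, hinj⟩, ?_, ?_⟩
  · rw [Finset.card_map]
    exact h
  · intro x
    rw [Finset.mem_map]
    constructor
    · rintro ⟨y, hy, rfl⟩
      have h1 := (Finset.mem_filter.1 hy).2
      refine ⟨⟨y.1.2, y.2.2⟩, ?_⟩
      change il m (L.getD (y.1 : ℕ) 0).1 (L.getD (y.1 : ℕ) 0).2 (L'.getD (y.2 : ℕ) 0).1 (L'.getD (y.2 : ℕ) 0).2 = -1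
      rw [List.getD_eq_getElem _ _ y.1.2, List.getD_eq_getElem _ _ y.2.2]
      exact h1
    · rintro ⟨⟨h1, h2⟩, h3⟩
      refine ⟨(⟨x.1, h1⟩, ⟨x.2, h2⟩), ?_, rfl⟩
      rw [List.getD_eq_getElem _ _ h1, List.getD_eq_getElem _ _ h2] at h3
      exact Finset.mem_filter.2 ⟨Finset.mem_univ _, h3⟩

theorem step_once (hm : 0 < m) (hd : IsMonge m d) (hδ : 0 ≤ δ) (hl : GenFam m l)
    (hmin : ∀ l' : Fin m → List ℝ, GenFam m l' → ¬ JJ m d δ (allc m l') ≤ JJ m d δ (allc m l) - 2 * δ)
    (i j : Fin m) (hij : i ≠ j) : ∃ s t, s ≤ (l i).length ∧ t ≤ (l j).length ∧ xs m l i j s t = -1 ∧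
      ∀ s' t', s' ≤ (l i).length → t' ≤ (l j).length → (s', t') ≠ (s, t) → xs m l i j s' t' = 1 := by
  obtain ⟨T, hodd, hT⟩ := dstep_gen _ _ (odd_cross hm (i : ℕ) (j : ℕ) (l i) (l j) (hl.even i) (hl.even j))
  have hT' : ∀ x : ℕ × ℕ, x ∈ T ↔ (x.1 ≤ (l i).length ∧ x.2 ≤ (l j).length) ∧ xs m l i j x.1 x.2 = -1 := by
    intro x
    rw [hT x, chs_length, chs_length, Nat.lt_succ_iff, Nat.lt_succ_iff]
    rfl
  have hpair : ∀ x ∈ T, ∀ y ∈ T, x ≠ y → ¬ Even (x.1 + x.2 + y.1 + y.2) := by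
    intro x hx y hy hxy hpar
    rw [hT'] at hx hy
    refine dstep_two hm hd hδ hl hmin hij hx.1.1 hy.1.1 hx.1.2 hy.1.2 ?_ hpar hx.2 hy.2
    by_contra hc
    rw [not_or, not_not, not_not] at hc
    exact hxy (Prod.ext hc.1 hc.2)
  have hcard : T.card = 1 := by
    by_contra hne
    have h3 : 2 < T.card := by
      obtain ⟨k, hk⟩ := hodd
      omega
    rw [Finset.two_lt_card] at h3
    obtain ⟨x, hx, y, hy, z, hz, hxy, hxz, hyz⟩ := h3
    have a1 := hpair x hx y hy hxy
    have a2 := hpair x hx z hz hxz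
    have a3 := hpair y hy z hz hyz
    rw [Nat.even_iff] at a1 a2 a3
    omega
  obtain ⟨x, hx⟩ := Finset.card_eq_one.1 hcard
  have hxT : x ∈ T := by rw [hx]; exact Finset.mem_singleton_self x
  have hx2 := (hT' x).1 hxT
  refine ⟨x.1, x.2, hx2.1.1, hx2.1.2, hx2.2, ?_⟩
  intro s' t' hs' ht' hne
  rcases il_pm (m := m) ((lp m l i).getD s' 0).1 ((lp m l i).getD s' 0).2 ((lp m l j).getD t' 0).1
    ((lp m l j).getD t' 0).2 with h | h
  · exact h
  · exfalso
    have h1 : (s', t') ∈ T := (hT' _).2 ⟨⟨hs', ht'⟩, h⟩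
    rw [hx, Finset.mem_singleton] at h1
    exact hne h1

end H47A
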