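import Pool.Agent.Lib.H47A.EAct
import Pool.Agent.Lib.H47A.BDefs

/-! # H47A, columns (definitions)
Column over a side: the vectors w + t e, w on the side, t >= 0. For a list of facets (alpha, beta, ...) the facets alpha and beta meet at
t = lam alpha beta w. -/

open Real Finset

namespace H47A

variable {A : Type} [Fintype A] [DecidableEq A] (n : A → E3)

/-- The parameter where the functionals `α` and `β` agree on the ray `w + t e`. -/
noncomputable def lam (e : E3) (α β : A × Bool) (w : E3) : ℝ := (lf n β w - lf n α w) / (lf n α e - lf n β e)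

/-- The point of the boundary over `w + t e`. -/
noncomputable def Pt (e w : E3) (t : ℝ) : E3 := psi n (w + t • e)

/-- The facets of the list `α :: l` are crossed in this order by the ray from `w + a e` down to `w`. -/
def Good (e w : E3) : A × Bool → ℝ → List (A × Bool) → Prop
  | α, a, [] => 0 ≤ a ∧ Act n α (w + a • e) ∧ Act n α w
  | α, a, β :: l => Act n α (w + a • e) ∧ 0 ≤ lam n e α β w ∧ lam n e α β w ≤ a ∧
      Act n α (w + lam n e α β w • e) ∧ α.1 ≠ β.1 ∧ lf n β e < lf n α e ∧ Good e w β (lam n e α β w) l

/-- The quadrilateral of the facet `α` between the heights `a, a'` on the ray of `w` and `b, b'` on the ray of `w'`, cut into two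
triangles. -/
noncomputable def quad (e w w' : E3) (a b a' b' : ℝ) : Set E3 :=
  convexHull ℝ {Pt n e w a, Pt n e w a', Pt n e w' b'} ∪ convexHull ℝ {Pt n e w a, Pt n e w' b', Pt n e w' b}

/-- Its area. -/
noncomputable def qar (e w w' : E3) (α : A × Bool) (a b a' b' : ℝ) : ℝ :=
  (det3 (Pt n e w a) (Pt n e w a') (Pt n e w' b') + det3 (Pt n e w a) (Pt n e w' b') (Pt n e w' b)) * ‖nn n α‖ / 2

/-- The pieces of the column below the heights `a`, `b`. -/
noncomputable def colS (e w w' : E3) : A × Bool → ℝ → ℝ → List (A × Bool) → Set E3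
  | _, a, b, [] => quad n e w w' a b 0 0
  | α, a, b, β :: l => quad n e w w' a b (lam n e α β w) (lam n e α β w') ∪
      colS e w w' β (lam n e α β w) (lam n e α β w') l

/-- The area of the column. -/
noncomputable def colA (e w w' : E3) : A × Bool → ℝ → ℝ → List (A × Bool) → ℝ
  | α, a, b, [] => qar n e w w' α a b 0 0
  | α, a, b, β :: l => qar n e w w' α a b (lam n e α β w) (lam n e α β w') +
      colA e w w' β (lam n e α β w) (lam n e α β w') l

/-- The shoelace sum along the developed ray. -/
noncomputable def shL (fr : A → E3) (e w : E3) : A × Bool → ℂ × ℂ → ℝ → List (A × Bool) → ℝ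
  | α, D, a, [] => cr (ev n fr α D (Pt n e w a)) (ev n fr α D (Pt n e w 0))
  | α, D, a, β :: l => cr (ev n fr α D (Pt n e w a)) (ev n fr α D (Pt n e w (lam n e α β w))) +
      shL fr e w β (step n fr α β D) (lam n e α β w) l

end H47A
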