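import Pool.Agent.Lib.H47A.ECh

/-! # H47A, chunk EDEV (M): developments along lists (pure list induction)
All by induction on the first list, generalising alpha and D; the chain condition `List.IsChain (fun a b => a.1 != b.1) (α :: l)`
gives the hypothesis of `step_norm`, `step_ev`. `dev_tele`: all facets of the list contain X. `dev_smul`: the motion D acts from the
left: (devAux α D l).2.1 = D.1 * (devAux α (1,0) l).2.1. -/

open Real Finset

namespace H47A

variable {A : Type} [Fintype A] [DecidableEq A] {n : A → E3} {fr : A → E3}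

theorem dev_append (α : A × Bool) (D : ℂ × ℂ) (l l' : List (A × Bool)) :
    devAux n fr α D (l ++ l') = devAux n fr (devAux n fr α D l).1 (devAux n fr α D l).2 l' := by
  induction l generalizing α D with
  | nil => rfl
  | cons β l ih => exact ih β (step n fr α β D)

theorem dev_fst (α : A × Bool) (D : ℂ × ℂ) (l : List (A × Bool)) :
    (α :: l).getLast? = some (devAux n fr α D l).1 := by
  induction l generalizing α D with
  | nil => rfl
  | cons β l ih =>
    rw [List.getLast?_cons_cons]
    exact ih β (step n fr α β D)

theorem dev_norm (hG : Gnr n) (hf : Frm n fr) {α : A × Bool} {D : ℂ × ℂ} (hD : ‖D.1‖ = 1) {l : List (A × Bool)}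
    (hl : List.IsChain (fun a b : A × Bool => a.1 ≠ b.1) (α :: l)) : ‖(devAux n fr α D l).2.1‖ = 1 := by
  induction l generalizing α D with
  | nil => exact hD
  | cons β l ih =>
    rw [List.isChain_cons_cons] at hl
    exact ih (step_norm hG hf hl.1 hD) hl.2

theorem dev_tele (hG : Gnr n) (hf : Frm n fr) {α : A × Bool} {D : ℂ × ℂ} {l : List (A × Bool)} {X : E3}
    (hl : List.IsChain (fun a b : A × Bool => a.1 ≠ b.1) (α :: l)) (hX : ∀ β ∈ α :: l, lf n β X = 1) :
    ev n fr (devAux n fr α D l).1 (devAux n fr α D l).2 X = ev n fr α D X := by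
  induction l generalizing α D with
  | nil => rfl
  | cons β l ih =>
    rw [List.isChain_cons_cons] at hl
    have h1 := ih (α := β) (D := step n fr α β D) hl.2 fun γ hγ => hX γ (List.mem_cons_of_mem _ hγ)
    have h2 := step_ev hG hf hl.1 D (hX α (List.mem_cons_self ..))
      (hX β (List.mem_cons_of_mem _ (List.mem_cons_self ..)))
    rw [← h2, ← h1]
    rfl

theorem dev_lin (α : A × Bool) (D : ℂ × ℂ) (l : List (A × Bool)) :
    (devAux n fr α D l).2.1 = D.1 * (devAux n fr α (1, 0) l).2.1 := by
  induction l generalizing α D with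
  | nil =>
    show D.1 = D.1 * 1
    rw [mul_one]
  | cons β l ih =>
    have h1 := ih β (step n fr α β D)
    have h2 := ih β (step n fr α β (1, 0))
    show (devAux n fr β (step n fr α β D) l).2.1 = D.1 * (devAux n fr β (step n fr α β (1, 0)) l).2.1
    rw [h1, h2]
    show D.1 * tr n fr α β * _ = D.1 * (1 * tr n fr α β * _)
    ring

end H47A
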