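import Pool.Agent.Lib.H47A.EAr2
import Pool.Agent.Lib.H47A.EArD
import Pool.Agent.Lib.H47A.EDev

/-! # H47A, chunks EAR3 (M), EAR4 (M), EAR5 (M): columns
At t = lam the functionals agree: lf α (w + lam e) = lf β (w + lam e) (as lf β e != lf α e), so β is active there if α is.
EAR3 `quad_cover`: with a' <= a, b' <= b, s in [0,1], (1-s) a' + s b' <= t <= (1-s) a + s b, w_s = seg w w' s: in the coordinates (s,t) the trapezoid is the
union of the triangles (0,a),(0,a'),(1,b') and (0,a),(1,b'),(1,b): so w_s + t e = c1 v1 + c2 v2 + c3 v3 with c_i >= 0, sum 1, v_i the three vectors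
w + a e, w + a' e, w' + b' e, or w + a e, w' + b' e, w' + b e. All v_i have α active, and so has w_s + t e =: u (convexity), gg v_i = lf α v_i > 0 (v_i != 0), gg u =
sum c_i gg v_i. psi u = sum (c_i gg v_i/gg u) psi v_i: a convex combination. `col_cover`: induction over l generalising α, a, b: lam is linear in w, so lam (w_s) = (1-s) lam w
+ s lam w'; if t is above it use `quad_cover`, otherwise the induction hypothesis. Nonzero: det3 e w w' > 0 implies w, w', e independent, so all vectors w + t e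
(t real) are not zero.
EAR4 `qar_nonneg` and `quad_area`: det3 (P a) (P a') (Q b') = (positive) * det3 (w + a e) (w + a' e) (w' + b' e) = (positive) (a - a') det3 e w w', and det3 (P a) (Q b') (Q b)
= (positive) (b - b') det3 e w w'. Then `tri3` and the union bound. `col_area`: induction.
EAR5 (EAr5.lean) `qar_dev`: `ev_cross` twice: qar = (1/2)(cr p p' + cr p' q' + cr q' q + cr q p), p = ev (P a), p' = ev (P a'), q, q'. `col_dev`: induction over l:
colA = (1/2) (shL w - shL w' + cr (end w) (end w') - cr p q), where end w = ev (devAux α D l).1 (devAux α D l).2 (P 0): use `step_ev`: ev β (step α β D) = ev α D at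
the point P (lam α β w), where both functionals are 1. -/

open Real MeasureTheory

namespace H47A

variable {A : Type} [Fintype A] [DecidableEq A] {n : A → E3} {fr : A → E3}

theorem ear3_hull (hG : Gnr n) {α : A × Bool} {v1 v2 v3 : E3} (h1 : Act n α v1) (h2 : Act n α v2) (h3 : Act n α v3)
    (n1 : v1 ≠ 0) (n2 : v2 ≠ 0) (n3 : v3 ≠ 0) {c1 c2 c3 : ℝ} (p1 : 0 ≤ c1) (p2 : 0 ≤ c2) (p3 : 0 ≤ c3)
    (hc : c1 + c2 + c3 = 1) :
    psi n (c1 • v1 + c2 • v2 + c3 • v3) ∈ convexHull ℝ {psi n v1, psi n v2, psi n v3} := by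
  have g1 := gg_pos hG n1
  have g2 := gg_pos hG n2
  have g3 := gg_pos hG n3
  have hact : Act n α (c1 • v1 + c2 • v2 + c3 • v3) := by
    intro β
    simp only [lf_add, lf_smul]
    have := mul_le_mul_of_nonneg_left (h1 β) p1
    have := mul_le_mul_of_nonneg_left (h2 β) p2
    have := mul_le_mul_of_nonneg_left (h3 β) p3
    linarith
  have hg : gg n (c1 • v1 + c2 • v2 + c3 • v3) = c1 * gg n v1 + c2 * gg n v2 + c3 * gg n v3 := by
    rw [← (act_iff hG α _).1 hact, ← (act_iff hG α _).1 h1, ← (act_iff hG α _).1 h2, ← (act_iff hG α _).1 h3]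
    simp only [lf_add, lf_smul]
  set g := c1 * gg n v1 + c2 * gg n v2 + c3 * gg n v3 with hgd
  have hpos : 0 < g := by
    have hm : 0 < min (gg n v1) (min (gg n v2) (gg n v3)) := lt_min g1 (lt_min g2 g3)
    set m := min (gg n v1) (min (gg n v2) (gg n v3)) with hmd
    have m1 : m ≤ gg n v1 := min_le_left _ _
    have m2 : m ≤ gg n v2 := (min_le_right _ _).trans (min_le_left _ _)
    have m3 : m ≤ gg n v3 := (min_le_right _ _).trans (min_le_right _ _)
    have := mul_le_mul_of_nonneg_left m1 p1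
    have := mul_le_mul_of_nonneg_left m2 p2
    have := mul_le_mul_of_nonneg_left m3 p3
    have : c1 * m + c2 * m + c3 * m = m := by rw [← add_mul, ← add_mul, hc, one_mul]
    linarith
  have hexp : psi n (c1 • v1 + c2 • v2 + c3 • v3) =
      (c1 * gg n v1 / g) • psi n v1 + (c2 * gg n v2 / g) • psi n v2 + (c3 * gg n v3 / g) • psi n v3 := by
    simp only [psi]
    rw [hg, smul_smul, smul_smul, smul_smul, smul_add, smul_add, smul_smul, smul_smul, smul_smul]
    congr 1
    · congr 1
      · congr 1; field_simp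
      · congr 1; field_simp
    · congr 1; field_simp
  rw [hexp]
  have hconv := convex_convexHull ℝ {psi n v1, psi n v2, psi n v3}
  have q1 : psi n v1 ∈ convexHull ℝ {psi n v1, psi n v2, psi n v3} := subset_convexHull _ _ (by simp)
  have q2 : psi n v2 ∈ convexHull ℝ {psi n v1, psi n v2, psi n v3} := subset_convexHull _ _ (by simp)
  have q3 : psi n v3 ∈ convexHull ℝ {psi n v1, psi n v2, psi n v3} := subset_convexHull _ _ (by simp)
  have := hconv.sum_mem (t := Finset.univ) (w := ![c1 * gg n v1 / g, c2 * gg n v2 / g, c3 * gg n v3 / g])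
    (z := ![psi n v1, psi n v2, psi n v3]) (by
      intro i _
      fin_cases i
      · exact div_nonneg (mul_nonneg p1 g1.le) hpos.le
      · exact div_nonneg (mul_nonneg p2 g2.le) hpos.le
      · exact div_nonneg (mul_nonneg p3 g3.le) hpos.le) (by
      simp only [Fin.sum_univ_three, Matrix.cons_val_zero, Matrix.cons_val_one, Matrix.cons_val]
      rw [← add_div, ← add_div]
      exact div_self hpos.ne') (by
      intro i _
      fin_cases i
      · exact q1
      · exact q2
      · exact q3)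
  simpa [Fin.sum_univ_three] using this

theorem ear3_lerp {lo hi t : ℝ} (h1 : lo ≤ t) (h2 : t ≤ hi) : ∃ l : ℝ, 0 ≤ l ∧ l ≤ 1 ∧ t = (1 - l) * lo + l * hi := by
  rcases eq_or_lt_of_le (h1.trans h2) with h | h
  · exact ⟨0, le_rfl, zero_le_one, by linarith⟩
  · refine ⟨(t - lo) / (hi - lo), div_nonneg (by linarith) (by linarith), (div_le_one (by linarith)).2 (by linarith), ?_⟩
    have : hi - lo ≠ 0 := by linarith
    field_simp
    ring

theorem ear3_ne1 {e w w' : E3} (hd : 0 < det3 e w w') (t : ℝ) : w + t • e ≠ 0 := by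
  intro h
  have hw : w = (-t) • e := by rw [neg_smul]; exact eq_neg_of_add_eq_zero_left h
  rw [hw, det3_rot, det3_rot, det3_smul, (det3_self w' e).2.1, mul_zero] at hd
  exact lt_irrefl _ hd

theorem ear3_ne2 {e w w' : E3} (hd : 0 < det3 e w w') (t : ℝ) : w' + t • e ≠ 0 := by
  intro h
  have hw : w' = (-t) • e := by rw [neg_smul]; exact eq_neg_of_add_eq_zero_left h
  rw [hw, det3_smul, (det3_self e w).1, mul_zero] at hd
  exact lt_irrefl _ hd

theorem quad_cover (hG : Gnr n) {e w w' : E3} (hd : 0 < det3 e w w') {α : A × Bool} {a b a' b' : ℝ}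
    (ha : a' ≤ a) (hb : b' ≤ b) (h1 : Act n α (w + a • e)) (h2 : Act n α (w + a' • e)) (h3 : Act n α (w' + b • e))
    (h4 : Act n α (w' + b' • e)) {s t : ℝ} (hs : s ∈ Set.Icc (0 : ℝ) 1) (ht1 : (1 - s) * a' + s * b' ≤ t)
    (ht2 : t ≤ (1 - s) * a + s * b) : Pt n e (seg w w' s) t ∈ quad n e w w' a b a' b' := by
  obtain ⟨hs0, hs1⟩ := hs
  rcases le_total t ((1 - s) * a + s * b') with h | h
  · left
    obtain ⟨l, hl0, hl1, hl⟩ := ear3_lerp ht1 h
    have := ear3_hull hG h1 h2 h4 (ear3_ne1 hd a) (ear3_ne1 hd a') (ear3_ne2 hd b') (c1 := (1 - s) * l)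
      (c2 := (1 - s) * (1 - l)) (c3 := s) (mul_nonneg (by linarith) hl0) (mul_nonneg (by linarith) (by linarith)) hs0
      (by ring)
    have e1 : Pt n e (seg w w' s) t = psi n (((1 - s) * l) • (w + a • e) + ((1 - s) * (1 - l)) • (w + a' • e) +
        s • (w' + b' • e)) := by
      unfold Pt seg
      congr 1
      rw [hl]
      module
    rw [e1]
    exact this
  · right
    obtain ⟨l, hl0, hl1, hl⟩ := ear3_lerp h ht2
    have := ear3_hull hG h1 h4 h3 (ear3_ne1 hd a) (ear3_ne2 hd b') (ear3_ne2 hd b) (c1 := (1 - s))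
      (c2 := s * (1 - l)) (c3 := s * l) (by linarith) (mul_nonneg hs0 (by linarith)) (mul_nonneg hs0 hl0)
      (by ring)
    have e1 : Pt n e (seg w w' s) t = psi n ((1 - s) • (w + a • e) + (s * (1 - l)) • (w' + b' • e) +
        (s * l) • (w' + b • e)) := by
      unfold Pt seg
      congr 1
      rw [hl]
      module
    rw [e1]
    exact this

theorem col_cover (hG : Gnr n) {e w w' : E3} (hd : 0 < det3 e w w') (l : List (A × Bool)) {α : A × Bool} {a b : ℝ}
    (h1 : Good n e w α a l) (h2 : Good n e w' α b l) {s t : ℝ} (hs : s ∈ Set.Icc (0 : ℝ) 1) (ht1 : 0 ≤ t)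
    (ht2 : t ≤ (1 - s) * a + s * b) : Pt n e (seg w w' s) t ∈ colS n e w w' α a b l := by
  induction l generalizing α a b with
  | nil =>
    obtain ⟨ha, hA, hA0⟩ := h1
    obtain ⟨hb, hB, hB0⟩ := h2
    exact quad_cover hG hd ha hb hA (by simpa using hA0) hB (by simpa using hB0) hs (by simpa using ht1) ht2
  | cons β l ih =>
    obtain ⟨a1, a2, a3, a4, a5, a6, a7⟩ := h1
    obtain ⟨b1, b2, b3, b4, b5, b6, b7⟩ := h2
    rcases le_total ((1 - s) * lam n e α β w + s * lam n e α β w') t with h | h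
    · exact Or.inl (quad_cover hG hd a3 b3 a1 a4 b1 b4 hs h ht2)
    · exact Or.inr (ih a7 b7 h)

end H47A
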