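import Pool.Agent.Lib.H47A.EAr3

open Real MeasureTheory

namespace H47A

variable {A : Type} [Fintype A] [DecidableEq A] {n : A → E3} {fr : A → E3}

/-! # H47A, chunk EAR4 (M): see the docstring of EAr3.lean -/

theorem ear4_det1 (p q r a a' b' : ℝ) (e w w' : E3) :
    det3 (p • (w + a • e)) (q • (w + a' • e)) (r • (w' + b' • e)) = p * (q * (r * ((a - a') * det3 e w w'))) := by
  simp only [det3, inner3, evec_c0, evec_c1, evec_c2, PiLp.smul_apply, PiLp.add_apply, smul_eq_mul]
  ring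

theorem ear4_det2 (p q r a b b' : ℝ) (e w w' : E3) :
    det3 (p • (w + a • e)) (q • (w' + b' • e)) (r • (w' + b • e)) = p * (q * (r * ((b - b') * det3 e w w'))) := by
  simp only [det3, inner3, evec_c0, evec_c1, evec_c2, PiLp.smul_apply, PiLp.add_apply, smul_eq_mul]
  ring

theorem ear4_nz {e w w' : E3} (hd : 0 < det3 e w w') (t : ℝ) : w + t • e ≠ 0 ∧ w' + t • e ≠ 0 := by
  constructor
  · intro h
    have h1 : w = (-t) • e := by
      rw [neg_smul]
      exact eq_neg_of_add_eq_zero_left h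
    have h2 : det3 e ((-t) • e) w' = 0 := by
      simp only [det3, inner3, evec_c0, evec_c1, evec_c2, PiLp.smul_apply, smul_eq_mul]
      ring
    rw [h1, h2] at hd
    exact lt_irrefl _ hd
  · intro h
    have h1 : w' = (-t) • e := by
      rw [neg_smul]
      exact eq_neg_of_add_eq_zero_left h
    have h2 : det3 e w ((-t) • e) = 0 := by
      simp only [det3, inner3, evec_c0, evec_c1, evec_c2, PiLp.smul_apply, smul_eq_mul]
      ring
    rw [h1, h2] at hd
    exact lt_irrefl _ hd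

theorem quad_area (hG : Gnr n) (hf : Frm n fr) {e w w' : E3} (hd : 0 < det3 e w w') {α : A × Bool} {a b a' b' : ℝ}
    (ha : a' ≤ a) (hb : b' ≤ b) (h1 : Act n α (w + a • e)) (h2 : Act n α (w + a' • e)) (h3 : Act n α (w' + b • e))
    (h4 : Act n α (w' + b' • e)) :
    0 ≤ qar n e w w' α a b a' b' ∧
      ENNReal.ofReal (π / 4) * Measure.hausdorffMeasure 2 (quad n e w w' a b a' b') ≤
        ENNReal.ofReal (qar n e w w' α a b a' b') := by
  have n1 := (ear4_nz hd a).1
  have n2 := (ear4_nz hd a').1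
  have n3 := (ear4_nz hd b).2
  have n4 := (ear4_nz hd b').2
  have l1 : lf n α (Pt n e w a) = 1 := lf_psi hG n1 h1
  have l2 : lf n α (Pt n e w a') = 1 := lf_psi hG n2 h2
  have l3 : lf n α (Pt n e w' b) = 1 := lf_psi hG n3 h3
  have l4 : lf n α (Pt n e w' b') = 1 := lf_psi hG n4 h4
  have g1 := inv_pos.2 (gg_pos hG n1)
  have g2 := inv_pos.2 (gg_pos hG n2)
  have g3 := inv_pos.2 (gg_pos hG n3)
  have g4 := inv_pos.2 (gg_pos hG n4)
  have d1 : 0 ≤ det3 (Pt n e w a) (Pt n e w a') (Pt n e w' b') := by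
    unfold Pt psi
    rw [ear4_det1]
    have := sub_nonneg.2 ha
    positivity
  have d2 : 0 ≤ det3 (Pt n e w a) (Pt n e w' b') (Pt n e w' b) := by
    unfold Pt psi
    rw [ear4_det2]
    have := sub_nonneg.2 hb
    positivity
  have t1 := tri3 hG hf α l1 l2 l4 d1
  have t2 := tri3 hG hf α l1 l4 l3 d2
  have e1 : qar n e w w' α a b a' b' = det3 (Pt n e w a) (Pt n e w a') (Pt n e w' b') * ‖nn n α‖ / 2 +
      det3 (Pt n e w a) (Pt n e w' b') (Pt n e w' b) * ‖nn n α‖ / 2 := by
    unfold qar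
    ring
  have p1 : 0 ≤ det3 (Pt n e w a) (Pt n e w a') (Pt n e w' b') * ‖nn n α‖ / 2 := by positivity
  have p2 : 0 ≤ det3 (Pt n e w a) (Pt n e w' b') (Pt n e w' b) * ‖nn n α‖ / 2 := by positivity
  rw [e1]
  refine ⟨add_nonneg p1 p2, ?_⟩
  rw [ENNReal.ofReal_add p1 p2]
  unfold quad
  refine (mul_le_mul_right (measure_union_le _ _) _).trans ?_
  rw [mul_add]
  exact add_le_add t1 t2

theorem col_area (hG : Gnr n) (hf : Frm n fr) {e w w' : E3} (hd : 0 < det3 e w w') (l : List (A × Bool))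
    {α : A × Bool} {a b : ℝ} (h1 : Good n e w α a l) (h2 : Good n e w' α b l) :
    0 ≤ colA n e w w' α a b l ∧
      ENNReal.ofReal (π / 4) * Measure.hausdorffMeasure 2 (colS n e w w' α a b l) ≤
        ENNReal.ofReal (colA n e w w' α a b l) := by
  induction l generalizing α a b with
  | nil =>
    obtain ⟨a1, a2, a3⟩ := h1
    obtain ⟨b1, b2, b3⟩ := h2
    refine quad_area hG hf hd a1 b1 a2 ?_ b2 ?_
    · rw [zero_smul, add_zero]
      exact a3
    · rw [zero_smul, add_zero]
      exact b3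
  | cons β l ih =>
    obtain ⟨a1, a2, a3, a4, a5, a6, a7⟩ := h1
    obtain ⟨b1, b2, b3, b4, b5, b6, b7⟩ := h2
    have q1 := quad_area hG hf hd a3 b3 a1 a4 b1 b4
    have q2 := ih a7 b7
    refine ⟨add_nonneg q1.1 q2.1, ?_⟩
    show ENNReal.ofReal (π / 4) * Measure.hausdorffMeasure 2 (quad n e w w' a b (lam n e α β w) (lam n e α β w') ∪
      colS n e w w' β (lam n e α β w) (lam n e α β w') l) ≤
        ENNReal.ofReal (qar n e w w' α a b (lam n e α β w) (lam n e α β w') +
          colA n e w w' β (lam n e α β w) (lam n e α β w') l)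
    rw [ENNReal.ofReal_add q1.1 q2.1]
    refine (mul_le_mul_right (measure_union_le _ _) _).trans ?_
    rw [mul_add]
    exact add_le_add q1.2 q2.2

end H47A
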