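import Pool.Agent.Lib.H47A.EAr3

/-! # H47A, chunk EAR5 (M): see the docstring of EAr3.lean. `shL_append`: if all facets of α :: l are crossed (Good) and the last facet and all facets of l' are active at w, with
different indices for consecutive ones, then the additional terms vanish: lam = 0 for them (both functionals agree at w), cr z z = 0, and `step_ev` at psi w. -/

open Real MeasureTheory

namespace H47A

variable {A : Type} [Fintype A] [DecidableEq A] {n : A → E3} {fr : A → E3}

theorem ear5_ne {e w w' : E3} (hd : 0 < det3 e w w') (a : ℝ) : w + a • e ≠ 0 := by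
  intro h
  have h1 : w = (-a) • e := by
    rw [neg_smul]
    exact eq_neg_of_add_eq_zero_left h
  rw [h1] at hd
  have h2 : cross3 e ((-a) • e) = 0 := by
    have h3 := cross3_smul 1 (-a) e e
    rw [one_smul] at h3
    rw [h3]
    have h4 : cross3 e e = 0 := by
      have h5 := cross3_swap e e
      have h6 : (2 : ℝ) • cross3 e e = 0 := by
        rw [two_smul]
        nth_rewrite 1 [h5]
        simp
      simpa using h6
    rw [h4, smul_zero]
  unfold det3 at hd
  rw [h2, inner_zero_left] at hd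
  exact lt_irrefl _ hd

theorem ear5_ne' {e w w' : E3} (hd : 0 < det3 e w w') (a : ℝ) : w' + a • e ≠ 0 := by
  intro h
  have h1 : w' = (-a) • e := by
    rw [neg_smul]
    exact eq_neg_of_add_eq_zero_left h
  rw [h1, det3_smul, (det3_self e w).1, mul_zero] at hd
  exact lt_irrefl _ hd

theorem ear5_cr (z w : ℂ) : cr z w = -cr w z := by
  unfold cr
  ring

theorem ear5_cr0 (z : ℂ) : cr z z = 0 := by
  unfold cr
  ring

theorem qar_dev (hG : Gnr n) (hf : Frm n fr) {e w w' : E3} (hd : 0 < det3 e w w') {α : A × Bool} {D : ℂ × ℂ}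
    (hD : ‖D.1‖ = 1) {a b a' b' : ℝ} (h1 : Act n α (w + a • e)) (h2 : Act n α (w + a' • e))
    (h3 : Act n α (w' + b • e)) (h4 : Act n α (w' + b' • e)) :
    qar n e w w' α a b a' b' =
      (cr (ev n fr α D (Pt n e w a)) (ev n fr α D (Pt n e w a')) + cr (ev n fr α D (Pt n e w a')) (ev n fr α D (Pt n e w' b')) +
        cr (ev n fr α D (Pt n e w' b')) (ev n fr α D (Pt n e w' b)) + cr (ev n fr α D (Pt n e w' b)) (ev n fr α D (Pt n e w a))) / 2 := by
  have k1 : lf n α (Pt n e w a) = 1 := lf_psi hG (ear5_ne hd a) h1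
  have k2 : lf n α (Pt n e w a') = 1 := lf_psi hG (ear5_ne hd a') h2
  have k3 : lf n α (Pt n e w' b) = 1 := lf_psi hG (ear5_ne' hd b) h3
  have k4 : lf n α (Pt n e w' b') = 1 := lf_psi hG (ear5_ne' hd b') h4
  have e1 := ev_cross hG hf α hD k1 k2 k4
  have e2 := ev_cross hG hf α hD k1 k4 k3
  have e3 := ear5_cr (ev n fr α D (Pt n e w' b')) (ev n fr α D (Pt n e w a))
  unfold qar
  linear_combination (e1 + e2 + e3) / 2

theorem ear5_act {e w : E3} {α : A × Bool} {a : ℝ} {l : List (A × Bool)} (h : Good n e w α a l) :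
    Act n α (w + a • e) := by
  cases l with
  | nil => exact h.2.1
  | cons β l => exact h.1

theorem col_dev (hG : Gnr n) (hf : Frm n fr) {e w w' : E3} (hd : 0 < det3 e w w') (l : List (A × Bool))
    {α : A × Bool} {D : ℂ × ℂ} (hD : ‖D.1‖ = 1) {a b : ℝ} (h1 : Good n e w α a l) (h2 : Good n e w' α b l) :
    colA n e w w' α a b l =
      (shL n fr e w α D a l - shL n fr e w' α D b l +
        cr (ev n fr (devAux n fr α D l).1 (devAux n fr α D l).2 (Pt n e w 0))
          (ev n fr (devAux n fr α D l).1 (devAux n fr α D l).2 (Pt n e w' 0)) -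
        cr (ev n fr α D (Pt n e w a)) (ev n fr α D (Pt n e w' b))) / 2 := by
  induction l generalizing α D a b with
  | nil =>
    obtain ⟨-, h3, h4⟩ := h1
    obtain ⟨-, h5, h6⟩ := h2
    have h4' : Act n α (w + (0 : ℝ) • e) := by simpa using h4
    have h6' : Act n α (w' + (0 : ℝ) • e) := by simpa using h6
    have h7 := qar_dev hG hf hd hD h3 h4' h5 h6'
    have c1 := ear5_cr (ev n fr α D (Pt n e w' 0)) (ev n fr α D (Pt n e w' b))
    have c2 := ear5_cr (ev n fr α D (Pt n e w' b)) (ev n fr α D (Pt n e w a))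
    show qar n e w w' α a b 0 0 = (cr (ev n fr α D (Pt n e w a)) (ev n fr α D (Pt n e w 0)) -
      cr (ev n fr α D (Pt n e w' b)) (ev n fr α D (Pt n e w' 0)) +
      cr (ev n fr α D (Pt n e w 0)) (ev n fr α D (Pt n e w' 0)) -
      cr (ev n fr α D (Pt n e w a)) (ev n fr α D (Pt n e w' b))) / 2
    rw [h7, c1, c2]
    ring
  | cons β l ih =>
    obtain ⟨g1, -, -, g4, g5, -, g7⟩ := h1
    obtain ⟨k1, -, -, k4, -, -, k7⟩ := h2
    have h7 := qar_dev hG hf hd hD g1 g4 k1 k4
    have h8 := ih (step_norm hG hf g5 hD) g7 k7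
    have s1 : ev n fr β (step n fr α β D) (Pt n e w (lam n e α β w)) = ev n fr α D (Pt n e w (lam n e α β w)) :=
      step_ev hG hf g5 D (lf_psi hG (ear5_ne hd _) g4) (lf_psi hG (ear5_ne hd _) (ear5_act g7))
    have s2 : ev n fr β (step n fr α β D) (Pt n e w' (lam n e α β w')) = ev n fr α D (Pt n e w' (lam n e α β w')) :=
      step_ev hG hf g5 D (lf_psi hG (ear5_ne' hd _) k4) (lf_psi hG (ear5_ne' hd _) (ear5_act k7))
    rw [s1, s2] at h8
    have c1 := ear5_cr (ev n fr α D (Pt n e w' (lam n e α β w'))) (ev n fr α D (Pt n e w' b))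
    have c2 := ear5_cr (ev n fr α D (Pt n e w' b)) (ev n fr α D (Pt n e w a))
    show qar n e w w' α a b (lam n e α β w) (lam n e α β w') +
        colA n e w w' β (lam n e α β w) (lam n e α β w') l =
      ((cr (ev n fr α D (Pt n e w a)) (ev n fr α D (Pt n e w (lam n e α β w))) +
          shL n fr e w β (step n fr α β D) (lam n e α β w) l) -
        (cr (ev n fr α D (Pt n e w' b)) (ev n fr α D (Pt n e w' (lam n e α β w'))) +
          shL n fr e w' β (step n fr α β D) (lam n e α β w') l) +
        cr (ev n fr (devAux n fr β (step n fr α β D) l).1 (devAux n fr β (step n fr α β D) l).2 (Pt n e w 0))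
          (ev n fr (devAux n fr β (step n fr α β D) l).1 (devAux n fr β (step n fr α β D) l).2 (Pt n e w' 0)) -
        cr (ev n fr α D (Pt n e w a)) (ev n fr α D (Pt n e w' b))) / 2
    rw [h7, h8, c1, c2]
    ring

theorem ear5_lam {e w : E3} {α β : A × Bool} (hα : Act n α w) (hβ : Act n β w) : lam n e α β w = 0 := by
  unfold lam
  rw [le_antisymm (hα β) (hβ α), sub_self, zero_div]

theorem ear5_zero {e w : E3} (l : List (A × Bool)) {α : A × Bool} {D : ℂ × ℂ} (hα : Act n α w)
    (h : ∀ β ∈ l, Act n β w) : shL n fr e w α D 0 l = 0 := by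
  induction l generalizing α D with
  | nil => exact ear5_cr0 _
  | cons β l ih =>
    have hβ := h β (by simp)
    show cr (ev n fr α D (Pt n e w 0)) (ev n fr α D (Pt n e w (lam n e α β w))) +
      shL n fr e w β (step n fr α β D) (lam n e α β w) l = 0
    rw [ear5_lam hα hβ, ear5_cr0, ih hβ (fun γ hγ => h γ (List.mem_cons_of_mem _ hγ)), add_zero]

theorem shL_append (hG : Gnr n) (hf : Frm n fr) {e w : E3} (hw : w ≠ 0) (l l' : List (A × Bool)) {α : A × Bool}
    {D : ℂ × ℂ} {a : ℝ} (h : Good n e w α a (l ++ l')) (h' : ∀ β ∈ l', Act n β w)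
    (h'' : ∀ β, (α :: l).getLast? = some β → Act n β w) :
    shL n fr e w α D a (l ++ l') = shL n fr e w α D a l := by
  induction l generalizing α D a with
  | nil =>
    have hα : Act n α w := h'' α (by simp)
    cases l' with
    | nil => rfl
    | cons β l' =>
      have hβ := h' β (by simp)
      show cr (ev n fr α D (Pt n e w a)) (ev n fr α D (Pt n e w (lam n e α β w))) +
        shL n fr e w β (step n fr α β D) (lam n e α β w) l' = cr (ev n fr α D (Pt n e w a)) (ev n fr α D (Pt n e w 0))
      rw [ear5_lam hα hβ, ear5_zero l' hβ (fun γ hγ => h' γ (List.mem_cons_of_mem _ hγ)), add_zero]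
  | cons β l ih =>
    show cr (ev n fr α D (Pt n e w a)) (ev n fr α D (Pt n e w (lam n e α β w))) +
        shL n fr e w β (step n fr α β D) (lam n e α β w) (l ++ l') =
      cr (ev n fr α D (Pt n e w a)) (ev n fr α D (Pt n e w (lam n e α β w))) +
        shL n fr e w β (step n fr α β D) (lam n e α β w) l
    obtain ⟨-, -, -, -, -, -, g7⟩ := h
    rw [ih g7 (fun γ hγ => h'' γ (by rw [List.getLast?_cons_cons]; exact hγ))]

end H47A
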