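import Pool.Agent.Lib.H47A.EFan3

/-! # H47A, chunk EFAN3B (M): the discs meet along Gamma; local segments
`uu_inter`: u in Cn k, -u in Cn l: u = a e + b γ k + c γ (k+1) = -(a' e + b' γ l + c' γ (l+1)) = -a' e + b' γ (l+m) + c' γ (l+1+m),
all coefficients >= 0. By `uu_form` for u and -u: (i) u = c e and -u = c' e with c, c' > 0: impossible. (ii) u = c e, -u = r (G x + t e):
az (G x) = 0, impossible (`az_G_ne`); same for the other mixed case. (iii) u = r (G x + t e), -u = r' (G y + t' e), so u = r' (G (y+m) - t' e)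
(`G_anti`). Azimuths: r az (G x) = r' az (G (y+m)): with T from `exists_th` and `exp_unique`: T x = T (y+m) + 2 pi l = T (y + m + 2 m l):
x = y + m + 2 m l, G x = G (y+m), r = r'. So r t e = - r' t' e: t = -t', t = t' = 0. So u = r G x and gg gives r = 1: u = G x.
`piece`: near X every Y on bd lies in a piece (sign s, k in range (2m), active facet a) which contains X: pieces are
{u | s u in Cn k} and {Act a}, closed and finitely many; those which do not contain X are avoided near X. Then X and Y are in s Cn k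
(convex) and a is active at both: on the segment a is active (`Act.seg`) and lf a = 1, so gg = 1 on the segment. -/

open Real Filter Topology

namespace H47A

variable {A : Type} [Fintype A] [DecidableEq A] {n : A → E3} {f1 f2 e : E3} {m : ℕ}

namespace Fan

/-- The direction determines the point of the curve. -/
theorem dir_unique (F : Fan n f1 f2 m) {x y r r' : ℝ} (hr : 0 < r) (hr' : 0 < r')
    (h : (r : ℂ) * az f1 f2 (F.G x) = (r' : ℂ) * az f1 f2 (F.G y)) : F.G x = F.G y ∧ r = r' := by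
  obtain ⟨T, hmono, hT, -, haz⟩ := F.exists_th
  obtain ⟨ρ, hρ, h1⟩ := haz x
  obtain ⟨ρ', hρ', h2⟩ := haz y
  have h3 : ((r * ρ : ℝ) : ℂ) * Complex.exp ((T x : ℂ) * Complex.I) =
      ((r' * ρ' : ℝ) : ℂ) * Complex.exp ((T y : ℂ) * Complex.I) := by
    rw [h1, h2] at h
    push_cast
    rw [mul_assoc, mul_assoc]
    exact h
  obtain ⟨-, l, hl⟩ := exp_unique (mul_pos hr hρ) (mul_pos hr' hρ') h3
  have h4 : x = y + 2 * m * l := by
    apply hmono.injective
    rw [efan2_T hT, hl]
  have h5 : F.G x = F.G y := by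
    rw [h4, F.efan2_G]
  refine ⟨h5, ?_⟩
  rw [h5] at h
  have h6 := mul_right_cancel₀ (F.az_G_ne y) h
  exact_mod_cast h6

theorem efan3b_e (hA : Axis f1 f2 e) : e ≠ 0 := by
  rintro rfl
  have := hA.ne
  rw [norm_zero] at this
  norm_num at this

theorem efan3b_az (hA : Axis f1 f2 e) (r t : ℝ) (u : E3) : az f1 f2 (r • (u + t • e)) = (r : ℂ) * az f1 f2 u := by
  rw [az_smul, efan2_az hA]

theorem efan3b_az0 (hA : Axis f1 f2 e) (c : ℝ) : az f1 f2 (c • e) = 0 := by
  rw [az_smul, az_e hA, mul_zero]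

theorem efan3b_azneg (u : E3) : az f1 f2 (-u) = -az f1 f2 u := by
  have h := az_smul (f1 := f1) (f2 := f2) (-1) u
  rw [neg_one_smul] at h
  rw [h]
  push_cast
  ring

theorem uu_inter (hG : Gnr n) (hA : Axis f1 f2 e) (F : Fan n f1 f2 m) {u : E3} (hu : u ∈ F.UU e) (hu' : -u ∈ F.UU e) :
    ∃ x : ℝ, u = F.G x := by
  have he := efan3b_e hA
  have hmix : ∀ (v : E3) (c x r t : ℝ), 0 < r → v = c • e → -v = r • (F.G x + t • e) → False := by
    intro v c x r t hr h1 h2
    have h3 := congrArg (az f1 f2) h2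
    rw [h1, efan3b_azneg, efan3b_az0 hA, efan3b_az hA, neg_zero] at h3
    exact mul_ne_zero (Complex.ofReal_ne_zero.2 hr.ne') (F.az_G_ne x) h3.symm
  rcases F.uu_form hG hu with ⟨c, hc, h1⟩ | ⟨x, r, t, hr, ht, h1⟩
  · rcases F.uu_form hG hu' with ⟨c', hc', h2⟩ | ⟨y, r', t', hr', ht', h2⟩
    · exfalso
      rw [h1, ← neg_smul] at h2
      have h3 : (-c - c') • e = 0 := by rw [sub_smul, h2, sub_self]
      rcases smul_eq_zero.1 h3 with h4 | h4
      · linarith
      · exact he h4
    · exact absurd (hmix u c y r' t' hr' h1 h2) id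
  · rcases F.uu_form hG hu' with ⟨c', hc', h2⟩ | ⟨y, r', t', hr', ht', h2⟩
    · exact absurd (hmix (-u) c' x r t hr h2 (by rw [neg_neg]; exact h1)) id
    · have h3 : (r : ℂ) * az f1 f2 (F.G x) = (r' : ℂ) * az f1 f2 (F.G (y + m)) := by
        have h4 := congrArg (az f1 f2) h2
        rw [h1, efan3b_azneg, efan3b_az hA, efan3b_az hA] at h4
        rw [F.G_anti, efan3b_azneg, mul_neg, ← h4, neg_neg]
      obtain ⟨h4, h5⟩ := F.dir_unique hr hr' h3
      rw [h1, ← h5, ← smul_neg] at h2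
      have h6 := smul_right_injective E3 hr.ne' h2
      rw [h4, F.G_anti, neg_add, neg_neg, ← neg_smul] at h6
      have h7 := add_left_cancel h6
      have h8 : (-t - t') • e = 0 := by rw [sub_smul, h7, sub_self]
      have h9 : t = 0 := by
        rcases smul_eq_zero.1 h8 with h10 | h10
        · linarith
        · exact absurd h10 he
      rw [h9, zero_smul, add_zero] at h1
      have h10 := hu.1
      rw [h1, gg_smul hG hr.le, F.G_gg hG, mul_one] at h10
      refine ⟨x, ?_⟩
      rw [h1, h10, one_smul]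

theorem efan3b_closed {S : Set E3} (hS : IsClosed S) (X : E3) : ∀ᶠ Y in 𝓝 X, Y ∈ S → X ∈ S := by
  by_cases h : X ∈ S
  · exact Eventually.of_forall fun Y _ => h
  · filter_upwards [hS.isOpen_compl.mem_nhds h] with Y hY h'
    exact absurd h' hY

theorem piece_one (hG : Gnr n) (hA : Axis f1 f2 e) (F : Fan n f1 f2 m) {X : E3} (hX : gg n X = 1) :
    ∀ᶠ Y in 𝓝 X, Y ∈ F.UU e → segment ℝ X Y ⊆ F.UU e := by
  have h1 : ∀ᶠ Y in 𝓝 X, ∀ k ∈ Finset.range (2 * m), Y ∈ F.Cn e (k : ℤ) → X ∈ F.Cn e (k : ℤ) := by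
    rw [Filter.eventually_all_finset]
    intro k _
    exact efan3b_closed (F.cn_closed hA _) X
  have h2 : ∀ᶠ Y in 𝓝 X, ∀ α, Act n α Y → Act n α X := by
    rw [Filter.eventually_all]
    intro α
    exact efan3b_closed (act_closed α) X
  filter_upwards [h1, h2] with Y h3 h4 hY
  obtain ⟨h5, k, hk, hkY⟩ := (F.uu_iff Y).1 hY
  obtain ⟨α, hα⟩ := exists_act hG Y
  have hkX := h3 k hk hkY
  have hαX := h4 α hα
  intro z hz
  refine ⟨?_, k, (F.cn_convex k).segment_subset hkX hkY hz⟩
  obtain ⟨s, t, hs, ht, hst, rfl⟩ := hz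
  have h6 : Act n α (s • X + t • Y) := by
    intro β
    rw [lf_add, lf_add, lf_smul, lf_smul, lf_smul, lf_smul]
    exact add_le_add (mul_le_mul_of_nonneg_left (hαX β) hs) (mul_le_mul_of_nonneg_left (hα β) ht)
  rw [← (act_iff hG α _).1 h6, lf_add, lf_smul, lf_smul, (act_iff hG α _).1 hαX, (act_iff hG α _).1 hα, hX, h5]
  linarith

theorem piece (hG : Gnr n) (hA : Axis f1 f2 e) (F : Fan n f1 f2 m) {X : E3} (hX : gg n X = 1) :
    ∀ᶠ Y in 𝓝 X, gg n Y = 1 → segment ℝ X Y ⊆ F.UU e ∨ segment ℝ (-X) (-Y) ⊆ F.UU e := by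
  have hX' : gg n (-X) = 1 := by rw [gg_neg hG, hX]
  have h1 := F.piece_one (e := e) hG hA hX
  have h2 := (continuous_neg.tendsto X).eventually (F.piece_one (e := e) hG hA hX')
  filter_upwards [h1, h2] with Y h3 h4 hY
  rcases F.cover hG hA hY with h5 | h5
  · exact Or.inl (h3 h5)
  · exact Or.inr (h4 h5)

end Fan

end H47A
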