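import Pool.Agent.Lib.H47A.ELip
import Pool.Agent.Lib.H47A.EFan4

/-! # H47A, chunks EM1 (M), EM2 (M): the developed boundary curve
EM1. `dev_side`: the map x -> dev (G x) is locally constant on the open interval (k,k+1): G is continuous (`G_lip`), the facet b k is strictly
active at G x (`G_sact`), NV by `nv_G`, so Lst is constant near G x (`loc_sact`), dev depends only on Lst; a locally constant function
on a preconnected set is constant (IsPreconnected.constant_of... or `IsLocallyConstant`/ clopen argument). The last facet is b k: `dev_fst`,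
`lst_head`, `lst_last` (b k is the only active facet at G x).
`MM_side`: open part: definition of DD with psi (G x) = G x (`psi_self`, `G_gg`). At an end point x0 in {k, k+1}: `dd_at` at u = G x0: for
x in (k,k+1) near x0: ev (dev (G x)).1 (dev (G x)).2 (psi (G x0)) = DD (G x0), and dev (G x) = (b k, Dk k).
EM2 (EM2.lean). `MM_glue`: MM x - MM k = (Dk k).1 (ch (b k) (G x) - ch (b k) (G k)); b (k+m) = ng (b k), G (x+m) = - G x, `ch_neg`:
MM (x+m) - MM (k+m) = (Dk (k+m)).1 conj(ch (b k) (G x) - ch (b k) (G k)) and conj (z^{-1}) = z for |z| = 1. `Dk_per`: G (x + 2m) = G x.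
`MM_pl`: for a path g in UU: g t is in UU, so NV, NZ (`nv_uu`, `nz_uu`), psi (g t) = g t, `dd_loc` at g t and continuity of g give the
hypothesis of `lip_global`; infimum over paths. `MM_dU`: toReal (finite by `pl_fin`, imported in EM2). -/

open Real Filter Topology

namespace H47A

variable {A : Type} [Fintype A] [DecidableEq A] {n : A → E3} {fr : A → E3} {f1 f2 e : E3} {m : ℕ}

/-- The developed boundary. -/
noncomputable def MM (F : Fan n f1 f2 m) (fr : A → E3) (e : E3) (α₀ : A × Bool) (x : ℝ) : ℂ :=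
  DD n fr e α₀ (F.G x)

/-- The motion along the side `k`. -/
noncomputable def Dk (F : Fan n f1 f2 m) (fr : A → E3) (e : E3) (α₀ : A × Bool) (k : ℤ) : ℂ × ℂ :=
  (dev n fr e α₀ (F.G (k + 1 / 2))).2

/-- The linear part of the gluing of the sides `k` and `k + m`. -/
noncomputable def om (F : Fan n f1 f2 m) (fr : A → E3) (e : E3) (α₀ : A × Bool) (k : ℤ) : ℂ :=
  (Dk F fr e α₀ k).1 * (Dk F fr e α₀ (k + m)).1

theorem em1_cont (F : Fan n f1 f2 m) : Continuous F.G := by
  obtain ⟨C, hC, h⟩ := F.G_lip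
  have h1 : LipschitzWith C.toNNReal F.G := LipschitzWith.of_dist_le_mul fun x y => by
    rw [dist_eq_norm, Real.dist_eq, Real.coe_toNNReal C hC]
    exact h x y
  exact h1.continuous

theorem lst_side (hG : Gnr n) (hA : Axis f1 f2 e) (he : Gen n e) (F : Fan n f1 f2 m) (k : ℤ) {x : ℝ}
    (hx : x ∈ Set.Ioo (k : ℝ) (k + 1)) : Lst n e (F.G x) = Lst n e (F.G (k + 1 / 2)) := by
  have hhalf : (k : ℝ) + 1 / 2 ∈ Set.Ioo (k : ℝ) (k + 1) := ⟨by linarith, by linarith⟩
  refine (isPreconnected_Ioo (a := (k : ℝ)) (b := k + 1)).induction₂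
    (fun a b => Lst n e (F.G a) = Lst n e (F.G b)) ?_ ?_ ?_ hx hhalf
  · intro y hy
    have h1 := loc_sact hG he (F.nv_G hG hA y) (F.G_sact k hy)
    have h2 := ((em1_cont F).tendsto y).eventually h1
    filter_upwards [nhdsWithin_le_nhds h2] with z hz
    exact hz.symm
  · intro a b c _ _ _ h1 h2
    exact h1.trans h2
  · intro a b _ _ h1
    exact h1.symm

theorem dev_side (hG : Gnr n) (hA : Axis f1 f2 e) (he : Gen n e) {α₀ : A × Bool} (h0 : SAct n α₀ e)
    (F : Fan n f1 f2 m) (k : ℤ) {x : ℝ} (hx : x ∈ Set.Ioo (k : ℝ) (k + 1)) :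
    dev n fr e α₀ (F.G x) = (F.b k, Dk F fr e α₀ k) := by
  have h1 := lst_side hG hA he F k hx
  have h2 : dev n fr e α₀ (F.G x) = dev n fr e α₀ (F.G (k + 1 / 2)) := by
    unfold dev
    rw [h1]
  have h3 := dev_fst (n := n) (fr := fr) α₀ (1, 0) (Lst n e (F.G x)).tail
  rw [← lst_head he h0, lst_last he (F.G_sact k hx).act
    (fun β hβ hact => absurd ((F.G_sact k hx).unique hact) hβ)] at h3
  have h4 : (dev n fr e α₀ (F.G x)).1 = F.b k := (Option.some.inj h3).symm
  have h5 : (dev n fr e α₀ (F.G x)).2 = Dk F fr e α₀ k := by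
    rw [h2]
    rfl
  exact Prod.ext h4 h5

theorem MM_side (hG : Gnr n) (hf : Frm n fr) (hA : Axis f1 f2 e) (he : Gen n e) {α₀ : A × Bool} (h0 : SAct n α₀ e)
    (F : Fan n f1 f2 m) (k : ℤ) {x : ℝ} (hx : x ∈ Set.Icc (k : ℝ) (k + 1)) :
    MM F fr e α₀ x = ev n fr (F.b k) (Dk F fr e α₀ k) (F.G x) := by
  have h1 := dd_at (fr := fr) hG hf he (F.nz_G hA x) (F.nv_G hG hA x) h0
  have h2 := ((em1_cont F).tendsto x).eventually h1
  have h3 : x ∈ closure (Set.Ioo (k : ℝ) (k + 1)) := by
    rw [closure_Ioo (by linarith)]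
    exact hx
  obtain ⟨y, hy, -, -, hy3⟩ := ((mem_closure_iff_frequently.1 h3).and_eventually h2).exists
  rw [dev_side hG hA he h0 F k hy, psi_self (F.G_gg hG x)] at hy3
  exact hy3.symm

theorem Dk_norm (hG : Gnr n) (hf : Frm n fr) (hA : Axis f1 f2 e) (he : Gen n e) {α₀ : A × Bool} (h0 : SAct n α₀ e)
    (F : Fan n f1 f2 m) (k : ℤ) : ‖(Dk F fr e α₀ k).1‖ = 1 :=
  dev_unit hG hf he (F.nz_G hA _) h0

end H47A
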