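import Pool.Agent.Lib.H47A.EArD
import Pool.Agent.Lib.H47A.EM

/-! # H47A, chunks EAR6A (M), EAR6B (M): the lists of the rays are crossed in order
EAR6A `good_suffix`: let Lst e u = l1 ++ α :: l (any decomposition), Act α (u + a e), a >= 0; then Good e u α a l. Induction over l (generalising l1, α, a). l = []: α is the last facet,
active at u (`exists_last`, `lst_last`). l = β :: l': `cons_meet` gives t > 0 with α, β active at u + t e; the values agree there, so t = lam α β u (lf β e < lf α e by
`lst_pairwise`). t <= a: at u + a e: lf α >= lf β, i.e. (a - t)(lf α e - lf β e) >= 0. α.1 != β.1: `lst_chain`. Then the induction hypothesis for β with a := lam α β u.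
EAR6B (EAr6b.lean) `good_closed`: {(w,a) | Good e w α a l} is closed, by induction over l: finitely many closed conditions, lam is continuous in w, the map
(w,a) -> (w, lam α β w) is continuous. `good_col`: a0 such that Act α₀ (w + a e) for all a >= a0 and all w on the curve (compact: |G x| <= R by periodicity;
a (lf α₀ e - lf β e) >= 2 R max |nn|). For x in (k,k+1): `lst_side`, `good_suffix` with l1 = [] (`lst_head`). End points: the pair (G x, a) is a limit of pairs with x in
(k,k+1), the list is the same: `good_closed`. -/

open Real Filter Topology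

namespace H47A

variable {A : Type} [Fintype A] [DecidableEq A] {n : A → E3} {fr : A → E3} {f1 f2 e : E3} {m : ℕ}

theorem ear6_lam {e u : E3} {α β : A × Bool} {t : ℝ} (hlt : lf n β e < lf n α e)
    (h1 : lf n α (u + t • e) = lf n β (u + t • e)) : lam n e α β u = t := by
  rw [lf_add, lf_add, lf_smul, lf_smul] at h1
  unfold lam
  rw [div_eq_iff (by linarith)]
  linarith

theorem good_suffix (hG : Gnr n) {u : E3} (he : Gen n e) (hv : NV n e u) (hz : NZ e u) (l1 l : List (A × Bool))
    {α : A × Bool} {a : ℝ} (h : Lst n e u = l1 ++ α :: l) (ha : 0 ≤ a) (hα : Act n α (u + a • e)) :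
    Good n e u α a l := by
  induction l generalizing l1 α a with
  | nil =>
    refine ⟨ha, hα, ?_⟩
    obtain ⟨ω, hω, hω'⟩ := exists_last hG he u
    have h1 := lst_last he hω hω'
    rw [h, List.getLast?_concat] at h1
    rw [Option.some.inj h1]
    exact hω
  | cons β l ih =>
    obtain ⟨t, ht, h1, h2⟩ := cons_meet hG he h
    have hp := lst_pairwise he u
    rw [h, List.pairwise_append, List.pairwise_cons] at hp
    have hlt : lf n β e < lf n α e := hp.2.1.1 β (by simp)
    have hlam : lam n e α β u = t := ear6_lam hlt (le_antisymm (h2 α) (h1 β))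
    have hta : t ≤ a := by
      have h3 := hα β
      have h4 := le_antisymm (h2 α) (h1 β)
      rw [lf_add, lf_add, lf_smul, lf_smul] at h3 h4
      by_contra hc
      push Not at hc
      nlinarith
    have hne : α.1 ≠ β.1 := lst_chain hG he hz h
    have h' : Lst n e u = (l1 ++ [α]) ++ β :: l := by
      rw [h]
      simp
    refine ⟨hα, ?_, ?_, ?_, hne, hlt, ?_⟩
    · rw [hlam]
      exact ht.le
    · rw [hlam]
      exact hta
    · rw [hlam]
      exact h1
    · rw [hlam]
      exact ih (l1 ++ [α]) h' ht.le h2

end H47A
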