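import Pool.Agent.Lib.H47A.EAr6

/-! # H47A, chunk EAR6B (M): see the docstring of EAr6.lean -/

open Real Filter Topology

namespace H47A

variable {A : Type} [Fintype A] [DecidableEq A] {n : A → E3} {fr : A → E3} {f1 f2 e : E3} {m : ℕ}

theorem ear6_lf (α : A × Bool) : Continuous (lf n α) := continuous_const.inner continuous_id

theorem ear6_lamc (e : E3) (α β : A × Bool) : Continuous (lam n e α β) := by
  unfold lam
  exact ((ear6_lf β).sub (ear6_lf α)).div_const _

theorem good_closed (e : E3) (α : A × Bool) (l : List (A × Bool)) : IsClosed {p : E3 × ℝ | Good n e p.1 α p.2 l} := by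
  have hadd : Continuous fun p : E3 × ℝ => p.1 + p.2 • e := by fun_prop
  induction l generalizing α with
  | nil =>
    have h1 : IsClosed {p : E3 × ℝ | (0 : ℝ) ≤ p.2} := isClosed_le continuous_const continuous_snd
    have h2 : IsClosed {p : E3 × ℝ | Act n α (p.1 + p.2 • e)} := (act_closed α).preimage hadd
    have h3 : IsClosed {p : E3 × ℝ | Act n α p.1} := (act_closed α).preimage continuous_fst
    exact h1.inter (h2.inter h3)
  | cons β l ih =>
    have hl : Continuous fun p : E3 × ℝ => lam n e α β p.1 := (ear6_lamc e α β).comp continuous_fst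
    have h1 : IsClosed {p : E3 × ℝ | Act n α (p.1 + p.2 • e)} := (act_closed α).preimage hadd
    have h2 : IsClosed {p : E3 × ℝ | (0 : ℝ) ≤ lam n e α β p.1} := isClosed_le continuous_const hl
    have h3 : IsClosed {p : E3 × ℝ | lam n e α β p.1 ≤ p.2} := isClosed_le hl continuous_snd
    have h4 : IsClosed {p : E3 × ℝ | Act n α (p.1 + lam n e α β p.1 • e)} :=
      (act_closed α).preimage (continuous_fst.add (hl.smul continuous_const))
    have h5 : IsClosed {_p : E3 × ℝ | α.1 ≠ β.1} := isClosed_const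
    have h6 : IsClosed {_p : E3 × ℝ | lf n β e < lf n α e} := isClosed_const
    have h7 : IsClosed {p : E3 × ℝ | Good n e p.1 β (lam n e α β p.1) l} :=
      (ih β).preimage (continuous_fst.prodMk hl)
    exact h1.inter (h2.inter (h3.inter (h4.inter (h5.inter (h6.inter h7)))))

theorem ear6_bound (F : Fan n f1 f2 m) : ∃ R : ℝ, 0 ≤ R ∧ ∀ x, ‖F.G x‖ ≤ R := by
  obtain ⟨R, hR⟩ := (isCompact_Icc (a := (0 : ℝ)) (b := 2 * m)).exists_bound_of_continuousOn
    (em1_cont F).continuousOn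
  have hm : (0 : ℝ) < 2 * m := by
    have := F.two_le
    have h2 : (2 : ℝ) ≤ m := by exact_mod_cast this
    linarith
  have hper : Function.Periodic F.G (2 * m) := fun x => F.G_per x
  have h0 : 0 ≤ R := (norm_nonneg _).trans (hR 0 ⟨le_rfl, hm.le⟩)
  refine ⟨R, h0, fun x => ?_⟩
  obtain ⟨y, hy, hxy⟩ := hper.exists_mem_Ico₀ hm x
  rw [hxy]
  exact hR y ⟨hy.1, hy.2.le⟩

theorem good_col (hG : Gnr n) (hA : Axis f1 f2 e) (he : Gen n e) {α₀ : A × Bool} (h0 : SAct n α₀ e)
    (F : Fan n f1 f2 m) : ∃ a0 : ℝ, 0 ≤ a0 ∧ ∀ (k : ℤ) (x : ℝ), x ∈ Set.Icc (k : ℝ) (k + 1) → ∀ a : ℝ, a0 ≤ a →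
      Good n e (F.G x) α₀ a (Lst n e (F.G (k + 1 / 2))).tail := by
  obtain ⟨R, hR, hbd⟩ := ear6_bound F
  have hex : ∀ β : A × Bool, ∃ t : ℝ, 0 ≤ t ∧ ∀ x a, t ≤ a → lf n β (F.G x + a • e) ≤ lf n α₀ (F.G x + a • e) := by
    intro β
    by_cases hβ : β = α₀
    · exact ⟨0, le_rfl, fun x a _ => by rw [hβ]⟩
    · have hpos : 0 < lf n α₀ e - lf n β e := sub_pos.2 (h0 β hβ)
      refine ⟨(‖nn n β‖ + ‖nn n α₀‖) * R / (lf n α₀ e - lf n β e), by positivity, fun x a ha => ?_⟩
      rw [div_le_iff₀ hpos] at ha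
      have b1 : |lf n β (F.G x)| ≤ ‖nn n β‖ * R :=
        (abs_real_inner_le_norm _ _).trans (mul_le_mul_of_nonneg_left (hbd x) (norm_nonneg _))
      have b2 : |lf n α₀ (F.G x)| ≤ ‖nn n α₀‖ * R :=
        (abs_real_inner_le_norm _ _).trans (mul_le_mul_of_nonneg_left (hbd x) (norm_nonneg _))
      rw [lf_add, lf_add, lf_smul, lf_smul]
      have c1 := (abs_le.1 b1).2
      have c2 := (abs_le.1 b2).1
      nlinarith
  choose t ht0 ht using hex
  refine ⟨∑ β, t β, Finset.sum_nonneg fun β _ => ht0 β, fun k x hx a ha => ?_⟩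
  have hact : ∀ y, Act n α₀ (F.G y + a • e) := by
    intro y β
    exact ht β y a ((Finset.single_le_sum (fun γ _ => ht0 γ) (Finset.mem_univ β)).trans ha)
  have ha0 : 0 ≤ a := (Finset.sum_nonneg fun β _ => ht0 β).trans ha
  have hopen : ∀ y ∈ Set.Ioo (k : ℝ) (k + 1), Good n e (F.G y) α₀ a (Lst n e (F.G (k + 1 / 2))).tail := by
    intro y hy
    rw [← lst_side hG hA he F k hy]
    exact good_suffix hG he (F.nv_G hG hA y) (F.nz_G hA y) [] _ (by
      rw [List.nil_append]
      exact lst_head he h0 _) ha0 (hact y)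
  have hcl : IsClosed {y : ℝ | Good n e (F.G y) α₀ a (Lst n e (F.G (k + 1 / 2))).tail} :=
    (good_closed e α₀ _).preimage ((em1_cont F).prodMk continuous_const)
  have hx' : x ∈ closure (Set.Ioo (k : ℝ) (k + 1)) := by
    rw [closure_Ioo (by linarith)]
    exact hx
  exact hcl.closure_subset_iff.2 (fun y hy => hopen y hy) hx'

end H47A
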