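import Pool.Agent.Lib.H47A.EDefs

/-! # H47A, chunk ECIND (S/M): continuous induction and a local to global principle
`cind`: S = {t in [0,1] : Q t}; let c = sup {t in [0,1] : Q s for all s in [0,t]} (or use the connectedness of [0,1]: the hypothesis says
that Q is locally propagated in both directions). 0 in the set. At c: by hypothesis at c there is a neighbourhood; there is s <= c close to c with Q s
(s in the set), so Q c (second part), and then Q s for all s > c close to c (first part), so c = 1 and Q 1.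
`lip_global`: Q t := norm (f t - f 0) <= eVariationOn g (Icc 0 t) (in ENNReal: ENNReal.ofReal (norm ..) or edist). With
edist (f s) (f t) <= edist (g s) (g t) <= eVariationOn g (Icc s t) (`eVariationOn.edist_le`) and additivity `eVariationOn.Icc_add_Icc`. -/

open Real Finset Filter Topology

namespace H47A

theorem cind {Q : ℝ → Prop} (h0 : Q 0)
    (h : ∀ t ∈ Set.Icc (0 : ℝ) 1, ∀ᶠ s in 𝓝 t, s ∈ Set.Icc (0 : ℝ) 1 → (t ≤ s → Q t → Q s) ∧ (s ≤ t → Q s → Q t)) :
    Q 1 := by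
  set S : Set ℝ := {t | t ∈ Set.Icc (0 : ℝ) 1 ∧ ∀ s ∈ Set.Icc (0 : ℝ) t, Q s} with hS
  have h0S : (0 : ℝ) ∈ S := by
    refine ⟨⟨le_rfl, zero_le_one⟩, fun s hs => ?_⟩
    have : s = 0 := le_antisymm hs.2 hs.1
    rw [this]; exact h0
  have hbd : BddAbove S := ⟨1, fun t ht => ht.1.2⟩
  have hc0 : 0 ≤ sSup S := le_csSup hbd h0S
  have hc1 : sSup S ≤ 1 := csSup_le ⟨0, h0S⟩ fun t ht => ht.1.2
  obtain ⟨ε, hε, hball⟩ := Metric.eventually_nhds_iff.1 (h (sSup S) ⟨hc0, hc1⟩)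
  obtain ⟨t, htS, htc⟩ := exists_lt_of_lt_csSup ⟨0, h0S⟩ (show sSup S - ε < sSup S by linarith)
  have htle : t ≤ sSup S := le_csSup hbd htS
  have hQc : Q (sSup S) := by
    have h1 := hball (y := t) (by rw [Real.dist_eq, abs_lt]; constructor <;> linarith) htS.1
    exact h1.2 htle (htS.2 t ⟨htS.1.1, le_rfl⟩)
  have hbelow : ∀ s ∈ Set.Icc (0 : ℝ) (sSup S), Q s := by
    intro s hs
    rcases hs.2.lt_or_eq with h1 | h1
    · obtain ⟨u, huS, hu⟩ := exists_lt_of_lt_csSup ⟨0, h0S⟩ h1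
      exact huS.2 s ⟨hs.1, hu.le⟩
    · rw [h1]; exact hQc
  by_contra hQ1
  have hlt : sSup S < 1 := by
    refine lt_of_le_of_ne hc1 fun h1 => hQ1 ?_
    rw [← h1]; exact hQc
  have hmem : min (sSup S + ε / 2) 1 ∈ S := by
    refine ⟨⟨le_min (by linarith) zero_le_one, min_le_right _ _⟩, fun s hs => ?_⟩
    rcases le_total s (sSup S) with h1 | h1
    · exact hbelow s ⟨hs.1, h1⟩
    · have h2 : s ≤ sSup S + ε / 2 := hs.2.trans (min_le_left _ _)
      have h3 := hball (y := s) (by rw [Real.dist_eq, abs_lt]; constructor <;> linarith)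
        ⟨hs.1, hs.2.trans (min_le_right _ _)⟩
      exact h3.1 h1 hQc
  have h4 := le_csSup hbd hmem
  rcases min_le_iff.1 h4 with h5 | h5 <;> linarith

theorem lip_global {E F : Type*} [NormedAddCommGroup E] [NormedAddCommGroup F] {g : ℝ → E} {f : ℝ → F}
    (h : ∀ t ∈ Set.Icc (0 : ℝ) 1, ∀ᶠ s in 𝓝 t, s ∈ Set.Icc (0 : ℝ) 1 → ‖f s - f t‖ ≤ ‖g s - g t‖) :
    ENNReal.ofReal ‖f 1 - f 0‖ ≤ eVariationOn g (Set.Icc 0 1) := by
  have key : ∀ a b c : ℝ, 0 ≤ b → b ≤ c → ‖f c - f b‖ ≤ ‖g c - g b‖ →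
      ENNReal.ofReal ‖f b - f 0‖ ≤ eVariationOn g (Set.Icc 0 b) →
      ENNReal.ofReal ‖f c - f 0‖ ≤ eVariationOn g (Set.Icc 0 c) := by
    intro a b c hb hbc h1 h2
    have h3 : eVariationOn g (Set.Icc 0 b) + eVariationOn g (Set.Icc b c) = eVariationOn g (Set.Icc 0 c) := by
      have := eVariationOn.Icc_add_Icc g (s := Set.univ) hb hbc (Set.mem_univ b)
      simpa only [Set.univ_inter] using this
    rw [← h3]
    have h4 : ENNReal.ofReal ‖g c - g b‖ ≤ eVariationOn g (Set.Icc b c) := by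
      have := eVariationOn.edist_le g (s := Set.Icc b c) (x := c) (y := b) ⟨hbc, le_rfl⟩ ⟨le_rfl, hbc⟩
      rwa [edist_dist, dist_eq_norm] at this
    calc ENNReal.ofReal ‖f c - f 0‖ ≤ ENNReal.ofReal (‖f b - f 0‖ + ‖f c - f b‖) := by
          apply ENNReal.ofReal_le_ofReal
          calc ‖f c - f 0‖ = ‖(f b - f 0) + (f c - f b)‖ := by congr 1; abel
            _ ≤ _ := norm_add_le _ _
      _ = ENNReal.ofReal ‖f b - f 0‖ + ENNReal.ofReal ‖f c - f b‖ :=
          ENNReal.ofReal_add (norm_nonneg _) (norm_nonneg _)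
      _ ≤ _ := add_le_add h2 ((ENNReal.ofReal_le_ofReal h1).trans h4)
  refine cind (Q := fun t => ENNReal.ofReal ‖f t - f 0‖ ≤ eVariationOn g (Set.Icc 0 t)) ?_ ?_
  · simp
  · intro t ht
    filter_upwards [h t ht] with s hs hs1
    have h1 := hs hs1
    refine ⟨fun hts hQ => key 0 t s ht.1 hts h1 hQ, fun hst hQ => key 0 s t hs1.1 hst ?_ hQ⟩
    rw [norm_sub_rev (f t), norm_sub_rev (g t)]
    exact h1

end H47A
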