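import Pool.Agent.Lib.H47A.EPd

/-! # H47A, chunk EPD2 (M): see the docstring of EPd.lean -/

open Real Filter Topology

namespace H47A

theorem pl_cut {S : Set E3} {γ : ℝ → E3} (h : Continuous γ) (hS : ∀ t ∈ Set.Icc (0 : ℝ) 1, γ t ∈ S) {s t : ℝ}
    (hs : 0 ≤ s) (hst : s ≤ t) (ht : t ≤ 1) : pl S (γ s) (γ t) ≤ eVariationOn γ (Set.Icc s t) := by
  have hm : Set.MapsTo (fun r : ℝ => s + r * (t - s)) (Set.Icc 0 1) (Set.Icc s t) := by
    intro r hr
    have h1 := hr.1
    have h2 := hr.2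
    exact ⟨by nlinarith, by nlinarith⟩
  refine (pl_le (γ := fun r => γ (s + r * (t - s))) (h.comp (by fun_prop)) ?_ ?_ ?_).trans ?_
  · show γ (s + 0 * (t - s)) = γ s
    rw [zero_mul, add_zero]
  · show γ (s + 1 * (t - s)) = γ t
    rw [one_mul, add_sub_cancel]
  · intro r hr
    have h1 := hm hr
    exact hS _ ⟨hs.trans h1.1, h1.2.trans ht⟩
  · refine eVariationOn.comp_le_of_monotoneOn γ (fun r : ℝ => s + r * (t - s)) (fun a _ b _ hab => ?_) hm
    show s + a * (t - s) ≤ s + b * (t - s)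
    nlinarith

theorem epd2_cat {S : Set E3} {x y z : E3} {p q : ℝ → E3} (hp : Continuous p) (hq : Continuous q) (p0 : p 0 = x) (p1 : p 1 = y)
    (q0 : q 0 = y) (q1 : q 1 = z) (hpS : ∀ t ∈ Set.Icc (0 : ℝ) 1, p t ∈ S) (hqS : ∀ t ∈ Set.Icc (0 : ℝ) 1, q t ∈ S) :
    pl S x z ≤ eVariationOn p (Set.Icc 0 1) + eVariationOn q (Set.Icc 0 1) := by
  have hc : Continuous fun r : ℝ => if r ≤ 1 / 2 then p (2 * r) else q (2 * r - 1) := by
    refine Continuous.if_le (hp.comp (by fun_prop)) (hq.comp (by fun_prop)) continuous_id continuous_const fun r hr => ?_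
    have hr' : r = 1 / 2 := hr
    show p (2 * r) = q (2 * r - 1)
    rw [hr']
    norm_num
    rw [p1, q0]
  refine (pl_le hc ?_ ?_ ?_).trans ?_
  · beta_reduce
    rw [if_pos (by norm_num), mul_zero, p0]
  · beta_reduce
    rw [if_neg (by norm_num)]
    norm_num
    exact q1
  · intro r hr
    beta_reduce
    split_ifs with h
    · exact hpS _ ⟨by linarith [hr.1], by linarith⟩
    · exact hqS _ ⟨by linarith, by linarith [hr.2]⟩
  · have hadd := eVariationOn.Icc_add_Icc (fun r : ℝ => if r ≤ 1 / 2 then p (2 * r) else q (2 * r - 1)) (s := Set.univ)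
      (a := 0) (b := 1 / 2) (c := 1) (by norm_num) (by norm_num) trivial
    rw [Set.univ_inter, Set.univ_inter, Set.univ_inter] at hadd
    rw [← hadd]
    refine add_le_add ?_ ?_
    · have e1 : eVariationOn (fun r : ℝ => if r ≤ 1 / 2 then p (2 * r) else q (2 * r - 1)) (Set.Icc 0 (1 / 2)) =
          eVariationOn (p ∘ fun r => 2 * r) (Set.Icc 0 (1 / 2)) := by
        refine eVariationOn.congr fun r hr => ?_
        beta_reduce
        rw [if_pos hr.2]
        rfl
      rw [e1]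
      refine eVariationOn.comp_le_of_monotoneOn p (fun r : ℝ => 2 * r) (fun a _ b _ hab => ?_) ?_
      · show 2 * a ≤ 2 * b
        linarith
      · intro r hr
        exact ⟨by linarith [hr.1], by linarith [hr.2]⟩
    · have e1 : eVariationOn (fun r : ℝ => if r ≤ 1 / 2 then p (2 * r) else q (2 * r - 1)) (Set.Icc (1 / 2) 1) =
          eVariationOn (q ∘ fun r => 2 * r - 1) (Set.Icc (1 / 2) 1) := by
        refine eVariationOn.congr fun r hr => ?_
        beta_reduce
        rcases eq_or_lt_of_le hr.1 with h | h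
        · rw [← h, if_pos le_rfl]
          show p (2 * (1 / 2)) = q (2 * (1 / 2) - 1)
          norm_num
          rw [p1, q0]
        · rw [if_neg (by linarith)]
          rfl
      rw [e1]
      refine eVariationOn.comp_le_of_monotoneOn q (fun r : ℝ => 2 * r - 1) (fun a _ b _ hab => ?_) ?_
      · show 2 * a - 1 ≤ 2 * b - 1
        linarith
      · intro r hr
        exact ⟨by linarith [hr.1], by linarith [hr.2]⟩

theorem pl_tri (S : Set E3) (x y z : E3) : pl S x z ≤ pl S x y + pl S y z := by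
  refine ENNReal.le_of_forall_pos_le_add fun ε hε hfin => ?_
  have h1 : pl S x y ≠ ⊤ := fun h => by rw [h, top_add] at hfin; exact lt_irrefl _ hfin
  have h2 : pl S y z ≠ ⊤ := fun h => by rw [h, add_top] at hfin; exact lt_irrefl _ hfin
  have hε2 : ((ε / 2 : NNReal) : ENNReal) ≠ 0 := by
    have : (0 : NNReal) < ε / 2 := half_pos hε
    exact_mod_cast this.ne'
  obtain ⟨p, hp, p0, p1, hpS, hpv⟩ := pl_exists (ENNReal.lt_add_right h1 hε2)
  obtain ⟨q, hq, q0, q1, hqS, hqv⟩ := pl_exists (ENNReal.lt_add_right h2 hε2)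
  refine (epd2_cat hp hq p0 p1 q0 q1 hpS hqS).trans ((add_le_add hpv.le hqv.le).trans_eq ?_)
  have h3 : ((ε / 2 : NNReal) : ENNReal) + ((ε / 2 : NNReal) : ENNReal) = ε := by
    rw [← ENNReal.coe_add, add_halves]
  calc pl S x y + ((ε / 2 : NNReal) : ENNReal) + (pl S y z + ((ε / 2 : NNReal) : ENNReal))
      = pl S x y + pl S y z + (((ε / 2 : NNReal) : ENNReal) + ((ε / 2 : NNReal) : ENNReal)) := by
        rw [add_add_add_comm]
    _ = _ := by rw [h3]

theorem epd2_sum {p : ℝ → E3} {s : ℝ} (hs : s ∈ Set.Icc (0 : ℝ) 1) :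
    eVariationOn p (Set.Icc 0 s) + eVariationOn p (Set.Icc s 1) = eVariationOn p (Set.Icc 0 1) := by
  have h := eVariationOn.Icc_add_Icc p (s := Set.univ) (a := 0) (b := s) (c := 1) hs.1 hs.2 trivial
  rwa [Set.univ_inter, Set.univ_inter, Set.univ_inter] at h

/-- A path from `x` to `z` and a path from `y` to `w` which meet: swap the tails. -/
theorem pl_swap {S : Set E3} {p q : ℝ → E3} (hp : Continuous p) (hq : Continuous q)
    (hpS : ∀ t ∈ Set.Icc (0 : ℝ) 1, p t ∈ S) (hqS : ∀ t ∈ Set.Icc (0 : ℝ) 1, q t ∈ S) {s t : ℝ}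
    (hs : s ∈ Set.Icc (0 : ℝ) 1) (ht : t ∈ Set.Icc (0 : ℝ) 1) (h : p s = q t) :
    pl S (p 0) (q 0) + pl S (p 1) (q 1) ≤ eVariationOn p (Set.Icc 0 1) + eVariationOn q (Set.Icc 0 1) ∧
      pl S (p 0) (q 1) + pl S (p 1) (q 0) ≤ eVariationOn p (Set.Icc 0 1) + eVariationOn q (Set.Icc 0 1) := by
  have a1 := pl_cut hp hpS le_rfl hs.1 hs.2
  have a2 := pl_cut hp hpS hs.1 hs.2 le_rfl
  have b1 := pl_cut hq hqS le_rfl ht.1 ht.2
  have b2 := pl_cut hq hqS ht.1 ht.2 le_rfl
  rw [pl_symm] at a2 b1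
  rw [← h] at b1 b2
  rw [← epd2_sum (p := p) hs, ← epd2_sum (p := q) ht]
  refine ⟨?_, ?_⟩
  · have c1 := (pl_tri S (p 0) (p s) (q 0)).trans (add_le_add a1 b1)
    have c2 := (pl_tri S (p 1) (p s) (q 1)).trans (add_le_add a2 b2)
    refine (add_le_add c1 c2).trans_eq ?_
    rw [add_add_add_comm]
  · have c1 := (pl_tri S (p 0) (p s) (q 1)).trans (add_le_add a1 b2)
    have c2 := (pl_tri S (p 1) (p s) (q 0)).trans (add_le_add a2 b1)
    refine (add_le_add c1 c2).trans_eq ?_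
    rw [add_add_add_comm, add_comm (eVariationOn q (Set.Icc t 1))]

end H47A
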