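import Pool.Agent.Lib.H47A.EDisc2
import Pool.Agent.Lib.H47A.EPd2
import Pool.Agent.Lib.H47A.DDefs

/-! # H47A, chunks EMON1 (M), EMON2 (M): the inner distance of the upper disc satisfies the Monge inequalities
EMON1: `pl_pole`: for u in UU the path t -> psi (seg e u t) (t projected to [0,1]) is in UU (`uu_star`), continuous (`psi_cont`), from psi e
(t = 0) to u (`psi_self`). It has finite length: seg e u . is Lipschitz, gg is Lipschitz (a finite maximum of linear functionals) and gg (seg e u t) >=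
c > 0 on [0,1] by compactness, so psi (seg e u .) is Lipschitz on [0,1]: LipschitzOnWith gives finite variation
(LipschitzOnWith.comp_locallyBoundedVariationOn or directly BoundedVariationOn). `pl_fin`: `pl_tri` through psi e.
`pl_G`: pl UU (G x) (G y) <= C |x - y|: the path t -> G (x + t (y - x)), Lipschitz with constant C |y - x| (`G_lip`).
EMON2 (`dU_monge`): symm: `pl_symm`; self: `pl_self`, `G_uu`; tri: `pl_tri` with toReal (all finite); per: `G_per`. cont: |dU x y - dU x' y'| <=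
dU x x' + dU y y' <= C (|x - x'| + |y - y'|) (`pl_G`): continuous (Metric/LipschitzWith). monge: for eps > 0 take paths p from G x to G z, q
from G y to G w of length <= dU + eps (`pl_exists`), they meet (`cross_uu`), `pl_swap`: pl (G x)(G y) + pl (G z)(G w) <= .., pl (G x)(G w) +
pl (G z)(G y) <= ..; let eps -> 0. -/

open Real Filter Topology

namespace H47A

variable {A : Type} [Fintype A] [DecidableEq A] {n : A → E3} {f1 f2 e : E3} {m : ℕ}

theorem emon_up (hG : Gnr n) : ∃ L : ℝ, 0 ≤ L ∧ ∀ u : E3, gg n u ≤ L * ‖u‖ := by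
  haveI := egau_ne hG
  refine ⟨∑ β : A × Bool, ‖nn n β‖, Finset.sum_nonneg fun _ _ => norm_nonneg _, fun u => ?_⟩
  refine ciSup_le fun α => (real_inner_le_norm _ _).trans (mul_le_mul_of_nonneg_right ?_ (norm_nonneg _))
  exact Finset.single_le_sum (f := fun β => ‖nn n β‖) (fun _ _ => norm_nonneg _) (Finset.mem_univ α)

theorem emon_lip (hG : Gnr n) {g : ℝ} (hg : 0 < g) :
    ∃ K : ℝ, 0 ≤ K ∧ ∀ a b : E3, g ≤ gg n a → g ≤ gg n b → ‖psi n a - psi n b‖ ≤ K * ‖a - b‖ := by
  obtain ⟨L, hL, hup⟩ := emon_up hG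
  obtain ⟨c, hc, hlow⟩ := egau_low hG
  have hLip : ∀ a b : E3, gg n a - gg n b ≤ L * ‖a - b‖ := by
    intro a b
    have h := gg_add hG (a - b) b
    rw [sub_add_cancel] at h
    linarith [hup (a - b)]
  refine ⟨g⁻¹ + L / (g * c), by positivity, fun a b ha hb => ?_⟩
  have ha0 : 0 < gg n a := hg.trans_le ha
  have hb0 : 0 < gg n b := hg.trans_le hb
  have e1 : psi n a - psi n b = (gg n a)⁻¹ • (a - b) + ((gg n a)⁻¹ - (gg n b)⁻¹) • b := by
    unfold psi
    rw [smul_sub, sub_smul]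
    abel
  have h1 : ‖(gg n a)⁻¹ • (a - b)‖ ≤ g⁻¹ * ‖a - b‖ := by
    rw [norm_smul, Real.norm_eq_abs, abs_of_pos (inv_pos.2 ha0)]
    exact mul_le_mul_of_nonneg_right (inv_anti₀ hg ha) (norm_nonneg _)
  have h2 : |gg n b - gg n a| ≤ L * ‖a - b‖ := by
    rw [abs_le]
    have h3 := hLip b a
    rw [norm_sub_rev] at h3
    exact ⟨by linarith [hLip a b], h3⟩
  have h3 : ‖((gg n a)⁻¹ - (gg n b)⁻¹) • b‖ ≤ L / (g * c) * ‖a - b‖ := by
    have e2 : (gg n a)⁻¹ - (gg n b)⁻¹ = (gg n b - gg n a) / (gg n a * gg n b) := by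
      field_simp
    rw [norm_smul, Real.norm_eq_abs, e2, abs_div, abs_of_pos (mul_pos ha0 hb0), div_mul_eq_mul_div, div_le_iff₀ (mul_pos ha0 hb0)]
    have h4 : |gg n b - gg n a| * ‖b‖ ≤ (L * ‖a - b‖) * (gg n b / c) := by
      refine mul_le_mul h2 ?_ (norm_nonneg _) (by positivity)
      rw [le_div_iff₀ hc, mul_comm]
      exact hlow b
    refine h4.trans ?_
    have e3 : L / (g * c) * ‖a - b‖ * (gg n a * gg n b) = (L * ‖a - b‖) * (gg n b / c) * (gg n a / g) := by
      field_simp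
    rw [e3]
    refine le_mul_of_one_le_right (by positivity) ?_
    rw [le_div_iff₀ hg, one_mul]
    exact ha
  rw [e1, add_mul]
  exact (norm_add_le _ _).trans (add_le_add h1 h3)

theorem emon_path {S : Set E3} {f : ℝ → E3} {K : ℝ} (hK : 0 ≤ K)
    (hf : ∀ s ∈ Set.Icc (0 : ℝ) 1, ∀ t ∈ Set.Icc (0 : ℝ) 1, ‖f s - f t‖ ≤ K * |s - t|)
    (hS : ∀ t ∈ Set.Icc (0 : ℝ) 1, f t ∈ S) : pl S (f 0) (f 1) ≤ ENNReal.ofReal K := by
  have hp : ∀ t : ℝ, max 0 (min 1 t) ∈ Set.Icc (0 : ℝ) 1 := fun t =>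
    ⟨le_max_left _ _, max_le zero_le_one (min_le_left _ _)⟩
  have hl : LipschitzOnWith ⟨K, hK⟩ f (Set.Icc (0 : ℝ) 1) := by
    refine LipschitzOnWith.of_dist_le_mul fun x hx y hy => ?_
    rw [dist_eq_norm, Real.dist_eq]
    exact hf x hx y hy
  refine (pl_le (γ := fun t => f (max 0 (min 1 t))) ?_ ?_ ?_ ?_).trans ?_
  · exact hl.continuousOn.comp_continuous (by fun_prop) hp
  · show f (max 0 (min 1 0)) = f 0
    norm_num
  · show f (max 0 (min 1 1)) = f 1
    norm_num
  · intro t _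
    exact hS _ (hp t)
  · have e1 : eVariationOn (fun t => f (max 0 (min 1 t))) (Set.Icc 0 1) = eVariationOn (f ∘ fun t : ℝ => t) (Set.Icc 0 1) := by
      refine eVariationOn.congr fun t ht => ?_
      show f (max 0 (min 1 t)) = f t
      rw [min_eq_right ht.2, max_eq_right ht.1]
    rw [e1]
    refine (hl.comp_eVariationOn_le (g := fun t : ℝ => t) (s := Set.Icc (0 : ℝ) 1) (fun _ h => h)).trans ?_
    refine (mul_le_mul_right epd_id _).trans ?_
    rw [mul_one, ENNReal.ofReal, Real.toNNReal_of_nonneg hK]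
    rfl

theorem emon_pole (hG : Gnr n) (hA : Axis f1 f2 e) (F : Fan n f1 f2 m) {u : E3} (hu : u ∈ F.UU e) :
    pl (F.UU e) (psi n e) u < ⊤ := by
  have hseg : Continuous (seg e u) := by
    unfold seg
    fun_prop
  obtain ⟨t0, ht0, hmin⟩ := isCompact_Icc.exists_isMinOn (s := Set.Icc (0 : ℝ) 1) ⟨0, le_rfl, zero_le_one⟩
    ((gg_cont hG).comp hseg).continuousOn
  have hg : 0 < gg n (seg e u t0) := gg_pos hG (F.uu_star hG hA hu ht0).1
  obtain ⟨K, hK, hlip⟩ := emon_lip hG hg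
  have h0 : psi n (seg e u 0) = psi n e := by
    unfold seg
    rw [sub_zero, one_smul, zero_smul, add_zero]
  have h1 : psi n (seg e u 1) = u := by
    unfold seg
    rw [sub_self, one_smul, zero_smul, zero_add]
    exact psi_self hu.1
  have h := emon_path (S := F.UU e) (f := fun t => psi n (seg e u t)) (K := K * ‖u - e‖) (by positivity) ?_
    (fun t ht => (F.uu_star hG hA hu ht).2)
  · beta_reduce at h
    rw [h0, h1] at h
    exact h.trans_lt ENNReal.ofReal_lt_top
  · intro s hs t ht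
    refine (hlip _ _ (hmin hs) (hmin ht)).trans_eq ?_
    have e1 : seg e u s - seg e u t = (s - t) • (u - e) := by
      unfold seg
      module
    rw [e1, norm_smul, Real.norm_eq_abs]
    ring

theorem pl_fin (hG : Gnr n) (hA : Axis f1 f2 e) (F : Fan n f1 f2 m) {u w : E3} (hu : u ∈ F.UU e)
    (hw : w ∈ F.UU e) : pl (F.UU e) u w < ⊤ := by
  refine (pl_tri _ u (psi n e) w).trans_lt (ENNReal.add_lt_top.2 ⟨?_, emon_pole hG hA F hw⟩)
  rw [pl_symm]
  exact emon_pole hG hA F hu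

theorem pl_G (hG : Gnr n) (F : Fan n f1 f2 m) :
    ∃ C : ℝ, 0 ≤ C ∧ ∀ x y : ℝ, pl (F.UU e) (F.G x) (F.G y) ≤ ENNReal.ofReal (C * |x - y|) := by
  obtain ⟨C, hC, hl⟩ := F.G_lip
  refine ⟨C, hC, fun x y => ?_⟩
  have h := emon_path (S := F.UU e) (f := fun t => F.G (x + t * (y - x))) (K := C * |x - y|) (by positivity) ?_
    (fun t _ => F.G_uu hG _)
  · beta_reduce at h
    rwa [zero_mul, one_mul, add_zero, add_sub_cancel] at h
  · intro s _ t _
    refine (hl _ _).trans_eq ?_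
    have e1 : x + s * (y - x) - (x + t * (y - x)) = (s - t) * (y - x) := by ring
    rw [e1, abs_mul, abs_sub_comm y x]
    ring

end H47A
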