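import Pool.Agent.Lib.H47A.EM
import Pool.Agent.Lib.H47A.ECind
import Pool.Agent.Lib.H47A.EMonge

/-! # H47A, chunk EM2 (M): see the docstring of EM.lean -/

open Real Filter Topology

namespace H47A

variable {A : Type} [Fintype A] [DecidableEq A] {n : A → E3} {fr : A → E3} {f1 f2 e : E3} {m : ℕ}

theorem Dk_per (F : Fan n f1 f2 m) (α₀ : A × Bool) (k : ℤ) :
    Dk F fr e α₀ (k + 2 * m) = Dk F fr e α₀ k := by
  unfold Dk
  rw [show (((k + 2 * m : ℤ)) : ℝ) + 1 / 2 = ((k : ℝ) + 1 / 2) + 2 * m by push_cast; ring, F.G_per]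

theorem MM_per (F : Fan n f1 f2 m) (α₀ : A × Bool) (x : ℝ) : MM F fr e α₀ (x + 2 * m) = MM F fr e α₀ x := by
  unfold MM
  rw [F.G_per]

theorem MM_glue (hG : Gnr n) (hf : Frm n fr) (hA : Axis f1 f2 e) (he : Gen n e) {α₀ : A × Bool} (h0 : SAct n α₀ e)
    (F : Fan n f1 f2 m) (k : ℤ) {x : ℝ} (hx : x ∈ Set.Icc (k : ℝ) (k + 1)) :
    MM F fr e α₀ (x + m) - MM F fr e α₀ (k + m) =
      om F fr e α₀ k * (starRingEnd ℂ) (MM F fr e α₀ x - MM F fr e α₀ k) := by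
  have hk : (k : ℝ) ∈ Set.Icc (k : ℝ) (k + 1) := ⟨le_rfl, by linarith⟩
  have hc : (((k + m : ℤ)) : ℝ) = (k : ℝ) + m := by push_cast; ring
  have hx' : x + m ∈ Set.Icc (((k + m : ℤ)) : ℝ) (((k + m : ℤ)) + 1) := by
    rw [hc]
    exact ⟨by linarith [hx.1], by linarith [hx.2]⟩
  have hk' : (k : ℝ) + m ∈ Set.Icc (((k + m : ℤ)) : ℝ) (((k + m : ℤ)) + 1) := by
    rw [hc]
    exact ⟨le_rfl, by linarith⟩
  rw [MM_side hG hf hA he h0 F k hx, MM_side hG hf hA he h0 F k hk, MM_side hG hf hA he h0 F (k + m) hx',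
    MM_side hG hf hA he h0 F (k + m) hk', F.b_anti, F.G_anti, F.G_anti]
  unfold ev om
  rw [ch_neg, ch_neg]
  have hn : (Dk F fr e α₀ k).1 * (starRingEnd ℂ) (Dk F fr e α₀ k).1 = 1 := by
    rw [Complex.mul_conj, Complex.normSq_eq_norm_sq, Dk_norm hG hf hA he h0 F k]
    simp
  simp only [map_sub, map_add, map_mul]
  linear_combination ((Dk F fr e α₀ (k + m)).1 * ((starRingEnd ℂ) (ch n fr (F.b k) (F.G k)) -
    (starRingEnd ℂ) (ch n fr (F.b k) (F.G x)))) * hn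

theorem MM_pl (hG : Gnr n) (hf : Frm n fr) (hA : Axis f1 f2 e) (he : Gen n e) {α₀ : A × Bool} (h0 : SAct n α₀ e)
    (F : Fan n f1 f2 m) (x y : ℝ) :
    ENNReal.ofReal ‖MM F fr e α₀ x - MM F fr e α₀ y‖ ≤ pl (F.UU e) (F.G x) (F.G y) := by
  unfold pl
  refine le_iInf fun γ => le_iInf fun hc => le_iInf fun hγ0 => le_iInf fun hγ1 => le_iInf fun hS => ?_
  have h1 := lip_global (g := γ) (f := fun t => DD n fr e α₀ (γ t)) (by
    intro t ht
    have h2 := dd_loc (fr := fr) hG hf he (F.nz_uu hG hA (hS t ht)) (F.nv_uu hG hA he (hS t ht)) h0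
    filter_upwards [(hc.tendsto t).eventually h2] with s hs hs'
    rw [hs, psi_self (hS s hs').1, psi_self (hS t ht).1])
  rw [norm_sub_rev]
  have h3 : MM F fr e α₀ y - MM F fr e α₀ x = DD n fr e α₀ (γ 1) - DD n fr e α₀ (γ 0) := by
    rw [hγ0, hγ1]
    rfl
  rw [h3]
  exact h1

theorem MM_dU (hG : Gnr n) (hf : Frm n fr) (hA : Axis f1 f2 e) (he : Gen n e) {α₀ : A × Bool} (h0 : SAct n α₀ e)
    (F : Fan n f1 f2 m) (x y : ℝ) : ‖MM F fr e α₀ x - MM F fr e α₀ y‖ ≤ dU F e x y := by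
  have h1 := MM_pl hG hf hA he h0 F x y
  exact (ENNReal.ofReal_le_iff_le_toReal (pl_fin hG hA F (F.G_uu hG x) (F.G_uu hG y)).ne).1 h1

end H47A
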