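import Pool.Agent.Lib.H47A.EAr4
import Pool.Agent.Lib.H47A.EAr5
import Pool.Agent.Lib.H47A.EAr6b
import Pool.Agent.Lib.H47A.EM2

open Real MeasureTheory

namespace H47A

variable {A : Type} [Fintype A] [DecidableEq A] {n : A → E3} {fr : A → E3} {f1 f2 e : E3} {m : ℕ}

/-! # H47A, chunks EAR7 (M/L), EAR8 (M): the area of the upper disc
EAR7 `col_total`: w = γ k, w' = γ (k+1), l = the tail of the list of the side, det3 e w w' > 0 (`det_pos`), Good at w, w' (`good_col` at x = k, k+1, `G_int`). The region R_k = {gg u = 1, u in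
Cn k} is contained in convexHull {psi e, Pt w a0, Pt w' a0} ∪ colS α₀ a0 a0 l: u = a e + b w + c w'; b = c = 0: u = psi e. Otherwise u = r (w_s + t e) = psi (w_s + t e) (gg u = 1), r = b + c,
s = c/r, t = a/r; if t <= a0: `col_cover`; if t >= a0: w_s + t e = (1-s)(w + a0 e) + s (w' + a0 e) + (t - a0) e, all in the cone of the facet α₀, so psi of it is a convex combination of
Pt w a0, Pt w' a0, psi e (as in `quad_cover`). Area: `tri3` for the top triangle (det3 (psi e) (P a0) (Q a0) = positive * det3 e w w'), `col_area`. Value: `ev_cross`, `col_dev` with D = (1,0);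
end points: ev (dev (G (k+1/2))) (psi (γ k)) = MM k and the same at k+1 (`dev_side`, `MM_side`, `G_int`); Pt w 0 = w.
EAR8 (EAr8.lean) `Sk_eq`: for x > k close to k: Lst (G x) = Lst (γ k) ++ l' with all of l' active at γ k (`loc_lst`), = the list of the side k (`lst_side`). `shL_append` (last facet of Lst (γ k) is
active at γ k): Sk k (γ k) is the expression with the list Lst (γ k). The same for the side k-1. `area_total`: bd is covered by the R_k and -R_k, k in range (2m) (`cover`, `uu_iff`);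
Measure of -R_k = measure of R_k. Sum over k: the S terms telescope (Sk k (γ (k+1)) = Sk (k+1) (γ (k+1)); periodic with period 2m), (1/2) Σ cr (MM k) (MM (k+1)) = AA. -/

/-- Shoelace sum of the ray of `w` with the list of the side `k`. -/
noncomputable def Sk (F : Fan n f1 f2 m) (fr : A → E3) (e : E3) (α₀ : A × Bool) (a0 : ℝ) (k : ℤ) (w : E3) : ℝ :=
  cr (ev n fr α₀ (1, 0) (psi n e)) (ev n fr α₀ (1, 0) (Pt n e w a0)) +
    shL n fr e w α₀ (1, 0) a0 (Lst n e (F.G (k + 1 / 2))).tail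

theorem ear7_act {w : E3} {α : A × Bool} {a : ℝ} {l : List (A × Bool)} (h : Good n e w α a l) :
    Act n α (w + a • e) := by
  cases l with
  | nil => exact h.2.1
  | cons β l => exact h.1

/-- Radial projection of a positive combination inside one facet cone. -/
theorem ear7_conv (hG : Gnr n) {α : A × Bool} {v1 v2 v3 V : E3} {c1 c2 c3 : ℝ} (h1 : Act n α v1) (h2 : Act n α v2)
    (h3 : Act n α v3) (n1 : v1 ≠ 0) (n2 : v2 ≠ 0) (n3 : v3 ≠ 0) (p1 : 0 ≤ c1) (p2 : 0 ≤ c2) (p3 : 0 ≤ c3)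
    (hV : V = c1 • v1 + c2 • v2 + c3 • v3) (hV0 : V ≠ 0) :
    psi n V ∈ convexHull ℝ {psi n v1, psi n v2, psi n v3} := by
  have hact : Act n α V := by
    intro β
    rw [hV]
    simp only [lf_add, lf_smul]
    have := mul_le_mul_of_nonneg_left (h1 β) p1
    have := mul_le_mul_of_nonneg_left (h2 β) p2
    have := mul_le_mul_of_nonneg_left (h3 β) p3
    linarith
  have hg := gg_pos hG hV0
  have g1 := gg_pos hG n1
  have g2 := gg_pos hG n2
  have g3 := gg_pos hG n3
  have hsum : gg n V = c1 * gg n v1 + c2 * gg n v2 + c3 * gg n v3 := by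
    rw [← (act_iff hG α V).1 hact, ← (act_iff hG α v1).1 h1, ← (act_iff hG α v2).1 h2, ← (act_iff hG α v3).1 h3, hV]
    simp only [lf_add, lf_smul]
  have hs : c1 * gg n v1 / gg n V + c2 * gg n v2 / gg n V + c3 * gg n v3 / gg n V = 1 := by
    rw [← add_div, ← add_div, ← hsum, div_self hg.ne']
  have hp : psi n V = (c1 * gg n v1 / gg n V) • psi n v1 + (c2 * gg n v2 / gg n V) • psi n v2 +
      (c3 * gg n v3 / gg n V) • psi n v3 := by
    unfold psi
    rw [smul_smul, smul_smul, smul_smul]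
    have e1 : c1 * gg n v1 / gg n V * (gg n v1)⁻¹ = (gg n V)⁻¹ * c1 := by field_simp
    have e2 : c2 * gg n v2 / gg n V * (gg n v2)⁻¹ = (gg n V)⁻¹ * c2 := by field_simp
    have e3 : c3 * gg n v3 / gg n V * (gg n v3)⁻¹ = (gg n V)⁻¹ * c3 := by field_simp
    rw [e1, e2, e3, mul_smul, mul_smul, mul_smul, ← smul_add, ← smul_add, ← hV]
  rw [hp]
  have hc := convex_convexHull ℝ ({psi n v1, psi n v2, psi n v3} : Set E3)
  have m1 : psi n v1 ∈ convexHull ℝ ({psi n v1, psi n v2, psi n v3} : Set E3) := subset_convexHull _ _ (by simp)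
  have m2 : psi n v2 ∈ convexHull ℝ ({psi n v1, psi n v2, psi n v3} : Set E3) := subset_convexHull _ _ (by simp)
  have m3 : psi n v3 ∈ convexHull ℝ ({psi n v1, psi n v2, psi n v3} : Set E3) := subset_convexHull _ _ (by simp)
  have q1 : 0 ≤ c1 * gg n v1 / gg n V := div_nonneg (mul_nonneg p1 g1.le) hg.le
  have q2 : 0 ≤ c2 * gg n v2 / gg n V := div_nonneg (mul_nonneg p2 g2.le) hg.le
  have q3 : 0 ≤ c3 * gg n v3 / gg n V := div_nonneg (mul_nonneg p3 g3.le) hg.le
  rcases eq_or_lt_of_le (add_nonneg q1 q2) with h4 | h4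
  · have z1 : c1 * gg n v1 / gg n V = 0 := by linarith
    have z2 : c2 * gg n v2 / gg n V = 0 := by linarith
    have z3 : c3 * gg n v3 / gg n V = 1 := by linarith
    rw [z1, z2, z3, zero_smul, zero_smul, one_smul, zero_add, zero_add]
    exact m3
  · have h5 := hc m1 m2 (div_nonneg q1 h4.le) (div_nonneg q2 h4.le) (by rw [← add_div, div_self h4.ne'])
    have h6 := hc h5 m3 h4.le q3 hs
    rw [smul_add, smul_smul, smul_smul, mul_div_cancel₀ _ h4.ne', mul_div_cancel₀ _ h4.ne'] at h6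
    exact h6

theorem ear7_det (a b c t : ℝ) (e w w' : E3) :
    det3 (a • e) (b • (w + t • e)) (c • (w' + t • e)) = a * (b * (c * det3 e w w')) := by
  simp only [det3, inner3, evec_c0, evec_c1, evec_c2, PiLp.smul_apply, PiLp.add_apply, smul_eq_mul]
  ring

theorem col_total (hG : Gnr n) (hf : Frm n fr) (hA : Axis f1 f2 e) (he : Gen n e) {α₀ : A × Bool} (h0 : SAct n α₀ e)
    (F : Fan n f1 f2 m) {a0 : ℝ} (ha0 : 0 ≤ a0)
    (hgood : ∀ (k : ℤ) (x : ℝ), x ∈ Set.Icc (k : ℝ) (k + 1) → ∀ a : ℝ, a0 ≤ a →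
      Good n e (F.G x) α₀ a (Lst n e (F.G (k + 1 / 2))).tail) (k : ℤ) :
    0 ≤ Sk F fr e α₀ a0 k (F.γ k) - Sk F fr e α₀ a0 k (F.γ (k + 1)) + cr (MM F fr e α₀ k) (MM F fr e α₀ (k + 1)) ∧
      ENNReal.ofReal (π / 4) * Measure.hausdorffMeasure 2 {u : E3 | gg n u = 1 ∧ u ∈ F.Cn e k} ≤
        ENNReal.ofReal ((Sk F fr e α₀ a0 k (F.γ k) - Sk F fr e α₀ a0 k (F.γ (k + 1)) +
          cr (MM F fr e α₀ k) (MM F fr e α₀ (k + 1))) / 2) := by
  have hG1 : F.G (k : ℝ) = F.γ k := F.G_int k
  have hG2 : F.G ((k : ℝ) + 1) = F.γ (k + 1) := by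
    have := F.G_int (k + 1)
    push_cast at this
    exact this
  have h1 : Good n e (F.γ k) α₀ a0 (Lst n e (F.G (k + 1 / 2))).tail := by
    rw [← hG1]
    exact hgood k _ ⟨le_rfl, by linarith⟩ a0 le_rfl
  have h2 : Good n e (F.γ (k + 1)) α₀ a0 (Lst n e (F.G (k + 1 / 2))).tail := by
    rw [← hG2]
    exact hgood k _ ⟨by linarith, le_rfl⟩ a0 le_rfl
  have hd := F.det_pos hA k
  have he0 : e ≠ 0 := by
    rintro rfl
    have := hA.ne
    rw [norm_zero] at this
    norm_num at this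
  have hw0 : F.γ k + a0 • e ≠ 0 := by
    rw [← hG1]
    exact F.nz_G hA _ a0 ha0
  have hw0' : F.γ (k + 1) + a0 • e ≠ 0 := by
    rw [← hG2]
    exact F.nz_G hA _ a0 ha0
  have aw := ear7_act h1
  have aw' := ear7_act h2
  have l1 : lf n α₀ (psi n e) = 1 := lf_psi hG he0 h0.act
  have l2 : lf n α₀ (Pt n e (F.γ k) a0) = 1 := lf_psi hG hw0 aw
  have l3 : lf n α₀ (Pt n e (F.γ (k + 1)) a0) = 1 := lf_psi hG hw0' aw'
  have hdet : 0 ≤ det3 (psi n e) (Pt n e (F.γ k) a0) (Pt n e (F.γ (k + 1)) a0) := by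
    have h3 : det3 (psi n e) (Pt n e (F.γ k) a0) (Pt n e (F.γ (k + 1)) a0) =
        (gg n e)⁻¹ * ((gg n (F.γ k + a0 • e))⁻¹ * ((gg n (F.γ (k + 1) + a0 • e))⁻¹ *
          det3 e (F.γ k) (F.γ (k + 1)))) := by
      exact ear7_det _ _ _ _ _ _ _
    rw [h3]
    have g1 := inv_pos.2 (gg_pos hG he0)
    have g2 := inv_pos.2 (gg_pos hG hw0)
    have g3 := inv_pos.2 (gg_pos hG hw0')
    positivity
  have hT := tri3 hG hf α₀ l1 l2 l3 hdet
  have hTn : 0 ≤ det3 (psi n e) (Pt n e (F.γ k) a0) (Pt n e (F.γ (k + 1)) a0) * ‖nn n α₀‖ / 2 := by positivity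
  have hC := col_area hG hf hd _ h1 h2
  have hone : ‖((1 : ℂ), (0 : ℂ)).1‖ = 1 := by simp
  have hev := ev_cross hG hf α₀ (D := (1, 0)) hone l1 l2 l3
  have hcd := col_dev hG hf hd _ (D := (1, 0)) hone h1 h2
  have hdev : devAux n fr α₀ (1, 0) (Lst n e (F.G (k + 1 / 2))).tail = (F.b k, Dk F fr e α₀ k) :=
    dev_side (fr := fr) hG hA he h0 F k (x := k + 1 / 2) ⟨by linarith, by linarith⟩
  have hP0 : Pt n e (F.γ k) 0 = F.γ k := by
    unfold Pt
    rw [zero_smul, add_zero]
    exact psi_self (F.on k)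
  have hP1 : Pt n e (F.γ (k + 1)) 0 = F.γ (k + 1) := by
    unfold Pt
    rw [zero_smul, add_zero]
    exact psi_self (F.on (k + 1))
  have hM0 : MM F fr e α₀ k = ev n fr (F.b k) (Dk F fr e α₀ k) (F.γ k) := by
    rw [MM_side hG hf hA he h0 F k ⟨le_rfl, by linarith⟩, hG1]
  have hM1 : MM F fr e α₀ (k + 1) = ev n fr (F.b k) (Dk F fr e α₀ k) (F.γ (k + 1)) := by
    rw [MM_side hG hf hA he h0 F k ⟨by linarith, le_rfl⟩, hG2]
  rw [hdev, hP0, hP1, ← hM0, ← hM1] at hcd
  have hval : (Sk F fr e α₀ a0 k (F.γ k) - Sk F fr e α₀ a0 k (F.γ (k + 1)) +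
      cr (MM F fr e α₀ k) (MM F fr e α₀ (k + 1))) / 2 =
      det3 (psi n e) (Pt n e (F.γ k) a0) (Pt n e (F.γ (k + 1)) a0) * ‖nn n α₀‖ / 2 +
        colA n e (F.γ k) (F.γ (k + 1)) α₀ a0 a0 (Lst n e (F.G (k + 1 / 2))).tail := by
    rw [hev, hcd]
    unfold Sk
    have hsw : ∀ z w : ℂ, cr z w = -cr w z := by
      intro z w
      unfold cr
      ring
    rw [hsw (ev n fr α₀ (1, 0) (Pt n e (F.γ (k + 1)) a0)) (ev n fr α₀ (1, 0) (psi n e))]
    ring
  refine ⟨?_, ?_⟩
  · have : 0 ≤ (Sk F fr e α₀ a0 k (F.γ k) - Sk F fr e α₀ a0 k (F.γ (k + 1)) +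
      cr (MM F fr e α₀ k) (MM F fr e α₀ (k + 1))) / 2 := by
      rw [hval]
      exact add_nonneg hTn hC.1
    linarith
  · rw [hval, ENNReal.ofReal_add hTn hC.1]
    have hsub : {u : E3 | gg n u = 1 ∧ u ∈ F.Cn e k} ⊆
        convexHull ℝ {psi n e, Pt n e (F.γ k) a0, Pt n e (F.γ (k + 1)) a0} ∪
          colS n e (F.γ k) (F.γ (k + 1)) α₀ a0 a0 (Lst n e (F.G (k + 1 / 2))).tail := by
      rintro u ⟨hu, a, b, c, ha, hb, hc, rfl⟩
      rcases eq_or_lt_of_le (add_nonneg hb hc) with h3 | h3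
      · left
        have hb0 : b = 0 := by linarith
        have hc0 : c = 0 := by linarith
        rw [hb0, hc0, zero_smul, zero_smul, add_zero, add_zero] at hu ⊢
        have ha' : 0 < a := by
          refine lt_of_le_of_ne ha ?_
          rintro rfl
          rw [zero_smul, egau_zero hG] at hu
          norm_num at hu
        have h4 : a • e = psi n e := by
          rw [← psi_smul hG ha' e, psi_self hu]
        rw [h4]
        exact subset_convexHull _ _ (by simp)
      · have hb' : (b + c) ≠ 0 := h3.ne'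
        have hs : c / (b + c) ∈ Set.Icc (0 : ℝ) 1 := ⟨by positivity, by rw [div_le_one h3]; linarith⟩
        have ht : 0 ≤ a / (b + c) := by positivity
        have hform : a • e + b • F.γ k + c • F.γ (k + 1) =
            (b + c) • (seg (F.γ k) (F.γ (k + 1)) (c / (b + c)) + (a / (b + c)) • e) := by
          unfold seg
          rw [smul_add, smul_add, smul_smul, smul_smul, smul_smul]
          have e1 : (b + c) * (1 - c / (b + c)) = b := by field_simp; ring
          have e2 : (b + c) * (c / (b + c)) = c := by field_simp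
          have e3 : (b + c) * (a / (b + c)) = a := by field_simp
          rw [e1, e2, e3]
          abel
        have hpt : a • e + b • F.γ k + c • F.γ (k + 1) =
            Pt n e (seg (F.γ k) (F.γ (k + 1)) (c / (b + c))) (a / (b + c)) := by
          unfold Pt
          rw [← psi_smul hG h3, ← hform, psi_self hu]
        rcases le_total (a / (b + c)) a0 with h4 | h4
        · right
          rw [hpt]
          exact col_cover hG hd _ h1 h2 hs ht (by linarith [hs.1, hs.2, show (1 - c / (b + c)) * a0 + c / (b + c) * a0 = a0 by ring])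
        · left
          rw [hpt]
          have hV0 : seg (F.γ k) (F.γ (k + 1)) (c / (b + c)) + (a / (b + c)) • e ≠ 0 := by
            intro h5
            rw [hform, h5, smul_zero, egau_zero hG] at hu
            norm_num at hu
          have h6 := ear7_conv hG (α := α₀) (v1 := e) (v2 := F.γ k + a0 • e) (v3 := F.γ (k + 1) + a0 • e)
            (V := seg (F.γ k) (F.γ (k + 1)) (c / (b + c)) + (a / (b + c)) • e)
            (c1 := a / (b + c) - a0) (c2 := 1 - c / (b + c)) (c3 := c / (b + c)) h0.act aw aw' he0 hw0 hw0'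
            (by linarith) (by linarith [hs.2]) hs.1 (by
              unfold seg
              module) hV0
          exact h6
    refine (mul_le_mul_right (measure_mono hsub) _).trans ?_
    refine (mul_le_mul_right (measure_union_le _ _) _).trans ?_
    rw [mul_add]
    exact add_le_add hT hC.2

end H47A
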