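import Pool.Agent.Lib.H47A.EAr7

/-! # H47A, chunk EAR8 (M): see the docstring of EAr7.lean -/

open Real MeasureTheory

namespace H47A

variable {A : Type} [Fintype A] [DecidableEq A] {n : A → E3} {fr : A → E3} {f1 f2 e : E3} {m : ℕ}

theorem ear8_pre (hG : Gnr n) (hA : Axis f1 f2 e) (he : Gen n e) (F : Fan n f1 f2 m) (k : ℤ) {x : ℝ}
    (hx : x ∈ Set.Icc (k : ℝ) (k + 1)) :
    ∃ l, Lst n e (F.G (k + 1 / 2)) = Lst n e (F.G x) ++ l ∧ ∀ β ∈ l, Act n β (F.G x) := by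
  have h1 := loc_lst hG he (F.nv_G hG hA x)
  have h2 := ((em1_cont F).tendsto x).eventually h1
  have h3 : x ∈ closure (Set.Ioo (k : ℝ) (k + 1)) := by
    rw [closure_Ioo (by linarith)]
    exact hx
  obtain ⟨y, hy, l, hl, hl'⟩ := ((mem_closure_iff_frequently.1 h3).and_eventually h2).exists
  refine ⟨l, ?_, hl'⟩
  rw [← lst_side hG hA he F k hy, hl]

theorem ear8_sh (hG : Gnr n) (hf : Frm n fr) (hA : Axis f1 f2 e) (he : Gen n e) {α₀ : A × Bool} (h0 : SAct n α₀ e)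
    (F : Fan n f1 f2 m) {a0 : ℝ} 
    (hgood : ∀ (k : ℤ) (x : ℝ), x ∈ Set.Icc (k : ℝ) (k + 1) → ∀ a : ℝ, a0 ≤ a →
      Good n e (F.G x) α₀ a (Lst n e (F.G (k + 1 / 2))).tail) (k : ℤ) {x : ℝ}
    (hx : x ∈ Set.Icc (k : ℝ) (k + 1)) :
    shL n fr e (F.G x) α₀ (1, 0) a0 (Lst n e (F.G (k + 1 / 2))).tail =
      shL n fr e (F.G x) α₀ (1, 0) a0 (Lst n e (F.G x)).tail := by
  obtain ⟨l, hl, hl'⟩ := ear8_pre hG hA he F k hx
  have hh := lst_head he h0 (F.G x)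
  have ht : (Lst n e (F.G (k + 1 / 2))).tail = (Lst n e (F.G x)).tail ++ l := by
    rw [hl, hh]
    rfl
  have hg := hgood k x hx a0 le_rfl
  rw [ht] at hg ⊢
  have hw : F.G x ≠ 0 := by
    have := F.nz_G hA x 0 le_rfl
    simpa using this
  refine shL_append hG hf hw _ _ hg hl' ?_
  intro β hβ
  rw [← hh] at hβ
  obtain ⟨ω, hω, hω'⟩ := exists_last hG he (F.G x)
  rw [lst_last he hω hω'] at hβ
  rw [← Option.some.inj hβ]
  exact hω

theorem Sk_eq (hG : Gnr n) (hf : Frm n fr) (hA : Axis f1 f2 e) (he : Gen n e) {α₀ : A × Bool} (h0 : SAct n α₀ e)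
    (F : Fan n f1 f2 m) {a0 : ℝ} (ha0 : 0 ≤ a0)
    (hgood : ∀ (k : ℤ) (x : ℝ), x ∈ Set.Icc (k : ℝ) (k + 1) → ∀ a : ℝ, a0 ≤ a →
      Good n e (F.G x) α₀ a (Lst n e (F.G (k + 1 / 2))).tail) (k : ℤ) :
    Sk F fr e α₀ a0 k (F.γ k) = Sk F fr e α₀ a0 (k - 1) (F.γ k) := by
  unfold Sk
  rw [← F.G_int k, ear8_sh hG hf hA he h0 F hgood k ⟨le_rfl, by linarith⟩,
    ear8_sh hG hf hA he h0 F hgood (k - 1) (x := (k : ℝ)) (by
      push_cast
      exact ⟨by linarith, by linarith⟩)]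

theorem ear8_per (F : Fan n f1 f2 m) (α₀ : A × Bool) (a0 : ℝ) :
    Sk F fr e α₀ a0 ((2 * m : ℕ) : ℤ) (F.γ ((2 * m : ℕ) : ℤ)) = Sk F fr e α₀ a0 0 (F.γ 0) := by
  have h1 : F.γ ((2 * m : ℕ) : ℤ) = F.γ 0 := by
    have := F.γ_per 0
    rw [← this]
    congr 1
    push_cast
    ring
  have h2 : F.G ((((2 * m : ℕ) : ℤ) : ℝ) + 1 / 2) = F.G (((0 : ℤ) : ℝ) + 1 / 2) := by
    rw [← F.G_per (((0 : ℤ) : ℝ) + 1 / 2)]
    congr 1
    push_cast
    ring
  unfold Sk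
  rw [h1, h2]

theorem ear8_sum (f : ℤ → ℝ) (N : ℕ) : ∑ k ∈ Finset.range N, (f k - f (k + 1)) = f 0 - f N := by
  have h := Finset.sum_range_sub' (fun k : ℕ => f (k : ℤ)) N
  simpa using h

theorem ear8_cov (hG : Gnr n) (hA : Axis f1 f2 e) (F : Fan n f1 f2 m) :
    bd n ⊆ ⋃ k ∈ Finset.range (2 * m), ({u : E3 | gg n u = 1 ∧ u ∈ F.Cn e (k : ℤ)} ∪
      (IsometryEquiv.neg E3) '' {u : E3 | gg n u = 1 ∧ u ∈ F.Cn e (k : ℤ)}) := by
  intro u hu
  simp only [Set.mem_iUnion]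
  rcases F.cover hG hA hu with h | h
  · obtain ⟨h1, k, hk, hk'⟩ := (F.uu_iff u).1 h
    exact ⟨k, hk, Or.inl ⟨h1, hk'⟩⟩
  · obtain ⟨h1, k, hk, hk'⟩ := (F.uu_iff (-u)).1 h
    refine ⟨k, hk, Or.inr ⟨-u, ⟨h1, hk'⟩, ?_⟩⟩
    show -(-u) = u
    exact neg_neg u

theorem area_total (hG : Gnr n) (hf : Frm n fr) (hA : Axis f1 f2 e) (he : Gen n e) {α₀ : A × Bool} (h0 : SAct n α₀ e)
    (F : Fan n f1 f2 m) :
    ENNReal.ofReal (π / 4) * Measure.hausdorffMeasure 2 (bd n) ≤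
      ENNReal.ofReal (2 * AA m (fun k => MM F fr e α₀ k) (fun k => MM F fr e α₀ k)) := by
  obtain ⟨a0, ha0, hgood⟩ := good_col hG hA he h0 F
  have hcol := col_total hG hf hA he h0 F ha0 hgood
  set X : ℤ → ℝ := fun k => Sk F fr e α₀ a0 k (F.γ k) - Sk F fr e α₀ a0 k (F.γ (k + 1)) +
    cr (MM F fr e α₀ k) (MM F fr e α₀ (k + 1)) with hX
  have hX0 : ∀ k, 0 ≤ X k := fun k => (hcol k).1
  have hsum : ∑ k ∈ Finset.range (2 * m), X (k : ℤ) =
      2 * AA m (fun k => MM F fr e α₀ k) (fun k => MM F fr e α₀ k) := by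
    have h1 : ∀ k : ℤ, X k = (Sk F fr e α₀ a0 k (F.γ k) - Sk F fr e α₀ a0 (k + 1) (F.γ (k + 1))) +
        cr (MM F fr e α₀ k) (MM F fr e α₀ ((k + 1 : ℤ) : ℝ)) := by
      intro k
      have h2 := Sk_eq hG hf hA he h0 F ha0 hgood (k + 1)
      rw [add_sub_cancel_right] at h2
      rw [hX, h2]
      push_cast
      rfl
    rw [Finset.sum_congr rfl fun (k : ℕ) _ => h1 (k : ℤ), Finset.sum_add_distrib,
      ear8_sum (fun k => Sk F fr e α₀ a0 k (F.γ k)) (2 * m), ear8_per, sub_self, zero_add]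
    unfold AA
    rw [Finset.sum_add_distrib]
    ring
  rw [← hsum, ENNReal.ofReal_sum_of_nonneg fun (k : ℕ) _ => hX0 (k : ℤ)]
  have hneg : ∀ s : Set E3, Measure.hausdorffMeasure 2 ((IsometryEquiv.neg E3) '' s) =
      Measure.hausdorffMeasure 2 s := fun s => (IsometryEquiv.neg E3).hausdorffMeasure_image 2 s
  calc ENNReal.ofReal (π / 4) * Measure.hausdorffMeasure 2 (bd n)
      ≤ ENNReal.ofReal (π / 4) * ∑ k ∈ Finset.range (2 * m),
          (2 * Measure.hausdorffMeasure 2 {u : E3 | gg n u = 1 ∧ u ∈ F.Cn e (k : ℤ)}) := by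
        gcongr
        refine (measure_mono (ear8_cov hG hA F)).trans ((measure_biUnion_finset_le _ _).trans ?_)
        refine Finset.sum_le_sum fun k _ => ?_
        refine (measure_union_le _ _).trans ?_
        rw [hneg, two_mul]
    _ = ∑ k ∈ Finset.range (2 * m), 2 * (ENNReal.ofReal (π / 4) *
          Measure.hausdorffMeasure 2 {u : E3 | gg n u = 1 ∧ u ∈ F.Cn e (k : ℤ)}) := by
        rw [Finset.mul_sum]
        refine Finset.sum_congr rfl fun k _ => ?_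
        ring
    _ ≤ ∑ k ∈ Finset.range (2 * m), ENNReal.ofReal (X (k : ℤ)) := by
        refine Finset.sum_le_sum fun k _ => ?_
        have h1 := (hcol (k : ℤ)).2
        calc 2 * (ENNReal.ofReal (π / 4) *
              Measure.hausdorffMeasure 2 {u : E3 | gg n u = 1 ∧ u ∈ F.Cn e (k : ℤ)})
            ≤ 2 * ENNReal.ofReal (X (k : ℤ) / 2) := by
              gcongr
          _ = ENNReal.ofReal (X (k : ℤ)) := by
              rw [show (2 : ENNReal) = ENNReal.ofReal 2 by simp, ← ENNReal.ofReal_mul (by norm_num)]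
              congr 1
              ring

end H47A
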