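import Pool.Agent.Lib.H47A.EDefs

/-! # H47A, chunk EVEC (S/M): vector algebra in three space
All identities are polynomial in the coordinates: `inner ℝ u v = u 0 * v 0 + u 1 * v 1 + u 2 * v 2` (EuclideanSpace.inner_eq_star_dotProduct
or `PiLp.inner_apply`, `Fin.sum_univ_three`), then `ring`. `perp_two`: if x is orthogonal to u and v, and u x v != 0, then x is the
multiple (det3 u v x / |u x v|^2) of u x v: from the identity |u x v|^2 x = det3 u v x (u x v) + (terms in <u,x>, <v,x>).
`cramer`: det3 u v w x = <x,...> expansion: det3 u v w • x = <u,x> (v x w) + <v,x> (w x u) + <w,x> (u x v).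
`frame_*`: nu unit, e unit, orthogonal, f = nu x e. -/

open Real

namespace H47A

theorem inner3 (u v : E3) : inner ℝ u v = u 0 * v 0 + u 1 * v 1 + u 2 * v 2 := by
  simp only [PiLp.inner_apply, Fin.sum_univ_three, RCLike.inner_apply, conj_trivial]
  ring

theorem evec_c0 (u v : E3) : (cross3 u v) 0 = u 1 * v 2 - u 2 * v 1 := rfl

theorem evec_c1 (u v : E3) : (cross3 u v) 1 = u 2 * v 0 - u 0 * v 2 := rfl

theorem evec_c2 (u v : E3) : (cross3 u v) 2 = u 0 * v 1 - u 1 * v 0 := rfl

theorem evec_ext {u v : E3} (h0 : u 0 = v 0) (h1 : u 1 = v 1) (h2 : u 2 = v 2) : u = v := by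
  ext i
  fin_cases i
  · exact h0
  · exact h1
  · exact h2

theorem evec_norm (u : E3) : ‖u‖ ^ 2 = u 0 * u 0 + u 1 * u 1 + u 2 * u 2 := by
  rw [← real_inner_self_eq_norm_sq, inner3]

theorem cross3_self_left (u v : E3) : inner ℝ (cross3 u v) u = 0 := by
  rw [inner3, evec_c0, evec_c1, evec_c2]
  ring

theorem cross3_self_right (u v : E3) : inner ℝ (cross3 u v) v = 0 := by
  rw [inner3, evec_c0, evec_c1, evec_c2]
  ring

theorem cross3_swap (u v : E3) : cross3 v u = -cross3 u v := by
  apply evec_ext <;> simp only [PiLp.neg_apply, evec_c0, evec_c1, evec_c2] <;> ring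

theorem cross3_neg_neg (u v : E3) : cross3 (-u) (-v) = cross3 u v := by
  apply evec_ext <;> simp only [PiLp.neg_apply, evec_c0, evec_c1, evec_c2] <;> ring

theorem cross3_neg_right (u v : E3) : cross3 u (-v) = -cross3 u v := by
  apply evec_ext <;> simp only [PiLp.neg_apply, evec_c0, evec_c1, evec_c2] <;> ring

theorem cross3_smul (a b : ℝ) (u v : E3) : cross3 (a • u) (b • v) = (a * b) • cross3 u v := by
  apply evec_ext <;> simp only [PiLp.smul_apply, smul_eq_mul, evec_c0, evec_c1, evec_c2] <;> ring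

theorem cross3_norm (u v : E3) : ‖cross3 u v‖ ^ 2 = ‖u‖ ^ 2 * ‖v‖ ^ 2 - inner ℝ u v ^ 2 := by
  rw [evec_norm, evec_norm, evec_norm, inner3, evec_c0, evec_c1, evec_c2]
  ring

theorem cross3_cross (a b c : E3) : cross3 (cross3 a b) (cross3 b c) = det3 a b c • b := by
  apply evec_ext <;> simp only [PiLp.smul_apply, smul_eq_mul, det3, inner3, evec_c0, evec_c1, evec_c2] <;> ring

theorem det3_rot (u v w : E3) : det3 u v w = det3 v w u := by
  simp only [det3, inner3, evec_c0, evec_c1, evec_c2]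
  ring

theorem det3_swap (u v w : E3) : det3 v u w = -det3 u v w := by
  simp only [det3, inner3, evec_c0, evec_c1, evec_c2]
  ring

theorem det3_add (u v w w' : E3) : det3 u v (w + w') = det3 u v w + det3 u v w' := by
  unfold det3
  rw [inner_add_right]

theorem det3_smul (u v w : E3) (c : ℝ) : det3 u v (c • w) = c * det3 u v w := by
  unfold det3
  rw [inner_smul_right]

theorem det3_self (u v : E3) : det3 u v u = 0 ∧ det3 u v v = 0 ∧ det3 u u v = 0 := by
  refine ⟨cross3_self_left u v, cross3_self_right u v, ?_⟩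
  simp only [det3, inner3, evec_c0, evec_c1, evec_c2]
  ring

/-- The product of two determinants is the determinant of the inner products. -/
theorem det3_mul (a b c x y z : E3) : det3 a b c * det3 x y z =
    inner ℝ a x * (inner ℝ b y * inner ℝ c z - inner ℝ b z * inner ℝ c y)
    - inner ℝ a y * (inner ℝ b x * inner ℝ c z - inner ℝ b z * inner ℝ c x)
    + inner ℝ a z * (inner ℝ b x * inner ℝ c y - inner ℝ b y * inner ℝ c x) := by
  simp only [det3, inner3, evec_c0, evec_c1, evec_c2]
  ring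

theorem cramer (u v w x : E3) :
    det3 u v w • x = (inner ℝ u x : ℝ) • cross3 v w + (inner ℝ v x : ℝ) • cross3 w u + (inner ℝ w x : ℝ) • cross3 u v := by
  apply evec_ext <;> simp only [PiLp.smul_apply, PiLp.add_apply, smul_eq_mul, det3, inner3, evec_c0, evec_c1, evec_c2] <;> ring

theorem evec_det (u v : E3) : det3 u v (cross3 u v) = ‖cross3 u v‖ ^ 2 := by
  unfold det3
  rw [real_inner_self_eq_norm_sq]

theorem perp_two {u v x : E3} (h : cross3 u v ≠ 0) (hu : inner ℝ u x = 0) (hv : inner ℝ v x = 0) :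
    ∃ c : ℝ, x = c • cross3 u v := by
  have h1 := cramer u v (cross3 u v) x
  rw [hu, hv, zero_smul, zero_smul, zero_add, zero_add, evec_det] at h1
  have h2 : ‖cross3 u v‖ ^ 2 ≠ 0 := pow_ne_zero 2 (norm_ne_zero_iff.mpr h)
  refine ⟨(‖cross3 u v‖ ^ 2)⁻¹ * inner ℝ (cross3 u v) x, ?_⟩
  rw [mul_smul, ← h1, smul_smul, inv_mul_cancel₀ h2, one_smul]

/-- If the determinant is not zero every vector is a combination. -/
theorem comb3 {u v w : E3} (h : det3 u v w ≠ 0) (x : E3) : ∃ a b c : ℝ, x = a • u + b • v + c • w := by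
  have h1 : det3 u v w • x = det3 x v w • u + det3 u x w • v + det3 u v x • w := by
    apply evec_ext <;> simp only [PiLp.smul_apply, PiLp.add_apply, smul_eq_mul, det3, inner3, evec_c0, evec_c1, evec_c2] <;>
      ring
  refine ⟨(det3 u v w)⁻¹ * det3 x v w, (det3 u v w)⁻¹ * det3 u x w, (det3 u v w)⁻¹ * det3 u v x, ?_⟩
  rw [mul_smul, mul_smul, mul_smul, ← smul_add, ← smul_add, ← h1, smul_smul, inv_mul_cancel₀ h, one_smul]

/-- If two vectors have cross product nonzero, they have a common point of their unit planes. -/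
theorem two_planes {u v : E3} (h : cross3 u v ≠ 0) : ∃ p : E3, inner ℝ u p = 1 ∧ inner ℝ v p = 1 := by
  have h2 : ‖cross3 u v‖ ^ 2 ≠ 0 := pow_ne_zero 2 (norm_ne_zero_iff.mpr h)
  refine ⟨(‖cross3 u v‖ ^ 2)⁻¹ • (cross3 v (cross3 u v) + cross3 (cross3 u v) u), ?_, ?_⟩
  · rw [inner_smul_right, inner_add_right]
    have h3 : inner ℝ u (cross3 v (cross3 u v)) = ‖cross3 u v‖ ^ 2 := by
      rw [← evec_det, det3_rot, det3]
      exact real_inner_comm _ _
    have h4 : inner ℝ u (cross3 (cross3 u v) u) = 0 := by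
      rw [real_inner_comm]
      exact cross3_self_right _ _
    rw [h3, h4, add_zero, inv_mul_cancel₀ h2]
  · rw [inner_smul_right, inner_add_right]
    have h3 : inner ℝ v (cross3 (cross3 u v) u) = ‖cross3 u v‖ ^ 2 := by
      rw [← evec_det, ← det3_rot (cross3 u v) u v, det3]
      exact real_inner_comm _ _
    have h4 : inner ℝ v (cross3 v (cross3 u v)) = 0 := by
      rw [real_inner_comm]
      exact cross3_self_left _ _
    rw [h3, h4, zero_add, inv_mul_cancel₀ h2]

theorem frame_norm {ν e : E3} (hν : ‖ν‖ = 1) (he : ‖e‖ = 1) (hp : inner ℝ e ν = 0) (x : E3) (hx : inner ℝ ν x = 0) :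
    inner ℝ e x ^ 2 + inner ℝ (cross3 ν e) x ^ 2 = ‖x‖ ^ 2 := by
  have h1 := det3_mul ν e x ν e x
  have h2 : inner ℝ ν e = 0 := by rw [real_inner_comm]; exact hp
  rw [real_inner_self_eq_norm_sq, real_inner_self_eq_norm_sq, real_inner_self_eq_norm_sq, hν, he, h2, hx,
    real_inner_comm e x] at h1
  have h3 : det3 ν e x = inner ℝ (cross3 ν e) x := rfl
  rw [h3] at h1
  nlinarith [h1]

theorem frame_cross {ν e : E3} (hν : ‖ν‖ = 1) (he : ‖e‖ = 1) (hp : inner ℝ e ν = 0) (x y : E3) :
    inner ℝ e x * inner ℝ (cross3 ν e) y - inner ℝ (cross3 ν e) x * inner ℝ e y = inner ℝ (cross3 x y) ν := by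
  have h1 : inner ℝ e x * inner ℝ (cross3 ν e) y - inner ℝ (cross3 ν e) x * inner ℝ e y =
      inner ℝ e e * inner ℝ (cross3 x y) ν - inner ℝ e ν * inner ℝ (cross3 x y) e := by
    simp only [inner3, evec_c0, evec_c1, evec_c2]
    ring
  rw [h1, hp, real_inner_self_eq_norm_sq, he]
  ring

end H47A
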