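import Pool.Agent.Lib.H47A.EFDefs
import Pool.Agent.Lib.H47A.EVec

/-! # H47A, chunk EAZ (M): azimuths and sectors
f1, f2, e is an orthonormal basis with f1 x f2 = e (from det3 f1 f2 e = 1, `cross3_norm` and Cauchy-Schwarz: |f1 x f2| = 1 and
<f1 x f2, e> = 1). `ax_decomp`: the difference is orthogonal to f1, f2, e, use `cramer`/`comb3` or three pairings.
`det_az`: expand u, w by `ax_decomp`, or use `det3_mul` with (e,u,w) and (f1,f2,e): det3 e u w = det3 e u w * det3 f1 f2 e = the 3 x 3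
determinant of inner products, e row = (0,0,1).
`sector_fwd`: z = a e^{i t} + b e^{i t'}. Divide by e^{i t}: a + b e^{i d}, d = t' - t in (0,pi). Its argument p (Complex.arg) satisfies
0 <= p <= d: imaginary part b sin d >= 0, so arg in [0,pi]; and (a + b e^{i d}) e^{-i d} = b + a e^{-i d} has imaginary part
-a sin d <= 0. So sin p >= 0, sin (p - d) <= 0 with p in [0,pi], p - d in (-pi,pi): p <= d (if p = pi then a + b e^{id} is a negative real:
b sin d = 0, b = 0, a > 0 contradiction). Strictness: b > 0 gives sin p > 0; a > 0 gives sin (p-d) < 0. 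
`sector_bwd`: a = sin (t' - p)/sin (t' - t), b = sin (p - t)/sin (t' - t). -/

open Real

namespace H47A

variable {f1 f2 e : E3}

theorem eaz_cross {u v w : E3} (hu : ‖u‖ = 1) (hv : ‖v‖ = 1) (hw : ‖w‖ = 1) (huv : inner ℝ u v = (0 : ℝ))
    (hd : det3 u v w = 1) : cross3 u v = w := by
  have h1 : ‖cross3 u v‖ ^ 2 = 1 := by
    rw [cross3_norm, hu, hv, huv]
    norm_num
  have h2 : ‖cross3 u v - w‖ ^ 2 = 0 := by
    rw [norm_sub_sq_real, h1, hw]
    have h3 : inner ℝ (cross3 u v) w = (1 : ℝ) := hd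
    rw [h3]
    norm_num
  have h3 : ‖cross3 u v - w‖ = 0 := by
    rcases pow_eq_zero_iff (two_ne_zero) |>.1 h2 with h
    exact h
  exact sub_eq_zero.1 (norm_eq_zero.1 h3)

theorem ax_decomp (hA : Axis f1 f2 e) (u : E3) :
    u = (az f1 f2 u).re • f1 + (az f1 f2 u).im • f2 + (inner ℝ e u : ℝ) • e := by
  have h1 : cross3 f1 f2 = e := eaz_cross hA.n1 hA.n2 hA.ne hA.p12 hA.ori
  have h2 : cross3 f2 e = f1 := eaz_cross hA.n2 hA.ne hA.n1 hA.p2e (by rw [← det3_rot]; exact hA.ori)
  have h3 : cross3 e f1 = f2 := eaz_cross hA.ne hA.n1 hA.n2 (by rw [real_inner_comm]; exact hA.p1e)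
    (by rw [det3_rot]; exact hA.ori)
  have h4 := cramer f1 f2 e u
  rw [hA.ori, one_smul, h1, h2, h3] at h4
  exact h4

theorem det_az (hA : Axis f1 f2 e) (u w : E3) : det3 e u w = cr (az f1 f2 u) (az f1 f2 w) := by
  have h := det3_mul f1 f2 e e u w
  rw [hA.ori, one_mul, hA.p1e, hA.p2e, real_inner_self_eq_norm_sq, hA.ne] at h
  rw [h]
  show _ = inner ℝ f1 u * inner ℝ f2 w - inner ℝ f2 u * inner ℝ f1 w
  ring

theorem az_add (u w : E3) : az f1 f2 (u + w) = az f1 f2 u + az f1 f2 w := by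
  apply Complex.ext
  · show inner ℝ f1 (u + w) = inner ℝ f1 u + inner ℝ f1 w
    rw [inner_add_right]
  · show inner ℝ f2 (u + w) = inner ℝ f2 u + inner ℝ f2 w
    rw [inner_add_right]

theorem az_smul (c : ℝ) (u : E3) : az f1 f2 (c • u) = (c : ℂ) * az f1 f2 u := by
  rw [← Complex.real_smul]
  apply Complex.ext
  · rw [Complex.smul_re]
    show inner ℝ f1 (c • u) = c • inner ℝ f1 u
    rw [inner_smul_right, smul_eq_mul]
  · rw [Complex.smul_im]
    show inner ℝ f2 (c • u) = c • inner ℝ f2 u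
    rw [inner_smul_right, smul_eq_mul]

theorem az_e (hA : Axis f1 f2 e) : az f1 f2 e = 0 := by
  apply Complex.ext
  · exact hA.p1e
  · exact hA.p2e

theorem az_cont : Continuous (az f1 f2) := by
  have h : az f1 f2 = fun X => ((inner ℝ f1 X : ℝ) : ℂ) + ((inner ℝ f2 X : ℝ) : ℂ) * Complex.I := by
    funext X
    exact (Complex.mk_eq_add_mul_I _ _)
  rw [h]
  have h1 : Continuous fun X : E3 => inner ℝ f1 X := continuous_const.inner continuous_id
  have h2 : Continuous fun X : E3 => inner ℝ f2 X := continuous_const.inner continuous_id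
  exact (Complex.continuous_ofReal.comp h1).add ((Complex.continuous_ofReal.comp h2).mul continuous_const)

theorem az_zero (hA : Axis f1 f2 e) {u : E3} (h : az f1 f2 u = 0) : u = (inner ℝ e u : ℝ) • e := by
  have h1 := ax_decomp hA u
  rw [h, Complex.zero_re, Complex.zero_im, zero_smul, zero_smul, zero_add, zero_add] at h1
  exact h1

theorem sector_fwd {t t' : ℝ} (h : t < t') (h' : t' < t + π) {a b : ℝ} (ha : 0 ≤ a) (hb : 0 ≤ b) (hab : 0 < a + b) :
    ∃ r p : ℝ, 0 < r ∧ t ≤ p ∧ p ≤ t' ∧ (0 < a → p < t') ∧ (0 < b → t < p) ∧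
      (a : ℂ) * Complex.exp ((t : ℂ) * Complex.I) + (b : ℂ) * Complex.exp ((t' : ℂ) * Complex.I) =
        (r : ℂ) * Complex.exp ((p : ℂ) * Complex.I) := by
  obtain ⟨δ, hδ⟩ : ∃ δ, δ = t' - t := ⟨_, rfl⟩
  have hδ0 : 0 < δ := by linarith
  have hδ1 : δ < π := by linarith
  have hsin : 0 < sin δ := sin_pos_of_pos_of_lt_pi hδ0 hδ1
  obtain ⟨z, hz⟩ : ∃ z : ℂ, z = (a : ℂ) + (b : ℂ) * Complex.exp ((δ : ℂ) * Complex.I) := ⟨_, rfl⟩
  have hre : z.re = a + b * cos δ := by
    rw [hz, Complex.add_re, Complex.ofReal_re, Complex.re_ofReal_mul, Complex.exp_ofReal_mul_I_re]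
  have him : z.im = b * sin δ := by
    rw [hz, Complex.add_im, Complex.ofReal_im, Complex.im_ofReal_mul, Complex.exp_ofReal_mul_I_im, zero_add]
  have hz0 : z ≠ 0 := by
    intro h0
    rw [h0] at hre him
    simp only [Complex.zero_re, Complex.zero_im] at hre him
    have hb0 : b = 0 := by
      rcases mul_eq_zero.1 him.symm with h1 | h1
      · exact h1
      · exact absurd h1 hsin.ne'
    rw [hb0] at hre
    linarith
  have hzn : 0 < ‖z‖ := norm_pos_iff.2 hz0
  have hq0 : 0 ≤ z.arg := Complex.arg_nonneg_iff.2 (by rw [him]; exact mul_nonneg hb hsin.le)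
  have hq1 := Complex.arg_le_pi z
  have e1 : z.re = ‖z‖ * cos z.arg := (Complex.norm_mul_cos_arg z).symm
  have e2 : z.im = ‖z‖ * sin z.arg := (Complex.norm_mul_sin_arg z).symm
  have e3 : ‖z‖ * sin (z.arg - δ) = -(a * sin δ) := by
    rw [sin_sub, mul_sub, ← mul_assoc, ← mul_assoc, ← e1, ← e2, hre, him]
    ring
  have hle : z.arg ≤ δ := by
    by_contra hc
    push Not at hc
    have h1 := sin_pos_of_pos_of_lt_pi (show 0 < z.arg - δ by linarith) (by linarith)
    have h2 := mul_pos hzn h1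
    have h3 := mul_nonneg ha hsin.le
    linarith
  refine ⟨‖z‖, t + z.arg, hzn, by linarith, by linarith, fun ha0 => ?_, fun hb0 => ?_, ?_⟩
  · rcases hle.lt_or_eq with h1 | h1
    · linarith
    · exfalso
      rw [h1, sub_self, sin_zero, mul_zero] at e3
      have := mul_pos ha0 hsin
      linarith
  · rcases hq0.lt_or_eq with h1 | h1
    · linarith
    · exfalso
      rw [← h1, sin_zero, mul_zero] at e2
      rw [e2] at him
      have := mul_pos hb0 hsin
      linarith
  · have h1 : (‖z‖ : ℂ) * Complex.exp ((z.arg : ℂ) * Complex.I) = z := Complex.norm_mul_exp_arg_mul_I z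
    have h2 : Complex.exp (((t + z.arg : ℝ) : ℂ) * Complex.I) =
        Complex.exp ((t : ℂ) * Complex.I) * Complex.exp ((z.arg : ℂ) * Complex.I) := by
      rw [← Complex.exp_add]
      congr 1
      push_cast
      ring
    have h3 : Complex.exp ((t' : ℂ) * Complex.I) =
        Complex.exp ((t : ℂ) * Complex.I) * Complex.exp ((δ : ℂ) * Complex.I) := by
      rw [← Complex.exp_add, hδ]
      congr 1
      push_cast
      ring
    calc (a : ℂ) * Complex.exp ((t : ℂ) * Complex.I) + (b : ℂ) * Complex.exp ((t' : ℂ) * Complex.I)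
        = Complex.exp ((t : ℂ) * Complex.I) * z := by rw [h3, hz]; ring
      _ = Complex.exp ((t : ℂ) * Complex.I) * ((‖z‖ : ℂ) * Complex.exp ((z.arg : ℂ) * Complex.I)) := by rw [h1]
      _ = _ := by rw [h2]; ring

theorem sector_bwd {t t' p : ℝ} (h : t < t') (h' : t' < t + π) (h1 : t ≤ p) (h2 : p ≤ t') :
    ∃ a b : ℝ, 0 ≤ a ∧ 0 ≤ b ∧ (a : ℂ) * Complex.exp ((t : ℂ) * Complex.I) + (b : ℂ) * Complex.exp ((t' : ℂ) * Complex.I) =
      Complex.exp ((p : ℂ) * Complex.I) := by
  have hs : 0 < sin (t' - t) := sin_pos_of_pos_of_lt_pi (by linarith) (by linarith)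
  refine ⟨sin (t' - p) / sin (t' - t), sin (p - t) / sin (t' - t), ?_, ?_, ?_⟩
  · exact div_nonneg (sin_nonneg_of_nonneg_of_le_pi (by linarith) (by linarith)) hs.le
  · exact div_nonneg (sin_nonneg_of_nonneg_of_le_pi (by linarith) (by linarith)) hs.le
  · apply Complex.ext
    · rw [Complex.add_re, Complex.re_ofReal_mul, Complex.re_ofReal_mul, Complex.exp_ofReal_mul_I_re,
        Complex.exp_ofReal_mul_I_re, Complex.exp_ofReal_mul_I_re]
      have h3 : sin (t' - p) * cos t + sin (p - t) * cos t' = sin (t' - t) * cos p := by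
        rw [sin_sub, sin_sub, sin_sub]
        ring
      field_simp
      linarith
    · rw [Complex.add_im, Complex.im_ofReal_mul, Complex.im_ofReal_mul, Complex.exp_ofReal_mul_I_im,
        Complex.exp_ofReal_mul_I_im, Complex.exp_ofReal_mul_I_im]
      have h3 : sin (t' - p) * sin t + sin (p - t) * sin t' = sin (t' - t) * sin p := by
        rw [sin_sub, sin_sub, sin_sub]
        ring
      field_simp
      linarith

/-- Two positive multiples of unit vectors agree only if the angles agree modulo `2 pi`. -/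
theorem exp_unique {r r' p p' : ℝ} (hr : 0 < r) (hr' : 0 < r')
    (h : (r : ℂ) * Complex.exp ((p : ℂ) * Complex.I) = (r' : ℂ) * Complex.exp ((p' : ℂ) * Complex.I)) :
    r = r' ∧ ∃ l : ℤ, p = p' + 2 * π * l := by
  have h1 : r = r' := by
    have h2 := congrArg norm h
    rw [norm_mul, norm_mul, Complex.norm_exp_ofReal_mul_I, Complex.norm_exp_ofReal_mul_I, mul_one, mul_one,
      Complex.norm_real, Complex.norm_real, Real.norm_of_nonneg hr.le, Real.norm_of_nonneg hr'.le] at h2
    exact h2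
  refine ⟨h1, ?_⟩
  rw [← h1] at h
  have h2 := mul_left_cancel₀ (Complex.ofReal_ne_zero.2 hr.ne') h
  obtain ⟨l, hl⟩ := Complex.exp_eq_exp_iff_exists_int.1 h2
  refine ⟨l, ?_⟩
  have h3 : ((p : ℝ) : ℂ) = ((p' + 2 * π * l : ℝ) : ℂ) := by
    push_cast
    have h4 : ((p : ℂ) - (p' + 2 * π * l)) * Complex.I = 0 := by linear_combination hl
    rcases mul_eq_zero.1 h4 with h5 | h5
    · linear_combination h5
    · exact absurd h5 Complex.I_ne_zero
  exact_mod_cast h3

end H47A
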