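import Pool.Agent.Lib.H47A.EOrd

/-! # H47A, chunk ECONS (M): consecutive facets of the list meet
Let a, b be consecutive in Lst e u (Lst = l1 ++ a :: b :: l2). Then lf b e < lf a e, a is strictly active at u + ta e and b at
u + tb e, ta, tb > 0. The function lf a - lf b along the ray is t -> (lf a u - lf b u) + t (lf a e - lf b e), increasing; positive at
ta, negative at tb: so tb < ta and it vanishes at exactly one ts with tb < ts < ta. CLAIM: a and b are active at u + ts e.
Otherwise the maximum G of all values at ts is larger than the common value of a and b. Let d be the active facet at u + ts e with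
the largest value at e (`exists_last`); lf d > lf a = lf b at ts. As lf d < lf a at ta > ts: lf d e < lf a e; as lf d < lf b at
tb < ts: lf d e > lf b e. d is strictly active at u + (ts + eta) e for small eta > 0 (as in `lst_last`), so d is in Lst, strictly
between a and b in the order lf . e: this contradicts that a, b are consecutive in a strictly decreasing list (`lst_pairwise`).
`lst_chain`: if b.1 = a.1 with a != b then b = ng a and the common value at ts is 0 = gg, so u + ts e = 0 (`gg_pos`), contradiction to NZ.
`cons_two`: with NV exactly a and b are active at that point. -/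

open Real Finset

namespace H47A

variable {A : Type} [Fintype A] [DecidableEq A] {n : A → E3}

theorem econs_ev {e v : E3} {ω : A × Bool} (h1 : Act n ω v)
    (h2 : ∀ β, β ≠ ω → Act n β v → lf n β e < lf n ω e) :
    ∀ᶠ t : ℝ in nhdsWithin 0 (Set.Ioi 0), SAct n ω (v + t • e) := by
  have h3 : ∀ β : A × Bool, ∀ᶠ t : ℝ in nhdsWithin 0 (Set.Ioi 0), β ≠ ω → lf n β (v + t • e) < lf n ω (v + t • e) := by
    intro β
    by_cases hβ : β = ω
    · exact Filter.Eventually.of_forall fun t h => absurd hβ h
    · by_cases hb : Act n β v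
      · have h4 := h2 β hβ hb
        have h5 : lf n β v = lf n ω v := le_antisymm (h1 β) (hb ω)
        filter_upwards [self_mem_nhdsWithin] with t ht _
        have ht' : (0 : ℝ) < t := ht
        rw [lf_add, lf_add, lf_smul, lf_smul, h5]
        nlinarith [mul_pos ht' (sub_pos.2 h4)]
      · have h4 : lf n β v < lf n ω v := by
          refine lt_of_le_of_ne (h1 β) fun h5 => hb ?_
          intro γ
          rw [h5]
          exact h1 γ
        have hc : Continuous fun t : ℝ => lf n ω (v + t • e) - lf n β (v + t • e) := by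
          simp only [lf_add, lf_smul]
          fun_prop
        have h6 : (0 : ℝ) < (fun t : ℝ => lf n ω (v + t • e) - lf n β (v + t • e)) 0 := by
          simp only [zero_smul, add_zero]
          linarith
        have h7 : ∀ᶠ t : ℝ in nhds 0, 0 < (fun t : ℝ => lf n ω (v + t • e) - lf n β (v + t • e)) t :=
          hc.continuousAt.eventually (lt_mem_nhds h6)
        filter_upwards [h7.filter_mono nhdsWithin_le_nhds] with t ht _
        have ht' : 0 < lf n ω (v + t • e) - lf n β (v + t • e) := ht
        linarith
  filter_upwards [Filter.eventually_all.2 h3] with t ht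
  exact fun β hβ => ht β hβ

theorem cons_meet (hG : Gnr n) {e u : E3} (he : Gen n e) {α β : A × Bool} {l1 l2 : List (A × Bool)}
    (h : Lst n e u = l1 ++ α :: β :: l2) : ∃ t : ℝ, 0 < t ∧ Act n α (u + t • e) ∧ Act n β (u + t • e) := by
  have hp := lst_pairwise he u
  rw [h, List.pairwise_append, List.pairwise_cons, List.pairwise_cons] at hp
  obtain ⟨-, ⟨hpα, hpβ, -⟩, hp1⟩ := hp
  have hαβ : lf n β e < lf n α e := hpα β (List.mem_cons_self ..)
  have hne : α ≠ β := by
    rintro rfl
    exact lt_irrefl _ hαβ
  have hα : α ∈ Lst n e u := by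
    rw [h]
    exact List.mem_append_right _ (List.mem_cons_self ..)
  have hβ : β ∈ Lst n e u := by
    rw [h]
    exact List.mem_append_right _ (List.mem_cons_of_mem _ (List.mem_cons_self ..))
  obtain ⟨ta, hta, hsa⟩ := mem_lst.1 hα
  obtain ⟨tb, htb, hsb⟩ := mem_lst.1 hβ
  have q0 : 0 < lf n α e - lf n β e := sub_pos.2 hαβ
  have fa := hsa β hne.symm
  have fb := hsb α hne
  rw [lf_add, lf_add, lf_smul, lf_smul] at fa fb
  -- the crossing parameter
  obtain ⟨ts, hts⟩ : ∃ ts : ℝ, (lf n α u - lf n β u) + ts * (lf n α e - lf n β e) = 0 :=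
    ⟨-(lf n α u - lf n β u) / (lf n α e - lf n β e), by field_simp; ring⟩
  have h1 : ts < ta := by
    by_contra hc
    have := mul_le_mul_of_nonneg_right (not_lt.1 hc) q0.le
    nlinarith
  have h2 : tb < ts := by
    by_contra hc
    have := mul_le_mul_of_nonneg_right (not_lt.1 hc) q0.le
    nlinarith
  have hts0 : 0 < ts := htb.trans h2
  have heq : lf n α (u + ts • e) = lf n β (u + ts • e) := by
    rw [lf_add, lf_add, lf_smul, lf_smul]
    linarith
  have hA : Act n α (u + ts • e) := by
    by_contra hnot
    obtain ⟨δ, hδ, hδ'⟩ := exists_last hG he (u + ts • e)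
    have h3 : lf n α (u + ts • e) < lf n δ (u + ts • e) := by
      refine lt_of_le_of_ne (hδ α) fun h4 => hnot ?_
      intro γ
      rw [h4]
      exact hδ γ
    have hδα : δ ≠ α := by
      rintro rfl
      exact lt_irrefl _ h3
    have hδβ : δ ≠ β := by
      rintro rfl
      rw [heq] at h3
      exact lt_irrefl _ h3
    have h4 := hsa δ hδα
    have h5 := hsb δ hδβ
    have h6 := h3
    rw [heq] at h6
    rw [lf_add, lf_add, lf_smul, lf_smul] at h3 h4 h5 h6
    have h7 : lf n δ e < lf n α e := by
      have h8 : (ta - ts) * lf n δ e < (ta - ts) * lf n α e := by nlinarith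
      exact lt_of_mul_lt_mul_left h8 (by linarith)
    have h8 : lf n β e < lf n δ e := by
      have h9 : (ts - tb) * lf n β e < (ts - tb) * lf n δ e := by nlinarith
      exact lt_of_mul_lt_mul_left h9 (by linarith)
    have hδL : δ ∈ Lst n e u := by
      obtain ⟨s, h9, h10⟩ := ((econs_ev hδ hδ').and self_mem_nhdsWithin).exists
      have h10' : 0 < s := h10
      rw [mem_lst]
      refine ⟨ts + s, by linarith, ?_⟩
      rw [add_smul, ← add_assoc]
      exact h9
    rw [h, List.mem_append, List.mem_cons, List.mem_cons] at hδL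
    rcases hδL with h9 | h9 | h9 | h9
    · have h10 := hp1 δ h9 α (List.mem_cons_self ..)
      linarith
    · exact hδα h9
    · exact hδβ h9
    · have h10 := hpβ δ h9
      linarith
  refine ⟨ts, hts0, hA, ?_⟩
  intro γ
  rw [← heq]
  exact hA γ

theorem lst_chain (hG : Gnr n) {e u : E3} (he : Gen n e) (hz : NZ e u) {α β : A × Bool} {l1 l2 : List (A × Bool)}
    (h : Lst n e u = l1 ++ α :: β :: l2) : α.1 ≠ β.1 := by
  obtain ⟨t, ht, h1, h2⟩ := cons_meet hG he h
  have hp := lst_pairwise he u
  rw [h, List.pairwise_append, List.pairwise_cons] at hp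
  have hαβ : lf n β e < lf n α e := hp.2.1.1 β (List.mem_cons_self ..)
  have hne : α ≠ β := by
    rintro rfl
    exact lt_irrefl _ hαβ
  exact act_fst_ne hG hne (hz t ht.le) h1 h2

/-- Every active facet at `u + t e`, `t > 0`, belongs to the list when `NV` holds: at most one other facet is active there, its
value at `e` is different, so `α` is strictly active at `u + (t + η) e` or at `u + (t - η) e` for small `η > 0`. -/
theorem act_mem (hG : Gnr n) {e u : E3} (he : Gen n e) (hv : NV n e u) {t : ℝ} (ht : 0 < t) {α : A × Bool}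
    (ha : Act n α (u + t • e)) : α ∈ Lst n e u := by
  by_cases h : ∀ β, β ≠ α → Act n β (u + t • e) → lf n β e < lf n α e
  · obtain ⟨s, h9, h10⟩ := ((econs_ev ha h).and self_mem_nhdsWithin).exists
    have h10' : 0 < s := h10
    rw [mem_lst]
    refine ⟨t + s, by linarith, ?_⟩
    rw [add_smul, ← add_assoc]
    exact h9
  · push Not at h
    obtain ⟨β, hβ, hb, hle⟩ := h
    have hlt : lf n α e < lf n β e := lt_of_le_of_ne hle (he α β hβ.symm)
    have h2 : ∀ γ, γ ≠ α → Act n γ (u + t • e) → lf n γ (-e) < lf n α (-e) := by
      intro γ hγ hc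
      have h3 : γ = β := by
        by_contra h4
        exact hv t ht α β γ hβ.symm (Ne.symm h4) hγ.symm ⟨ha, hb, hc⟩
      rw [h3, lf_neg, lf_neg]
      linarith
    have h5 : ∀ᶠ s : ℝ in nhdsWithin 0 (Set.Ioi 0), s < t :=
      (eventually_lt_nhds ht).filter_mono nhdsWithin_le_nhds
    obtain ⟨s, h9, h10⟩ := ((econs_ev ha h2).and h5).exists
    rw [mem_lst]
    refine ⟨t - s, by linarith, ?_⟩
    have h11 : u + (t - s) • e = u + t • e + s • -e := by
      rw [sub_smul, smul_neg]
      abel
    rw [h11]
    exact h9

end H47A
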