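import Mathlib

/-! # H47A, module E: symmetric polytopes, definitions
`n : A → E3` a finite family of normals; the polytope is `P = {x | |<n_a, x>| ≤ 1 for all a}`. Signed indices `A × Bool`. -/

open Real Finset

namespace H47A

/-- Euclidean three space. -/
abbrev E3 := EuclideanSpace ℝ (Fin 3)

/-- The cross product. -/
noncomputable def cross3 (u v : E3) : E3 :=
  !₂[u 1 * v 2 - u 2 * v 1, u 2 * v 0 - u 0 * v 2, u 0 * v 1 - u 1 * v 0]

/-- The determinant. -/
noncomputable def det3 (u v w : E3) : ℝ := inner ℝ (cross3 u v) w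

section

variable {A : Type} [Fintype A] [DecidableEq A] (n : A → E3)

/-- Signed normals. -/
noncomputable def nn (α : A × Bool) : E3 := if α.2 then n α.1 else -n α.1

/-- The antipodal index. -/
def ng (α : A × Bool) : A × Bool := (α.1, !α.2)

/-- The linear functional of a facet. -/
noncomputable def lf (α : A × Bool) (u : E3) : ℝ := inner ℝ (nn n α) u

/-- The gauge function of the polytope. -/
noncomputable def gg (u : E3) : ℝ := ⨆ α : A × Bool, lf n α u

/-- `α` is active at `u`: `u` lies in the cone over the facet `α`. -/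
def Act (α : A × Bool) (u : E3) : Prop := ∀ β, lf n β u ≤ lf n α u

/-- `α` is the only active index. -/
def SAct (α : A × Bool) (u : E3) : Prop := ∀ β, β ≠ α → lf n β u < lf n α u

/-- The boundary of the polytope. -/
def bd : Set E3 := {u | gg n u = 1}

/-- Radial projection to the boundary. -/
noncomputable def psi (u : E3) : E3 := (gg n u)⁻¹ • u

/-- Genericity: the polytope is bounded, three normals are linearly independent, four facet planes never meet. -/
structure Gnr : Prop where
  bdd : ∀ u : E3, u ≠ 0 → ∃ a, inner ℝ (n a) u ≠ 0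
  three : ∀ α β γ : A × Bool, α.1 ≠ β.1 → β.1 ≠ γ.1 → α.1 ≠ γ.1 → det3 (nn n α) (nn n β) (nn n γ) ≠ 0
  four : ∀ α β γ δ : A × Bool, α ≠ β → α ≠ γ → α ≠ δ → β ≠ γ → β ≠ δ → γ ≠ δ → ∀ u : E3,
    ¬ (lf n α u = 1 ∧ lf n β u = 1 ∧ lf n γ u = 1 ∧ lf n δ u = 1)

/-- Frames of the facet planes: `fr a` is a unit vector orthogonal to `n a`. -/
structure Frm (fr : A → E3) : Prop where
  unit : ∀ a, ‖fr a‖ = 1
  perp : ∀ a, inner ℝ (fr a) (n a) = 0

/-- First frame vector of a signed facet. -/
noncomputable def ee (fr : A → E3) (α : A × Bool) : E3 := if α.2 then fr α.1 else -fr α.1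

/-- Second frame vector: outward unit normal times first frame vector. -/
noncomputable def ff (fr : A → E3) (α : A × Bool) : E3 := (‖nn n α‖)⁻¹ • cross3 (nn n α) (ee fr α)

/-- The chart of a facet plane. -/
noncomputable def ch (fr : A → E3) (α : A × Bool) (X : E3) : ℂ := ⟨inner ℝ (ee fr α) X, inner ℝ (ff n fr α) X⟩

/-- The rotation between the charts of two facets. -/
noncomputable def tr (fr : A → E3) (α β : A × Bool) : ℂ :=
  ch n fr α (cross3 (nn n α) (nn n β)) / ch n fr β (cross3 (nn n α) (nn n β))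

open Classical in
/-- A common point of two facet planes. -/
noncomputable def pt (α β : A × Bool) : E3 :=
  if h : ∃ p, lf n α p = 1 ∧ lf n β p = 1 then h.choose else 0

/-- A development of the facet plane `α` is `X ↦ D.1 * ch X + D.2`; `step` continues it across the edge to the facet `β`. -/
noncomputable def step (fr : A → E3) (α β : A × Bool) (D : ℂ × ℂ) : ℂ × ℂ :=
  (D.1 * tr n fr α β, D.2 + D.1 * ch n fr α (pt n α β) - D.1 * tr n fr α β * ch n fr β (pt n α β))

/-- Evaluation of a development. -/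
noncomputable def ev (fr : A → E3) (α : A × Bool) (D : ℂ × ℂ) (X : E3) : ℂ := D.1 * ch n fr α X + D.2

/-- The segment from `e` to `u`. -/
noncomputable def seg (e u : E3) (t : ℝ) : E3 := (1 - t) • e + t • u

/-- The vertices. -/
def Vx : Set E3 := {u | gg n u = 1 ∧ ∃ α β γ : A × Bool, α ≠ β ∧ β ≠ γ ∧ α ≠ γ ∧ Act n α u ∧ Act n β u ∧ Act n γ u}

/-- The pole `e` is generic: all functionals have different values at `e`. -/
def Gen (e : E3) : Prop := ∀ α β : A × Bool, α ≠ β → lf n α e ≠ lf n β e

open Classical in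
/-- The facets crossed by the open ray `u + t e`, `t > 0`. -/
noncomputable def act (e u : E3) : Finset (A × Bool) :=
  univ.filter fun α => ∃ t : ℝ, 0 < t ∧ SAct n α (u + t • e)

open Classical in
/-- All signed facets, ordered by decreasing value at `e`. -/
noncomputable def Om (e : E3) : List (A × Bool) :=
  (univ : Finset (A × Bool)).toList.mergeSort fun α β => decide (lf n β e ≤ lf n α e)

open Classical in
/-- The facets crossed by the ray `u + t e`, in their order (`t` decreasing from infinity to 0). -/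
noncomputable def Lst (e u : E3) : List (A × Bool) := (Om n e).filter fun α => decide (α ∈ act n e u)

/-- Development along a list of facets, starting with the facet `α` developed by `D`. -/
noncomputable def devAux (fr : A → E3) : A × Bool → ℂ × ℂ → List (A × Bool) → (A × Bool) × (ℂ × ℂ)
  | α, D, [] => (α, D)
  | α, D, β :: l => devAux fr β (step n fr α β D) l

/-- The development at the end `u` of the ray `u + t e` (it starts in the facet `α₀` at the pole): last facet and motion. -/
noncomputable def dev (fr : A → E3) (e : E3) (α₀ : A × Bool) (u : E3) : (A × Bool) × (ℂ × ℂ) :=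
  devAux n fr α₀ (1, 0) (Lst n e u).tail

/-- The developing map. -/
noncomputable def DD (fr : A → E3) (e : E3) (α₀ : A × Bool) (u : E3) : ℂ :=
  ev n fr (dev n fr e α₀ u).1 (dev n fr e α₀ u).2 (psi n u)

/-- The open ray `u + t e`, `t > 0`, meets no vertex direction. -/
def NV (e u : E3) : Prop := ∀ t : ℝ, 0 < t → ∀ α β γ : A × Bool, α ≠ β → β ≠ γ → α ≠ γ →
  ¬ (Act n α (u + t • e) ∧ Act n β (u + t • e) ∧ Act n γ (u + t • e))

/-- The closed ray avoids the origin. -/
def NZ (e u : E3) : Prop := ∀ t : ℝ, 0 ≤ t → u + t • e ≠ 0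

/-- Azimuth of a vector with respect to the axis orthogonal to `f1`, `f2`. -/
noncomputable def az (f1 f2 u : E3) : ℂ := ⟨inner ℝ f1 u, inner ℝ f2 u⟩

/-- The fan: a symmetric closed curve through all vertices, azimuth increasing, made of segments inside single facets. -/
structure Fan (f1 f2 : E3) (m : ℕ) where
  γ : ℤ → E3
  θ : ℤ → ℝ
  b : ℤ → A × Bool
  two_le : 2 ≤ m
  anti : ∀ k, γ (k + m) = -γ k
  on : ∀ k, gg n (γ k) = 1
  azi : ∀ k, ∃ r : ℝ, 0 < r ∧ az f1 f2 (γ k) = (r : ℂ) * Complex.exp ((θ k : ℂ) * Complex.I)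
  mono : ∀ k, θ k < θ (k + 1)
  θper : ∀ k, θ (k + m) = θ k + π
  side : ∀ k, ∀ s ∈ Set.Ioo (0 : ℝ) 1, SAct n (b k) (seg (γ k) (γ (k + 1)) s)
  vert : ∀ u ∈ Vx n, ∃ k, γ k = u

end

/-- The axis and its frame. -/
structure Axis (f1 f2 e : E3) : Prop where
  n1 : ‖f1‖ = 1
  n2 : ‖f2‖ = 1
  ne : ‖e‖ = 1
  p12 : inner ℝ f1 f2 = 0
  p1e : inner ℝ f1 e = 0
  p2e : inner ℝ f2 e = 0
  ori : det3 f1 f2 e = 1

end H47A
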