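import Pool.Agent.Lib.H47A.EFan4

/-! # H47A, chunks EDISC1 (M), EDISC2 (M): the upper disc is a disc
EDISC1: `exists_ht`: on Cn k the height is det3 u (γ k) (γ (k+1)) / D_k = a for u = a e + b γ k + c γ (k+1). Well defined: if u is in Cn k
and Cn l: if az u = 0 then b = c = 0 in both (cr of the two azimuths is positive, so b az γ_k + c az γ_{k+1} = 0 gives b = c = 0) and a e = a' e.
Otherwise u = r (G x + t e) = r' (G x' + t' e), azimuths and `exp_unique` with T give x' = x + 2 m l, G x' = G x, then r = r', t = t', a = r t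
= a'. So define ht u by choice of k (0 outside). Continuous on UU: on each closed piece UU ∩ Cn k it is linear in u; finitely many pieces
(`uu_iff`): LocallyFinite / ContinuousOn union of closed sets. `G x`: height 0.
EDISC2 (`disc_map`): Phi u = az u / (|az u| + ht u). The denominator is positive: az u = 0 implies u = c e, c > 0, ht u = c. Norm <= 1.
Phi (G x) = az (G x)/|az (G x)| = e^{i T x}. Injective: Phi u = Phi u'. If az u = 0 then az u' = 0: u = c e, u' = c' e and gg = 1: equal.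
Otherwise u = r (G x + t e), u' = r' (G x' + t' e) (`uu_form`), same direction of the azimuth: G x' = G x (as above), and
|az u|/(|az u| + ht u) = |w|/(|w| + t), w = az (G x) (ht u = r t): so t = t'; then u' = (r'/r) u and gg = 1 gives u = u'. -/

open Real Filter Topology

namespace H47A

variable {A : Type} [Fintype A] [DecidableEq A] {n : A → E3} {f1 f2 e : E3} {m : ℕ}

namespace Fan

/-- The height, as a relation. -/
def edisc_P (F : Fan n f1 f2 m) (e u : E3) (a : ℝ) : Prop :=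
  (0 < a ∧ u = a • e) ∨ ∃ x r t : ℝ, 0 < r ∧ 0 ≤ t ∧ u = r • (F.G x + t • e) ∧ a = r * t

theorem edisc_mix (hA : Axis f1 f2 e) (F : Fan n f1 f2 m) (v : E3) (c x r t : ℝ) (hr : 0 < r) (h1 : v = c • e)
    (h2 : v = r • (F.G x + t • e)) : False := by
  have h3 := congrArg (az f1 f2) h2
  rw [h1, efan3b_az0 hA, efan3b_az hA] at h3
  exact mul_ne_zero (Complex.ofReal_ne_zero.2 hr.ne') (F.az_G_ne x) h3.symm

theorem edisc_eq (hA : Axis f1 f2 e) (F : Fan n f1 f2 m) {x y r r' t t' : ℝ} (hr : 0 < r) (hr' : 0 < r')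
    (h : r • (F.G x + t • e) = r' • (F.G y + t' • e)) : F.G x = F.G y ∧ r = r' ∧ t = t' := by
  have h3 := congrArg (az f1 f2) h
  rw [efan3b_az hA, efan3b_az hA] at h3
  obtain ⟨h4, h5⟩ := F.dir_unique hr hr' h3
  refine ⟨h4, h5, ?_⟩
  rw [← h5, h4] at h
  have h6 := smul_right_injective E3 hr.ne' h
  have h7 := add_left_cancel h6
  have h8 : (t - t') • e = 0 := by rw [sub_smul, h7, sub_self]
  rcases smul_eq_zero.1 h8 with h10 | h10
  · linarith
  · exact absurd h10 (efan3b_e hA)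

theorem edisc_uniq (hA : Axis f1 f2 e) (F : Fan n f1 f2 m) {u : E3} {a a' : ℝ} (h : F.edisc_P e u a)
    (h' : F.edisc_P e u a') : a = a' := by
  rcases h with ⟨ha, h1⟩ | ⟨x, r, t, hr, ht, h1, rfl⟩
  · rcases h' with ⟨ha', h2⟩ | ⟨y, r', t', hr', ht', h2, rfl⟩
    · have h8 : (a - a') • e = 0 := by rw [sub_smul, ← h1, ← h2, sub_self]
      rcases smul_eq_zero.1 h8 with h10 | h10
      · linarith
      · exact absurd h10 (efan3b_e hA)
    · exact absurd (F.edisc_mix hA u a y r' t' hr' h1 h2) id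
  · rcases h' with ⟨ha', h2⟩ | ⟨y, r', t', hr', ht', h2, rfl⟩
    · exact absurd (F.edisc_mix hA u a' x r t hr h2 h1) id
    · obtain ⟨-, h3, h4⟩ := F.edisc_eq hA hr hr' (h1.symm.trans h2)
      rw [h3, h4]

theorem edisc_cn (hG : Gnr n) (F : Fan n f1 f2 m) {u : E3} (hu : gg n u = 1) {k : ℤ} {a b c : ℝ} (ha : 0 ≤ a)
    (hb : 0 ≤ b) (hc : 0 ≤ c) (h2 : u = a • e + b • F.γ k + c • F.γ (k + 1)) : F.edisc_P e u a := by
  rcases eq_or_lt_of_le (add_nonneg hb hc) with h3 | h3
  · left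
    have hb0 : b = 0 := by linarith
    have hc0 : c = 0 := by linarith
    rw [hb0, hc0, zero_smul, zero_smul, add_zero, add_zero] at h2
    refine ⟨lt_of_le_of_ne ha ?_, h2⟩
    rintro rfl
    rw [zero_smul] at h2
    rw [h2, egau_zero hG] at hu
    norm_num at hu
  · right
    refine ⟨k + c / (b + c), b + c, a / (b + c), h3, by positivity, ?_, ?_⟩
    · have h4 : c / (b + c) ≤ 1 := by
        rw [div_le_one h3]
        linarith
      have h5 : 0 ≤ c / (b + c) := by positivity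
      have hb' : (b + c) ≠ 0 := h3.ne'
      rw [F.G_eq k ⟨by linarith, by linarith⟩]
      unfold seg
      rw [h2, smul_add, smul_add, smul_smul, smul_smul, smul_smul]
      have e1 : (b + c) * (1 - ((k : ℝ) + c / (b + c) - k)) = b := by field_simp; ring
      have e2 : (b + c) * ((k : ℝ) + c / (b + c) - k) = c := by field_simp; ring
      have e3 : (b + c) * (a / (b + c)) = a := by field_simp
      rw [e1, e2, e3]
      abel
    · field_simp

theorem exists_ht (hG : Gnr n) (hA : Axis f1 f2 e) (F : Fan n f1 f2 m) :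
    ∃ ht : E3 → ℝ, ContinuousOn ht (F.UU e) ∧ (∀ x, ht (F.G x) = 0) ∧ (∀ u ∈ F.UU e, 0 ≤ ht u) ∧
      (∀ c : ℝ, 0 < c → c • e ∈ F.UU e → ht (c • e) = c) ∧
      ∀ x r t : ℝ, 0 < r → 0 ≤ t → r • (F.G x + t • e) ∈ F.UU e → ht (r • (F.G x + t • e)) = r * t := by
  classical
  obtain ⟨ht, hht⟩ : ∃ ht : E3 → ℝ, ∀ u a, F.edisc_P e u a → ht u = a := by
    refine ⟨fun u => if h : ∃ a, F.edisc_P e u a then h.choose else 0, fun u a hP => ?_⟩
    have h : ∃ a, F.edisc_P e u a := ⟨a, hP⟩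
    simp only [dif_pos h]
    exact F.edisc_uniq hA h.choose_spec hP
  refine ⟨ht, ?_, ?_, ?_, ?_, ?_⟩
  · have h1 : F.UU e = ⋃ k : Fin (2 * m), bd n ∩ F.Cn e ((k : ℕ) : ℤ) := by
      ext u
      rw [F.uu_iff, Set.mem_iUnion]
      constructor
      · rintro ⟨h1, k, hk, h2⟩
        exact ⟨⟨k, Finset.mem_range.1 hk⟩, h1, h2⟩
      · rintro ⟨k, h1, h2⟩
        exact ⟨h1, k, Finset.mem_range.2 k.2, h2⟩
    rw [h1]
    refine LocallyFinite.continuousOn_iUnion (locallyFinite_of_finite _)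
      (fun k => (bd_compact hG).isClosed.inter (F.cn_closed hA _)) fun k => ?_
    have hD := F.det_pos hA ((k : ℕ) : ℤ)
    have h2 : ContinuousOn (fun u : E3 => (det3 e (F.γ ((k : ℕ) : ℤ)) (F.γ (((k : ℕ) : ℤ) + 1)))⁻¹ *
        det3 u (F.γ ((k : ℕ) : ℤ)) (F.γ (((k : ℕ) : ℤ) + 1))) (bd n ∩ F.Cn e ((k : ℕ) : ℤ)) :=
      (continuous_const.mul (efan3a_cont _ _).1).continuousOn
    refine h2.congr ?_
    rintro u ⟨hu1, a, b, c, ha, hb, hc, hu2⟩
    have h3 := (efan3a_d1 e (F.γ ((k : ℕ) : ℤ)) (F.γ (((k : ℕ) : ℤ) + 1)) a b c).1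
    rw [← hu2] at h3
    simp only
    rw [hht u a (F.edisc_cn hG hu1 ha hb hc hu2), h3]
    field_simp
  · intro x
    exact hht _ _ (Or.inr ⟨x, 1, 0, one_pos, le_rfl, by rw [one_smul, zero_smul, add_zero], by ring⟩)
  · intro u hu
    obtain ⟨h1, k, a, b, c, ha, hb, hc, h2⟩ := hu
    rw [hht u a (F.edisc_cn hG h1 ha hb hc h2)]
    exact ha
  · intro c hc _
    exact hht _ _ (Or.inl ⟨hc, rfl⟩)
  · intro x r t hr ht' _
    exact hht _ _ (Or.inr ⟨x, r, t, hr, ht', rfl, rfl⟩)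

end Fan

end H47A
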