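import Pool.Agent.Lib.H47A.ETop

/-! # H47A, chunk ETOP2 (M/L): crossing paths in the disc
Four points e^{i t1}, ..., e^{i t4}, t1 < t2 < t3 < t4 < t1 + 2 pi, p from the first to the third, q from the second to the fourth, both
in the closed unit disc: they meet. Multiply everything by e^{-i (t1 + pi)}: we may assume t1 = -pi (so e^{i t1} = -1), t2, t3, t4 in
(-pi, pi). Let g : R -> R continuous, strictly increasing on [-pi,pi], g(-pi) = -pi, g t2 = -pi/2, g t3 = 0, g t4 = pi/2, g pi = pi: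
g t = -pi + (pi/2) (cl((t+pi)/(t2+pi)) + cl((t-t2)/(t3-t2)) + cl((t-t3)/(t4-t3)) + cl((t-t4)/(pi-t4))), cl x = max 0 (min 1 x).
H z = |z| e^{i g (arg z)}, H 0 = 0. H is injective on the plane (|H z| = |z|, g injective on (-pi,pi] with values in (-pi,pi]). H is
continuous: at 0 since |H z| = |z|; outside the negative real axis arg is continuous; at z0 = -r0: arg z close to pi or -pi, so g (arg z) close
to pi or -pi and e^{i g(arg z)} close to -1. |H z| <= 1 on the disc; H(-1) = -1, H(e^{i t3}) = 1, H(e^{i t2}) = -i, H(e^{i t4}) = i. So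
H(p(.)), H(q(.)) with the parameter (1+s)/2 satisfy the hypotheses of `cross_square` (precompose with the projection to [0,1] to get
functions continuous on the line) and the crossing of the images is a crossing of p and q as H is injective. -/

open Real Filter Topology

namespace H47A

theorem etop2_cont {E : ℝ → ℂ} (hE : Continuous E) (h1 : E (-π) = E π) (h2 : ∀ t, ‖E t‖ = 1) :
    Continuous fun z : ℂ => (‖z‖ : ℂ) * E z.arg := by
  have : Fact (0 < 2 * π) := ⟨Real.two_pi_pos⟩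
  have hper : -π + 2 * π = π := by ring
  have hL : Continuous (AddCircle.liftIoc (2 * π) (-π) E) :=
    AddCircle.liftIoc_continuous (by rw [hper]; exact h1) hE.continuousOn
  rw [continuous_iff_continuousAt]
  intro z
  by_cases hz : z = 0
  · subst hz
    show Tendsto (fun z : ℂ => (‖z‖ : ℂ) * E z.arg) (𝓝 0) (𝓝 ((‖(0 : ℂ)‖ : ℂ) * E (Complex.arg 0)))
    rw [norm_zero, Complex.ofReal_zero, zero_mul, tendsto_zero_iff_norm_tendsto_zero]
    have : (fun z : ℂ => ‖(‖z‖ : ℂ) * E z.arg‖) = fun z => ‖z‖ := by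
      funext w
      rw [norm_mul, h2, mul_one, Complex.norm_real, norm_norm]
    rw [this]
    exact (continuous_norm (E := ℂ)).tendsto' _ _ norm_zero
  · refine ContinuousAt.mul (Complex.continuous_ofReal.comp continuous_norm).continuousAt ?_
    have hEq : (fun w : ℂ => E w.arg) = fun w => AddCircle.liftIoc (2 * π) (-π) E ((w.arg : Real.Angle)) := by
      funext w
      exact (AddCircle.liftIoc_coe_apply (by rw [hper]; exact Complex.arg_mem_Ioc w)).symm
    rw [hEq]
    exact ContinuousAt.comp (f := fun w : ℂ => ((w.arg : Real.Angle) : AddCircle (2 * π))) hL.continuousAt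
      (Complex.continuousAt_arg_coe_angle hz)

theorem etop2_arg {a : ℝ} (h : a ∈ Set.Ioc (-π) π) : (Complex.exp ((a : ℂ) * Complex.I)).arg = a := by
  rw [Complex.exp_mul_I, Complex.arg_cos_add_sin_mul_I h]

/-- the clamp -/
noncomputable def etop2_cl (x : ℝ) : ℝ := max 0 (min 1 x)

theorem etop2_cl_cont : Continuous etop2_cl := by
  unfold etop2_cl
  fun_prop

theorem etop2_cl_mono {x y : ℝ} (h : x ≤ y) : etop2_cl x ≤ etop2_cl y := by
  unfold etop2_cl
  exact max_le_max le_rfl (min_le_min le_rfl h)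

theorem etop2_cl_mem (x : ℝ) : etop2_cl x ∈ Set.Icc (0 : ℝ) 1 :=
  ⟨le_max_left _ _, max_le zero_le_one (min_le_left _ _)⟩

theorem etop2_cl_zero {x : ℝ} (h : x ≤ 0) : etop2_cl x = 0 := by
  unfold etop2_cl
  exact max_eq_left ((min_le_right _ _).trans h)

theorem etop2_cl_one {x : ℝ} (h : 1 ≤ x) : etop2_cl x = 1 := by
  unfold etop2_cl
  rw [min_eq_left h, max_eq_right zero_le_one]

theorem etop2_cl_id {x : ℝ} (h0 : 0 ≤ x) (h1 : x ≤ 1) : etop2_cl x = x := by
  unfold etop2_cl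
  rw [min_eq_right h1, max_eq_right h0]

/-- the clamp of an interval -/
theorem etop2_cl_strict {u v x y : ℝ} (huv : u < v) (hx : u ≤ x) (hxv : x < v) (hxy : x < y) :
    etop2_cl ((x - u) / (v - u)) < etop2_cl ((y - u) / (v - u)) := by
  have h0 : 0 < v - u := by linarith
  rw [etop2_cl_id (div_nonneg (by linarith) h0.le) ((div_le_one h0).2 (by linarith))]
  rcases le_total y v with hy | hy
  · rw [etop2_cl_id (div_nonneg (by linarith) h0.le) ((div_le_one h0).2 (by linarith))]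
    exact div_lt_div_of_pos_right (by linarith) h0
  · rw [etop2_cl_one ((one_le_div h0).2 (by linarith)), div_lt_one h0]
    linarith

/-- the change of the angle -/
noncomputable def etop2_g (a b c t : ℝ) : ℝ :=
  -π + π / 2 * (etop2_cl ((t - -π) / (a - -π)) + etop2_cl ((t - a) / (b - a)) + etop2_cl ((t - b) / (c - b)) +
    etop2_cl ((t - c) / (π - c)))

theorem etop2_g_cont (a b c : ℝ) : Continuous (etop2_g a b c) := by
  unfold etop2_g
  have h : ∀ u v : ℝ, Continuous fun t : ℝ => etop2_cl ((t - u) / (v - u)) := by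
    intro u v
    exact etop2_cl_cont.comp ((continuous_id.sub continuous_const).div_const _)
  exact continuous_const.add (continuous_const.mul ((((h _ _).add (h _ _)).add (h _ _)).add (h _ _)))

theorem etop2_neg {u v x : ℝ} (huv : u < v) (hx : x ≤ u) : etop2_cl ((x - u) / (v - u)) = 0 :=
  etop2_cl_zero (div_nonpos_of_nonpos_of_nonneg (by linarith) (by linarith))

theorem etop2_pos {u v x : ℝ} (huv : u < v) (hx : v ≤ x) : etop2_cl ((x - u) / (v - u)) = 1 :=
  etop2_cl_one ((one_le_div (by linarith)).2 (by linarith))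

theorem etop2_g_mono {a b c : ℝ} (ha : -π < a) (hab : a < b) (hbc : b < c) (hc : c < π) :
    StrictMonoOn (etop2_g a b c) (Set.Icc (-π) π) := by
  intro x hx y hy hxy
  have hm : ∀ u v : ℝ, u < v → etop2_cl ((x - u) / (v - u)) ≤ etop2_cl ((y - u) / (v - u)) := fun u v huv =>
    etop2_cl_mono (div_le_div_of_nonneg_right (by linarith) (by linarith))
  have m1 := hm (-π) a ha
  have m2 := hm a b hab
  have m3 := hm b c hbc
  have m4 := hm c π hc
  have hpi := Real.pi_pos
  unfold etop2_g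
  have hsum : etop2_cl ((x - -π) / (a - -π)) + etop2_cl ((x - a) / (b - a)) + etop2_cl ((x - b) / (c - b)) +
      etop2_cl ((x - c) / (π - c)) < etop2_cl ((y - -π) / (a - -π)) + etop2_cl ((y - a) / (b - a)) +
      etop2_cl ((y - b) / (c - b)) + etop2_cl ((y - c) / (π - c)) := by
    rcases lt_or_ge x a with h | h
    · have := etop2_cl_strict ha hx.1 h hxy
      linarith
    · rcases lt_or_ge x b with h' | h'
      · have := etop2_cl_strict hab h h' hxy
        linarith
      · rcases lt_or_ge x c with h'' | h''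
        · have := etop2_cl_strict hbc h' h'' hxy
          linarith
        · have := etop2_cl_strict hc h'' (lt_of_lt_of_le hxy hy.2) hxy
          linarith
  have := mul_lt_mul_of_pos_left hsum (show 0 < π / 2 by linarith)
  linarith

theorem etop2_g_val {a b c : ℝ} (ha : -π < a) (hab : a < b) (hbc : b < c) (hc : c < π) :
    etop2_g a b c (-π) = -π ∧ etop2_g a b c a = -(π / 2) ∧ etop2_g a b c b = 0 ∧ etop2_g a b c c = π / 2 ∧
      etop2_g a b c π = π := by
  unfold etop2_g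
  refine ⟨?_, ?_, ?_, ?_, ?_⟩
  · rw [etop2_neg ha le_rfl, etop2_neg hab (by linarith), etop2_neg hbc (by linarith), etop2_neg hc (by linarith)]
    ring
  · rw [etop2_pos ha le_rfl, etop2_neg hab le_rfl, etop2_neg hbc (by linarith), etop2_neg hc (by linarith)]
    ring
  · rw [etop2_pos ha (by linarith), etop2_pos hab le_rfl, etop2_neg hbc le_rfl, etop2_neg hc (by linarith)]
    ring
  · rw [etop2_pos ha (by linarith), etop2_pos hab (by linarith), etop2_pos hbc le_rfl, etop2_neg hc le_rfl]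
    ring
  · rw [etop2_pos ha (by linarith), etop2_pos hab (by linarith), etop2_pos hbc (by linarith), etop2_pos hc le_rfl]
    ring

/-- A homeomorphism of the disc moving three boundary points. -/
theorem etop2_map {a b c : ℝ} (ha : -π < a) (hab : a < b) (hbc : b < c) (hc : c < π) :
    ∃ H : ℂ → ℂ, Continuous H ∧ Function.Injective H ∧ (∀ z, ‖H z‖ = ‖z‖) ∧ H (-1) = -1 ∧
      H (Complex.exp ((a : ℂ) * Complex.I)) = -Complex.I ∧ H (Complex.exp ((b : ℂ) * Complex.I)) = 1 ∧
      H (Complex.exp ((c : ℂ) * Complex.I)) = Complex.I := by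
  obtain ⟨v1, v2, v3, v4, v5⟩ := etop2_g_val ha hab hbc hc
  have hmono := etop2_g_mono ha hab hbc hc
  have hE : Continuous fun t : ℝ => Complex.exp ((etop2_g a b c t : ℂ) * Complex.I) := by
    have := etop2_g_cont a b c
    fun_prop
  have hn : ∀ t : ℝ, ‖Complex.exp ((etop2_g a b c t : ℂ) * Complex.I)‖ = 1 := fun t => Complex.norm_exp_ofReal_mul_I _
  have hcont := etop2_cont hE (by
    show Complex.exp ((etop2_g a b c (-π) : ℂ) * Complex.I) = Complex.exp ((etop2_g a b c π : ℂ) * Complex.I)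
    rw [v1, v5]
    push_cast
    rw [neg_mul, Complex.exp_neg, Complex.exp_pi_mul_I]
    norm_num) hn
  have hnorm : ∀ z : ℂ, ‖(‖z‖ : ℂ) * Complex.exp ((etop2_g a b c z.arg : ℂ) * Complex.I)‖ = ‖z‖ := by
    intro z
    rw [norm_mul, hn, mul_one, Complex.norm_real, norm_norm]
  have hval : ∀ t : ℝ, t ∈ Set.Ioc (-π) π → (‖Complex.exp ((t : ℂ) * Complex.I)‖ : ℂ) *
      Complex.exp ((etop2_g a b c (Complex.exp ((t : ℂ) * Complex.I)).arg : ℂ) * Complex.I) =
      Complex.exp ((etop2_g a b c t : ℂ) * Complex.I) := by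
    intro t ht
    rw [etop2_arg ht, Complex.norm_exp_ofReal_mul_I]
    simp
  have hpi := Real.pi_pos
  refine ⟨_, hcont, ?_, hnorm, ?_, ?_, ?_, ?_⟩
  · intro z w hzw
    have h1 : ‖z‖ = ‖w‖ := by
      rw [← hnorm z, ← hnorm w]
      exact congrArg _ hzw
    by_cases hz : z = 0
    · rw [hz, norm_zero] at h1
      rw [hz, norm_eq_zero.1 h1.symm]
    · have hz' : (‖z‖ : ℂ) ≠ 0 := by
        rw [Complex.ofReal_ne_zero]
        exact norm_ne_zero_iff.2 hz
      have h2 : (‖z‖ : ℂ) * Complex.exp ((etop2_g a b c z.arg : ℂ) * Complex.I) =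
          (‖w‖ : ℂ) * Complex.exp ((etop2_g a b c w.arg : ℂ) * Complex.I) := hzw
      rw [← h1] at h2
      have h3 := mul_left_cancel₀ hz' h2
      have hI : ∀ u : ℂ, u.arg ∈ Set.Icc (-π) π := fun u => ⟨(Complex.neg_pi_lt_arg u).le, Complex.arg_le_pi u⟩
      have hr : ∀ u : ℂ, etop2_g a b c u.arg ∈ Set.Ioc (-π) π := by
        intro u
        constructor
        · rw [← v1]
          exact hmono ⟨le_rfl, by linarith⟩ (hI u) (Complex.neg_pi_lt_arg u)
        · calc etop2_g a b c u.arg ≤ etop2_g a b c π :=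
                (hmono.le_iff_le (hI u) ⟨by linarith, le_rfl⟩).2 (Complex.arg_le_pi u)
            _ = π := v5
      have h4 : etop2_g a b c z.arg = etop2_g a b c w.arg := by
        rw [← etop2_arg (hr z), ← etop2_arg (hr w), h3]
      exact Complex.ext_norm_arg h1 (hmono.injOn (hI z) (hI w) h4)
  · show (‖(-1 : ℂ)‖ : ℂ) * Complex.exp ((etop2_g a b c (Complex.arg (-1)) : ℂ) * Complex.I) = -1
    rw [Complex.arg_neg_one, v5, Complex.exp_pi_mul_I]
    simp
  · show (‖Complex.exp ((a : ℂ) * Complex.I)‖ : ℂ) *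
      Complex.exp ((etop2_g a b c (Complex.exp ((a : ℂ) * Complex.I)).arg : ℂ) * Complex.I) = _
    rw [hval a ⟨ha, by linarith⟩, v2]
    push_cast
    rw [neg_mul, Complex.exp_neg, Complex.exp_pi_div_two_mul_I, Complex.inv_I]
  · show (‖Complex.exp ((b : ℂ) * Complex.I)‖ : ℂ) *
      Complex.exp ((etop2_g a b c (Complex.exp ((b : ℂ) * Complex.I)).arg : ℂ) * Complex.I) = _
    rw [hval b ⟨by linarith, by linarith⟩, v3]
    simp
  · show (‖Complex.exp ((c : ℂ) * Complex.I)‖ : ℂ) *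
      Complex.exp ((etop2_g a b c (Complex.exp ((c : ℂ) * Complex.I)).arg : ℂ) * Complex.I) = _
    rw [hval c ⟨by linarith, by linarith⟩, v4]
    push_cast
    rw [Complex.exp_pi_div_two_mul_I]

theorem cross_disc {t1 t2 t3 t4 : ℝ} (h12 : t1 < t2) (h23 : t2 < t3) (h34 : t3 < t4) (h41 : t4 < t1 + 2 * π)
    {p q : ℝ → ℂ} (hp : ContinuousOn p (Set.Icc 0 1)) (hq : ContinuousOn q (Set.Icc 0 1))
    (hp1 : ∀ t ∈ Set.Icc (0 : ℝ) 1, ‖p t‖ ≤ 1) (hq1 : ∀ t ∈ Set.Icc (0 : ℝ) 1, ‖q t‖ ≤ 1)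
    (hp0 : p 0 = Complex.exp ((t1 : ℂ) * Complex.I)) (hp2 : p 1 = Complex.exp ((t3 : ℂ) * Complex.I))
    (hq0 : q 0 = Complex.exp ((t2 : ℂ) * Complex.I)) (hq2 : q 1 = Complex.exp ((t4 : ℂ) * Complex.I)) :
    ∃ s ∈ Set.Icc (0 : ℝ) 1, ∃ t ∈ Set.Icc (0 : ℝ) 1, p s = q t := by
  obtain ⟨a, ha⟩ : ∃ a, a = t2 - t1 - π := ⟨_, rfl⟩
  obtain ⟨b, hb⟩ : ∃ b, b = t3 - t1 - π := ⟨_, rfl⟩
  obtain ⟨c, hc⟩ : ∃ c, c = t4 - t1 - π := ⟨_, rfl⟩
  obtain ⟨H, hHc, hHi, hHn, H1, Ha, Hb, Hc⟩ := etop2_map (a := a) (b := b) (c := c) (by linarith) (by linarith)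
    (by linarith) (by linarith)
  obtain ⟨ρ, hρ⟩ : ∃ ρ : ℂ, ρ = Complex.exp (((-(t1 + π) : ℝ) : ℂ) * Complex.I) := ⟨_, rfl⟩
  have hρn : ‖ρ‖ = 1 := by rw [hρ]; exact Complex.norm_exp_ofReal_mul_I _
  have hρ0 : ρ ≠ 0 := by
    intro h
    rw [h, norm_zero] at hρn
    exact zero_ne_one hρn
  have hrot : ∀ t : ℝ, ρ * Complex.exp ((t : ℂ) * Complex.I) = Complex.exp (((t - t1 - π : ℝ) : ℂ) * Complex.I) := by
    intro t
    rw [hρ, ← Complex.exp_add]
    congr 1
    push_cast
    ring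
  obtain ⟨τ, hτ⟩ : ∃ τ : ℝ → ℝ, τ = fun s => etop2_cl ((1 + s) / 2) := ⟨_, rfl⟩
  have hτc : Continuous τ := by
    rw [hτ]
    exact etop2_cl_cont.comp (by fun_prop)
  have hτm : ∀ s, τ s ∈ Set.Icc (0 : ℝ) 1 := by
    intro s
    rw [hτ]
    exact etop2_cl_mem _
  have hτ0 : τ (-1) = 0 := by
    rw [hτ]
    exact etop2_cl_zero (by norm_num)
  have hτ1 : τ 1 = 1 := by
    rw [hτ]
    exact etop2_cl_one (by norm_num)
  have hPc : Continuous fun s => H (ρ * p (τ s)) :=
    hHc.comp (continuous_const.mul (hp.comp_continuous hτc hτm))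
  have hQc : Continuous fun s => H (ρ * q (τ s)) :=
    hHc.comp (continuous_const.mul (hq.comp_continuous hτc hτm))
  have hPn : ∀ s, ‖H (ρ * p (τ s))‖ ≤ 1 := by
    intro s
    rw [hHn, norm_mul, hρn, one_mul]
    exact hp1 _ (hτm s)
  have hQn : ∀ s, ‖H (ρ * q (τ s))‖ ≤ 1 := by
    intro s
    rw [hHn, norm_mul, hρn, one_mul]
    exact hq1 _ (hτm s)
  have e1 : H (ρ * p (τ (-1))) = -1 := by
    rw [hτ0, hp0, hrot, show t1 - t1 - π = -π by ring]
    push_cast
    rw [neg_mul, Complex.exp_neg, Complex.exp_pi_mul_I]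
    have : ((-1 : ℂ))⁻¹ = -1 := by norm_num
    rw [this, H1]
  have e2 : H (ρ * p (τ 1)) = 1 := by
    rw [hτ1, hp2, hrot, ← hb, Hb]
  have e3 : H (ρ * q (τ (-1))) = -Complex.I := by
    rw [hτ0, hq0, hrot, ← ha, Ha]
  have e4 : H (ρ * q (τ 1)) = Complex.I := by
    rw [hτ1, hq2, hrot, ← hc, Hc]
  obtain ⟨s, hs, t, ht, hst⟩ := cross_square (p := fun s => ((H (ρ * p (τ s))).re, (H (ρ * p (τ s))).im))
    (q := fun s => ((H (ρ * q (τ s))).re, (H (ρ * q (τ s))).im))
    ((Complex.continuous_re.comp hPc).prodMk (Complex.continuous_im.comp hPc))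
    ((Complex.continuous_re.comp hQc).prodMk (Complex.continuous_im.comp hQc))
    (fun s _ => ⟨(Complex.abs_re_le_norm _).trans (hPn s), (Complex.abs_im_le_norm _).trans (hPn s)⟩)
    (fun s _ => ⟨(Complex.abs_re_le_norm _).trans (hQn s), (Complex.abs_im_le_norm _).trans (hQn s)⟩)
    (by show (H (ρ * p (τ (-1)))).re = -1; rw [e1]; simp)
    (by show (H (ρ * p (τ 1))).re = 1; rw [e2]; simp)
    (by show (H (ρ * q (τ (-1)))).im = -1; rw [e3]; simp)
    (by show (H (ρ * q (τ 1))).im = 1; rw [e4]; simp)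
  refine ⟨τ s, hτm s, τ t, hτm t, ?_⟩
  have h1 : H (ρ * p (τ s)) = H (ρ * q (τ t)) :=
    Complex.ext (congrArg Prod.fst hst) (congrArg Prod.snd hst)
  exact mul_left_cancel₀ hρ0 (hHi h1)

end H47A
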