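import Pool.Agent.Lib.H47A.EDisc
import Pool.Agent.Lib.H47A.ETop2

/-! # H47A, chunk EDISC2 (M): see the docstring of EDisc.lean. `cross_uu`: compose with Phi, `cross_disc` with the angles T x, T y, T z,
T w (T w < T (x + 2m) = T x + 2 pi), then injectivity. -/

open Real Filter Topology

namespace H47A

variable {A : Type} [Fintype A] [DecidableEq A] {n : A → E3} {f1 f2 e : E3} {m : ℕ}

namespace Fan

theorem disc_map (hG : Gnr n) (hA : Axis f1 f2 e) (F : Fan n f1 f2 m) :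
    ∃ (Φ : E3 → ℂ) (T : ℝ → ℝ), StrictMono T ∧ (∀ x, T (x + m) = T x + π) ∧ ContinuousOn Φ (F.UU e) ∧
      Set.InjOn Φ (F.UU e) ∧ (∀ u ∈ F.UU e, ‖Φ u‖ ≤ 1) ∧
      ∀ x, Φ (F.G x) = Complex.exp ((T x : ℂ) * Complex.I) := by
  obtain ⟨ht, hcont, hG0, hpos, hce, hrt⟩ := F.exists_ht (e := e) hG hA
  obtain ⟨T, hmono, hT, -, haz⟩ := F.exists_th
  have hden : ∀ u ∈ F.UU e, 0 < ‖az f1 f2 u‖ + ht u := by
    intro u hu
    rcases F.uu_form hG hu with ⟨c, hc, rfl⟩ | ⟨x, r, t, hr, ht', rfl⟩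
    · rw [hce c hc hu]
      positivity
    · rw [hrt x r t hr ht' hu, efan3b_az hA]
      have h1 : 0 < ‖(r : ℂ) * az f1 f2 (F.G x)‖ :=
        norm_pos_iff.2 (mul_ne_zero (Complex.ofReal_ne_zero.2 hr.ne') (F.az_G_ne x))
      positivity
  have hval : ∀ x r t : ℝ, 0 < r → 0 ≤ t → r • (F.G x + t • e) ∈ F.UU e →
      az f1 f2 (r • (F.G x + t • e)) / ((‖az f1 f2 (r • (F.G x + t • e))‖ + ht (r • (F.G x + t • e)) : ℝ) : ℂ) =
        (((‖az f1 f2 (F.G x)‖ + t)⁻¹ : ℝ) : ℂ) * az f1 f2 (F.G x) := by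
    intro x r t hr ht' hu
    rw [hrt x r t hr ht' hu, efan3b_az hA, norm_mul, Complex.norm_real, Real.norm_of_nonneg hr.le, ← mul_add]
    have h1 : 0 < ‖az f1 f2 (F.G x)‖ := norm_pos_iff.2 (F.az_G_ne x)
    have h2 : ((‖az f1 f2 (F.G x)‖ + t : ℝ) : ℂ) ≠ 0 := Complex.ofReal_ne_zero.2 (by positivity)
    have h3 : (r : ℂ) ≠ 0 := Complex.ofReal_ne_zero.2 hr.ne'
    rw [Complex.ofReal_mul, Complex.ofReal_inv, mul_div_mul_left _ _ h3, div_eq_mul_inv, mul_comm]
  refine ⟨fun u => az f1 f2 u / ((‖az f1 f2 u‖ + ht u : ℝ) : ℂ), T, hmono, hT, ?_, ?_, ?_, ?_⟩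
  · refine ContinuousOn.div az_cont.continuousOn ?_ fun u hu => Complex.ofReal_ne_zero.2 (hden u hu).ne'
    exact Complex.continuous_ofReal.comp_continuousOn (az_cont.norm.continuousOn.add hcont)
  · intro u hu v hv huv
    simp only at huv
    rcases F.uu_form hG hu with ⟨c, hc, h1⟩ | ⟨x, r, t, hr, ht', h1⟩
    · rcases F.uu_form hG hv with ⟨c', hc', h2⟩ | ⟨y, r', t', hr', ht'', h2⟩
      · have h3 := hu.1
        have h4 := hv.1
        rw [h1, gg_smul hG hc.le] at h3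
        rw [h2, gg_smul hG hc'.le] at h4
        have h5 : gg n e ≠ 0 := by
          intro h
          rw [h, mul_zero] at h3
          norm_num at h3
        have h6 : c = c' := mul_right_cancel₀ h5 (h3.trans h4.symm)
        rw [h1, h2, h6]
      · exfalso
        rw [h2] at huv hv
        rw [hval y r' t' hr' ht'' hv, h1, efan3b_az0 hA, zero_div] at huv
        have h3 : 0 < ‖az f1 f2 (F.G y)‖ := norm_pos_iff.2 (F.az_G_ne y)
        exact mul_ne_zero (Complex.ofReal_ne_zero.2 (inv_ne_zero (by positivity))) (F.az_G_ne y) huv.symm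
    · rcases F.uu_form hG hv with ⟨c', hc', h2⟩ | ⟨y, r', t', hr', ht'', h2⟩
      · exfalso
        rw [h1] at huv hu
        rw [hval x r t hr ht' hu, h2, efan3b_az0 hA, zero_div] at huv
        have h3 : 0 < ‖az f1 f2 (F.G x)‖ := norm_pos_iff.2 (F.az_G_ne x)
        exact mul_ne_zero (Complex.ofReal_ne_zero.2 (inv_ne_zero (by positivity))) (F.az_G_ne x) huv
      · have h3 : 0 < ‖az f1 f2 (F.G x)‖ := norm_pos_iff.2 (F.az_G_ne x)
        have h4 : 0 < ‖az f1 f2 (F.G y)‖ := norm_pos_iff.2 (F.az_G_ne y)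
        have hu' := hu
        have hv' := hv
        rw [h1, h2] at huv
        rw [h1] at hu'
        rw [h2] at hv'
        rw [hval x r t hr ht' hu', hval y r' t' hr' ht'' hv'] at huv
        obtain ⟨h5, h6⟩ := F.dir_unique (inv_pos.2 (by positivity)) (inv_pos.2 (by positivity)) huv
        have h7 := inv_injective h6
        rw [h5] at h7
        have h8 : t = t' := by linarith
        have h9 := hu.1
        have h10 := hv.1
        rw [h1, gg_smul hG hr.le, h5, h8] at h9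
        rw [h2, gg_smul hG hr'.le] at h10
        have h11 : gg n (F.G y + t' • e) ≠ 0 := by
          intro h
          rw [h, mul_zero] at h9
          norm_num at h9
        have h12 : r = r' := mul_right_cancel₀ h11 (h9.trans h10.symm)
        rw [h1, h2, h5, h8, h12]
  · intro u hu
    have h1 := hden u hu
    simp only
    rw [norm_div, Complex.norm_real, Real.norm_of_nonneg h1.le, div_le_one h1]
    linarith [hpos u hu]
  · intro x
    simp only
    obtain ⟨r, hr, h1⟩ := haz x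
    have h2 : ‖az f1 f2 (F.G x)‖ = r := by
      rw [h1, norm_mul, Complex.norm_exp_ofReal_mul_I, mul_one, Complex.norm_real, Real.norm_of_nonneg hr.le]
    have h3 : (r : ℂ) ≠ 0 := Complex.ofReal_ne_zero.2 hr.ne'
    rw [hG0, h2, add_zero, h1]
    field_simp

theorem cross_uu (hG : Gnr n) (hA : Axis f1 f2 e) (F : Fan n f1 f2 m) {x y z w : ℝ} (hxy : x < y) (hyz : y < z)
    (hzw : z < w) (hwx : w < x + 2 * m) {p q : ℝ → E3} (hp : Continuous p) (hq : Continuous q)
    (hpU : ∀ t ∈ Set.Icc (0 : ℝ) 1, p t ∈ F.UU e) (hqU : ∀ t ∈ Set.Icc (0 : ℝ) 1, q t ∈ F.UU e)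
    (hp0 : p 0 = F.G x) (hp1 : p 1 = F.G z) (hq0 : q 0 = F.G y) (hq1 : q 1 = F.G w) :
    ∃ s ∈ Set.Icc (0 : ℝ) 1, ∃ t ∈ Set.Icc (0 : ℝ) 1, p s = q t := by
  obtain ⟨Φ, T, hmono, hT, hc, hinj, hn, hG1⟩ := F.disc_map (e := e) hG hA
  have h1 : T w < T x + 2 * π := by
    have h2 : T (x + 2 * m) = T x + 2 * π := by
      rw [show x + 2 * (m : ℝ) = (x + m) + m by ring, hT, hT]
      ring
    rw [← h2]
    exact hmono hwx
  obtain ⟨s, hs, t, ht, h3⟩ := cross_disc (p := fun t => Φ (p t)) (q := fun t => Φ (q t)) (hmono hxy) (hmono hyz)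
    (hmono hzw) h1 (hc.comp hp.continuousOn fun t ht => hpU t ht) (hc.comp hq.continuousOn fun t ht => hqU t ht)
    (fun t ht => hn _ (hpU t ht)) (fun t ht => hn _ (hqU t ht)) (by rw [hp0, hG1])
    (by rw [hp1, hG1]) (by rw [hq0, hG1]) (by rw [hq1, hG1])
  exact ⟨s, hs, t, ht, hinj (hpU s hs) (hqU t ht) h3⟩

end Fan

end H47A
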