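import Pool.Agent.Lib.H47A.EFDefs
import Pool.Agent.Lib.H47A.EAz

/-! # H47A, chunk EFAN1 (M): the curve of a fan
`th_mono`: strictMono_int_of_lt_succ. `th_lt`: k + 1 < k + m or = if m = 1; as 2 <= m: theta (k+1) < theta (k+m) = theta k + pi.
`b_anti`: SAct.neg: ng (b k) is strictly active at - seg (γ k) (γ (k+1)) s = seg (γ (k+m)) (γ (k+m+1)) s (s = 1/2), as is b (k+m):
`SAct.unique`. `G_eq` on the closed interval (x = k+1: floor = k+1, fract = 0, both sides γ (k+1)).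
`G_act`: {u | Act (b k) u} is closed (`act_closed`), the closed segment is in the closure of the open one (or lf inequalities are
linear in s: if an affine function of s is >= 0 on (0,1) then on [0,1]). `G_gg`: lf (b k) (γ k) = gg (γ k) = 1, lf (b k) (γ (k+1)) = 1,
so lf (b k) (G x) = 1 by linearity, and it is gg (G x). `G_lip`: on [k,k+1] slope |γ (k+1) - γ k| <= C := the maximum over k in
range (2m) (periodicity: γ (k + 2m) = γ k); chain over integer points (or lipschitz on each Icc k (k+1) and a gluing lemma).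
`det_pos`: `det_az`, azi: cr (r e^{it}) (r' e^{it'}) = r r' sin (t' - t). -/

open Real

namespace H47A

variable {A : Type} [Fintype A] [DecidableEq A] {n : A → E3} {f1 f2 e : E3} {m : ℕ}

namespace Fan

theorem γ_per (F : Fan n f1 f2 m) (k : ℤ) : F.γ (k + 2 * m) = F.γ k := by
  rw [show k + 2 * (m : ℤ) = k + m + m by ring, F.anti, F.anti, neg_neg]

theorem th_mono (F : Fan n f1 f2 m) : StrictMono F.θ := by
  exact strictMono_int_of_lt_succ F.mono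

theorem th_lt (F : Fan n f1 f2 m) (k : ℤ) : F.θ (k + 1) < F.θ k + π := by
  rw [← F.θper]
  have := F.two_le
  exact F.th_mono (by omega)

theorem b_anti (F : Fan n f1 f2 m) (k : ℤ) : F.b (k + m) = ng (F.b k) := by
  have h1 := (F.side k (1 / 2) ⟨by norm_num, by norm_num⟩).neg
  have h2 := F.side (k + m) (1 / 2) ⟨by norm_num, by norm_num⟩
  have h3 : seg (F.γ (k + m)) (F.γ (k + m + 1)) (1 / 2) = -seg (F.γ k) (F.γ (k + 1)) (1 / 2) := by
    rw [show k + (m : ℤ) + 1 = (k + 1) + m by ring, F.anti, F.anti]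
    unfold seg
    module
  rw [h3] at h2
  exact h1.unique h2.act

theorem G_int (F : Fan n f1 f2 m) (k : ℤ) : F.G k = F.γ k := by
  unfold G seg
  rw [Int.floor_intCast, Int.fract_intCast, sub_zero, one_smul, zero_smul, add_zero]

theorem G_eq (F : Fan n f1 f2 m) (k : ℤ) {x : ℝ} (hx : x ∈ Set.Icc (k : ℝ) (k + 1)) :
    F.G x = seg (F.γ k) (F.γ (k + 1)) (x - k) := by
  rcases lt_or_eq_of_le hx.2 with h | h
  · have h1 : ⌊x⌋ = k := Int.floor_eq_iff.2 ⟨hx.1, h⟩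
    unfold G
    rw [Int.fract, h1]
  · have h1 : ⌊x⌋ = k + 1 := by
      rw [h, ← Int.cast_one, ← Int.cast_add, Int.floor_intCast]
    unfold G seg
    rw [Int.fract, h1, h]
    push_cast
    simp

theorem G_anti (F : Fan n f1 f2 m) (x : ℝ) : F.G (x + m) = -F.G x := by
  have h1 : ⌊x + (m : ℝ)⌋ = ⌊x⌋ + m := Int.floor_add_natCast x m
  have h2 : Int.fract (x + (m : ℝ)) = Int.fract x := Int.fract_add_natCast x m
  unfold G seg
  rw [h1, h2, show ⌊x⌋ + (m : ℤ) + 1 = (⌊x⌋ + 1) + m by ring, F.anti, F.anti]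
  module

theorem G_per (F : Fan n f1 f2 m) (x : ℝ) : F.G (x + 2 * m) = F.G x := by
  rw [show x + 2 * (m : ℝ) = x + m + m by ring, F.G_anti, F.G_anti, neg_neg]

theorem G_sact (F : Fan n f1 f2 m) (k : ℤ) {x : ℝ} (hx : x ∈ Set.Ioo (k : ℝ) (k + 1)) : SAct n (F.b k) (F.G x) := by
  rw [F.G_eq k ⟨hx.1.le, hx.2.le⟩]
  exact F.side k _ ⟨by linarith [hx.1], by linarith [hx.2]⟩

theorem G_act (F : Fan n f1 f2 m) (k : ℤ) {x : ℝ} (hx : x ∈ Set.Icc (k : ℝ) (k + 1)) : Act n (F.b k) (F.G x) := by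
  rw [F.G_eq k hx]
  have hc : Continuous fun s : ℝ => seg (F.γ k) (F.γ (k + 1)) s := by
    unfold seg
    fun_prop
  have h1 : x - k ∈ closure (Set.Ioo (0 : ℝ) 1) := by
    rw [closure_Ioo (zero_ne_one)]
    exact ⟨by linarith [hx.1], by linarith [hx.2]⟩
  have h2 := map_mem_closure hc h1 (t := {u : E3 | Act n (F.b k) u}) (fun s hs => (F.side k s hs).act)
  rw [(act_closed (F.b k)).closure_eq] at h2
  exact h2

theorem G_gg (hG : Gnr n) (F : Fan n f1 f2 m) (x : ℝ) : gg n (F.G x) = 1 := by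
  have hx : x ∈ Set.Icc ((⌊x⌋ : ℤ) : ℝ) ((⌊x⌋ : ℤ) + 1) := ⟨Int.floor_le x, (Int.lt_floor_add_one x).le⟩
  have h1 := (act_iff hG _ _).1 (F.G_act ⌊x⌋ hx)
  have h2 := (act_iff hG _ _).1 (F.G_act ⌊x⌋ (x := ((⌊x⌋ : ℤ) : ℝ)) ⟨le_rfl, by linarith⟩)
  have h3 := (act_iff hG _ _).1 (F.G_act ⌊x⌋ (x := ((⌊x⌋ : ℤ) : ℝ) + 1) ⟨by linarith, le_rfl⟩)
  rw [F.G_int, F.on] at h2
  have h4 : F.G (((⌊x⌋ : ℤ) : ℝ) + 1) = F.γ (⌊x⌋ + 1) := by
    have := F.G_int (⌊x⌋ + 1)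
    push_cast at this
    exact this
  rw [h4, F.on] at h3
  rw [← h1, F.G_eq _ hx]
  unfold seg
  rw [lf_add, lf_smul, lf_smul, h2, h3]
  ring

theorem efan1_bd (F : Fan n f1 f2 m) : ∃ C : ℝ, 0 ≤ C ∧ ∀ k : ℤ, ‖F.γ (k + 1) - F.γ k‖ ≤ C := by
  have hm := F.two_le
  have hm0 : (0 : ℤ) < 2 * m := by omega
  have hper : ∀ (j k : ℤ), F.γ (k + j * (2 * m)) = F.γ k := by
    intro j k
    induction j using Int.induction_on with
    | zero => rw [zero_mul, add_zero]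
    | succ i ih =>
      rw [← ih, show k + ((i : ℤ) + 1) * (2 * m) = k + i * (2 * m) + 2 * m by ring, F.γ_per]
    | pred i ih =>
      rw [← ih, show k + (-(i : ℤ)) * (2 * m) = k + (-(i : ℤ) - 1) * (2 * m) + 2 * m by ring, F.γ_per]
  refine ⟨∑ i ∈ Finset.range (2 * m), ‖F.γ ((i : ℤ) + 1) - F.γ i‖, Finset.sum_nonneg fun _ _ => norm_nonneg _, fun k => ?_⟩
  obtain ⟨i, hi⟩ := Int.eq_ofNat_of_zero_le (Int.emod_nonneg k hm0.ne')
  have hi' : k % (2 * m) = (i : ℤ) := hi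
  have hlt : i < 2 * m := by
    have := Int.emod_lt_of_pos k hm0
    omega
  have hk : k = (i : ℤ) + (k / (2 * m)) * (2 * m) := by
    have := Int.emod_add_mul_ediv k (2 * m)
    rw [hi'] at this
    linarith [mul_comm (2 * (m : ℤ)) (k / (2 * m))]
  have h1 : F.γ k = F.γ (i : ℤ) := by
    rw [hk]
    exact hper _ _
  have h2 : F.γ (k + 1) = F.γ ((i : ℤ) + 1) := by
    rw [show k + 1 = ((i : ℤ) + 1) + (k / (2 * m)) * (2 * m) by linarith [hk]]
    exact hper _ _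
  rw [h1, h2]
  exact Finset.single_le_sum (f := fun i : ℕ => ‖F.γ ((i : ℤ) + 1) - F.γ i‖) (fun _ _ => norm_nonneg _) (Finset.mem_range.2 hlt)

theorem G_lip (F : Fan n f1 f2 m) : ∃ C : ℝ, 0 ≤ C ∧ ∀ x y : ℝ, ‖F.G x - F.G y‖ ≤ C * |x - y| := by
  obtain ⟨C, hC, hb⟩ := F.efan1_bd
  have hloc : ∀ (k : ℤ) (x y : ℝ), x ∈ Set.Icc (k : ℝ) (k + 1) → y ∈ Set.Icc (k : ℝ) (k + 1) →
      ‖F.G x - F.G y‖ ≤ C * |x - y| := by
    intro k x y hx hy
    rw [F.G_eq k hx, F.G_eq k hy]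
    have e1 : seg (F.γ k) (F.γ (k + 1)) (x - k) - seg (F.γ k) (F.γ (k + 1)) (y - k) = (x - y) • (F.γ (k + 1) - F.γ k) := by
      unfold seg
      module
    rw [e1, norm_smul, Real.norm_eq_abs, mul_comm]
    exact mul_le_mul_of_nonneg_right (hb k) (abs_nonneg _)
  have hmain : ∀ (q : ℕ) (x y : ℝ), x ≤ y → ⌊y⌋ - ⌊x⌋ = q → ‖F.G x - F.G y‖ ≤ C * (y - x) := by
    intro q
    induction q with
    | zero =>
      intro x y hxy hq
      have h1 : ⌊y⌋ = ⌊x⌋ := by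
        have : ⌊y⌋ - ⌊x⌋ = 0 := by simpa using hq
        omega
      have h2 := hloc ⌊x⌋ x y ⟨Int.floor_le x, (Int.lt_floor_add_one x).le⟩
        ⟨by rw [← h1]; exact Int.floor_le y, by rw [← h1]; exact (Int.lt_floor_add_one y).le⟩
      rwa [abs_sub_comm, abs_of_nonneg (sub_nonneg.2 hxy)] at h2
    | succ q ih =>
      intro x y hxy hq
      have h1 : ⌊x⌋ + 1 ≤ ⌊y⌋ := by
        push_cast at hq
        omega
      have h2 : ((⌊x⌋ : ℤ) : ℝ) + 1 ≤ y := by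
        have h3 : (((⌊x⌋ + 1 : ℤ)) : ℝ) ≤ ((⌊y⌋ : ℤ) : ℝ) := by exact_mod_cast h1
        have h4 := Int.floor_le y
        push_cast at h3
        linarith
      have h5 : ⌊((⌊x⌋ : ℤ) : ℝ) + 1⌋ = ⌊x⌋ + 1 := by
        rw [← Int.cast_one, ← Int.cast_add, Int.floor_intCast]
      have h6 := ih (((⌊x⌋ : ℤ) : ℝ) + 1) y h2 (by
        rw [h5]
        push_cast at hq
        omega)
      have h7 := hloc ⌊x⌋ x (((⌊x⌋ : ℤ) : ℝ) + 1) ⟨Int.floor_le x, (Int.lt_floor_add_one x).le⟩ ⟨by linarith, le_rfl⟩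
      have h8 := Int.lt_floor_add_one x
      rw [abs_sub_comm, abs_of_nonneg (by linarith)] at h7
      calc ‖F.G x - F.G y‖ = ‖(F.G x - F.G (((⌊x⌋ : ℤ) : ℝ) + 1)) + (F.G (((⌊x⌋ : ℤ) : ℝ) + 1) - F.G y)‖ := by
            congr 1
            abel
        _ ≤ ‖F.G x - F.G (((⌊x⌋ : ℤ) : ℝ) + 1)‖ + ‖F.G (((⌊x⌋ : ℤ) : ℝ) + 1) - F.G y‖ := norm_add_le _ _
        _ ≤ C * (((⌊x⌋ : ℤ) : ℝ) + 1 - x) + C * (y - (((⌊x⌋ : ℤ) : ℝ) + 1)) := add_le_add h7 h6
        _ = C * (y - x) := by ring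
  have hmono : ∀ x y : ℝ, x ≤ y → ‖F.G x - F.G y‖ ≤ C * (y - x) := by
    intro x y hxy
    have h1 : 0 ≤ ⌊y⌋ - ⌊x⌋ := sub_nonneg.2 (Int.floor_le_floor hxy)
    obtain ⟨q, hq⟩ := Int.eq_ofNat_of_zero_le h1
    exact hmain q x y hxy hq
  refine ⟨C, hC, fun x y => ?_⟩
  rcases le_total x y with h | h
  · rw [abs_sub_comm, abs_of_nonneg (sub_nonneg.2 h)]
    exact hmono x y h
  · rw [abs_of_nonneg (sub_nonneg.2 h), norm_sub_rev]
    exact hmono y x h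

theorem det_pos (hA : Axis f1 f2 e) (F : Fan n f1 f2 m) (k : ℤ) : 0 < det3 e (F.γ k) (F.γ (k + 1)) := by
  obtain ⟨r, hr, e1⟩ := F.azi k
  obtain ⟨r', hr', e2⟩ := F.azi (k + 1)
  have h1 : 0 < Real.sin (F.θ (k + 1) - F.θ k) :=
    Real.sin_pos_of_pos_of_lt_pi (by linarith [F.mono k]) (by linarith [F.th_lt k])
  rw [det_az hA, e1, e2]
  unfold cr
  rw [Complex.re_ofReal_mul, Complex.im_ofReal_mul, Complex.re_ofReal_mul, Complex.im_ofReal_mul,
    Complex.exp_ofReal_mul_I_re, Complex.exp_ofReal_mul_I_im, Complex.exp_ofReal_mul_I_re, Complex.exp_ofReal_mul_I_im]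
  have h2 : r * Real.cos (F.θ k) * (r' * Real.sin (F.θ (k + 1))) - r * Real.sin (F.θ k) * (r' * Real.cos (F.θ (k + 1))) =
      r * r' * Real.sin (F.θ (k + 1) - F.θ k) := by
    rw [Real.sin_sub]
    ring
  rw [h2]
  positivity

end Fan

end H47A
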