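import Pool.Agent.Lib.H47A.EAct

/-! # H47A, chunk EORD (M): the list of the facets crossed by a ray
Along the ray u + t e the functional alpha has the value lf alpha u + t * lf alpha e (`lf_add`, `lf_smul`).
`Om_pairwise`: mergeSort gives a sorted permutation (List.pairwise_mergeSort / List.sorted_mergeSort, mergeSort_perm), values at e are
pairwise different (Gen) and toList has no duplicates, so <= becomes <. `Lst` is a filter of Om.
`lst_last`: let w be active at u with lf b e < lf w e for all other active b (exists: `exists_last`, maximum of lf . e over the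
finite nonempty set of active facets, unique by Gen). (1) w is in act: for small t > 0, SAct w (u + t e): for b active at u, b != w:
lf b u = lf w u and lf b e < lf w e; for b not active: lf b u < lf w u strictly, t small (finitely many b). (2) every alpha != w in
act satisfies lf w e < lf alpha e: at some t > 0: lf alpha u + t lf alpha e > lf w u + t lf w e >= lf alpha u + t lf w e.
So w is the smallest element of the strictly decreasing list Lst: it is the last one.
`lst_head`: SAct α₀ e: α₀ is the maximum of lf . e, and α₀ is in act (t large: t (lf α₀ e - lf b e) > lf b u - lf α₀ u).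
`lst_eq`: two strictly decreasing lists with the same elements are equal (List.Perm.eq_of_pairwise or eq_of_perm_of_sorted). -/

open Real Finset

namespace H47A

variable {A : Type} [Fintype A] [DecidableEq A] {n : A → E3}

theorem Om_mem (e : E3) (α : A × Bool) : α ∈ Om n e := by
  unfold Om
  rw [List.mem_mergeSort]
  exact Finset.mem_toList.2 (mem_univ _)

theorem Om_pairwise {e : E3} (he : Gen n e) : (Om n e).Pairwise fun α β => lf n β e < lf n α e := by
  classical
  have h1 : (Om n e).Pairwise fun α β => lf n β e ≤ lf n α e := by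
    unfold Om
    have h := List.pairwise_mergeSort (le := fun α β : A × Bool => decide (lf n β e ≤ lf n α e))
      (fun a b c hab hbc => by
        rw [decide_eq_true_eq] at hab hbc ⊢
        exact hbc.trans hab)
      (fun a b => by
        rw [Bool.or_eq_true, decide_eq_true_eq, decide_eq_true_eq]
        exact le_total _ _) (univ : Finset (A × Bool)).toList
    refine h.imp ?_
    intro a b hab
    rwa [decide_eq_true_eq] at hab
  have h2 : (Om n e).Nodup := by
    unfold Om
    exact (List.mergeSort_perm _ _).nodup_iff.2 (Finset.nodup_toList _)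
  refine (h1.and h2).imp ?_
  rintro a b ⟨h3, h4⟩
  exact lt_of_le_of_ne h3 (he b a (Ne.symm h4))

theorem mem_lst {e u : E3} {α : A × Bool} : α ∈ Lst n e u ↔ ∃ t : ℝ, 0 < t ∧ SAct n α (u + t • e) := by
  classical
  unfold Lst act
  rw [List.mem_filter, decide_eq_true_eq, mem_filter]
  exact ⟨fun h => h.2.2, fun h => ⟨Om_mem e α, mem_univ _, h⟩⟩

theorem lst_pairwise {e : E3} (he : Gen n e) (u : E3) : (Lst n e u).Pairwise fun α β => lf n β e < lf n α e := by
  unfold Lst
  exact (Om_pairwise he).filter _

theorem lst_eq {e u : E3} (he : Gen n e) {l : List (A × Bool)} (hl : l.Pairwise fun α β => lf n β e < lf n α e)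
    (hm : ∀ α, α ∈ l ↔ ∃ t : ℝ, 0 < t ∧ SAct n α (u + t • e)) : Lst n e u = l := by
  have hn : ∀ {l : List (A × Bool)}, (l.Pairwise fun α β => lf n β e < lf n α e) → l.Nodup := by
    intro l h
    refine h.imp ?_
    rintro a b h1 rfl
    exact lt_irrefl _ h1
  have h1 := lst_pairwise he u
  have hp : (Lst n e u).Perm l := (List.perm_ext_iff_of_nodup (hn h1) (hn hl)).2 fun α => by
    rw [mem_lst, hm]
  exact hp.eq_of_pairwise (fun a b _ _ h2 h3 => absurd h2 (not_lt.2 h3.le)) h1 hl

theorem lst_smul {e : E3} {c : ℝ} (hc : 0 < c) (u : E3) : Lst n e (c • u) = Lst n e u := by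
  classical
  have key : ∀ α, (α ∈ act n e (c • u) ↔ α ∈ act n e u) := by
    intro α
    unfold act
    rw [mem_filter, mem_filter]
    constructor
    · rintro ⟨h0, t, ht, h⟩
      refine ⟨h0, c⁻¹ * t, by positivity, ?_⟩
      have h1 := h.smul (c := c⁻¹) (by positivity)
      rwa [smul_add, smul_smul, smul_smul, inv_mul_cancel₀ hc.ne', one_smul] at h1
    · rintro ⟨h0, t, ht, h⟩
      refine ⟨h0, c * t, by positivity, ?_⟩
      have h1 := h.smul hc
      rwa [smul_add, smul_smul] at h1
  unfold Lst
  refine List.filter_congr fun α _ => ?_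
  exact decide_eq_decide.2 (key α)

theorem exists_pole (hG : Gnr n) {e : E3} (he : Gen n e) : ∃ α₀, SAct n α₀ e := by
  obtain ⟨α, hα⟩ := exists_act hG e
  exact ⟨α, fun β hβ => lt_of_le_of_ne (hα β) (he β α hβ)⟩

theorem lst_head {e : E3} (he : Gen n e) {α₀ : A × Bool} (h0 : SAct n α₀ e) (u : E3) :
    Lst n e u = α₀ :: (Lst n e u).tail := by
  have hmem : α₀ ∈ Lst n e u := by
    rw [mem_lst]
    have h1 : ∀ β : A × Bool, ∀ᶠ t : ℝ in Filter.atTop, β ≠ α₀ → lf n β (u + t • e) < lf n α₀ (u + t • e) := by
      intro β
      by_cases hβ : β = α₀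
      · exact Filter.Eventually.of_forall fun t h => absurd hβ h
      · have h2 : 0 < lf n α₀ e - lf n β e := sub_pos.2 (h0 β hβ)
        have h3 := (Filter.tendsto_id.atTop_mul_const h2).eventually_gt_atTop (lf n β u - lf n α₀ u)
        filter_upwards [h3] with t ht _
        rw [lf_add, lf_add, lf_smul, lf_smul]
        simp only [id] at ht
        nlinarith
    have h4 := Filter.eventually_all.2 h1
    obtain ⟨t, h5, h6⟩ := (h4.and (Filter.eventually_gt_atTop (0 : ℝ))).exists
    exact ⟨t, h6, fun β hβ => h5 β hβ⟩
  have hp := lst_pairwise he u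
  rcases hl : Lst n e u with _ | ⟨b, l⟩
  · rw [hl] at hmem
    exact absurd hmem List.not_mem_nil
  · rw [hl] at hmem hp
    rw [List.pairwise_cons] at hp
    rcases List.mem_cons.1 hmem with h1 | h1
    · rw [h1]
      rfl
    · have h2 := hp.1 α₀ h1
      by_cases hb : b = α₀
      · rw [hb]
        rfl
      · exact absurd (h0 b hb) (not_lt.2 h2.le)

theorem exists_last (hG : Gnr n) {e : E3} (he : Gen n e) (u : E3) :
    ∃ ω, Act n ω u ∧ ∀ β, β ≠ ω → Act n β u → lf n β e < lf n ω e := by
  classical
  obtain ⟨α, hα⟩ := exists_act hG u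
  obtain ⟨ω, h1, h2⟩ := Finset.exists_max_image (univ.filter fun β : A × Bool => Act n β u) (fun β => lf n β e)
    ⟨α, mem_filter.2 ⟨mem_univ _, hα⟩⟩
  refine ⟨ω, (mem_filter.1 h1).2, fun β hβ hb => ?_⟩
  exact lt_of_le_of_ne (h2 β (mem_filter.2 ⟨mem_univ _, hb⟩)) (he β ω hβ)

theorem lst_last {e : E3} (he : Gen n e) {u : E3} {ω : A × Bool} (h1 : Act n ω u)
    (h2 : ∀ β, β ≠ ω → Act n β u → lf n β e < lf n ω e) : (Lst n e u).getLast? = some ω := by
  have hmem : ω ∈ Lst n e u := by
    rw [mem_lst]
    have h3 : ∀ β : A × Bool, ∀ᶠ t : ℝ in nhdsWithin 0 (Set.Ioi 0), β ≠ ω → lf n β (u + t • e) < lf n ω (u + t • e) := by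
      intro β
      by_cases hβ : β = ω
      · exact Filter.Eventually.of_forall fun t h => absurd hβ h
      · by_cases hb : Act n β u
        · have h4 := h2 β hβ hb
          have h5 : lf n β u = lf n ω u := le_antisymm (h1 β) (hb ω)
          filter_upwards [self_mem_nhdsWithin] with t ht _
          have ht' : (0 : ℝ) < t := ht
          rw [lf_add, lf_add, lf_smul, lf_smul, h5]
          nlinarith [mul_pos ht' (sub_pos.2 h4)]
        · have h4 : lf n β u < lf n ω u := by
            refine lt_of_le_of_ne (h1 β) fun h5 => hb ?_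
            intro γ
            rw [h5]
            exact h1 γ
          have hc : Continuous fun t : ℝ => lf n ω (u + t • e) - lf n β (u + t • e) := by
            simp only [lf_add, lf_smul]
            fun_prop
          have h6 : (0 : ℝ) < (fun t : ℝ => lf n ω (u + t • e) - lf n β (u + t • e)) 0 := by
            simp only [zero_smul, add_zero]
            linarith
          have h7 : ∀ᶠ t : ℝ in nhds 0, 0 < (fun t : ℝ => lf n ω (u + t • e) - lf n β (u + t • e)) t :=
            hc.continuousAt.eventually (lt_mem_nhds h6)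
          filter_upwards [h7.filter_mono nhdsWithin_le_nhds] with t ht _
          have ht' : 0 < lf n ω (u + t • e) - lf n β (u + t • e) := ht
          linarith
    have h4 := Filter.eventually_all.2 h3
    obtain ⟨t, h5, h6⟩ := (h4.and self_mem_nhdsWithin).exists
    exact ⟨t, h6, fun β hβ => h5 β hβ⟩
  have hlow : ∀ α ∈ Lst n e u, α ≠ ω → lf n ω e < lf n α e := by
    intro α hα hne
    rw [mem_lst] at hα
    obtain ⟨t, ht, hs⟩ := hα
    have h3 := hs ω (Ne.symm hne)
    rw [lf_add, lf_add, lf_smul, lf_smul] at h3
    have h4 := h1 α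
    have h5 : t * lf n ω e < t * lf n α e := by linarith
    exact lt_of_mul_lt_mul_left h5 ht.le
  have hp := lst_pairwise he u
  have hne : Lst n e u ≠ [] := List.ne_nil_of_mem hmem
  rw [List.getLast?_eq_some_getLast hne]
  congr 1
  by_contra hx
  have h3 := hlow _ (List.getLast_mem hne) hx
  have hsplit := List.dropLast_append_getLast hne
  rw [← hsplit, List.pairwise_append] at hp
  rw [← hsplit, List.mem_append] at hmem
  rcases hmem with h4 | h4
  · have h5 := hp.2.2 ω h4 _ (List.mem_singleton_self _)
    exact lt_asymm h3 h5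
  · exact hx (List.mem_singleton.1 h4).symm

/-- At the pole only the facet of the pole. -/
theorem lst_pole {e : E3} (he : Gen n e) {α₀ : A × Bool} (h0 : SAct n α₀ e) {c : ℝ} (hc : 0 < c) :
    Lst n e (c • e) = [α₀] := by
  refine lst_eq he (List.pairwise_singleton _ _) fun α => ?_
  rw [List.mem_singleton]
  constructor
  · rintro rfl
    refine ⟨1, one_pos, ?_⟩
    rw [← add_smul]
    exact h0.smul (by linarith)
  · rintro ⟨t, ht, h⟩
    rw [← add_smul] at h
    exact ((h0.smul (show 0 < c + t by linarith)).unique h.act)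

end H47A
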