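import Pool.Agent.Lib.H47A.EAz

/-! # H47A, chunk ETH (M): the azimuth along a polygonal curve
u k is a sequence with u (k + M) = - u k and azimuth angles χ k, increasing with steps less than pi. On [k,k+1] the curve is (1-s) u k + s u (k+1), with azimuth (1-s) r_k e^{i χ k} + s r_{k+1}
e^{i χ (k+1)}: `sector_fwd` gives a radius and an angle T x in [χ k, χ (k+1)) for s in [0,1) (strict upper bound as the coefficient 1 - s is positive; equal to χ k for s = 0 by `exp_unique`). Choose it for every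
x with k = floor x (Classical.choose). T x in [χ k, χ (k+1)) and the value mod 2 pi determine T x (`exp_unique`, interval shorter than pi): so T (x + M) = T x + pi (the azimuth changes sign: e^{i pi} = -1,
floor (x + M) = floor x + M, χ (k+M) = χ k + pi). StrictMono: for floor x < floor y: T x < χ (floor x + 1) <= χ (floor y) <= T y. For the same floor and s < s':
cr of the azimuths at s and s' is (s' - s) r_k r_{k+1} sin(χ (k+1) - χ k) > 0 and equals r r' sin (T y - T x), with |T y - T x| < pi: so T y > T x. -/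

open Real

namespace H47A

variable {f1 f2 : E3}

theorem eth_unique {a b t t' r r' : ℝ} (hab : b < a + π) (h1 : a ≤ t) (h2 : t < b) (h3 : a ≤ t') (h4 : t' < b)
    (hr : 0 < r) (hr' : 0 < r')
    (h : (r : ℂ) * Complex.exp ((t : ℂ) * Complex.I) = (r' : ℂ) * Complex.exp ((t' : ℂ) * Complex.I)) : t = t' := by
  obtain ⟨-, l, hl⟩ := exp_unique hr hr' h
  have hpi := Real.pi_pos
  have h5 : |2 * π * (l : ℝ)| < π := by
    rw [abs_lt]
    constructor <;> linarith
  have h6 : l = 0 := by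
    by_contra hc
    have h7 : (1 : ℝ) ≤ |(l : ℝ)| := by
      rw [← Int.cast_abs]
      exact_mod_cast Int.one_le_abs hc
    rw [abs_mul, abs_of_pos (by linarith : (0 : ℝ) < 2 * π)] at h5
    nlinarith
  rw [h6] at hl
  simpa using hl

theorem eth_cr (r r' t t' : ℝ) : cr ((r : ℂ) * Complex.exp ((t : ℂ) * Complex.I))
    ((r' : ℂ) * Complex.exp ((t' : ℂ) * Complex.I)) = r * r' * sin (t' - t) := by
  unfold cr
  rw [Complex.re_ofReal_mul, Complex.re_ofReal_mul, Complex.im_ofReal_mul, Complex.im_ofReal_mul,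
    Complex.exp_ofReal_mul_I_re, Complex.exp_ofReal_mul_I_re, Complex.exp_ofReal_mul_I_im,
    Complex.exp_ofReal_mul_I_im, sin_sub]
  ring

theorem eth_cr_lin (s s' : ℝ) (z w : ℂ) : cr (((1 - s : ℝ) : ℂ) * z + (s : ℂ) * w) (((1 - s' : ℝ) : ℂ) * z + (s' : ℂ) * w) =
    (s' - s) * cr z w := by
  unfold cr
  simp only [Complex.add_re, Complex.add_im, Complex.re_ofReal_mul, Complex.im_ofReal_mul]
  ring

theorem eth_seg (u w : E3) (s : ℝ) : az f1 f2 (seg u w s) = ((1 - s : ℝ) : ℂ) * az f1 f2 u + (s : ℂ) * az f1 f2 w := by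
  unfold seg
  rw [az_add, az_smul, az_smul]

theorem th_gen {M : ℕ} {u : ℤ → E3} {χ : ℤ → ℝ} (anti : ∀ k, u (k + M) = -u k)
    (azi : ∀ k, ∃ r : ℝ, 0 < r ∧ az f1 f2 (u k) = (r : ℂ) * Complex.exp ((χ k : ℂ) * Complex.I))
    (mono : ∀ k, χ k < χ (k + 1)) (lt : ∀ k, χ (k + 1) < χ k + π) (per : ∀ k, χ (k + M) = χ k + π) :
    ∃ T : ℝ → ℝ, StrictMono T ∧ (∀ x, T (x + M) = T x + π) ∧ (∀ k : ℤ, T k = χ k) ∧
      ∀ x, ∃ r : ℝ, 0 < r ∧ az f1 f2 (seg (u ⌊x⌋) (u (⌊x⌋ + 1)) (Int.fract x)) =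
        (r : ℂ) * Complex.exp ((T x : ℂ) * Complex.I) := by
  have hpi := Real.pi_pos
  have hmono : StrictMono χ := strictMono_int_of_lt_succ mono
  have key : ∀ x : ℝ, ∃ t : ℝ, χ ⌊x⌋ ≤ t ∧ t < χ (⌊x⌋ + 1) ∧ ∃ r : ℝ, 0 < r ∧
      az f1 f2 (seg (u ⌊x⌋) (u (⌊x⌋ + 1)) (Int.fract x)) = (r : ℂ) * Complex.exp ((t : ℂ) * Complex.I) := by
    intro x
    obtain ⟨r, hr, hz⟩ := azi ⌊x⌋
    obtain ⟨r', hr', hz'⟩ := azi (⌊x⌋ + 1)
    have hs0 := Int.fract_nonneg x
    have hs1 := Int.fract_lt_one x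
    have ha : 0 < (1 - Int.fract x) * r := mul_pos (by linarith) hr
    have hb : 0 ≤ Int.fract x * r' := mul_nonneg hs0 hr'.le
    obtain ⟨R, p, hR, h1, -, h3, -, h5⟩ := sector_fwd (mono ⌊x⌋) (lt ⌊x⌋) ha.le hb (by linarith)
    refine ⟨p, h1, h3 ha, R, hR, ?_⟩
    rw [eth_seg, hz, hz', ← h5]
    push_cast
    ring
  choose T hT1 hT2 R hR hT3 using key
  have huniq : ∀ x t : ℝ, ∀ r : ℝ, 0 < r → χ ⌊x⌋ ≤ t → t < χ (⌊x⌋ + 1) →
      az f1 f2 (seg (u ⌊x⌋) (u (⌊x⌋ + 1)) (Int.fract x)) = (r : ℂ) * Complex.exp ((t : ℂ) * Complex.I) → T x = t := by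
    intro x t r hr h1 h2 h3
    exact eth_unique (lt ⌊x⌋) (hT1 x) (hT2 x) h1 h2 (hR x) hr ((hT3 x).symm.trans h3)
  refine ⟨T, ?_, ?_, ?_, fun x => ⟨R x, hR x, hT3 x⟩⟩
  · intro x y hxy
    have hfl : ⌊x⌋ ≤ ⌊y⌋ := Int.floor_le_floor hxy.le
    rcases hfl.lt_or_eq with h | h
    · calc T x < χ (⌊x⌋ + 1) := hT2 x
        _ ≤ χ ⌊y⌋ := hmono.monotone (by omega)
        _ ≤ T y := hT1 y
    · have hs : Int.fract x < Int.fract y := by
        unfold Int.fract
        rw [h]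
        linarith
      have e1 := hT3 x
      have e2 := hT3 y
      rw [← h, eth_seg] at e2
      rw [eth_seg] at e1
      have e3 := eth_cr_lin (Int.fract x) (Int.fract y) (az f1 f2 (u ⌊x⌋)) (az f1 f2 (u (⌊x⌋ + 1)))
      rw [e1, e2, eth_cr] at e3
      obtain ⟨r, hr, hz⟩ := azi ⌊x⌋
      obtain ⟨r', hr', hz'⟩ := azi (⌊x⌋ + 1)
      rw [hz, hz', eth_cr] at e3
      have h4 : 0 < sin (χ (⌊x⌋ + 1) - χ ⌊x⌋) := by
        have := mono ⌊x⌋
        have := lt ⌊x⌋
        exact sin_pos_of_pos_of_lt_pi (by linarith) (by linarith)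
      have h5 : 0 < R x * R y * sin (T y - T x) := by
        rw [e3]
        exact mul_pos (by linarith) (mul_pos (mul_pos hr hr') h4)
      have h6 : 0 < sin (T y - T x) := by
        by_contra hc
        push Not at hc
        have := mul_nonpos_of_nonneg_of_nonpos (mul_pos (hR x) (hR y)).le hc
        linarith
      by_contra hc
      push Not at hc
      have k1 := hT1 x
      have k2 := hT2 x
      have k3 := hT1 y
      have k4 := hT2 y
      rw [← h] at k3 k4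
      have k5 := lt ⌊x⌋
      have h7 : sin (T y - T x) ≤ 0 := sin_nonpos_of_nonpos_of_neg_pi_le (by linarith) (by linarith)
      linarith
  · intro x
    have hfl : ⌊x + (M : ℝ)⌋ = ⌊x⌋ + M := Int.floor_add_natCast x M
    have hfr : Int.fract (x + (M : ℝ)) = Int.fract x := Int.fract_add_natCast x M
    refine huniq _ _ (R x) (hR x) ?_ ?_ ?_
    · rw [hfl, per]
      have := hT1 x
      linarith
    · rw [hfl, show ⌊x⌋ + (M : ℤ) + 1 = (⌊x⌋ + 1) + M by ring, per]
      have := hT2 x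
      linarith
    · rw [hfl, hfr, show ⌊x⌋ + (M : ℤ) + 1 = (⌊x⌋ + 1) + M by ring, anti, anti]
      have h1 : seg (-u ⌊x⌋) (-u (⌊x⌋ + 1)) (Int.fract x) =
          (-1 : ℝ) • seg (u ⌊x⌋) (u (⌊x⌋ + 1)) (Int.fract x) := by
        unfold seg
        module
      rw [h1, az_smul, hT3]
      have h2 : Complex.exp (((T x + π : ℝ) : ℂ) * Complex.I) = -Complex.exp ((T x : ℂ) * Complex.I) := by
        push_cast
        rw [add_mul, Complex.exp_add, Complex.exp_pi_mul_I]
        ring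
      rw [h2]
      push_cast
      ring
  · intro k
    obtain ⟨r, hr, hz⟩ := azi k
    have hfl : ⌊((k : ℤ) : ℝ)⌋ = k := Int.floor_intCast k
    refine huniq _ _ r hr ?_ ?_ ?_
    · rw [hfl]
    · rw [hfl]
      exact mono k
    · rw [hfl, Int.fract_intCast, eth_seg, hz]
      simp

end H47A
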