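import Pool.Agent.Lib.H47A.EFan1
import Pool.Agent.Lib.H47A.EOrd
import Pool.Agent.Lib.H47A.ETh

open Real

namespace H47A

variable {A : Type} [Fintype A] [DecidableEq A] {n : A → E3} {f1 f2 e : E3} {m : ℕ}

namespace Fan

/-! # H47A, chunk EFAN2 (M): the azimuth along the curve; no vertex inside the disc
`exists_th`: `th_gen` (chunk ETH) with u = γ, χ = θ, M = m (`th_lt`); G x is the segment by definition.
`nv_G`: suppose three facets are active at u = G x + t e, t > 0. az u = az (G x) != 0, so u != 0; psi u is a vertex (Act.smul, psi_gg),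
psi u = γ j = G j (`vert`). az (G j) = (gg u)^{-1} az (G x), so by `exp_unique` T j = T x + 2 pi l = T (x + 2 m l), hence j = x + 2 m l
and G j = G x. So (gg u)^{-1} (G x + t e) = G x; comparing azimuths (gg u)^{-1} = 1, so t e = 0, contradiction.
`uu_form`: u = a e + b γ k + c γ (k+1): if b + c > 0, x = k + c/(b+c), u = (b+c) (G x + (a/(b+c)) e); otherwise u = a e, a > 0 as
gg u = 1. -/

theorem exists_th (F : Fan n f1 f2 m) : ∃ T : ℝ → ℝ, StrictMono T ∧ (∀ x, T (x + m) = T x + π) ∧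
    (∀ k : ℤ, T k = F.θ k) ∧
    ∀ x, ∃ r : ℝ, 0 < r ∧ az f1 f2 (F.G x) = (r : ℂ) * Complex.exp ((T x : ℂ) * Complex.I) :=
  th_gen (M := m) F.anti F.azi F.mono F.th_lt F.θper

theorem az_G_ne (F : Fan n f1 f2 m) (x : ℝ) : az f1 f2 (F.G x) ≠ 0 := by
  obtain ⟨T, -, -, -, h⟩ := F.exists_th
  obtain ⟨r, hr, h1⟩ := h x
  rw [h1]
  exact mul_ne_zero (Complex.ofReal_ne_zero.2 hr.ne') (Complex.exp_ne_zero _)

theorem efan2_T {T : ℝ → ℝ} (hT : ∀ x, T (x + m) = T x + π) (x : ℝ) (l : ℤ) :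
    T (x + 2 * m * l) = T x + 2 * π * l := by
  have h1 : ∀ y : ℝ, T (y + 2 * m) = T y + 2 * π := by
    intro y
    have h2 : y + 2 * m = (y + m) + m := by ring
    rw [h2, hT, hT]
    ring
  induction l using Int.induction_on with
  | zero => simp
  | succ i ih =>
    have h2 : x + 2 * m * (((i : ℤ) + 1 : ℤ) : ℝ) = (x + 2 * m * ((i : ℤ) : ℝ)) + 2 * m := by
      push_cast
      ring
    rw [h2, h1, ih]
    push_cast
    ring
  | pred i ih =>
    have h2 : x + 2 * m * ((-(i : ℤ) : ℤ) : ℝ) = (x + 2 * m * ((-(i : ℤ) - 1 : ℤ) : ℝ)) + 2 * m := by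
      push_cast
      ring
    rw [h2, h1] at ih
    push_cast at ih ⊢
    linarith

theorem efan2_G (F : Fan n f1 f2 m) (x : ℝ) (l : ℤ) : F.G (x + 2 * m * l) = F.G x := by
  induction l using Int.induction_on with
  | zero => simp
  | succ i ih =>
    have h2 : x + 2 * m * (((i : ℤ) + 1 : ℤ) : ℝ) = (x + 2 * m * ((i : ℤ) : ℝ)) + 2 * m := by
      push_cast
      ring
    rw [h2, F.G_per, ih]
  | pred i ih =>
    have h2 : x + 2 * m * ((-(i : ℤ) : ℤ) : ℝ) = (x + 2 * m * ((-(i : ℤ) - 1 : ℤ) : ℝ)) + 2 * m := by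
      push_cast
      ring
    rw [h2, F.G_per] at ih
    exact ih

theorem efan2_az0 : az f1 f2 (0 : E3) = 0 := by
  have := az_smul (f1 := f1) (f2 := f2) 0 (0 : E3)
  rw [zero_smul] at this
  simpa using this

theorem efan2_az (hA : Axis f1 f2 e) (u : E3) (t : ℝ) : az f1 f2 (u + t • e) = az f1 f2 u := by
  rw [az_add, az_smul, az_e hA, mul_zero, add_zero]

theorem nz_G (hA : Axis f1 f2 e) (F : Fan n f1 f2 m) (x : ℝ) : NZ e (F.G x) := by
  intro t _ h
  apply F.az_G_ne x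
  rw [← efan2_az hA (F.G x) t, h, efan2_az0]

theorem nv_G (hG : Gnr n) (hA : Axis f1 f2 e) (F : Fan n f1 f2 m) (x : ℝ) : NV n e (F.G x) := by
  intro t ht α β γ h12 h23 h13 ⟨ha, hb, hc⟩
  have hu : F.G x + t • e ≠ 0 := F.nz_G hA x t ht.le
  have hgpos := gg_pos hG hu
  have hc0 : 0 < (gg n (F.G x + t • e))⁻¹ := inv_pos.2 hgpos
  have hV : psi n (F.G x + t • e) ∈ Vx n :=
    ⟨psi_gg hG hu, α, β, γ, h12, h23, h13, ha.smul hc0.le, hb.smul hc0.le, hc.smul hc0.le⟩
  obtain ⟨k, hk⟩ := F.vert _ hV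
  obtain ⟨T, hmono, hT, hTk, haz⟩ := F.exists_th
  obtain ⟨r, hr, h1⟩ := haz x
  obtain ⟨r', hr', h2⟩ := haz (k : ℝ)
  have h3 : az f1 f2 (F.G (k : ℝ)) = (((gg n (F.G x + t • e))⁻¹ : ℝ) : ℂ) * az f1 f2 (F.G x) := by
    rw [F.G_int, hk]
    unfold psi
    rw [az_smul, efan2_az hA]
  rw [h1, h2, ← mul_assoc, ← Complex.ofReal_mul] at h3
  obtain ⟨-, l, hl⟩ := exp_unique hr' (mul_pos hc0 hr) h3
  have h4 : (k : ℝ) = x + 2 * m * l := by
    apply hmono.injective
    rw [efan2_T hT, hl]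
  have h5 : psi n (F.G x + t • e) = F.G x := by
    rw [← hk, ← F.G_int, h4, F.efan2_G]
  have h6 : ((((gg n (F.G x + t • e))⁻¹ : ℝ) : ℂ)) = 1 := by
    have h7 : az f1 f2 (psi n (F.G x + t • e)) = (((gg n (F.G x + t • e))⁻¹ : ℝ) : ℂ) * az f1 f2 (F.G x) := by
      unfold psi
      rw [az_smul, efan2_az hA]
    rw [h5] at h7
    have h8 := F.az_G_ne x
    have h9 : ((((gg n (F.G x + t • e))⁻¹ : ℝ) : ℂ) - 1) * az f1 f2 (F.G x) = 0 := by
      rw [sub_mul, ← h7]
      ring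
    rcases mul_eq_zero.1 h9 with h10 | h10
    · exact sub_eq_zero.1 h10
    · exact absurd h10 h8
  have h7 : (gg n (F.G x + t • e))⁻¹ = 1 := by exact_mod_cast h6
  unfold psi at h5
  rw [h7, one_smul] at h5
  have h8 : t • e = 0 := by
    have h9 : F.G x + t • e = F.G x + 0 := by rw [h5, add_zero]
    exact add_left_cancel h9
  rcases smul_eq_zero.1 h8 with h9 | h9
  · exact ht.ne' h9
  · have := hA.ne
    rw [h9, norm_zero] at this
    norm_num at this

theorem uu_form (hG : Gnr n) (F : Fan n f1 f2 m) {u : E3} (hu : u ∈ F.UU e) :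
    (∃ c : ℝ, 0 < c ∧ u = c • e) ∨ ∃ x r t : ℝ, 0 < r ∧ 0 ≤ t ∧ u = r • (F.G x + t • e) := by
  obtain ⟨h1, k, a, b, c, ha, hb, hc, h2⟩ := hu
  rcases eq_or_lt_of_le (add_nonneg hb hc) with h3 | h3
  · left
    have hb0 : b = 0 := by linarith
    have hc0 : c = 0 := by linarith
    rw [hb0, hc0, zero_smul, zero_smul, add_zero, add_zero] at h2
    refine ⟨a, lt_of_le_of_ne ha ?_, h2⟩
    rintro rfl
    rw [zero_smul] at h2
    rw [h2, egau_zero hG] at h1
    norm_num at h1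
  · right
    refine ⟨k + c / (b + c), b + c, a / (b + c), h3, by positivity, ?_⟩
    have h4 : c / (b + c) ≤ 1 := by
      rw [div_le_one h3]
      linarith
    have h5 : 0 ≤ c / (b + c) := by positivity
    have hb' : (b + c) ≠ 0 := h3.ne'
    rw [F.G_eq k ⟨by linarith, by linarith⟩]
    unfold seg
    rw [h2, smul_add, smul_add, smul_smul, smul_smul, smul_smul]
    have e1 : (b + c) * (1 - ((k : ℝ) + c / (b + c) - k)) = b := by field_simp; ring
    have e2 : (b + c) * ((k : ℝ) + c / (b + c) - k) = c := by field_simp; ring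
    have e3 : (b + c) * (a / (b + c)) = a := by field_simp
    rw [e1, e2, e3]
    abel

theorem G_uu (hG : Gnr n) (F : Fan n f1 f2 m) (x : ℝ) : F.G x ∈ F.UU e := by
  refine ⟨F.G_gg hG x, ⌊x⌋, 0, 1 - Int.fract x, Int.fract x, le_rfl, ?_, Int.fract_nonneg x, ?_⟩
  · linarith [(Int.fract_lt_one x).le]
  · rw [zero_smul, zero_add]
    rfl

/-- `psi (G x + t e)` is in the upper disc. -/
theorem psi_uu (hG : Gnr n) (hA : Axis f1 f2 e) (F : Fan n f1 f2 m) (x : ℝ) {t : ℝ} (ht : 0 ≤ t) :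
    psi n (F.G x + t • e) ∈ F.UU e := by
  have hu : F.G x + t • e ≠ 0 := F.nz_G hA x t ht
  have hc0 : 0 < (gg n (F.G x + t • e))⁻¹ := inv_pos.2 (gg_pos hG hu)
  refine ⟨psi_gg hG hu, ⌊x⌋, (gg n (F.G x + t • e))⁻¹ * t, (gg n (F.G x + t • e))⁻¹ * (1 - Int.fract x),
    (gg n (F.G x + t • e))⁻¹ * Int.fract x, by positivity, ?_, ?_, ?_⟩
  · exact mul_nonneg hc0.le (by linarith [(Int.fract_lt_one x).le])
  · exact mul_nonneg hc0.le (Int.fract_nonneg x)
  · rw [mul_smul, mul_smul, mul_smul, ← smul_add, ← smul_add]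
    unfold psi
    congr 1
    show seg (F.γ ⌊x⌋) (F.γ (⌊x⌋ + 1)) (Int.fract x) + t • e = _
    unfold seg
    abel

theorem efan2_pe (hG : Gnr n) (hA : Axis f1 f2 e) (F : Fan n f1 f2 m) {c : ℝ} (hc : 0 < c) :
    c • e ≠ 0 ∧ psi n (c • e) ∈ F.UU e := by
  have he : e ≠ 0 := by
    rintro rfl
    have := hA.ne
    rw [norm_zero] at this
    norm_num at this
  have h1 : c • e ≠ 0 := smul_ne_zero hc.ne' he
  refine ⟨h1, psi_gg hG h1, 0, (gg n (c • e))⁻¹ * c, 0, 0,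
    mul_nonneg (inv_pos.2 (gg_pos hG h1)).le hc.le, le_rfl, le_rfl, ?_⟩
  rw [zero_smul, zero_smul, add_zero, add_zero, mul_smul]
  rfl

/-- The segment of directions towards the pole stays in the disc. -/
theorem uu_star (hG : Gnr n) (hA : Axis f1 f2 e) (F : Fan n f1 f2 m) {u : E3} (hu : u ∈ F.UU e) {s : ℝ}
    (hs : s ∈ Set.Icc (0 : ℝ) 1) : seg e u s ≠ 0 ∧ psi n (seg e u s) ∈ F.UU e := by
  rcases F.uu_form hG hu with ⟨c, hc, rfl⟩ | ⟨x, r, t, hr, ht, rfl⟩
  · have h1 : seg e (c • e) s = (1 - s + s * c) • e := by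
      unfold seg
      rw [add_smul, mul_smul]
    rw [h1]
    refine F.efan2_pe hG hA ?_
    rcases eq_or_lt_of_le hs.1 with h2 | h2
    · rw [← h2]
      norm_num
    · have := mul_pos h2 hc
      linarith [hs.2]
  · rcases eq_or_lt_of_le hs.1 with h2 | h2
    · rw [← h2]
      have h1 : seg e (r • (F.G x + t • e)) 0 = (1 : ℝ) • e := by
        unfold seg
        simp
      rw [h1]
      exact F.efan2_pe hG hA one_pos
    · have hsr : 0 < s * r := mul_pos h2 hr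
      have ht' : 0 ≤ (1 - s) / (s * r) + t := add_nonneg (div_nonneg (by linarith [hs.2]) hsr.le) ht
      have h1 : seg e (r • (F.G x + t • e)) s = (s * r) • (F.G x + ((1 - s) / (s * r) + t) • e) := by
        unfold seg
        have e1 : (s * r) * ((1 - s) / (s * r) + t) = (1 - s) + s * r * t := by field_simp
        rw [smul_add (s * r), smul_smul (s * r), e1, add_smul, smul_smul, smul_add, smul_smul]
        abel
      rw [h1, psi_smul hG hsr]
      exact ⟨smul_ne_zero hsr.ne' (F.nz_G hA x _ ht'), F.psi_uu hG hA x ht'⟩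

theorem nv_uu (hG : Gnr n) (hA : Axis f1 f2 e) (he : Gen n e) (F : Fan n f1 f2 m) {u : E3} (hu : u ∈ F.UU e) :
    NV n e u := by
  rcases F.uu_form hG hu with ⟨c, hc, rfl⟩ | ⟨x, r, t, hr, ht, rfl⟩
  · rintro τ hτ α β γ h12 h23 h13 ⟨ha, hb, -⟩
    rw [← add_smul] at ha hb
    have h1 := le_antisymm (hb α) (ha β)
    rw [lf_smul, lf_smul] at h1
    exact he α β h12 (mul_left_cancel₀ (by positivity) h1)
  · rintro τ hτ α β γ h12 h23 h13 ⟨ha, hb, hc⟩
    have h1 : r⁻¹ • (r • (F.G x + t • e) + τ • e) = F.G x + (t + r⁻¹ * τ) • e := by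
      rw [smul_add, smul_smul, inv_mul_cancel₀ hr.ne', one_smul, smul_smul, add_smul, add_assoc]
    have hr' : 0 ≤ r⁻¹ := (inv_pos.2 hr).le
    refine F.nv_G hG hA x (t + r⁻¹ * τ) (by positivity) α β γ h12 h23 h13 ⟨?_, ?_, ?_⟩
    · rw [← h1]
      exact ha.smul hr'
    · rw [← h1]
      exact hb.smul hr'
    · rw [← h1]
      exact hc.smul hr'

theorem nz_uu (hG : Gnr n) (hA : Axis f1 f2 e) (F : Fan n f1 f2 m) {u : E3} (hu : u ∈ F.UU e) : NZ e u := by
  rcases F.uu_form hG hu with ⟨c, hc, rfl⟩ | ⟨x, r, t, hr, ht, rfl⟩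
  · intro τ hτ h
    rw [← add_smul] at h
    exact (F.efan2_pe hG hA (show 0 < c + τ by positivity)).1 h
  · intro τ hτ h
    have h1 : r⁻¹ • (r • (F.G x + t • e) + τ • e) = F.G x + (t + r⁻¹ * τ) • e := by
      rw [smul_add, smul_smul, inv_mul_cancel₀ hr.ne', one_smul, smul_smul, add_smul, add_assoc]
    rw [h, smul_zero] at h1
    exact F.nz_G hA x (t + r⁻¹ * τ) (by positivity) h1.symm

end Fan

end H47A
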