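import Pool.Agent.Lib.H47A.EFan2

/-! # H47A, chunks EFAN3A (M), EFAN3B (M): the two discs cover the boundary and meet along Gamma
EFAN3A: `cn_closed`: with D = det3 e (γ k) (γ (k+1)) > 0 (`det_pos`): u in Cn k iff 0 <= det3 u (γ k) (γ (k+1)), 0 <= det3 e u (γ (k+1)),
0 <= det3 e (γ k) u (Cramer: D u = det3 u γ_k γ_{k+1} e + det3 e u γ_{k+1} γ_k + det3 e γ_k u γ_{k+1}); det3 is continuous.
`cn_per`: Cn (k + 2m) = Cn k. `cover`: u with gg u = 1. If az u = 0: u = c e (`az_zero`), c != 0, u or -u in Cn 0. Otherwise az u = r e^{ip};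
choose k with theta k <= p + 2 pi l <= theta (k+1) (theta is strictly monotone and theta (k + 2m) = theta k + 2 pi, so unbounded: choose
k maximal with theta k <= p); `sector_bwd`, rescaled by the radii r_k, r_{k+1}: az u = b az(γ k) + c az(γ (k+1)), b, c >= 0. So
u - b γ k - c γ (k+1) has azimuth 0, it is a e. If a >= 0: u in Cn k. If a <= 0: -u = (-a) e + b γ (k+m) + c γ (k+1+m) in Cn (k+m). -/

open Real Filter Topology

namespace H47A

variable {A : Type} [Fintype A] [DecidableEq A] {n : A → E3} {f1 f2 e : E3} {m : ℕ}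

namespace Fan

theorem efan3a_cr (x y z u : E3) : det3 x y z • u = det3 u y z • x + det3 x u z • y + det3 x y u • z := by
  apply evec_ext <;> simp only [PiLp.smul_apply, PiLp.add_apply, smul_eq_mul, det3, inner3, evec_c0, evec_c1, evec_c2] <;> ring

theorem efan3a_d1 (x y z : E3) (a b c : ℝ) : det3 (a • x + b • y + c • z) y z = a * det3 x y z ∧
    det3 x (a • x + b • y + c • z) z = b * det3 x y z ∧ det3 x y (a • x + b • y + c • z) = c * det3 x y z := by
  refine ⟨?_, ?_, ?_⟩ <;>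
    simp only [PiLp.smul_apply, PiLp.add_apply, smul_eq_mul, det3, inner3, evec_c0, evec_c1, evec_c2] <;> ring

theorem efan3a_coord (i : Fin 3) : Continuous fun u : E3 => u i := by
  fun_prop

theorem efan3a_cont (y z : E3) : Continuous (fun u : E3 => det3 u y z) ∧ Continuous (fun u : E3 => det3 y u z) ∧
    Continuous (fun u : E3 => det3 y z u) := by
  have h0 := efan3a_coord 0
  have h1 := efan3a_coord 1
  have h2 := efan3a_coord 2
  refine ⟨?_, ?_, ?_⟩ <;> simp only [det3, inner3, evec_c0, evec_c1, evec_c2] <;> fun_prop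

theorem cn_closed (hA : Axis f1 f2 e) (F : Fan n f1 f2 m) (k : ℤ) : IsClosed (F.Cn e k) := by
  have hD := F.det_pos hA k
  have h1 : F.Cn e k = {u | 0 ≤ det3 u (F.γ k) (F.γ (k + 1))} ∩ {u | 0 ≤ det3 e u (F.γ (k + 1))} ∩
      {u | 0 ≤ det3 e (F.γ k) u} := by
    ext u
    constructor
    · rintro ⟨a, b, c, ha, hb, hc, hu⟩
      obtain ⟨h1, h2, h3⟩ := efan3a_d1 e (F.γ k) (F.γ (k + 1)) a b c
      rw [← hu] at h1 h2 h3
      refine ⟨⟨?_, ?_⟩, ?_⟩
      · show 0 ≤ det3 u (F.γ k) (F.γ (k + 1))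
        rw [h1]
        positivity
      · show 0 ≤ det3 e u (F.γ (k + 1))
        rw [h2]
        positivity
      · show 0 ≤ det3 e (F.γ k) u
        rw [h3]
        positivity
    · rintro ⟨⟨h1, h2⟩, h3⟩
      have h1' : 0 ≤ det3 u (F.γ k) (F.γ (k + 1)) := h1
      have h2' : 0 ≤ det3 e u (F.γ (k + 1)) := h2
      have h3' : 0 ≤ det3 e (F.γ k) u := h3
      refine ⟨(det3 e (F.γ k) (F.γ (k + 1)))⁻¹ * det3 u (F.γ k) (F.γ (k + 1)),
        (det3 e (F.γ k) (F.γ (k + 1)))⁻¹ * det3 e u (F.γ (k + 1)), (det3 e (F.γ k) (F.γ (k + 1)))⁻¹ * det3 e (F.γ k) u,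
        mul_nonneg (inv_nonneg.2 hD.le) h1', mul_nonneg (inv_nonneg.2 hD.le) h2',
        mul_nonneg (inv_nonneg.2 hD.le) h3', ?_⟩
      rw [mul_smul, mul_smul, mul_smul, ← smul_add, ← smul_add, ← efan3a_cr, smul_smul, inv_mul_cancel₀ hD.ne', one_smul]
  rw [h1]
  refine (IsClosed.inter ?_ ?_).inter ?_
  · exact isClosed_le continuous_const (efan3a_cont _ _).1
  · exact isClosed_le continuous_const (efan3a_cont _ _).2.1
  · exact isClosed_le continuous_const (efan3a_cont _ _).2.2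

theorem cn_convex (F : Fan n f1 f2 m) (k : ℤ) : Convex ℝ (F.Cn e k) := by
  rintro u ⟨a, b, c, ha, hb, hc, rfl⟩ v ⟨a', b', c', ha', hb', hc', rfl⟩ s t hs ht _
  refine ⟨s * a + t * a', s * b + t * b', s * c + t * c', by positivity, by positivity, by positivity, ?_⟩
  simp only [smul_add, smul_smul, add_smul]
  abel

theorem cn_per (F : Fan n f1 f2 m) (k : ℤ) : F.Cn e (k + 2 * m) = F.Cn e k := by
  unfold Cn
  rw [show k + 2 * (m : ℤ) + 1 = (k + 1) + 2 * m by ring, F.γ_per, F.γ_per]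

theorem efan3a_per (F : Fan n f1 f2 m) (k l : ℤ) : F.Cn e (k + 2 * m * l) = F.Cn e k := by
  induction l using Int.induction_on with
  | zero => simp
  | succ i ih =>
    rw [show k + 2 * (m : ℤ) * (i + 1) = (k + 2 * m * i) + 2 * m by ring, F.cn_per, ih]
  | pred i ih =>
    rw [show k + 2 * (m : ℤ) * -(i : ℤ) = (k + 2 * m * (-i - 1)) + 2 * m by ring, F.cn_per] at ih
    exact ih

theorem uu_iff (F : Fan n f1 f2 m) (u : E3) :
    u ∈ F.UU e ↔ gg n u = 1 ∧ ∃ k ∈ Finset.range (2 * m), u ∈ F.Cn e (k : ℤ) := by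
  constructor
  · rintro ⟨h1, k, hk⟩
    have hm : (0 : ℤ) < 2 * m := by
      have := F.two_le
      omega
    refine ⟨h1, (k % (2 * m)).toNat, ?_, ?_⟩
    · rw [Finset.mem_range]
      have h2 := Int.emod_lt_of_pos k hm
      have h3 := Int.emod_nonneg k hm.ne'
      omega
    · have h3 := Int.emod_nonneg k hm.ne'
      rw [Int.toNat_of_nonneg h3, ← F.efan3a_per (k % (2 * m)) (k / (2 * m)), Int.emod_add_mul_ediv]
      exact hk
  · rintro ⟨h1, k, -, hk⟩
    exact ⟨h1, k, hk⟩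

theorem uu_compact (hG : Gnr n) (hA : Axis f1 f2 e) (F : Fan n f1 f2 m) : IsCompact (F.UU e) := by
  have h1 : F.UU e = bd n ∩ ⋃ k ∈ Finset.range (2 * m), F.Cn e (k : ℤ) := by
    ext u
    rw [F.uu_iff]
    simp only [Set.mem_inter_iff, Set.mem_iUnion, exists_prop]
    rfl
  rw [h1]
  refine (bd_compact hG).inter_right ?_
  exact Set.Finite.isClosed_biUnion (Finset.finite_toSet _) fun k _ => F.cn_closed hA _

theorem efan3a_th (F : Fan n f1 f2 m) (l : ℤ) : F.θ (m * l) = F.θ 0 + π * l := by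
  induction l using Int.induction_on with
  | zero => simp
  | succ i ih =>
    rw [show (m : ℤ) * (i + 1) = (m * i) + m by ring, F.θper, ih]
    push_cast
    ring
  | pred i ih =>
    rw [show (m : ℤ) * -(i : ℤ) = (m * (-i - 1)) + m by ring, F.θper] at ih
    push_cast at ih ⊢
    linarith

theorem efan3a_loc (F : Fan n f1 f2 m) (p : ℝ) : ∃ k : ℤ, F.θ k ≤ p ∧ p < F.θ (k + 1) := by
  classical
  have hpi := Real.pi_pos
  have hb : ∃ b : ℤ, ∀ z : ℤ, F.θ z ≤ p → z ≤ b := by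
    refine ⟨m * ⌈(p - F.θ 0) / π⌉, fun z hz => ?_⟩
    by_contra hlt
    rw [not_le] at hlt
    have h1 := F.th_mono hlt
    rw [efan3a_th] at h1
    have h2 := Int.le_ceil ((p - F.θ 0) / π)
    rw [div_le_iff₀ hpi] at h2
    linarith
  have hi : ∃ z : ℤ, F.θ z ≤ p := by
    refine ⟨m * ⌊(p - F.θ 0) / π⌋, ?_⟩
    rw [efan3a_th]
    have h2 := Int.floor_le ((p - F.θ 0) / π)
    rw [le_div_iff₀ hpi] at h2
    linarith
  obtain ⟨k, hk, hmax⟩ := Int.exists_greatest_of_bdd hb hi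
  refine ⟨k, hk, ?_⟩
  by_contra hlt
  rw [not_lt] at hlt
  have := hmax (k + 1) hlt
  omega

theorem cover (hG : Gnr n) (hA : Axis f1 f2 e) (F : Fan n f1 f2 m) {u : E3} (hu : gg n u = 1) :
    u ∈ F.UU e ∨ -u ∈ F.UU e := by
  have hu' : gg n (-u) = 1 := by rw [gg_neg hG, hu]
  by_cases h0 : az f1 f2 u = 0
  · have h1 := az_zero hA h0
    rcases le_total 0 (inner ℝ e u : ℝ) with h2 | h2
    · left
      refine ⟨hu, 0, inner ℝ e u, 0, 0, h2, le_rfl, le_rfl, ?_⟩
      rw [zero_smul, zero_smul, add_zero, add_zero]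
      exact h1
    · right
      refine ⟨hu', 0, -(inner ℝ e u : ℝ), 0, 0, by linarith, le_rfl, le_rfl, ?_⟩
      rw [zero_smul, zero_smul, add_zero, add_zero, neg_smul, ← h1]
  · obtain ⟨k, hk1, hk2⟩ := F.efan3a_loc (az f1 f2 u).arg
    have hm := F.mono k
    obtain ⟨a, b, ha, hb, hab⟩ := sector_bwd hm (F.th_lt k) hk1 hk2.le
    obtain ⟨r1, hr1, e1⟩ := F.azi k
    obtain ⟨r2, hr2, e2⟩ := F.azi (k + 1)
    obtain ⟨R, hR⟩ : ∃ R : ℝ, R = ‖az f1 f2 u‖ := ⟨_, rfl⟩
    have hR0 : 0 ≤ R := by rw [hR]; exact norm_nonneg _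
    have h3 : az f1 f2 u = (R : ℂ) * Complex.exp (((az f1 f2 u).arg : ℂ) * Complex.I) := by
      rw [hR]
      exact (Complex.norm_mul_exp_arg_mul_I _).symm
    have hr1' : (r1 : ℂ) ≠ 0 := Complex.ofReal_ne_zero.2 hr1.ne'
    have hr2' : (r2 : ℂ) ≠ 0 := Complex.ofReal_ne_zero.2 hr2.ne'
    have h4 : az f1 f2 (u - (R * a / r1) • F.γ k - (R * b / r2) • F.γ (k + 1)) = 0 := by
      have h5 : u = (u - (R * a / r1) • F.γ k - (R * b / r2) • F.γ (k + 1)) + ((R * a / r1) • F.γ k +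
          (R * b / r2) • F.γ (k + 1)) := by abel
      have h6 := congrArg (az f1 f2) h5
      rw [az_add, az_add, az_smul, az_smul, e1, e2, h3, ← hab] at h6
      have h7 : ((R * a / r1 : ℝ) : ℂ) * (r1 * Complex.exp ((F.θ k : ℂ) * Complex.I)) +
          ((R * b / r2 : ℝ) : ℂ) * (r2 * Complex.exp ((F.θ (k + 1) : ℂ) * Complex.I)) =
          R * (a * Complex.exp ((F.θ k : ℂ) * Complex.I) + b * Complex.exp ((F.θ (k + 1) : ℂ) * Complex.I)) := by
        push_cast
        field_simp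
      rw [h7] at h6
      exact right_eq_add.1 (by rw [add_comm] at h6; exact h6)
    have h8 := az_zero hA h4
    obtain ⟨c, hc⟩ : ∃ c : ℝ, c = inner ℝ e (u - (R * a / r1) • F.γ k - (R * b / r2) • F.γ (k + 1)) := ⟨_, rfl⟩
    rw [← hc] at h8
    have h9 : u = c • e + (R * a / r1) • F.γ k + (R * b / r2) • F.γ (k + 1) := by
      rw [← h8]
      abel
    rcases le_total 0 c with h10 | h10
    · left
      exact ⟨hu, k, c, R * a / r1, R * b / r2, h10, by positivity, by positivity, h9⟩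
    · right
      refine ⟨hu', k + m, -c, R * a / r1, R * b / r2, by linarith, by positivity, by positivity, ?_⟩
      rw [show k + (m : ℤ) + 1 = (k + 1) + m by ring, F.anti, F.anti]
      conv_lhs => rw [h9]
      simp only [neg_add, smul_neg, neg_smul]

end Fan

end H47A
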