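import Pool.Agent.Lib.H47A.EVec

/-! # H47A, chunk EGAU (S/M): the gauge function
A is nonempty by `bdd` (E3 is not zero), so the supremum over the finite nonempty type A x Bool is a maximum
(`Finite.exists_max`, `le_ciSup (Finite.bddAbove_range _)`). lf (a, not s) u = - lf (a,s) u. gg is positive for u != 0: some
<n_a,u> is not zero, one of the two signs is positive. Continuity: finite supremum of continuous functions (write it as
Finset.sup' or use convexity/Lipschitz: |gg u - gg v| <= C |u - v|). `bd_compact`: closed, and bounded: gg u >= c |u| with c > 0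
the minimum of gg on the unit sphere. `frontier_poly`: P = {gg <= 1} is closed, interior P = {gg < 1} (scaling). -/

open Real

namespace H47A

variable {A : Type} [Fintype A] [DecidableEq A] {n : A → E3}

theorem egau_nn (α : A × Bool) : nn n (ng α) = -nn n α := by
  obtain ⟨a, b⟩ := α
  cases b <;> simp [nn, ng]

theorem lf_ng (α : A × Bool) (u : E3) : lf n (ng α) u = -lf n α u := by
  unfold lf
  rw [egau_nn, inner_neg_left]

theorem lf_neg (α : A × Bool) (u : E3) : lf n α (-u) = -lf n α u := by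
  unfold lf
  rw [inner_neg_right]

theorem lf_smul (α : A × Bool) (c : ℝ) (u : E3) : lf n α (c • u) = c * lf n α u := by
  unfold lf
  rw [inner_smul_right]

theorem lf_add (α : A × Bool) (u v : E3) : lf n α (u + v) = lf n α u + lf n α v := by
  unfold lf
  rw [inner_add_right]

theorem nn_ng (α : A × Bool) : nn n (ng α) = -nn n α := egau_nn α

theorem ng_ng (α : A × Bool) : ng (ng α) = α := by
  obtain ⟨a, b⟩ := α
  simp [ng]

theorem egau_bdd (u : E3) : BddAbove (Set.range fun α : A × Bool => lf n α u) := (Set.finite_range _).bddAbove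

theorem lf_le_gg (α : A × Bool) (u : E3) : lf n α u ≤ gg n u :=
  le_ciSup (f := fun α : A × Bool => lf n α u) (egau_bdd u) α

theorem egau_e : ‖(EuclideanSpace.single (0 : Fin 3) (1 : ℝ) : E3)‖ = 1 := by
  rw [PiLp.norm_single, norm_one]

theorem egau_ne (hG : Gnr n) : Nonempty (A × Bool) := by
  have h0 : (EuclideanSpace.single (0 : Fin 3) (1 : ℝ) : E3) ≠ 0 := by
    rw [← norm_ne_zero_iff, egau_e]
    norm_num
  obtain ⟨a, _⟩ := hG.bdd _ h0
  exact ⟨(a, true)⟩

theorem exists_act (hG : Gnr n) (u : E3) : ∃ α, Act n α u := by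
  have := egau_ne hG
  exact Finite.exists_max fun α => lf n α u

theorem act_iff (hG : Gnr n) (α : A × Bool) (u : E3) : Act n α u ↔ lf n α u = gg n u := by
  have := egau_ne hG
  constructor
  · intro h
    exact le_antisymm (lf_le_gg α u) (ciSup_le h)
  · intro h β
    rw [h]
    exact lf_le_gg β u

theorem gg_pos (hG : Gnr n) {u : E3} (hu : u ≠ 0) : 0 < gg n u := by
  obtain ⟨a, ha⟩ := hG.bdd u hu
  rcases lt_or_gt_of_ne ha with h | h
  · refine lt_of_lt_of_le ?_ (lf_le_gg (a, false) u)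
    have h1 : lf n (a, false) u = -inner ℝ (n a) u := by
      simp [lf, nn, inner_neg_left]
    rw [h1]
    linarith
  · refine lt_of_lt_of_le ?_ (lf_le_gg (a, true) u)
    have h1 : lf n (a, true) u = inner ℝ (n a) u := by
      simp [lf, nn]
    rw [h1]
    exact h

theorem gg_smul (hG : Gnr n) {c : ℝ} (hc : 0 ≤ c) (u : E3) : gg n (c • u) = c * gg n u := by
  unfold gg
  rw [Real.mul_iSup_of_nonneg hc]
  simp only [lf_smul]

theorem egau_neg (hG : Gnr n) (u : E3) : gg n (-u) ≤ gg n u := by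
  have := egau_ne hG
  refine ciSup_le fun α => ?_
  rw [lf_neg, ← lf_ng]
  exact lf_le_gg _ _

theorem gg_neg (hG : Gnr n) (u : E3) : gg n (-u) = gg n u := by
  refine le_antisymm (egau_neg hG u) ?_
  have := egau_neg hG (-u)
  rwa [neg_neg] at this

theorem gg_add (hG : Gnr n) (u v : E3) : gg n (u + v) ≤ gg n u + gg n v := by
  have := egau_ne hG
  refine ciSup_le fun α => ?_
  rw [lf_add]
  exact add_le_add (lf_le_gg _ _) (lf_le_gg _ _)

theorem egau_lf_cont (α : A × Bool) : Continuous (lf n α) := continuous_const.inner continuous_id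

theorem gg_cont (hG : Gnr n) : Continuous (gg n) := by
  have := egau_ne hG
  have h1 : gg n = fun u => Finset.univ.sup' Finset.univ_nonempty fun α => lf n α u := by
    funext u
    rw [Finset.sup'_univ_eq_ciSup]
    rfl
  rw [h1]
  exact Continuous.finset_sup'_apply _ fun α _ => egau_lf_cont α

theorem Act.neg {α : A × Bool} {u : E3} (h : Act n α u) : Act n (ng α) (-u) := by
  intro β
  have h1 := h (ng β)
  rw [lf_ng] at h1
  rw [lf_neg, lf_neg, lf_ng, neg_neg]
  exact h1

theorem SAct.neg {α : A × Bool} {u : E3} (h : SAct n α u) : SAct n (ng α) (-u) := by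
  intro β hβ
  have h1 := h (ng β) (by
    intro h2
    apply hβ
    rw [← h2, ng_ng])
  rw [lf_ng] at h1
  rw [lf_neg, lf_neg, lf_ng, neg_neg]
  exact h1

theorem SAct.act {α : A × Bool} {u : E3} (h : SAct n α u) : Act n α u := by
  intro β
  by_cases hβ : β = α
  · rw [hβ]
  · exact (h β hβ).le

theorem SAct.unique {α β : A × Bool} {u : E3} (h : SAct n α u) (h' : Act n β u) : β = α := by
  by_contra hβ
  exact absurd (h β hβ) (not_lt.mpr (h' α))

theorem Act.smul {α : A × Bool} {u : E3} (h : Act n α u) {c : ℝ} (hc : 0 ≤ c) : Act n α (c • u) := by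
  intro β
  rw [lf_smul, lf_smul]
  exact mul_le_mul_of_nonneg_left (h β) hc

theorem SAct.smul {α : A × Bool} {u : E3} (h : SAct n α u) {c : ℝ} (hc : 0 < c) : SAct n α (c • u) := by
  intro β hβ
  rw [lf_smul, lf_smul]
  exact mul_lt_mul_of_pos_left (h β hβ) hc

theorem Act.seg {α : A × Bool} {u v : E3} (h : Act n α u) (h' : Act n α v) {t : ℝ} (ht : t ∈ Set.Icc (0 : ℝ) 1) :
    Act n α (seg u v t) := by
  intro β
  show lf n β ((1 - t) • u + t • v) ≤ lf n α ((1 - t) • u + t • v)
  rw [lf_add, lf_add, lf_smul, lf_smul, lf_smul, lf_smul]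
  exact add_le_add (mul_le_mul_of_nonneg_left (h β) (by linarith [ht.2])) (mul_le_mul_of_nonneg_left (h' β) ht.1)

theorem sact_open (α : A × Bool) : IsOpen {u : E3 | SAct n α u} := by
  have h1 : {u : E3 | SAct n α u} = ⋂ β : A × Bool, {u : E3 | β ≠ α → lf n β u < lf n α u} := by
    ext u
    simp only [Set.mem_setOf_eq, Set.mem_iInter]
    rfl
  rw [h1]
  refine isOpen_iInter_of_finite fun β => ?_
  by_cases hβ : β = α
  · have : {u : E3 | β ≠ α → lf n β u < lf n α u} = Set.univ := by
      ext u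
      simp [hβ]
    rw [this]
    exact isOpen_univ
  · have : {u : E3 | β ≠ α → lf n β u < lf n α u} = {u : E3 | lf n β u < lf n α u} := by
      ext u
      simp [hβ]
    rw [this]
    exact isOpen_lt (egau_lf_cont β) (egau_lf_cont α)

theorem act_closed (α : A × Bool) : IsClosed {u : E3 | Act n α u} := by
  have h1 : {u : E3 | Act n α u} = ⋂ β : A × Bool, {u : E3 | lf n β u ≤ lf n α u} := by
    ext u
    simp only [Set.mem_setOf_eq, Set.mem_iInter]
    rfl
  rw [h1]
  exact isClosed_iInter fun β => isClosed_le (egau_lf_cont β) (egau_lf_cont α)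

theorem psi_gg (hG : Gnr n) {u : E3} (hu : u ≠ 0) : gg n (psi n u) = 1 := by
  unfold psi
  rw [gg_smul hG (inv_nonneg.mpr (gg_pos hG hu).le), inv_mul_cancel₀ (gg_pos hG hu).ne']

theorem psi_smul (hG : Gnr n) {c : ℝ} (hc : 0 < c) (u : E3) : psi n (c • u) = psi n u := by
  unfold psi
  rw [gg_smul hG hc.le, smul_smul, mul_inv, mul_comm c⁻¹, mul_assoc, inv_mul_cancel₀ hc.ne', mul_one]

theorem psi_neg (hG : Gnr n) (u : E3) : psi n (-u) = -psi n u := by
  unfold psi
  rw [gg_neg hG, smul_neg]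

theorem psi_self {u : E3} (hu : gg n u = 1) : psi n u = u := by
  unfold psi
  rw [hu, inv_one, one_smul]

theorem psi_cont (hG : Gnr n) : ContinuousOn (psi n) {u | u ≠ 0} := by
  unfold psi
  exact ((gg_cont hG).continuousOn.inv₀ fun u hu => (gg_pos hG hu).ne').smul continuousOn_id

theorem lf_psi (hG : Gnr n) {α : A × Bool} {u : E3} (hu : u ≠ 0) (h : Act n α u) : lf n α (psi n u) = 1 := by
  unfold psi
  rw [lf_smul, (act_iff hG α u).mp h, inv_mul_cancel₀ (gg_pos hG hu).ne']

theorem egau_zero (hG : Gnr n) : gg n 0 = 0 := by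
  have := gg_smul hG le_rfl (0 : E3)
  rwa [zero_smul, zero_mul] at this

theorem bd_ne_zero (hG : Gnr n) {u : E3} (hu : u ∈ bd n) : u ≠ 0 := by
  rintro rfl
  have h1 : gg n 0 = 1 := hu
  rw [egau_zero hG] at h1
  norm_num at h1

theorem egau_low (hG : Gnr n) : ∃ c : ℝ, 0 < c ∧ ∀ u : E3, c * ‖u‖ ≤ gg n u := by
  obtain ⟨x, hx, hmin⟩ := (isCompact_sphere (0 : E3) 1).exists_isMinOn
    ⟨EuclideanSpace.single (0 : Fin 3) (1 : ℝ), by rw [mem_sphere_zero_iff_norm, egau_e]⟩ (gg_cont hG).continuousOn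
  have hx0 : x ≠ 0 := by
    rw [← norm_ne_zero_iff, mem_sphere_zero_iff_norm.mp hx]
    norm_num
  refine ⟨gg n x, gg_pos hG hx0, fun u => ?_⟩
  by_cases hu : u = 0
  · rw [hu, norm_zero, mul_zero, egau_zero hG]
  · have hu' : 0 < ‖u‖ := norm_pos_iff.mpr hu
    have h1 : gg n x ≤ gg n (‖u‖⁻¹ • u) := hmin (by
      rw [mem_sphere_zero_iff_norm, norm_smul, norm_inv, norm_norm, inv_mul_cancel₀ hu'.ne'])
    rw [gg_smul hG (inv_nonneg.mpr hu'.le)] at h1
    calc gg n x * ‖u‖ ≤ (‖u‖⁻¹ * gg n u) * ‖u‖ := mul_le_mul_of_nonneg_right h1 hu'.le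
      _ = gg n u := by field_simp

theorem egau_compact (hG : Gnr n) : IsCompact {u : E3 | gg n u ≤ 1} := by
  obtain ⟨c, hc, hlow⟩ := egau_low hG
  refine Metric.isCompact_of_isClosed_isBounded (isClosed_le (gg_cont hG) continuous_const) ?_
  refine (Metric.isBounded_closedBall (x := (0 : E3)) (r := 1 / c)).subset ?_
  intro u hu
  rw [mem_closedBall_zero_iff, le_div_iff₀ hc, mul_comm]
  exact (hlow u).trans hu

theorem bd_compact (hG : Gnr n) : IsCompact (bd n) :=
  (egau_compact hG).of_isClosed_subset (isClosed_eq (gg_cont hG) continuous_const) fun _ hu => le_of_eq hu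

theorem bd_neg (hG : Gnr n) {u : E3} (hu : u ∈ bd n) : -u ∈ bd n := by
  show gg n (-u) = 1
  rw [gg_neg hG]
  exact hu

/-- The polytope is a symmetric convex body with boundary `bd n`. -/
theorem poly_body (hG : Gnr n) : IsCompact {u : E3 | gg n u ≤ 1} ∧ Convex ℝ {u : E3 | gg n u ≤ 1} ∧
    (interior {u : E3 | gg n u ≤ 1}).Nonempty ∧ frontier {u : E3 | gg n u ≤ 1} = bd n := by
  have hopen : IsOpen {u : E3 | gg n u < 1} := isOpen_lt (gg_cont hG) continuous_const
  have hint : interior {u : E3 | gg n u ≤ 1} = {u : E3 | gg n u < 1} := by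
    refine Set.Subset.antisymm ?_ (interior_maximal (fun u (hu : gg n u < 1) => (show gg n u ≤ 1 from hu.le)) hopen)
    intro u hu
    have h0 : u ∈ {u : E3 | gg n u ≤ 1} := interior_subset hu
    have h1 : gg n u ≤ 1 := h0
    refine lt_of_le_of_ne h1 ?_
    intro h2
    have h3 : {u : E3 | gg n u ≤ 1} ∈ nhds ((1 : ℝ) • u) := by
      rw [one_smul]
      exact mem_interior_iff_mem_nhds.mp hu
    have h4 : Filter.Tendsto (fun t : ℝ => t • u) (nhds 1) (nhds ((1 : ℝ) • u)) :=
      (continuous_id.smul continuous_const).continuousAt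
    obtain ⟨ε, hε, h5⟩ := Metric.eventually_nhds_iff.mp (h4.eventually h3)
    have h6 := h5 (y := 1 + ε / 2) (by rw [Real.dist_eq, abs_of_nonneg (by linarith)]; linarith)
    have h7 : gg n ((1 + ε / 2) • u) ≤ 1 := h6
    rw [gg_smul hG (by linarith), h2] at h7
    linarith
  refine ⟨egau_compact hG, ?_, ?_, ?_⟩
  · intro u hu v hv a b ha hb hab
    show gg n (a • u + b • v) ≤ 1
    refine (gg_add hG _ _).trans ?_
    rw [gg_smul hG ha, gg_smul hG hb]
    have hu' : gg n u ≤ 1 := hu
    have hv' : gg n v ≤ 1 := hv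
    nlinarith [mul_le_mul_of_nonneg_left hu' ha, mul_le_mul_of_nonneg_left hv' hb]
  · rw [hint]
    exact ⟨0, by show gg n 0 < 1; rw [egau_zero hG]; norm_num⟩
  · rw [(isClosed_le (gg_cont hG) continuous_const).frontier_eq, hint]
    ext u
    constructor
    · rintro ⟨h1, h2⟩
      exact le_antisymm h1 (not_lt.mp h2)
    · intro h1
      exact ⟨le_of_eq h1, fun h2 => absurd h1 (ne_of_lt h2)⟩

end H47A
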