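import Pool.Agent.Lib.H47A.BDefs

/-! # H47A, chunk EHALF (M): half angles from the curvatures
h k := a/2 + (1/2) * (sum of kp j over 1 <= j <= k) for k >= 0 and a/2 - (1/2) * (sum over k < j <= 0) for k < 0, where om 0 = exp(i a) (norm one; a = arg);
or use the existence of a primitive on Z (Int.induction / `∑ j ∈ Finset.Ioc`). h k - h (k-1) = kp k / 2. exp(2 i h k) = om k by induction in both
directions from the recursion. h (k+m) - h k is independent of k (kp is m-periodic) and twice it is (1/2) (sum of kp over 2m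
consecutive integers) = 2 pi: so it is pi. -/

open Real Finset

namespace H47A

/-- a primitive on the integers -/
theorem ehalf_prim (kp : ℤ → ℝ) (a : ℝ) : ∃ h : ℤ → ℝ, h 0 = a ∧ ∀ k, h k - h (k - 1) = kp k / 2 := by
  refine ⟨fun k => a + 1 / 2 * ((∑ j ∈ range k.toNat, kp (j + 1)) - ∑ j ∈ range (-k).toNat, kp (-(j : ℤ))), by simp, ?_⟩
  intro k
  rcases lt_trichotomy k 0 with hk | hk | hk
  · obtain ⟨n, hn⟩ : ∃ n : ℕ, -k = (n : ℤ) + 1 := ⟨(-k - 1).toNat, by omega⟩
    have h1 : k.toNat = 0 := by omega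
    have h2 : (k - 1).toNat = 0 := by omega
    have h3 : (-k).toNat = n + 1 := by omega
    have h4 : (-(k - 1)).toNat = n + 1 + 1 := by omega
    simp only [h1, h2, h3, h4, range_zero, sum_empty]
    rw [sum_range_succ _ (n + 1)]
    have h5 : (-((n + 1 : ℕ) : ℤ)) = k := by push_cast; omega
    rw [h5]
    ring
  · subst hk
    simp only [Int.toNat_zero, range_zero, sum_empty, neg_zero]
    have h2 : ((0 : ℤ) - 1).toNat = 0 := by decide
    have h4 : (-((0 : ℤ) - 1)).toNat = 1 := by decide
    simp only [h2, h4, range_zero, sum_empty, sum_range_one]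
    simp
    ring
  · obtain ⟨n, hn⟩ : ∃ n : ℕ, k = (n : ℤ) + 1 := ⟨(k - 1).toNat, by omega⟩
    have h1 : k.toNat = n + 1 := by omega
    have h2 : (k - 1).toNat = n := by omega
    have h3 : (-k).toNat = 0 := by omega
    have h4 : (-(k - 1)).toNat = 0 := by omega
    simp only [h1, h2, h3, h4, range_zero, sum_empty]
    rw [sum_range_succ _ n, ← hn]
    ring

theorem exists_half {m : ℕ} (hm : 2 ≤ m) {om : ℤ → ℂ} {kp : ℤ → ℝ} (h0 : ∀ k, ‖om k‖ = 1) (h1 : ∀ k, 0 ≤ kp k)
    (h2 : ∀ k, kp k < 2 * π) (h3 : ∀ k, kp (k + m) = kp k) (h4 : ∑ k ∈ range (2 * m), kp k = 4 * π)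
    (h5 : ∀ k, om k = om (k - 1) * Complex.exp ((kp k : ℂ) * Complex.I)) :
    ∃ h : ℤ → ℝ, IsHalf m h ∧ ∀ k, Complex.exp (((2 * h k : ℝ) : ℂ) * Complex.I) = om k := by
  obtain ⟨h, hh0, hh⟩ := ehalf_prim kp ((om 0).arg / 2)
  have hz : om 0 = Complex.exp (((2 * h 0 : ℝ) : ℂ) * Complex.I) := by
    rw [hh0]
    have := Complex.norm_mul_exp_arg_mul_I (om 0)
    rw [h0 0] at this
    rw [← this]
    push_cast
    rw [one_mul, Complex.arg_exp_mul_I, (toIocMod_eq_self two_pi_pos).2]
    · congr 2
      ring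
    · refine ⟨Complex.neg_pi_lt_arg _, ?_⟩
      have := Complex.arg_le_pi (om 0)
      linarith
  have hexp : ∀ k : ℤ, Complex.exp (((2 * h k : ℝ) : ℂ) * Complex.I) =
      Complex.exp (((2 * h (k - 1) : ℝ) : ℂ) * Complex.I) * Complex.exp ((kp k : ℂ) * Complex.I) := by
    intro k
    rw [← Complex.exp_add]
    congr 1
    have := hh k
    have h6 : 2 * h k = 2 * h (k - 1) + kp k := by linarith
    rw [h6]
    push_cast
    ring
  have hall : ∀ k : ℤ, Complex.exp (((2 * h k : ℝ) : ℂ) * Complex.I) = om k := by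
    intro k
    induction k using Int.induction_on with
    | zero => exact hz.symm
    | succ i ih =>
      rw [hexp, h5, show ((i : ℤ) + 1 - 1) = i by ring, ih]
    | pred i ih =>
      have e1 := hexp (-(i : ℤ))
      have e2 := h5 (-(i : ℤ))
      rw [ih, e2] at e1
      exact (mul_right_cancel₀ (Complex.exp_ne_zero _) e1).symm
  have hstep : ∀ k : ℤ, h (k + m) - h k = h (k - 1 + m) - h (k - 1) := by
    intro k
    have e1 := hh (k + m)
    have e2 := hh k
    rw [h3 k] at e1
    rw [show k + (m : ℤ) - 1 = k - 1 + m by ring] at e1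
    linarith
  have hconst : ∀ k : ℤ, h (k + m) - h k = h (0 + m) - h 0 := by
    intro k
    induction k using Int.induction_on with
    | zero => rfl
    | succ i ih => rw [hstep, show ((i : ℤ) + 1 - 1) = i by ring, ih]
    | pred i ih => rw [← hstep, ih]
  have hsum : ∀ n : ℕ, h ((n : ℤ) - 1) - h (-1) = 1 / 2 * ∑ k ∈ range n, kp k := by
    intro n
    induction n with
    | zero => simp
    | succ n ih =>
      rw [sum_range_succ, mul_add, ← ih]
      have := hh (n : ℤ)
      push_cast
      rw [show (n : ℤ) + 1 - 1 = n by ring]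
      linarith
  have hper : h (0 + m) - h 0 = π := by
    have e1 := hsum (2 * m)
    rw [h4] at e1
    have e2 := hconst (-1)
    have e3 := hconst (-1 + m)
    push_cast at e1
    rw [show (2 : ℤ) * (m : ℤ) - 1 = -1 + m + m by ring] at e1
    linarith
  refine ⟨h, ⟨hm, ?_, ?_, ?_⟩, hall⟩
  · intro k
    have := hh k
    have := h1 k
    linarith
  · intro k
    have := hh k
    have := h2 k
    linarith
  · intro k
    have := hconst k
    linarith

end H47A
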