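import Pool.Agent.Lib.H47A.ELip

open Real Filter Topology

namespace H47A

variable {A : Type} [Fintype A] [DecidableEq A] {n : A → E3}

/-! # H47A, chunks EHOL1 (M/L), EHOL2 (M), EHOL3 (S/M): the list on small displacements
v with gg v = 1, NV e v; w = v + s d, s > 0 small. By `loc_lst` Lst w = Lst v ++ l, l consists of facets active at v which are not in
Lst v. For a facet a active at v: lf a (w + t e) = 1 + s lf a d + t lf a e. 
LOCAL CLAIM (`loc_crit`): let S be the set of facets active at v (at most three) and w0 in S the one with the largest value at e. For a in S,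
a != w0: a is in Lst (v + s d) for all small s > 0 iff there is tau > 0 with lf a d + tau lf a e > lf b d + tau lf b e for all b in S, b != a.
(If: t = s tau; the facets which are not active at v stay below for s small. Only if (fix one small s): SAct a (v + s d + t e), tau = t/s; this
needs no smallness.) And w0 is in Lst v already.
EHOL1 (three active facets P, Y, Z with lf P e > lf Y e > lf Z e; `hol_det`): write p = lf P d etc. `det3_mul` with (nn P, nn Y, nn Z) and
(v, d, e): det3 P Y Z * det3 v d e = (y - p)(eZ - eP) - (z - p)(eY - eP) =: Delta (first column is 1,1,1).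
Z in the list iff z > p and z > y, or more precisely iff exists tau > 0: z - p > tau (eP - eZ), z - y > tau (eY - eZ): iff z > p and z > y.
Y in the list iff exists tau > 0: y - p > tau (eP - eY) and z - y < tau (eY - eZ): iff y > p and (z - y)/(eY - eZ) < (y - p)/(eP - eY),
and the last inequality is equivalent to Delta < 0.
So: b the largest of lf . d. b = P: l = []. b = Y: l = [Y] (then Delta < 0 automatically, `hol_det`). b = Z: l = [Y,Z] if Delta < 0, [Z]
if Delta > 0 (if Delta < 0 and z > p, z > y then y > p: from (y - p)(eP - eZ) > (z - p)(eP - eY) > 0).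
The list l is strictly decreasing in lf . e with the right elements (as in `lst_eq`). -/

theorem hol_det (P Y Z : A × Bool) {v : E3} (d e : E3) (hP : lf n P v = 1) (hY : lf n Y v = 1) (hZ : lf n Z v = 1) :
    det3 (nn n P) (nn n Y) (nn n Z) * det3 v d e =
      (lf n Y d - lf n P d) * (lf n Z e - lf n P e) - (lf n Z d - lf n P d) * (lf n Y e - lf n P e) := by
  unfold lf at *
  rw [det3_mul, hP, hY, hZ]
  ring

/-- Local criterion, sufficiency. -/
theorem ehol1_if {v e : E3} (d : E3) {α : A × Bool} (hα : Act n α v) {τ : ℝ} (hτ : 0 < τ)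
    (h : ∀ β, β ≠ α → Act n β v → lf n β d + τ * lf n β e < lf n α d + τ * lf n α e) :
    ∀ᶠ s in 𝓝[>] (0 : ℝ), α ∈ Lst n e (v + s • d) := by
  have h3 : ∀ β : A × Bool, ∀ᶠ s : ℝ in 𝓝[>] 0, β ≠ α →
      lf n β (v + s • d + (s * τ) • e) < lf n α (v + s • d + (s * τ) • e) := by
    intro β
    by_cases hβ : β = α
    · exact Eventually.of_forall fun t h => absurd hβ h
    · by_cases hb : Act n β v
      · have h4 := h β hβ hb
        have h5 : lf n β v = lf n α v := le_antisymm (hα β) (hb α)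
        filter_upwards [self_mem_nhdsWithin] with s hs _
        have hs' : (0 : ℝ) < s := hs
        simp only [lf_add, lf_smul, h5]
        nlinarith [mul_pos hs' (sub_pos.2 h4)]
      · have h4 : lf n β v < lf n α v := by
          refine lt_of_le_of_ne (hα β) fun h5 => hb ?_
          intro γ
          rw [h5]
          exact hα γ
        have hc : Continuous fun s : ℝ => lf n α (v + s • d + (s * τ) • e) - lf n β (v + s • d + (s * τ) • e) := by
          simp only [lf_add, lf_smul]
          fun_prop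
        have h6 : (0 : ℝ) < (fun s : ℝ => lf n α (v + s • d + (s * τ) • e) -
            lf n β (v + s • d + (s * τ) • e)) 0 := by
          simp only [zero_smul, zero_mul, add_zero]
          linarith
        have h7 := hc.continuousAt.eventually (lt_mem_nhds h6)
        filter_upwards [h7.filter_mono nhdsWithin_le_nhds] with s hs _
        linarith
  filter_upwards [Filter.eventually_all.2 h3, self_mem_nhdsWithin] with s h5 h6
  have hs : (0 : ℝ) < s := h6
  exact mem_lst.2 ⟨s * τ, mul_pos hs hτ, fun β hβ => h5 β hβ⟩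

/-- Local criterion, necessity. -/
theorem ehol1_only {v e : E3} (d : E3) {α : A × Bool} (hα : Act n α v) {s : ℝ} (h : α ∈ Lst n e (v + s • d)) :
    ∃ t : ℝ, 0 < t ∧ ∀ β, β ≠ α → Act n β v → s * lf n β d + t * lf n β e < s * lf n α d + t * lf n α e := by
  obtain ⟨t, ht, hs⟩ := mem_lst.1 h
  refine ⟨t, ht, fun β hβ hb => ?_⟩
  have h1 := hs β hβ
  have h5 : lf n β v = lf n α v := le_antisymm (hα β) (hb α)
  simp only [lf_add, lf_smul, h5] at h1
  linarith

theorem loc3 (hG : Gnr n) {e v : E3} (he : Gen n e) (hv : NV n e v) (hg : gg n v = 1) {P Y Z : A × Bool}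
    (hPY : P ≠ Y) (hYZ : Y ≠ Z) (hPZ : P ≠ Z) (hP : Act n P v) (hY : Act n Y v) (hZ : Act n Z v)
    (h1 : lf n Y e < lf n P e) (h2 : lf n Z e < lf n Y e) (d : E3)
    (hD : det3 (nn n P) (nn n Y) (nn n Z) * det3 v d e ≠ 0) :
    ∀ᶠ s in 𝓝[>] (0 : ℝ),
      ((lf n Y d < lf n P d ∧ lf n Z d < lf n P d) → Lst n e (v + s • d) = Lst n e v) ∧
      ((lf n P d < lf n Y d ∧ lf n Z d < lf n Y d) → Lst n e (v + s • d) = Lst n e v ++ [Y]) ∧
      ((lf n P d < lf n Z d ∧ lf n Y d < lf n Z d) →
        (det3 (nn n P) (nn n Y) (nn n Z) * det3 v d e < 0 → Lst n e (v + s • d) = Lst n e v ++ [Y, Z]) ∧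
        (0 < det3 (nn n P) (nn n Y) (nn n Z) * det3 v d e → Lst n e (v + s • d) = Lst n e v ++ [Z])) := by
  have hv0 : v ≠ 0 := bd_ne_zero hG hg
  have hP1 : lf n P v = 1 := by rw [(act_iff hG P v).1 hP, hg]
  have hY1 : lf n Y v = 1 := by rw [(act_iff hG Y v).1 hY, hg]
  have hZ1 : lf n Z v = 1 := by rw [(act_iff hG Z v).1 hZ, hg]
  have hdet := hol_det P Y Z d e hP1 hY1 hZ1
  rw [hdet]
  -- memberships in the list of v
  have hYn : Y ∉ Lst n e v := by
    intro h
    obtain ⟨t, ht, hs⟩ := mem_lst.1 h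
    have h3 := hs P hPY
    rw [lf_add, lf_add, lf_smul, lf_smul, hP1, hY1] at h3
    nlinarith
  have hZn : Z ∉ Lst n e v := by
    intro h
    obtain ⟨t, ht, hs⟩ := mem_lst.1 h
    have h3 := hs P hPZ
    rw [lf_add, lf_add, lf_smul, lf_smul, hP1, hZ1] at h3
    nlinarith
  have hPm : P ∈ Lst n e v := by
    have h3 := ehol1_if (n := n) (v := v) (e := e) 0 hP one_pos (fun β hβ hb => by
      rcases no_four hG hv0 hP hY hZ hb hPY hPZ hYZ with h4 | h4 | h4
      · exact absurd h4 hβ
      · rw [h4]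
        have h5 : ∀ γ : A × Bool, lf n γ 0 = 0 := fun γ => inner_zero_right _
        rw [h5, h5]
        linarith
      · rw [h4]
        have h5 : ∀ γ : A × Bool, lf n γ 0 = 0 := fun γ => inner_zero_right _
        rw [h5, h5]
        linarith)
    obtain ⟨s, hs⟩ := h3.exists
    rwa [smul_zero, add_zero] at hs
  -- tendsto
  have hlim : Tendsto (fun s : ℝ => v + s • d) (𝓝[>] 0) (𝓝 v) := by
    have hc : Continuous fun s : ℝ => v + s • d := by fun_prop
    have h3 := hc.tendsto 0
    simp only [zero_smul, add_zero] at h3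
    exact h3.mono_left nhdsWithin_le_nhds
  have hsub := hlim.eventually (loc_sub (n := n) e v)
  have hnew := hlim.eventually (loc_new hG he hv)
  -- assembling
  have hmain : ∀ s : ℝ, (∀ α, α ∈ Lst n e v → α ∈ Lst n e (v + s • d)) →
      (∀ β, β ∈ Lst n e (v + s • d) → β ∉ Lst n e v → Act n β v) →
      ∀ l : List (A × Bool), (l.Pairwise fun α β => lf n β e < lf n α e) → (∀ β ∈ l, β = Y ∨ β = Z) →
      (Y ∈ Lst n e (v + s • d) ↔ Y ∈ l) → (Z ∈ Lst n e (v + s • d) ↔ Z ∈ l) →
      Lst n e (v + s • d) = Lst n e v ++ l := by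
    intro s hs1 hs2 l hl hlm hy hz
    refine lst_eq he ?_ ?_
    · rw [List.pairwise_append]
      refine ⟨lst_pairwise he v, hl, fun a ha b hb => ?_⟩
      rcases hlm b hb with h3 | h3
      · rw [h3]
        exact loc_order hG ha hY hYn
      · rw [h3]
        exact loc_order hG ha hZ hZn
    · intro α
      rw [← mem_lst, List.mem_append]
      constructor
      · rintro (h3 | h3)
        · exact hs1 α h3
        · rcases hlm α h3 with h4 | h4
          · rw [h4] at h3 ⊢
            exact hy.2 h3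
          · rw [h4] at h3 ⊢
            exact hz.2 h3
      · intro h3
        by_cases h4 : α ∈ Lst n e v
        · exact Or.inl h4
        · right
          rcases no_four hG hv0 hP hY hZ (hs2 α h3 h4) hPY hPZ hYZ with h5 | h5 | h5
          · rw [h5] at h4
            exact absurd hPm h4
          · rw [h5] at h3 ⊢
            exact hy.1 h3
          · rw [h5] at h3 ⊢
            exact hz.1 h3
  have hif : ∀ (α : A × Bool), (α = P ∨ α = Y ∨ α = Z) → ∀ τ : ℝ, 0 < τ →
      (P ≠ α → lf n P d + τ * lf n P e < lf n α d + τ * lf n α e) →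
      (Y ≠ α → lf n Y d + τ * lf n Y e < lf n α d + τ * lf n α e) →
      (Z ≠ α → lf n Z d + τ * lf n Z e < lf n α d + τ * lf n α e) →
      ∀ᶠ s in 𝓝[>] (0 : ℝ), α ∈ Lst n e (v + s • d) := by
    intro α hα τ hτ a1 a2 a3
    have hact : Act n α v := by
      rcases hα with h | h | h <;> rw [h] <;> assumption
    refine ehol1_if d hact hτ fun β hβ hb => ?_
    rcases no_four hG hv0 hP hY hZ hb hPY hPZ hYZ with h5 | h5 | h5
    · rw [h5] at hβ ⊢
      exact a1 hβ
    · rw [h5] at hβ ⊢
      exact a2 hβ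
    · rw [h5] at hβ ⊢
      exact a3 hβ
  set p := lf n P d with hp
  set y := lf n Y d with hy
  set z := lf n Z d with hz
  set eP := lf n P e with heP
  set eY := lf n Y e with heY
  set eZ := lf n Z e with heZ
  have hYm2 : (p < y ∧ z < y) → ∀ᶠ s in 𝓝[>] (0 : ℝ), Y ∈ Lst n e (v + s • d) := by
    rintro ⟨a1, a2⟩
    have hpos : 0 < eP - eY := by linarith
    have hτ : 0 < (y - p) / (2 * (eP - eY)) := div_pos (by linarith) (by linarith)
    have hτ2 : (y - p) / (2 * (eP - eY)) * (eP - eY) = (y - p) / 2 := by field_simp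
    refine hif Y (Or.inr (Or.inl rfl)) _ hτ (fun _ => ?_) (fun h => absurd rfl h) (fun _ => ?_)
    · nlinarith
    · nlinarith [mul_pos hτ (sub_pos.2 h2)]
  have hZm3 : (p < z ∧ y < z) → ∀ᶠ s in 𝓝[>] (0 : ℝ), Z ∈ Lst n e (v + s • d) := by
    rintro ⟨a1, a2⟩
    have hpos1 : 0 < eP - eZ := by linarith
    have hpos2 : 0 < eY - eZ := by linarith
    have hτ1 : 0 < (z - p) / (2 * (eP - eZ)) := div_pos (by linarith) (by linarith)
    have hτ2 : 0 < (z - y) / (2 * (eY - eZ)) := div_pos (by linarith) (by linarith)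
    have e1 : (z - p) / (2 * (eP - eZ)) * (eP - eZ) = (z - p) / 2 := by field_simp
    have e2 : (z - y) / (2 * (eY - eZ)) * (eY - eZ) = (z - y) / 2 := by field_simp
    refine hif Z (Or.inr (Or.inr rfl)) (min _ _) (lt_min hτ1 hτ2) (fun _ => ?_) (fun _ => ?_) (fun h => absurd rfl h)
    · have := mul_le_mul_of_nonneg_right (min_le_left ((z - p) / (2 * (eP - eZ))) ((z - y) / (2 * (eY - eZ)))) hpos1.le
      nlinarith
    · have := mul_le_mul_of_nonneg_right (min_le_right ((z - p) / (2 * (eP - eZ))) ((z - y) / (2 * (eY - eZ)))) hpos2.le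
      nlinarith
  have hYm3 : (p < z ∧ y < z) → (y - p) * (eZ - eP) - (z - p) * (eY - eP) < 0 →
      ∀ᶠ s in 𝓝[>] (0 : ℝ), Y ∈ Lst n e (v + s • d) := by
    rintro ⟨a1, a2⟩ a3
    have hpos1 : 0 < eP - eY := by linarith
    have hpos2 : 0 < eY - eZ := by linarith
    have hlt : (z - y) / (eY - eZ) < (y - p) / (eP - eY) := by
      rw [div_lt_div_iff₀ hpos2 hpos1]
      nlinarith
    obtain ⟨τ, b1, b2⟩ := exists_between hlt
    have hτ : 0 < τ := lt_trans (div_pos (by linarith) hpos2) b1
    rw [div_lt_iff₀ hpos2] at b1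
    rw [lt_div_iff₀ hpos1] at b2
    refine hif Y (Or.inr (Or.inl rfl)) τ hτ (fun _ => ?_) (fun h => absurd rfl h) (fun _ => ?_)
    · nlinarith
    · nlinarith
  have key1 : ∀ᶠ s in 𝓝[>] (0 : ℝ), (p < y ∧ z < y) → Y ∈ Lst n e (v + s • d) := by
    by_cases h : p < y ∧ z < y
    · filter_upwards [hYm2 h] with s hs _ using hs
    · exact Eventually.of_forall fun s h' => absurd h' h
  have key2 : ∀ᶠ s in 𝓝[>] (0 : ℝ), (p < z ∧ y < z) → Z ∈ Lst n e (v + s • d) := by
    by_cases h : p < z ∧ y < z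
    · filter_upwards [hZm3 h] with s hs _ using hs
    · exact Eventually.of_forall fun s h' => absurd h' h
  have key3 : ∀ᶠ s in 𝓝[>] (0 : ℝ), (p < z ∧ y < z) → (y - p) * (eZ - eP) - (z - p) * (eY - eP) < 0 →
      Y ∈ Lst n e (v + s • d) := by
    by_cases h : (p < z ∧ y < z) ∧ (y - p) * (eZ - eP) - (z - p) * (eY - eP) < 0
    · filter_upwards [hYm3 h.1 h.2] with s hs _ _ using hs
    · exact Eventually.of_forall fun s h' h'' => absurd ⟨h', h''⟩ h
  filter_upwards [hsub, hnew, key1, key2, key3, self_mem_nhdsWithin] with s hs1 hs2 k1 k2 k3 hs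
  have hs0 : (0 : ℝ) < s := hs
  have hYnot : ∀ _ : Y ∈ Lst n e (v + s • d), ∃ t : ℝ, 0 < t ∧ s * p + t * eP < s * y + t * eY ∧
      s * z + t * eZ < s * y + t * eY := by
    intro h
    obtain ⟨t, ht, h3⟩ := ehol1_only d hY h
    exact ⟨t, ht, h3 P hPY hP, h3 Z (Ne.symm hYZ) hZ⟩
  have hZnot : ∀ _ : Z ∈ Lst n e (v + s • d), ∃ t : ℝ, 0 < t ∧ s * p + t * eP < s * z + t * eZ ∧
      s * y + t * eY < s * z + t * eZ := by
    intro h
    obtain ⟨t, ht, h3⟩ := ehol1_only d hZ h
    exact ⟨t, ht, h3 P hPZ hP, h3 Y hYZ hY⟩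
  refine ⟨fun h => ?_, fun h => ?_, fun h => ⟨fun h3 => ?_, fun h3 => ?_⟩⟩
  · rw [hmain s hs1 hs2 [] List.Pairwise.nil (fun β hβ => absurd hβ List.not_mem_nil) ?_ ?_, List.append_nil]
    · refine ⟨fun h4 => ?_, fun h4 => absurd h4 List.not_mem_nil⟩
      obtain ⟨t, ht, h5, -⟩ := hYnot h4
      exfalso
      nlinarith [mul_pos hs0 (sub_pos.2 h.1), mul_pos ht (sub_pos.2 h1)]
    · refine ⟨fun h4 => ?_, fun h4 => absurd h4 List.not_mem_nil⟩
      obtain ⟨t, ht, h5, -⟩ := hZnot h4
      exfalso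
      nlinarith [mul_pos hs0 (sub_pos.2 h.2), mul_pos ht (sub_pos.2 h1), mul_pos ht (sub_pos.2 h2)]
  · refine hmain s hs1 hs2 [Y] (List.pairwise_singleton _ _) (fun β hβ => Or.inl (List.mem_singleton.1 hβ)) ?_ ?_
    · exact ⟨fun _ => List.mem_singleton_self _, fun _ => k1 h⟩
    · refine ⟨fun h4 => ?_, fun h4 => absurd (List.mem_singleton.1 h4).symm hYZ⟩
      obtain ⟨t, ht, -, h5⟩ := hZnot h4
      exfalso
      nlinarith [mul_pos hs0 (sub_pos.2 h.2), mul_pos ht (sub_pos.2 h2)]
  · refine hmain s hs1 hs2 [Y, Z] ?_ ?_ ?_ ?_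
    · simp only [List.pairwise_cons, List.mem_singleton, List.not_mem_nil, false_imp_iff, implies_true,
        List.Pairwise.nil, and_true]
      rintro a rfl
      exact h2
    · intro β hβ
      simpa using hβ
    · exact ⟨fun _ => by simp, fun _ => k3 h h3⟩
    · exact ⟨fun _ => by simp, fun _ => k2 h⟩
  · refine hmain s hs1 hs2 [Z] (List.pairwise_singleton _ _) (fun β hβ => Or.inr (List.mem_singleton.1 hβ)) ?_ ?_
    · refine ⟨fun h4 => ?_, fun h4 => absurd (List.mem_singleton.1 h4) hYZ⟩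
      obtain ⟨t, ht, h5, h6⟩ := hYnot h4
      exfalso
      have g1 : t * (eP - eY) < s * (y - p) := by linarith
      have g2 : s * (z - y) < t * (eY - eZ) := by linarith
      have g3 := mul_lt_mul_of_pos_right g1 (show 0 < eY - eZ by linarith)
      have g4 := mul_lt_mul_of_pos_right g2 (show 0 < eP - eY by linarith)
      have g5 : s * ((z - y) * (eP - eY)) < s * ((y - p) * (eY - eZ)) := by nlinarith
      have g6 := lt_of_mul_lt_mul_left g5 hs0.le
      nlinarith
    · exact ⟨fun _ => List.mem_singleton_self _, fun _ => k2 h⟩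

end H47A
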