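import Pool.Agent.Lib.H47A.EHol1

/-! # H47A, chunk EHOL2 (M): transition products at a vertex and its antipode
`loc2`, `loc1`: as `loc3` for two, one active facets.
`hol3_one`: from `loc3`: the last facet of Lst v is P (`lst_last`); dev (v + s d) = devAux P (dev v).2 l (`dev_append`), `dev_lin`.
`hol3`: apply `hol3_one` at v with (P,Y,Z), d and at -v with (ng Z, ng Y, ng P), -d: values at e: lf (ng Z) e = - lf Z e etc. (so the
order is ng Z > ng Y > ng P), lf (ng Z) (-d) = lf Z d, nn (ng .) = - nn, det3(-Z,-Y,-P) det3(-v,-d,e) = det3 (P,Y,Z) det3 (v,d,e) (the same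
Delta). tr (ng a) (ng b) = tr b a (`tr_ng`). Cases: largest lf . d at P: 1 * (Delta < 0: tr(ngZ,ngY) tr(ngY,ngP) = tr Y Z tr P Y; Delta > 0:
tr(ngZ,ngP) = tr P Z). At Y: tr P Y * tr Y Z, and Delta < 0 (`hol_det`). At Z: (Delta < 0: tr P Y tr Y Z, Delta > 0: tr P Z) * 1. -/

open Real Filter Topology

namespace H47A

variable {A : Type} [Fintype A] [DecidableEq A] {n : A → E3} {fr : A → E3}

/-- Development along an extension of the list. -/
theorem ehol2_app {e : E3} (he : Gen n e) {α₀ : A × Bool} (h0 : SAct n α₀ e) {v w : E3} {P : A × Bool}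
    {l : List (A × Bool)} (hl : (Lst n e v).getLast? = some P) (h : Lst n e w = Lst n e v ++ l) :
    (dev n fr e α₀ w).2.1 = (dev n fr e α₀ v).2.1 * (devAux n fr P (1, 0) l).2.1 := by
  have h1 := lst_head he h0 v
  have h2 : (Lst n e w).tail = (Lst n e v).tail ++ l := by
    rw [h]
    conv_lhs => rw [h1]
    rfl
  have h3 := dev_fst (n := n) (fr := fr) α₀ (1, 0) (Lst n e v).tail
  rw [← h1, hl] at h3
  have h4 := Option.some.inj h3
  unfold dev
  rw [h2, dev_append, dev_lin, ← h4]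

theorem ehol2_d1 (P Y : A × Bool) : (devAux n fr P (1, 0) [Y]).2.1 = tr n fr P Y := by
  show (1 : ℂ) * tr n fr P Y = _
  rw [one_mul]

theorem ehol2_d2 (P Y Z : A × Bool) : (devAux n fr P (1, 0) [Y, Z]).2.1 = tr n fr P Y * tr n fr Y Z := by
  show (1 : ℂ) * tr n fr P Y * tr n fr Y Z = _
  rw [one_mul]

theorem hol3_one (hG : Gnr n) {e v : E3} (he : Gen n e) {α₀ : A × Bool} (h0 : SAct n α₀ e)
    (hv : NV n e v) (hg : gg n v = 1) {P Y Z : A × Bool}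
    (hPY : P ≠ Y) (hYZ : Y ≠ Z) (hPZ : P ≠ Z) (hP : Act n P v) (hY : Act n Y v) (hZ : Act n Z v)
    (h1 : lf n Y e < lf n P e) (h2 : lf n Z e < lf n Y e) (d : E3)
    (hD : det3 (nn n P) (nn n Y) (nn n Z) * det3 v d e ≠ 0) :
    ∀ᶠ s in 𝓝[>] (0 : ℝ),
      ((lf n Y d < lf n P d ∧ lf n Z d < lf n P d) → (dev n fr e α₀ (v + s • d)).2.1 = (dev n fr e α₀ v).2.1) ∧
      ((lf n P d < lf n Y d ∧ lf n Z d < lf n Y d) →
        (dev n fr e α₀ (v + s • d)).2.1 = (dev n fr e α₀ v).2.1 * tr n fr P Y) ∧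
      ((lf n P d < lf n Z d ∧ lf n Y d < lf n Z d) →
        (det3 (nn n P) (nn n Y) (nn n Z) * det3 v d e < 0 →
          (dev n fr e α₀ (v + s • d)).2.1 = (dev n fr e α₀ v).2.1 * (tr n fr P Y * tr n fr Y Z)) ∧
        (0 < det3 (nn n P) (nn n Y) (nn n Z) * det3 v d e →
          (dev n fr e α₀ (v + s • d)).2.1 = (dev n fr e α₀ v).2.1 * tr n fr P Z)) := by
  have hv0 : v ≠ 0 := bd_ne_zero hG hg
  have hlast : (Lst n e v).getLast? = some P := by
    refine lst_last he hP fun β hβ hb => ?_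
    rcases no_four hG hv0 hP hY hZ hb hPY hPZ hYZ with h5 | h5 | h5
    · exact absurd h5 hβ
    · rw [h5]
      exact h1
    · rw [h5]
      exact h2.trans h1
  filter_upwards [loc3 hG he hv hg hPY hYZ hPZ hP hY hZ h1 h2 d hD] with s hs
  refine ⟨fun h => ?_, fun h => ?_, fun h => ⟨fun h' => ?_, fun h' => ?_⟩⟩
  · unfold dev
    rw [hs.1 h]
  · rw [ehol2_app he h0 hlast (hs.2.1 h), ehol2_d1]
  · rw [ehol2_app he h0 hlast ((hs.2.2 h).1 h'), ehol2_d2]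
  · rw [ehol2_app he h0 hlast ((hs.2.2 h).2 h'), ehol2_d1]

theorem ehol2_det (P Y Z v d e : E3) : det3 (-Z) (-Y) (-P) * det3 (-v) (-d) e = det3 P Y Z * det3 v d e := by
  unfold det3
  simp only [inner3, evec_c0, evec_c1, evec_c2, PiLp.neg_apply]
  ring

theorem ehol2_actng (hG : Gnr n) {α : A × Bool} {v : E3} (h : Act n α v) : Act n (ng α) (-v) := by
  rw [act_iff hG] at h ⊢
  rw [lf_ng, lf_neg, neg_neg, gg_neg hG, h]

theorem ehol2_lf (α : A × Bool) (d : E3) : lf n (ng α) (-d) = lf n α d := by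
  rw [lf_ng, lf_neg, neg_neg]

/-- Transition factor at a point with three active facets. -/
noncomputable def R3 (n : A → E3) (fr : A → E3) (P Y Z : A × Bool) (Δ : ℝ) : ℂ :=
  if Δ < 0 then tr n fr P Y * tr n fr Y Z else tr n fr P Z

theorem hol3 (hG : Gnr n) (hf : Frm n fr) {e v : E3} (he : Gen n e) {α₀ : A × Bool} (h0 : SAct n α₀ e)
    (hv : NV n e v) (hz : NZ e v) (hv' : NV n e (-v)) (hz' : NZ e (-v)) (hg : gg n v = 1) {P Y Z : A × Bool}
    (hPY : P ≠ Y) (hYZ : Y ≠ Z) (hPZ : P ≠ Z) (hP : Act n P v) (hY : Act n Y v) (hZ : Act n Z v)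
    (h1 : lf n Y e < lf n P e) (h2 : lf n Z e < lf n Y e) (d : E3)
    (hD : det3 (nn n P) (nn n Y) (nn n Z) * det3 v d e ≠ 0) {b : A × Bool} (hb : b = P ∨ b = Y ∨ b = Z)
    (hb' : ∀ c, c ≠ b → Act n c v → lf n c d < lf n b d) :
    ∀ᶠ s in 𝓝[>] (0 : ℝ), (dev n fr e α₀ (v + s • d)).2.1 * (dev n fr e α₀ (-(v + s • d))).2.1 =
      (dev n fr e α₀ v).2.1 * (dev n fr e α₀ (-v)).2.1 * R3 n fr P Y Z (det3 (nn n P) (nn n Y) (nn n Z) * det3 v d e) := by
  have hv0 : v ≠ 0 := bd_ne_zero hG hg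
  have k1 := hol3_one (fr := fr) hG he h0 hv hg hPY hYZ hPZ hP hY hZ h1 h2 d hD
  have hD' : det3 (nn n (ng Z)) (nn n (ng Y)) (nn n (ng P)) * det3 (-v) (-d) e =
      det3 (nn n P) (nn n Y) (nn n Z) * det3 v d e := by
    rw [nn_ng, nn_ng, nn_ng, ehol2_det]
  have k2 := hol3_one (fr := fr) hG he h0 hv' (by rw [gg_neg hG, hg]) (P := ng Z) (Y := ng Y) (Z := ng P)
    (eact_ng_inj (Ne.symm hYZ)) (eact_ng_inj (Ne.symm hPY)) (eact_ng_inj (Ne.symm hPZ)) (ehol2_actng hG hZ)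
    (ehol2_actng hG hY) (ehol2_actng hG hP) (by rw [lf_ng, lf_ng]; linarith) (by rw [lf_ng, lf_ng]; linarith) (-d)
    (by rw [hD']; exact hD)
  rw [hD'] at k2
  simp only [ehol2_lf] at k2
  have t1 : tr n fr (ng Z) (ng Y) = tr n fr Y Z := tr_ng hG hf (act_fst_ne hG (Ne.symm hYZ) hv0 hZ hY)
  have t2 : tr n fr (ng Y) (ng P) = tr n fr P Y := tr_ng hG hf (act_fst_ne hG (Ne.symm hPY) hv0 hY hP)
  have t3 : tr n fr (ng Z) (ng P) = tr n fr P Z := tr_ng hG hf (act_fst_ne hG (Ne.symm hPZ) hv0 hZ hP)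
  rw [t1, t2, t3] at k2
  have hP1 : lf n P v = 1 := by rw [(act_iff hG P v).1 hP, hg]
  have hY1 : lf n Y v = 1 := by rw [(act_iff hG Y v).1 hY, hg]
  have hZ1 : lf n Z v = 1 := by rw [(act_iff hG Z v).1 hZ, hg]
  have hdet := hol_det P Y Z d e hP1 hY1 hZ1
  filter_upwards [k1, k2] with s s1 s2
  have hneg : -(v + s • d) = -v + s • -d := by
    rw [neg_add, smul_neg]
  rw [hneg]
  rcases hb with rfl | rfl | rfl
  · have a1 := hb' Y (Ne.symm hPY) hY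
    have a2 := hb' Z (Ne.symm hPZ) hZ
    rw [s1.1 ⟨a1, a2⟩]
    unfold R3
    split_ifs with hneg'
    · rw [(s2.2.2 ⟨a2, a1⟩).1 hneg']
      ring
    · rw [(s2.2.2 ⟨a2, a1⟩).2 (lt_of_le_of_ne (not_lt.1 hneg') (Ne.symm hD))]
      ring
  · have a1 := hb' P hPY hP
    have a2 := hb' Z (Ne.symm hYZ) hZ
    rw [s1.2.1 ⟨a1, a2⟩, s2.2.1 ⟨a2, a1⟩]
    have hlt : det3 (nn n P) (nn n b) (nn n Z) * det3 v d e < 0 := by
      rw [hdet]
      nlinarith [mul_pos (sub_pos.2 a1) (sub_pos.2 h2), mul_pos (sub_pos.2 a2) (sub_pos.2 h1)]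
    unfold R3
    rw [if_pos hlt]
    ring
  · have a1 := hb' P hPZ hP
    have a2 := hb' Y hYZ hY
    rw [s2.1 ⟨a2, a1⟩]
    unfold R3
    split_ifs with hneg'
    · rw [(s1.2.2 ⟨a1, a2⟩).1 hneg']
      ring
    · rw [(s1.2.2 ⟨a1, a2⟩).2 (lt_of_le_of_ne (not_lt.1 hneg') (Ne.symm hD))]
      ring

end H47A
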