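import Pool.Agent.Lib.H47A.EHol2

/-! # H47A, chunk EHOL3 (M): one or two active facets
Two active facets P, Z at v, lf Z e < lf P e: Z is in Lst (v + s d) for small s iff exists tau > 0 with lf Z d - lf P d > tau (lf P e -
lf Z e), iff lf P d < lf Z d. So Lst (v + s d) = Lst v if lf Z d < lf P d, Lst v ++ [Z] if lf P d < lf Z d. At -v: ng Z, ng P active, lf (ng P) e <
lf (ng Z) e, values lf (ng Z) (-d) = lf Z d. Product: lf Z d < lf P d: 1 * tr (ng Z) (ng P) = tr P Z; else tr P Z * 1. One active facet: `loc_sact`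
at v and -v. -/

open Real Filter Topology

namespace H47A

variable {A : Type} [Fintype A] [DecidableEq A] {n : A → E3} {fr : A → E3}

theorem ehol3_lim (v d : E3) : Tendsto (fun s : ℝ => v + s • d) (𝓝[>] 0) (𝓝 v) := by
  have hc : Continuous fun s : ℝ => v + s • d := by fun_prop
  have h3 := hc.tendsto 0
  simp only [zero_smul, add_zero] at h3
  exact h3.mono_left nhdsWithin_le_nhds

theorem loc2 (hG : Gnr n) {e v : E3} (he : Gen n e) (hv : NV n e v) (hg : gg n v = 1) {P Z : A × Bool}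
    (hPZ : P ≠ Z) (hP : Act n P v) (hZ : Act n Z v) (hall : ∀ c, Act n c v → c = P ∨ c = Z)
    (h1 : lf n Z e < lf n P e) (d : E3) :
    ∀ᶠ s in 𝓝[>] (0 : ℝ),
      (lf n Z d < lf n P d → Lst n e (v + s • d) = Lst n e v) ∧
      (lf n P d < lf n Z d → Lst n e (v + s • d) = Lst n e v ++ [Z]) := by
  have hP1 : lf n P v = 1 := by rw [(act_iff hG P v).1 hP, hg]
  have hZ1 : lf n Z v = 1 := by rw [(act_iff hG Z v).1 hZ, hg]
  have hZn : Z ∉ Lst n e v := by
    intro h
    obtain ⟨t, ht, hs⟩ := mem_lst.1 h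
    have h3 := hs P hPZ
    rw [lf_add, lf_add, lf_smul, lf_smul, hP1, hZ1] at h3
    nlinarith
  have hlast : (Lst n e v).getLast? = some P := by
    refine lst_last he hP fun β hβ hb => ?_
    rcases hall β hb with h5 | h5
    · exact absurd h5 hβ
    · rw [h5]
      exact h1
  have hPm : P ∈ Lst n e v := List.mem_of_getLast? hlast
  have hsub := (ehol3_lim v d).eventually (loc_sub (n := n) e v)
  have hnew := (ehol3_lim v d).eventually (loc_new hG he hv)
  have hZm : ∀ᶠ s in 𝓝[>] (0 : ℝ), lf n P d < lf n Z d → Z ∈ Lst n e (v + s • d) := by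
    by_cases h : lf n P d < lf n Z d
    · have hpos : 0 < lf n P e - lf n Z e := by linarith
      have hτ : 0 < (lf n Z d - lf n P d) / (2 * (lf n P e - lf n Z e)) := div_pos (by linarith) (by linarith)
      have hτ2 : (lf n Z d - lf n P d) / (2 * (lf n P e - lf n Z e)) * (lf n P e - lf n Z e) =
          (lf n Z d - lf n P d) / 2 := by field_simp
      have h3 := ehol1_if (n := n) (v := v) (e := e) d hZ hτ (fun β hβ hb => by
        rcases hall β hb with h5 | h5
        · rw [h5]
          nlinarith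
        · exact absurd h5 hβ)
      filter_upwards [h3] with s hs _ using hs
    · exact Eventually.of_forall fun s h' => absurd h' h
  filter_upwards [hsub, hnew, hZm, self_mem_nhdsWithin] with s hs1 hs2 hs3 hs
  have hs0 : (0 : ℝ) < s := hs
  refine ⟨fun h => ?_, fun h => ?_⟩
  · refine lst_eq he (lst_pairwise he v) fun α => ?_
    rw [← mem_lst]
    refine ⟨fun h3 => hs1 α h3, fun h3 => ?_⟩
    by_contra h4
    rcases hall α (hs2 α h3 h4) with h5 | h5
    · rw [h5] at h4
      exact h4 hPm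
    · rw [h5] at h3
      obtain ⟨t, ht, h6⟩ := ehol1_only d hZ h3
      have h7 := h6 P hPZ hP
      nlinarith [mul_pos hs0 (sub_pos.2 h), mul_pos ht (sub_pos.2 h1)]
  · refine lst_eq he ?_ fun α => ?_
    · rw [List.pairwise_append]
      refine ⟨lst_pairwise he v, List.pairwise_singleton _ _, fun a ha b hb => ?_⟩
      rw [List.mem_singleton] at hb
      rw [hb]
      exact loc_order hG ha hZ hZn
    · rw [← mem_lst, List.mem_append, List.mem_singleton]
      constructor
      · rintro (h3 | h3)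
        · exact hs1 α h3
        · rw [h3]
          exact hs3 h
      · intro h3
        by_cases h4 : α ∈ Lst n e v
        · exact Or.inl h4
        · right
          rcases hall α (hs2 α h3 h4) with h5 | h5
          · rw [h5] at h4
            exact absurd hPm h4
          · exact h5

theorem hol2_one (hG : Gnr n) {e v : E3} (he : Gen n e) {α₀ : A × Bool} (h0 : SAct n α₀ e)
    (hv : NV n e v) (hg : gg n v = 1) {P Z : A × Bool}
    (hPZ : P ≠ Z) (hP : Act n P v) (hZ : Act n Z v) (hall : ∀ c, Act n c v → c = P ∨ c = Z)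
    (h1 : lf n Z e < lf n P e) (d : E3) :
    ∀ᶠ s in 𝓝[>] (0 : ℝ),
      (lf n Z d < lf n P d → (dev n fr e α₀ (v + s • d)).2.1 = (dev n fr e α₀ v).2.1) ∧
      (lf n P d < lf n Z d → (dev n fr e α₀ (v + s • d)).2.1 = (dev n fr e α₀ v).2.1 * tr n fr P Z) := by
  have hlast : (Lst n e v).getLast? = some P := by
    refine lst_last he hP fun β hβ hb => ?_
    rcases hall β hb with h5 | h5
    · exact absurd h5 hβ
    · rw [h5]
      exact h1
  filter_upwards [loc2 hG he hv hg hPZ hP hZ hall h1 d] with s hs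
  refine ⟨fun h => ?_, fun h => ?_⟩
  · unfold dev
    rw [hs.1 h]
  · rw [ehol2_app he h0 hlast (hs.2 h), ehol2_d1]

theorem hol2 (hG : Gnr n) (hf : Frm n fr) {e v : E3} (he : Gen n e) {α₀ : A × Bool} (h0 : SAct n α₀ e)
    (hv : NV n e v) (hz : NZ e v) (hv' : NV n e (-v)) (hz' : NZ e (-v)) (hg : gg n v = 1) {P Z : A × Bool}
    (hPZ : P ≠ Z) (hP : Act n P v) (hZ : Act n Z v) (hall : ∀ c, Act n c v → c = P ∨ c = Z)
    (h1 : lf n Z e < lf n P e) (d : E3) (hd : lf n P d ≠ lf n Z d) :
    ∀ᶠ s in 𝓝[>] (0 : ℝ), (dev n fr e α₀ (v + s • d)).2.1 * (dev n fr e α₀ (-(v + s • d))).2.1 =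
      (dev n fr e α₀ v).2.1 * (dev n fr e α₀ (-v)).2.1 * tr n fr P Z := by
  have hv0 : v ≠ 0 := bd_ne_zero hG hg
  have k1 := hol2_one (fr := fr) hG he h0 hv hg hPZ hP hZ hall h1 d
  have k2 := hol2_one (fr := fr) hG he h0 hv' (by rw [gg_neg hG, hg]) (P := ng Z) (Z := ng P)
    (eact_ng_inj (Ne.symm hPZ)) (ehol2_actng hG hZ) (ehol2_actng hG hP) (fun c hc => by
      have h3 := ehol2_actng hG hc
      rw [neg_neg] at h3
      rcases hall _ h3 with h4 | h4
      · right
        rw [← h4, ng_ng]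
      · left
        rw [← h4, ng_ng]) (by rw [lf_ng, lf_ng]; linarith) (-d)
  simp only [ehol2_lf] at k2
  have t3 : tr n fr (ng Z) (ng P) = tr n fr P Z := tr_ng hG hf (act_fst_ne hG (Ne.symm hPZ) hv0 hZ hP)
  rw [t3] at k2
  filter_upwards [k1, k2] with s s1 s2
  have hneg : -(v + s • d) = -v + s • -d := by
    rw [neg_add, smul_neg]
  rw [hneg]
  rcases lt_or_gt_of_ne hd with h | h
  · rw [s1.2 h, s2.1 h]
    ring
  · rw [s1.1 h, s2.2 h]
    ring

theorem hol1 (hG : Gnr n) {e v : E3} (he : Gen n e) {α₀ : A × Bool}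
    (hv : NV n e v) (hv' : NV n e (-v)) {P : A × Bool} (hP : SAct n P v) (d : E3) :
    ∀ᶠ s in 𝓝[>] (0 : ℝ), (dev n fr e α₀ (v + s • d)).2.1 * (dev n fr e α₀ (-(v + s • d))).2.1 =
      (dev n fr e α₀ v).2.1 * (dev n fr e α₀ (-v)).2.1 := by
  have hP' : SAct n (ng P) (-v) := by
    intro β hβ
    have h1 : ng β ≠ P := by
      intro h
      apply hβ
      rw [← h, ng_ng]
    have h2 := hP (ng β) h1
    rw [lf_ng] at h2
    rw [lf_neg, lf_neg, lf_ng]
    linarith
  filter_upwards [(ehol3_lim v d).eventually (loc_sact hG he hv hP),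
    (ehol3_lim (-v) (-d)).eventually (loc_sact hG he hv' hP')] with s s1 s2
  have hneg : -(v + s • d) = -v + s • -d := by
    rw [neg_add, smul_neg]
  rw [hneg]
  unfold dev
  rw [s1, s2]

end H47A
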