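import Pool.Agent.Lib.H47A.EKap5
import Pool.Agent.Lib.H47A.EHol3
import Pool.Agent.Lib.H47A.EM2
import Pool.Agent.Lib.H47A.EHalf

open Real Filter Topology

namespace H47A

variable {A : Type} [Fintype A] [DecidableEq A] {n : A → E3} {fr : A → E3} {f1 f2 e : E3} {m : ℕ}

/-! # H47A, chunks EHOLF (M/L), EHF (M): holonomy of the fan
`om_rec`: v = γ k. For x in (k,k+1): G x = v + s d with s = x - k, d = γ (k+1) - γ k, -G x = G (x+m); dev (G x) = (b k, Dk k) (`dev_side`), dev (G (x+m)) =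
(b (k+m), Dk (k+m)): so om k = (dev (v + s d)).2.1 * (dev (-(v + s d))).2.1 for all s in (0,1). Similarly om (k-1) with d' = γ (k-1) - γ k (x = k - s).
Let C = (dev v).2.1 * (dev (-v)).2.1. NV, NZ: `nv_G`, `nz_G` at k and k+m.
(1) v has three active facets: order them lf Z e < lf Y e < lf P e (Gen). det3 v d e = det3 v (γ (k+1)) e = det3 e v (γ (k+1)) > 0 (`det_pos`), det3 v d' e = det3 v (γ (k-1)) e
= - det3 e (γ (k-1)) (γ k) < 0. D0 = det3 P Y Z != 0 (`det_ne`). The largest of lf . d among the active facets is b k, strictly: `G_sact` and lf c v = 1 (the last facet b k is active at v: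
`G_act`). `hol3` twice: om k = C R3(D0 * positive), om (k-1) = C R3(D0 * negative). If D0 > 0: om k = C tr P Z, om (k-1) = C tr P Y tr Y Z, `tri_hol` for (P,Y,Z):
tr P Y tr Y Z tr Z P = exp(i ang3) = exp(-i kap) (`kap_vertex`; exp(2 pi i) = 1), `tr_symm`. If D0 < 0: om k = C tr P Y tr Y Z, om (k-1) = C tr P Z, `tri_hol` for (P,Z,Y),
`ang3_swap`. In both cases om k = om (k-1) exp(i kap).
(2) exactly two active facets: `hol2` twice (b k, b (k-1) among them): om k = C tr P Z = om (k-1), kap = 0 (`kap_nonvertex`). (3) one: `hol1`.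
EHF: `kap_fan_sum`: γ is injective on range (2m) (azimuths: θ k < θ 0 + 2 pi), every vertex is some γ k (`vert`), reduce k mod 2m; non-vertices have kap 0;
`kap_sum`. `exists_h`: `exists_half` with kp k = kap (γ k), om norm one (`Dk_norm`). `glued`: MM_per, MM_glue, Phi. -/

/-- `om` along the side `k`, seen from its left end. -/
theorem eholf_right (hG : Gnr n) (hA : Axis f1 f2 e) (he : Gen n e) {α₀ : A × Bool} (h0 : SAct n α₀ e)
    (F : Fan n f1 f2 m) (k : ℤ) {s : ℝ} (hs : s ∈ Set.Ioo (0 : ℝ) 1) :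
    om F fr e α₀ k = (dev n fr e α₀ (F.γ k + s • (F.γ (k + 1) - F.γ k))).2.1 *
      (dev n fr e α₀ (-(F.γ k + s • (F.γ (k + 1) - F.γ k)))).2.1 := by
  have h1 : F.G (k + s) = F.γ k + s • (F.γ (k + 1) - F.γ k) := by
    rw [F.G_eq k ⟨by linarith [hs.1], by linarith [hs.2]⟩]
    unfold seg
    rw [show (k : ℝ) + s - k = s by ring, smul_sub, sub_smul, one_smul]
    abel
  have h2 : F.G (k + s + m) = -(F.γ k + s • (F.γ (k + 1) - F.γ k)) := by
    rw [F.G_anti, h1]
  rw [← h2, ← h1]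
  have h3 := dev_side (fr := fr) hG hA he h0 F k (x := k + s) ⟨by linarith [hs.1], by linarith [hs.2]⟩
  have h4 := dev_side (fr := fr) hG hA he h0 F (k + m) (x := k + s + m)
    ⟨by push_cast; linarith [hs.1], by push_cast; linarith [hs.2]⟩
  rw [h3, h4]
  rfl

/-- `om` along the side `k - 1`, seen from its right end. -/
theorem eholf_left (hG : Gnr n) (hA : Axis f1 f2 e) (he : Gen n e) {α₀ : A × Bool} (h0 : SAct n α₀ e)
    (F : Fan n f1 f2 m) (k : ℤ) {s : ℝ} (hs : s ∈ Set.Ioo (0 : ℝ) 1) :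
    om F fr e α₀ (k - 1) = (dev n fr e α₀ (F.γ k + s • (F.γ (k - 1) - F.γ k))).2.1 *
      (dev n fr e α₀ (-(F.γ k + s • (F.γ (k - 1) - F.γ k)))).2.1 := by
  have h1 : F.G (k - s) = F.γ k + s • (F.γ (k - 1) - F.γ k) := by
    rw [F.G_eq (k - 1) ⟨by push_cast; linarith [hs.2], by push_cast; linarith [hs.1]⟩]
    unfold seg
    rw [show (k : ℝ) - s - ((k - 1 : ℤ) : ℝ) = 1 - s by push_cast; ring, show k - 1 + 1 = k by ring,
      sub_sub_cancel, smul_sub, sub_smul, one_smul]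
    abel
  have h2 : F.G (k - s + m) = -(F.γ k + s • (F.γ (k - 1) - F.γ k)) := by
    rw [F.G_anti, h1]
  rw [← h2, ← h1]
  have h3 := dev_side (fr := fr) hG hA he h0 F (k - 1) (x := k - s)
    ⟨by push_cast; linarith [hs.2], by push_cast; linarith [hs.1]⟩
  have h4 := dev_side (fr := fr) hG hA he h0 F (k - 1 + m) (x := k - s + m)
    ⟨by push_cast; linarith [hs.2], by push_cast; linarith [hs.1]⟩
  rw [h3, h4]
  rfl

theorem eholf_ev {P : ℝ → Prop} (h : ∀ᶠ s in 𝓝[>] (0 : ℝ), P s) : ∃ s ∈ Set.Ioo (0 : ℝ) 1, P s := by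
  have h1 : ∀ᶠ s in 𝓝[>] (0 : ℝ), s ∈ Set.Ioo (0 : ℝ) 1 := Ioo_mem_nhdsGT one_pos
  obtain ⟨s, h2, h3⟩ := (h1.and h).exists
  exact ⟨s, h2, h3⟩

/-- The facet of the side is the strict maximum of the slopes among the active facets. -/
theorem eholf_max {v d : E3} {b : A × Bool} {s : ℝ} (hs : 0 < s) (hb : Act n b v) (h : SAct n b (v + s • d)) :
    ∀ c, c ≠ b → Act n c v → lf n c d < lf n b d := by
  intro c hc hcv
  have h1 := h c hc
  have h2 : lf n c v = lf n b v := le_antisymm (hb c) (hcv b)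
  rw [lf_add, lf_add, lf_smul, lf_smul, h2] at h1
  have h3 : s * lf n c d < s * lf n b d := by linarith
  exact lt_of_mul_lt_mul_left h3 hs.le

theorem om_rec (hG : Gnr n) (hf : Frm n fr) (hA : Axis f1 f2 e) (he : Gen n e) {α₀ : A × Bool} (h0 : SAct n α₀ e)
    (F : Fan n f1 f2 m) (k : ℤ) :
    om F fr e α₀ k = om F fr e α₀ (k - 1) * Complex.exp ((kap n (F.γ k) : ℂ) * Complex.I) := by
  obtain ⟨v, hv⟩ : ∃ v, v = F.γ k := ⟨_, rfl⟩
  obtain ⟨d, hd⟩ : ∃ d, d = F.γ (k + 1) - F.γ k := ⟨_, rfl⟩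
  obtain ⟨d', hd'⟩ : ∃ d', d' = F.γ (k - 1) - F.γ k := ⟨_, rfl⟩
  have hR := fun (s : ℝ) (hs : s ∈ Set.Ioo (0 : ℝ) 1) => eholf_right (fr := fr) hG hA he h0 F k hs
  have hL := fun (s : ℝ) (hs : s ∈ Set.Ioo (0 : ℝ) 1) => eholf_left (fr := fr) hG hA he h0 F k hs
  rw [← hd, ← hv] at hR
  rw [← hd', ← hv] at hL
  -- basic facts on v
  have hGk : F.G k = v := by rw [F.G_int, hv]
  have hGkm : F.G (k + m) = -v := by rw [F.G_anti, hGk]
  have hgv : gg n v = 1 := by rw [hv, F.on]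
  have hv0 : v ≠ 0 := bd_ne_zero hG hgv
  have hnv : NV n e v := by rw [← hGk]; exact F.nv_G hG hA _
  have hnz : NZ e v := by rw [← hGk]; exact F.nz_G hA _
  have hnv' : NV n e (-v) := by rw [← hGkm]; exact F.nv_G hG hA _
  have hnz' : NZ e (-v) := by rw [← hGkm]; exact F.nz_G hA _
  -- the facets of the two sides
  have hbA : Act n (F.b k) v := by
    rw [← hGk]
    exact F.G_act k ⟨le_rfl, by linarith⟩
  have hbA' : Act n (F.b (k - 1)) v := by
    rw [← hGk]
    exact F.G_act (k - 1) ⟨by push_cast; linarith, by push_cast; linarith⟩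
  have hbm : ∀ c, c ≠ F.b k → Act n c v → lf n c d < lf n (F.b k) d := by
    refine eholf_max (s := 1 / 2) (by norm_num) hbA ?_
    have h1 := F.side k (1 / 2) ⟨by norm_num, by norm_num⟩
    have h2 : seg (F.γ k) (F.γ (k + 1)) (1 / 2) = v + (1 / 2 : ℝ) • d := by
      unfold seg
      rw [hv, hd, smul_sub, sub_smul, one_smul]
      abel
    rwa [h2] at h1
  have hbm' : ∀ c, c ≠ F.b (k - 1) → Act n c v → lf n c d' < lf n (F.b (k - 1)) d' := by
    refine eholf_max (s := 1 / 2) (by norm_num) hbA' ?_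
    have h1 := F.side (k - 1) (1 / 2) ⟨by norm_num, by norm_num⟩
    have h2 : seg (F.γ (k - 1)) (F.γ (k - 1 + 1)) (1 / 2) = v + (1 / 2 : ℝ) • d' := by
      unfold seg
      rw [show k - 1 + 1 = k by ring, hv, hd', smul_sub]
      have h3 : (1 - (1 / 2 : ℝ)) = 1 / 2 := by norm_num
      have h4 : F.γ k = (1 / 2 : ℝ) • F.γ k + (1 / 2 : ℝ) • F.γ k := by
        rw [← add_smul]
        norm_num
      rw [h3]
      nth_rewrite 2 [h4]
      abel
    rwa [h2] at h1
  -- the last active facet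
  obtain ⟨P, hP, hPm⟩ := exists_last hG he v
  by_cases h2 : ∃ Q, Q ≠ P ∧ Act n Q v
  swap
  · push Not at h2
    have hS : SAct n P v := by
      intro β hβ
      refine lt_of_le_of_ne (hP β) fun h3 => h2 β hβ ?_
      intro γ
      rw [h3]
      exact hP γ
    have hk0 : kap n v = 0 := by
      refine kap_nonvertex hG hgv ?_
      rintro ⟨-, α, β, γ, h12, -, -, ha, hb, -⟩
      exact h12 ((hS.unique ha).trans (hS.unique hb).symm)
    obtain ⟨s, hs, e1⟩ := eholf_ev (hol1 (fr := fr) (α₀ := α₀) hG he hnv hnv' hS d)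
    obtain ⟨s', hs', e2⟩ := eholf_ev (hol1 (fr := fr) (α₀ := α₀) hG he hnv hnv' hS d')
    rw [hR s hs, hL s' hs', e1, e2, ← hv, hk0]
    simp
  obtain ⟨Q, hQP, hQ⟩ := h2
  by_cases h3 : ∃ R, R ≠ P ∧ R ≠ Q ∧ Act n R v
  swap
  · push Not at h3
    have hall : ∀ c, Act n c v → c = P ∨ c = Q := by
      intro c hc
      by_contra h4
      push Not at h4
      exact h3 c h4.1 h4.2 hc
    have hk0 : kap n v = 0 := by
      refine kap_nonvertex hG hgv ?_
      rintro ⟨-, α, β, γ, h12, h23, h13, ha, hb, hc⟩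
      rcases hall α ha with r1 | r1 <;> rcases hall β hb with r2 | r2 <;> rcases hall γ hc with r3 | r3 <;>
        simp_all
    have hdne : lf n P d ≠ lf n Q d := by
      rcases hall _ hbA with h4 | h4
      · have := hbm Q (by rw [h4]; exact hQP) hQ
        rw [h4] at this
        exact this.ne'
      · have := hbm P (by rw [h4]; exact hQP.symm) hP
        rw [h4] at this
        exact this.ne
    have hdne' : lf n P d' ≠ lf n Q d' := by
      rcases hall _ hbA' with h4 | h4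
      · have := hbm' Q (by rw [h4]; exact hQP) hQ
        rw [h4] at this
        exact this.ne'
      · have := hbm' P (by rw [h4]; exact hQP.symm) hP
        rw [h4] at this
        exact this.ne
    obtain ⟨s, hs, e1⟩ := eholf_ev (hol2 (fr := fr) hG hf he h0 hnv hnz hnv' hnz' hgv hQP.symm hP hQ hall
      (hPm Q hQP hQ) d hdne)
    obtain ⟨s', hs', e2⟩ := eholf_ev (hol2 (fr := fr) hG hf he h0 hnv hnz hnv' hnz' hgv hQP.symm hP hQ hall
      (hPm Q hQP hQ) d' hdne')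
    rw [hR s hs, hL s' hs', e1, e2, ← hv, hk0]
    simp
  obtain ⟨R, hRP, hRQ, hR'⟩ := h3
  -- three active facets, ordered
  obtain ⟨Y, Z, hPY, hYZ, hPZ, hY, hZ, o1, o2⟩ : ∃ Y Z : A × Bool, P ≠ Y ∧ Y ≠ Z ∧ P ≠ Z ∧ Act n Y v ∧ Act n Z v ∧
      lf n Y e < lf n P e ∧ lf n Z e < lf n Y e := by
    rcases lt_or_gt_of_ne (he Q R hRQ.symm) with h4 | h4
    · exact ⟨R, Q, hRP.symm, hRQ, hQP.symm, hR', hQ, hPm R hRP hR', h4⟩
    · exact ⟨Q, R, hQP.symm, hRQ.symm, hRP.symm, hQ, hR', hPm Q hQP hQ, h4⟩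
  have hb3 : F.b k = P ∨ F.b k = Y ∨ F.b k = Z := no_four hG hv0 hP hY hZ hbA hPY hPZ hYZ
  have hb3' : F.b (k - 1) = P ∨ F.b (k - 1) = Y ∨ F.b (k - 1) = Z := no_four hG hv0 hP hY hZ hbA' hPY hPZ hYZ
  have hD0 : det3 (nn n P) (nn n Y) (nn n Z) ≠ 0 := det_ne hG hv0 hP hY hZ hPY hPZ hYZ
  have hdlin : ∀ w : E3, det3 v (w - v) e = det3 e v w := by
    intro w
    rw [det3_rot, det3_rot, sub_eq_add_neg, det3_add]
    have h4 : (-v : E3) = (-1 : ℝ) • v := by simp
    rw [h4, det3_smul, (det3_self e v).2.1]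
    ring
  have hpos : 0 < det3 v d e := by
    rw [hd, ← hv, hdlin, hv]
    exact F.det_pos hA k
  have hneg : det3 v d' e < 0 := by
    rw [hd', ← hv, hdlin]
    have h4 := F.det_pos hA (k - 1)
    rw [show k - 1 + 1 = k by ring, ← hv, det3_rot] at h4
    rw [det3_rot, det3_swap]
    linarith
  have hΔ : det3 (nn n P) (nn n Y) (nn n Z) * det3 v d e ≠ 0 := mul_ne_zero hD0 hpos.ne'
  have hΔ' : det3 (nn n P) (nn n Y) (nn n Z) * det3 v d' e ≠ 0 := mul_ne_zero hD0 hneg.ne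
  obtain ⟨s, hs, e1⟩ := eholf_ev (hol3 (fr := fr) hG hf he h0 hnv hnz hnv' hnz' hgv hPY hYZ hPZ hP hY hZ o1 o2 d hΔ hb3
    hbm)
  obtain ⟨s', hs', e2⟩ := eholf_ev (hol3 (fr := fr) hG hf he h0 hnv hnz hnv' hnz' hgv hPY hYZ hPZ hP hY hZ o1 o2 d' hΔ'
    hb3' hbm')
  have f1 : P.1 ≠ Y.1 := act_fst_ne hG hPY hv0 hP hY
  have f2' : Y.1 ≠ Z.1 := act_fst_ne hG hYZ hv0 hY hZ
  have f3 : P.1 ≠ Z.1 := act_fst_ne hG hPZ hv0 hP hZ
  have s1 := tr_symm hG hf f1
  have s2 := tr_symm hG hf f2'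
  have s3 := tr_symm hG hf f3
  have hkap := kap_vertex hG hgv hPY hPZ hYZ hP hY hZ
  have hexp : Complex.exp ((ang3 (nn n P) (nn n Y) (nn n Z) : ℂ) * Complex.I) *
      Complex.exp ((kap n v : ℂ) * Complex.I) = 1 := by
    rw [← Complex.exp_add, hkap]
    push_cast
    rw [show ((ang3 (nn n P) (nn n Y) (nn n Z) : ℂ)) * Complex.I +
      (2 * (π : ℂ) - (ang3 (nn n P) (nn n Y) (nn n Z) : ℂ)) * Complex.I = 2 * (π : ℂ) * Complex.I by ring]
    exact Complex.exp_two_pi_mul_I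
  rw [hR s hs, hL s' hs', e1, e2, ← hv]
  rcases lt_or_gt_of_ne hD0 with h4 | h4
  · have t1 : det3 (nn n P) (nn n Y) (nn n Z) * det3 v d e < 0 := mul_neg_of_neg_of_pos h4 hpos
    have t2 : ¬ det3 (nn n P) (nn n Y) (nn n Z) * det3 v d' e < 0 := not_lt.2 (mul_pos_of_neg_of_neg h4 hneg).le
    unfold R3
    rw [if_pos t1, if_neg t2]
    have t3 : 0 < det3 (nn n P) (nn n Z) (nn n Y) := by
      rw [det3_rot, det3_swap, ← det3_rot]
      linarith
    have t4 := tri_hol hG hf t3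
    rw [ang3_swap] at t4
    have t5 : tr n fr P Z = Complex.exp ((ang3 (nn n P) (nn n Y) (nn n Z) : ℂ) * Complex.I) *
        (tr n fr P Y * tr n fr Y Z) := by
      rw [← t4]
      calc tr n fr P Z = tr n fr P Z * (tr n fr Y Z * tr n fr Z Y) * (tr n fr P Y * tr n fr Y P) := by
            rw [s1, s2]; ring
        _ = _ := by ring
    rw [t5]
    calc _ = (dev n fr e α₀ v).2.1 * (dev n fr e α₀ (-v)).2.1 * (tr n fr P Y * tr n fr Y Z) *
          (Complex.exp ((ang3 (nn n P) (nn n Y) (nn n Z) : ℂ) * Complex.I) *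
            Complex.exp ((kap n v : ℂ) * Complex.I)) := by rw [hexp]; ring
      _ = _ := by ring
  · have t1 : ¬ det3 (nn n P) (nn n Y) (nn n Z) * det3 v d e < 0 := not_lt.2 (mul_pos h4 hpos).le
    have t2 : det3 (nn n P) (nn n Y) (nn n Z) * det3 v d' e < 0 := mul_neg_of_pos_of_neg h4 hneg
    unfold R3
    rw [if_neg t1, if_pos t2]
    have t4 := tri_hol hG hf h4
    have t5 : tr n fr P Y * tr n fr Y Z = Complex.exp ((ang3 (nn n P) (nn n Y) (nn n Z) : ℂ) * Complex.I) *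
        tr n fr P Z := by
      rw [← t4]
      calc tr n fr P Y * tr n fr Y Z = tr n fr P Y * tr n fr Y Z * (tr n fr P Z * tr n fr Z P) := by rw [s3]; ring
        _ = _ := by ring
    rw [t5]
    calc _ = (dev n fr e α₀ v).2.1 * (dev n fr e α₀ (-v)).2.1 * tr n fr P Z *
          (Complex.exp ((ang3 (nn n P) (nn n Y) (nn n Z) : ℂ) * Complex.I) *
            Complex.exp ((kap n v : ℂ) * Complex.I)) := by rw [hexp]; ring
      _ = _ := by ring

end H47A
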