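import Pool.Agent.Lib.H47A.EHolF
import Pool.Agent.Lib.H47A.CDefs

/-! # H47A, chunk EHF (M): see the docstring of EHolF.lean -/

open Real Filter Topology

namespace H47A

variable {A : Type} [Fintype A] [DecidableEq A] {n : A → E3} {fr : A → E3} {f1 f2 e : E3} {m : ℕ}

theorem ehf_per (F : Fan n f1 f2 m) (k j : ℤ) : F.γ (k + 2 * m * j) = F.γ k := by
  induction j using Int.induction_on with
  | zero => simp
  | succ i ih =>
    rw [show k + 2 * (m : ℤ) * ((i : ℤ) + 1) = (k + 2 * m * i) + 2 * m by ring, F.γ_per, ih]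
  | pred i ih =>
    have h := F.γ_per (k + 2 * (m : ℤ) * (-(i : ℤ) - 1))
    rw [show k + 2 * (m : ℤ) * (-(i : ℤ) - 1) + 2 * m = k + 2 * m * (-(i : ℤ)) by ring] at h
    rw [← h, ih]

theorem ehf_inj (F : Fan n f1 f2 m) {i j : ℤ} (hi : 0 ≤ i) (hij : i < j) (hj : j < 2 * m) : F.γ i ≠ F.γ j := by
  intro h
  obtain ⟨r, hr, h1⟩ := F.azi i
  obtain ⟨r', hr', h2⟩ := F.azi j
  rw [h, h2] at h1
  obtain ⟨-, l, hl⟩ := exp_unique hr' hr h1
  have a1 : F.θ i < F.θ j := F.th_mono hij
  have a2 : F.θ j < F.θ (i + 2 * m) := F.th_mono (by linarith)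
  have a3 : F.θ (i + 2 * m) = F.θ i + 2 * π := by
    rw [show i + 2 * (m : ℤ) = (i + m) + m by ring, F.θper, F.θper]
    ring
  rw [a3] at a2
  have hπ := Real.pi_pos
  have b1 : (0 : ℝ) < l := by
    by_contra hc
    push Not at hc
    nlinarith
  have b2 : (l : ℝ) < 1 := by
    by_contra hc
    push Not at hc
    nlinarith
  have c1 : 0 < l := by exact_mod_cast b1
  have c2 : l < 1 := by exact_mod_cast b2
  omega

theorem kap_fan_sum (hG : Gnr n) (F : Fan n f1 f2 m) : ∑ k ∈ Finset.range (2 * m), kap n (F.γ k) = 4 * π := by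
  classical
  have hinj : Set.InjOn (fun k : ℕ => F.γ (k : ℤ)) (Finset.range (2 * m) : Set ℕ) := by
    intro i hi j hj hij
    simp only [Finset.coe_range, Set.mem_Iio] at hi hj
    by_contra hne
    rcases lt_or_gt_of_ne hne with h | h
    · exact ehf_inj F (by positivity) (by exact_mod_cast h) (by exact_mod_cast hj) hij
    · exact ehf_inj F (by positivity) (by exact_mod_cast h) (by exact_mod_cast hi) hij.symm
  rw [← Finset.sum_image (f := fun v => kap n v) (s := Finset.range (2 * m)) (g := fun k : ℕ => F.γ (k : ℤ)) hinj,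
    ← kap_sum hG]
  symm
  apply Finset.sum_subset
  · intro v hv
    rw [Set.Finite.mem_toFinset] at hv
    obtain ⟨k, hk⟩ := F.vert v hv
    have hm : (0 : ℤ) < 2 * m := by
      have := F.two_le
      omega
    rw [Finset.mem_image]
    refine ⟨(k % (2 * m)).toNat, ?_, ?_⟩
    · rw [Finset.mem_range]
      have h1 := Int.emod_lt_of_pos k hm
      have h2 := Int.emod_nonneg k hm.ne'
      omega
    · have h2 := Int.emod_nonneg k hm.ne'
      rw [Int.toNat_of_nonneg h2, ← hk]
      have h3 := ehf_per F (k % (2 * m)) (k / (2 * m))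
      rw [← h3]
      congr 1
      have := Int.emod_add_mul_ediv k (2 * m)
      linarith
  · intro v hv hv'
    rw [Set.Finite.mem_toFinset] at hv'
    rw [Finset.mem_image] at hv
    obtain ⟨k, -, rfl⟩ := hv
    exact kap_nonvertex hG (F.on k) hv'

theorem exists_h (hG : Gnr n) (hf : Frm n fr) (hA : Axis f1 f2 e) (he : Gen n e) {α₀ : A × Bool} (h0 : SAct n α₀ e)
    (F : Fan n f1 f2 m) : ∃ h : ℤ → ℝ, IsHalf m h ∧ Glued m h (MM F fr e α₀) := by
  obtain ⟨h, h1, h2⟩ := exists_half F.two_le (om := om F fr e α₀) (kp := fun k => kap n (F.γ k))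
    (fun k => by
      unfold om
      rw [norm_mul, Dk_norm hG hf hA he h0 F, Dk_norm hG hf hA he h0 F, mul_one])
    (fun k => kap_nonneg _) (fun k => kap_lt hG (F.on k))
    (fun k => by
      show kap n (F.γ (k + m)) = kap n (F.γ k)
      rw [F.anti, kap_neg hG])
    (kap_fan_sum hG F) (fun k => om_rec hG hf hA he h0 F k)
  refine ⟨h, h1, ⟨fun x => MM_per F α₀ x, fun k x hx => ?_⟩⟩
  rw [MM_glue hG hf hA he h0 F k hx, Phi, h2]

end H47A
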