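import Pool.Agent.Lib.H47A.EGau

/-! # H47A, curvature of the vertices by normal cones (definitions) -/

open Real MeasureTheory

namespace H47A

/-- Volume of the part of a cone in the unit ball. -/
noncomputable def mB (S : Set E3) : ℝ := (volume (S ∩ Metric.closedBall 0 1)).toReal

/-- Half space. -/
def Hs (X : E3) : Set E3 := {p | 0 ≤ (inner ℝ p X : ℝ)}

variable {A : Type} [Fintype A] [DecidableEq A]

/-- The normal cone. -/
def NC (n : A → E3) (u : E3) : Set E3 := {y | ∀ x, gg n x ≤ 1 → (inner ℝ y x : ℝ) ≤ inner ℝ y u}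

/-- The curvature. -/
noncomputable def kap (n : A → E3) (u : E3) : ℝ := 4 * π * (mB (NC n u) / mB Set.univ)

end H47A
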