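import Pool.Agent.Lib.H47A.EKap1
import Pool.Agent.Lib.H47A.EVec

/-! # H47A, chunk EKAP1B (M/L): the volume of a wedge
`mB_isom`: linear isometries preserve volume (LinearIsometryEquiv.measurePreserving) and the ball.
`wedge_std`: for X0 = (1,0,0), Y0 = (cos t, sin t, 0), t in [0,pi]. The measure preserving equivalence of E3 with C x R: p -> (p 0 + i p 1, p 2)
(EuclideanSpace.volume_preserving_symm_measurableEquiv_toLp or the like, MeasurableEquiv.piFinSuccAbove, Complex.measurableEquivRealProd). With Fubini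
(Measure.prod_apply): the slice at height h (|h| <= 1) of the wedge is {z : |z| <= R, Re z >= 0, Re (z e^{-it}) >= 0}, R = sqrt(1-h^2): for z != 0
this means arg z in [-pi/2, pi/2] and in [t - pi/2, t + pi/2]: arg z in [t - pi/2, pi/2] (t in [0,pi]); up to the null set {0} it is a
sector of angle pi - t: area (pi - t) R^2/2 = ((pi - t)/(2 pi)) * area of the disc of radius R (the sector [-pi,pi]). Integrate over h: the
ratio is constant. (No need to compute the integral.)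
`wedge`: X, Y nonzero; there is a linear isometry g with g X = |X| X0, g Y = |Y| (cos t, sin t, 0), t = angle X Y: take f1 = X/|X|, f2 the unit
vector with Y/|Y| = cos t f1 + sin t f2 (if sin t = 0 any unit vector orthogonal to f1), f3 = f1 x f2: orthonormal basis. -/

open Real MeasureTheory

namespace H47A

/-- space as a product of the axis and a complex plane -/
noncomputable def ekap1b_Phi : E3 ≃ᵐ ℝ × ℂ :=
  (MeasurableEquiv.toLp 2 (Fin 3 → ℝ)).symm.trans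
    ((MeasurableEquiv.piFinSuccAbove (fun _ : Fin 3 => ℝ) 2).trans
      ((MeasurableEquiv.refl ℝ).prodCongr Complex.measurableEquivPi.symm))

theorem ekap1b_Phi_apply (p : E3) : ekap1b_Phi p = (p 2, ⟨p 0, p 1⟩) := by
  have h : ekap1b_Phi p = (p 2, ((p 0 : ℝ) : ℂ) + ((p 1 : ℝ) : ℂ) * Complex.I) := rfl
  rw [h]
  congr 1
  apply Complex.ext <;> simp

theorem ekap1b_Phi_mp : MeasurePreserving ekap1b_Phi := by
  have h1 := EuclideanSpace.volume_preserving_symm_measurableEquiv_toLp (Fin 3)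
  have h2 := volume_preserving_piFinSuccAbove (fun _ : Fin 3 => ℝ) 2
  have h3 : MeasurePreserving (Prod.map id (Complex.measurableEquivPi.symm : (Fin 2 → ℝ) → ℂ))
      (volume : Measure (ℝ × (Fin 2 → ℝ))) (volume : Measure (ℝ × ℂ)) :=
    (MeasurePreserving.id (volume : Measure ℝ)).prod Complex.volume_preserving_equiv_pi.symm
  exact h3.comp (h2.comp h1)

theorem mB_isom (g : E3 ≃ₗᵢ[ℝ] E3) (S : Set E3) : mB (g ⁻¹' S) = mB S := by
  unfold mB
  have h1 : (g ⁻¹' S) ∩ Metric.closedBall 0 1 = g ⁻¹' (S ∩ Metric.closedBall 0 1) := by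
    ext x
    simp only [Set.mem_inter_iff, Set.mem_preimage, mem_closedBall_zero_iff, LinearIsometryEquiv.norm_map]
  rw [h1]
  have h2 : MeasurePreserving g.toMeasurableEquiv (volume : Measure E3) volume := g.measurePreserving
  exact congrArg ENNReal.toReal (h2.measure_preimage_equiv (S ∩ Metric.closedBall 0 1))

theorem mB_univ_pos : 0 < mB Set.univ := by
  unfold mB
  rw [Set.univ_inter]
  exact ENNReal.toReal_pos (Metric.measure_closedBall_pos volume 0 one_pos).ne'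
    (isCompact_closedBall (0 : E3) 1).measure_lt_top.ne

/-- Linear hyperplanes are null. -/
theorem plane_null {X : E3} (hX : X ≠ 0) : volume {p : E3 | (inner ℝ p X : ℝ) = 0} = 0 := by
  have h1 : {p : E3 | (inner ℝ p X : ℝ) = 0} = ((LinearMap.ker (innerSL ℝ X).toLinearMap : Submodule ℝ E3) : Set E3) := by
    ext p
    simp only [Set.mem_ofPred_eq, SetLike.mem_coe, LinearMap.mem_ker]
    rw [real_inner_comm]
    rfl
  rw [h1]
  apply Measure.addHaar_submodule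
  intro h2
  have h3 : X ∈ LinearMap.ker (innerSL ℝ X).toLinearMap := by rw [h2]; trivial
  have h4 : (inner ℝ X X : ℝ) = 0 := h3
  exact hX (inner_self_eq_zero.1 h4)

theorem ekap1b_set (R t : ℝ) (hR : 0 ≤ R) (h0 : 0 ≤ t) (h1 : t < π) :
    volume {z : ℂ | ‖z‖ ≤ R ∧ 0 ≤ z.re ∧ 0 ≤ cos t * z.re + sin t * z.im} = ENNReal.ofReal ((π - t) * R ^ 2 / 2) := by
  have hpi := Real.pi_pos
  have hs := sector_area (a := t - π / 2) (b := π / 2) (R := R) (by linarith) (by linarith) (by linarith) hR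
  rw [show (π / 2 - (t - π / 2)) * R ^ 2 / 2 = (π - t) * R ^ 2 / 2 by ring] at hs
  rw [← hs]
  have hae : ({z : ℂ | ‖z‖ ≤ R ∧ 0 ≤ z.re ∧ 0 ≤ cos t * z.re + sin t * z.im} : Set ℂ) =ᵐ[volume]
      {z : ℂ | ‖z‖ ≤ R ∧ t - π / 2 ≤ Complex.arg z ∧ Complex.arg z ≤ π / 2} := by
    have hnull : ∀ᵐ z : ℂ ∂volume, z ≠ 0 := by
      rw [ae_iff]
      simp
    filter_upwards [hnull] with z hz
    apply propext
    show (‖z‖ ≤ R ∧ 0 ≤ z.re ∧ 0 ≤ cos t * z.re + sin t * z.im) ↔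
      (‖z‖ ≤ R ∧ t - π / 2 ≤ Complex.arg z ∧ Complex.arg z ≤ π / 2)
    have hzn : 0 < ‖z‖ := norm_pos_iff.2 hz
    have e1 : 0 ≤ z.re ↔ |z.arg| ≤ π / 2 := Complex.abs_arg_le_pi_div_two_iff.symm
    have hre : z.re = ‖z‖ * cos z.arg := (Complex.norm_mul_cos_arg z).symm
    have him : z.im = ‖z‖ * sin z.arg := (Complex.norm_mul_sin_arg z).symm
    have e2 : cos t * z.re + sin t * z.im = ‖z‖ * cos (z.arg - t) := by
      rw [hre, him, cos_sub]
      rw [← hre, ← him]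
      nth_rewrite 1 [hre]
      nth_rewrite 1 [him]
      ring
    rw [e1, e2]
    constructor
    · rintro ⟨a1, a2, a3⟩
      rw [abs_le] at a2
      refine ⟨a1, ?_, a2.2⟩
      by_contra h
      push Not at h
      have h3 : cos (z.arg - t) < 0 := by
        rw [← cos_neg, ← cos_sub_two_pi]
        rw [show -(z.arg - t) - 2 * π = -(z.arg - t + 2 * π) by ring, cos_neg,
          show z.arg - t + 2 * π = (z.arg - t + π) + π by ring, cos_add_pi]
        have : 0 < cos (z.arg - t + π) := cos_pos_of_mem_Ioo ⟨by linarith, by linarith⟩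
        linarith
      have := mul_neg_of_pos_of_neg hzn h3
      linarith
    · rintro ⟨a1, a2, a3⟩
      refine ⟨a1, abs_le.2 ⟨by linarith, a3⟩, ?_⟩
      exact mul_nonneg hzn.le (cos_nonneg_of_mem_Icc ⟨by linarith, by linarith⟩)
  exact measure_congr hae

/-- slices of the unit ball -/
noncomputable def ekap1b_F (h : ℝ) : ENNReal := ENNReal.ofReal (√(1 - h ^ 2) ^ 2)

theorem ekap1b_F_meas : Measurable ekap1b_F := by
  unfold ekap1b_F
  fun_prop

theorem ekap1b_iff {h r : ℝ} (hh : h ^ 2 ≤ 1) (hr : 0 ≤ r) : h ^ 2 + r ^ 2 ≤ 1 ↔ r ≤ √(1 - h ^ 2) := by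
  rw [Real.le_sqrt hr]
  · constructor <;> intro h1 <;> linarith
  · linarith

theorem ekap1b_slice {t : ℝ} (h0 : 0 ≤ t) (h1 : t < π) (h : ℝ) :
    volume {z : ℂ | h ^ 2 + ‖z‖ ^ 2 ≤ 1 ∧ 0 ≤ z.re ∧ 0 ≤ cos t * z.re + sin t * z.im} =
      ENNReal.ofReal ((π - t) / 2) * ekap1b_F h := by
  unfold ekap1b_F
  rw [← ENNReal.ofReal_mul (by linarith)]
  by_cases hh : h ^ 2 ≤ 1
  · rw [show (π - t) / 2 * √(1 - h ^ 2) ^ 2 = (π - t) * √(1 - h ^ 2) ^ 2 / 2 by ring,
      ← ekap1b_set _ t (Real.sqrt_nonneg _) h0 h1]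
    congr 1
    ext z
    simp only [Set.mem_ofPred_eq]
    rw [ekap1b_iff hh (norm_nonneg z)]
  · have h2 : {z : ℂ | h ^ 2 + ‖z‖ ^ 2 ≤ 1 ∧ 0 ≤ z.re ∧ 0 ≤ cos t * z.re + sin t * z.im} = ∅ := by
      ext z
      simp only [Set.mem_ofPred_eq, Set.mem_empty_iff_false, iff_false, not_and]
      intro h3
      exact absurd (by nlinarith [sq_nonneg ‖z‖]) hh
    rw [h2, measure_empty, Real.sqrt_eq_zero_of_nonpos (by linarith)]
    simp

theorem ekap1b_full (h : ℝ) : volume {z : ℂ | h ^ 2 + ‖z‖ ^ 2 ≤ 1} = ENNReal.ofReal π * ekap1b_F h := by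
  have hpi := Real.pi_pos
  unfold ekap1b_F
  rw [← ENNReal.ofReal_mul hpi.le]
  by_cases hh : h ^ 2 ≤ 1
  · have hs := sector_area (a := -π) (b := π) (R := √(1 - h ^ 2)) le_rfl (by linarith) le_rfl (Real.sqrt_nonneg _)
    rw [show (π - -π) * √(1 - h ^ 2) ^ 2 / 2 = π * √(1 - h ^ 2) ^ 2 by ring] at hs
    rw [← hs]
    congr 1
    ext z
    simp only [Set.mem_ofPred_eq]
    rw [ekap1b_iff hh (norm_nonneg z)]
    exact ⟨fun h1 => ⟨h1, (Complex.neg_pi_lt_arg z).le, Complex.arg_le_pi z⟩, fun h1 => h1.1⟩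
  · have h2 : {z : ℂ | h ^ 2 + ‖z‖ ^ 2 ≤ 1} = ∅ := by
      ext z
      simp only [Set.mem_ofPred_eq, Set.mem_empty_iff_false, iff_false]
      intro h3
      exact absurd (by nlinarith [sq_nonneg ‖z‖]) hh
    rw [h2, measure_empty, Real.sqrt_eq_zero_of_nonpos (by linarith)]
    simp

theorem ekap1b_norm (p : E3) : ‖p‖ ≤ 1 ↔ (p 2) ^ 2 + ‖(⟨p 0, p 1⟩ : ℂ)‖ ^ 2 ≤ 1 := by
  have h1 := evec_norm p
  have h2 : ‖(⟨p 0, p 1⟩ : ℂ)‖ ^ 2 = p 0 * p 0 + p 1 * p 1 := by
    rw [← Complex.normSq_eq_norm_sq, Complex.normSq_apply]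
  rw [h2, show (p 2) ^ 2 + (p 0 * p 0 + p 1 * p 1) = ‖p‖ ^ 2 by rw [h1]; ring]
  rw [sq_le_one_iff₀ (norm_nonneg p)]

theorem ekap1b_vol {t : ℝ} (h0 : 0 ≤ t) (h1 : t < π) :
    volume ((Hs !₂[1, 0, 0] ∩ Hs !₂[cos t, sin t, 0]) ∩ Metric.closedBall (0 : E3) 1) =
      ENNReal.ofReal ((π - t) / 2) * ∫⁻ h, ekap1b_F h := by
  have hS : MeasurableSet {x : ℝ × ℂ | x.1 ^ 2 + ‖x.2‖ ^ 2 ≤ 1 ∧ 0 ≤ x.2.re ∧ 0 ≤ cos t * x.2.re + sin t * x.2.im} := by
    have c1 : IsClosed {x : ℝ × ℂ | x.1 ^ 2 + ‖x.2‖ ^ 2 ≤ 1} := isClosed_le (by fun_prop) continuous_const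
    have c2 : IsClosed {x : ℝ × ℂ | 0 ≤ x.2.re} :=
      isClosed_le continuous_const (Complex.continuous_re.comp continuous_snd)
    have c3 : IsClosed {x : ℝ × ℂ | 0 ≤ cos t * x.2.re + sin t * x.2.im} :=
      isClosed_le continuous_const (((continuous_const.mul (Complex.continuous_re.comp continuous_snd)).add
        (continuous_const.mul (Complex.continuous_im.comp continuous_snd))))
    exact (c1.inter (c2.inter c3)).measurableSet
  have hpre : ((Hs !₂[1, 0, 0] ∩ Hs !₂[cos t, sin t, 0]) ∩ Metric.closedBall (0 : E3) 1) =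
      ekap1b_Phi ⁻¹' {x : ℝ × ℂ | x.1 ^ 2 + ‖x.2‖ ^ 2 ≤ 1 ∧ 0 ≤ x.2.re ∧ 0 ≤ cos t * x.2.re + sin t * x.2.im} := by
    ext p
    rw [Set.mem_preimage, ekap1b_Phi_apply]
    simp only [Set.mem_inter_iff, Set.mem_ofPred_eq, mem_closedBall_zero_iff, Hs]
    rw [ekap1b_norm, inner3, inner3]
    simp
    constructor
    · rintro ⟨⟨a, b⟩, c⟩
      exact ⟨c, a, by linarith⟩
    · rintro ⟨c, a, b⟩
      exact ⟨⟨a, by linarith⟩, c⟩
  rw [hpre, ekap1b_Phi_mp.measure_preimage_equiv, Measure.volume_eq_prod, Measure.prod_apply hS]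
  rw [← lintegral_const_mul _ ekap1b_F_meas]
  refine lintegral_congr fun h => ?_
  exact ekap1b_slice h0 h1 h

theorem ekap1b_ball : volume (Metric.closedBall (0 : E3) 1) = ENNReal.ofReal π * ∫⁻ h, ekap1b_F h := by
  have hS : MeasurableSet {x : ℝ × ℂ | x.1 ^ 2 + ‖x.2‖ ^ 2 ≤ 1} :=
    (isClosed_le (by fun_prop) continuous_const).measurableSet
  have hpre : Metric.closedBall (0 : E3) 1 = ekap1b_Phi ⁻¹' {x : ℝ × ℂ | x.1 ^ 2 + ‖x.2‖ ^ 2 ≤ 1} := by
    ext p
    rw [Set.mem_preimage, ekap1b_Phi_apply]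
    simp only [Set.mem_ofPred_eq, mem_closedBall_zero_iff]
    exact ekap1b_norm p
  rw [hpre, ekap1b_Phi_mp.measure_preimage_equiv, Measure.volume_eq_prod, Measure.prod_apply hS]
  rw [← lintegral_const_mul _ ekap1b_F_meas]
  refine lintegral_congr fun h => ?_
  exact ekap1b_full h

theorem wedge_std {t : ℝ} (h0 : 0 ≤ t) (h1 : t ≤ π) :
    mB (Hs !₂[1, 0, 0] ∩ Hs !₂[cos t, sin t, 0]) = (π - t) / (2 * π) * mB Set.univ := by
  have hpi := Real.pi_pos
  rcases h1.lt_or_eq with h2 | h2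
  · unfold mB
    rw [Set.univ_inter, ekap1b_vol h0 h2, ekap1b_ball, ENNReal.toReal_mul, ENNReal.toReal_mul,
      ENNReal.toReal_ofReal (by linarith), ENNReal.toReal_ofReal hpi.le]
    field_simp
  · subst h2
    rw [sub_self, zero_div, zero_mul]
    unfold mB
    have h3 : volume ((Hs !₂[1, 0, 0] ∩ Hs !₂[cos π, sin π, 0]) ∩ Metric.closedBall (0 : E3) 1) = 0 := by
      refine measure_mono_null ?_ (plane_null (X := !₂[1, 0, 0]) ?_)
      · rintro p ⟨⟨a, b⟩, c⟩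
        simp only [Set.mem_ofPred_eq, Hs] at a b ⊢
        rw [inner3] at a b ⊢
        simp at a b ⊢
        linarith
      · intro h
        have := congrArg (fun q : E3 => q 0) h
        simp at this
    rw [h3, ENNReal.toReal_zero]

/-- an adapted isometry -/
theorem ekap1b_isom {X Y : E3} (hX : X ≠ 0) (hY : Y ≠ 0) : ∃ g : E3 ≃ₗᵢ[ℝ] E3, g X = ‖X‖ • !₂[1, 0, 0] ∧
    g Y = ‖Y‖ • !₂[cos (InnerProductGeometry.angle X Y), sin (InnerProductGeometry.angle X Y), 0] := by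
  have hXn : 0 < ‖X‖ := norm_pos_iff.2 hX
  have hYn : 0 < ‖Y‖ := norm_pos_iff.2 hY
  obtain ⟨f1, hf1⟩ : ∃ f1 : E3, f1 = ‖X‖⁻¹ • X := ⟨_, rfl⟩
  have hf1n : ‖f1‖ = 1 := by
    rw [hf1, norm_smul, norm_inv, norm_norm, inv_mul_cancel₀ hXn.ne']
  have hXf : X = ‖X‖ • f1 := by
    rw [hf1, smul_smul, mul_inv_cancel₀ hXn.ne', one_smul]
  obtain ⟨w, hw⟩ : ∃ w : E3, w = Y - (inner ℝ f1 Y : ℝ) • f1 := ⟨_, rfl⟩
  have hYw : Y = (inner ℝ f1 Y : ℝ) • f1 + w := by rw [hw]; abel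
  have hwf : inner ℝ f1 w = 0 := by
    rw [hw, inner_sub_right, inner_smul_right, real_inner_self_eq_norm_sq, hf1n]
    ring
  have hcos : inner ℝ f1 Y = ‖Y‖ * cos (InnerProductGeometry.angle X Y) := by
    rw [InnerProductGeometry.cos_angle, hf1, inner_smul_left]
    simp only [conj_trivial]
    field_simp
  have hw2 : ‖w‖ ^ 2 = ‖Y‖ ^ 2 - (inner ℝ f1 Y) ^ 2 := by
    rw [hw, norm_sub_sq_real, inner_smul_right, real_inner_comm f1 Y, norm_smul, hf1n, mul_one, Real.norm_eq_abs, sq_abs]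
    ring
  have hsin0 := InnerProductGeometry.sin_angle_nonneg X Y
  have hwn : ‖w‖ = ‖Y‖ * sin (InnerProductGeometry.angle X Y) := by
    have h1 : ‖w‖ ^ 2 = (‖Y‖ * sin (InnerProductGeometry.angle X Y)) ^ 2 := by
      rw [hw2, hcos]
      have := sin_sq_add_cos_sq (InnerProductGeometry.angle X Y)
      nlinarith [this]
    rwa [sq_eq_sq₀ (norm_nonneg _) (mul_nonneg hYn.le hsin0)] at h1
  obtain ⟨b, hb0, hb1, hb2⟩ : ∃ b : OrthonormalBasis (Fin 3) ℝ E3, b 0 = f1 ∧ inner ℝ (b 1) Y = ‖w‖ ∧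
      inner ℝ (b 2) Y = 0 := by
    by_cases hw0 : w = 0
    · obtain ⟨b, hb⟩ := Orthonormal.exists_orthonormalBasis_extension_of_card_eq (𝕜 := ℝ) (E := E3) (ι := Fin 3)
        (by simp) (v := fun _ => f1) (s := {0}) (by
          rw [orthonormal_iff_ite]
          rintro ⟨i, hi⟩ ⟨j, hj⟩
          rw [Set.mem_singleton_iff] at hi hj
          subst hi hj
          simp [Set.domRestrict, hf1n])
      have h0 : b 0 = f1 := hb 0 rfl
      have h1 : inner ℝ (b 1) f1 = 0 := by rw [← h0]; exact b.orthonormal.2 (by decide)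
      have h2 : inner ℝ (b 2) f1 = 0 := by rw [← h0]; exact b.orthonormal.2 (by decide)
      refine ⟨b, h0, ?_, ?_⟩
      · rw [hYw, hw0, add_zero, inner_smul_right, h1, norm_zero, mul_zero]
      · rw [hYw, hw0, add_zero, inner_smul_right, h2, mul_zero]
    · have hwn' : 0 < ‖w‖ := norm_pos_iff.2 hw0
      obtain ⟨b, hb⟩ := Orthonormal.exists_orthonormalBasis_extension_of_card_eq (𝕜 := ℝ) (E := E3) (ι := Fin 3)
        (by simp) (v := ![f1, ‖w‖⁻¹ • w, 0]) (s := {0, 1}) (by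
          have a1 : inner ℝ f1 f1 = (1 : ℝ) := by rw [real_inner_self_eq_norm_sq, hf1n]; norm_num
          have a2 : inner ℝ f1 (‖w‖⁻¹ • w) = (0 : ℝ) := by rw [inner_smul_right, hwf, mul_zero]
          have a3 : inner ℝ (‖w‖⁻¹ • w) f1 = (0 : ℝ) := by rw [real_inner_comm]; exact a2
          have a4 : inner ℝ (‖w‖⁻¹ • w) (‖w‖⁻¹ • w) = (1 : ℝ) := by
            rw [real_inner_self_eq_norm_sq, norm_smul, norm_inv, norm_norm, inv_mul_cancel₀ hwn'.ne']
            norm_num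
          rw [orthonormal_iff_ite]
          rintro ⟨i, hi⟩ ⟨j, hj⟩
          rw [Set.mem_insert_iff, Set.mem_singleton_iff] at hi hj
          rcases hi with rfl | rfl <;> rcases hj with rfl | rfl
          · simpa [Set.domRestrict] using a1
          · simpa [Set.domRestrict] using a2
          · simpa [Set.domRestrict] using a3
          · simpa [Set.domRestrict] using a4)
      have h0 : b 0 = f1 := hb 0 (by simp)
      have h1 : b 1 = ‖w‖⁻¹ • w := hb 1 (by simp)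
      have e1 : inner ℝ (b 1) f1 = 0 := by rw [← h0]; exact b.orthonormal.2 (by decide)
      have e2 : inner ℝ (b 2) f1 = 0 := by rw [← h0]; exact b.orthonormal.2 (by decide)
      have e3 : inner ℝ (b 2) (b 1) = 0 := b.orthonormal.2 (by decide)
      have e4 : w = ‖w‖ • b 1 := by rw [h1, smul_smul, mul_inv_cancel₀ hwn'.ne', one_smul]
      have e5 : inner ℝ (b 1) (b 1) = (1 : ℝ) := by
        rw [real_inner_self_eq_norm_sq, b.orthonormal.1 1]; norm_num
      refine ⟨b, h0, ?_, ?_⟩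
      · rw [hYw, inner_add_right, inner_smul_right, e1, mul_zero, zero_add]
        nth_rewrite 1 [e4]
        rw [inner_smul_right, e5, mul_one]
      · rw [hYw, inner_add_right, inner_smul_right, e2, mul_zero, zero_add]
        rw [e4, inner_smul_right, e3, mul_zero]
  have hX0 : inner ℝ (b 0) X = ‖X‖ := by
    rw [hb0]
    nth_rewrite 1 [hXf]
    rw [inner_smul_right, real_inner_self_eq_norm_sq, hf1n]
    ring
  have hX1 : inner ℝ (b 1) X = 0 := by
    rw [hXf, inner_smul_right, ← hb0, b.orthonormal.2 (by decide : (1 : Fin 3) ≠ 0), mul_zero]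
  have hX2 : inner ℝ (b 2) X = 0 := by
    rw [hXf, inner_smul_right, ← hb0, b.orthonormal.2 (by decide : (2 : Fin 3) ≠ 0), mul_zero]
  have hY0 : inner ℝ (b 0) Y = ‖Y‖ * cos (InnerProductGeometry.angle X Y) := by rw [hb0]; exact hcos
  refine ⟨b.repr, ?_, ?_⟩
  · apply evec_ext
    · rw [b.repr_apply_apply, hX0]; simp
    · rw [b.repr_apply_apply, hX1]; simp
    · rw [b.repr_apply_apply, hX2]; simp
  · apply evec_ext
    · rw [b.repr_apply_apply, hY0]; simp
    · rw [b.repr_apply_apply, hb1, hwn]; simp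
    · rw [b.repr_apply_apply, hb2]; simp

theorem ekap1b_Hs_smul {c : ℝ} (hc : 0 < c) (X : E3) : Hs (c • X) = Hs X := by
  ext p
  show 0 ≤ (inner ℝ p (c • X) : ℝ) ↔ 0 ≤ (inner ℝ p X : ℝ)
  rw [inner_smul_right, mul_nonneg_iff_of_pos_left hc]

theorem ekap1b_Hs_pre (g : E3 ≃ₗᵢ[ℝ] E3) (X : E3) : Hs X = g ⁻¹' Hs (g X) := by
  ext p
  show 0 ≤ (inner ℝ p X : ℝ) ↔ 0 ≤ (inner ℝ (g p) (g X) : ℝ)
  rw [LinearIsometryEquiv.inner_map_map]

theorem wedge {X Y : E3} (hX : X ≠ 0) (hY : Y ≠ 0) :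
    mB (Hs X ∩ Hs Y) = (π - InnerProductGeometry.angle X Y) / (2 * π) * mB Set.univ := by
  obtain ⟨g, h1, h2⟩ := ekap1b_isom hX hY
  rw [ekap1b_Hs_pre g X, ekap1b_Hs_pre g Y, ← Set.preimage_inter, mB_isom, h1, h2,
    ekap1b_Hs_smul (norm_pos_iff.2 hX), ekap1b_Hs_smul (norm_pos_iff.2 hY)]
  exact wedge_std (InnerProductGeometry.angle_nonneg X Y) (InnerProductGeometry.angle_le_pi X Y)

end H47A
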