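import Pool.Agent.Lib.H47A.EKap2
import Pool.Agent.Lib.H47A.EAct

/-! # H47A, chunk EKAP3 (M): see the docstring of EKap2.lean. `kap_lt`: the three angles are angles between linearly independent vectors
(det3 != 0, (a x b) x (b x c) = D b != 0), so they are positive and kap < 2 pi. -/

open Real MeasureTheory Filter Topology

namespace H47A

variable {A : Type} [Fintype A] [DecidableEq A] {n : A → E3}

/-- a point of the normal cone is nonpositive on the directions of the tangent cone -/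
theorem ekap3_dir (hG : Gnr n) {v : E3} (hv : gg n v = 1) {y E : E3} (hy : y ∈ NC n v)
    (hE : ∀ α, Act n α v → lf n α E ≤ 0) : (inner ℝ y E : ℝ) ≤ 0 := by
  have hne := egau_ne hG
  have h1 : ∀ α : A × Bool, ∀ᶠ r in 𝓝[>] (0 : ℝ), lf n α (v + r • E) ≤ 1 := by
    intro α
    by_cases hα : Act n α v
    · filter_upwards [self_mem_nhdsWithin] with r hr
      rw [lf_add, lf_smul, (act_iff hG α v).1 hα, hv]
      have := mul_nonpos_of_nonneg_of_nonpos (le_of_lt (show (0 : ℝ) < r from hr)) (hE α hα)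
      linarith
    · have h2 : lf n α v < 1 := by
        rcases (lf_le_gg (n := n) α v).lt_or_eq with h | h
        · rw [hv] at h; exact h
        · exact absurd ((act_iff hG α v).2 h) hα
      have h3 : Tendsto (fun r : ℝ => lf n α (v + r • E)) (𝓝[>] (0 : ℝ)) (𝓝 (lf n α v)) := by
        have h4 : Continuous fun r : ℝ => lf n α (v + r • E) :=
          (egau_lf_cont α).comp (continuous_const.add (continuous_id.smul continuous_const))
        have h5 := h4.tendsto 0
        simp only [zero_smul, add_zero] at h5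
        exact h5.mono_left nhdsWithin_le_nhds
      filter_upwards [h3.eventually (gt_mem_nhds h2)] with r hr
      exact hr.le
  have h2 : ∀ᶠ r in 𝓝[>] (0 : ℝ), ∀ α : A × Bool, lf n α (v + r • E) ≤ 1 := eventually_all.2 h1
  obtain ⟨r, hr, hr0⟩ := (h2.and self_mem_nhdsWithin).exists
  have hr0' : (0 : ℝ) < r := hr0
  have h3 := hy (v + r • E) (ciSup_le hr)
  rw [inner_add_right, inner_smul_right] at h3
  have h4 : r * (inner ℝ y E : ℝ) ≤ 0 := by linarith
  by_contra h5
  push Not at h5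
  have := mul_pos hr0' h5
  linarith

theorem ekap3_lf (hG : Gnr n) {v : E3} (hv : gg n v = 1) {α : A × Bool} (h : Act n α v) : inner ℝ (nn n α) v = (1 : ℝ) := by
  have h1 := (act_iff hG α v).1 h
  rw [hv] at h1
  exact h1

theorem ekap3_det1 (u v w : E3) : inner ℝ u (cross3 v w) = det3 u v w := by
  rw [det3_rot, det3]
  exact real_inner_comm _ _

theorem nc_vertex (hG : Gnr n) {v : E3} (hv : gg n v = 1) {P Q R : A × Bool} (h12 : P ≠ Q) (h13 : P ≠ R) (h23 : Q ≠ R)
    (h1 : Act n P v) (h2 : Act n Q v) (h3 : Act n R v) (y : E3) :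
    y ∈ NC n v ↔ (0 ≤ inner ℝ y (cross3 (nn n Q) (nn n R)) * det3 (nn n P) (nn n Q) (nn n R) ∧
      0 ≤ inner ℝ y (cross3 (nn n R) (nn n P)) * det3 (nn n P) (nn n Q) (nn n R) ∧
      0 ≤ inner ℝ y (cross3 (nn n P) (nn n Q)) * det3 (nn n P) (nn n Q) (nn n R)) := by
  have hv0 : v ≠ 0 := bd_ne_zero hG hv
  have hD := det_ne hG hv0 h1 h2 h3 h12 h13 h23
  obtain ⟨D, hDD⟩ : ∃ D, D = det3 (nn n P) (nn n Q) (nn n R) := ⟨_, rfl⟩
  rw [← hDD] at hD ⊢
  have hDD2 : 0 < D ^ 2 := by positivity
  have e1 : inner ℝ (nn n P) (cross3 (nn n Q) (nn n R)) = D := by rw [ekap3_det1, hDD]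
  have e2 : inner ℝ (nn n Q) (cross3 (nn n R) (nn n P)) = D := by rw [ekap3_det1, ← det3_rot, hDD]
  have e3 : inner ℝ (nn n R) (cross3 (nn n P) (nn n Q)) = D := by rw [ekap3_det1, det3_rot, hDD]
  have z12 : inner ℝ (nn n Q) (cross3 (nn n Q) (nn n R)) = (0 : ℝ) := by
    rw [real_inner_comm]; exact cross3_self_left _ _
  have z13 : inner ℝ (nn n R) (cross3 (nn n Q) (nn n R)) = (0 : ℝ) := by
    rw [real_inner_comm]; exact cross3_self_right _ _
  have z21 : inner ℝ (nn n P) (cross3 (nn n R) (nn n P)) = (0 : ℝ) := by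
    rw [real_inner_comm]; exact cross3_self_right _ _
  have z23 : inner ℝ (nn n R) (cross3 (nn n R) (nn n P)) = (0 : ℝ) := by
    rw [real_inner_comm]; exact cross3_self_left _ _
  have z31 : inner ℝ (nn n P) (cross3 (nn n P) (nn n Q)) = (0 : ℝ) := by
    rw [real_inner_comm]; exact cross3_self_left _ _
  have z32 : inner ℝ (nn n Q) (cross3 (nn n P) (nn n Q)) = (0 : ℝ) := by
    rw [real_inner_comm]; exact cross3_self_right _ _
  constructor
  · intro hy
    have key : ∀ W : E3, (inner ℝ (nn n P) W : ℝ) * D ≥ 0 → (inner ℝ (nn n Q) W : ℝ) * D ≥ 0 →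
        (inner ℝ (nn n R) W : ℝ) * D ≥ 0 → 0 ≤ (inner ℝ y W : ℝ) * D := by
      intro W k1 k2 k3
      have h4 := ekap3_dir hG hv hy (E := (-D) • W) (by
        intro α hα
        rw [lf_smul]
        show -D * (inner ℝ (nn n α) W : ℝ) ≤ 0
        rcases no_four hG hv0 h1 h2 h3 hα h12 h13 h23 with h | h | h
        · rw [h]; linarith
        · rw [h]; linarith
        · rw [h]; linarith)
      rw [inner_smul_right] at h4
      linarith
    refine ⟨key _ ?_ ?_ ?_, key _ ?_ ?_ ?_, key _ ?_ ?_ ?_⟩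
    · rw [e1]; nlinarith
    · rw [z12]; simp
    · rw [z13]; simp
    · rw [z21]; simp
    · rw [e2]; nlinarith
    · rw [z23]; simp
    · rw [z31]; simp
    · rw [z32]; simp
    · rw [e3]; nlinarith
  · rintro ⟨k1, k2, k3⟩
    obtain ⟨x1, x2, x3, hy⟩ := comb3 (hDD ▸ hD : det3 (nn n P) (nn n Q) (nn n R) ≠ 0) y
    have hx1 : 0 ≤ x1 := by
      rw [hy, inner_add_left, inner_add_left, inner_smul_left, inner_smul_left, inner_smul_left, e1, z12, z13] at k1
      simp only [conj_trivial, mul_zero, add_zero] at k1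
      by_contra h; push Not at h
      nlinarith
    have hx2 : 0 ≤ x2 := by
      rw [hy, inner_add_left, inner_add_left, inner_smul_left, inner_smul_left, inner_smul_left, e2, z21, z23] at k2
      simp only [conj_trivial, mul_zero, add_zero, zero_add] at k2
      by_contra h; push Not at h
      nlinarith
    have hx3 : 0 ≤ x3 := by
      rw [hy, inner_add_left, inner_add_left, inner_smul_left, inner_smul_left, inner_smul_left, e3, z31, z32] at k3
      simp only [conj_trivial, mul_zero, add_zero, zero_add] at k3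
      by_contra h; push Not at h
      nlinarith
    intro x hx
    have l1 : (inner ℝ (nn n P) x : ℝ) ≤ 1 := (lf_le_gg (n := n) P x).trans hx
    have l2 : (inner ℝ (nn n Q) x : ℝ) ≤ 1 := (lf_le_gg (n := n) Q x).trans hx
    have l3 : (inner ℝ (nn n R) x : ℝ) ≤ 1 := (lf_le_gg (n := n) R x).trans hx
    rw [hy, inner_add_left, inner_add_left, inner_add_left, inner_add_left, inner_smul_left, inner_smul_left,
      inner_smul_left, inner_smul_left, inner_smul_left, inner_smul_left, ekap3_lf hG hv h1, ekap3_lf hG hv h2,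
      ekap3_lf hG hv h3]
    simp only [conj_trivial]
    have m1 := mul_le_mul_of_nonneg_left l1 hx1
    have m2 := mul_le_mul_of_nonneg_left l2 hx2
    have m3 := mul_le_mul_of_nonneg_left l3 hx3
    linarith

theorem kap_vertex (hG : Gnr n) {v : E3} (hv : gg n v = 1) {P Q R : A × Bool} (h12 : P ≠ Q) (h13 : P ≠ R) (h23 : Q ≠ R)
    (h1 : Act n P v) (h2 : Act n Q v) (h3 : Act n R v) :
    kap n v = 2 * π - ang3 (nn n P) (nn n Q) (nn n R) := by
  have hv0 : v ≠ 0 := bd_ne_zero hG hv
  have hD := det_ne hG hv0 h1 h2 h3 h12 h13 h23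
  have hX : cross3 (nn n P) (nn n Q) ≠ 0 := cross_ne hG (act_fst_ne hG h12 hv0 h1 h2)
  have hY : cross3 (nn n Q) (nn n R) ≠ 0 := cross_ne hG (act_fst_ne hG h23 hv0 h2 h3)
  have hZ : cross3 (nn n R) (nn n P) ≠ 0 := cross_ne hG (act_fst_ne hG h13.symm hv0 h3 h1)
  have hm0 := mB_univ_pos
  have hpi := Real.pi_pos
  have key : mB (NC n v) = (2 * π - ang3 (nn n P) (nn n Q) (nn n R)) / (4 * π) * mB Set.univ := by
    unfold ang3
    rcases lt_or_gt_of_ne hD with h | h
    · have e : NC n v = Hs (-cross3 (nn n P) (nn n Q)) ∩ Hs (-cross3 (nn n Q) (nn n R)) ∩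
          Hs (-cross3 (nn n R) (nn n P)) := by
        ext y
        rw [nc_vertex hG hv h12 h13 h23 h1 h2 h3 y]
        have hc : ∀ t : ℝ, 0 ≤ t * det3 (nn n P) (nn n Q) (nn n R) ↔ t ≤ 0 := by
          intro t
          constructor
          · intro ht
            by_contra h'
            push Not at h'
            nlinarith [mul_neg_of_pos_of_neg h' h]
          · intro ht
            nlinarith [mul_nonneg_of_nonpos_of_nonpos ht h.le]
        rw [hc, hc, hc]
        simp only [Set.mem_inter_iff]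
        show _ ↔ ((0 ≤ (inner ℝ y (-cross3 (nn n P) (nn n Q)) : ℝ)) ∧ (0 ≤ (inner ℝ y (-cross3 (nn n Q) (nn n R)) : ℝ))) ∧
          (0 ≤ (inner ℝ y (-cross3 (nn n R) (nn n P)) : ℝ))
        rw [inner_neg_right, inner_neg_right, inner_neg_right]
        constructor
        · rintro ⟨a, b, c⟩
          exact ⟨⟨by linarith, by linarith⟩, by linarith⟩
        · rintro ⟨⟨c, a⟩, b⟩
          exact ⟨by linarith, by linarith, by linarith⟩
      rw [e, girard (neg_ne_zero.2 hX) (neg_ne_zero.2 hY) (neg_ne_zero.2 hZ), InnerProductGeometry.angle_neg_neg,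
        InnerProductGeometry.angle_neg_neg, InnerProductGeometry.angle_neg_neg]
    · have e : NC n v = Hs (cross3 (nn n P) (nn n Q)) ∩ Hs (cross3 (nn n Q) (nn n R)) ∩
          Hs (cross3 (nn n R) (nn n P)) := by
        ext y
        rw [nc_vertex hG hv h12 h13 h23 h1 h2 h3 y]
        have hc : ∀ t : ℝ, 0 ≤ t * det3 (nn n P) (nn n Q) (nn n R) ↔ 0 ≤ t := by
          intro t
          exact mul_nonneg_iff_of_pos_right h
        rw [hc, hc, hc]
        simp only [Set.mem_inter_iff]
        show _ ↔ ((0 ≤ (inner ℝ y (cross3 (nn n P) (nn n Q)) : ℝ)) ∧ (0 ≤ (inner ℝ y (cross3 (nn n Q) (nn n R)) : ℝ))) ∧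
          (0 ≤ (inner ℝ y (cross3 (nn n R) (nn n P)) : ℝ))
        constructor
        · rintro ⟨a, b, c⟩
          exact ⟨⟨c, a⟩, b⟩
        · rintro ⟨⟨c, a⟩, b⟩
          exact ⟨a, b, c⟩
      rw [e, girard hX hY hZ]
  unfold kap
  rw [key]
  field_simp

theorem ang3_pos (hG : Gnr n) {v : E3} (hv : gg n v = 1) {P Q R : A × Bool} (h12 : P ≠ Q) (h13 : P ≠ R) (h23 : Q ≠ R)
    (h1 : Act n P v) (h2 : Act n Q v) (h3 : Act n R v) : 0 < ang3 (nn n P) (nn n Q) (nn n R) := by
  have hv0 : v ≠ 0 := bd_ne_zero hG hv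
  have hD := det_ne hG hv0 h1 h2 h3 h12 h13 h23
  have hX : cross3 (nn n P) (nn n Q) ≠ 0 := cross_ne hG (act_fst_ne hG h12 hv0 h1 h2)
  have hY : cross3 (nn n Q) (nn n R) ≠ 0 := cross_ne hG (act_fst_ne hG h23 hv0 h2 h3)
  have ha : 0 < InnerProductGeometry.angle (cross3 (nn n P) (nn n Q)) (cross3 (nn n Q) (nn n R)) := by
    refine lt_of_le_of_ne (InnerProductGeometry.angle_nonneg _ _) fun h => ?_
    obtain ⟨-, r, -, hr⟩ := InnerProductGeometry.angle_eq_zero_iff.1 h.symm
    have h4 := cross3_cross (nn n P) (nn n Q) (nn n R)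
    rw [hr] at h4
    have h5 : cross3 (cross3 (nn n P) (nn n Q)) (r • cross3 (nn n P) (nn n Q)) = 0 := by
      have := cross3_smul 1 r (cross3 (nn n P) (nn n Q)) (cross3 (nn n P) (nn n Q))
      rw [one_smul, eact_cs, smul_zero] at this
      exact this
    rw [h5] at h4
    exact (smul_ne_zero hD (nn_ne_zero hG Q)) h4.symm
  unfold ang3
  have hb := InnerProductGeometry.angle_nonneg (cross3 (nn n Q) (nn n R)) (cross3 (nn n R) (nn n P))
  have hc := InnerProductGeometry.angle_nonneg (cross3 (nn n R) (nn n P)) (cross3 (nn n P) (nn n Q))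
  linarith

end H47A
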