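import Pool.Agent.Lib.H47A.EKap3

/-! # H47A, chunks EKAP4 (M), EKAP5 (M): normal cones tile
EKAP4: `nc_nonvertex`: v in bd not a vertex: all active facets are among P, Q with P.1 != Q.1 (if one active facet, Q any index with Q.1 != P.1, exists since
A has at least three elements), E = P x Q != 0 (`cross_ne`); v + r E and v - r E are in P for small r > 0, so <y,E> = 0 for y in NC v.
`kap_nonvertex`, `kap_neg`: NC (-v) = -NC v (gg_neg), `mB_isom` with -1.
EKAP5 (EKap5.lean) `kap_sum`: Sum over the vertices of mB (NC v) = mB univ. Disjoint up to null sets: y in NC v ∩ NC w gives <y, v - w> = 0 (`plane_null`). Cover up to a null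
set: the polytope {gg <= 1} is compact (`poly_body`); y not in the finitely many planes <y, nn P x nn Q> = 0 (P.1 != Q.1), y != 0: a maximum point
x0 of <y,.> has y in NC x0, gg x0 = 1 (y != 0: otherwise scale), and x0 is a vertex by `nc_nonvertex`. Finite additivity up to null sets
(measure_biUnion_finset₀ / AEDisjoint); NC v is closed. -/

open Real MeasureTheory

namespace H47A

variable {A : Type} [Fintype A] [DecidableEq A] {n : A → E3}

theorem nc_nonvertex (hG : Gnr n) {v : E3} (hv : gg n v = 1) (h : v ∉ Vx n) :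
    ∃ P Q : A × Bool, P.1 ≠ Q.1 ∧ ∀ y ∈ NC n v, (inner ℝ y (cross3 (nn n P) (nn n Q)) : ℝ) = 0 := by
  have hv0 : v ≠ 0 := bd_ne_zero hG hv
  obtain ⟨P, hP⟩ := exists_act hG v
  obtain ⟨Q, hPQ, hall⟩ : ∃ Q : A × Bool, P.1 ≠ Q.1 ∧ ∀ α, Act n α v → α = P ∨ α = Q := by
    by_cases hex : ∃ Q, Q ≠ P ∧ Act n Q v
    · obtain ⟨Q, hQP, hQ⟩ := hex
      refine ⟨Q, act_fst_ne hG hQP.symm hv0 hP hQ, fun α hα => ?_⟩
      by_contra hc
      push Not at hc
      exact h ⟨hv, P, Q, α, hQP.symm, hc.2.symm, hc.1.symm, hP, hQ, hα⟩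
    · push Not at hex
      obtain ⟨u, hu, hu1, -⟩ := eact_orth (n P.1) (0 : E3)
      obtain ⟨a, ha⟩ := hG.bdd u hu
      refine ⟨(a, true), ?_, fun α hα => ?_⟩
      · intro h1
        apply ha
        rw [← show P.1 = a from h1]
        exact hu1
      · left
        by_contra hc
        exact hex α hc hα
  refine ⟨P, Q, hPQ, fun y hy => ?_⟩
  have z1 : lf n P (cross3 (nn n P) (nn n Q)) = 0 := by
    show inner ℝ (nn n P) _ = (0 : ℝ)
    rw [real_inner_comm]; exact cross3_self_left _ _
  have z2 : lf n Q (cross3 (nn n P) (nn n Q)) = 0 := by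
    show inner ℝ (nn n Q) _ = (0 : ℝ)
    rw [real_inner_comm]; exact cross3_self_right _ _
  have k1 := ekap3_dir hG hv hy (E := cross3 (nn n P) (nn n Q)) (by
    intro α hα
    rcases hall α hα with h1 | h1
    · rw [h1, z1]
    · rw [h1, z2])
  have k2 := ekap3_dir hG hv hy (E := -cross3 (nn n P) (nn n Q)) (by
    intro α hα
    rw [lf_neg]
    rcases hall α hα with h1 | h1
    · rw [h1, z1, neg_zero]
    · rw [h1, z2, neg_zero])
  rw [inner_neg_right] at k2
  linarith

theorem kap_nonvertex (hG : Gnr n) {v : E3} (hv : gg n v = 1) (h : v ∉ Vx n) : kap n v = 0 := by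
  obtain ⟨P, Q, hPQ, hy⟩ := nc_nonvertex hG hv h
  have hE := cross_ne hG hPQ
  have h1 : mB (NC n v) = 0 := by
    unfold mB
    rw [measure_mono_null (t := {p : E3 | (inner ℝ p (cross3 (nn n P) (nn n Q)) : ℝ) = 0}) (fun y hy' => hy y hy'.1)
      (plane_null hE), ENNReal.toReal_zero]
  unfold kap
  rw [h1, zero_div, mul_zero]

theorem kap_neg (hG : Gnr n) (v : E3) : kap n (-v) = kap n v := by
  have h1 : NC n (-v) = {p | -p ∈ NC n v} := by
    ext y
    constructor
    · intro hy x hx
      have h2 := hy (-x) (by rw [gg_neg hG]; exact hx)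
      rw [inner_neg_right, inner_neg_right] at h2
      rw [inner_neg_left, inner_neg_left]
      exact h2
    · intro hy x hx
      have h2 := hy (-x) (by rw [gg_neg hG]; exact hx)
      rw [inner_neg_neg, inner_neg_left] at h2
      rw [inner_neg_right]
      exact h2
  unfold kap
  rw [h1, ekap2_neg]

theorem kap_nonneg (v : E3) : 0 ≤ kap n v := by
  unfold kap mB
  have := Real.pi_pos
  positivity

theorem kap_lt (hG : Gnr n) {v : E3} (hv : gg n v = 1) : kap n v < 2 * π := by
  by_cases h : v ∈ Vx n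
  · obtain ⟨-, P, Q, R, h12, h23, h13, h1, h2, h3⟩ := h
    rw [kap_vertex hG hv h12 h13 h23 h1 h2 h3]
    have := ang3_pos hG hv h12 h13 h23 h1 h2 h3
    linarith
  · rw [kap_nonvertex hG hv h]
    have := Real.pi_pos
    linarith

end H47A
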