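import Pool.Agent.Lib.H47A.EKap4

/-! # H47A, chunk EKAP5 (M): see the docstring of EKap4.lean -/

open Real MeasureTheory

namespace H47A

variable {A : Type} [Fintype A] [DecidableEq A] {n : A → E3}

theorem ekap5_closed (v : E3) : IsClosed (NC n v) := by
  have h : NC n v = ⋂ x : E3, ⋂ _ : gg n x ≤ 1, {y : E3 | (inner ℝ y x : ℝ) ≤ inner ℝ y v} := by
    ext y
    simp only [Set.mem_iInter]
    rfl
  rw [h]
  exact isClosed_iInter fun x => isClosed_iInter fun _ =>
    isClosed_le (continuous_id.inner continuous_const) (continuous_id.inner continuous_const)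

theorem ekap5_max (hG : Gnr n) {y : E3} (hy : y ≠ 0) : ∃ x, gg n x = 1 ∧ y ∈ NC n x := by
  have hne : ({u : E3 | gg n u ≤ 1}).Nonempty := ⟨0, by
    show gg n 0 ≤ 1
    rw [egau_zero hG]; exact zero_le_one⟩
  obtain ⟨x, hx, hmax⟩ := (egau_compact hG).exists_isMaxOn hne
    (f := fun x : E3 => (inner ℝ y x : ℝ)) (continuous_const.inner continuous_id).continuousOn
  have hx1 : gg n x ≤ 1 := hx
  refine ⟨x, ?_, fun z hz => hmax hz⟩
  by_contra hne1
  have hlt : gg n x < 1 := lt_of_le_of_ne hx1 hne1
  have hgy := gg_pos hG hy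
  have ht : 0 < (1 - gg n x) / gg n y := div_pos (by linarith) hgy
  have h1 : gg n (x + ((1 - gg n x) / gg n y) • y) ≤ 1 := by
    refine (gg_add hG _ _).trans ?_
    rw [gg_smul hG ht.le, div_mul_cancel₀ _ hgy.ne']
    linarith
  have h2 : (inner ℝ y (x + ((1 - gg n x) / gg n y) • y) : ℝ) ≤ inner ℝ y x := hmax h1
  rw [inner_add_right, inner_smul_right, real_inner_self_eq_norm_sq] at h2
  have h3 : 0 < ‖y‖ ^ 2 := by
    have := norm_pos_iff.2 hy
    positivity
  have := mul_pos ht h3
  linarith

theorem kap_sum (hG : Gnr n) : ∑ v ∈ (vx_finite hG).toFinset, kap n v = 4 * π := by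
  classical
  obtain ⟨μ, hμ⟩ : ∃ μ : Measure E3, μ = (volume : Measure E3).restrict (Metric.closedBall 0 1) := ⟨_, rfl⟩
  have hfin : IsFiniteMeasure μ := by rw [hμ]; infer_instance
  have hm : ∀ S, mB S = (μ S).toReal := fun S => by rw [hμ]; exact ekap2_mB S
  have hnull : ∀ S, volume S = 0 → μ S = 0 := by
    intro S hS
    rw [hμ]
    exact Measure.restrict_le_self.absolutelyContinuous hS
  have hmem : ∀ v, v ∈ (vx_finite hG).toFinset ↔ v ∈ Vx n := fun v => (vx_finite hG).mem_toFinset
  have hdis : Set.Pairwise (((vx_finite hG).toFinset : Finset E3) : Set E3) (Function.onFun (AEDisjoint μ) (NC n)) := by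
    intro v hv w hw hvw
    refine measure_mono_null (t := {p : E3 | (inner ℝ p (v - w) : ℝ) = 0}) ?_ (hnull _ (plane_null (sub_ne_zero.2 hvw)))
    rintro y ⟨h1, h2⟩
    have hv1 : gg n v = 1 := ((hmem v).1 hv).1
    have hw1 : gg n w = 1 := ((hmem w).1 hw).1
    have k1 := h1 w hw1.le
    have k2 := h2 v hv1.le
    show (inner ℝ y (v - w) : ℝ) = 0
    rw [inner_sub_right]
    linarith
  have hun := measure_biUnion_finset₀ (μ := μ) hdis fun v _ => (ekap5_closed (n := n) v).measurableSet.nullMeasurableSet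
  have hcov : μ Set.univ = μ (⋃ v ∈ (vx_finite hG).toFinset, NC n v) := by
    refine le_antisymm ?_ (measure_mono (Set.subset_univ _))
    have hN : μ ({0} ∪ ⋃ p : (A × Bool) × (A × Bool), ⋃ _ : p.1.1 ≠ p.2.1,
        {y : E3 | (inner ℝ y (cross3 (nn n p.1) (nn n p.2)) : ℝ) = 0}) = 0 := by
      refine measure_union_null (hnull _ (measure_singleton 0)) ?_
      rw [measure_iUnion_null_iff]
      intro p
      rw [measure_iUnion_null_iff]
      intro hp
      exact hnull _ (plane_null (cross_ne hG hp))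
    calc μ Set.univ ≤ μ ((⋃ v ∈ (vx_finite hG).toFinset, NC n v) ∪ ({0} ∪ ⋃ p : (A × Bool) × (A × Bool),
          ⋃ _ : p.1.1 ≠ p.2.1, {y : E3 | (inner ℝ y (cross3 (nn n p.1) (nn n p.2)) : ℝ) = 0})) := by
          refine measure_mono ?_
          intro y _
          by_cases hy0 : y = 0
          · exact Or.inr (Or.inl hy0)
          obtain ⟨x, hx1, hxy⟩ := ekap5_max hG hy0
          by_cases hxV : x ∈ Vx n
          · left
            rw [Set.mem_iUnion₂]
            exact ⟨x, (hmem x).2 hxV, hxy⟩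
          · right; right
            obtain ⟨P, Q, hPQ, h⟩ := nc_nonvertex hG hx1 hxV
            rw [Set.mem_iUnion₂]
            exact ⟨(P, Q), hPQ, h y hxy⟩
      _ ≤ _ := measure_union_le _ _
      _ = _ := by rw [hN, add_zero]
  have hsum : ∑ v ∈ (vx_finite hG).toFinset, mB (NC n v) = mB Set.univ := by
    rw [hm Set.univ, hcov, hun, ENNReal.toReal_sum fun v _ => measure_ne_top μ _]
    exact Finset.sum_congr rfl fun v _ => hm _
  unfold kap
  rw [← Finset.mul_sum, ← Finset.sum_div, hsum, div_self mB_univ_pos.ne', mul_one]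

/-- There are at least four vertices. -/
theorem vx_card (hG : Gnr n) : 4 ≤ (vx_finite hG).toFinset.card := by
  classical
  have hmem : ∀ v, v ∈ (vx_finite hG).toFinset ↔ v ∈ Vx n := fun v => (vx_finite hG).mem_toFinset
  have hpi := Real.pi_pos
  have hsum := kap_sum hG
  have h3 : 2 < (vx_finite hG).toFinset.card := by
    by_contra h
    push Not at h
    rcases Finset.eq_empty_or_nonempty (vx_finite hG).toFinset with h0 | h0
    · rw [h0, Finset.sum_empty] at hsum
      linarith
    · have h1 : ∑ v ∈ (vx_finite hG).toFinset, kap n v < ∑ v ∈ (vx_finite hG).toFinset, (2 * π) :=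
        Finset.sum_lt_sum_of_nonempty h0 fun v hv => kap_lt hG ((hmem v).1 hv).1
      rw [Finset.sum_const, nsmul_eq_mul, hsum] at h1
      have h2 : (((vx_finite hG).toFinset.card : ℕ) : ℝ) ≤ 2 := by exact_mod_cast h
      nlinarith
  obtain ⟨v, hv⟩ := Finset.card_pos.1 (by omega : 0 < (vx_finite hG).toFinset.card)
  have hv' : -v ∈ (vx_finite hG).toFinset := (hmem _).2 (vx_neg hG ((hmem v).1 hv))
  have hself : ∀ u ∈ (vx_finite hG).toFinset, u ≠ -u := by
    intro u hu h
    exact bd_ne_zero hG ((hmem u).1 hu).1 (eact_sn h)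
  obtain ⟨w, hw, hwn⟩ : ∃ w ∈ (vx_finite hG).toFinset, w ∉ ({v, -v} : Finset E3) := by
    by_contra h
    push Not at h
    have h1 := Finset.card_le_card (show (vx_finite hG).toFinset ⊆ ({v, -v} : Finset E3) from fun w hw => h w hw)
    have h2 : ({v, -v} : Finset E3).card ≤ 2 := Finset.card_le_two
    omega
  have hw' : -w ∈ (vx_finite hG).toFinset := (hmem _).2 (vx_neg hG ((hmem w).1 hw))
  rw [Finset.mem_insert, Finset.mem_singleton, not_or] at hwn
  have hcard : ({v, -v, w, -w} : Finset E3).card = 4 := by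
    rw [Finset.card_insert_of_notMem, Finset.card_insert_of_notMem, Finset.card_insert_of_notMem,
      Finset.card_singleton]
    · rw [Finset.mem_singleton]
      exact hself w hw
    · rw [Finset.mem_insert, Finset.mem_singleton, not_or]
      exact ⟨fun h => hwn.2 h.symm, fun h => hwn.1 (neg_injective h).symm⟩
    · rw [Finset.mem_insert, Finset.mem_insert, Finset.mem_singleton, not_or, not_or]
      refine ⟨hself v hv, fun h => hwn.1 h.symm, fun h => hwn.2 ?_⟩
      rw [h, neg_neg]
  rw [← hcard]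
  refine Finset.card_le_card ?_
  intro x hx
  simp only [Finset.mem_insert, Finset.mem_singleton] at hx
  rcases hx with rfl | rfl | rfl | rfl
  · exact hv
  · exact hv'
  · exact hw
  · exact hw'

end H47A
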