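import Pool.Agent.Lib.H47A.ELoc2
import Pool.Agent.Lib.H47A.EDev

/-! # H47A, chunk ELIP (M): the developing map is a local isometry
`lst_isChain`: from `lst_chain` (a list is a chain iff all consecutive pairs l1 ++ a :: b :: l2 are related; induction).
`dd_norm`: `dev_norm` with D = (1,0), list α₀ :: tail (`lst_head`).
`nz_open`: u not in the closed ray -R_{>=0} e: {v | exists t >= 0, v = -t e} is closed (image of [0,inf) under a closed embedding, or
compactness: |v + t e| >= t |e| - |v|).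
`dd_loc`: near u: Lst v = Lst u ++ l (`loc_lst`), NZ e v, all elements of l are active at u; w = last of Lst u is active at u
(`exists_last`, `lst_last`). dev v = devAux w (dev u).2 l (`dev_append`, `dev_fst`), so by `dev_tele` with X = psi u (lf_psi)
ev (dev v).1 (dev v).2 (psi u) = DD u. (dev v).1 =: b is the last facet of Lst v, active at v (`exists_last`, `lst_last`), and active at u:
lf b (psi u) = 1 = lf b (psi v), so |DD v - DD u| = |D.1| |ch b (psi v) - ch b (psi u)| = |psi v - psi u| (`ch_isom`, `dev_norm`). -/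

open Real Finset Filter Topology

namespace H47A

variable {A : Type} [Fintype A] [DecidableEq A] {n : A → E3} {fr : A → E3}

theorem lst_isChain (hG : Gnr n) {e u : E3} (he : Gen n e) (hz : NZ e u) :
    List.IsChain (fun a b : A × Bool => a.1 ≠ b.1) (Lst n e u) := by
  rw [List.isChain_iff_forall_rel_of_append_cons_cons]
  intro a b l1 l2 h
  exact lst_chain hG he hz h

theorem dev_unit (hG : Gnr n) (hf : Frm n fr) {e u : E3} (he : Gen n e) (hz : NZ e u) {α₀ : A × Bool}
    (h0 : SAct n α₀ e) : ‖(dev n fr e α₀ u).2.1‖ = 1 := by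
  have h1 := lst_isChain hG he hz
  rw [lst_head he h0 u] at h1
  exact dev_norm hG hf (by simp) h1

theorem nz_open (e u : E3) (he : e ≠ 0) (hz : NZ e u) : ∀ᶠ v in 𝓝 u, NZ e v := by
  have hn : 0 < ‖e‖ := norm_pos_iff.2 he
  obtain ⟨c, hc, hlow⟩ : ∃ c : ℝ, 0 < c ∧ ∀ t : ℝ, 0 ≤ t → c ≤ ‖u + t • e‖ := by
    set T : ℝ := (‖u‖ + 1) / ‖e‖ with hT
    have hT0 : 0 ≤ T := by positivity
    have hcont : Continuous fun t : ℝ => ‖u + t • e‖ := by fun_prop
    obtain ⟨t0, ht0, hmin⟩ := isCompact_Icc.exists_isMinOn (Set.nonempty_Icc.2 hT0) hcont.continuousOn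
    have hpos : 0 < ‖u + t0 • e‖ := norm_pos_iff.2 (hz t0 ht0.1)
    refine ⟨min 1 ‖u + t0 • e‖, lt_min one_pos hpos, fun t ht => ?_⟩
    rcases le_or_gt t T with h | h
    · exact (min_le_right _ _).trans (hmin ⟨ht, h⟩)
    · refine (min_le_left _ _).trans ?_
      have h1 : ‖t • e‖ ≤ ‖u + t • e‖ + ‖u‖ := by
        have h2 : t • e = (u + t • e) - u := by abel
        calc ‖t • e‖ = ‖(u + t • e) - u‖ := by rw [← h2]
          _ ≤ _ := norm_sub_le _ _
      rw [norm_smul, Real.norm_of_nonneg ht] at h1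
      have h3 : T * ‖e‖ = ‖u‖ + 1 := by
        rw [hT]
        field_simp
      have h4 : T * ‖e‖ < t * ‖e‖ := by
        exact mul_lt_mul_of_pos_right h hn
      linarith
  filter_upwards [Metric.ball_mem_nhds u hc] with v hv t ht h0
  have h1 := hlow t ht
  rw [Metric.mem_ball, dist_eq_norm] at hv
  have h2 : u + t • e = (v + t • e) - (v - u) := by abel
  rw [h2, h0, zero_sub, norm_neg] at h1
  linarith

theorem elip_e (hG : Gnr n) {e : E3} (he : Gen n e) {α₀ : A × Bool} (h0 : SAct n α₀ e) : e ≠ 0 := by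
  rintro rfl
  have h1 := h0 (ng α₀) (by
    intro h
    have h2 := congrArg Prod.snd h
    simp [ng] at h2)
  simp [lf] at h1

/-- The development of the list of a nearby point `v`, evaluated at the point `psi u`. -/
theorem dd_at (hG : Gnr n) (hf : Frm n fr) {e u : E3} (he : Gen n e) (hz : NZ e u) (hv : NV n e u) {α₀ : A × Bool}
    (h0 : SAct n α₀ e) : ∀ᶠ v in 𝓝 u, Act n (dev n fr e α₀ v).1 u ∧ Act n (dev n fr e α₀ v).1 v ∧
      ev n fr (dev n fr e α₀ v).1 (dev n fr e α₀ v).2 (psi n u) = DD n fr e α₀ u := by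
  have hu0 : u ≠ 0 := by
    have := hz 0 le_rfl
    simpa using this
  filter_upwards [loc_lst hG he hv, nz_open e u (elip_e hG he h0) hz] with v hvl hzv
  obtain ⟨l, hl, hact⟩ := hvl
  obtain ⟨ω, hω, hω'⟩ := exists_last hG he u
  have hlast := lst_last he hω hω'
  obtain ⟨η, hη, hη'⟩ := exists_last hG he v
  have hlast' := lst_last he hη hη'
  have hhu := lst_head he h0 u
  have hdu : (dev n fr e α₀ u).1 = ω := by
    have h1 := dev_fst (n := n) (fr := fr) α₀ (1, 0) (Lst n e u).tail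
    rw [← hhu, hlast] at h1
    exact (Option.some.inj h1).symm
  have hdv1 : (dev n fr e α₀ v).1 = η := by
    have h1 := dev_fst (n := n) (fr := fr) α₀ (1, 0) (Lst n e v).tail
    rw [← lst_head he h0 v, hlast'] at h1
    exact (Option.some.inj h1).symm
  have htail : (Lst n e v).tail = (Lst n e u).tail ++ l := by
    rw [hl, hhu]
    rfl
  have hdv : dev n fr e α₀ v = devAux n fr ω (dev n fr e α₀ u).2 l := by
    show devAux n fr α₀ (1, 0) (Lst n e v).tail = _
    rw [htail, dev_append]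
    show devAux n fr (dev n fr e α₀ u).1 (dev n fr e α₀ u).2 l = _
    rw [hdu]
  have hall : ∀ β ∈ ω :: l, Act n β u := by
    intro β hβ
    rcases List.mem_cons.1 hβ with rfl | h
    · exact hω
    · exact hact β h
  have hmem : (dev n fr e α₀ v).1 ∈ ω :: l := by
    have h1 := dev_fst (n := n) (fr := fr) ω (dev n fr e α₀ u).2 l
    rw [← hdv] at h1
    exact List.mem_of_getLast? h1
  refine ⟨hall _ hmem, by rw [hdv1]; exact hη, ?_⟩
  have hch := lst_isChain hG he hzv
  obtain ⟨init, hinit⟩ : ∃ init, Lst n e u = init ++ [ω] := by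
    have h1 := List.dropLast_append_getLast? ω (by rw [hlast]; rfl)
    exact ⟨_, h1.symm⟩
  rw [hl, hinit, List.append_assoc] at hch
  have hch' : List.IsChain (fun a b : A × Bool => a.1 ≠ b.1) (ω :: l) := hch.right_of_append
  rw [hdv, dev_tele hG hf hch' (fun β hβ => lf_psi hG hu0 (hall β hβ))]
  show ev n fr ω (dev n fr e α₀ u).2 (psi n u) = ev n fr (dev n fr e α₀ u).1 (dev n fr e α₀ u).2 (psi n u)
  rw [hdu]

theorem dd_loc (hG : Gnr n) (hf : Frm n fr) {e u : E3} (he : Gen n e) (hz : NZ e u) (hv : NV n e u) {α₀ : A × Bool}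
    (h0 : SAct n α₀ e) : ∀ᶠ v in 𝓝 u, ‖DD n fr e α₀ v - DD n fr e α₀ u‖ = ‖psi n v - psi n u‖ := by
  have hu0 : u ≠ 0 := by
    have := hz 0 le_rfl
    simpa using this
  filter_upwards [dd_at hG hf he hz hv h0, nz_open e u (elip_e hG he h0) hz] with v h hzv
  obtain ⟨h1, h2, h3⟩ := h
  have hv0 : v ≠ 0 := by
    have := hzv 0 le_rfl
    simpa using this
  rw [← h3]
  show ‖ev n fr (dev n fr e α₀ v).1 (dev n fr e α₀ v).2 (psi n v) -
    ev n fr (dev n fr e α₀ v).1 (dev n fr e α₀ v).2 (psi n u)‖ = _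
  unfold ev
  rw [show (dev n fr e α₀ v).2.1 * ch n fr (dev n fr e α₀ v).1 (psi n v) + (dev n fr e α₀ v).2.2 -
      ((dev n fr e α₀ v).2.1 * ch n fr (dev n fr e α₀ v).1 (psi n u) + (dev n fr e α₀ v).2.2) =
      (dev n fr e α₀ v).2.1 * (ch n fr (dev n fr e α₀ v).1 (psi n v) - ch n fr (dev n fr e α₀ v).1 (psi n u)) by ring,
    norm_mul, dev_unit hG hf he hzv h0, one_mul]
  apply ch_isom hG hf
  rw [lf_psi hG hv0 h2, lf_psi hG hu0 h1]

end H47A
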