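import Pool.Agent.Lib.H47A.ECons

open Real Finset Filter Topology

namespace H47A

variable {A : Type} [Fintype A] [DecidableEq A] {n : A → E3}

/-! # H47A, chunks ELOC1 (M/L), ELOC2 (M): the list at nearby points
`loc_sub` (easy): u + t e strictly active for a: open condition in u (`sact_open`), finitely many a.
`loc_new` (ELOC1): suppose not; there are b (finitely many: fix one by pigeonhole/frequently) not active at u, not in Lst e u, and
points v -> u with SAct b (v + t_v e), t_v > 0. For t >= T (T large, uniform for |v - u| <= 1) only the pole facet α₀ is active: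
b = α₀ is in the list of u (`lst_head`), contradiction; so t_v in [0,T]. By compactness of [0,T] (subsequence; or directly: cover
[0,T] by finitely many neighbourhoods) it suffices: every s in [0,T] has neighbourhoods N of s and W of u such that SAct b (v + t e)
is false for v in W, t in N, t > 0. If b is not active at u + s e: open condition. If b is active at u + s e: s = 0 means Act b u,
excluded; s > 0: by `act_mem` b in Lst e u, excluded. (So b is not active at u + s e for all s in [0,T].)
`loc_order`: a in Lst e u, b active at u, b not in Lst e u: a strictly active at some u + t e: lf a u + t lf a e > lf b u + t lf b e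
and lf b u = gg u >= lf a u, so lf b e < lf a e.
`loc_lst` (ELOC2): near u the list of v has the elements of Lst e u (`loc_sub`) and possibly others b, active at u (`loc_new`). Let
l = (Lst e v).filter (not in Lst e u). Then Lst e u ++ l is strictly decreasing (`loc_order`) with the elements of Lst e v: `lst_eq`.
`loc_sact`: if moreover SAct b u: the last element of Lst e u is b (`lst_last`), all elements of l are b, no duplicates: l = []. -/

theorem loc_sub (e u : E3) : ∀ᶠ v in 𝓝 u, ∀ α, α ∈ Lst n e u → α ∈ Lst n e v := by
  rw [Filter.eventually_all]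
  intro α
  by_cases hα : α ∈ Lst n e u
  · obtain ⟨t, ht, hs⟩ := mem_lst.1 hα
    have hc : Continuous fun v : E3 => v + t • e := by fun_prop
    have h1 : ∀ᶠ v in 𝓝 u, SAct n α (v + t • e) :=
      hc.continuousAt.eventually ((sact_open α).mem_nhds hs)
    filter_upwards [h1] with v hv _
    exact mem_lst.2 ⟨t, ht, hv⟩
  · exact Eventually.of_forall fun v h => absurd h hα

theorem eloc_lf_cont (α : A × Bool) : Continuous (lf n α) := continuous_const.inner continuous_id

theorem loc_new (hG : Gnr n) {e u : E3} (he : Gen n e) (hv : NV n e u) :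
    ∀ᶠ v in 𝓝 u, ∀ β, β ∈ Lst n e v → β ∉ Lst n e u → Act n β u := by
  rw [Filter.eventually_all]
  intro β
  by_cases h1 : β ∈ Lst n e u
  · exact Eventually.of_forall fun v _ h => absurd h1 h
  by_cases h2 : Act n β u
  · exact Eventually.of_forall fun v _ _ => h2
  obtain ⟨α₀, h0⟩ := exists_pole hG he
  have hne : β ≠ α₀ := by
    rintro rfl
    apply h1
    rw [lst_head he h0 u]
    exact List.mem_cons_self
  have hδ : 0 < lf n α₀ e - lf n β e := sub_pos.2 (h0 β hne)
  have hc1 : Continuous fun v : E3 => lf n β v - lf n α₀ v := (eloc_lf_cont β).sub (eloc_lf_cont α₀)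
  have hM : ∀ᶠ v in 𝓝 u, lf n β v - lf n α₀ v < lf n β u - lf n α₀ u + 1 :=
    hc1.continuousAt.eventually (gt_mem_nhds (by linarith))
  have hK : ∀ᶠ v in 𝓝 u, ∀ t ∈ Set.Icc (0 : ℝ) ((lf n β u - lf n α₀ u + 1) / (lf n α₀ e - lf n β e)),
      ¬ Act n β (v + t • e) := by
    refine isCompact_Icc.eventually_forall_of_forall_eventually (P := fun v t => ¬ Act n β (v + t • e)) ?_
    intro t ht
    have hc2 : Continuous fun z : E3 × ℝ => z.1 + z.2 • e := by fun_prop
    have h3 : ¬ Act n β (u + t • e) := by
      rcases eq_or_lt_of_le ht.1 with h4 | h4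
      · rw [← h4, zero_smul, add_zero]
        exact h2
      · intro h5
        exact h1 (act_mem hG he hv h4 h5)
    have h6 : (fun z : E3 × ℝ => z.1 + z.2 • e) (u, t) ∈ {u : E3 | Act n β u}ᶜ := fun h7 => h3 h7
    have h8 := hc2.continuousAt.eventually ((act_closed β).isOpen_compl.mem_nhds h6)
    filter_upwards [h8] with z hz h9
    exact hz h9
  filter_upwards [hM, hK] with v hv1 hv2 hβ _
  exfalso
  obtain ⟨t, ht, hs⟩ := mem_lst.1 hβ
  by_cases h3 : t ≤ (lf n β u - lf n α₀ u + 1) / (lf n α₀ e - lf n β e)
  · exact hv2 t ⟨ht.le, h3⟩ hs.act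
  · have h4 := hs α₀ (Ne.symm hne)
    rw [not_le, div_lt_iff₀ hδ] at h3
    rw [lf_add, lf_add, lf_smul, lf_smul] at h4
    nlinarith

theorem loc_order (hG : Gnr n) {e u : E3} {α β : A × Bool} (hα : α ∈ Lst n e u) (hβ : Act n β u)
    (hβ' : β ∉ Lst n e u) : lf n β e < lf n α e := by
  obtain ⟨t, ht, hs⟩ := mem_lst.1 hα
  have h1 : β ≠ α := by
    rintro rfl
    exact hβ' hα
  have h2 := hs β h1
  rw [lf_add, lf_add, lf_smul, lf_smul] at h2
  have h3 := hβ α
  have h4 : t * lf n β e < t * lf n α e := by linarith
  exact lt_of_mul_lt_mul_left h4 ht.le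

end H47A
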