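import Pool.Agent.Lib.H47A.ELoc

/-! # H47A, chunk ELOC2 (M): see the docstring of ELoc.lean -/

open Real Finset Filter Topology

namespace H47A

variable {A : Type} [Fintype A] [DecidableEq A] {n : A → E3}

theorem loc_lst (hG : Gnr n) {e u : E3} (he : Gen n e) (hv : NV n e u) :
    ∀ᶠ v in 𝓝 u, ∃ l, Lst n e v = Lst n e u ++ l ∧ ∀ β ∈ l, Act n β u := by
  classical
  filter_upwards [loc_sub (n := n) e u, loc_new hG he hv] with v h1 h2
  have hmem : ∀ β, β ∈ (Lst n e v).filter (fun β => decide (β ∉ Lst n e u)) ↔ β ∈ Lst n e v ∧ β ∉ Lst n e u := by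
    intro β
    rw [List.mem_filter, decide_eq_true_eq]
  refine ⟨(Lst n e v).filter (fun β => decide (β ∉ Lst n e u)), ?_, fun β hβ => ?_⟩
  · refine lst_eq he ?_ fun α => ?_
    · rw [List.pairwise_append]
      refine ⟨lst_pairwise he u, (lst_pairwise he v).filter _, fun α hα β hβ => ?_⟩
      rw [hmem] at hβ
      exact loc_order hG hα (h2 β hβ.1 hβ.2) hβ.2
    · rw [← mem_lst, List.mem_append, hmem]
      constructor
      · rintro (h | h)
        · exact h1 α h
        · exact h.1
      · intro h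
        by_cases h3 : α ∈ Lst n e u
        · exact Or.inl h3
        · exact Or.inr ⟨h, h3⟩
  · rw [hmem] at hβ
    exact h2 β hβ.1 hβ.2

theorem loc_sact (hG : Gnr n) {e u : E3} (he : Gen n e) (hv : NV n e u) {β : A × Bool} (hβ : SAct n β u) :
    ∀ᶠ v in 𝓝 u, Lst n e v = Lst n e u := by
  have hlast := lst_last he hβ.act fun γ hγ ha => absurd (hβ.unique ha) hγ
  have hmem : β ∈ Lst n e u := List.mem_of_getLast? hlast
  filter_upwards [loc_lst hG he hv] with v hl
  obtain ⟨l, h1, h2⟩ := hl
  rcases l with _ | ⟨γ, l⟩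
  · rw [h1, List.append_nil]
  · exfalso
    have hγ : γ = β := hβ.unique (h2 γ (List.mem_cons_self ..))
    have hp := lst_pairwise he v
    rw [h1, List.pairwise_append] at hp
    have h3 := hp.2.2 β hmem γ (List.mem_cons_self ..)
    rw [hγ] at h3
    exact lt_irrefl _ h3

end H47A
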