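import Pool.Agent.Lib.H47A.EFan4
import Pool.Agent.Lib.H47A.EMonge
import Pool.Agent.Lib.H47A.ECind
import Pool.Agent.Lib.H47A.DDefs

/-! # H47A, chunks ELOOP1 (M), ELOOP2 (S/M): loops as chord sequences
`lenP a l Z`: length of the path from the boundary point a with breakpoints l to the point Z of the upper disc. `lenP_len`: by induction over l: all terms are
finite (`pl_fin`). `lenP_snoc`: lenP a (l ++ [x]) (G (x+m)) = lenP a l (G x) (the last term is pl UU (G (x+m)) (G (x+m)) = 0, `pl_self`, `G_uu`). `lenP_tri`: lenP a l Z' <= lenP a l Z + pl UU Z Z'.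
`loop_list`: path g in bd from G a to -G a. Q t: there is a list l with (l.length even, g t in UU, lenP a l (g t) <= eVariationOn g [0,t]) or (l.length odd, -g t in UU,
lenP a l (-g t) <= eVariationOn g [0,t]). Q 0 with l = []. Local step (`piece` at X = g t, continuity of g): for s near t the segment [g t, g s] is in UU or [-g t, -g s] is. Suppose Q t, t <= s. If Q t with
even l and [g t, g s] in UU: lenP a l (g s) <= lenP a l (g t) + |g t - g s| (`lenP_tri`, `pl_seg`) <= variation on [0,s]. If even and [-g t, -g s] in UU: g t and -g t in UU, so g t = G x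
(`uu_inter`); l ++ [x] is odd, -g t = G (x+m), `lenP_snoc`, then extend. Odd cases: the same with the signs exchanged (-g t = G x, g t = G (x+m)). The case s <= t (Q s implies Q t) is the same with
the roles of s and t exchanged (the segment is the same set). `cind` gives Q 1; g 1 = - G a = G (a+m): even: done; odd: -g 1 = G a: append a. -/

open Real Filter Topology

namespace H47A

variable {A : Type} [Fintype A] [DecidableEq A] {n : A → E3} {f1 f2 e : E3} {m : ℕ}

/-- Length of the path with breakpoints `l` from the boundary point `a` to `Z`. -/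
noncomputable def lenP (F : Fan n f1 f2 m) (e : E3) : ℝ → List ℝ → E3 → ENNReal
  | a, [], Z => pl (F.UU e) (F.G a) Z
  | a, y :: l, Z => pl (F.UU e) (F.G a) (F.G y) + lenP F e (y + m) l Z

theorem lenP_len (hG : Gnr n) (hA : Axis f1 f2 e) (F : Fan n f1 f2 m) (l : List ℝ) (a b : ℝ) :
    len (dU F e) (chs m a l b) = (lenP F e a l (F.G b)).toReal ∧ lenP F e a l (F.G b) < ⊤ := by
  induction l generalizing a with
  | nil =>
    refine ⟨?_, pl_fin hG hA F (F.G_uu hG a) (F.G_uu hG b)⟩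
    simp [len, chs, lenP, dU]
  | cons y l ih =>
    obtain ⟨h1, h2⟩ := ih (y + m)
    have h3 := pl_fin hG hA F (F.G_uu hG a) (F.G_uu hG y)
    refine ⟨?_, ENNReal.add_lt_top.2 ⟨h3, h2⟩⟩
    show len (dU F e) ((a, y) :: chs m (y + m) l b) = (pl (F.UU e) (F.G a) (F.G y) + lenP F e (y + m) l (F.G b)).toReal
    rw [ENNReal.toReal_add h3.ne h2.ne, ← h1]
    simp [len, dU]

theorem lenP_snoc (hG : Gnr n) (F : Fan n f1 f2 m) (l : List ℝ) (a x : ℝ) :
    lenP F e a (l ++ [x]) (F.G (x + m)) = lenP F e a l (F.G x) := by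
  induction l generalizing a with
  | nil =>
    show pl (F.UU e) (F.G a) (F.G x) + pl (F.UU e) (F.G (x + m)) (F.G (x + m)) = pl (F.UU e) (F.G a) (F.G x)
    rw [pl_self (F.G_uu hG _), add_zero]
  | cons y l ih =>
    show pl (F.UU e) (F.G a) (F.G y) + lenP F e (y + m) (l ++ [x]) (F.G (x + m)) =
      pl (F.UU e) (F.G a) (F.G y) + lenP F e (y + m) l (F.G x)
    rw [ih]

theorem lenP_tri (F : Fan n f1 f2 m) (l : List ℝ) (a : ℝ) (Z Z' : E3) :
    lenP F e a l Z' ≤ lenP F e a l Z + pl (F.UU e) Z Z' := by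
  induction l generalizing a with
  | nil => exact pl_tri _ _ _ _
  | cons y l ih =>
    show pl (F.UU e) (F.G a) (F.G y) + lenP F e (y + m) l Z' ≤
      pl (F.UU e) (F.G a) (F.G y) + lenP F e (y + m) l Z + pl (F.UU e) Z Z'
    rw [add_assoc]
    exact add_le_add le_rfl (ih _)

/-- State of the path at time `t`. -/
def eloopQ (F : Fan n f1 f2 m) (e : E3) (a : ℝ) (g : ℝ → E3) (t : ℝ) : Prop :=
  ∃ l : List ℝ, (Even l.length ∧ g t ∈ F.UU e ∧ lenP F e a l (g t) ≤ eVariationOn g (Set.Icc 0 t)) ∨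
    (¬ Even l.length ∧ -g t ∈ F.UU e ∧ lenP F e a l (-g t) ≤ eVariationOn g (Set.Icc 0 t))

theorem eloop_ext (F : Fan n f1 f2 m) (l : List ℝ) (a : ℝ) (g : ℝ → E3) {s t : ℝ} (hs : 0 ≤ s) (hst : s ≤ t)
    {Z Z' : E3} (hZ : ‖Z - Z'‖ = ‖g s - g t‖) (hseg : segment ℝ Z Z' ⊆ F.UU e)
    (h : lenP F e a l Z ≤ eVariationOn g (Set.Icc 0 s)) :
    lenP F e a l Z' ≤ eVariationOn g (Set.Icc 0 t) := by
  have h1 : pl (F.UU e) Z Z' ≤ eVariationOn g (Set.Icc s t) := by
    refine (pl_seg hseg).trans ?_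
    rw [hZ, ← dist_eq_norm, ← edist_dist]
    exact eVariationOn.edist_le g ⟨le_rfl, hst⟩ ⟨hst, le_rfl⟩
  have h2 := eVariationOn.Icc_add_Icc g (s := Set.univ) hs hst (Set.mem_univ s)
  simp only [Set.univ_inter] at h2
  rw [← h2]
  exact (lenP_tri F l a Z Z').trans (add_le_add h h1)

theorem eloop_odd (l : List ℝ) (x : ℝ) : Even (l ++ [x]).length ↔ ¬ Even l.length := by
  rw [List.length_append, List.length_singleton]
  exact Nat.even_add_one

theorem eloop_step (hG : Gnr n) (hA : Axis f1 f2 e) (F : Fan n f1 f2 m) (a : ℝ) (g : ℝ → E3) {s t : ℝ} (hs : 0 ≤ s)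
    (hst : s ≤ t) (hseg : segment ℝ (g s) (g t) ⊆ F.UU e ∨ segment ℝ (-g s) (-g t) ⊆ F.UU e)
    (h : eloopQ F e a g s) : eloopQ F e a g t := by
  have hneg : ‖(-g s) - (-g t)‖ = ‖g s - g t‖ := by
    rw [show (-g s) - (-g t) = -(g s - g t) by abel, norm_neg]
  obtain ⟨l, ⟨hl, hU, hle⟩ | ⟨hl, hU, hle⟩⟩ := h
  · rcases hseg with hseg | hseg
    · exact ⟨l, Or.inl ⟨hl, hseg (right_mem_segment ℝ _ _), eloop_ext F l a g hs hst rfl hseg hle⟩⟩
    · obtain ⟨x, hx⟩ := F.uu_inter hG hA hU (hseg (left_mem_segment ℝ _ _))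
      refine ⟨l ++ [x], Or.inr ⟨fun h => ((eloop_odd l x).1 h) hl, hseg (right_mem_segment ℝ _ _), ?_⟩⟩
      refine eloop_ext F (l ++ [x]) a g hs hst hneg hseg ?_
      rw [hx, ← F.G_anti, lenP_snoc hG, ← hx]
      exact hle
  · rcases hseg with hseg | hseg
    · obtain ⟨x, hx⟩ := F.uu_inter hG hA hU (by rw [neg_neg]; exact hseg (left_mem_segment ℝ _ _))
      refine ⟨l ++ [x], Or.inl ⟨(eloop_odd l x).2 hl, hseg (right_mem_segment ℝ _ _), ?_⟩⟩
      refine eloop_ext F (l ++ [x]) a g hs hst rfl hseg ?_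
      have hx' : g s = F.G (x + m) := by
        rw [F.G_anti, ← hx, neg_neg]
      rw [hx', lenP_snoc hG, ← hx]
      exact hle
    · exact ⟨l, Or.inr ⟨hl, hseg (right_mem_segment ℝ _ _), eloop_ext F l a g hs hst hneg hseg hle⟩⟩

theorem loop_list (hG : Gnr n) (hA : Axis f1 f2 e) (F : Fan n f1 f2 m) (a : ℝ) {g : ℝ → E3} (hg : Continuous g)
    (hb : ∀ t ∈ Set.Icc (0 : ℝ) 1, g t ∈ bd n) (h0 : g 0 = F.G a) (h1 : g 1 = -F.G a) :
    ∃ l : List ℝ, Even l.length ∧ lenP F e a l (F.G (a + m)) ≤ eVariationOn g (Set.Icc 0 1) := by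
  have hQ : eloopQ F e a g 1 := by
    apply cind (Q := eloopQ F e a g)
    · refine ⟨[], Or.inl ⟨by simp, by rw [h0]; exact F.G_uu hG a, ?_⟩⟩
      rw [h0]
      show pl (F.UU e) (F.G a) (F.G a) ≤ _
      rw [pl_self (F.G_uu hG a)]
      exact bot_le
    · intro t ht
      have h2 := F.piece hG hA (hb t ht)
      filter_upwards [(hg.tendsto t).eventually h2] with s hs hs'
      have h3 := hs (hb s hs')
      refine ⟨fun hts => eloop_step hG hA F a g ht.1 hts h3, fun hst => eloop_step hG hA F a g hs'.1 hst ?_⟩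
      rcases h3 with h3 | h3
      · left
        rw [segment_symm]
        exact h3
      · right
        rw [segment_symm]
        exact h3
  obtain ⟨l, ⟨hl, hU, hle⟩ | ⟨hl, hU, hle⟩⟩ := hQ
  · refine ⟨l, hl, ?_⟩
    rw [F.G_anti, ← h1]
    exact hle
  · refine ⟨l ++ [a], (eloop_odd l a).2 hl, ?_⟩
    rw [lenP_snoc hG]
    rw [h1, neg_neg] at hle
    exact hle

/-- The hypothesis of the Gamma theorem. -/
theorem loops (hG : Gnr n) (hA : Axis f1 f2 e) (F : Fan n f1 f2 m) {L : ℝ} (hL0 : 0 ≤ L) (a : ℝ)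
    (hL : pl (bd n) (F.G a) (-F.G a) ≤ ENNReal.ofReal L) {ε : ℝ} (hε : 0 < ε) :
    ∃ l : List ℝ, Even l.length ∧ len (dU F e) (chs m a l (a + m)) ≤ L + ε := by
  have h1 : pl (bd n) (F.G a) (-F.G a) < ENNReal.ofReal (L + ε) :=
    hL.trans_lt ((ENNReal.ofReal_lt_ofReal_iff (by positivity)).2 (by linarith))
  obtain ⟨g, hg, hg0, hg1, hgb, hgv⟩ := pl_exists h1
  obtain ⟨l, hl, hle⟩ := loop_list hG hA F a hg hgb hg0 hg1
  refine ⟨l, hl, ?_⟩
  rw [(lenP_len hG hA F l a (a + m)).1]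
  have h2 := ENNReal.toReal_mono ENNReal.ofReal_ne_top (hle.trans hgv.le)
  rwa [ENNReal.toReal_ofReal (by positivity)] at h2

end H47A
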