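import Pool.Agent.Lib.H47A.EMonge

/-! # H47A, chunk EMON2 (M): see the docstring of EMonge.lean -/

open Real Filter Topology

namespace H47A

variable {A : Type} [Fintype A] [DecidableEq A] {n : A → E3} {f1 f2 e : E3} {m : ℕ}

theorem emon2_ne (hG : Gnr n) (hA : Axis f1 f2 e) (F : Fan n f1 f2 m) (x y : ℝ) :
    pl (F.UU e) (F.G x) (F.G y) ≠ ⊤ :=
  (pl_fin hG hA F (F.G_uu hG x) (F.G_uu hG y)).ne

theorem emon2_tri (hG : Gnr n) (hA : Axis f1 f2 e) (F : Fan n f1 f2 m) (x y z : ℝ) :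
    dU F e x z ≤ dU F e x y + dU F e y z := by
  unfold dU
  rw [← ENNReal.toReal_add (emon2_ne hG hA F x y) (emon2_ne hG hA F y z)]
  exact ENNReal.toReal_mono (ENNReal.add_ne_top.2 ⟨emon2_ne hG hA F x y, emon2_ne hG hA F y z⟩) (pl_tri _ _ _ _)

theorem emon2_symm (F : Fan n f1 f2 m) (x y : ℝ) : dU F e x y = dU F e y x := by
  unfold dU
  rw [pl_symm]

theorem emon2_monge (hG : Gnr n) (hA : Axis f1 f2 e) (F : Fan n f1 f2 m) {x y z w : ℝ} (hxy : x < y) (hyz : y < z)
    (hzw : z < w) (hwx : w < x + 2 * m) :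
    dU F e x y + dU F e z w ≤ dU F e x z + dU F e y w ∧ dU F e x w + dU F e y z ≤ dU F e x z + dU F e y w := by
  have key : ∀ ε : ℝ, 0 < ε → dU F e x y + dU F e z w ≤ dU F e x z + dU F e y w + 2 * ε ∧
      dU F e x w + dU F e y z ≤ dU F e x z + dU F e y w + 2 * ε := by
    intro ε hε
    have h1 : pl (F.UU e) (F.G x) (F.G z) < pl (F.UU e) (F.G x) (F.G z) + ENNReal.ofReal ε :=
      ENNReal.lt_add_right (emon2_ne hG hA F x z) (by simpa using hε)
    have h2 : pl (F.UU e) (F.G y) (F.G w) < pl (F.UU e) (F.G y) (F.G w) + ENNReal.ofReal ε :=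
      ENNReal.lt_add_right (emon2_ne hG hA F y w) (by simpa using hε)
    obtain ⟨p, hp, hp0, hp1, hpU, hpl⟩ := pl_exists h1
    obtain ⟨q, hq, hq0, hq1, hqU, hql⟩ := pl_exists h2
    obtain ⟨s, hs, t, ht, hst⟩ := F.cross_uu hG hA hxy hyz hzw hwx hp hq hpU hqU hp0 hp1 hq0 hq1
    obtain ⟨h3, h4⟩ := pl_swap hp hq hpU hqU hs ht hst
    rw [hp0, hp1, hq0, hq1] at h3 h4
    have h5 : eVariationOn p (Set.Icc 0 1) + eVariationOn q (Set.Icc 0 1) ≤
        ENNReal.ofReal (dU F e x z + dU F e y w + 2 * ε) := by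
      have h6 : ENNReal.ofReal (dU F e x z + dU F e y w + 2 * ε) =
          (pl (F.UU e) (F.G x) (F.G z) + ENNReal.ofReal ε) + (pl (F.UU e) (F.G y) (F.G w) + ENNReal.ofReal ε) := by
        have e1 : pl (F.UU e) (F.G x) (F.G z) = ENNReal.ofReal (dU F e x z) :=
          (ENNReal.ofReal_toReal (emon2_ne hG hA F x z)).symm
        have e2 : pl (F.UU e) (F.G y) (F.G w) = ENNReal.ofReal (dU F e y w) :=
          (ENNReal.ofReal_toReal (emon2_ne hG hA F y w)).symm
        have p1 : 0 ≤ dU F e x z := ENNReal.toReal_nonneg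
        have p2 : 0 ≤ dU F e y w := ENNReal.toReal_nonneg
        rw [e1, e2, ← ENNReal.ofReal_add p1 hε.le, ← ENNReal.ofReal_add p2 hε.le,
          ← ENNReal.ofReal_add (by positivity) (by positivity)]
        congr 1
        ring
      rw [h6]
      exact add_le_add hpl.le hql.le
    have fin : ∀ a b c d : ℝ, pl (F.UU e) (F.G a) (F.G b) + pl (F.UU e) (F.G c) (F.G d) ≤
        ENNReal.ofReal (dU F e x z + dU F e y w + 2 * ε) →
        dU F e a b + dU F e c d ≤ dU F e x z + dU F e y w + 2 * ε := by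
      intro a b c d h
      have p1 : 0 ≤ dU F e x z := ENNReal.toReal_nonneg
      have p2 : 0 ≤ dU F e y w := ENNReal.toReal_nonneg
      have h7 := ENNReal.toReal_mono ENNReal.ofReal_ne_top h
      rw [ENNReal.toReal_add (emon2_ne hG hA F a b) (emon2_ne hG hA F c d),
        ENNReal.toReal_ofReal (by positivity)] at h7
      exact h7
    refine ⟨fin x y z w (h3.trans h5), ?_⟩
    have h8 := fin x w z y (h4.trans h5)
    rwa [emon2_symm F z y] at h8
  constructor
  · refine le_of_forall_pos_le_add fun ε hε => ?_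
    have := (key (ε / 2) (by positivity)).1
    linarith
  · refine le_of_forall_pos_le_add fun ε hε => ?_
    have := (key (ε / 2) (by positivity)).2
    linarith

theorem emon2_cont (hG : Gnr n) (hA : Axis f1 f2 e) (F : Fan n f1 f2 m) :
    Continuous fun p : ℝ × ℝ => dU F e p.1 p.2 := by
  obtain ⟨C, hC, h⟩ := pl_G (e := e) hG F
  have hd : ∀ x y : ℝ, dU F e x y ≤ C * |x - y| := by
    intro x y
    have h1 := ENNReal.toReal_mono ENNReal.ofReal_ne_top (h x y)
    rwa [ENNReal.toReal_ofReal (by positivity)] at h1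
  have hl : ∀ p q : ℝ × ℝ, |dU F e p.1 p.2 - dU F e q.1 q.2| ≤ C * |p.1 - q.1| + C * |p.2 - q.2| := by
    intro p q
    have a1 := emon2_tri hG hA F p.1 q.1 p.2
    have a2 := emon2_tri hG hA F q.1 q.2 p.2
    have a3 := emon2_tri hG hA F q.1 p.1 q.2
    have a4 := emon2_tri hG hA F p.1 p.2 q.2
    have b1 := hd p.1 q.1
    have b2 := hd q.2 p.2
    have b3 := hd q.1 p.1
    have b4 := hd p.2 q.2
    rw [abs_sub_comm q.2 p.2] at b2
    rw [abs_sub_comm q.1 p.1] at b3
    rw [abs_le]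
    constructor <;> linarith
  rw [continuous_iff_continuousAt]
  intro p
  rw [ContinuousAt, tendsto_iff_norm_sub_tendsto_zero]
  have hlim : Tendsto (fun q : ℝ × ℝ => C * |q.1 - p.1| + C * |q.2 - p.2|) (𝓝 p) (𝓝 0) := by
    have hc : Continuous fun q : ℝ × ℝ => C * |q.1 - p.1| + C * |q.2 - p.2| := by fun_prop
    have := hc.tendsto p
    simpa using this
  exact squeeze_zero (fun q => norm_nonneg _) (fun q => by rw [Real.norm_eq_abs]; exact hl q p) hlim

theorem dU_monge (hG : Gnr n) (hA : Axis f1 f2 e) (F : Fan n f1 f2 m) : IsMonge m (dU F e) where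
  symm := emon2_symm F
  self x := by
    unfold dU
    rw [pl_self (F.G_uu hG x)]
    simp
  tri := emon2_tri hG hA F
  per x y := by
    unfold dU
    rw [F.G_per]
  monge x y z w h1 h2 h3 h4 := emon2_monge hG hA F h1 h2 h3 h4
  cont := emon2_cont hG hA F

end H47A
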