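import Pool.Agent.Lib.H47A.EFDefs

/-! # H47A, chunks EPD1 (M), EPD2 (M): length distances
Only general facts. All paths are continuous functions on the whole line; to keep continuity, precompose with the projection
t -> max 0 (min 1 t) where necessary.
EPD1: `pl_exists`: iInf over a dependent family: `iInf_lt_iff`. `pl_symm`: t -> γ (1 - t), eVariationOn.comp_eq_of_antitoneOn.
`pl_const`: constant path. `pl_seg`: the segment; variation of an affine path (LipschitzOnWith, or monotone composition; upper bound only: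
|γ s - γ t| = |s - t| |x - y|, sum telescopes). `pl_neg`: t -> -γ t (isometry). `pl_ge`: edist x y <= pl S x y.
EPD2: `pl_cut`: for 0 <= s <= t <= 1 the path r -> γ (s + r (t - s)) (precomposed with the projection to [0,1]); variation by
eVariationOn.comp_eq_of_monotoneOn on the image Icc s t. `pl_tri`: concatenation of two paths t -> if t <= 1/2 then γ (2t) else γ' (2t-1),
continuous after precomposing with projections; eVariationOn.Icc_add_Icc. -/

open Real Filter Topology

namespace H47A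

theorem pl_exists {S : Set E3} {x y : E3} {c : ENNReal} (h : pl S x y < c) :
    ∃ γ : ℝ → E3, Continuous γ ∧ γ 0 = x ∧ γ 1 = y ∧ (∀ t ∈ Set.Icc (0 : ℝ) 1, γ t ∈ S) ∧
      eVariationOn γ (Set.Icc (0 : ℝ) 1) < c := by
  unfold pl at h
  obtain ⟨γ, h⟩ := iInf_lt_iff.1 h
  obtain ⟨h1, h⟩ := iInf_lt_iff.1 h
  obtain ⟨h2, h⟩ := iInf_lt_iff.1 h
  obtain ⟨h3, h⟩ := iInf_lt_iff.1 h
  obtain ⟨h4, h⟩ := iInf_lt_iff.1 h
  exact ⟨γ, h1, h2, h3, h4, h⟩

theorem pl_le {S : Set E3} {x y : E3} {γ : ℝ → E3} (h : Continuous γ) (h0 : γ 0 = x) (h1 : γ 1 = y)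
    (hS : ∀ t ∈ Set.Icc (0 : ℝ) 1, γ t ∈ S) : pl S x y ≤ eVariationOn γ (Set.Icc (0 : ℝ) 1) := by
  exact iInf_le_of_le γ (iInf_le_of_le h (iInf_le_of_le h0 (iInf_le_of_le h1 (iInf_le_of_le hS le_rfl))))

theorem epd_symm (S : Set E3) (x y : E3) : pl S x y ≤ pl S y x := by
  refine le_iInf fun γ => le_iInf fun h1 => le_iInf fun h2 => le_iInf fun h3 => le_iInf fun h4 => ?_
  have hm : Set.MapsTo (fun t : ℝ => 1 - t) (Set.Icc 0 1) (Set.Icc 0 1) := by
    intro t ht
    exact ⟨by linarith [ht.2], by linarith [ht.1]⟩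
  refine (pl_le (γ := fun t => γ (1 - t)) (h1.comp (continuous_const.sub continuous_id)) ?_ ?_ ?_).trans ?_
  · show γ (1 - 0) = x
    rw [sub_zero, h3]
  · show γ (1 - 1) = y
    rw [sub_self, h2]
  · intro t ht
    exact h4 _ (hm ht)
  · exact eVariationOn.comp_le_of_antitoneOn γ (fun t : ℝ => 1 - t) (fun a _ b _ hab => by
      show 1 - b ≤ 1 - a
      linarith) hm

theorem pl_symm (S : Set E3) (x y : E3) : pl S x y = pl S y x := by
  exact le_antisymm (epd_symm S x y) (epd_symm S y x)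

theorem pl_self {S : Set E3} {x : E3} (hx : x ∈ S) : pl S x x = 0 := by
  refine le_antisymm ((pl_le (γ := fun _ => x) continuous_const rfl rfl fun _ _ => hx).trans ?_) bot_le
  rw [eVariationOn.constant_on]
  rintro _ ⟨_, _, rfl⟩ _ ⟨_, _, rfl⟩
  rfl

theorem epd_id : eVariationOn (fun t : ℝ => t) (Set.Icc (0 : ℝ) 1) ≤ 1 := by
  have h := MonotoneOn.eVariationOn_le (f := fun t : ℝ => t) (s := Set.Icc (0 : ℝ) 1) (fun a _ b _ hab => hab)
    (a := 0) (b := 1) ⟨le_rfl, zero_le_one⟩ ⟨zero_le_one, le_rfl⟩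
  rw [Set.inter_self] at h
  simpa using h

theorem pl_seg {S : Set E3} {x y : E3} (h : segment ℝ x y ⊆ S) : pl S x y ≤ ENNReal.ofReal ‖x - y‖ := by
  refine (pl_le (γ := fun t => AffineMap.lineMap x y t) (AffineMap.lineMap_continuous) (by simp) (by simp) ?_).trans ?_
  · intro t ht
    refine h ?_
    rw [segment_eq_image_lineMap]
    exact ⟨t, ht, rfl⟩
  · have hl : LipschitzWith (nndist x y) fun t : ℝ => (AffineMap.lineMap x y t : E3) := lipschitzWith_lineMap x y
    have h1 := (hl.lipschitzOnWith (s := Set.univ)).comp_eVariationOn_le (g := fun t : ℝ => t)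
      (s := Set.Icc (0 : ℝ) 1) (fun _ _ => trivial)
    refine (h1.trans (mul_le_mul_right epd_id _)).trans ?_
    rw [mul_one, ← dist_eq_norm, ← edist_nndist, edist_dist]

theorem pl_mono {S T : Set E3} (h : S ⊆ T) (x y : E3) : pl T x y ≤ pl S x y := by
  refine le_iInf fun γ => le_iInf fun h1 => le_iInf fun h2 => le_iInf fun h3 => le_iInf fun h4 => ?_
  exact pl_le h1 h2 h3 fun t ht => h (h4 t ht)

theorem pl_neg {S T : Set E3} (h : ∀ z, z ∈ S → -z ∈ T) (x y : E3) : pl T (-x) (-y) ≤ pl S x y := by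
  refine le_iInf fun γ => le_iInf fun h1 => le_iInf fun h2 => le_iInf fun h3 => le_iInf fun h4 => ?_
  refine (pl_le (γ := fun t => -γ t) h1.neg ?_ ?_ fun t ht => h _ (h4 t ht)).trans ?_
  · show -γ 0 = -x
    rw [h2]
  · show -γ 1 = -y
    rw [h3]
  · have hl : LipschitzWith 1 fun z : E3 => -z := LipschitzWith.id.neg
    have h5 := (hl.lipschitzOnWith (s := Set.univ)).comp_eVariationOn_le (g := γ) (s := Set.Icc (0 : ℝ) 1)
      (fun _ _ => trivial)
    rw [ENNReal.coe_one, one_mul] at h5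
    exact h5

theorem pl_ge (S : Set E3) (x y : E3) : ENNReal.ofReal ‖x - y‖ ≤ pl S x y := by
  refine le_iInf fun γ => le_iInf fun h1 => le_iInf fun h2 => le_iInf fun h3 => le_iInf fun h4 => ?_
  have h5 := eVariationOn.edist_le γ (s := Set.Icc (0 : ℝ) 1) (x := 0) (y := 1) ⟨le_rfl, zero_le_one⟩ ⟨zero_le_one, le_rfl⟩
  rw [h2, h3, edist_dist, dist_eq_norm] at h5
  exact h5

end H47A
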