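import Pool.Agent.Lib.H47A.PDefs
import Pool.Agent.Lib.H47A.DFam

/-! # H47A, chunk PSMALL (M)
PROOF. `Cl_const`: if p - x is not in 2mZ then ⌈(p - x)/2m⌉ is locally constant (Int.ceil is locally constant at non-integers):
there is a > 0 with Cl (p' - x') = Cl (p - x) for |p' - p| < a, |x' - x| < a. For e = e' = 0 the pushed chord number s is the chord
number s of lp i (`pX_zero`: chs m i L (i+m) has the chord number s = (pX 0, pY 0); induction or `chs_get`), so the il in question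
is xs. All end points involved are different mod 2m (`ends_pairwise`, `ends_ne`: (i,s) != (j,t); for i = j and s != t the four points
are different entries of the list ends... s = 0 and t = last: i and i + m). There are finitely many pairs (i,s), (j,t), hence a
common a > 0; e0 = min of a/2, 1/4 and (for nq) the distances of the numbers i - y to mZ, halved (finitely many, positive since
i - y is not even an integer). -/

open Real Finset

namespace H47A

variable {m : ℕ}

theorem Cl_const (hm : 0 < m) {p x : ℝ} (h : Nd m p x) :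
    ∃ a : ℝ, 0 < a ∧ ∀ p' x' : ℝ, |p' - p| < a → |x' - x| < a → Cl m (p' - x') = Cl m (p - x) := by
  have hm0 : (0 : ℝ) < m := by exact_mod_cast hm
  obtain ⟨z, hz⟩ : ∃ z, z = (p - x) / (2 * m) := ⟨_, rfl⟩
  obtain ⟨c, hc⟩ : ∃ c : ℤ, c = ⌈z⌉ := ⟨_, rfl⟩
  have h1 : z ≤ c := by rw [hc]; exact Int.le_ceil z
  have h2 : (c : ℝ) - 1 < z := by
    rw [hc]
    linarith [Int.ceil_lt_add_one z]
  have h3 : z ≠ c := by
    intro h4
    apply h c
    rw [hz, div_eq_iff (by positivity)] at h4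
    linarith
  have h4 : z < c := lt_of_le_of_ne h1 h3
  obtain ⟨r, hr⟩ : ∃ r, r = min (z - (c - 1)) (c - z) := ⟨_, rfl⟩
  have hr0 : 0 < r := by rw [hr]; exact lt_min (by linarith) (by linarith)
  have hr1 : r ≤ z - (c - 1) := by rw [hr]; exact min_le_left _ _
  have hr2 : r ≤ c - z := by rw [hr]; exact min_le_right _ _
  refine ⟨m * r, by positivity, fun p' x' hp hx => ?_⟩
  unfold Cl
  rw [← hz, ← hc, Int.ceil_eq_iff]
  obtain ⟨p1, p2⟩ := abs_lt.1 hp
  obtain ⟨x1, x2⟩ := abs_lt.1 hx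
  have hz2 : z * (2 * m) = p - x := by rw [hz]; field_simp
  have e1 : r * m ≤ (z - (c - 1)) * m := mul_le_mul_of_nonneg_right hr1 hm0.le
  have e2 : r * m ≤ (c - z) * m := mul_le_mul_of_nonneg_right hr2 hm0.le
  constructor
  · rw [lt_div_iff₀ (by positivity)]
    linarith
  · rw [div_le_iff₀ (by positivity)]
    linarith

theorem psmall_chs (L : List ℝ) (a b : ℝ) (s : ℕ) (hs : s ≤ L.length) :
    (chs m a L b).getD s 0 = (if s = 0 then a else L.getD (s - 1) 0 + m,
      if s < L.length then L.getD s 0 else b) := by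
  induction L generalizing a s with
  | nil =>
    have hs0 : s = 0 := by simpa using hs
    rw [hs0]
    simp [chs]
  | cons y L ih =>
    have h1 : chs m a (y :: L) b = (a, y) :: chs m (y + m) L b := rfl
    rw [h1]
    cases s with
    | zero => simp
    | succ s =>
      have hs' : s ≤ L.length := by simpa using hs
      rw [List.getD_cons_succ, ih (y + m) s hs']
      simp only [Nat.add_eq_zero_iff, one_ne_zero, and_false, if_false, Nat.add_sub_cancel,
        List.length_cons, Nat.add_lt_add_iff_right, List.getD_cons_succ, Prod.mk.injEq, and_true]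
      cases s with
      | zero => simp
      | succ s => simp

theorem chs_pXY (L : List ℝ) (i : ℝ) (s : ℕ) (hs : s ≤ L.length) :
    (chs m i L (i + m)).getD s 0 = (pX m L i 0 s, pY m L i 0 s) := by
  rw [psmall_chs L i (i + m) s hs]
  unfold pX pY
  rw [add_zero, add_zero]

theorem psmall_get {l : Fin m → List ℝ} (hl : GenFam m l) (i : Fin m) (a b : ℕ)
    (ha : a < (l i).length) (hb : b < (l i).length) (hab : a ≠ b) :
    Nq m ((l i).getD a 0) ((l i).getD b 0) := by
  have h1 := List.pairwise_iff_getElem.1 (hl.nq i)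
  rw [List.getD_eq_getElem _ _ ha, List.getD_eq_getElem _ _ hb]
  rcases lt_or_gt_of_ne hab with h | h
  · exact h1 a b ha hb h
  · exact (h1 b a hb ha h).symm

theorem psmall_i {l : Fin m → List ℝ} (hl : GenFam m l) (i j : Fin m) (a : ℕ) (ha : a < (l j).length) :
    Nq m ((i : ℕ) : ℝ) ((l j).getD a 0) := by
  rw [List.getD_eq_getElem _ _ ha]
  exact dfam_int _ (hl.nv j _ (List.getElem_mem ha))

theorem psmall_r {x y : ℝ} (h : Nq m x y) : Nq m x (y + m) := by
  have := dfam_shift h.symm 1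
  exact (by simpa using this : Nq m (y + m) x).symm

theorem psmall_XX {l : Fin m → List ℝ} (hl : GenFam m l) (i : Fin m) (s t : ℕ)
    (hs : s ≤ (l i).length) (ht : t ≤ (l i).length) (hst : s ≠ t) :
    Nd m (pX m (l i) (i : ℕ) 0 s) (pX m (l i) (i : ℕ) 0 t) := by
  unfold pX
  rw [add_zero]
  split_ifs with h1 h2 h2
  · exact absurd (h1.trans h2.symm) hst
  · exact (psmall_r (psmall_i hl i i (t - 1) (by omega))).nd
  · exact (psmall_r (psmall_i hl i i (s - 1) (by omega))).nd.symm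
  · exact (psmall_r (psmall_r (psmall_get hl i (s - 1) (t - 1) (by omega) (by omega)
      (by omega)).symm).symm).nd

theorem psmall_YY {l : Fin m → List ℝ} (hl : GenFam m l) (i : Fin m) (s t : ℕ)
    (hs : s ≤ (l i).length) (ht : t ≤ (l i).length) (hst : s ≠ t) :
    Nd m (pY m (l i) (i : ℕ) 0 s) (pY m (l i) (i : ℕ) 0 t) := by
  unfold pY
  rw [add_zero]
  split_ifs with h1 h2 h2
  · exact (psmall_get hl i s t h1 h2 hst).nd
  · exact (psmall_r (psmall_i hl i i s h1).symm).nd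
  · exact (psmall_r (psmall_i hl i i t h2).symm).nd.symm
  · exfalso
    omega

theorem psmall_XY (hm : 0 < m) {l : Fin m → List ℝ} (hl : GenFam m l) (i : Fin m) (s t : ℕ)
    (hs : s ≤ (l i).length) :
    Nd m (pX m (l i) (i : ℕ) 0 s) (pY m (l i) (i : ℕ) 0 t) := by
  unfold pX pY
  rw [add_zero, add_zero]
  split_ifs with h1 h2 h2
  · exact (psmall_i hl i i t h2).nd
  · exact dfam_odd hm _
  · by_cases h3 : s - 1 = t
    · rw [h3]
      exact (dfam_odd hm _).symm
    · exact (psmall_r (psmall_get hl i (s - 1) t (by omega) h2 h3).symm).nd.symm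
  · exact (psmall_r (psmall_r (psmall_i hl i i (s - 1) (by omega))).symm).nd

theorem psmall_mem (L : List ℝ) (i : ℝ) (s : ℕ) (hs : s ≤ L.length) :
    pX m L i 0 s ∈ ends m i L ∧ pY m L i 0 s ∈ ends m i L := by
  have h1 : s < (chs m i L (i + m)).length := by
    rw [chs_length]
    omega
  have h2 := mem_ends i L ((chs m i L (i + m)).getD s 0) (by
    rw [List.getD_eq_getElem _ _ h1]
    exact List.getElem_mem h1)
  rw [chs_pXY L i s hs] at h2
  exact h2

/-- all end points of different chords are different -/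
theorem psmall_nd (hm : 0 < m) {l : Fin m → List ℝ} (hl : GenFam m l) (i j : Fin m) (s t : ℕ)
    (hs : s ≤ (l i).length) (ht : t ≤ (l j).length) (hst : (i, s) ≠ (j, t)) :
    Nd m (pX m (l i) (i : ℕ) 0 s) (pX m (l j) (j : ℕ) 0 t) ∧
    Nd m (pX m (l i) (i : ℕ) 0 s) (pY m (l j) (j : ℕ) 0 t) ∧
    Nd m (pY m (l i) (i : ℕ) 0 s) (pX m (l j) (j : ℕ) 0 t) ∧
    Nd m (pY m (l i) (i : ℕ) 0 s) (pY m (l j) (j : ℕ) 0 t) := by
  by_cases hij : i = j
  · subst hij
    have hst' : s ≠ t := fun h => hst (by rw [h])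
    exact ⟨psmall_XX hl i s t hs ht hst', psmall_XY hm hl i s t hs, (psmall_XY hm hl i t s ht).symm,
      psmall_YY hl i s t hs ht hst'⟩
  · obtain ⟨a1, a2⟩ := psmall_mem (m := m) (l i) (i : ℕ) s hs
    obtain ⟨b1, b2⟩ := psmall_mem (m := m) (l j) (j : ℕ) t ht
    exact ⟨ends_ne hm hl hij _ _ a1 b1, ends_ne hm hl hij _ _ a1 b2, ends_ne hm hl hij _ _ a2 b1,
      ends_ne hm hl hij _ _ a2 b2⟩

theorem psmall_dX (L : List ℝ) (i e : ℝ) (s : ℕ) : |pX m L i e s - pX m L i 0 s| ≤ |e| := by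
  unfold pX
  split_ifs
  · rw [show i + e - (i + 0) = e by ring]
  · rw [sub_self, abs_zero]
    exact abs_nonneg e

theorem psmall_dY (L : List ℝ) (i e : ℝ) (s : ℕ) : |pY m L i e s - pY m L i 0 s| ≤ |e| := by
  unfold pY
  split_ifs
  · rw [sub_self, abs_zero]
    exact abs_nonneg e
  · rw [show i + m + e - (i + m + 0) = e by ring]

theorem psmall_ev {Q : ℝ → ℝ → Prop} (h : ∃ a : ℝ, 0 < a ∧ ∀ e e', |e| < a → |e'| < a → Q e e') :
    ∀ᶠ b in nhdsWithin (0 : ℝ) (Set.Ioi 0), ∀ e e', |e| ≤ b → |e'| ≤ b → Q e e' := by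
  obtain ⟨a, ha, h⟩ := h
  filter_upwards [Ioo_mem_nhdsGT ha] with b hb e e' he he'
  exact h e e' (lt_of_le_of_lt he hb.2) (lt_of_le_of_lt he' hb.2)

theorem psmall_il (hm : 0 < m) {l : Fin m → List ℝ} (hl : GenFam m l) (i j : Fin m) (s t : ℕ)
    (hs : s ≤ (l i).length) (ht : t ≤ (l j).length) (hst : (i, s) ≠ (j, t)) :
    ∃ a : ℝ, 0 < a ∧ ∀ e e', |e| < a → |e'| < a →
    il m (pX m (l i) (i : ℕ) e s) (pY m (l i) (i : ℕ) e s) (pX m (l j) (j : ℕ) e' t) (pY m (l j) (j : ℕ) e' t) =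
      xs m l i j s t := by
  obtain ⟨n1, n2, n3, n4⟩ := psmall_nd hm hl i j s t hs ht hst
  obtain ⟨a1, p1, h1⟩ := Cl_const hm n1
  obtain ⟨a2, p2, h2⟩ := Cl_const hm n2
  obtain ⟨a3, p3, h3⟩ := Cl_const hm n3
  obtain ⟨a4, p4, h4⟩ := Cl_const hm n4
  refine ⟨min (min a1 a2) (min a3 a4), lt_min (lt_min p1 p2) (lt_min p3 p4), fun e e' he he' => ?_⟩
  have m1 : min (min a1 a2) (min a3 a4) ≤ a1 := (min_le_left _ _).trans (min_le_left _ _)
  have m2 : min (min a1 a2) (min a3 a4) ≤ a2 := (min_le_left _ _).trans (min_le_right _ _)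
  have m3 : min (min a1 a2) (min a3 a4) ≤ a3 := (min_le_right _ _).trans (min_le_left _ _)
  have m4 : min (min a1 a2) (min a3 a4) ≤ a4 := (min_le_right _ _).trans (min_le_right _ _)
  have dX := psmall_dX (m := m) (l i) (i : ℕ) e s
  have dY := psmall_dY (m := m) (l i) (i : ℕ) e s
  have dX' := psmall_dX (m := m) (l j) (j : ℕ) e' t
  have dY' := psmall_dY (m := m) (l j) (j : ℕ) e' t
  have hx : xs m l i j s t = il m (pX m (l i) (i : ℕ) 0 s) (pY m (l i) (i : ℕ) 0 s)
      (pX m (l j) (j : ℕ) 0 t) (pY m (l j) (j : ℕ) 0 t) := by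
    unfold xs lp
    rw [chs_pXY _ _ _ hs, chs_pXY _ _ _ ht]
  rw [hx]
  have q1 := h1 (pX m (l i) (i : ℕ) e s) (pX m (l j) (j : ℕ) e' t) (by linarith) (by linarith)
  have q2 := h2 (pX m (l i) (i : ℕ) e s) (pY m (l j) (j : ℕ) e' t) (by linarith) (by linarith)
  have q3 := h3 (pY m (l i) (i : ℕ) e s) (pX m (l j) (j : ℕ) e' t) (by linarith) (by linarith)
  have q4 := h4 (pY m (l i) (i : ℕ) e s) (pY m (l j) (j : ℕ) e' t) (by linarith) (by linarith)
  unfold il side
  rw [q1, q2, q3, q4]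

theorem psmall_nq (hm : 0 < m) {x y : ℝ} (h : Nq m x y) :
    ∃ a : ℝ, 0 < a ∧ ∀ e e' : ℝ, |e| < a → |e'| < a → Nq m (x + e) y := by
  have hm0 : (0 : ℝ) < m := by exact_mod_cast hm
  obtain ⟨z, hz⟩ : ∃ z, z = (x - y) / m := ⟨_, rfl⟩
  obtain ⟨c, hc⟩ : ∃ c : ℤ, c = ⌈z⌉ := ⟨_, rfl⟩
  have h1 : z ≤ c := by rw [hc]; exact Int.le_ceil z
  have h2 : (c : ℝ) - 1 < z := by
    rw [hc]
    linarith [Int.ceil_lt_add_one z]
  have h3 : z ≠ c := by
    intro h4
    apply h c
    rw [hz, div_eq_iff (by positivity)] at h4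
    linarith
  have h4 : z < c := lt_of_le_of_ne h1 h3
  obtain ⟨r, hr⟩ : ∃ r, r = min (z - (c - 1)) (c - z) := ⟨_, rfl⟩
  have hr0 : 0 < r := by rw [hr]; exact lt_min (by linarith) (by linarith)
  have hr1 : r ≤ z - (c - 1) := by rw [hr]; exact min_le_left _ _
  have hr2 : r ≤ c - z := by rw [hr]; exact min_le_right _ _
  refine ⟨m * r, by positivity, fun e e' he _ k hk => ?_⟩
  obtain ⟨p1, p2⟩ := abs_lt.1 he
  have hz2 : z * m = x - y := by rw [hz]; field_simp
  have e1 : r * m ≤ (z - (c - 1)) * m := mul_le_mul_of_nonneg_right hr1 hm0.le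
  have e2 : r * m ≤ (c - z) * m := mul_le_mul_of_nonneg_right hr2 hm0.le
  have k1 : (k : ℝ) * m < c * m := by linarith
  have k2 : ((c : ℝ) - 1) * m < k * m := by linarith
  have k3 : (k : ℝ) < c := lt_of_mul_lt_mul_right k1 hm0.le
  have k4 : (c : ℝ) - 1 < k := lt_of_mul_lt_mul_right k2 hm0.le
  have k5 : k < c := by exact_mod_cast k3
  have k6 : c - 1 < k := by exact_mod_cast k4
  omega

theorem exists_small (hm : 0 < m) {l : Fin m → List ℝ} (hl : GenFam m l) : ∃ e0 : ℝ, Small m l e0 := by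
  classical
  have E1 : ∀ᶠ b in nhdsWithin (0 : ℝ) (Set.Ioi 0), ∀ i j : Fin m, ∀ y ∈ (l j).toFinset,
      ∀ e e' : ℝ, |e| ≤ b → |e'| ≤ b → Nq m ((i : ℕ) + e) y := by
    rw [Filter.eventually_all]
    intro i
    rw [Filter.eventually_all]
    intro j
    rw [Finset.eventually_all]
    intro y hy
    rw [List.mem_toFinset] at hy
    exact psmall_ev (psmall_nq hm (dfam_int _ (hl.nv j y hy)))
  have E2 : ∀ᶠ b in nhdsWithin (0 : ℝ) (Set.Ioi 0), ∀ i j : Fin m,
      ∀ s ∈ range ((l i).length + 1), ∀ t ∈ range ((l j).length + 1),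
      ∀ e e' : ℝ, |e| ≤ b → |e'| ≤ b → (i, s) ≠ (j, t) →
      il m (pX m (l i) (i : ℕ) e s) (pY m (l i) (i : ℕ) e s) (pX m (l j) (j : ℕ) e' t)
        (pY m (l j) (j : ℕ) e' t) = xs m l i j s t := by
    rw [Filter.eventually_all]
    intro i
    rw [Filter.eventually_all]
    intro j
    rw [Finset.eventually_all]
    intro s hs
    rw [Finset.eventually_all]
    intro t ht
    rw [Finset.mem_range] at hs ht
    by_cases hst : (i, s) = (j, t)
    · exact Filter.Eventually.of_forall fun b e e' _ _ h => absurd hst h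
    · have h1 := psmall_ev (psmall_il hm hl i j s t (by omega) (by omega) hst)
      filter_upwards [h1] with b hb e e' he he' _
      exact hb e e' he he'
  have E3 : ∀ᶠ b in nhdsWithin (0 : ℝ) (Set.Ioi 0), b ∈ Set.Ioo (0 : ℝ) (1 / 2) :=
    Ioo_mem_nhdsGT (by norm_num)
  obtain ⟨b, ⟨h1, h2⟩, h3⟩ := ((E1.and E2).and E3).exists
  refine ⟨b, h3.1, h3.2, ?_, ?_⟩
  · intro i j e he y hy
    exact h1 i j y (List.mem_toFinset.2 hy) e 0 he (by rw [abs_zero]; exact h3.1.le)
  · intro i j e e' he he' s t hs ht hst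
    exact h2 i j s (Finset.mem_range.2 (by omega)) t (Finset.mem_range.2 (by omega)) e e' he he' hst

end H47A
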