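import Pool.Agent.Lib.H47A.PPair
import Pool.Agent.Lib.H47A.PSmall

/-! # H47A, chunk PLEN (M): the pairing with the metric is bounded by the length
PROOF. `dual` for c+ and c- with f = M and the points th t = the end points of the unpushed loop: th t = pY (l i) i 0 (t % n)
(= Y t except for the last one, where it is i + m, an end point of the segments [i+m, i+m+1] of Y+ and [i+m-1, i+m] of Y-). So
 AA M (nV c+-) = (1/2) sum_{t<n} cr(w_t, xi+- t), w_t = M (pY 0 t) - M (pX 0 t) (M is 2m-periodic; th (t-1) + m is pX 0 t, plus 2m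
for t = 0). With tau mu = (h i - h (i-1))/2 and Em = the mean of E+ t and E- t, `pair_E`: E+- t = Em +- (-1)^t tau mu, so
 y xi+ t + z xi- t = I e^{i Em} (y e^{i (-1)^t tau mu} + z e^{-i (-1)^t tau mu}), whose norm is |y e^{i tau mu} + z e^{-i tau mu}|
(complex conjugation for odd t). Hence |cr(w_t, y xi+ + z xi-)| <= |w_t| * norm <= d (pX 0 t) (pY 0 t) * norm, and the sum of the
d's is len d (lp m l i) (`chs_pXY`). -/

open Real Finset

namespace H47A

variable {m : ℕ} {l : Fin m → List ℝ} {e0 : ℝ} {h : ℤ → ℝ}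

theorem plen_cr (w v : ℂ) : |cr w v| ≤ ‖w‖ * ‖v‖ := by
  rw [bbil_cr_eq]
  refine (Complex.abs_im_le_norm _).trans ?_
  rw [norm_mul, RCLike.norm_conj]

theorem plen_sum (f : ℝ × ℝ → ℝ) (L : List (ℝ × ℝ)) : (L.map f).sum = ∑ t ∈ range L.length, f (L.getD t 0) := by
  induction L with
  | nil => simp
  | cons a L ih =>
    rw [List.map_cons, List.sum_cons, ih, List.length_cons, Finset.sum_range_succ']
    rw [add_comm]
    congr 1

theorem plen_dual (hh : IsHalf m h) (hm : 0 < m) (hl : GenFam m l) (hs : Small m l e0) (i : Fin m)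
    {M : ℝ → ℂ} (hM : Glued m h M) (e : ℝ) (he : |e| = e0)
    (hth : ((i : ℕ) : ℝ) + m ∈ Set.Icc (⌊((i : ℕ) : ℝ) + m + e⌋ : ℝ) (⌊((i : ℕ) : ℝ) + m + e⌋ + 1)) :
    AA m (fun k => M k) ((mkCS hm hl hs i e he).nV h) = 1 / 2 * ∑ t ∈ range ((l i).length + 1),
      cr (M (pY m (l i) (i : ℕ) 0 t) - M (pX m (l i) (i : ℕ) 0 t)) ((mkCS hm hl hs i e he).xi h t) := by
  have h1 := dual hh (mkCS hm hl hs i e he) hM (mkY m (l i) (i : ℕ) 0) (fun t => by
    unfold mkY
    congr 2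
    rw [ppair_n]
    exact Int.add_emod_right _ _) (fun t => by
    rw [mkCS_Y]
    unfold mkY pY
    split_ifs with h2
    · exact ⟨Int.floor_le _, (Int.lt_floor_add_one _).le⟩
    · rw [add_zero]
      exact hth)
  rw [h1, ppair_n]
  congr 1
  refine Finset.sum_congr rfl fun t ht => ?_
  have ht' : t ≤ (l i).length := Nat.lt_succ_iff.1 (Finset.mem_range.1 ht)
  have e1 : mkY m (l i) (i : ℕ) 0 (t : ℤ) = pY m (l i) (i : ℕ) 0 t := by
    unfold mkY
    rw [← Int.natCast_mod, Nat.mod_eq_of_lt (by omega), Int.toNat_natCast]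
  have e2 : M (mkY m (l i) (i : ℕ) 0 ((t : ℤ) - 1) + m) = M (pX m (l i) (i : ℕ) 0 t) := by
    by_cases h0 : t = 0
    · subst h0
      have e3 : ((0 : ℕ) : ℤ) - 1 = -1 := rfl
      have e4 : (-1 : ℤ) % (((l i).length + 1 : ℕ) : ℤ) = (((l i).length : ℕ) : ℤ) := by
        rw [← Int.add_emod_right, show (-1 : ℤ) + (((l i).length + 1 : ℕ) : ℤ) = (((l i).length : ℕ) : ℤ) by push_cast; ring]
        rw [← Int.natCast_mod, Nat.mod_eq_of_lt (by omega)]
      unfold mkY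
      rw [e3, e4, Int.toNat_natCast, pY, if_neg (lt_irrefl _), pX, if_pos rfl, ← hM.per (((i : ℕ) : ℝ) + 0)]
      congr 1
      ring
    · have e3 : ((t : ℕ) : ℤ) - 1 = ((t - 1 : ℕ) : ℤ) := by omega
      unfold mkY
      rw [e3, ← Int.natCast_mod, Nat.mod_eq_of_lt (by omega), Int.toNat_natCast, pY, if_pos (by omega), pX, if_neg h0]
  rw [e1, e2]

theorem plen_norm (hh : IsHalf m h) (hm : 0 < m) (hl : GenFam m l) (hs : Small m l e0) (i : Fin m) {t : ℕ}
    (ht : t ≤ (l i).length) (y z : ℝ) :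
    ‖(y : ℂ) * (cp hm hl hs i).xi h t + (z : ℂ) * (cn hm hl hs i).xi h t‖ =
      ‖(y : ℂ) * Complex.exp (((h (i : ℕ) - h ((i : ℕ) - 1)) / 2 : ℝ) * Complex.I) +
        z * Complex.exp (-((h (i : ℕ) - h ((i : ℕ) - 1)) / 2 : ℝ) * Complex.I)‖ := by
  obtain ⟨Δ, hΔ⟩ : ∃ Δ : ℝ, Δ = h (i : ℕ) - h ((i : ℕ) - 1) := ⟨_, rfl⟩
  have h1 := pair_E hh hm hl hs i t ht
  rw [← hΔ] at h1 ⊢
  obtain ⟨a, ha⟩ : ∃ a : ℝ, a = (cp hm hl hs i).E h t := ⟨_, rfl⟩
  obtain ⟨b, hb⟩ : ∃ b : ℝ, b = (cn hm hl hs i).E h t := ⟨_, rfl⟩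
  rw [← ha, ← hb] at h1
  unfold CS.xi
  rw [← ha, ← hb]
  have h2 : ∀ c : ℝ, a = (a + b) / 2 + c → b = (a + b) / 2 - c →
      ‖(y : ℂ) * (Complex.I * Complex.exp ((a : ℂ) * Complex.I)) + (z : ℂ) * (Complex.I * Complex.exp ((b : ℂ) * Complex.I))‖ =
        ‖(y : ℂ) * Complex.exp ((c : ℂ) * Complex.I) + z * Complex.exp (-(c : ℂ) * Complex.I)‖ := by
    intro c hc1 hc2
    have e1 : (a : ℂ) * Complex.I = (((a + b) / 2 : ℝ) : ℂ) * Complex.I + (c : ℂ) * Complex.I := by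
      rw [← add_mul, ← Complex.ofReal_add, ← hc1]
    have e2 : (b : ℂ) * Complex.I = (((a + b) / 2 : ℝ) : ℂ) * Complex.I + -(c : ℂ) * Complex.I := by
      rw [← add_mul, ← Complex.ofReal_neg, ← Complex.ofReal_add, ← sub_eq_add_neg, ← hc2]
    rw [e1, e2, Complex.exp_add, Complex.exp_add]
    have e3 : (y : ℂ) * (Complex.I * (Complex.exp ((((a + b) / 2 : ℝ) : ℂ) * Complex.I) * Complex.exp ((c : ℂ) * Complex.I))) +
        (z : ℂ) * (Complex.I * (Complex.exp ((((a + b) / 2 : ℝ) : ℂ) * Complex.I) * Complex.exp (-(c : ℂ) * Complex.I))) =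
        Complex.I * Complex.exp ((((a + b) / 2 : ℝ) : ℂ) * Complex.I) *
          ((y : ℂ) * Complex.exp ((c : ℂ) * Complex.I) + z * Complex.exp (-(c : ℂ) * Complex.I)) := by ring
    rw [e3, norm_mul, norm_mul, Complex.norm_I, Complex.norm_exp_ofReal_mul_I, one_mul, one_mul]
  rcases neg_one_pow_eq_or ℝ t with h4 | h4
  · rw [h4, one_mul] at h1
    rw [h2 (Δ / 2) (by linarith) (by linarith)]
  · rw [h4] at h1
    rw [h2 (-(Δ / 2)) (by linarith) (by linarith)]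
    rw [← RCLike.norm_conj]
    congr 1
    rw [map_add, map_mul, map_mul, Complex.conj_ofReal, Complex.conj_ofReal, ← Complex.exp_conj, ← Complex.exp_conj,
      map_mul, map_mul, map_neg, Complex.conj_ofReal, Complex.conj_I]
    push_cast
    congr 3 <;> ring_nf

theorem pair_len (hh : IsHalf m h) (hm : 0 < m) (hl : GenFam m l) (hs : Small m l e0) (i : Fin m)
    {M : ℝ → ℂ} (hM : Glued m h M) {d : ℝ → ℝ → ℝ} (hd : ∀ x y, ‖M x - M y‖ ≤ d x y) (y z : ℝ) :
    |y * AA m (fun k => M k) ((cp hm hl hs i).nV h) + z * AA m (fun k => M k) ((cn hm hl hs i).nV h)| ≤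
      1 / 2 * ‖(y : ℂ) * Complex.exp (((h (i : ℕ) - h ((i : ℕ) - 1)) / 2 : ℝ) * Complex.I) +
        z * Complex.exp (-((h (i : ℕ) - h ((i : ℕ) - 1)) / 2 : ℝ) * Complex.I)‖ * len d (lp m l i) := by
  have hpos := hs.pos
  have hlt := hs.lt
  obtain ⟨Δ, hΔ⟩ : ∃ Δ : ℝ, Δ = h (i : ℕ) - h ((i : ℕ) - 1) := ⟨_, rfl⟩
  have h1 := plen_dual hh hm hl hs i hM e0 (small_abs hs) ⟨by
    have f1 : ⌊((i : ℕ) : ℝ) + m + e0⌋ = ((i : ℕ) : ℤ) + m := by
      rw [Int.floor_eq_iff]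
      push_cast
      constructor <;> linarith
    rw [f1]
    push_cast
    linarith, by
    have f1 : ⌊((i : ℕ) : ℝ) + m + e0⌋ = ((i : ℕ) : ℤ) + m := by
      rw [Int.floor_eq_iff]
      push_cast
      constructor <;> linarith
    rw [f1]
    push_cast
    linarith⟩
  have h2 := plen_dual hh hm hl hs i hM (-e0) (small_abs' hs) ⟨by
    have f1 : ⌊((i : ℕ) : ℝ) + m + -e0⌋ = ((i : ℕ) : ℤ) + m - 1 := by
      rw [Int.floor_eq_iff]
      push_cast
      constructor <;> linarith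
    rw [f1]
    push_cast
    linarith, by
    have f1 : ⌊((i : ℕ) : ℝ) + m + -e0⌋ = ((i : ℕ) : ℤ) + m - 1 := by
      rw [Int.floor_eq_iff]
      push_cast
      constructor <;> linarith
    rw [f1]
    push_cast
    linarith⟩
  change AA m (fun k => M k) ((cp hm hl hs i).nV h) = _ at h1
  change AA m (fun k => M k) ((cn hm hl hs i).nV h) = _ at h2
  have h3 : y * AA m (fun k => M k) ((cp hm hl hs i).nV h) + z * AA m (fun k => M k) ((cn hm hl hs i).nV h) =
      1 / 2 * ∑ t ∈ range ((l i).length + 1), cr (M (pY m (l i) (i : ℕ) 0 t) - M (pX m (l i) (i : ℕ) 0 t))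
        ((y : ℂ) * (cp hm hl hs i).xi h t + (z : ℂ) * (cn hm hl hs i).xi h t) := by
    rw [h1, h2, mul_left_comm y, mul_left_comm z, ← mul_add, Finset.mul_sum, Finset.mul_sum, ← Finset.sum_add_distrib]
    congr 1
    refine Finset.sum_congr rfl fun t _ => ?_
    rw [bbil_cr_add_right, bbil_cr_real_right, bbil_cr_real_right]
    rfl
  rw [h3, abs_mul, abs_of_pos (show (0 : ℝ) < 1 / 2 by norm_num), mul_assoc]
  refine mul_le_mul_of_nonneg_left ?_ (by norm_num)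
  refine (Finset.abs_sum_le_sum_abs _ _).trans ?_
  have h4 : len d (lp m l i) = ∑ t ∈ range ((l i).length + 1), d (pX m (l i) (i : ℕ) 0 t) (pY m (l i) (i : ℕ) 0 t) := by
    unfold len
    rw [plen_sum]
    have e1 : (lp m l i).length = (l i).length + 1 := chs_length _ _ _
    rw [e1]
    refine Finset.sum_congr rfl fun t ht => ?_
    have ht' : t ≤ (l i).length := Nat.lt_succ_iff.1 (Finset.mem_range.1 ht)
    unfold lp
    rw [chs_pXY _ _ t ht']
  rw [h4, Finset.mul_sum]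
  refine Finset.sum_le_sum fun t ht => ?_
  have ht' : t ≤ (l i).length := Nat.lt_succ_iff.1 (Finset.mem_range.1 ht)
  refine (plen_cr _ _).trans ?_
  rw [plen_norm hh hm hl hs i ht' y z, mul_comm]
  refine mul_le_mul_of_nonneg_left ?_ (norm_nonneg _)
  rw [norm_sub_rev]
  exact hd _ _

end H47A
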