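import Pool.Agent.Lib.H47A.AFinal
import Pool.Agent.Lib.H47A.BLor
import Pool.Agent.Lib.H47A.PSmall
import Pool.Agent.Lib.H47A.PLen
import Pool.Agent.Lib.H47A.DMain

/-! # H47A, chunk GAMMA (M): the inequality for the Gamma-model
PROOF. Let A0 = AA M M. If A0 <= 0 nothing to prove (L^2 >= 0). Let A0 > 0 and e > 0. `uncross` gives a family l with lengths
<= L + e, `exists_small` gives e0, c+- i = cp, cn; N+- i = nV of them: in V (`nV_inV`), null (`null`, `mk_simple`).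
Signs: choose s i in {1,-1} with s i * AA M N+ i >= 0. Claim s i * AA M N- i >= 0 as well: `pair_AA` gives AA N+ N- =
(1/2) sin(h i - h(i-1)) >= 0 (0 <= h i - h (i-1) < pi). If it is > 0, `lorentz_null` gives AA M N+ * AA M N- >= 0; if AA M N+ = 0
choose s i by N- instead (if both vanish any sign). If sin(..) = 0 then h i = h (i-1), and `pair_len` with y = 1, z = -1 shows
|AA M N+ - AA M N-| <= 0, so they are equal. 
Gram: for (i,a) != (j,b): AA (s i N^a i) (s j N^b j) = (1/2) cos(tau Gc): for i != j `gram` (with `mk_once`, `mk_gen`) gives the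
absolute value; the sign is >= 0: by `lorentz_null` if both pairings with M are nonzero, by `lorentz_zero` the value is 0 otherwise.
For i = j, a != b: `pair_AA`, and cos(tau Gc) = sin(h i - h(i-1)) because Gc = 1 - 2 mu_i (`pair_sgn`, `pair_sgn'`), mu_i =
(h i - h(i-1))/pi. For (i,a) = (j,b): 0 = cos(tau) as Gc = 1.
S i k = c+ i .sgn i * c+ i .sgn k for k != i: then Sg S i 1 k = c+.sgn i * c+.sgn k, Sg S i (-1) k = c+.sgn i * c-.sgn k for all k,
so GG mu S i a j b = +- Gc and cos is even. `matrix_inequality` (mu is a probability weight: sum telescopes to (h (m-1) - h (-1))/pi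
= 1; mu < 1) gives y, z. N = sum_i s i (y i N+ i + z i N- i) (V, `InV_sum`): AA N N = (1/2) * (double sum of `matrix_inequality`) >=
(1/pi) X^2 with X = sum norm (xx i) > 0; AA M N = sum_i s i (y i AA M N+ + z i AA M N-), |AA M N| <= (1/2)(L+e) X by `pair_len`
(xx mu y z i is the complex number there: (pi/2) mu_i = (h i - h(i-1))/2). `lorentz`: A0 X^2/pi <= A0 AA N N <= (AA M N)^2 <=
(1/4)(L+e)^2 X^2. Divide by X^2 and let e -> 0: A0 <= (pi/4) L^2. (L >= 0: it is >= the length of lists up to e; if L were negative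
hL would be contradictory.) -/

open Real Finset

namespace H47A

theorem gamma_sign {x y : ℝ} (h : 0 ≤ x * y) : ∃ s : ℝ, (s = 1 ∨ s = -1) ∧ 0 ≤ s * x ∧ 0 ≤ s * y := by
  rcases lt_trichotomy x 0 with hx | hx | hx
  · refine ⟨-1, Or.inr rfl, by linarith, ?_⟩
    have : y ≤ 0 := nonpos_of_mul_nonneg_right h hx
    linarith
  · rcases le_total 0 y with hy | hy
    · exact ⟨1, Or.inl rfl, by rw [hx]; norm_num, by linarith⟩
    · exact ⟨-1, Or.inr rfl, by rw [hx]; norm_num, by linarith⟩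
  · refine ⟨1, Or.inl rfl, by linarith, ?_⟩
    have : 0 ≤ y := nonneg_of_mul_nonneg_right h hx
    linarith

/-- The weights. -/
noncomputable def gamma_mu (m : ℕ) (h : ℤ → ℝ) (i : Fin m) : ℝ := (h (i : ℕ) - h ((i : ℕ) - 1)) / π

theorem gamma_wt {m : ℕ} {h : ℤ → ℝ} (hh : IsHalf m h) : IsWt (gamma_mu m h) := by
  refine ⟨fun i => div_nonneg (sub_nonneg.2 (hh.mono _)) Real.pi_pos.le, ?_⟩
  have h1 : ∑ i : Fin m, gamma_mu m h i = ∑ k ∈ range m, (h ((k : ℕ) : ℤ) - h ((k : ℕ) - 1)) / π :=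
    (Finset.sum_range fun k : ℕ => (h ((k : ℕ) : ℤ) - h ((k : ℕ) - 1)) / π).symm
  have h2 : ∀ n : ℕ, ∑ k ∈ range n, (h ((k : ℕ) : ℤ) - h ((k : ℕ) - 1)) = h ((n : ℤ) - 1) - h (-1) := by
    intro n
    induction n with
    | zero => simp
    | succ n ih =>
      rw [Finset.sum_range_succ, ih]
      push_cast
      rw [add_sub_cancel_right]
      ring
  rw [h1, ← Finset.sum_div, h2 m]
  have h3 : h ((m : ℤ) - 1) = h (-1) + π := by
    rw [← hh.per (-1), sub_eq_neg_add]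
  rw [h3, add_sub_cancel_left, div_self Real.pi_pos.ne']

theorem gamma_wt1 {m : ℕ} {h : ℤ → ℝ} (hh : IsHalf m h) (i : Fin m) : gamma_mu m h i < 1 :=
  (div_lt_one Real.pi_pos).2 (hh.lt _)

theorem gamma_Gc {m : ℕ} {h : ℤ → ℝ} (c c' : CS m) :
    Gc h c c' = ∑ k : Fin m, gamma_mu m h k * (c.sgn ((k : ℕ) : ℤ) * c'.sgn ((k : ℕ) : ℤ)) := by
  unfold Gc
  exact Finset.sum_range fun k : ℕ => (h ((k : ℕ) : ℤ) - h ((k : ℕ) - 1)) / π * (c.sgn ((k : ℕ) : ℤ) * c'.sgn ((k : ℕ) : ℤ))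

section

variable {m : ℕ} {l : Fin m → List ℝ} {e0 : ℝ} {h : ℤ → ℝ}

/-- The pushed curves. -/
noncomputable def gamma_c (hm : 0 < m) (hl : GenFam m l) (hs : Small m l e0) (p : Fin m × Bool) : CS m :=
  mkCS hm hl hs p.1 (if p.2 then e0 else -e0) (by
    split_ifs
    · exact small_abs hs
    · exact small_abs' hs)

theorem gamma_c_t (hm : 0 < m) (hl : GenFam m l) (hs : Small m l e0) (i : Fin m) :
    gamma_c hm hl hs (i, true) = cp hm hl hs i := by
  simp [gamma_c, cp]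

theorem gamma_c_f (hm : 0 < m) (hl : GenFam m l) (hs : Small m l e0) (i : Fin m) :
    gamma_c hm hl hs (i, false) = cn hm hl hs i := by
  simp [gamma_c, cn]

/-- The own entry. -/
def gamma_e (b : Bool) : ℝ := if b then 1 else -1

theorem gamma_sgsq (c : CS m) (p : ℝ) : c.sgn p * c.sgn p = 1 := by
  rcases c.sgn_pm p with h | h <;> rw [h] <;> norm_num

theorem gamma_Sg (hm : 0 < m) (hl : GenFam m l) (hs : Small m l e0) (i : Fin m) (b : Bool) (k : Fin m) :
    Sg (fun i k : Fin m => (cp hm hl hs i).sgn ((i : ℕ) : ℤ) * (cp hm hl hs i).sgn ((k : ℕ) : ℤ)) i (gamma_e b) k =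
      (cp hm hl hs i).sgn ((i : ℕ) : ℤ) * (gamma_c hm hl hs (i, b)).sgn ((k : ℕ) : ℤ) := by
  unfold Sg
  cases b with
  | true =>
    rw [gamma_c_t]
    by_cases hk : k = i
    · rw [if_pos hk, hk, gamma_sgsq]
      rfl
    · rw [if_neg hk]
  | false =>
    rw [gamma_c_f]
    by_cases hk : k = i
    · rw [if_pos hk, hk]
      have h1 := pair_sgn' hm hl hs i
      have h2 := gamma_sgsq (cn hm hl hs i) (((i : ℕ) : ℤ) : ℝ)
      have h3 : (cp hm hl hs i).sgn (((i : ℕ) : ℤ) : ℝ) = -(cn hm hl hs i).sgn (((i : ℕ) : ℤ) : ℝ) := by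
        push_cast
        exact h1
      rw [h3]
      show (-1 : ℝ) = _
      linarith
    · rw [if_neg hk]
      have h1 := pair_sgn hm hl hs hk
      have h3 : (cp hm hl hs i).sgn (((k : ℕ) : ℤ) : ℝ) = (cn hm hl hs i).sgn (((k : ℕ) : ℤ) : ℝ) := by
        push_cast
        exact h1
      show (cp hm hl hs i).sgn (((i : ℕ) : ℤ) : ℝ) * (cp hm hl hs i).sgn (((k : ℕ) : ℤ) : ℝ) = _
      rw [h3]

theorem gamma_GG (hm : 0 < m) (hl : GenFam m l) (hs : Small m l e0) (i j : Fin m) (a b : Bool) :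
    cos (π / 2 * GG (gamma_mu m h) (fun i k : Fin m => (cp hm hl hs i).sgn ((i : ℕ) : ℤ) * (cp hm hl hs i).sgn ((k : ℕ) : ℤ))
      i (gamma_e a) j (gamma_e b)) = cos (π / 2 * Gc h (gamma_c hm hl hs (i, a)) (gamma_c hm hl hs (j, b))) := by
  have h1 : GG (gamma_mu m h) (fun i k : Fin m => (cp hm hl hs i).sgn ((i : ℕ) : ℤ) * (cp hm hl hs i).sgn ((k : ℕ) : ℤ))
      i (gamma_e a) j (gamma_e b) = ((cp hm hl hs i).sgn ((i : ℕ) : ℤ) * (cp hm hl hs j).sgn ((j : ℕ) : ℤ)) *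
        Gc h (gamma_c hm hl hs (i, a)) (gamma_c hm hl hs (j, b)) := by
    unfold GG
    rw [gamma_Gc, Finset.mul_sum]
    refine Finset.sum_congr rfl fun k _ => ?_
    rw [gamma_Sg, gamma_Sg]
    ring
  rw [h1]
  rcases (cp hm hl hs i).sgn_pm (((i : ℕ) : ℤ) : ℝ) with h2 | h2 <;>
    rcases (cp hm hl hs j).sgn_pm (((j : ℕ) : ℤ) : ℝ) with h3 | h3
  · rw [h2, h3]
    congr 1
    ring
  · rw [h2, h3, ← cos_neg]
    congr 1
    ring
  · rw [h2, h3, ← cos_neg]
    congr 1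
    ring
  · rw [h2, h3]
    congr 1
    ring

theorem gamma_Gc_self (hh : IsHalf m h) (c : CS m) : Gc h c c = 1 := by
  rw [gamma_Gc, ← (gamma_wt hh).sum]
  refine Finset.sum_congr rfl fun k _ => ?_
  rw [gamma_sgsq, mul_one]

theorem gamma_Gc_pair (hh : IsHalf m h) (hm : 0 < m) (hl : GenFam m l) (hs : Small m l e0) (i : Fin m) :
    Gc h (cp hm hl hs i) (cn hm hl hs i) = 1 - 2 * gamma_mu m h i := by
  have h1 : ∀ k : Fin m, gamma_mu m h k * ((cp hm hl hs i).sgn ((k : ℕ) : ℤ) * (cn hm hl hs i).sgn ((k : ℕ) : ℤ)) =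
      gamma_mu m h k + (if k = i then -2 * gamma_mu m h i else 0) := by
    intro k
    by_cases hk : k = i
    · rw [if_pos hk, hk]
      have h3 : (cp hm hl hs i).sgn (((i : ℕ) : ℤ) : ℝ) = -(cn hm hl hs i).sgn (((i : ℕ) : ℤ) : ℝ) := by
        push_cast
        exact pair_sgn' hm hl hs i
      have h4 := gamma_sgsq (cn hm hl hs i) (((i : ℕ) : ℤ) : ℝ)
      rw [h3, neg_mul, h4]
      ring
    · rw [if_neg hk]
      have h3 : (cp hm hl hs i).sgn (((k : ℕ) : ℤ) : ℝ) = (cn hm hl hs i).sgn (((k : ℕ) : ℤ) : ℝ) := by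
        push_cast
        exact pair_sgn hm hl hs hk
      rw [h3, gamma_sgsq]
      ring
  rw [gamma_Gc, Finset.sum_congr rfl fun k _ => h1 k, Finset.sum_add_distrib, (gamma_wt hh).sum,
    Finset.sum_ite_eq', if_pos (Finset.mem_univ _)]
  ring

theorem gamma_simple (hm : 0 < m) (hl : GenFam m l) (hs : Small m l e0)
    (hx : ∀ (i : Fin m) (s t : ℕ), s ≤ (l i).length → t ≤ (l i).length → s ≠ t → xs m l i i s t = 1) (p : Fin m × Bool) :
    (gamma_c hm hl hs p).Simple :=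
  mk_simple hm hl hs p.1 _ _ (hx p.1)

theorem gamma_gram (hh : IsHalf m h) (hm : 0 < m) (hl : GenFam m l) (hs : Small m l e0)
    (hx : ∀ (i : Fin m) (s t : ℕ), s ≤ (l i).length → t ≤ (l i).length → s ≠ t → xs m l i i s t = 1)
    (hu : ∀ i j : Fin m, i ≠ j → ∃ s t, s ≤ (l i).length ∧ t ≤ (l j).length ∧ xs m l i j s t = -1 ∧
        ∀ s' t', s' ≤ (l i).length → t' ≤ (l j).length → (s', t') ≠ (s, t) → xs m l i j s' t' = 1)
    {p q : Fin m × Bool} (hpq : p.1 ≠ q.1) :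
    |AA m ((gamma_c hm hl hs p).nV h) ((gamma_c hm hl hs q).nV h)| =
      1 / 2 * cos (π / 2 * Gc h (gamma_c hm hl hs p) (gamma_c hm hl hs q)) := by
  obtain ⟨s, t, h1, h2, h3, h4⟩ := hu p.1 q.1 hpq
  exact gram hh _ _ (gamma_simple hm hl hs hx p) (gamma_simple hm hl hs hx q) (mk_gen hm hl hs hpq _ _ _ _) s t
    (mk_once hm hl hs hpq _ _ _ _ h1 h2 h3 h4)

/-- The Gram matrix with the signs. -/
theorem gamma_gram' (hh : IsHalf m h) (hm : 0 < m) (hl : GenFam m l) (hs : Small m l e0)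
    (hx : ∀ (i : Fin m) (s t : ℕ), s ≤ (l i).length → t ≤ (l i).length → s ≠ t → xs m l i i s t = 1)
    (hu : ∀ i j : Fin m, i ≠ j → ∃ s t, s ≤ (l i).length ∧ t ≤ (l j).length ∧ xs m l i j s t = -1 ∧
        ∀ s' t', s' ≤ (l i).length → t' ≤ (l j).length → (s', t') ≠ (s, t) → xs m l i j s' t' = 1)
    {M : ℤ → ℂ} (hM : InV m h M) (hA : 0 < AA m M M) {sg : Fin m → ℝ} (hsg : ∀ i, sg i = 1 ∨ sg i = -1)
    (hsp : ∀ p : Fin m × Bool, 0 ≤ sg p.1 * AA m M ((gamma_c hm hl hs p).nV h)) (p q : Fin m × Bool) :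
    sg p.1 * sg q.1 * AA m ((gamma_c hm hl hs p).nV h) ((gamma_c hm hl hs q).nV h) =
      1 / 2 * cos (π / 2 * Gc h (gamma_c hm hl hs p) (gamma_c hm hl hs q)) := by
  have hsq : ∀ i, sg i * sg i = 1 := fun i => by rcases hsg i with h | h <;> rw [h] <;> norm_num
  by_cases hpq : p.1 = q.1
  · by_cases h2 : p.2 = q.2
    · have h3 : p = q := Prod.ext hpq h2
      subst h3
      rw [null hh _ (gamma_simple hm hl hs hx p), gamma_Gc_self hh, mul_one, cos_pi_div_two]
      ring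
    · obtain ⟨i, a⟩ := p
      obtain ⟨j, b⟩ := q
      have hij : i = j := hpq
      subst hij
      have h5 : 1 / 2 * sin (h (i : ℕ) - h ((i : ℕ) - 1)) = 1 / 2 * cos (π / 2 * (1 - 2 * gamma_mu m h i)) := by
        congr 1
        rw [← cos_pi_div_two_sub]
        congr 1
        unfold gamma_mu
        have := Real.pi_pos.ne'
        field_simp
      have h6 := pair_AA hh hm hl hs i (hx i)
      have h7 := gamma_Gc_pair hh hm hl hs i
      cases a with
      | true =>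
        cases b with
        | true => exact absurd rfl h2
        | false =>
          rw [hsq, one_mul, gamma_c_t, gamma_c_f, h6, h7, h5]
      | false =>
        cases b with
        | false => exact absurd rfl h2
        | true =>
          have h8 : Gc h (cn hm hl hs i) (cp hm hl hs i) = Gc h (cp hm hl hs i) (cn hm hl hs i) := by
            rw [gamma_Gc, gamma_Gc]
            exact Finset.sum_congr rfl fun k _ => by ring
          rw [hsq, one_mul, gamma_c_t, gamma_c_f, AA_symm, h6, h8, h7, h5]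
  · have h3 := gamma_gram hh hm hl hs hx hu hpq
    rw [← h3]
    have hVp := nV_inV hh (gamma_c hm hl hs p)
    have hVq := nV_inV hh (gamma_c hm hl hs q)
    have hNp := null hh _ (gamma_simple hm hl hs hx p)
    have hNq := null hh _ (gamma_simple hm hl hs hx q)
    have h4 : |sg p.1 * sg q.1 * AA m ((gamma_c hm hl hs p).nV h) ((gamma_c hm hl hs q).nV h)| =
        |AA m ((gamma_c hm hl hs p).nV h) ((gamma_c hm hl hs q).nV h)| := by
      rw [abs_mul, abs_mul]
      rcases hsg p.1 with h | h <;> rcases hsg q.1 with h' | h' <;> rw [h, h'] <;> norm_num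
    rw [← h4]
    refine (abs_of_nonneg ?_).symm
    by_cases hp0 : AA m M ((gamma_c hm hl hs p).nV h) = 0
    · rw [lorentz_zero hh hM hVp hVq hA hNp hNq hp0, mul_zero]
    by_cases hq0 : AA m M ((gamma_c hm hl hs q).nV h) = 0
    · rw [AA_symm, lorentz_zero hh hM hVq hVp hA hNq hNp hq0, mul_zero]
    have hp1 : 0 < sg p.1 * AA m M ((gamma_c hm hl hs p).nV h) := by
      refine lt_of_le_of_ne (hsp p) (Ne.symm (mul_ne_zero ?_ hp0))
      rcases hsg p.1 with h | h <;> rw [h] <;> norm_num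
    have hq1 : 0 < sg q.1 * AA m M ((gamma_c hm hl hs q).nV h) := by
      refine lt_of_le_of_ne (hsp q) (Ne.symm (mul_ne_zero ?_ hq0))
      rcases hsg q.1 with h | h <;> rw [h] <;> norm_num
    have h5 := lorentz_null hh hM hVp hVq hA hNp hNq
    have h6 : (sg p.1 * AA m M ((gamma_c hm hl hs p).nV h)) * (sg q.1 * AA m M ((gamma_c hm hl hs q).nV h)) *
        (sg p.1 * sg q.1 * AA m ((gamma_c hm hl hs p).nV h) ((gamma_c hm hl hs q).nV h)) =
        AA m M ((gamma_c hm hl hs p).nV h) * AA m M ((gamma_c hm hl hs q).nV h) *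
          AA m ((gamma_c hm hl hs p).nV h) ((gamma_c hm hl hs q).nV h) := by
      calc _ = (sg p.1 * sg p.1) * (sg q.1 * sg q.1) * (AA m M ((gamma_c hm hl hs p).nV h) * AA m M ((gamma_c hm hl hs q).nV h) *
          AA m ((gamma_c hm hl hs p).nV h) ((gamma_c hm hl hs q).nV h)) := by ring
        _ = _ := by rw [hsq, hsq]; ring
    rw [← h6] at h5
    exact nonneg_of_mul_nonneg_right h5 (mul_pos hp1 hq1)

/-- The signs exist. -/
theorem gamma_signs (hh : IsHalf m h) (hm : 0 < m) (hl : GenFam m l) (hs : Small m l e0)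
    (hx : ∀ (i : Fin m) (s t : ℕ), s ≤ (l i).length → t ≤ (l i).length → s ≠ t → xs m l i i s t = 1)
    {M : ℝ → ℂ} (hM : Glued m h M) (hA : 0 < AA m (fun k => M k) (fun k => M k)) {d : ℝ → ℝ → ℝ}
    (hd : ∀ x y, ‖M x - M y‖ ≤ d x y) (i : Fin m) :
    ∃ s : ℝ, (s = 1 ∨ s = -1) ∧ ∀ b : Bool, 0 ≤ s * AA m (fun k => M k) ((gamma_c hm hl hs (i, b)).nV h) := by
  have h1 : 0 ≤ AA m (fun k => M k) ((cp hm hl hs i).nV h) * AA m (fun k => M k) ((cn hm hl hs i).nV h) := by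
    have h2 := hh.mono (i : ℕ)
    rcases h2.lt_or_eq with h3 | h3
    · have h4 : 0 < sin (h (i : ℕ) - h ((i : ℕ) - 1)) :=
        sin_pos_of_pos_of_lt_pi (sub_pos.2 h3) (hh.lt _)
      have h5 := pair_AA hh hm hl hs i (hx i)
      have h6 := lorentz_null hh (Glued.inV hh hM) (nV_inV hh (cp hm hl hs i)) (nV_inV hh (cn hm hl hs i)) hA
        (null hh _ (by rw [← gamma_c_t]; exact gamma_simple hm hl hs hx _))
        (null hh _ (by rw [← gamma_c_f]; exact gamma_simple hm hl hs hx _))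
      rw [h5] at h6
      exact nonneg_of_mul_nonneg_left h6 (by linarith)
    · have h4 := pair_len hh hm hl hs i hM hd 1 (-1)
      have h5 : h (i : ℕ) - h ((i : ℕ) - 1) = 0 := by rw [h3, sub_self]
      rw [h5] at h4
      have h6 : ‖((1 : ℝ) : ℂ) * Complex.exp (((0 / 2 : ℝ) : ℂ) * Complex.I) +
          ((-1 : ℝ) : ℂ) * Complex.exp (-((0 / 2 : ℝ) : ℂ) * Complex.I)‖ = 0 := by
        simp
      rw [h6, mul_zero, zero_mul] at h4
      have h7 := abs_nonpos_iff.1 h4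
      have h8 : AA m (fun k => M k) ((cp hm hl hs i).nV h) = AA m (fun k => M k) ((cn hm hl hs i).nV h) := by linarith
      rw [h8]
      exact mul_self_nonneg _
  obtain ⟨s, hs1, hs2, hs3⟩ := gamma_sign h1
  refine ⟨s, hs1, fun b => ?_⟩
  cases b with
  | true => rw [gamma_c_t]; exact hs2
  | false => rw [gamma_c_f]; exact hs3

theorem gamma_num {A X P Q E : ℝ} (hA : 0 < A) (hX : 0 < X) (h1 : A * P ≤ Q ^ 2) (h2 : 1 / π * X ^ 2 ≤ P)
    (h3 : |Q| ≤ 1 / 2 * X * E) : A ≤ π / 4 * E ^ 2 := by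
  have hpi := Real.pi_pos
  have h4 : Q ^ 2 ≤ (1 / 2 * X * E) ^ 2 := by
    rw [← sq_abs Q]
    exact pow_le_pow_left₀ (abs_nonneg _) h3 2
  have h5 : A * (1 / π * X ^ 2) ≤ A * P := mul_le_mul_of_nonneg_left h2 hA.le
  have h6 : A * (1 / π * X ^ 2) ≤ (1 / 2 * X * E) ^ 2 := (h5.trans h1).trans h4
  have h7 : A * (1 / π * X ^ 2) = A / π * X ^ 2 := by ring
  have h8 : (1 / 2 * X * E) ^ 2 = E ^ 2 / 4 * X ^ 2 := by ring
  rw [h7, h8] at h6
  have h9 := le_of_mul_le_mul_right h6 (by positivity)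
  rw [div_le_iff₀ hpi] at h9
  linarith

end

theorem gamma_eps {m : ℕ} {h : ℤ → ℝ} (hh : IsHalf m h) {M : ℝ → ℂ} (hM : Glued m h M) {d : ℝ → ℝ → ℝ}
    (hd : IsMonge m d) (hMd : ∀ x y, ‖M x - M y‖ ≤ d x y) (L : ℝ)
    (hL : ∀ i : Fin m, ∀ ε : ℝ, 0 < ε → ∃ l : List ℝ, Even l.length ∧ len d (chs m (i : ℕ) l ((i : ℕ) + m)) ≤ L + ε)
    (hA : 0 < AA m (fun k => M k) (fun k => M k)) {ε : ℝ} (hε : 0 < ε) :
    AA m (fun k => M k) (fun k => M k) ≤ π / 4 * (L + ε) ^ 2 := by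
  have hpi := Real.pi_pos
  have hm : 0 < m := by
    have := hh.two_le
    omega
  obtain ⟨l, hl, hlen, hx, hu⟩ := uncross hm hd L hL hε
  obtain ⟨e0, hs⟩ := exists_small hm hl
  choose sg hsg hsp using gamma_signs hh hm hl hs hx hM hA hMd
  have hS : ∀ i j : Fin m, i ≠ j →
      (fun i k : Fin m => (cp hm hl hs i).sgn ((i : ℕ) : ℤ) * (cp hm hl hs i).sgn ((k : ℕ) : ℤ)) i j = 1 ∨
      (fun i k : Fin m => (cp hm hl hs i).sgn ((i : ℕ) : ℤ) * (cp hm hl hs i).sgn ((k : ℕ) : ℤ)) i j = -1 := by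
    intro i j _
    rcases (cp hm hl hs i).sgn_pm (((i : ℕ) : ℤ) : ℝ) with h2 | h2 <;>
      rcases (cp hm hl hs i).sgn_pm (((j : ℕ) : ℤ) : ℝ) with h3 | h3 <;> simp only [h2, h3] <;> norm_num
  obtain ⟨y, z, hX, hyz⟩ := matrix_inequality (gamma_wt hh) (gamma_wt1 hh) hS
  obtain ⟨X, hXe⟩ : ∃ X : ℝ, X = ∑ i, ‖xx (gamma_mu m h) y z i‖ := ⟨_, rfl⟩
  rw [← hXe] at hX hyz
  obtain ⟨w, hw⟩ : ∃ w : Fin m × Bool → ℝ, w = fun p => if p.2 then y p.1 else z p.1 := ⟨_, rfl⟩
  obtain ⟨V, hV⟩ : ∃ V : Fin m × Bool → ℤ → ℂ, V = fun p => (gamma_c hm hl hs p).nV h := ⟨_, rfl⟩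
  obtain ⟨N, hN⟩ : ∃ N : ℤ → ℂ, N = fun k => ∑ p : Fin m × Bool, ((sg p.1 * w p : ℝ) : ℂ) * V p k := ⟨_, rfl⟩
  have hVin : ∀ p, InV m h (V p) := fun p => by rw [hV]; exact nV_inV hh _
  have hNin : InV m h N := by
    rw [hN]
    exact InV_sum _ _ _ fun p _ => hVin p
  have hgram : ∀ p q : Fin m × Bool, sg p.1 * sg q.1 * AA m (V p) (V q) =
      1 / 2 * cos (π / 2 * Gc h (gamma_c hm hl hs p) (gamma_c hm hl hs q)) := by
    intro p q
    rw [hV]
    exact gamma_gram' hh hm hl hs hx hu (Glued.inV hh hM) hA hsg (fun p => hsp p.1 p.2) p q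
  -- the norm of N
  have hNN : AA m N N = 1 / 2 * ∑ p : Fin m × Bool, ∑ q : Fin m × Bool, w p * w q *
      cos (π / 2 * Gc h (gamma_c hm hl hs p) (gamma_c hm hl hs q)) := by
    have e1 : AA m N N = ∑ p : Fin m × Bool, (sg p.1 * w p) * AA m N (V p) := by
      conv_lhs => rw [show AA m N N = AA m N (fun k => ∑ p : Fin m × Bool, ((sg p.1 * w p : ℝ) : ℂ) * V p k) from by rw [← hN]]
      exact AA_sum _ _ _ _
    have e2 : ∀ q, AA m N (V q) = ∑ p : Fin m × Bool, (sg p.1 * w p) * AA m (V q) (V p) := by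
      intro q
      rw [AA_symm, hN]
      exact AA_sum _ _ _ _
    rw [e1, Finset.mul_sum]
    refine Finset.sum_congr rfl fun p _ => ?_
    rw [e2, Finset.mul_sum, Finset.mul_sum]
    refine Finset.sum_congr rfl fun q _ => ?_
    have e3 := hgram p q
    calc sg p.1 * w p * (sg q.1 * w q * AA m (V p) (V q)) = w p * w q * (sg p.1 * sg q.1 * AA m (V p) (V q)) := by ring
      _ = w p * w q * (1 / 2 * cos (π / 2 * Gc h (gamma_c hm hl hs p) (gamma_c hm hl hs q))) := by rw [e3]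
      _ = _ := by ring
  have hNN2 : 1 / π * X ^ 2 ≤ AA m N N := by
    have e1 : ∑ p : Fin m × Bool, ∑ q : Fin m × Bool, w p * w q *
        cos (π / 2 * Gc h (gamma_c hm hl hs p) (gamma_c hm hl hs q)) =
        ∑ i, ∑ j, (y i * y j * cos (π / 2 * GG (gamma_mu m h) (fun i k : Fin m => (cp hm hl hs i).sgn ((i : ℕ) : ℤ) * (cp hm hl hs i).sgn ((k : ℕ) : ℤ)) i 1 j 1) +
          y i * z j * cos (π / 2 * GG (gamma_mu m h) (fun i k : Fin m => (cp hm hl hs i).sgn ((i : ℕ) : ℤ) * (cp hm hl hs i).sgn ((k : ℕ) : ℤ)) i 1 j (-1)) +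
          z i * y j * cos (π / 2 * GG (gamma_mu m h) (fun i k : Fin m => (cp hm hl hs i).sgn ((i : ℕ) : ℤ) * (cp hm hl hs i).sgn ((k : ℕ) : ℤ)) i (-1) j 1) +
          z i * z j * cos (π / 2 * GG (gamma_mu m h) (fun i k : Fin m => (cp hm hl hs i).sgn ((i : ℕ) : ℤ) * (cp hm hl hs i).sgn ((k : ℕ) : ℤ)) i (-1) j (-1))) := by
      rw [Fintype.sum_prod_type]
      refine Finset.sum_congr rfl fun i _ => ?_
      rw [Fintype.sum_bool, Fintype.sum_prod_type, Fintype.sum_prod_type, ← Finset.sum_add_distrib]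
      refine Finset.sum_congr rfl fun j _ => ?_
      rw [Fintype.sum_bool, Fintype.sum_bool]
      have g1 := gamma_GG (h := h) hm hl hs i j true true
      have g2 := gamma_GG (h := h) hm hl hs i j true false
      have g3 := gamma_GG (h := h) hm hl hs i j false true
      have g4 := gamma_GG (h := h) hm hl hs i j false false
      have t1 : gamma_e true = 1 := rfl
      have t2 : gamma_e false = -1 := rfl
      rw [t1] at g1
      rw [t1, t2] at g2
      rw [t1, t2] at g3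
      rw [t2] at g4
      rw [← g1, ← g2, ← g3, ← g4, hw]
      simp only [if_true, Bool.false_eq_true, if_false]
      ring
    rw [hNN, e1]
    have e2 : 1 / π * X ^ 2 = 1 / 2 * (2 / π * X ^ 2) := by ring
    rw [e2]
    exact mul_le_mul_of_nonneg_left hyz (by norm_num)
  -- the pairing with M
  have hMN : |AA m (fun k => M k) N| ≤ 1 / 2 * X * (L + ε) := by
    have e1 : AA m (fun k => M k) N = ∑ i, sg i * (y i * AA m (fun k => M k) ((cp hm hl hs i).nV h) +
        z i * AA m (fun k => M k) ((cn hm hl hs i).nV h)) := by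
      have e2 : AA m (fun k => M k) N = ∑ p : Fin m × Bool, (sg p.1 * w p) * AA m (fun k => M k) (V p) := by
        rw [hN]
        exact AA_sum _ _ _ _
      rw [e2, Fintype.sum_prod_type]
      refine Finset.sum_congr rfl fun i _ => ?_
      rw [Fintype.sum_bool, hV]
      simp only [gamma_c_t, gamma_c_f, hw, if_true, Bool.false_eq_true, if_false]
      ring
    rw [e1]
    refine (Finset.abs_sum_le_sum_abs _ _).trans ?_
    have e3 : ∀ i : Fin m, |sg i * (y i * AA m (fun k => M k) ((cp hm hl hs i).nV h) +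
        z i * AA m (fun k => M k) ((cn hm hl hs i).nV h))| ≤ 1 / 2 * ‖xx (gamma_mu m h) y z i‖ * (L + ε) := by
      intro i
      rw [abs_mul]
      have e4 : |sg i| = 1 := by
        rcases hsg i with h | h <;> rw [h] <;> norm_num
      rw [e4, one_mul]
      refine (pair_len hh hm hl hs i hM hMd (y i) (z i)).trans ?_
      have e5 : ‖(y i : ℂ) * Complex.exp (((h (i : ℕ) - h ((i : ℕ) - 1)) / 2 : ℝ) * Complex.I) +
          z i * Complex.exp (-((h (i : ℕ) - h ((i : ℕ) - 1)) / 2 : ℝ) * Complex.I)‖ = ‖xx (gamma_mu m h) y z i‖ := by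
        have e6 : π / 2 * gamma_mu m h i = (h (i : ℕ) - h ((i : ℕ) - 1)) / 2 := by
          unfold gamma_mu
          field_simp
        unfold xx
        rw [e6]
      rw [e5]
      exact mul_le_mul_of_nonneg_left (hlen i) (by positivity)
    refine (Finset.sum_le_sum fun i _ => e3 i).trans (le_of_eq ?_)
    rw [← Finset.sum_mul, ← Finset.mul_sum, ← hXe]
  exact gamma_num hA hX (lorentz hh (Glued.inV hh hM) hNin hA.le) hNN2 hMN

/-- The Gamma-theorem. `M` is the developed boundary of the disc, `d` its inner distance. -/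
theorem gamma_thm {m : ℕ} {h : ℤ → ℝ} (hh : IsHalf m h) {M : ℝ → ℂ} (hM : Glued m h M) {d : ℝ → ℝ → ℝ}
    (hd : IsMonge m d) (hMd : ∀ x y, ‖M x - M y‖ ≤ d x y) (L : ℝ)
    (hL : ∀ i : Fin m, ∀ ε : ℝ, 0 < ε → ∃ l : List ℝ, Even l.length ∧ len d (chs m (i : ℕ) l ((i : ℕ) + m)) ≤ L + ε) :
    AA m (fun k => M k) (fun k => M k) ≤ π / 4 * L ^ 2 := by
  by_cases hA : AA m (fun k => M k) (fun k => M k) ≤ 0
  · exact hA.trans (by positivity)
  push Not at hA
  have h1 : ∀ ε : ℝ, 0 < ε → AA m (fun k => M k) (fun k => M k) ≤ π / 4 * (L + ε) ^ 2 := fun ε hε =>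
    gamma_eps hh hM hd hMd L hL hA hε
  have h2 : Filter.Tendsto (fun ε : ℝ => π / 4 * (L + ε) ^ 2) (nhdsWithin 0 (Set.Ioi 0)) (nhds (π / 4 * (L + 0) ^ 2)) := by
    refine Filter.Tendsto.mono_left ?_ nhdsWithin_le_nhds
    exact (continuous_const.mul ((continuous_const.add continuous_id).pow 2)).tendsto 0
  rw [add_zero] at h2
  refine ge_of_tendsto h2 ?_
  filter_upwards [self_mem_nhdsWithin] with ε hε
  exact h1 ε hε

end H47A
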