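import Pool.Agent.Lib.H47A.EAr8
import Pool.Agent.Lib.H47A.EHolG
import Pool.Agent.Lib.H47A.EMonge2
import Pool.Agent.Lib.H47A.ELoop
import Pool.Agent.Lib.H47A.GammaThm

/-! # H47A, chunk EPOLY0 (S/M): the theorem for polytopes with a fan
If the supremum is infinite nothing to prove (pi/2 > 0). Otherwise it is ofReal L, L >= 0, and pl (bd n) (γ i) (-γ i) <= ofReal L for all i (G i = γ i in bd). `gamma_thm` with h from `exists_h`,
`dU_monge`, `MM_dU`, `loops`: AA <= (pi/4) L^2; `area_total`. -/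

open Real MeasureTheory

namespace H47A

variable {A : Type} [Fintype A] [DecidableEq A] {n : A → E3} {fr : A → E3} {f1 f2 e : E3} {m : ℕ}

theorem poly_fan (hG : Gnr n) (hf : Frm n fr) (hA : Axis f1 f2 e) (he : Gen n e) (F : Fan n f1 f2 m) :
    ENNReal.ofReal (π / 4) * Measure.hausdorffMeasure 2 (bd n) ≤
      ENNReal.ofReal (π / 2) * (⨆ x ∈ bd n, pl (bd n) x (-x)) ^ 2 := by
  obtain ⟨α₀, h0⟩ := exists_pole hG he
  by_cases htop : (⨆ x ∈ bd n, pl (bd n) x (-x)) = ⊤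
  · have h1 : ENNReal.ofReal (π / 2) * (⨆ x ∈ bd n, pl (bd n) x (-x)) ^ 2 = ⊤ := by
      rw [htop, ENNReal.top_pow (by norm_num), ENNReal.mul_top]
      simp [Real.pi_pos]
    rw [h1]
    exact le_top
  · set L : ℝ := (⨆ x ∈ bd n, pl (bd n) x (-x)).toReal with hLdef
    have hL : ENNReal.ofReal L = ⨆ x ∈ bd n, pl (bd n) x (-x) := ENNReal.ofReal_toReal htop
    have hL0 : 0 ≤ L := ENNReal.toReal_nonneg
    obtain ⟨h, hh, hgl⟩ := exists_h hG hf hA he h0 F
    have hγ := gamma_thm hh hgl (dU_monge hG hA F) (MM_dU hG hf hA he h0 F) L (by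
      intro i ε hε
      exact loops hG hA F hL0 ((i : ℕ) : ℝ) (by
        rw [hL]
        exact le_iSup₂ (f := fun x (_ : x ∈ bd n) => pl (bd n) x (-x)) (F.G ((i : ℕ) : ℝ))
          (F.G_gg hG ((i : ℕ) : ℝ))) hε)
    refine (area_total hG hf hA he h0 F).trans ?_
    rw [← hL, ← ENNReal.ofReal_pow hL0, ← ENNReal.ofReal_mul (by positivity)]
    apply ENNReal.ofReal_le_ofReal
    linarith

end H47A
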