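import Pool.Agent.Lib.H47A.EX6
import Pool.Agent.Lib.H47A.EPoly0

/-! # H47A, chunk EPOLY (S): the theorem for generic symmetric polytopes
fr a: a unit vector orthogonal to n a (exists for every vector in dimension 3). `exists_pole_gen`, `exists_nod`, `fan_of_nod`, `poly_fan`. -/

open Real MeasureTheory

namespace H47A

variable {A : Type} [Fintype A] [DecidableEq A] {n : A → E3}

theorem epoly_perp (u : E3) : ∃ v : E3, ‖v‖ = 1 ∧ inner ℝ v u = 0 := by
  by_cases h : u 0 = 0 ∧ u 1 = 0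
  · refine ⟨EuclideanSpace.single 0 1, by simp, ?_⟩
    rw [inner3]
    simp [h.1]
  · have hne : cross3 u (EuclideanSpace.single 2 1) ≠ 0 := by
      intro h0
      apply h
      have h1 := congrArg (fun w : E3 => w 0) h0
      have h2 := congrArg (fun w : E3 => w 1) h0
      simp [cross3] at h1 h2
      exact ⟨h2, h1⟩
    refine ⟨(‖cross3 u (EuclideanSpace.single 2 1)‖)⁻¹ • cross3 u (EuclideanSpace.single 2 1), ?_, ?_⟩
    · rw [norm_smul, norm_inv, norm_norm]
      exact inv_mul_cancel₀ (norm_ne_zero_iff.2 hne)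
    · rw [inner_smul_left, cross3_self_left]
      simp

theorem exists_frm (n : A → E3) : ∃ fr : A → E3, Frm n fr := by
  choose fr h1 h2 using fun a => epoly_perp (n a)
  exact ⟨fr, h1, h2⟩

theorem poly_main (hG : Gnr n) :
    ENNReal.ofReal (π / 4) * Measure.hausdorffMeasure 2 (bd n) ≤
      ENNReal.ofReal (π / 2) * (⨆ x ∈ bd n, pl (bd n) x (-x)) ^ 2 := by
  obtain ⟨f1, f2, e, hA, he, hv⟩ := exists_pole_gen hG
  obtain ⟨M, u, χ, hN⟩ := exists_nod hG hA hv
  obtain ⟨m, ⟨F⟩⟩ := fan_of_nod hG hN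
  obtain ⟨fr, hf⟩ := exists_frm n
  exact poly_fan hG hf hA he F

end H47A
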