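import Pool.Agent.Lib.H17S.Br3

/-! # H47A, chunk ETOP1 (M): crossing paths in a square
Two paths in the square [-1,1]^2, one from the left side to the right side, one from the bottom to the top, meet. Classical proof
by the Brouwer fixed point theorem, here `H17S.brouwer_bdd` on the complex plane (a real inner product space): suppose p s != q t for all
s, t in [-1,1]. With p = (x,y), q = (x',y'), N(s,t) = max(|x(s) - x'(t)|, |y(s) - y'(t)|) > 0 put
F(s + i t) = (x'(t) - x(s))/N + i (y(s) - y'(t))/N, s and t first projected to [-1,1]. F is continuous on the whole plane, its values are on the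
boundary of the square (max of the absolute values of real and imaginary part is 1), bounded. Fixed point s0 + i t0: in the square, so no
projection, and on its boundary. If s0 = 1: x(1) = 1 >= x'(t0), so the real part of F is <= 0, not 1. If s0 = -1: x(-1) = -1 <=
x'(t0): real part >= 0, not -1. If t0 = 1: y'(1) = 1 >= y(s0): imaginary part <= 0, not 1. If t0 = -1: imaginary part >= 0, not -1. -/

open Real Filter Topology

namespace H47A

theorem cross_square {p q : ℝ → ℝ × ℝ} (hp : Continuous p) (hq : Continuous q)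
    (hp1 : ∀ t ∈ Set.Icc (-1 : ℝ) 1, |(p t).1| ≤ 1 ∧ |(p t).2| ≤ 1)
    (hq1 : ∀ t ∈ Set.Icc (-1 : ℝ) 1, |(q t).1| ≤ 1 ∧ |(q t).2| ≤ 1) (hpl : (p (-1)).1 = -1) (hpr : (p 1).1 = 1)
    (hqb : (q (-1)).2 = -1) (hqt : (q 1).2 = 1) :
    ∃ s ∈ Set.Icc (-1 : ℝ) 1, ∃ t ∈ Set.Icc (-1 : ℝ) 1, p s = q t := by
  classical
  by_contra hcon
  push Not at hcon
  obtain ⟨pr, hprD⟩ : ∃ pr : ℝ → ℝ, pr = fun x => max (-1) (min 1 x) := ⟨_, rfl⟩
  have hprc : Continuous pr := by rw [hprD]; fun_prop
  have hprI : ∀ x, pr x ∈ Set.Icc (-1 : ℝ) 1 := by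
    intro x
    rw [hprD]
    exact ⟨le_max_left _ _, max_le (by norm_num) (min_le_left _ _)⟩
  have hprid : ∀ x, |x| ≤ 1 → pr x = x := by
    intro x hx
    rw [hprD]
    rw [abs_le] at hx
    show max (-1) (min 1 x) = x
    rw [min_eq_right hx.2, max_eq_right hx.1]
  obtain ⟨N, hN⟩ : ∃ N : ℂ → ℝ, N = fun z => max |(p (pr z.re)).1 - (q (pr z.im)).1|
    |(p (pr z.re)).2 - (q (pr z.im)).2| := ⟨_, rfl⟩
  have hpc : Continuous fun z : ℂ => p (pr z.re) := hp.comp (hprc.comp Complex.continuous_re)
  have hqc : Continuous fun z : ℂ => q (pr z.im) := hq.comp (hprc.comp Complex.continuous_im)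
  have hNc : Continuous N := by
    rw [hN]
    exact (((continuous_fst.comp hpc).sub (continuous_fst.comp hqc)).abs).max
      (((continuous_snd.comp hpc).sub (continuous_snd.comp hqc)).abs)
  have hNpos : ∀ z, 0 < N z := by
    intro z
    have h1 := hcon (pr z.re) (hprI _) (pr z.im) (hprI _)
    rw [hN]
    show 0 < max _ _
    by_contra h2
    rw [not_lt, max_le_iff] at h2
    apply h1
    have e1 := abs_nonpos_iff.1 h2.1
    have e2 := abs_nonpos_iff.1 h2.2
    exact Prod.ext (by linarith) (by linarith)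
  obtain ⟨F, hF⟩ : ∃ F : ℂ → ℂ, F = fun z =>
    ((((q (pr z.im)).1 - (p (pr z.re)).1) / N z : ℝ) : ℂ) +
      ((((p (pr z.re)).2 - (q (pr z.im)).2) / N z : ℝ) : ℂ) * Complex.I := ⟨_, rfl⟩
  have hFc : Continuous F := by
    rw [hF]
    refine Continuous.add ?_ (Continuous.mul ?_ continuous_const)
    · exact Complex.continuous_ofReal.comp
        (((continuous_fst.comp hqc).sub (continuous_fst.comp hpc)).div hNc fun z => (hNpos z).ne')
    · exact Complex.continuous_ofReal.comp
        (((continuous_snd.comp hpc).sub (continuous_snd.comp hqc)).div hNc fun z => (hNpos z).ne')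
  have hre : ∀ z, (F z).re = ((q (pr z.im)).1 - (p (pr z.re)).1) / N z := by
    intro z; rw [hF]; simp
  have him : ∀ z, (F z).im = ((p (pr z.re)).2 - (q (pr z.im)).2) / N z := by
    intro z; rw [hF]; simp
  have hre1 : ∀ z, |(F z).re| ≤ 1 := by
    intro z
    rw [hre, abs_div, abs_of_pos (hNpos z), div_le_one (hNpos z), abs_sub_comm, hN]
    exact le_max_left _ _
  have him1 : ∀ z, |(F z).im| ≤ 1 := by
    intro z
    rw [him, abs_div, abs_of_pos (hNpos z), div_le_one (hNpos z), hN]
    exact le_max_right _ _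
  have hone : ∀ z, |(F z).re| = 1 ∨ |(F z).im| = 1 := by
    intro z
    have h0 := hNpos z
    rw [hre, him, abs_div, abs_div, abs_of_pos h0, div_eq_one_iff_eq h0.ne', div_eq_one_iff_eq h0.ne', abs_sub_comm, hN]
    rcases max_choice |(p (pr z.re)).1 - (q (pr z.im)).1| |(p (pr z.re)).2 - (q (pr z.im)).2| with h | h
    · left; exact h.symm
    · right; exact h.symm
  obtain ⟨z, hz⟩ := H17S.brouwer_bdd F hFc 2 (fun z => by
    calc ‖F z‖ ≤ |(F z).re| + |(F z).im| := Complex.norm_le_abs_re_add_abs_im _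
      _ ≤ 2 := by linarith [hre1 z, him1 z])
  have hzr : |z.re| ≤ 1 := by rw [← hz]; exact hre1 z
  have hzi : |z.im| ≤ 1 := by rw [← hz]; exact him1 z
  have er := hre z
  have ei := him z
  rw [hz, hprid _ hzr, hprid _ hzi] at er ei
  have hpz := hp1 z.re (abs_le.1 hzr)
  have hqz := hq1 z.im (abs_le.1 hzi)
  have hN0 := hNpos z
  rcases hone z with h | h
  · rw [hz] at h
    rcases eq_or_eq_neg_of_abs_eq h with h1 | h1
    · rw [h1, hpr] at er
      have h2 := (abs_le.1 hqz.1).2
      have h3 : ((q z.im).1 - 1) / N z ≤ 0 := div_nonpos_of_nonpos_of_nonneg (by linarith) hN0.le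
      linarith
    · rw [h1, hpl] at er
      have h2 := (abs_le.1 hqz.1).1
      have h3 : 0 ≤ ((q z.im).1 - -1) / N z := div_nonneg (by linarith) hN0.le
      linarith
  · rw [hz] at h
    rcases eq_or_eq_neg_of_abs_eq h with h1 | h1
    · rw [h1, hqt] at ei
      have h2 := (abs_le.1 hpz.2).2
      have h3 : ((p z.re).2 - 1) / N z ≤ 0 := div_nonpos_of_nonpos_of_nonneg (by linarith) hN0.le
      linarith
    · rw [h1, hqb] at ei
      have h2 := (abs_le.1 hpz.2).1
      have h3 : 0 ≤ ((p z.re).2 - -1) / N z := div_nonneg (by linarith) hN0.le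
      linarith

end H47A
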