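import Pool.Agent.Lib.H47A.EAct
import Pool.Agent.Lib.H47F.Gen

/-! # H47A, chunk EX1 (M): generic poles
`avoid_aff`: finitely many affine planes {p | <x_i,p> = c_i}, x_i != 0, do not cover a ball: they are closed with empty interior (or of measure zero: Measure.addHaar_affineSubspace; or induction over the
finite set: a nonempty open set minus a closed set with empty interior is nonempty and open; the plane has empty interior as p + t x_i leaves it).
`exists_axis`: f1 a unit vector orthogonal to e (e.g. normalise a nonzero cross product of e with a coordinate vector), f2 = e x f1: det3 f1 (e x f1) e = <f1 x (e x f1), e> = <e (f1.f1) - f1 (f1.e), e> = 1.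
`exists_pole_gen`: `avoid_aff` with the vectors nn α - nn β (α != β, not 0 by `nn_inj`) and the cross products v x w != 0 of vertices (`vx_finite`), c = 0; then normalise. If det3 e v w = <e, v x w> = 0 then v x w = 0:
v and w are parallel, gg v = gg w = 1: w = v or w = -v. -/

open Real

namespace H47A

variable {A : Type} [Fintype A] [DecidableEq A] {n : A → E3}

theorem avoid_aff (S : Finset (E3 × ℝ)) (hS : ∀ x ∈ S, x.1 ≠ 0) (x0 : E3) {ε : ℝ} (hε : 0 < ε) :
    ∃ p : E3, ‖p - x0‖ < ε ∧ ∀ x ∈ S, (inner ℝ x.1 p : ℝ) ≠ x.2 := by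
  have hd : Dense (⋂ i : {x // x ∈ S}, {x : E3 | inner ℝ i.1.1 x ≠ i.1.2}) :=
    dense_iInter_of_isOpen (fun i => Pool.Agent.H47F.open_ne _ _) (fun i => Pool.Agent.H47F.dense_ne _ _ (hS _ i.2))
  obtain ⟨x, hx, hxb⟩ := hd.inter_open_nonempty (Metric.ball x0 ε) Metric.isOpen_ball ⟨x0, Metric.mem_ball_self hε⟩
  refine ⟨x, by simpa [dist_eq_norm] using hx, fun i hi => ?_⟩
  exact Set.mem_iInter.1 hxb ⟨i, hi⟩

theorem exists_axis {e : E3} (he : ‖e‖ = 1) : ∃ f1 f2 : E3, Axis f1 f2 e := by
  obtain ⟨u, hu0, hu, -⟩ := eact_orth e e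
  have hn : ‖u‖ ≠ 0 := norm_ne_zero_iff.2 hu0
  set f := (‖u‖⁻¹) • u with hf
  have hf1 : ‖f‖ = 1 := by
    rw [hf, norm_smul, norm_inv, norm_norm, inv_mul_cancel₀ hn]
  have hfe : inner ℝ e f = 0 := by
    rw [hf, inner_smul_right, hu, mul_zero]
  have h2 : ‖cross3 e f‖ ^ 2 = 1 := by
    rw [cross3_norm, he, hf1, hfe]; norm_num
  refine ⟨f, cross3 e f, hf1, ?_, he, ?_, ?_, ?_, ?_⟩
  · nlinarith [norm_nonneg (cross3 e f)]
  · rw [real_inner_comm]; exact cross3_self_right e f
  · rw [real_inner_comm]; exact hfe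
  · exact cross3_self_left e f
  · rw [← det3_rot, evec_det, h2]

theorem exists_pole_gen (hG : Gnr n) : ∃ f1 f2 e : E3, Axis f1 f2 e ∧ Gen n e ∧
    ∀ v ∈ Vx n, ∀ w ∈ Vx n, det3 e v w = 0 → w = v ∨ w = -v := by
  classical
  have hfin := vx_finite hG
  let V := hfin.toFinset
  let S1 : Finset (E3 × ℝ) := ((Finset.univ : Finset ((A × Bool) × (A × Bool))).filter fun p => p.1 ≠ p.2).image
    fun p => (nn n p.1 - nn n p.2, 0)
  let S2 : Finset (E3 × ℝ) := ((V ×ˢ V).filter fun p => cross3 p.1 p.2 ≠ 0).image fun p => (cross3 p.1 p.2, 0)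
  obtain ⟨w0, hw0, -, -⟩ := eact_orth 0 0
  obtain ⟨p, -, hp⟩ := avoid_aff (insert (w0, 0) (S1 ∪ S2)) (by
    intro x hx
    rw [Finset.mem_insert, Finset.mem_union] at hx
    rcases hx with rfl | hx | hx
    · exact hw0
    · simp only [S1, Finset.mem_image, Finset.mem_filter, Finset.mem_univ, true_and] at hx
      obtain ⟨q, hq, rfl⟩ := hx
      exact sub_ne_zero.2 (nn_inj hG hq)
    · simp only [S2, Finset.mem_image, Finset.mem_filter] at hx
      obtain ⟨q, hq, rfl⟩ := hx
      exact hq.2) 0 one_pos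
  have hp0 : p ≠ 0 := by
    rintro rfl
    exact hp (w0, 0) (Finset.mem_insert_self _ _) (by simp)
  have hn : ‖p‖ ≠ 0 := norm_ne_zero_iff.2 hp0
  set e := (‖p‖⁻¹) • p with he
  have he1 : ‖e‖ = 1 := by rw [he, norm_smul, norm_inv, norm_norm, inv_mul_cancel₀ hn]
  obtain ⟨f1, f2, hA⟩ := exists_axis he1
  refine ⟨f1, f2, e, hA, ?_, ?_⟩
  · intro α β hne h
    have := hp (nn n α - nn n β, 0) (Finset.mem_insert_of_mem (Finset.mem_union_left _ (by
      simp only [S1, Finset.mem_image, Finset.mem_filter, Finset.mem_univ, true_and]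
      exact ⟨(α, β), hne, rfl⟩)))
    apply this
    simp only [lf, he, inner_smul_right] at h
    have := mul_left_cancel₀ (inv_ne_zero hn) h
    simp only [inner_sub_left]
    linarith
  · intro v hv w hw h
    have hc : cross3 v w = 0 := by
      by_contra hc
      have := hp (cross3 v w, 0) (Finset.mem_insert_of_mem (Finset.mem_union_right _ (by
        simp only [S2, Finset.mem_image, Finset.mem_filter, Finset.mem_product]
        exact ⟨(v, w), ⟨⟨hfin.mem_toFinset.2 hv, hfin.mem_toFinset.2 hw⟩, hc⟩, rfl⟩)))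
      apply this
      rw [det3_rot, det3, he, inner_smul_right] at h
      exact (mul_eq_zero.1 h).resolve_left (inv_ne_zero hn)
    -- v and w parallel
    have hv1 : gg n v = 1 := hv.1
    have hw1 : gg n w = 1 := hw.1
    have hv0 : v ≠ 0 := bd_ne_zero hG hv1
    have hw0 : w ≠ 0 := bd_ne_zero hG hw1
    have hpar : ∃ c : ℝ, w = c • v := by
      have h3 : ‖v‖ ^ 2 • w = (inner ℝ v w : ℝ) • v := by
        have e0 : v 1 * w 2 - v 2 * w 1 = 0 := by
          have := congrFun (congrArg WithLp.ofLp hc) 0; simpa [evec_c0] using this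
        have e1 : v 2 * w 0 - v 0 * w 2 = 0 := by
          have := congrFun (congrArg WithLp.ofLp hc) 1; simpa [evec_c1] using this
        have e2 : v 0 * w 1 - v 1 * w 0 = 0 := by
          have := congrFun (congrArg WithLp.ofLp hc) 2; simpa [evec_c2] using this
        apply evec_ext <;> simp only [PiLp.smul_apply, smul_eq_mul, evec_norm, inner3]
        · linear_combination v 2 * e1 - v 1 * e2
        · linear_combination v 0 * e2 - v 2 * e0
        · linear_combination v 1 * e0 - v 0 * e1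
      have h4 : ‖v‖ ^ 2 ≠ 0 := pow_ne_zero 2 (norm_ne_zero_iff.2 hv0)
      refine ⟨(‖v‖ ^ 2)⁻¹ * inner ℝ v w, ?_⟩
      rw [mul_smul, ← h3, smul_smul, inv_mul_cancel₀ h4, one_smul]
    obtain ⟨c, rfl⟩ := hpar
    rcases le_total 0 c with hc0 | hc0
    · rw [gg_smul hG hc0, hv1, mul_one] at hw1
      left; rw [hw1, one_smul]
    · have h5 : gg n ((-c) • v) = 1 := by rw [neg_smul, gg_neg hG, hw1]
      rw [gg_smul hG (by linarith), hv1, mul_one] at h5
      right
      have : c = -1 := by linarith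
      rw [this, neg_smul, one_smul]

end H47A
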