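import Mathlib

/-! # H47A, chunk EX2 (M): enumeration of a periodic discrete set (pure)
Let M = card S, a : Fin M -> R the increasing enumeration of S (Finset.orderEmbOfFin). ξ k = a (k mod M) + (k / M) T (Int.emod, Int.ediv). ξ k < ξ (k+1): inside a block a is increasing; from the
last element of a block to the first of the next: a last < T <= a 0 + T. (strictMono_int_of_lt_succ.) Range: x = a i + j T. -/

open Real

namespace H47A

theorem enum_per {T : ℝ} (hT : 0 < T) (S : Finset ℝ) (hS : ∀ x ∈ S, 0 ≤ x ∧ x < T) (hne : S.Nonempty) :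
    ∃ ξ : ℤ → ℝ, StrictMono ξ ∧ (∀ k, ξ (k + S.card) = ξ k + T) ∧
      ∀ x : ℝ, (∃ k, ξ k = x) ↔ ∃ j : ℤ, x - j * T ∈ S := by
  obtain ⟨M, hM⟩ : ∃ M, M = S.card := ⟨_, rfl⟩
  have hM0 : 0 < M := by rw [hM]; exact Finset.card_pos.2 hne
  have hMz : (0 : ℤ) < M := by exact_mod_cast hM0
  obtain ⟨a, ha⟩ : ∃ a : Fin M ↪o ℝ, a = S.orderEmbOfFin hM.symm := ⟨_, rfl⟩
  have haS : ∀ i, a i ∈ S := by
    intro i
    rw [ha]
    exact Finset.orderEmbOfFin_mem S hM.symm i
  have hlt : ∀ k : ℤ, (k % M).toNat < M := by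
    intro k
    have h1 := Int.emod_nonneg k hMz.ne'
    have h2 := Int.emod_lt_of_pos k hMz
    omega
  let ξ : ℤ → ℝ := fun k => a ⟨(k % M).toNat, hlt k⟩ + ((k / M : ℤ) : ℝ) * T
  have key : ∀ (k j : ℤ) (i : Fin M), k = j * M + (i : ℕ) → ξ k = a i + j * T := by
    intro k j i hk
    have hi : ((i : ℕ) : ℤ) < M := by exact_mod_cast i.2
    have hi0 : (0 : ℤ) ≤ ((i : ℕ) : ℤ) := by positivity
    have h1 : k / M = j := by
      rw [hk, add_comm, Int.add_mul_ediv_right _ _ hMz.ne', Int.ediv_eq_zero_of_lt hi0 hi, zero_add]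
    have h2 : k % M = (i : ℕ) := by
      rw [hk, add_comm, Int.add_mul_emod_self_right, Int.emod_eq_of_lt hi0 hi]
    show a ⟨(k % M).toNat, hlt k⟩ + ((k / M : ℤ) : ℝ) * T = _
    have h3 : (⟨(k % M).toNat, hlt k⟩ : Fin M) = i := by
      apply Fin.ext
      show (k % M).toNat = i
      rw [h2]
      simp
    rw [h3, h1]
  have dec : ∀ k : ℤ, ∃ (j : ℤ) (i : Fin M), k = j * M + (i : ℕ) := by
    intro k
    refine ⟨k / M, ⟨(k % M).toNat, hlt k⟩, ?_⟩
    show k = k / M * M + (((k % M).toNat : ℕ) : ℤ)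
    rw [Int.toNat_of_nonneg (Int.emod_nonneg k hMz.ne')]
    have := Int.emod_add_mul_ediv k M
    linarith [mul_comm (M : ℤ) (k / M)]
  refine ⟨ξ, strictMono_int_of_lt_succ fun k => ?_, fun k => ?_, fun x => ⟨?_, ?_⟩⟩
  · obtain ⟨j, i, hk⟩ := dec k
    rw [key k j i hk]
    by_cases hi : (i : ℕ) + 1 < M
    · rw [key (k + 1) j ⟨i + 1, hi⟩ (by rw [hk]; push_cast; ring)]
      have h1 : a i < a ⟨i + 1, hi⟩ := a.strictMono (Fin.lt_def.2 (Nat.lt_succ_self i))
      linarith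
    · have hi2 : (i : ℕ) + 1 = M := by have := i.2; omega
      rw [key (k + 1) (j + 1) ⟨0, hM0⟩ (by
        have h3 : ((i : ℕ) : ℤ) + 1 = M := by exact_mod_cast hi2
        rw [hk]
        push_cast
        linear_combination h3)]
      have h1 := (hS _ (haS i)).2
      have h2 := (hS _ (haS ⟨0, hM0⟩)).1
      push_cast
      nlinarith
  · obtain ⟨j, i, hk⟩ := dec k
    rw [key k j i hk, ← hM, key (k + M) (j + 1) i (by rw [hk]; ring)]
    push_cast
    ring
  · rintro ⟨k, rfl⟩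
    obtain ⟨j, i, hk⟩ := dec k
    refine ⟨j, ?_⟩
    rw [key k j i hk, add_sub_cancel_right]
    exact haS i
  · rintro ⟨j, hj⟩
    have h1 : x - j * T ∈ Set.range a := by
      rw [ha, Finset.range_orderEmbOfFin]
      exact hj
    obtain ⟨i, hi⟩ := h1
    refine ⟨j * M + (i : ℕ), ?_⟩
    rw [key _ j i rfl, hi]
    ring

end H47A
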