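import Pool.Agent.Lib.H47A.EX1
import Pool.Agent.Lib.H47A.EX2
import Pool.Agent.Lib.H47A.EAz
import Pool.Agent.Lib.H47A.EKap5

/-! # H47A, chunk EX3 (M): the vertices in the order of the azimuth
(a) az v != 0 for every vertex v: otherwise v = c e (`az_zero`), det3 e v w = 0 for all vertices w, so all vertices are v, -v, contradiction to `vx_card` (at least 4).
(b) two vertices with az v = r az w, r > 0: det3 e v w = cr (az v) (az w) = 0 (`det_az`), so w = v or w = -v, and w = -v gives az w = -az v = -r az w: impossible. So w = v.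
(c) S = the set of t in [0,pi) such that some vertex has azimuth r e^{it}, r > 0. Finite (image of the vertices). Every vertex v has azimuth angle t mod 2 pi; t or t + pi (for -v) is in [0,pi) mod 2 pi. The map v -> angle
mod pi is two to one (v and -v), so card S = N with 2 N = number of vertices >= 4, N >= 2 (only N >= 2 is needed: there are two vertices v, w with w != v, -v; their angles mod pi are different by (b)).
(d) φ = ξ from `enum_per` with T = pi. For every k there is a vertex with azimuth angle φ k (φ k - j pi in S: take v or -v according to the parity of j), unique by (b): v k. v (k + N) has the angle φ k + pi, as -v k: so it is -v k.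
Every vertex u has an angle p, p - j pi in [0,pi) for some j, in S (u or -u), so p = ξ k, and u = v k by uniqueness. -/

open Real

namespace H47A

variable {A : Type} [Fintype A] [DecidableEq A] {n : A → E3} {f1 f2 e : E3}

theorem ex3_az_neg (u : E3) : az f1 f2 (-u) = -az f1 f2 u := by
  have h := az_smul (f1 := f1) (f2 := f2) (-1) u
  rw [neg_one_smul] at h
  rw [h]
  push_cast
  ring

theorem ex3_cr_smul (c : ℝ) (z : ℂ) : cr ((c : ℂ) * z) z = 0 := by
  unfold cr
  rw [Complex.re_ofReal_mul, Complex.im_ofReal_mul]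
  ring

/-- Three pairwise different vertices `u, v, w` with `w ≠ -u`... there is a vertex different from `v` and `-v`. -/
theorem ex3_other (hG : Gnr n) (v : E3) : ∃ w ∈ Vx n, w ≠ v ∧ w ≠ -v := by
  by_contra hcon
  push Not at hcon
  have h1 : (vx_finite hG).toFinset ⊆ {v, -v} := by
    intro w hw
    rw [Set.Finite.mem_toFinset] at hw
    rw [Finset.mem_insert, Finset.mem_singleton]
    by_cases h : w = v
    · exact Or.inl h
    · exact Or.inr (hcon w hw h)
  have h2 := (Finset.card_le_card h1).trans (Finset.card_le_two)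
  have h3 := vx_card hG
  omega

theorem ex3_az_ne (hG : Gnr n) (hA : Axis f1 f2 e) (hv : ∀ v ∈ Vx n, ∀ w ∈ Vx n, det3 e v w = 0 → w = v ∨ w = -v)
    {v : E3} (h : v ∈ Vx n) : az f1 f2 v ≠ 0 := by
  intro h0
  obtain ⟨w, hw, h1, h2⟩ := ex3_other hG v
  have h3 : det3 e v w = 0 := by
    rw [det_az hA, h0]
    unfold cr
    simp
  rcases hv v h w hw h3 with h4 | h4
  · exact h1 h4
  · exact h2 h4

theorem ex3_uniq (hG : Gnr n) (hA : Axis f1 f2 e) (hv : ∀ v ∈ Vx n, ∀ w ∈ Vx n, det3 e v w = 0 → w = v ∨ w = -v)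
    {v w : E3} (h : v ∈ Vx n) (h' : w ∈ Vx n) {p r r' : ℝ} (hr : 0 < r) (hr' : 0 < r')
    (e1 : az f1 f2 v = (r : ℂ) * Complex.exp ((p : ℂ) * Complex.I))
    (e2 : az f1 f2 w = (r' : ℂ) * Complex.exp ((p : ℂ) * Complex.I)) : v = w := by
  have hr0 : (r : ℂ) ≠ 0 := by exact_mod_cast hr.ne'
  have h1 : az f1 f2 w = ((r' / r : ℝ) : ℂ) * az f1 f2 v := by
    rw [e1, e2]
    push_cast
    field_simp
  have h2 : det3 e v w = 0 := by
    have h3 := det_az hA w v
    rw [h1, ex3_cr_smul] at h3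
    have h5 : det3 e v w = -det3 e w v := by
      rw [det3_rot e v w, det3_rot e w v]
      exact det3_swap w v e
    rw [h5, h3, neg_zero]
  rcases hv v h w h' h2 with h6 | h6
  · exact h6.symm
  · exfalso
    have h7 : az f1 f2 w = -az f1 f2 v := by rw [h6, ex3_az_neg]
    rw [h1] at h7
    have h8 : (((r' / r : ℝ) : ℂ) + 1) * az f1 f2 v = 0 := by linear_combination h7
    have h9 : ((r' / r : ℝ) : ℂ) + 1 ≠ 0 := by
      have : (0 : ℝ) < r' / r + 1 := by positivity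
      exact_mod_cast this.ne'
    exact ex3_az_ne hG hA hv h ((mul_eq_zero.1 h8).resolve_left h9)

theorem ex3_shift (hG : Gnr n) (hA : Axis f1 f2 e) (hv : ∀ v ∈ Vx n, ∀ w ∈ Vx n, det3 e v w = 0 → w = v ∨ w = -v)
    {v : E3} (h : v ∈ Vx n) (l : ℤ) : ∃ w ∈ Vx n, (w = v ∨ w = -v) ∧ ∃ r : ℝ, 0 < r ∧
      az f1 f2 w = (r : ℂ) * Complex.exp (((Complex.arg (az f1 f2 v) + l * π : ℝ) : ℂ) * Complex.I) := by
  have h0 := ex3_az_ne hG hA hv h
  have hr : 0 < ‖az f1 f2 v‖ := norm_pos_iff.2 h0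
  have e1 : (‖az f1 f2 v‖ : ℂ) * Complex.exp ((Complex.arg (az f1 f2 v) : ℂ) * Complex.I) = az f1 f2 v :=
    Complex.norm_mul_exp_arg_mul_I _
  have e2 : Complex.exp (((Complex.arg (az f1 f2 v) + l * π : ℝ) : ℂ) * Complex.I) =
      Complex.exp ((Complex.arg (az f1 f2 v) : ℂ) * Complex.I) * (-1) ^ l := by
    have h1 : ((Complex.arg (az f1 f2 v) + l * π : ℝ) : ℂ) * Complex.I =
        (Complex.arg (az f1 f2 v) : ℂ) * Complex.I + (l : ℂ) * (π * Complex.I) := by
      push_cast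
      ring
    rw [h1, Complex.exp_add, Complex.exp_int_mul, Complex.exp_pi_mul_I]
  rcases Int.even_or_odd l with hl | hl
  · refine ⟨v, h, Or.inl rfl, ‖az f1 f2 v‖, hr, ?_⟩
    rw [e2, hl.neg_one_zpow, mul_one, e1]
  · refine ⟨-v, vx_neg hG h, Or.inr rfl, ‖az f1 f2 v‖, hr, ?_⟩
    rw [e2, hl.neg_one_zpow, ex3_az_neg, mul_neg_one, mul_neg, e1]

theorem vx_seq (hG : Gnr n) (hA : Axis f1 f2 e) (hv : ∀ v ∈ Vx n, ∀ w ∈ Vx n, det3 e v w = 0 → w = v ∨ w = -v) :
    ∃ (N : ℕ) (v : ℤ → E3) (φ : ℤ → ℝ), 2 ≤ N ∧ (∀ k, v (k + N) = -v k) ∧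
      (∀ k, ∃ r : ℝ, 0 < r ∧ az f1 f2 (v k) = (r : ℂ) * Complex.exp ((φ k : ℂ) * Complex.I)) ∧
      (∀ k, φ k < φ (k + 1)) ∧ (∀ k, φ (k + N) = φ k + π) ∧ (∀ k, v k ∈ Vx n) ∧ ∀ u ∈ Vx n, ∃ k, v k = u := by
  classical
  let jj : E3 → ℤ := fun v => ⌊Complex.arg (az f1 f2 v) / π⌋
  let t : E3 → ℝ := fun v => Complex.arg (az f1 f2 v) - jj v * π
  have ht : ∀ v, 0 ≤ t v ∧ t v < π := by
    intro v
    have h1 := Int.floor_le (Complex.arg (az f1 f2 v) / π)
    have h2 := Int.lt_floor_add_one (Complex.arg (az f1 f2 v) / π)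
    rw [le_div_iff₀ pi_pos] at h1
    rw [div_lt_iff₀ pi_pos] at h2
    refine ⟨?_, ?_⟩
    · show 0 ≤ Complex.arg (az f1 f2 v) - (⌊Complex.arg (az f1 f2 v) / π⌋ : ℝ) * π
      linarith
    · show Complex.arg (az f1 f2 v) - (⌊Complex.arg (az f1 f2 v) / π⌋ : ℝ) * π < π
      linarith
  obtain ⟨S, hSd⟩ : ∃ S : Finset ℝ, S = (vx_finite hG).toFinset.image t := ⟨_, rfl⟩
  have hS : ∀ x ∈ S, 0 ≤ x ∧ x < π := by
    intro x hx
    rw [hSd] at hx
    obtain ⟨v, -, rfl⟩ := Finset.mem_image.1 hx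
    exact ht v
  have hmem : ∀ v ∈ Vx n, t v ∈ S := by
    intro v h
    rw [hSd]
    exact Finset.mem_image.2 ⟨v, (Set.Finite.mem_toFinset _).2 h, rfl⟩
  have hVne : (vx_finite hG).toFinset.Nonempty := by
    rw [← Finset.card_pos]
    have := vx_card hG
    omega
  obtain ⟨v0, hv0⟩ := hVne
  rw [Set.Finite.mem_toFinset] at hv0
  obtain ⟨v1, hv1, hne1, hne2⟩ := ex3_other hG v0
  have hne : t v0 ≠ t v1 := by
    intro heq
    have h1 : Complex.arg (az f1 f2 v1) = Complex.arg (az f1 f2 v0) + (jj v1 - jj v0 : ℤ) * π := by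
      have h2 : Complex.arg (az f1 f2 v0) - jj v0 * π = Complex.arg (az f1 f2 v1) - jj v1 * π := heq
      push_cast
      linarith
    obtain ⟨w, hw, hwv, r, hr, e1⟩ := ex3_shift hG hA hv hv0 (jj v1 - jj v0)
    rw [← h1] at e1
    have h0 := ex3_az_ne hG hA hv hv1
    have h3 := ex3_uniq hG hA hv hv1 hw (norm_pos_iff.2 h0) hr (Complex.norm_mul_exp_arg_mul_I _).symm e1
    rcases hwv with h4 | h4
    · exact hne1 (h3.trans h4)
    · exact hne2 (h3.trans h4)
  have hcard : 2 ≤ S.card := by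
    have h1 : ({t v0, t v1} : Finset ℝ) ⊆ S := by
      intro x hx
      rw [Finset.mem_insert, Finset.mem_singleton] at hx
      rcases hx with rfl | rfl
      · exact hmem _ hv0
      · exact hmem _ hv1
    have h2 := Finset.card_le_card h1
    rwa [Finset.card_pair hne] at h2
  obtain ⟨ξ, hξm, hξp, hξr⟩ := enum_per pi_pos S hS ⟨_, hmem _ hv0⟩
  have hex : ∀ k, ∃ w ∈ Vx n, ∃ r : ℝ, 0 < r ∧ az f1 f2 w = (r : ℂ) * Complex.exp ((ξ k : ℂ) * Complex.I) := by
    intro k
    obtain ⟨j, hj⟩ := (hξr (ξ k)).1 ⟨k, rfl⟩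
    rw [hSd] at hj
    obtain ⟨v, hvm, hvt⟩ := Finset.mem_image.1 hj
    rw [Set.Finite.mem_toFinset] at hvm
    obtain ⟨w, hw, -, r, hr, e1⟩ := ex3_shift hG hA hv hvm (j - jj v)
    refine ⟨w, hw, r, hr, ?_⟩
    have h1 : Complex.arg (az f1 f2 v) + ((j - jj v : ℤ) : ℝ) * π = ξ k := by
      have h2 : Complex.arg (az f1 f2 v) - jj v * π = ξ k - j * π := hvt
      push_cast
      linarith
    rw [h1] at e1
    exact e1
  choose v hvV r hr haz using hex
  refine ⟨S.card, v, ξ, hcard, fun k => ?_, fun k => ⟨r k, hr k, haz k⟩, fun k => hξm (lt_add_one k), hξp, hvV, fun u hu => ?_⟩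
  · refine ex3_uniq hG hA hv (hvV _) (vx_neg hG (hvV k)) (hr _) (hr k) (haz _) ?_
    rw [hξp, ex3_az_neg, haz k]
    have h1 : ((ξ k + π : ℝ) : ℂ) * Complex.I = (ξ k : ℂ) * Complex.I + π * Complex.I := by
      push_cast
      ring
    rw [h1, Complex.exp_add, Complex.exp_pi_mul_I]
    ring
  · obtain ⟨k, hk⟩ := (hξr (Complex.arg (az f1 f2 u))).2 ⟨jj u, hmem u hu⟩
    refine ⟨k, ?_⟩
    have h0 := ex3_az_ne hG hA hv hu
    have e1 := haz k
    rw [hk] at e1
    exact ex3_uniq hG hA hv (hvV k) hu (hr k) (norm_pos_iff.2 h0) e1 (Complex.norm_mul_exp_arg_mul_I _).symm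

end H47A
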