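import Pool.Agent.Lib.H47A.EX3

/-! # H47A, chunk EX4 (M): generic intermediate points
φ (k+1) < φ k + pi (φ (k+1) <= φ (k+N-1) < φ (k+N), N >= 2). For k in [0,N): the azimuth of v k + v (k+1) has an angle strictly between φ k and φ (k+1) (`sector_fwd`, both coefficients positive after scaling with the
radii). The set of p with cr (az (v k)) (az p) > 0 and cr (az p) (az (v (k+1))) > 0 is open and contains v k + v (k+1); every such p has an azimuth angle in (φ k, φ (k+1)) (write az p as a positive combination: Cramer in the plane,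
`sector_fwd`). By `avoid_aff` choose p0 k in it with lf α p0 != lf β p0 for all α != β (`nn_inj`). p k := (-1)^(k / N) p0 (k % N) (Int.ediv, Int.emod): p (k+N) = -p k, angle in (φ k, φ (k+1)) (for k + N the angle + pi; choose the angle
in (φ k, φ (k+1)) by existence for each k), generic.
u (2k) = v k, u (2k+1) = p k, χ likewise, M = 2N. The genericity of p k (or p (k-1)) gives the last condition for every pair (j, j+1). χ (j+1) < χ j + pi as χ (2k+2) = φ (k+1) < φ k + pi. -/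

open Real

namespace H47A

variable {A : Type} [Fintype A] [DecidableEq A] {n : A → E3} {f1 f2 e : E3}

/-- Nodes: vertices and generic points in the order of the azimuth. -/
structure Nod (n : A → E3) (f1 f2 : E3) (M : ℕ) (u : ℤ → E3) (χ : ℤ → ℝ) : Prop where
  two_le : 2 ≤ M
  anti : ∀ k, u (k + M) = -u k
  azi : ∀ k, ∃ r : ℝ, 0 < r ∧ az f1 f2 (u k) = (r : ℂ) * Complex.exp ((χ k : ℂ) * Complex.I)
  mono : ∀ k, χ k < χ (k + 1)
  lt : ∀ k, χ (k + 1) < χ k + π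
  per : ∀ k, χ (k + M) = χ k + π
  vert : ∀ v ∈ Vx n, ∃ k, u k = v
  gen : ∀ k, ∀ α β : A × Bool, α ≠ β → ¬ (lf n α (u k) = lf n β (u k) ∧ lf n α (u (k + 1)) = lf n β (u (k + 1)))

theorem ex4_re (t : ℝ) : (Complex.exp ((t : ℂ) * Complex.I)).re = Real.cos t ∧ (Complex.exp ((t : ℂ) * Complex.I)).im = Real.sin t :=
  ⟨Complex.exp_ofReal_mul_I_re t, Complex.exp_ofReal_mul_I_im t⟩

theorem ex4_cr (t t' : ℝ) : cr (Complex.exp ((t : ℂ) * Complex.I)) (Complex.exp ((t' : ℂ) * Complex.I)) = Real.sin (t' - t) := by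
  unfold cr
  rw [(ex4_re t).1, (ex4_re t).2, (ex4_re t').1, (ex4_re t').2, Real.sin_sub]
  ring

theorem ex4_sector {t t' : ℝ} (h : t < t') (h' : t' < t + π) {z : ℂ} (h1 : 0 < cr (Complex.exp ((t : ℂ) * Complex.I)) z)
    (h2 : 0 < cr z (Complex.exp ((t' : ℂ) * Complex.I))) : ∃ r p : ℝ, 0 < r ∧ t < p ∧ p < t' ∧
      z = (r : ℂ) * Complex.exp ((p : ℂ) * Complex.I) := by
  have hD : 0 < Real.sin (t' - t) := Real.sin_pos_of_pos_of_lt_pi (by linarith) (by linarith)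
  have ha : 0 < cr z (Complex.exp ((t' : ℂ) * Complex.I)) / Real.sin (t' - t) := div_pos h2 hD
  have hb : 0 < cr (Complex.exp ((t : ℂ) * Complex.I)) z / Real.sin (t' - t) := div_pos h1 hD
  obtain ⟨r, p, hr, -, -, h3, h4, h5⟩ := sector_fwd h h' ha.le hb.le (by linarith)
  refine ⟨r, p, hr, h4 hb, h3 ha, ?_⟩
  rw [← h5]
  have hs : Real.sin (t' - t) = Real.cos t * Real.sin t' - Real.sin t * Real.cos t' := by
    rw [Real.sin_sub]
    ring
  have hD' : Real.cos t * Real.sin t' - Real.sin t * Real.cos t' ≠ 0 := by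
    rw [← hs]
    exact hD.ne'
  have e1 := ex4_re t
  have e2 := ex4_re t'
  apply Complex.ext
  · rw [Complex.add_re, Complex.re_ofReal_mul, Complex.re_ofReal_mul, hs]
    unfold cr
    rw [e1.1, e1.2, e2.1, e2.2, div_mul_eq_mul_div, div_mul_eq_mul_div, ← add_div, eq_div_iff hD']
    ring
  · rw [Complex.add_im, Complex.im_ofReal_mul, Complex.im_ofReal_mul, hs]
    unfold cr
    rw [e1.1, e1.2, e2.1, e2.2, div_mul_eq_mul_div, div_mul_eq_mul_div, ← add_div, eq_div_iff hD']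
    ring

theorem ex4_crs (c : ℝ) (z w : ℂ) : cr ((c : ℂ) * z) w = c * cr z w ∧ cr z ((c : ℂ) * w) = c * cr z w := by
  unfold cr
  rw [Complex.re_ofReal_mul, Complex.im_ofReal_mul, Complex.re_ofReal_mul, Complex.im_ofReal_mul]
  constructor <;> ring

theorem ex4_cra (z w w' : ℂ) : cr z (w + w') = cr z w + cr z w' ∧ cr (w + w') z = cr w z + cr w' z := by
  unfold cr
  rw [Complex.add_re, Complex.add_im]
  constructor <;> ring

theorem ex4_crc : Continuous fun p : ℂ × ℂ => cr p.1 p.2 := by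
  unfold cr
  fun_prop

/-- a generic point between two rays -/
theorem ex4_pt (hG : Gnr n) {v w : E3} {t t' r r' : ℝ} (h : t < t') (h' : t' < t + π) (hr : 0 < r) (hr' : 0 < r')
    (e1 : az f1 f2 v = (r : ℂ) * Complex.exp ((t : ℂ) * Complex.I))
    (e2 : az f1 f2 w = (r' : ℂ) * Complex.exp ((t' : ℂ) * Complex.I)) :
    ∃ (p : E3) (s : ℝ), t < s ∧ s < t' ∧ (∃ ρ : ℝ, 0 < ρ ∧ az f1 f2 p = (ρ : ℂ) * Complex.exp ((s : ℂ) * Complex.I)) ∧
      ∀ α β : A × Bool, α ≠ β → lf n α p ≠ lf n β p := by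
  classical
  have hD : 0 < Real.sin (t' - t) := Real.sin_pos_of_pos_of_lt_pi (by linarith) (by linarith)
  have hself : ∀ z, cr z z = 0 := fun z => by unfold cr; ring
  have c1 : Continuous fun p : E3 => cr (Complex.exp ((t : ℂ) * Complex.I)) (az f1 f2 p) :=
    ex4_crc.comp (continuous_const.prodMk az_cont)
  have c2 : Continuous fun p : E3 => cr (az f1 f2 p) (Complex.exp ((t' : ℂ) * Complex.I)) :=
    ex4_crc.comp (az_cont.prodMk continuous_const)
  have hO : IsOpen {p : E3 | 0 < cr (Complex.exp ((t : ℂ) * Complex.I)) (az f1 f2 p) ∧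
      0 < cr (az f1 f2 p) (Complex.exp ((t' : ℂ) * Complex.I))} :=
    (isOpen_lt continuous_const c1).inter (isOpen_lt continuous_const c2)
  have hm : v + w ∈ {p : E3 | 0 < cr (Complex.exp ((t : ℂ) * Complex.I)) (az f1 f2 p) ∧
      0 < cr (az f1 f2 p) (Complex.exp ((t' : ℂ) * Complex.I))} := by
    refine ⟨?_, ?_⟩
    · rw [az_add, e1, e2, (ex4_cra _ _ _).1, (ex4_crs r _ _).2, (ex4_crs r' _ _).2, hself, ex4_cr]
      rw [mul_zero, zero_add]
      exact mul_pos hr' hD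
    · rw [az_add, e1, e2, (ex4_cra _ _ _).2, (ex4_crs r _ _).1, (ex4_crs r' _ _).1, hself, ex4_cr]
      rw [mul_zero, add_zero]
      exact mul_pos hr hD
  obtain ⟨ε, hε, hb⟩ := Metric.isOpen_iff.1 hO _ hm
  obtain ⟨p, hp, hpS⟩ := avoid_aff (((Finset.univ : Finset ((A × Bool) × (A × Bool))).filter fun q => q.1 ≠ q.2).image
    fun q => (nn n q.1 - nn n q.2, (0 : ℝ))) (by
      intro x hx
      obtain ⟨q, hq, rfl⟩ := Finset.mem_image.1 hx
      exact sub_ne_zero.2 (nn_inj hG (Finset.mem_filter.1 hq).2)) (v + w) hε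
  have hpO := hb (by rw [Metric.mem_ball, dist_eq_norm]; exact hp : p ∈ Metric.ball (v + w) ε)
  obtain ⟨ρ, s, hρ, h1, h2, h3⟩ := ex4_sector h h' hpO.1 hpO.2
  refine ⟨p, s, h1, h2, ⟨ρ, hρ, h3⟩, fun α β hab heq => ?_⟩
  have h4 := hpS (nn n α - nn n β, 0) (Finset.mem_image.2 ⟨(α, β), Finset.mem_filter.2 ⟨Finset.mem_univ _, hab⟩, rfl⟩)
  apply h4
  show (inner ℝ (nn n α - nn n β) p : ℝ) = 0
  rw [inner_sub_left]
  exact sub_eq_zero.2 heq

theorem ex4_per {N : ℕ} {f : ℤ → ℝ} {T : ℝ} (h : ∀ k, f (k + N) = f k + T) (j k : ℤ) : f (k + j * N) = f k + j * T := by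
  induction j using Int.induction_on with
  | zero => simp
  | succ i ih =>
    have h1 : k + ((i : ℤ) + 1) * N = (k + i * N) + N := by ring
    rw [h1, h, ih]
    push_cast
    ring
  | pred i ih =>
    have h1 : k + (-(i : ℤ)) * N = (k + (-(i : ℤ) - 1) * N) + N := by ring
    rw [h1, h] at ih
    push_cast at ih ⊢
    linarith

theorem exists_nod (hG : Gnr n) (hA : Axis f1 f2 e)
    (hv : ∀ v ∈ Vx n, ∀ w ∈ Vx n, det3 e v w = 0 → w = v ∨ w = -v) :
    ∃ (M : ℕ) (u : ℤ → E3) (χ : ℤ → ℝ), Nod n f1 f2 M u χ := by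
  classical
  obtain ⟨N, v, φ, hN, hanti, hazi, hmono, hper, hvV, hsurj⟩ := vx_seq hG hA hv
  have hsm : StrictMono φ := strictMono_int_of_lt_succ hmono
  have hlt : ∀ k, φ (k + 1) < φ k + π := by
    intro k
    rw [← hper]
    exact hsm (by omega)
  choose r hr haz using hazi
  choose p0 ψ0 h1 h2 h3 h4 using fun k : ℤ => ex4_pt hG (hmono k) (hlt k) (hr k) (hr (k + 1)) (haz k) (haz (k + 1))
  have hNz : (0 : ℤ) < N := by omega
  let p : ℤ → E3 := fun k => ((-1 : ℝ) ^ (k / N)) • p0 (k % N)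
  let ψ : ℤ → ℝ := fun k => ψ0 (k % N) + ((k / N : ℤ) : ℝ) * π
  have hdiv : ∀ k : ℤ, (k + N) / N = k / N + 1 := fun k => Int.add_ediv_of_dvd_right (dvd_refl _) |>.trans (by
    rw [Int.ediv_self hNz.ne'])
  have hmod : ∀ k : ℤ, (k + N) % N = k % N := fun k => Int.add_emod_right k N
  have hm1 : ∀ j : ℤ, (-1 : ℝ) ^ j ≠ 0 := fun j => zpow_ne_zero j (by norm_num)
  have hpa : ∀ k, p (k + N) = -p k := by
    intro k
    show ((-1 : ℝ) ^ ((k + N) / N)) • p0 ((k + N) % N) = -(((-1 : ℝ) ^ (k / N)) • p0 (k % N))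
    rw [hdiv, hmod, zpow_add_one₀ (by norm_num), mul_neg_one, neg_smul]
  have hψp : ∀ k, ψ (k + N) = ψ k + π := by
    intro k
    show ψ0 ((k + N) % N) + (((k + N) / N : ℤ) : ℝ) * π = ψ0 (k % N) + ((k / N : ℤ) : ℝ) * π + π
    rw [hdiv, hmod]
    push_cast
    ring
  have hk : ∀ k : ℤ, k = k % N + (k / N) * N := by
    intro k
    have := Int.emod_add_mul_ediv k N
    linarith [mul_comm (N : ℤ) (k / N)]
  have hφ : ∀ k : ℤ, φ k = φ (k % N) + ((k / N : ℤ) : ℝ) * π ∧ φ (k + 1) = φ (k % N + 1) + ((k / N : ℤ) : ℝ) * π := by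
    intro k
    refine ⟨?_, ?_⟩
    · have := ex4_per hper (k / N) (k % N)
      rwa [← hk] at this
    · have := ex4_per hper (k / N) (k % N + 1)
      rwa [show k % N + 1 + k / N * N = k + 1 by linarith [hk k]] at this
  have hψ1 : ∀ k, φ k < ψ k ∧ ψ k < φ (k + 1) := by
    intro k
    obtain ⟨e1, e2⟩ := hφ k
    rw [e1, e2]
    exact ⟨by show _ < ψ0 (k % N) + ((k / N : ℤ) : ℝ) * π; linarith [h1 (k % N)],
      by show ψ0 (k % N) + ((k / N : ℤ) : ℝ) * π < _; linarith [h2 (k % N)]⟩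
  have hpz : ∀ k, ∃ ρ : ℝ, 0 < ρ ∧ az f1 f2 (p k) = (ρ : ℂ) * Complex.exp ((ψ k : ℂ) * Complex.I) := by
    intro k
    obtain ⟨ρ, hρ, e1⟩ := h3 (k % N)
    refine ⟨ρ, hρ, ?_⟩
    show az f1 f2 (((-1 : ℝ) ^ (k / N)) • p0 (k % N)) = (ρ : ℂ) * Complex.exp (((ψ0 (k % N) + ((k / N : ℤ) : ℝ) * π : ℝ) : ℂ) * Complex.I)
    have e2 : ((ψ0 (k % N) + ((k / N : ℤ) : ℝ) * π : ℝ) : ℂ) * Complex.I =
        (ψ0 (k % N) : ℂ) * Complex.I + ((k / N : ℤ) : ℂ) * (π * Complex.I) := by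
      push_cast
      ring
    rw [az_smul, e1, e2, Complex.exp_add, Complex.exp_int_mul, Complex.exp_pi_mul_I]
    push_cast
    ring
  have hpg : ∀ k, ∀ α β : A × Bool, α ≠ β → lf n α (p k) ≠ lf n β (p k) := by
    intro k α β hab heq
    have e1 : lf n α (((-1 : ℝ) ^ (k / N)) • p0 (k % N)) = lf n β (((-1 : ℝ) ^ (k / N)) • p0 (k % N)) := heq
    rw [lf_smul, lf_smul] at e1
    exact h4 (k % N) α β hab (mul_left_cancel₀ (hm1 _) e1)
  let u : ℤ → E3 := fun j => if j % 2 = 0 then v (j / 2) else p (j / 2)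
  let χ : ℤ → ℝ := fun j => if j % 2 = 0 then φ (j / 2) else ψ (j / 2)
  have u0 : ∀ k : ℤ, u (2 * k) = v k := fun k => by
    show (if (2 * k) % 2 = 0 then v (2 * k / 2) else p (2 * k / 2)) = v k
    rw [if_pos (by omega), show 2 * k / 2 = k by omega]
  have u1 : ∀ k : ℤ, u (2 * k + 1) = p k := fun k => by
    show (if (2 * k + 1) % 2 = 0 then v ((2 * k + 1) / 2) else p ((2 * k + 1) / 2)) = p k
    rw [if_neg (by omega), show (2 * k + 1) / 2 = k by omega]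
  have x0 : ∀ k : ℤ, χ (2 * k) = φ k := fun k => by
    show (if (2 * k) % 2 = 0 then φ (2 * k / 2) else ψ (2 * k / 2)) = φ k
    rw [if_pos (by omega), show 2 * k / 2 = k by omega]
  have x1 : ∀ k : ℤ, χ (2 * k + 1) = ψ k := fun k => by
    show (if (2 * k + 1) % 2 = 0 then φ ((2 * k + 1) / 2) else ψ ((2 * k + 1) / 2)) = ψ k
    rw [if_neg (by omega), show (2 * k + 1) / 2 = k by omega]
  have cases : ∀ j : ℤ, (∃ k, j = 2 * k) ∨ ∃ k, j = 2 * k + 1 := fun j => by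
    rcases Int.even_or_odd j with ⟨k, hk⟩ | ⟨k, hk⟩
    · exact Or.inl ⟨k, by omega⟩
    · exact Or.inr ⟨k, hk⟩
  refine ⟨2 * N, u, χ, ⟨by omega, ?_, ?_, ?_, ?_, ?_, ?_, ?_⟩⟩
  · intro j
    rcases cases j with ⟨k, rfl⟩ | ⟨k, rfl⟩
    · rw [show 2 * k + ((2 * N : ℕ) : ℤ) = 2 * (k + N) by push_cast; ring, u0, u0, hanti]
    · rw [show 2 * k + 1 + ((2 * N : ℕ) : ℤ) = 2 * (k + N) + 1 by push_cast; ring, u1, u1, hpa]
  · intro j
    rcases cases j with ⟨k, rfl⟩ | ⟨k, rfl⟩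
    · rw [u0, x0]
      exact ⟨r k, hr k, haz k⟩
    · rw [u1, x1]
      exact hpz k
  · intro j
    rcases cases j with ⟨k, rfl⟩ | ⟨k, rfl⟩
    · rw [x0, x1]
      exact (hψ1 k).1
    · rw [x1, show 2 * k + 1 + 1 = 2 * (k + 1) by ring, x0]
      exact (hψ1 k).2
  · intro j
    rcases cases j with ⟨k, rfl⟩ | ⟨k, rfl⟩
    · rw [x0, x1]
      linarith [(hψ1 k).2, hlt k]
    · rw [x1, show 2 * k + 1 + 1 = 2 * (k + 1) by ring, x0]
      linarith [(hψ1 k).1, hlt k]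
  · intro j
    rcases cases j with ⟨k, rfl⟩ | ⟨k, rfl⟩
    · rw [show 2 * k + ((2 * N : ℕ) : ℤ) = 2 * (k + N) by push_cast; ring, x0, x0, hper]
    · rw [show 2 * k + 1 + ((2 * N : ℕ) : ℤ) = 2 * (k + N) + 1 by push_cast; ring, x1, x1, hψp]
  · intro w hw
    obtain ⟨k, hk'⟩ := hsurj w hw
    exact ⟨2 * k, by rw [u0, hk']⟩
  · intro j α β hab
    rcases cases j with ⟨k, rfl⟩ | ⟨k, rfl⟩
    · rw [u1]
      exact fun h => hpg k α β hab h.2
    · rw [u1]
      exact fun h => hpg k α β hab h.1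

end H47A
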