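import Pool.Agent.Lib.H47A.EX4
import Pool.Agent.Lib.H47A.ETh

/-! # H47A, chunks EX5 (M), EX6 (M/L): subdivision at the facet changes
EX5: `g0_eq` (closed intervals), `g0_anti`. `g0_ne`: the azimuth is not zero (`th_gen`). `brk_fin`: on (j,j+1) the function lf α - lf β of G0 x is affine and not identically zero (`gen`), so it has at most one zero; a point where no
facet is strictly active has two active ones (`exists_act`). `brk_per`: SAct.neg. `sact_const`: no break in the open interval (x,y), so it contains no integer, it is inside some [j,j+1]; for every z in (x,y) there is exactly one strictly active facet;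
the sets {z | SAct α (G0 z)} are open and disjoint and cover the connected interval: one of them is everything.
EX6 (EX6.lean): S = the breaks in [0,M), contains 0 and 1 (M >= 2), `enum_per` with T = M, period m = card S >= 2: ξ enumerates all breaks. T from `th_gen`. γ k = psi (G0 (ξ k)), θ k = T (ξ k), b k from `sact_const` on (ξ k, ξ (k+1)) (no break inside:
ξ is onto the breaks and increasing). anti: psi_neg. azi: psi is a positive multiple. θper: T (x + M) = T x + pi. side: seg (γ k) (γ (k+1)) s = c1 G0 (ξ k) + c2 G0 (ξ (k+1)), c1, c2 > 0, and as both are in one linear piece of G0 this is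
(c1 + c2) G0 z with z in (ξ k, ξ (k+1)): `SAct.smul`. vert: a vertex is u j = G0 j, j an integer is a break, so j = ξ k, γ k = psi (u j) = u j (`psi_self`). -/

open Real

namespace H47A

variable {A : Type} [Fintype A] [DecidableEq A] {n : A → E3} {f1 f2 e : E3} {M : ℕ} {u : ℤ → E3} {χ : ℤ → ℝ}

/-- The polygonal curve through the nodes. -/
noncomputable def G0 (u : ℤ → E3) (x : ℝ) : E3 := seg (u ⌊x⌋) (u (⌊x⌋ + 1)) (Int.fract x)

/-- Break points: integers, and points with several active facets. -/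
def Brk (n : A → E3) (u : ℤ → E3) (x : ℝ) : Prop := (∃ k : ℤ, x = k) ∨ ¬ ∃ α, SAct n α (G0 u x)

theorem g0_eq (u : ℤ → E3) (k : ℤ) {x : ℝ} (hx : x ∈ Set.Icc (k : ℝ) (k + 1)) :
    G0 u x = seg (u k) (u (k + 1)) (x - k) := by
  rcases lt_or_eq_of_le hx.2 with h | h
  · have h1 : ⌊x⌋ = k := Int.floor_eq_iff.2 ⟨hx.1, h⟩
    unfold G0
    rw [Int.fract, h1]
  · have h1 : ⌊x⌋ = k + 1 := by
      rw [h, ← Int.cast_one, ← Int.cast_add, Int.floor_intCast]
    unfold G0 seg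
    rw [Int.fract, h1, h]
    push_cast
    simp

theorem g0_anti (h : Nod n f1 f2 M u χ) (x : ℝ) : G0 u (x + M) = -G0 u x := by
  have h1 : ⌊x + (M : ℝ)⌋ = ⌊x⌋ + M := Int.floor_add_natCast x M
  have h2 : Int.fract (x + (M : ℝ)) = Int.fract x := Int.fract_add_natCast x M
  unfold G0 seg
  rw [h1, h2, show ⌊x⌋ + (M : ℤ) + 1 = (⌊x⌋ + 1) + M by ring, h.anti, h.anti]
  module

theorem ex5_step (h : Nod n f1 f2 M u χ) (x : ℝ) : Brk n u (x + M) ↔ Brk n u x := by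
  unfold Brk
  rw [g0_anti h]
  refine or_congr ⟨?_, ?_⟩ (not_congr ⟨?_, ?_⟩)
  · rintro ⟨k, hk⟩
    exact ⟨k - M, by push_cast; linarith⟩
  · rintro ⟨k, hk⟩
    exact ⟨k + M, by push_cast; linarith⟩
  · rintro ⟨α, hα⟩
    exact ⟨ng α, by have := hα.neg; rwa [neg_neg] at this⟩
  · rintro ⟨α, hα⟩
    exact ⟨ng α, hα.neg⟩

theorem brk_per (h : Nod n f1 f2 M u χ) (x : ℝ) (j : ℤ) : Brk n u (x + j * M) ↔ Brk n u x := by
  induction j using Int.induction_on with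
  | zero => simp
  | succ i ih =>
    rw [← ih, ← ex5_step h (x + ((i : ℤ) : ℝ) * M)]
    have : x + (((i : ℤ) + 1 : ℤ) : ℝ) * M = x + ((i : ℤ) : ℝ) * M + M := by push_cast; ring
    rw [this]
  | pred i ih =>
    rw [← ih, ← ex5_step h (x + ((-(i : ℤ) - 1 : ℤ) : ℝ) * M)]
    have : x + ((-(i : ℤ) - 1 : ℤ) : ℝ) * M + M = x + ((-(i : ℤ) : ℤ) : ℝ) * M := by push_cast; ring
    rw [this]

theorem ex5_lf (α : A × Bool) (v w : E3) (s : ℝ) : lf n α (seg v w s) = (1 - s) * lf n α v + s * lf n α w := by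
  unfold seg
  rw [lf_add, lf_smul, lf_smul]

theorem brk_fin (hG : Gnr n) (h : Nod n f1 f2 M u χ) : {x : ℝ | x ∈ Set.Ico (0 : ℝ) M ∧ Brk n u x}.Finite := by
  have hf1 : (Set.range fun i : Fin M => (((i : ℕ) : ℤ) : ℝ)).Finite := Set.finite_range _
  have hf2 : (⋃ q : Fin M × ((A × Bool) × (A × Bool)), {x : ℝ | q.2.1 ≠ q.2.2 ∧
      x ∈ Set.Icc (((q.1 : ℕ) : ℤ) : ℝ) ((((q.1 : ℕ) : ℤ) : ℝ) + 1) ∧ lf n q.2.1 (G0 u x) = lf n q.2.2 (G0 u x)}).Finite := by
    refine Set.finite_iUnion fun q => Set.Subsingleton.finite ?_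
    obtain ⟨i, α, β⟩ := q
    rintro x ⟨hab, hx, hxe⟩ y ⟨-, hy, hye⟩
    have hab' : α ≠ β := hab
    have hg := h.gen ((i : ℕ) : ℤ) α β hab'
    have hx' : lf n α (G0 u x) = lf n β (G0 u x) := hxe
    have hy' : lf n α (G0 u y) = lf n β (G0 u y) := hye
    rw [g0_eq u _ hx, ex5_lf, ex5_lf] at hx'
    rw [g0_eq u _ hy, ex5_lf, ex5_lf] at hy'
    by_contra hne
    have hd : x - y ≠ 0 := sub_ne_zero.2 hne
    apply hg
    have e1 : (x - y) * (lf n α (u ((i : ℕ) : ℤ)) - lf n β (u ((i : ℕ) : ℤ)) - (lf n α (u (((i : ℕ) : ℤ) + 1)) - lf n β (u (((i : ℕ) : ℤ) + 1)))) = 0 := by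
      linear_combination hy' - hx'
    have e2 := (mul_eq_zero.1 e1).resolve_left hd
    constructor
    · linear_combination hx' + (x - (((i : ℕ) : ℤ) : ℝ)) * e2
    · linear_combination hx' + (x - (((i : ℕ) : ℤ) : ℝ)) * e2 - e2
  refine (hf1.union hf2).subset ?_
  rintro x ⟨hx, hb⟩
  have hfl : 0 ≤ ⌊x⌋ := Int.floor_nonneg.2 hx.1
  have hfl2 : ⌊x⌋ < M := Int.floor_lt.2 (by exact_mod_cast hx.2)
  obtain ⟨i, hi⟩ := Int.eq_ofNat_of_zero_le hfl
  have hiM : i < M := by omega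
  rcases hb with ⟨k, hk⟩ | hb
  · left
    refine ⟨⟨i, hiM⟩, ?_⟩
    show ((i : ℤ) : ℝ) = x
    have hi' : ⌊x⌋ = (i : ℤ) := hi
    rw [← hi', hk, Int.floor_intCast]
  · right
    obtain ⟨α, hα⟩ := exists_act hG (G0 u x)
    have hns : ¬ SAct n α (G0 u x) := fun hs => hb ⟨α, hs⟩
    unfold SAct at hns
    push Not at hns
    obtain ⟨β, hβ, hle⟩ := hns
    rw [Set.mem_iUnion]
    refine ⟨(⟨i, hiM⟩, (α, β)), hβ.symm, ?_, le_antisymm hle (hα β)⟩
    show x ∈ Set.Icc ((i : ℤ) : ℝ) (((i : ℤ) : ℝ) + 1)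
    have hi' : ⌊x⌋ = (i : ℤ) := hi
    rw [← hi']
    exact ⟨Int.floor_le x, (Int.lt_floor_add_one x).le⟩

theorem sact_const {x y : ℝ} (hxy : x < y) (h : ∀ z ∈ Set.Ioo x y, ¬ Brk n u z) :
    ∃ α, ∀ z ∈ Set.Ioo x y, SAct n α (G0 u z) := by
  obtain ⟨z0, hz0⟩ := exists_between hxy
  have hz0' : z0 ∈ Set.Ioo x y := hz0
  obtain ⟨k, hk⟩ : ∃ k, k = ⌊z0⌋ := ⟨_, rfl⟩
  have hk1 : (k : ℝ) ≤ z0 := by rw [hk]; exact Int.floor_le z0
  have hk2 : z0 < (k : ℝ) + 1 := by rw [hk]; exact Int.lt_floor_add_one z0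
  have hsub : ∀ z ∈ Set.Ioo x y, z ∈ Set.Icc (k : ℝ) (k + 1) := by
    intro z hz
    refine ⟨?_, ?_⟩
    · by_contra hlt
      rw [not_le] at hlt
      exact h k ⟨hz.1.trans hlt, hk1.trans_lt hz0.2⟩ (Or.inl ⟨k, rfl⟩)
    · by_contra hlt
      rw [not_le] at hlt
      exact h ((k : ℝ) + 1) ⟨hz0.1.trans hk2, hlt.trans hz.2⟩ (Or.inl ⟨k + 1, by push_cast; rfl⟩)
  have hsa : ∀ z ∈ Set.Ioo x y, ∃ α, SAct n α (seg (u k) (u (k + 1)) (z - k)) := by
    intro z hz
    have h1 := h z hz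
    unfold Brk at h1
    rw [not_or, not_not] at h1
    obtain ⟨α, hα⟩ := h1.2
    rw [g0_eq u k (hsub z hz)] at hα
    exact ⟨α, hα⟩
  obtain ⟨α, hα⟩ := hsa z0 hz0'
  have hc : Continuous fun z : ℝ => seg (u k) (u (k + 1)) (z - k) := by
    unfold seg
    fun_prop
  have hU : IsOpen ((fun z : ℝ => seg (u k) (u (k + 1)) (z - k)) ⁻¹' {w | SAct n α w}) := (sact_open α).preimage hc
  have hV : IsOpen (⋃ β : {β : A × Bool // β ≠ α}, (fun z : ℝ => seg (u k) (u (k + 1)) (z - k)) ⁻¹' {w | SAct n β.1 w}) :=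
    isOpen_iUnion fun β => (sact_open β.1).preimage hc
  have hdis : Disjoint ((fun z : ℝ => seg (u k) (u (k + 1)) (z - k)) ⁻¹' {w | SAct n α w})
      (⋃ β : {β : A × Bool // β ≠ α}, (fun z : ℝ => seg (u k) (u (k + 1)) (z - k)) ⁻¹' {w | SAct n β.1 w}) := by
    rw [Set.disjoint_left]
    intro z hz1 hz2
    rw [Set.mem_iUnion] at hz2
    obtain ⟨β, hβ⟩ := hz2
    have h1 : SAct n α (seg (u k) (u (k + 1)) (z - k)) := hz1
    have h2 : SAct n β.1 (seg (u k) (u (k + 1)) (z - k)) := hβ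
    exact β.2 (h1.unique h2.act)
  have hsubs := isPreconnected_Ioo.subset_left_of_subset_union hU hV hdis (s := Set.Ioo x y) (by
    intro z hz
    obtain ⟨β, hβ⟩ := hsa z hz
    by_cases hb : β = α
    · left
      rw [hb] at hβ
      exact hβ
    · right
      rw [Set.mem_iUnion]
      exact ⟨⟨β, hb⟩, hβ⟩) ⟨z0, hz0', hα⟩
  refine ⟨α, fun z hz => ?_⟩
  rw [g0_eq u k (hsub z hz)]
  exact hsubs hz

end H47A
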