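import Pool.Agent.Lib.H47A.EX5

/-! # H47A, chunk EX6 (M/L): see the docstring of EX5.lean -/

open Real

namespace H47A

variable {A : Type} [Fintype A] [DecidableEq A] {n : A → E3} {f1 f2 e : E3} {M : ℕ} {u : ℤ → E3} {χ : ℤ → ℝ}

theorem ex6_int (u : ℤ → E3) (i : ℤ) : G0 u i = u i := by
  rw [g0_eq u i (x := (i : ℝ)) ⟨le_rfl, by linarith⟩]
  unfold seg
  rw [sub_self, sub_zero, one_smul, zero_smul, add_zero]

theorem ex6_lin {u : ℤ → E3} {j : ℤ} {x y c1 c2 : ℝ} (hx : x ∈ Set.Icc (j : ℝ) (j + 1)) (hy : y ∈ Set.Icc (j : ℝ) (j + 1))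
    (hxy : x < y) (h1 : 0 < c1) (h2 : 0 < c2) :
    ∃ z ∈ Set.Ioo x y, c1 • G0 u x + c2 • G0 u y = (c1 + c2) • G0 u z := by
  have hc : 0 < c1 + c2 := by linarith
  have hz1 : x < (c1 * x + c2 * y) / (c1 + c2) := by
    rw [lt_div_iff₀ hc]
    nlinarith
  have hz2 : (c1 * x + c2 * y) / (c1 + c2) < y := by
    rw [div_lt_iff₀ hc]
    nlinarith
  refine ⟨(c1 * x + c2 * y) / (c1 + c2), ⟨hz1, hz2⟩, ?_⟩
  rw [g0_eq u j hx, g0_eq u j hy, g0_eq u j (x := (c1 * x + c2 * y) / (c1 + c2)) ⟨hx.1.trans hz1.le, hz2.le.trans hy.2⟩]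
  unfold seg
  have hz : (c1 + c2) * ((c1 * x + c2 * y) / (c1 + c2) - j) = c1 * (x - j) + c2 * (y - j) := by
    field_simp
    ring
  have e1 : (c1 + c2) • ((1 - ((c1 * x + c2 * y) / (c1 + c2) - j)) • u j + ((c1 * x + c2 * y) / (c1 + c2) - j) • u (j + 1)) =
      (c1 + c2 - (c1 + c2) * ((c1 * x + c2 * y) / (c1 + c2) - j)) • u j +
        ((c1 + c2) * ((c1 * x + c2 * y) / (c1 + c2) - j)) • u (j + 1) := by
    module
  rw [e1, hz]
  module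

theorem fan_of_nod (hG : Gnr n) (h : Nod n f1 f2 M u χ) : ∃ m : ℕ, Nonempty (Fan n f1 f2 m) := by
  classical
  have hM : (0 : ℝ) < M := by
    have := h.two_le
    have h2 : 0 < M := by omega
    exact_mod_cast h2
  obtain ⟨S, hSd⟩ : ∃ S : Finset ℝ, S = (brk_fin hG h).toFinset := ⟨_, rfl⟩
  have hSm : ∀ x, x ∈ S ↔ x ∈ Set.Ico (0 : ℝ) M ∧ Brk n u x := by
    intro x
    rw [hSd, Set.Finite.mem_toFinset]
    exact Iff.rfl
  have h0S : (0 : ℝ) ∈ S := (hSm 0).2 ⟨⟨le_rfl, hM⟩, Or.inl ⟨0, by simp⟩⟩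
  have h1S : (1 : ℝ) ∈ S := (hSm 1).2 ⟨⟨zero_le_one, by
    have := h.two_le
    have h2 : 1 < M := by omega
    exact_mod_cast h2⟩, Or.inl ⟨1, by simp⟩⟩
  obtain ⟨ξ, hξm, hξp, hξr⟩ := enum_per hM S (fun x hx => ⟨((hSm x).1 hx).1.1, ((hSm x).1 hx).1.2⟩) ⟨_, h0S⟩
  have hcard : 2 ≤ S.card := by
    have h1 : ({0, 1} : Finset ℝ) ⊆ S := by
      intro x hx
      rw [Finset.mem_insert, Finset.mem_singleton] at hx
      rcases hx with rfl | rfl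
      · exact h0S
      · exact h1S
    have h2 := Finset.card_le_card h1
    rwa [Finset.card_pair zero_ne_one] at h2
  have hbr : ∀ x, Brk n u x → ∃ k, ξ k = x := by
    intro x hx
    refine (hξr x).2 ⟨⌊x / M⌋, (hSm _).2 ⟨⟨?_, ?_⟩, ?_⟩⟩
    · have := Int.floor_le (x / M)
      rw [le_div_iff₀ hM] at this
      linarith
    · have := Int.lt_floor_add_one (x / M)
      rw [div_lt_iff₀ hM] at this
      linarith
    · have h1 : x - (⌊x / M⌋ : ℝ) * M = x + ((-⌊x / M⌋ : ℤ) : ℝ) * M := by push_cast; ring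
      rw [h1]
      exact (brk_per h x _).2 hx
  have hno : ∀ k, ∀ z ∈ Set.Ioo (ξ k) (ξ (k + 1)), ¬ Brk n u z := by
    intro k z hz hb
    obtain ⟨l, rfl⟩ := hbr z hb
    have h1 : k < l := hξm.lt_iff_lt.1 hz.1
    have h2 : l < k + 1 := hξm.lt_iff_lt.1 hz.2
    omega
  have hlt : ∀ k, ξ k < ξ (k + 1) := fun k => hξm (lt_add_one k)
  choose b hb using fun k => sact_const (n := n) (hlt k) (hno k)
  obtain ⟨T, hTm, hTp, hTk, hTz⟩ := th_gen h.anti h.azi h.mono h.lt h.per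
  have hGne : ∀ x, G0 u x ≠ 0 := by
    intro x hx
    obtain ⟨r, hr, e1⟩ := hTz x
    have e2 : az f1 f2 (G0 u x) = (r : ℂ) * Complex.exp ((T x : ℂ) * Complex.I) := e1
    rw [hx] at e2
    have e3 : az f1 f2 (0 : E3) = 0 := by
      have := az_smul (f1 := f1) (f2 := f2) 0 (0 : E3)
      simpa using this
    rw [e3] at e2
    have hr' : (r : ℂ) ≠ 0 := by exact_mod_cast hr.ne'
    exact mul_ne_zero hr' (Complex.exp_ne_zero _) e2.symm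
  have hgp : ∀ x, 0 < gg n (G0 u x) := fun x => gg_pos hG (hGne x)
  refine ⟨S.card, ⟨⟨fun k => psi n (G0 u (ξ k)), fun k => T (ξ k), b, hcard, ?_, ?_, ?_, ?_, ?_, ?_, ?_⟩⟩⟩
  · intro k
    show psi n (G0 u (ξ (k + S.card))) = -psi n (G0 u (ξ k))
    rw [hξp, g0_anti h, psi_neg hG]
  · intro k
    exact psi_gg hG (hGne _)
  · intro k
    obtain ⟨r, hr, e1⟩ := hTz (ξ k)
    refine ⟨(gg n (G0 u (ξ k)))⁻¹ * r, mul_pos (inv_pos.2 (hgp _)) hr, ?_⟩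
    have e2 : az f1 f2 (G0 u (ξ k)) = (r : ℂ) * Complex.exp ((T (ξ k) : ℂ) * Complex.I) := e1
    show az f1 f2 ((gg n (G0 u (ξ k)))⁻¹ • G0 u (ξ k)) = _
    rw [az_smul, e2]
    push_cast
    ring
  · intro k
    exact hTm (hlt k)
  · intro k
    show T (ξ (k + S.card)) = T (ξ k) + π
    rw [hξp, hTp]
  · intro k s hs
    obtain ⟨j, hj⟩ : ∃ j, j = ⌊ξ k⌋ := ⟨_, rfl⟩
    have hj1 : (j : ℝ) ≤ ξ k := by rw [hj]; exact Int.floor_le _
    have hj2 : ξ k < (j : ℝ) + 1 := by rw [hj]; exact Int.lt_floor_add_one _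
    have hj3 : ξ (k + 1) ≤ (j : ℝ) + 1 := by
      by_contra hlt'
      rw [not_le] at hlt'
      exact hno k ((j : ℝ) + 1) ⟨hj2, hlt'⟩ (Or.inl ⟨j + 1, by push_cast; rfl⟩)
    obtain ⟨z, hz, e1⟩ := ex6_lin (u := u) (j := j) (x := ξ k) (y := ξ (k + 1)) (c1 := (1 - s) * (gg n (G0 u (ξ k)))⁻¹)
      (c2 := s * (gg n (G0 u (ξ (k + 1))))⁻¹) ⟨hj1, hj2.le⟩ ⟨hj1.trans (hlt k).le, hj3⟩ (hlt k)
      (mul_pos (by linarith [hs.2]) (inv_pos.2 (hgp _))) (mul_pos hs.1 (inv_pos.2 (hgp _)))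
    have e2 : seg (psi n (G0 u (ξ k))) (psi n (G0 u (ξ (k + 1)))) s =
        ((1 - s) * (gg n (G0 u (ξ k)))⁻¹) • G0 u (ξ k) + (s * (gg n (G0 u (ξ (k + 1))))⁻¹) • G0 u (ξ (k + 1)) := by
      unfold seg psi
      rw [smul_smul, smul_smul]
    show SAct n (b k) (seg (psi n (G0 u (ξ k))) (psi n (G0 u (ξ (k + 1)))) s)
    rw [e2, e1]
    refine (hb k z hz).smul ?_
    have h1 := mul_pos (show (0 : ℝ) < 1 - s by linarith [hs.2]) (inv_pos.2 (hgp (ξ k)))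
    have h2 := mul_pos hs.1 (inv_pos.2 (hgp (ξ (k + 1))))
    linarith
  · intro v hv
    obtain ⟨i, hi⟩ := h.vert v hv
    obtain ⟨k, hk⟩ := hbr (i : ℝ) (Or.inl ⟨i, rfl⟩)
    refine ⟨k, ?_⟩
    show psi n (G0 u (ξ k)) = v
    rw [hk, ex6_int, hi]
    exact psi_self hv.1

end H47A
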