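import Pool.Agent.Lib.H47A.EX1

/-! # H47A, chunks FAP1 (M), FAP2 (M/L), FAP3 (M): approximation by generic symmetric polytopes
K compact convex symmetric with interior point; then 0 is an interior point. FAP1 `exists_balls`: rho = gauge K (Mathlib), continuous, rho x > 0 for x != 0, K = {rho <= 1}, rho (-x) = rho x; rho is sublinear. For every unit vector x0 there is y0 with <y0, x> <= rho x
for all x and <y0, x0> = rho x0 (Hahn-Banach: `exists_extension_of_le_sublinear` from the line through x0, Riesz representation; or a supporting hyperplane of K at x0/rho x0). Put z0 = (1 + eps/2) y0: <z0, x0> > rho x0. With delta > 0 such that delta |x| <= (eps/2) rho x for all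
x: every y with |y - z0| < delta satisfies <y,x> <= (1+eps) rho x for all x, and for y near z0 (radius r(x0) <= delta), x near x0: <y,x> > rho x. By compactness of the unit sphere finitely many x0's suffice: balls B(c_a, r_a), a in Fin N: for every choice n_a in the balls:
for every unit x some a with <n_a,x> > rho x, and <n_a,x> <= (1+eps) rho x always.
FAP2 (FAp2.lean) `exists_generic`: choose n_a in the ball one after the other (induction on N, Fin.snoc / Fin.lastCases), such that for the chosen vectors: n_a x n_b != 0 (a != b), det3 n_a n_b n_c != 0 (distinct), and for distinct a,b,c,d and signs s: no u with <s_a n_a,u> = <s_b n_b,u> =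
<s_c n_c,u> = <s_d n_d,u> = 1. For the new vector p (`avoid_aff`): (1) <p, w_a> != 0 for some w_a != 0 orthogonal to n_a (then p is not a multiple of n_a) and p not in the plane w.r.t. itself (p != 0: <p, x> != 0); (2) <p, n_a x n_b> != 0; (3) for a,b,c and signs the
unique solution u of the three equations is not 0: <p,u> != 1, <p,u> != -1.
FAP3 (FAp3.lean) `approx`: n from FAP1, FAP2 (A = Fin N). bdd: for u != 0 some <n_a,u> > rho u > 0. three, four: signs. {gg n <= 1} subset K: x != 0 with gg n x <= 1: for x/|x| some a with <n_a,x> > rho x, so rho x < gg n x <= 1. K subset (1+eps) P: gg n x <= (1+eps) rho x (also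
for -n_a: <-n_a,x> = <n_a,-x> <= (1+eps) rho (-x)). -/

open Real Metric

namespace H47A

theorem fap1_nhds {K : Set E3} (hv : Convex ℝ K) (hi : (interior K).Nonempty) (hs : ∀ x ∈ K, -x ∈ K) : K ∈ nhds (0 : E3) := by
  obtain ⟨x0, hx0⟩ := hi
  obtain ⟨δ, hδ, hb⟩ := Metric.isOpen_iff.1 isOpen_interior _ hx0
  refine Filter.mem_of_superset (Metric.ball_mem_nhds 0 hδ) fun y hy => ?_
  rw [mem_ball_zero_iff] at hy
  have h1 : x0 + y ∈ K := interior_subset (hb (by rw [Metric.mem_ball, dist_eq_norm, add_sub_cancel_left]; exact hy))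
  have h2 : x0 - y ∈ K := interior_subset (hb (by
    rw [Metric.mem_ball, dist_eq_norm]
    have : x0 - y - x0 = -y := by abel
    rw [this, norm_neg]
    exact hy))
  have h3 := hs _ h2
  have h4 := hv h1 h3 (by norm_num : (0 : ℝ) ≤ 1 / 2) (by norm_num : (0 : ℝ) ≤ 1 / 2) (by norm_num)
  have h5 : (1 / 2 : ℝ) • (x0 + y) + (1 / 2 : ℝ) • -(x0 - y) = y := by
    have : -(x0 - y) = y - x0 := by abel
    rw [this, ← smul_add]
    have h6 : x0 + y + (y - x0) = (2 : ℝ) • y := by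
      rw [two_smul]
      abel
    rw [h6, smul_smul]
    norm_num
  rw [h5] at h4
  exact h4

theorem fap1_sup {K : Set E3} (hK : IsCompact K) (hv : Convex ℝ K) (h0 : K ∈ nhds (0 : E3)) {x0 : E3} (hx : x0 ≠ 0) :
    ∃ y : E3, (inner ℝ y x0 : ℝ) = gauge K x0 ∧ ∀ x : E3, (inner ℝ y x : ℝ) ≤ gauge K x := by
  have habs := absorbent_nhds_zero (𝕜 := ℝ) h0
  have hpos : 0 < gauge K x0 := (gauge_pos habs (NormedSpace.isVonNBounded_of_isBounded ℝ hK.isBounded)).2 hx
  have hcont : Continuous (gauge K) := continuous_gauge hv h0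
  have hs1 : (0 : E3) ∈ {x | gauge K x < 1} := by
    show gauge K 0 < 1
    rw [gauge_zero]
    exact one_pos
  have hs2 : Convex ℝ {x : E3 | gauge K x < 1} := by
    intro x hx y hy a b ha hb hab
    have hx' : gauge K x < 1 := hx
    have hy' : gauge K y < 1 := hy
    have h1 := gauge_add_le hv habs (a • x) (b • y)
    rw [gauge_smul_of_nonneg ha, gauge_smul_of_nonneg hb, smul_eq_mul, smul_eq_mul] at h1
    show gauge K (a • x + b • y) < 1
    rcases eq_or_lt_of_le ha with ha0 | ha0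
    · rw [← ha0] at h1 hab
      have hb1 : b = 1 := by linarith
      rw [hb1] at h1
      rw [← ha0, hb1]
      linarith
    · have h2 : a * gauge K x < a * 1 := mul_lt_mul_of_pos_left hx' ha0
      have h3 : b * gauge K y ≤ b * 1 := mul_le_mul_of_nonneg_left hy'.le hb
      linarith
  have hs3 : IsOpen {x : E3 | gauge K x < 1} := isOpen_lt hcont continuous_const
  have hx0 : (gauge K x0)⁻¹ • x0 ∉ {x : E3 | gauge K x < 1} := by
    intro h
    have h1 : gauge K ((gauge K x0)⁻¹ • x0) < 1 := h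
    rw [gauge_smul_of_nonneg (inv_nonneg.2 hpos.le), smul_eq_mul, inv_mul_cancel₀ hpos.ne'] at h1
    exact lt_irrefl _ h1
  obtain ⟨f, hf1, hf2⟩ := separate_convex_open_set hs1 hs2 hs3 hx0
  have hvw : ∀ w, (inner ℝ ((InnerProductSpace.toDual ℝ E3).symm f) w : ℝ) = f w := fun w =>
    InnerProductSpace.toDual_symm_apply
  refine ⟨(InnerProductSpace.toDual ℝ E3).symm f, ?_, fun x => ?_⟩
  · rw [hvw]
    rw [map_smul, smul_eq_mul, inv_mul_eq_div, div_eq_one_iff_eq hpos.ne'] at hf1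
    exact hf1
  · rw [hvw]
    by_contra hlt
    rw [not_le] at hlt
    obtain ⟨t, ht1, ht2⟩ := exists_between hlt
    have ht0 : 0 < t := lt_of_le_of_lt (gauge_nonneg x) ht1
    have h1 : t⁻¹ • x ∈ {x : E3 | gauge K x < 1} := by
      show gauge K (t⁻¹ • x) < 1
      rw [gauge_smul_of_nonneg (inv_nonneg.2 ht0.le), smul_eq_mul, inv_mul_lt_iff₀ ht0, mul_one]
      exact ht1
    have h2 := hf2 _ h1
    rw [map_smul, smul_eq_mul, inv_mul_lt_iff₀ ht0, mul_one] at h2
    linarith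

theorem fap1_loc {K : Set E3} (hK : IsCompact K) (hv : Convex ℝ K) (h0 : K ∈ nhds (0 : E3)) {ε : ℝ} (hε : 0 < ε)
    {x0 : E3} (hx : x0 ≠ 0) : ∃ (z : E3) (r s : ℝ), 0 < r ∧ 0 < s ∧
      (∀ y, ‖y - z‖ < r → ∀ x : E3, (inner ℝ y x : ℝ) ≤ (1 + ε) * gauge K x) ∧
      ∀ y x : E3, ‖y - z‖ < r → ‖x - x0‖ < s → gauge K x < inner ℝ y x := by
  have habs := absorbent_nhds_zero (𝕜 := ℝ) h0
  have hpos : 0 < gauge K x0 := (gauge_pos habs (NormedSpace.isVonNBounded_of_isBounded ℝ hK.isBounded)).2 hx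
  have hcont : Continuous (gauge K) := continuous_gauge hv h0
  obtain ⟨y0, hy1, hy2⟩ := fap1_sup hK hv h0 hx
  obtain ⟨R', hR'⟩ := hK.isBounded.subset_closedBall 0
  obtain ⟨R, hR0, hRR⟩ : ∃ R : ℝ, 0 < R ∧ R' ≤ R := ⟨max R' 1, lt_max_of_lt_right one_pos, le_max_left _ _⟩
  have hR : K ⊆ Metric.closedBall 0 R := hR'.trans (Metric.closedBall_subset_closedBall hRR)
  have hnorm : ∀ x : E3, ‖x‖ ≤ R * gauge K x := by
    intro x
    have := le_gauge_of_subset_closedBall habs hR0.le hR (x := x)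
    rwa [div_le_iff₀' hR0] at this
  have hU : IsOpen {p : E3 × E3 | gauge K p.2 < inner ℝ p.1 p.2} :=
    isOpen_lt (hcont.comp continuous_snd) (by fun_prop)
  have hmem : ((1 + ε / 2) • y0, x0) ∈ {p : E3 × E3 | gauge K p.2 < inner ℝ p.1 p.2} := by
    show gauge K x0 < inner ℝ ((1 + ε / 2) • y0) x0
    rw [inner_smul_left, hy1]
    show gauge K x0 < (1 + ε / 2) * gauge K x0
    nlinarith
  obtain ⟨ρ, hρ, hb⟩ := Metric.isOpen_iff.1 hU _ hmem
  refine ⟨(1 + ε / 2) • y0, min ρ (ε / (2 * R)), ρ, lt_min hρ (by positivity), hρ, ?_, ?_⟩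
  · intro y hy x
    have h1 : (inner ℝ y x : ℝ) = (1 + ε / 2) * inner ℝ y0 x + inner ℝ (y - (1 + ε / 2) • y0) x := by
      rw [inner_sub_left, inner_smul_left]
      show _ = (1 + ε / 2) * inner ℝ y0 x + (inner ℝ y x - (1 + ε / 2) * inner ℝ y0 x)
      ring
    have h2 := real_inner_le_norm (y - (1 + ε / 2) • y0) x
    have h3 : ‖y - (1 + ε / 2) • y0‖ ≤ ε / (2 * R) := (hy.trans_le (min_le_right _ _)).le
    have h4 := hnorm x
    have h5 := hy2 x
    have h6 : ‖y - (1 + ε / 2) • y0‖ * ‖x‖ ≤ ε / (2 * R) * (R * gauge K x) :=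
      mul_le_mul h3 h4 (norm_nonneg _) (by positivity)
    have h7 : ε / (2 * R) * (R * gauge K x) = ε / 2 * gauge K x := by
      field_simp
    rw [h7] at h6
    have h8 : (1 + ε / 2) * inner ℝ y0 x ≤ (1 + ε / 2) * gauge K x := mul_le_mul_of_nonneg_left h5 (by linarith)
    rw [h1]
    linarith
  · intro y x hy hx'
    have h1 : (y, x) ∈ Metric.ball ((1 + ε / 2) • y0, x0) ρ := by
      rw [Metric.mem_ball, Prod.dist_eq, dist_eq_norm, dist_eq_norm]
      exact max_lt (hy.trans_le (min_le_left _ _)) hx'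
    exact hb h1

theorem exists_balls {K : Set E3} (hK : IsCompact K) (hv : Convex ℝ K) (hi : (interior K).Nonempty)
    (hs : ∀ x ∈ K, -x ∈ K) {ε : ℝ} (hε : 0 < ε) : ∃ (N : ℕ) (c : Fin N → E3) (r : Fin N → ℝ), (∀ a, 0 < r a) ∧
      ∀ n : Fin N → E3, (∀ a, ‖n a - c a‖ < r a) →
        (∀ x : E3, x ≠ 0 → ∃ a, gauge K x < inner ℝ (n a) x) ∧ ∀ x : E3, ∀ a, (inner ℝ (n a) x : ℝ) ≤ (1 + ε) * gauge K x := by
  have h0 := fap1_nhds hv hi hs
  have hloc : ∀ x0 : E3, ∃ (z : E3) (r s : ℝ), x0 ≠ 0 → 0 < r ∧ 0 < s ∧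
      (∀ y, ‖y - z‖ < r → ∀ x : E3, (inner ℝ y x : ℝ) ≤ (1 + ε) * gauge K x) ∧
      ∀ y x : E3, ‖y - z‖ < r → ‖x - x0‖ < s → gauge K x < inner ℝ y x := by
    intro x0
    by_cases hx : x0 = 0
    · exact ⟨0, 0, 0, fun h => absurd hx h⟩
    · obtain ⟨z, r, s, h⟩ := fap1_loc hK hv h0 hε hx
      exact ⟨z, r, s, fun _ => h⟩
  choose z r s hz using hloc
  have hsph : ∀ x ∈ Metric.sphere (0 : E3) 1, x ≠ 0 := by
    intro x hx h
    rw [mem_sphere_zero_iff_norm, h, norm_zero] at hx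
    exact zero_ne_one hx
  obtain ⟨t, ht1, ht2⟩ := (isCompact_sphere (0 : E3) 1).elim_nhds_subcover (fun x => Metric.ball x (s x))
    fun x hx => Metric.ball_mem_nhds x (hz x (hsph x hx)).2.1
  refine ⟨t.card, fun a => z (t.equivFin.symm a).1, fun a => r (t.equivFin.symm a).1, fun a => ?_, fun n hn => ⟨fun x hx => ?_, fun x a => ?_⟩⟩
  · exact (hz _ (hsph _ (ht1 _ (t.equivFin.symm a).2))).1
  · have hxn : 0 < ‖x‖ := norm_pos_iff.2 hx
    have h1 : ‖x‖⁻¹ • x ∈ Metric.sphere (0 : E3) 1 := by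
      rw [mem_sphere_zero_iff_norm, norm_smul, norm_inv, norm_norm, inv_mul_cancel₀ hxn.ne']
    have h2 := ht2 h1
    rw [Set.mem_iUnion₂] at h2
    obtain ⟨x0, hx0, h3⟩ := h2
    refine ⟨t.equivFin ⟨x0, hx0⟩, ?_⟩
    have h4 := (hz x0 (hsph x0 (ht1 x0 hx0))).2.2.2 (n (t.equivFin ⟨x0, hx0⟩)) (‖x‖⁻¹ • x) (by
      have := hn (t.equivFin ⟨x0, hx0⟩)
      simpa using this) (by rwa [Metric.mem_ball, dist_eq_norm] at h3)
    rw [gauge_smul_of_nonneg (inv_nonneg.2 hxn.le), inner_smul_right, smul_eq_mul] at h4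
    exact lt_of_mul_lt_mul_left h4 (inv_nonneg.2 hxn.le)
  · exact (hz _ (hsph _ (ht1 _ (t.equivFin.symm a).2))).2.2.1 (n a) (hn a) x

end H47A
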