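import Pool.Agent.Lib.H47A.FAp2
import Pool.Agent.Lib.H47A.EGau

/-! # H47A, chunk FAP3 (M): see the docstring of FAp1.lean -/

open Real Metric

namespace H47A

theorem fap3_zero {K : Set E3} (hv : Convex ℝ K) (hi : (interior K).Nonempty)
    (hs : ∀ x ∈ K, -x ∈ K) : (0 : E3) ∈ interior K := by
  obtain ⟨x, hx⟩ := hi
  obtain ⟨ε, hε, hb⟩ := Metric.isOpen_iff.1 isOpen_interior x hx
  have hx' : -x ∈ interior K := by
    rw [mem_interior_iff_mem_nhds]
    refine Filter.mem_of_superset (Metric.ball_mem_nhds _ hε) ?_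
    intro y hy
    have : -y ∈ Metric.ball x ε := by
      rw [mem_ball, dist_eq_norm] at hy ⊢
      have e : -y - x = -(y - -x) := by abel
      rw [e, norm_neg]
      exact hy
    simpa using hs _ (interior_subset (hb this))
  have := hv.interior hx hx' (a := 1 / 2) (b := 1 / 2) (by norm_num) (by norm_num) (by norm_num)
  simpa using this

theorem approx {K : Set E3} (hK : IsCompact K) (hv : Convex ℝ K) (hi : (interior K).Nonempty)
    (hs : ∀ x ∈ K, -x ∈ K) {ε : ℝ} (hε : 0 < ε) : ∃ (N : ℕ) (n : Fin N → E3), Gnr n ∧ {u | gg n u ≤ 1} ⊆ K ∧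
      ∀ x ∈ K, gg n x ≤ 1 + ε := by
  obtain ⟨N, c, r, hr, hcr⟩ := exists_balls hK hv hi hs hε
  obtain ⟨n, h1, h2⟩ := fap2_exists N c r hr
  obtain ⟨h3, h4⟩ := hcr n h1
  have h0 := fap3_zero hv hi hs
  have hG : Gnr n := by
    refine ⟨?_, fun α β γ hab hbc hac => Pool.Agent.H47F.det_nn h2 hab hbc hac,
      fun α β γ δ h12 h13 h14 h23 h24 h34 u => Pool.Agent.H47F.no_four_cnd h2 h12 h13 h14 h23 h24 h34 u⟩
    intro u hu
    obtain ⟨a, ha⟩ := h3 u hu
    exact ⟨a, ((gauge_nonneg u).trans_lt ha).ne'⟩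
  refine ⟨N, n, hG, ?_, ?_⟩
  · intro u hu
    by_cases hu0 : u = 0
    · rw [hu0]; exact interior_subset h0
    · obtain ⟨a, ha⟩ := h3 u hu0
      have h5 : inner ℝ (n a) u ≤ gg n u := by
        have := lf_le_gg (n := n) (a, true) u
        simpa [lf, nn] using this
      have h6 : gauge K u < 1 := ha.trans_le (h5.trans hu)
      exact gauge_lt_one_subset_self hv (interior_subset h0)
        (absorbent_nhds_zero (mem_interior_iff_mem_nhds.1 h0)) h6
  · intro x hx
    haveI := egau_ne hG
    refine ciSup_le fun α => ?_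
    obtain ⟨a, b⟩ := α
    cases b
    · have := h4 (-x) a
      have h5 := gauge_le_one_of_mem (hs x hx)
      rw [inner_neg_right] at this
      simp only [lf, nn, Bool.false_eq_true, if_false, inner_neg_left]
      nlinarith
    · have := h4 x a
      have h5 := gauge_le_one_of_mem hx
      simp only [lf, nn, if_true]
      nlinarith

end H47A
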