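import Pool.Agent.Lib.H47A.FPr

/-! # H47A, chunk FPR2 (M): see the docstring of FPr.lean -/

open Real MeasureTheory

namespace H47A

theorem fpr2_sup {C : Set E3} (hC : IsCompact C) (hCv : Convex ℝ C) (hCi : (interior C).Nonempty) {y : E3}
    (hy : y ∈ frontier C) : ∃ v : E3, v ≠ 0 ∧ ∀ w ∈ C, (inner ℝ v (w - y) : ℝ) ≤ 0 := by
  obtain ⟨f, hf⟩ := geometric_hahn_banach_open_point hCv.interior isOpen_interior hy.2
  obtain ⟨w0, hw0⟩ := hCi
  have hv : ∀ w, (inner ℝ ((InnerProductSpace.toDual ℝ E3).symm f) w : ℝ) = f w := fun w =>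
    InnerProductSpace.toDual_symm_apply
  refine ⟨(InnerProductSpace.toDual ℝ E3).symm f, ?_, fun w hw => ?_⟩
  · intro h0
    have h1 := hf w0 hw0
    rw [← hv w0, ← hv y, h0, inner_zero_left, inner_zero_left] at h1
    exact lt_irrefl _ h1
  · rw [hv, map_sub]
    have h2 : w ∈ closure (interior C) := by
      rw [hCv.closure_interior_eq_closure_of_nonempty_interior ⟨w0, hw0⟩]
      exact subset_closure hw
    have h3 : closure (interior C) ⊆ {w | f w ≤ f y} :=
      closure_minimal (fun a ha => (hf a ha).le) (isClosed_le f.continuous continuous_const)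
    have h4 : f w ≤ f y := h3 h2
    linarith

theorem pr_surj {C D : Set E3} (hC : IsCompact C) (hCv : Convex ℝ C) (hCi : (interior C).Nonempty) (hD : IsCompact D)
    (hCD : C ⊆ D) {y : E3} (hy : y ∈ frontier C) : ∃ x ∈ frontier D, pr C x = y := by
  obtain ⟨v, hv0, hv⟩ := fpr2_sup hC hCv hCi hy
  have hyC : y ∈ C := hC.isClosed.frontier_subset hy
  have hvp : 0 < ‖v‖ := norm_pos_iff.2 hv0
  obtain ⟨R, hR⟩ := hD.isBounded.subset_closedBall 0
  have hcont : Continuous fun t : ℝ => y + t • v := by fun_prop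
  have hT : IsCompact {t : ℝ | 0 ≤ t ∧ y + t • v ∈ D} := by
    refine IsCompact.of_isClosed_subset (isCompact_Icc (a := (0 : ℝ)) (b := (R + ‖y‖) / ‖v‖)) ?_ ?_
    · exact (isClosed_le continuous_const continuous_id).inter (hD.isClosed.preimage hcont)
    · rintro t ⟨ht0, ht⟩
      refine ⟨ht0, ?_⟩
      rw [le_div_iff₀ hvp]
      have h1 := hR ht
      rw [mem_closedBall_zero_iff] at h1
      have h2 : ‖t • v‖ ≤ ‖y + t • v‖ + ‖y‖ := by
        have := norm_sub_le (y + t • v) y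
        rwa [add_sub_cancel_left] at this
      rw [norm_smul, Real.norm_of_nonneg ht0] at h2
      linarith
  have hTn : {t : ℝ | 0 ≤ t ∧ y + t • v ∈ D}.Nonempty := ⟨0, le_rfl, by rw [zero_smul, add_zero]; exact hCD hyC⟩
  obtain ⟨s, hs⟩ : ∃ s, s = sSup {t : ℝ | 0 ≤ t ∧ y + t • v ∈ D} := ⟨_, rfl⟩
  have hsm := hT.sSup_mem hTn
  rw [← hs] at hsm
  obtain ⟨hs0, hsD⟩ := hsm
  refine ⟨y + s • v, ⟨subset_closure hsD, fun hint => ?_⟩, ?_⟩
  · obtain ⟨ε, hε, hb⟩ := Metric.isOpen_iff.1 isOpen_interior _ hint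
    have h4 : y + (s + ε / (2 * ‖v‖)) • v ∈ D := by
      refine interior_subset (hb ?_)
      have e : y + (s + ε / (2 * ‖v‖)) • v - (y + s • v) = (ε / (2 * ‖v‖)) • v := by
        rw [add_smul]
        abel
      rw [Metric.mem_ball, dist_eq_norm, e, norm_smul, Real.norm_of_nonneg (by positivity)]
      have : ε / (2 * ‖v‖) * ‖v‖ = ε / 2 := by
        field_simp
      rw [this]
      linarith
    have hpos : 0 < ε / (2 * ‖v‖) := by positivity
    have h5 := le_csSup hT.bddAbove (show s + ε / (2 * ‖v‖) ∈ {t : ℝ | 0 ≤ t ∧ y + t • v ∈ D} from ⟨by linarith, h4⟩)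
    rw [← hs] at h5
    linarith
  · refine pr_unique hC.isClosed hCv hyC fun w hw => ?_
    rw [add_sub_cancel_left, inner_smul_left]
    have h6 := hv w hw
    show s * (inner ℝ v (w - y) : ℝ) ≤ 0
    nlinarith

theorem haus_mono {C D : Set E3} (hC : IsCompact C) (hCv : Convex ℝ C) (hCi : (interior C).Nonempty) (hD : IsCompact D)
    (hCD : C ⊆ D) : Measure.hausdorffMeasure 2 (frontier C) ≤ Measure.hausdorffMeasure 2 (frontier D) := by
  have hn : C.Nonempty := hCi.mono interior_subset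
  have h1 := (pr_lip hC.isClosed hCv hn).hausdorffMeasure_image_le (d := 2) (by norm_num) (frontier D)
  have h2 : frontier C ⊆ pr C '' frontier D := by
    intro y hy
    obtain ⟨x, hx, h⟩ := pr_surj hC hCv hCi hD hCD hy
    exact ⟨x, hx, h⟩
  refine (measure_mono h2).trans (h1.trans ?_)
  simp

theorem fpr2_pl {C D : Set E3} (hC : IsCompact C) (hCv : Convex ℝ C) (hn : C.Nonempty)
    (hCD : C ⊆ D) (hs : ∀ x ∈ C, -x ∈ C) (x : E3) :
    pl (frontier C) (pr C x) (-pr C x) ≤ pl (frontier D) x (-x) := by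
  unfold pl
  refine le_iInf fun γ => le_iInf fun h1 => le_iInf fun h2 => le_iInf fun h3 => le_iInf fun h4 => ?_
  have hl := pr_lip hC.isClosed hCv hn
  refine iInf_le_of_le (pr C ∘ γ) (iInf_le_of_le (hl.continuous.comp h1) (iInf_le_of_le ?_ (iInf_le_of_le ?_
    (iInf_le_of_le ?_ ?_))))
  · show pr C (γ 0) = _
    rw [h2]
  · show pr C (γ 1) = _
    rw [h3, pr_neg hC.isClosed hCv hn hs]
  · intro t ht
    exact pr_frontier hC.isClosed hCv hn fun h => (h4 t ht).2 (interior_mono hCD h)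
  · have h5 := (hl.lipschitzOnWith (s := Set.univ)).comp_eVariationOn_le (g := γ) (s := Set.Icc (0 : ℝ) 1) (fun _ _ => trivial)
    simpa using h5

theorem pl_mono2 {C D : Set E3} (hC : IsCompact C) (hCv : Convex ℝ C) (hCi : (interior C).Nonempty) (hD : IsCompact D)
    (hCD : C ⊆ D) (hs : ∀ x ∈ C, -x ∈ C) :
    (⨆ y ∈ frontier C, pl (frontier C) y (-y)) ≤ ⨆ x ∈ frontier D, pl (frontier D) x (-x) := by
  refine iSup₂_le fun y hy => ?_
  obtain ⟨x, hx, h⟩ := pr_surj hC hCv hCi hD hCD hy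
  rw [← h]
  exact (fpr2_pl hC hCv (hCi.mono interior_subset) hCD hs x).trans
    (le_iSup₂ (f := fun x (_ : x ∈ frontier D) => pl (frontier D) x (-x)) x hx)

end H47A
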