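import Pool.Agent.Lib.H47A.FAp3
import Pool.Agent.Lib.H47A.FPr2
import Pool.Agent.Lib.H47A.EPoly
import Pool.Agent.Lib.H47F.Path

/-! # H47A, chunk FMAIN (M): the theorem for symmetric convex bodies
Let L = sup over x in frontier K of pl (frontier K) x (-x). If L is infinite nothing to prove. For eps > 0 take n from `approx`, P = {gg n <= 1} (`poly_body`: compact convex with interior, frontier P = bd n, symmetric by gg_neg). `pl_mono2` (P subset K): the supremum for P is <= L.
(1+eps) P = image of P under the homothety contains K (`gg_smul`); `haus_mono`: mu(frontier K) <= mu(frontier ((1+eps) • P)) = mu((1+eps) • frontier P) = (1+eps)^2 mu(bd n) (Measure.hausdorffMeasure_smul). With `poly_main`: ofReal(pi/4) mu(frontier K) <= (1+eps)^2 ofReal(pi/2) L^2.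
Let eps -> 0 (L finite: ENNReal, continuity or le_of_forall).
`sym_center`: K symmetric about c: translate by -c: frontier, Hausdorff measure and length distances are translation invariant. `frozen_form`: the supremum over all pairs is at least the supremum over antipodal pairs. -/

open Real MeasureTheory Filter

open scoped Pointwise Topology

namespace H47A

theorem fmain_eps {K : Set E3} (hK : IsCompact K) (hv : Convex ℝ K) (hi : (interior K).Nonempty)
    (hs : ∀ x ∈ K, -x ∈ K) {ε : ℝ} (hε : 0 < ε) : ENNReal.ofReal (π / 4) * Measure.hausdorffMeasure 2 (frontier K) ≤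
      ENNReal.ofReal ((1 + ε) ^ 2) *
        (ENNReal.ofReal (π / 2) * (⨆ x ∈ frontier K, pl (frontier K) x (-x)) ^ 2) := by
  obtain ⟨N, n, hG, hPK, hKP⟩ := approx hK hv hi hs hε
  obtain ⟨hPc, hPv, hPi, hPf⟩ := poly_body hG
  set P : Set E3 := {u | gg n u ≤ 1} with hP
  have hPs : ∀ x ∈ P, -x ∈ P := fun x hx => by
    show gg n (-x) ≤ 1
    rw [gg_neg hG]; exact hx
  have h1 := pl_mono2 hPc hPv hPi hK hPK hPs
  rw [hPf] at h1
  set c : ℝ := 1 + ε with hc
  have hc0 : 0 < c := by positivity
  have h2 : K ⊆ c • P := by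
    intro x hx
    refine ⟨c⁻¹ • x, ?_, by simp [smul_smul, hc0.ne']⟩
    show gg n (c⁻¹ • x) ≤ 1
    rw [gg_smul hG (inv_nonneg.2 hc0.le), inv_mul_le_iff₀ hc0, mul_one]
    exact hKP x hx
  have h3 := haus_mono hK hv hi (hPc.smul c) h2
  have h4 : frontier (c • P) = c • bd n := by
    rw [← hPf]
    exact ((Homeomorph.smulOfNeZero c hc0.ne').image_frontier P).symm
  rw [h4, Measure.hausdorffMeasure_smul₀ (by norm_num) hc0.ne'] at h3
  have h5 := poly_main hG
  have h6 : ((‖c‖₊ ^ (2 : ℝ) : NNReal) : ENNReal) = ENNReal.ofReal (c ^ 2) := by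
    rw [ENNReal.ofReal, ← ENNReal.coe_inj.2 (a := _) rfl]
    congr 1
    ext
    simp [Real.norm_of_nonneg hc0.le, Real.coe_toNNReal _ (sq_nonneg c)]
  calc ENNReal.ofReal (π / 4) * Measure.hausdorffMeasure 2 (frontier K)
      ≤ ENNReal.ofReal (π / 4) * (ENNReal.ofReal (c ^ 2) * Measure.hausdorffMeasure 2 (bd n)) := by
        gcongr
        rw [← h6]
        exact h3
    _ = ENNReal.ofReal (c ^ 2) * (ENNReal.ofReal (π / 4) * Measure.hausdorffMeasure 2 (bd n)) := by ring
    _ ≤ ENNReal.ofReal (c ^ 2) * (ENNReal.ofReal (π / 2) * (⨆ x ∈ bd n, pl (bd n) x (-x)) ^ 2) := by gcongr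
    _ ≤ _ := by gcongr

theorem sym_zero {K : Set E3} (hK : IsCompact K) (hv : Convex ℝ K) (hi : (interior K).Nonempty)
    (hs : ∀ x ∈ K, -x ∈ K) : ENNReal.ofReal (π / 4) * Measure.hausdorffMeasure 2 (frontier K) ≤
      ENNReal.ofReal (π / 2) * (⨆ x ∈ frontier K, pl (frontier K) x (-x)) ^ 2 := by
  set Y := ENNReal.ofReal (π / 2) * (⨆ x ∈ frontier K, pl (frontier K) x (-x)) ^ 2 with hY
  by_cases hYt : Y = ⊤
  · rw [hYt]; exact le_top
  have h1 : Tendsto (fun k : ℕ => ENNReal.ofReal ((1 + 1 / ((k : ℝ) + 1)) ^ 2) * Y) atTop (𝓝 (ENNReal.ofReal ((1 + 0) ^ 2) * Y)) := by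
    refine ENNReal.Tendsto.mul_const (ENNReal.tendsto_ofReal ?_) (Or.inr hYt)
    exact (tendsto_const_nhds.add tendsto_one_div_add_atTop_nhds_zero_nat).pow 2
  have h2 : ENNReal.ofReal ((1 + 0) ^ 2) * Y = Y := by simp
  rw [h2] at h1
  exact ge_of_tendsto' h1 fun k => fmain_eps hK hv hi hs (by positivity)

theorem sym_center {K : Set E3} (hK : IsCompact K) (hv : Convex ℝ K) (hi : (interior K).Nonempty) (c : E3)
    (hs : ∀ x ∈ K, (2 : ℝ) • c - x ∈ K) : ENNReal.ofReal (π / 4) * Measure.hausdorffMeasure 2 (frontier K) ≤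
      ENNReal.ofReal (π / 2) * (⨆ x ∈ frontier K, pl (frontier K) x ((2 : ℝ) • c - x)) ^ 2 := by
  set e : E3 ≃ᵢ E3 := IsometryEquiv.addRight c with he
  set K' : Set E3 := e ⁻¹' K with hK'
  have hmem : ∀ x, x ∈ K' ↔ x + c ∈ K := fun x => Iff.rfl
  have hfr : frontier K' = e ⁻¹' frontier K := (e.toHomeomorph.preimage_frontier K).symm
  have hint : interior K' = e ⁻¹' interior K := (e.toHomeomorph.preimage_interior K).symm
  have h1 := sym_zero (K := K') (e.toHomeomorph.isCompact_preimage.2 hK) (by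
    intro x hx y hy a b ha hb hab
    rw [hmem] at hx hy ⊢
    have := hv hx hy ha hb hab
    convert this using 1
    rw [smul_add, smul_add]
    have : c = a • c + b • c := by rw [← add_smul, hab, one_smul]
    nth_rewrite 1 [this]
    abel) (by
    obtain ⟨x, hx⟩ := hi
    refine ⟨x - c, ?_⟩
    rw [hint]
    show x - c + c ∈ interior K
    simpa using hx) (by
    intro x hx
    rw [hmem] at hx ⊢
    have := hs _ hx
    convert this using 1
    rw [two_smul]
    abel)
  have h2 : Measure.hausdorffMeasure 2 (frontier K') = Measure.hausdorffMeasure 2 (frontier K) := by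
    rw [hfr]
    exact e.hausdorffMeasure_preimage 2 _
  rw [h2] at h1
  refine h1.trans (mul_le_mul' le_rfl (pow_le_pow_left₀ bot_le ?_ 2))
  refine iSup₂_le fun x hx => ?_
  have hx' : x + c ∈ frontier K := by
    rw [hfr] at hx
    exact hx
  refine le_trans ?_ (le_iSup₂ (f := fun y (_ : y ∈ frontier K) => pl (frontier K) y ((2 : ℝ) • c - y)) (x + c) hx')
  have h3 := Pool.Agent.H47F.pl_map (S := frontier K) (T := frontier K') (f := fun z => z - c) one_ne_zero
    (LipschitzWith.of_dist_le_mul fun a b => by simp) (by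
      intro z hz
      rw [hfr]
      show z - c + c ∈ frontier K
      simpa using hz) (x + c) ((2 : ℝ) • c - (x + c))
  have e1 : x + c - c = x := by abel
  have e2 : (2 : ℝ) • c - (x + c) - c = -x := by rw [two_smul]; abel
  simp only [e1, e2, ENNReal.coe_one, one_mul] at h3
  exact h3

end H47A
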