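import Pool.Agent.Lib.H47A.EFDefs

/-! # H47A, chunks FPR1 (M), FPR2 (M): nearest point projection
FPR1: C closed convex nonempty; `exists_norm_eq_iInf_of_complete_convex` and `norm_eq_iInf_iff_real_inner_le_zero` give the point pr C x with <x - pr x, w - pr x> <= 0 for all w in C. `pr_lip`: add the inequalities for x (w = pr y) and
y (w = pr x): |pr x - pr y|^2 <= <x - y, pr x - pr y>. `pr_unique`: y in C with <x - y, w - y> <= 0 for all w in C is pr C x. `pr_neg`: by uniqueness. `pr_frontier`: x not in interior C; if x in C then pr x = x in frontier C (C closed); if x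
not in C: pr x in interior C would allow w = pr x + t (x - pr x), t > 0 small, giving t |x - pr x|^2 <= 0.
FPR2 (FPr2.lean): C, D compact convex, C subset D. `pr_surj`: y in frontier C: supporting functional (geometric Hahn-Banach, y not in interior C: `geometric_hahn_banach_open_point` for the open convex set interior C, extended to C = closure of the
interior; or the nearest point characterisation of points outside C converging to y and compactness of the unit sphere): v != 0 with <v, w - y> <= 0 for w in C. t* = max {t >= 0 : y + t v in D} (compact, contains 0); x = y + t* v is in frontier D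
(otherwise t* is not maximal), and y = pr C x by `pr_unique`.
`haus_mono`: frontier C is the image of frontier D under the 1-Lipschitz map pr C (x in frontier D is not in interior C: interior C subset interior D): LipschitzWith.hausdorffMeasure_image_le.
`pl_mono2`: C, D symmetric; y in frontier C, y = pr C x, x in frontier D; a path from x to -x in frontier D is mapped by pr C to a path from y to -y in frontier C of smaller variation (LipschitzWith.comp / eVariationOn of a composition with a
1-Lipschitz map). -/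

open Real MeasureTheory

namespace H47A

open Classical in
/-- Nearest point of `C`. -/
noncomputable def pr (C : Set E3) (x : E3) : E3 :=
  if h : ∃ v ∈ C, ∀ w ∈ C, (inner ℝ (x - v) (w - v) : ℝ) ≤ 0 then h.choose else 0

theorem pr_mem {C : Set E3} (hc : IsClosed C) (hv : Convex ℝ C) (hn : C.Nonempty) (x : E3) :
    pr C x ∈ C ∧ ∀ w ∈ C, (inner ℝ (x - pr C x) (w - pr C x) : ℝ) ≤ 0 := by
  have h : ∃ v ∈ C, ∀ w ∈ C, (inner ℝ (x - v) (w - v) : ℝ) ≤ 0 := by
    obtain ⟨v, hvC, h1⟩ := exists_norm_eq_iInf_of_complete_convex hn hc.isComplete hv x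
    exact ⟨v, hvC, (norm_eq_iInf_iff_real_inner_le_zero hv hvC).1 h1⟩
  have h2 : pr C x = h.choose := dif_pos h
  rw [h2]
  exact h.choose_spec

theorem fpr_alg (x y p q : E3) (h1 : (inner ℝ (x - p) (q - p) : ℝ) ≤ 0) (h2 : (inner ℝ (y - q) (p - q) : ℝ) ≤ 0) :
    ‖p - q‖ ^ 2 ≤ inner ℝ (x - y) (p - q) := by
  have h3 : (inner ℝ (x - p) (q - p) : ℝ) = -(inner ℝ (x - p) (p - q) : ℝ) := by
    rw [← inner_neg_right, neg_sub]
  have h4 : (inner ℝ (x - y) (p - q) : ℝ) = inner ℝ (x - p) (p - q) - inner ℝ (y - q) (p - q) + inner ℝ (p - q) (p - q) := by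
    rw [← inner_sub_left, ← inner_add_left]
    congr 1
    abel
  rw [real_inner_self_eq_norm_sq] at h4
  linarith

theorem pr_lip {C : Set E3} (hc : IsClosed C) (hv : Convex ℝ C) (hn : C.Nonempty) : LipschitzWith 1 (pr C) := by
  refine LipschitzWith.of_dist_le_mul fun x y => ?_
  obtain ⟨h1, h2⟩ := pr_mem hc hv hn x
  obtain ⟨h3, h4⟩ := pr_mem hc hv hn y
  have h5 := fpr_alg x y (pr C x) (pr C y) (h2 _ h3) (h4 _ h1)
  have h6 := real_inner_le_norm (x - y) (pr C x - pr C y)
  rw [dist_eq_norm, dist_eq_norm, NNReal.coe_one, one_mul]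
  rcases eq_or_lt_of_le (norm_nonneg (pr C x - pr C y)) with h7 | h7
  · rw [← h7]
    exact norm_nonneg _
  · nlinarith

theorem pr_unique {C : Set E3} (hc : IsClosed C) (hv : Convex ℝ C) {x y : E3} (hy : y ∈ C)
    (h : ∀ w ∈ C, (inner ℝ (x - y) (w - y) : ℝ) ≤ 0) : pr C x = y := by
  obtain ⟨h1, h2⟩ := pr_mem hc hv ⟨y, hy⟩ x
  have h3 := fpr_alg x x (pr C x) y (h2 _ hy) (h _ h1)
  rw [sub_self, inner_zero_left] at h3
  have h4 : ‖pr C x - y‖ = 0 := by
    have := norm_nonneg (pr C x - y)
    nlinarith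
  exact sub_eq_zero.1 (norm_eq_zero.1 h4)

theorem pr_neg {C : Set E3} (hc : IsClosed C) (hv : Convex ℝ C) (hn : C.Nonempty) (hs : ∀ x ∈ C, -x ∈ C) (x : E3) :
    pr C (-x) = -pr C x := by
  obtain ⟨h1, h2⟩ := pr_mem hc hv hn x
  refine pr_unique hc hv (hs _ h1) fun w hw => ?_
  have h3 := h2 (-w) (hs w hw)
  have e1 : -x - -pr C x = -(x - pr C x) := by abel
  have e2 : w - -pr C x = -(-w - pr C x) := by abel
  rw [e1, e2, inner_neg_neg]
  exact h3

theorem pr_frontier {C : Set E3} (hc : IsClosed C) (hv : Convex ℝ C) (hn : C.Nonempty) {x : E3}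
    (hx : x ∉ interior C) : pr C x ∈ frontier C := by
  obtain ⟨h1, h2⟩ := pr_mem hc hv hn x
  refine ⟨subset_closure h1, fun h3 => ?_⟩
  have hne : pr C x ≠ x := by
    intro h
    rw [h] at h3
    exact hx h3
  have hpos : 0 < ‖x - pr C x‖ := norm_pos_iff.2 (sub_ne_zero.2 hne.symm)
  obtain ⟨ε, hε, hb⟩ := Metric.isOpen_iff.1 isOpen_interior _ h3
  have h4 : pr C x + (ε / (2 * ‖x - pr C x‖)) • (x - pr C x) ∈ C := by
    refine interior_subset (hb ?_)
    rw [Metric.mem_ball, dist_eq_norm, add_sub_cancel_left, norm_smul, Real.norm_of_nonneg (by positivity)]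
    have : ε / (2 * ‖x - pr C x‖) * ‖x - pr C x‖ = ε / 2 := by
      field_simp
    rw [this]
    linarith
  have h5 := h2 _ h4
  rw [add_sub_cancel_left, inner_smul_right, real_inner_self_eq_norm_sq] at h5
  have : 0 < ε / (2 * ‖x - pr C x‖) * ‖x - pr C x‖ ^ 2 := by positivity
  linarith

end H47A
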