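import Pool.Agent.Lib.H47A.PDefs

/-! # H47A, chunk PCS (M): the pushed loops as chord systems
`mkCS`: n = length + 1 is odd; `per`: (t + n) % n = t % n; `nv`: list entries are no integers, i + m + e is no integer as
0 < |e| < 1/2; `inj`: s, t with different residues: two different list entries (Pairwise Nq, Nq symmetric), or a list entry and
i + m + e (`Small.nq`, Nq is invariant under adding m). `mkCS_X`: X t = Y (t-1) + m is pX (t % n) up to 2m when t % n = 0.
`mk_il`: il of the systems in terms of pX, pY (il_per1, il_per3).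
`mk_simple`, `mk_gen`, `mk_once`: from Small.il and the hypotheses (indices s = t % n <= length). -/

open Real Finset

namespace H47A

variable {m : ℕ} {l : Fin m → List ℝ} {e0 : ℝ}

theorem pcs_small {e : ℝ} (hs : Small m l e0) (he : |e| = e0) (k : ℤ) : e ≠ k := by
  intro h
  have h1 := hs.pos
  have h2 := hs.lt
  rw [← he, h] at h1 h2
  have h3 : |k| < 1 := by
    have : |(k : ℝ)| < 1 := by linarith
    exact_mod_cast this
  rw [Int.abs_lt_one_iff] at h3
  rw [h3] at h1
  simp at h1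

/-- The residue. -/
def pcs_r (n : ℕ) (t : ℤ) : ℕ := (t % (n : ℤ)).toNat

theorem pcs_r_lt {n : ℕ} (hn : 0 < n) (t : ℤ) : pcs_r n t < n := by
  unfold pcs_r
  have h1 := Int.emod_lt_of_pos t (by exact_mod_cast hn : (0 : ℤ) < n)
  have h2 := Int.emod_nonneg t (by exact_mod_cast hn.ne' : (n : ℤ) ≠ 0)
  omega

theorem pcs_r_cast {n : ℕ} (hn : 0 < n) (t : ℤ) : ((pcs_r n t : ℕ) : ℤ) = t % n := by
  unfold pcs_r
  exact Int.toNat_of_nonneg (Int.emod_nonneg t (by exact_mod_cast hn.ne'))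

theorem pcs_r_ne {n : ℕ} (hn : 0 < n) {s t : ℤ} (h : ¬ (n : ℤ) ∣ s - t) : pcs_r n s ≠ pcs_r n t := by
  intro h1
  apply h
  apply Int.dvd_of_emod_eq_zero
  have h2 : s % (n : ℤ) = t % n := by rw [← pcs_r_cast hn, ← pcs_r_cast hn, h1]
  exact Int.emod_eq_emod_iff_emod_sub_eq_zero.1 h2

theorem pcs_r_eq {n : ℕ} (hn : 0 < n) {s t : ℤ} (h : pcs_r n s = pcs_r n t) : (n : ℤ) ∣ s - t := by
  by_contra hc
  exact pcs_r_ne hn hc h

theorem pcs_r_nat {n s : ℕ} (hs : s < n) : pcs_r n (s : ℤ) = s := by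
  unfold pcs_r
  rw [Int.emod_eq_of_lt (by positivity) (by exact_mod_cast hs), Int.toNat_natCast]

theorem pcs_nv (hl : GenFam m l) (hs : Small m l e0) (i : Fin m) {e : ℝ} (he : |e| = e0) (s : ℕ) (k : ℤ) :
    pY m (l i) (i : ℕ) e s ≠ k := by
  unfold pY
  split_ifs with h
  · rw [List.getD_eq_getElem _ _ h]
    exact hl.nv i _ (List.getElem_mem h) k
  · intro h1
    apply pcs_small hs he (k - i - m)
    push_cast
    linarith

theorem pcs_end (hs : Small m l e0) (i j : Fin m) {e : ℝ} (he : |e| = e0) {y : ℝ} (hy : y ∈ l j) :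
    Nq m ((i : ℕ) + m + e) y := by
  have h1 := dex2_nq_shift (hs.nq i j e he.le y hy)
  rwa [show ((i : ℕ) : ℝ) + e + m = (i : ℕ) + m + e by ring] at h1

theorem pcs_inj (hl : GenFam m l) (hs : Small m l e0) (i : Fin m) {e : ℝ} (he : |e| = e0) {s t : ℕ}
    (h1 : s ≤ (l i).length) (h2 : t ≤ (l i).length) (hst : s ≠ t) :
    Nq m (pY m (l i) (i : ℕ) e s) (pY m (l i) (i : ℕ) e t) := by
  unfold pY
  split_ifs with ha hb hb
  · rw [List.getD_eq_getElem _ _ ha, List.getD_eq_getElem _ _ hb]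
    have h3 := hl.nq i
    rw [List.pairwise_iff_getElem] at h3
    rcases Nat.lt_or_gt_of_ne hst with h | h
    · exact h3 s t ha hb h
    · exact (h3 t s hb ha h).symm
  · rw [List.getD_eq_getElem _ _ ha]
    exact (pcs_end hs i i he (List.getElem_mem ha)).symm
  · rw [List.getD_eq_getElem _ _ hb]
    exact pcs_end hs i i he (List.getElem_mem hb)
  · omega

/-- The pushed loop. -/
noncomputable def mkCS (hm : 0 < m) (hl : GenFam m l) (hs : Small m l e0) (i : Fin m) (e : ℝ) (he : |e| = e0) : CS m where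
  n := (l i).length + 1
  odd := (hl.even i).add_one
  Y := mkY m (l i) (i : ℕ) e
  per := by
    intro t
    unfold mkY
    rw [Int.add_emod_right]
  nv := by
    intro t k
    exact pcs_nv hl hs i he _ k
  inj := by
    intro s t hst
    have hn : 0 < (l i).length + 1 := Nat.succ_pos _
    exact pcs_inj hl hs i he (Nat.le_of_lt_succ (pcs_r_lt hn s)) (Nat.le_of_lt_succ (pcs_r_lt hn t)) (pcs_r_ne hn hst)

theorem mkCS_Y (hm : 0 < m) (hl : GenFam m l) (hs : Small m l e0) (i : Fin m) (e : ℝ) (he : |e| = e0) (t : ℤ) :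
    (mkCS hm hl hs i e he).Y t = pY m (l i) (i : ℕ) e (t % (((l i).length + 1 : ℕ) : ℤ)).toNat := by
  rfl

theorem mkCS_X (hm : 0 < m) (hl : GenFam m l) (hs : Small m l e0) (i : Fin m) (e : ℝ) (he : |e| = e0) (t : ℤ) :
    (mkCS hm hl hs i e he).X t = pX m (l i) (i : ℕ) e (t % (((l i).length + 1 : ℕ) : ℤ)).toNat +
      (if t % (((l i).length + 1 : ℕ) : ℤ) = 0 then 2 * (m : ℝ) else 0) := by
  unfold CS.X
  rw [mkCS_Y]
  obtain ⟨n, hn⟩ : ∃ n : ℕ, n = (l i).length + 1 := ⟨_, rfl⟩
  have hn0 : (0 : ℤ) < n := by rw [hn]; positivity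
  rw [← hn]
  have hm1 := Int.emod_lt_of_pos t hn0
  have hm2 := Int.emod_nonneg t hn0.ne'
  have hsub : (t - 1) % (n : ℤ) = (t % n - 1) % n := by
    rw [Int.sub_emod t 1, Int.sub_emod (t % n) 1, Int.emod_emod_of_dvd t (dvd_refl _)]
  by_cases h0 : t % (n : ℤ) = 0
  · rw [if_pos h0, h0]
    have h1 : ((t - 1) % (n : ℤ)).toNat = n - 1 := by
      rw [hsub, h0, zero_sub]
      have h2 : (-1 : ℤ) % n = n - 1 := by
        rw [← Int.add_mul_emod_self_left (-1) (n : ℤ) 1, mul_one]
        rw [Int.emod_eq_of_lt (by omega) (by omega)]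
        ring
      rw [h2]
      omega
    rw [h1]
    have h3 : ¬ n - 1 < (l i).length := by omega
    unfold pY pX
    rw [if_neg h3, Int.toNat_zero, if_pos rfl]
    ring
  · rw [if_neg h0, add_zero]
    have h1 : ((t - 1) % (n : ℤ)).toNat = (t % (n : ℤ)).toNat - 1 := by
      rw [hsub, Int.emod_eq_of_lt (by omega) (by omega)]
      omega
    rw [h1]
    have h3 : (t % (n : ℤ)).toNat - 1 < (l i).length := by omega
    have h4 : ¬ (t % (n : ℤ)).toNat = 0 := by omega
    unfold pY pX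
    rw [if_pos h3, if_neg h4]

/-- The crossing signs of the systems in terms of the pushed chords. -/
theorem pcs_il (hm : 0 < m) (hl : GenFam m l) (hs : Small m l e0) (i j : Fin m) (e e' : ℝ) (he : |e| = e0)
    (he' : |e'| = e0) (s t : ℤ) :
    il m ((mkCS hm hl hs i e he).X s) ((mkCS hm hl hs i e he).Y s) ((mkCS hm hl hs j e' he').X t)
      ((mkCS hm hl hs j e' he').Y t) =
    il m (pX m (l i) (i : ℕ) e (pcs_r ((l i).length + 1) s)) (pY m (l i) (i : ℕ) e (pcs_r ((l i).length + 1) s))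
      (pX m (l j) (j : ℕ) e' (pcs_r ((l j).length + 1) t)) (pY m (l j) (j : ℕ) e' (pcs_r ((l j).length + 1) t)) := by
  rw [mkCS_X, mkCS_X, mkCS_Y, mkCS_Y]
  unfold pcs_r
  split_ifs
  · rw [il_per1 hm, il_per3 hm]
  · rw [il_per1 hm, add_zero]
  · rw [add_zero, il_per3 hm]
  · rw [add_zero, add_zero]

theorem mk_simple (hm : 0 < m) (hl : GenFam m l) (hs : Small m l e0) (i : Fin m) (e : ℝ) (he : |e| = e0)
    (hx : ∀ s t : ℕ, s ≤ (l i).length → t ≤ (l i).length → s ≠ t → xs m l i i s t = 1) :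
    (mkCS hm hl hs i e he).Simple := by
  intro s t hst
  have hn : 0 < (l i).length + 1 := Nat.succ_pos _
  have h1 : pcs_r ((l i).length + 1) s ≠ pcs_r ((l i).length + 1) t := pcs_r_ne hn hst
  have h2 := Nat.le_of_lt_succ (pcs_r_lt hn s)
  have h3 := Nat.le_of_lt_succ (pcs_r_lt hn t)
  rw [pcs_il, hs.il i i e e he.le he.le _ _ h2 h3 (fun h => h1 (congrArg Prod.snd h))]
  exact hx _ _ h2 h3 h1

theorem mk_gen (hm : 0 < m) (hl : GenFam m l) (hs : Small m l e0) {i j : Fin m} (hij : i ≠ j) (e e' : ℝ)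
    (he : |e| = e0) (he' : |e'| = e0) : GenPos (mkCS hm hl hs i e he) (mkCS hm hl hs j e' he') := by
  intro s t
  rw [mkCS_Y, mkCS_Y]
  unfold pY
  split_ifs with ha hb hb
  · rw [List.getD_eq_getElem _ _ ha, List.getD_eq_getElem _ _ hb]
    exact hl.nq' i j hij _ (List.getElem_mem ha) _ (List.getElem_mem hb)
  · rw [List.getD_eq_getElem _ _ ha]
    exact (pcs_end hs j i he' (List.getElem_mem ha)).symm
  · rw [List.getD_eq_getElem _ _ hb]
    exact pcs_end hs i j he (List.getElem_mem hb)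
  · intro k hk
    have h1 : e - e' = ((k * m - i + j : ℤ) : ℝ) := by
      push_cast
      linarith
    have h2 : |e - e'| < 1 := by
      have h3 := abs_sub e e'
      have h4 := hs.lt
      rw [he, he'] at h3
      linarith
    rw [h1] at h2
    have h3 : |(k * m - i + j : ℤ)| < 1 := by exact_mod_cast h2
    rw [Int.abs_lt_one_iff] at h3
    have hi := i.2
    have hj := j.2
    have hne : (i : ℕ) ≠ j := fun h => hij (Fin.ext h)
    have h4 : (k * m : ℤ) = (i : ℤ) - j := by linarith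
    have h5 : |(k * m : ℤ)| < m := by
      rw [h4, abs_lt]
      constructor <;> omega
    rw [abs_mul, Nat.abs_cast] at h5
    have h6 : |k| < 1 := by
      by_contra hc
      rw [not_lt] at hc
      have hm0 : (0 : ℤ) < m := by exact_mod_cast hm
      nlinarith
    rw [Int.abs_lt_one_iff] at h6
    rw [h6, zero_mul] at h4
    omega

theorem mk_once (hm : 0 < m) (hl : GenFam m l) (hs : Small m l e0) {i j : Fin m} (hij : i ≠ j) (e e' : ℝ)
    (he : |e| = e0) (he' : |e'| = e0) {s t : ℕ} (hs1 : s ≤ (l i).length) (ht1 : t ≤ (l j).length)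
    (hx : xs m l i j s t = -1)
    (hu : ∀ s' t', s' ≤ (l i).length → t' ≤ (l j).length → (s', t') ≠ (s, t) → xs m l i j s' t' = 1) :
    OneCross (mkCS hm hl hs i e he) (mkCS hm hl hs j e' he') s t := by
  have hni : 0 < (l i).length + 1 := Nat.succ_pos _
  have hnj : 0 < (l j).length + 1 := Nat.succ_pos _
  have hr1 : pcs_r ((l i).length + 1) (s : ℤ) = s := pcs_r_nat (by omega)
  have hr2 : pcs_r ((l j).length + 1) (t : ℤ) = t := pcs_r_nat (by omega)
  constructor
  · rw [pcs_il, hr1, hr2, hs.il i j e e' he.le he'.le _ _ hs1 ht1 (fun h => hij (congrArg Prod.fst h))]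
    exact hx
  · intro s' v hsv
    have h2 := Nat.le_of_lt_succ (pcs_r_lt hni s')
    have h3 := Nat.le_of_lt_succ (pcs_r_lt hnj v)
    rw [pcs_il, hs.il i j e e' he.le he'.le _ _ h2 h3 (fun h => hij (congrArg Prod.fst h))]
    apply hu _ _ h2 h3
    intro h
    apply hsv
    constructor
    · apply pcs_r_eq hni
      rw [hr1]
      exact congrArg Prod.fst h
    · apply pcs_r_eq hnj
      rw [hr2]
      exact congrArg Prod.snd h

end H47A
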