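import Pool.Agent.Lib.H47A.DStep
import Pool.Agent.Lib.H47A.CGram2

/-! # H47A, module P: pushing the loops off their vertices
The chord number `s` of the loop `i` pushed by `e`: starts at `pX`, ends at `pY`. -/

open Real Finset

namespace H47A

/-- Start of the chord number `s` of the loop `i` with breakpoints `L`, pushed by `e`. -/
noncomputable def pX (m : ℕ) (L : List ℝ) (i e : ℝ) (s : ℕ) : ℝ := if s = 0 then i + e else L.getD (s - 1) 0 + m

/-- End of the chord number `s`. -/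
noncomputable def pY (m : ℕ) (L : List ℝ) (i e : ℝ) (s : ℕ) : ℝ := if s < L.length then L.getD s 0 else i + m + e

/-- The periodic sequence of end points. -/
noncomputable def mkY (m : ℕ) (L : List ℝ) (i e : ℝ) (t : ℤ) : ℝ :=
  pY m L i e (t % ((L.length + 1 : ℕ) : ℤ)).toNat

/-- Conditions for pushing all loops by at most `e0`. -/
structure Small (m : ℕ) (l : Fin m → List ℝ) (e0 : ℝ) : Prop where
  pos : 0 < e0
  lt : e0 < 1 / 2
  nq : ∀ (i j : Fin m) (e : ℝ), |e| ≤ e0 → ∀ y ∈ l j, Nq m ((i : ℕ) + e) y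
  il : ∀ (i j : Fin m) (e e' : ℝ), |e| ≤ e0 → |e'| ≤ e0 → ∀ s t : ℕ, s ≤ (l i).length → t ≤ (l j).length →
    (i, s) ≠ (j, t) →
    il m (pX m (l i) (i : ℕ) e s) (pY m (l i) (i : ℕ) e s) (pX m (l j) (j : ℕ) e' t) (pY m (l j) (j : ℕ) e' t) =
      xs m l i j s t

end H47A
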