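import Pool.Agent.Lib.H47A.PCS

/-! # H47A, chunk PPAIR (M): the two pushed versions of one loop
c+ = mkCS i e0, c- = mkCS i (-e0). `pair_sgn`: the exponents ⌈(k - Y t)/m⌉ agree except for t = n-1, where Y = i + m +- e0:
⌈(k - i - m -+ e0)/m⌉ is the same for both signs if k != i (|k - i| < m is an integer, e0 < 1/2, m >= 1) and -1 resp. 0 if k = i.
`pair_E`: E of c+ minus E of c- at t in [0,n-1]: only the term with Y (t+i') = the last point, i' = n-1-t, differs: (-1)^(n-1-t)
(h (i+m) - h (i+m-1)) = (-1)^t (h i - h (i-1)) (⌊i+m+e0⌋ = i+m, ⌊i+m-e0⌋ = i+m-1; h (k+m) = h k + pi; n odd).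
`pair_bb`: bb of the chord t of c- and the chord u of c+ is -1 if t = u and 0 otherwise (0 <= t,u < n). For t != u: il = 1 by
Small.il and the simplicity, `bb_zero`. For t = u with 0 < t < n-1: same chord, `bb_self`. For t = u = 0 < n-1: X = i -+ e0 (+2m), Y
common: bb = Cl 0 - Cl (Y - X+) - Cl (X- - Y) + Cl (X- - X+), Cl (X- - X+) = Cl (-2 e0) = 0 and Cl (X- - Y) = Cl (X+ - Y) since
(Small.nq) there is no point of Y + 2mZ between X- and X+ (the function e -> Cl (i + e - Y) is constant on [-e0,e0] as i + e - Y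
is never in 2mZ); so bb = - (Cl (Y - X+) + Cl (X+ - Y)) = -1. t = u = n-1 > 0: the same with the roles of X, Y exchanged. n = 1:
both ends move: bb = Cl (-2e0) - Cl (m - 2 e0) - Cl (-m - 2 e0) + Cl (-2 e0) = 0 - 1 - 0 + 0 = -1.
`pair_AA`: `gram_bb` for (c-, c+): AA (nV c+) (nV c-) = (1/2) sum_t (-1) sin (E- t - E+ t) = (1/2) sum_{t<n} sin((-1)^t (h i - h(i-1)))
= (1/2) sin(h i - h(i-1)) (sum of (-1)^t over t < n is 1). -/

open Real Finset

namespace H47A

variable {m : ℕ} {l : Fin m → List ℝ} {e0 : ℝ} {h : ℤ → ℝ}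

theorem small_abs (hs : Small m l e0) : |e0| = e0 := abs_of_pos hs.pos

theorem small_abs' (hs : Small m l e0) : |-e0| = e0 := by rw [abs_neg, abs_of_pos hs.pos]

/-- The loop pushed forward. -/
noncomputable def cp (hm : 0 < m) (hl : GenFam m l) (hs : Small m l e0) (i : Fin m) : CS m :=
  mkCS hm hl hs i e0 (small_abs hs)

/-- The loop pushed backward. -/
noncomputable def cn (hm : 0 < m) (hl : GenFam m l) (hs : Small m l e0) (i : Fin m) : CS m :=
  mkCS hm hl hs i (-e0) (small_abs' hs)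

theorem ppair_Y (hm : 0 < m) (hl : GenFam m l) (hs : Small m l e0) (i : Fin m) (e : ℝ) (he : |e| = e0) {t : ℕ}
    (ht : t ≤ (l i).length) : (mkCS hm hl hs i e he).Y t = pY m (l i) (i : ℕ) e t := by
  rw [mkCS_Y]
  congr 1
  rw [← Int.natCast_mod, Nat.mod_eq_of_lt (by omega), Int.toNat_natCast]

theorem ppair_n (hm : 0 < m) (hl : GenFam m l) (hs : Small m l e0) (i : Fin m) (e : ℝ) (he : |e| = e0) :
    (mkCS hm hl hs i e he).n = (l i).length + 1 := rfl

theorem ppair_sgn (hm : 0 < m) (hl : GenFam m l) (hs : Small m l e0) (i : Fin m) (e : ℝ) (he : |e| = e0) (p : ℝ) :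
    (mkCS hm hl hs i e he).sgn p = (∏ t ∈ range (l i).length, (-1) ^ ⌈(p - (l i).getD t 0) / m⌉) *
      (-1) ^ ⌈(p - ((i : ℕ) + m + e)) / m⌉ := by
  unfold CS.sgn
  rw [ppair_n, Finset.prod_range_succ]
  congr 1
  · refine Finset.prod_congr rfl fun t ht => ?_
    have ht' : t < (l i).length := Finset.mem_range.1 ht
    rw [ppair_Y hm hl hs i e he ht'.le, pY, if_pos ht']
  · rw [ppair_Y hm hl hs i e he le_rfl, pY, if_neg (lt_irrefl _)]

theorem pair_sgn (hm : 0 < m) (hl : GenFam m l) (hs : Small m l e0) {i k : Fin m} (hik : k ≠ i) :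
    (cp hm hl hs i).sgn (k : ℕ) = (cn hm hl hs i).sgn (k : ℕ) := by
  rw [cp, cn, ppair_sgn, ppair_sgn]
  congr 2
  have hk := k.2
  have hi := i.2
  have hm0 : (0 : ℝ) < m := by exact_mod_cast hm
  have h0 := hs.pos
  have h1 := hs.lt
  have hki : (k : ℕ) ≠ (i : ℕ) := fun h => hik (Fin.ext h)
  rcases lt_or_gt_of_ne hki with h2 | h2
  · have h3 : ((k : ℕ) : ℝ) + 1 ≤ (i : ℕ) := by exact_mod_cast h2
    have h4 : ((i : ℕ) : ℝ) + 1 ≤ m := by exact_mod_cast hi
    have h5 : (0 : ℝ) ≤ (k : ℕ) := Nat.cast_nonneg _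
    have e1 : ⌈(((k : ℕ) : ℝ) - ((i : ℕ) + m + e0)) / m⌉ = -1 := by
      rw [Int.ceil_eq_iff]
      push_cast
      constructor
      · rw [lt_div_iff₀ hm0]
        linarith
      · rw [div_le_iff₀ hm0]
        linarith
    have e2 : ⌈(((k : ℕ) : ℝ) - ((i : ℕ) + m + -e0)) / m⌉ = -1 := by
      rw [Int.ceil_eq_iff]
      push_cast
      constructor
      · rw [lt_div_iff₀ hm0]
        linarith
      · rw [div_le_iff₀ hm0]
        linarith
    rw [e1, e2]
  · have h3 : ((i : ℕ) : ℝ) + 1 ≤ (k : ℕ) := by exact_mod_cast h2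
    have h4 : ((k : ℕ) : ℝ) + 1 ≤ m := by exact_mod_cast hk
    have h5 : (0 : ℝ) ≤ (i : ℕ) := Nat.cast_nonneg _
    have e1 : ⌈(((k : ℕ) : ℝ) - ((i : ℕ) + m + e0)) / m⌉ = 0 := by
      rw [Int.ceil_eq_iff]
      push_cast
      constructor
      · rw [lt_div_iff₀ hm0]
        linarith
      · rw [div_le_iff₀ hm0]
        linarith
    have e2 : ⌈(((k : ℕ) : ℝ) - ((i : ℕ) + m + -e0)) / m⌉ = 0 := by
      rw [Int.ceil_eq_iff]
      push_cast
      constructor
      · rw [lt_div_iff₀ hm0]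
        linarith
      · rw [div_le_iff₀ hm0]
        linarith
    rw [e1, e2]

theorem pair_sgn' (hm : 0 < m) (hl : GenFam m l) (hs : Small m l e0) (i : Fin m) :
    (cp hm hl hs i).sgn (i : ℕ) = -(cn hm hl hs i).sgn (i : ℕ) := by
  rw [cp, cn, ppair_sgn, ppair_sgn]
  have hm0 : (0 : ℝ) < m := by exact_mod_cast hm
  have hm1 : (1 : ℝ) ≤ m := by exact_mod_cast hm
  have h0 := hs.pos
  have h1 := hs.lt
  have e1 : ⌈(((i : ℕ) : ℝ) - ((i : ℕ) + m + e0)) / m⌉ = -1 := by
    rw [Int.ceil_eq_iff]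
    push_cast
    constructor
    · rw [lt_div_iff₀ hm0]
      linarith
    · rw [div_le_iff₀ hm0]
      linarith
  have e2 : ⌈(((i : ℕ) : ℝ) - ((i : ℕ) + m + -e0)) / m⌉ = 0 := by
    rw [Int.ceil_eq_iff]
    push_cast
    constructor
    · rw [lt_div_iff₀ hm0]
      linarith
    · rw [div_le_iff₀ hm0]
      linarith
  rw [e1, e2, zpow_zero, mul_one]
  have e3 : ((-1 : ℝ)) ^ (-1 : ℤ) = -1 := by norm_num
  rw [e3]
  ring

theorem pair_E (hh : IsHalf m h) (hm : 0 < m) (hl : GenFam m l) (hs : Small m l e0) (i : Fin m) (t : ℕ)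
    (ht : t ≤ (l i).length) :
    (cp hm hl hs i).E h t - (cn hm hl hs i).E h t = (-1) ^ t * (h (i : ℕ) - h ((i : ℕ) - 1)) := by
  have heven := hl.even i
  have h0 := hs.pos
  have h1 := hs.lt
  unfold CS.E
  rw [show (cp hm hl hs i).n = (l i).length + 1 from rfl, show (cn hm hl hs i).n = (l i).length + 1 from rfl,
    ← Finset.sum_sub_distrib]
  have hx : ∀ j ∈ range ((l i).length + 1), j ≠ (l i).length - t →
      (-1 : ℝ) ^ j * h ⌊(cp hm hl hs i).Y ((t : ℤ) + j)⌋ - (-1) ^ j * h ⌊(cn hm hl hs i).Y ((t : ℤ) + j)⌋ = 0 := by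
    intro j hj hjt
    have hj' : j < (l i).length + 1 := Finset.mem_range.1 hj
    rw [cp, cn, mkCS_Y, mkCS_Y]
    have e1 : ((t : ℤ) + j) % (((l i).length + 1 : ℕ) : ℤ) = ((t + j) % ((l i).length + 1) : ℕ) := by
      push_cast
      rfl
    rw [e1, Int.toNat_natCast]
    have e2 : (t + j) % ((l i).length + 1) < (l i).length := by
      have h3 : (t + j) % ((l i).length + 1) < (l i).length + 1 := Nat.mod_lt _ (Nat.succ_pos _)
      have h4 : (t + j) % ((l i).length + 1) ≠ (l i).length := by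
        intro h5
        rcases lt_or_ge (t + j) ((l i).length + 1) with h6 | h6
        · rw [Nat.mod_eq_of_lt h6] at h5
          omega
        · rw [Nat.mod_eq_sub_mod h6, Nat.mod_eq_of_lt (by omega)] at h5
          omega
      omega
    rw [pY, if_pos e2, pY, if_pos e2, sub_self]
  rw [Finset.sum_eq_single_of_mem ((l i).length - t) (Finset.mem_range.2 (by omega)) hx]
  have e3 : (t : ℤ) + (((l i).length - t : ℕ) : ℤ) = (((l i).length : ℕ) : ℤ) := by omega
  rw [e3, cp, cn, ppair_Y hm hl hs i _ _ le_rfl, ppair_Y hm hl hs i _ _ le_rfl, pY, if_neg (lt_irrefl _), pY,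
    if_neg (lt_irrefl _)]
  have f1 : ⌊((i : ℕ) : ℝ) + m + e0⌋ = ((i : ℕ) : ℤ) + m := by
    rw [Int.floor_eq_iff]
    push_cast
    constructor <;> linarith
  have f2 : ⌊((i : ℕ) : ℝ) + m + -e0⌋ = ((i : ℕ) : ℤ) - 1 + m := by
    rw [Int.floor_eq_iff]
    push_cast
    constructor <;> linarith
  rw [f1, f2, hh.per, hh.per]
  have e4 : ((-1 : ℝ)) ^ ((l i).length - t) = (-1) ^ t := by
    have e5 : ((-1 : ℝ)) ^ ((l i).length - t) * (-1) ^ t = 1 := by
      rw [← pow_add, Nat.sub_add_cancel ht]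
      exact heven.neg_one_pow
    have e6 : ((-1 : ℝ)) ^ t * (-1) ^ t = 1 := by
      rw [← pow_add]
      exact (Even.add_self t).neg_one_pow
    calc ((-1 : ℝ)) ^ ((l i).length - t) = (-1) ^ ((l i).length - t) * ((-1) ^ t * (-1) ^ t) := by rw [e6, mul_one]
      _ = (-1) ^ t := by rw [← mul_assoc, e5, one_mul]
  rw [e4]
  ring

theorem ppair_bb1 (hm : 0 < m) (p q x y : ℝ) (c : Prop) [Decidable c] :
    bb m (p + (if c then 2 * (m : ℝ) else 0)) q x y = bb m p q x y := by
  split_ifs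
  · unfold bb
    have e1 : p + 2 * (m : ℝ) - y = p - y + 2 * m := by ring
    have e2 : p + 2 * (m : ℝ) - x = p - x + 2 * m := by ring
    rw [e1, e2, Cl_add hm, Cl_add hm]
    ring
  · rw [add_zero]

theorem ppair_bb2 (hm : 0 < m) (p q x y : ℝ) (c : Prop) [Decidable c] :
    bb m p q (x + (if c then 2 * (m : ℝ) else 0)) y = bb m p q x y := by
  split_ifs
  · unfold bb
    have e1 : q - (x + 2 * (m : ℝ)) = q - x - 2 * m := by ring
    have e2 : p - (x + 2 * (m : ℝ)) = p - x - 2 * m := by ring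
    rw [e1, e2, Cl_sub' hm, Cl_sub' hm]
    ring
  · rw [add_zero]

theorem ppair_symm {x y : ℝ} (h : Nd m x y) : Nd m y x := fun k hk => h (-k) (by push_cast; linarith)

theorem ppair_sub0 {x y : ℝ} (h : Nd m x y) : Nd m (x - y) 0 := fun k hk => h k (by rw [sub_zero] at hk; exact hk)

theorem ppair_const {a : ℝ} (hm : 0 < m) (h0 : 0 ≤ e0) (h : ∀ e : ℝ, |e| ≤ e0 → ∀ k : ℤ, a + e ≠ 2 * m * k) :
    Cl m (a - e0) = Cl m (a + e0) := by
  have hm0 : (0 : ℝ) < 2 * m := by
    have : (0 : ℝ) < m := by exact_mod_cast hm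
    linarith
  unfold Cl
  by_contra hne
  have h1 : ⌈(a - e0) / (2 * m)⌉ ≤ ⌈(a + e0) / (2 * m)⌉ := Int.ceil_mono (div_le_div_of_nonneg_right (by linarith) hm0.le)
  have h2 : ⌈(a - e0) / (2 * m)⌉ < ⌈(a + e0) / (2 * m)⌉ := lt_of_le_of_ne h1 hne
  have h3 := Int.lt_ceil.1 h2
  have h4 := Int.le_ceil ((a - e0) / (2 * m))
  rw [lt_div_iff₀ hm0] at h3
  rw [div_le_iff₀ hm0] at h4
  refine h (2 * m * ⌈(a - e0) / (2 * m)⌉ - a) ?_ ⌈(a - e0) / (2 * m)⌉ (by ring)
  rw [abs_le]
  constructor <;> linarith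

/-- the end points of different chords are different modulo `m` -/
theorem ppair_YYq (hm : 0 < m) (hl : GenFam m l) (hs : Small m l e0) (i : Fin m) {e e' : ℝ} (he : |e| ≤ e0) (he' : |e'| ≤ e0)
    {t u : ℕ} (ht : t ≤ (l i).length) (hu : u ≤ (l i).length) (htu : t ≠ u) :
    Nq m (pY m (l i) (i : ℕ) e t) (pY m (l i) (i : ℕ) e' u) := by
  have hmem : ∀ {s : ℕ}, s < (l i).length → (l i).getD s 0 ∈ l i := by
    intro s hs
    rw [List.getD_eq_getElem _ _ hs]
    exact List.getElem_mem _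
  unfold pY
  by_cases h1 : t < (l i).length
  · by_cases h2 : u < (l i).length
    · rw [if_pos h1, if_pos h2]
      have h3 := List.pairwise_iff_getElem.1 (hl.nq i)
      rw [List.getD_eq_getElem _ _ h1, List.getD_eq_getElem _ _ h2]
      rcases lt_or_gt_of_ne htu with h4 | h4
      · exact h3 t u h1 h2 h4
      · intro k hk
        exact h3 u t h2 h1 h4 (-k) (by push_cast; linarith)
    · rw [if_pos h1, if_neg h2]
      intro k hk
      exact hs.nq i i e' he' _ (hmem h1) (-k - 1) (by push_cast; linarith)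
  · by_cases h2 : u < (l i).length
    · rw [if_neg h1, if_pos h2]
      intro k hk
      exact hs.nq i i e he _ (hmem h2) (k - 1) (by push_cast; linarith)
    · omega

theorem ppair_YY (hm : 0 < m) (hl : GenFam m l) (hs : Small m l e0) (i : Fin m) {e e' : ℝ} (he : |e| ≤ e0) (he' : |e'| ≤ e0)
    {t u : ℕ} (ht : t ≤ (l i).length) (hu : u ≤ (l i).length) (htu : t ≠ u) :
    Nd m (pY m (l i) (i : ℕ) e t) (pY m (l i) (i : ℕ) e' u) := fun k hk =>
  ppair_YYq hm hl hs i he he' ht hu htu (2 * k) (by push_cast; linarith)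

/-- predecessor of a chord -/
def ppair_pr (L : List ℝ) (t : ℕ) : ℕ := if t = 0 then L.length else t - 1

theorem ppair_X (L : List ℝ) (i e : ℝ) {t : ℕ} (ht : t ≤ L.length) :
    ∃ k : ℤ, pX m L i e t = pY m L i e (ppair_pr L t) + (2 * k + 1) * m := by
  unfold pX pY ppair_pr
  by_cases h : t = 0
  · rw [if_pos h, if_pos h, if_neg (lt_irrefl _)]
    exact ⟨-1, by push_cast; ring⟩
  · rw [if_neg h, if_neg h, if_pos (by omega)]
    exact ⟨0, by push_cast; ring⟩

theorem ppair_pr_le (L : List ℝ) {t : ℕ} (ht : t ≤ L.length) : ppair_pr L t ≤ L.length := by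
  unfold ppair_pr
  split_ifs <;> omega

theorem ppair_XX (hm : 0 < m) (hl : GenFam m l) (hs : Small m l e0) (i : Fin m) {e e' : ℝ} (he : |e| ≤ e0) (he' : |e'| ≤ e0)
    {t u : ℕ} (ht : t ≤ (l i).length) (hu : u ≤ (l i).length) (htu : t ≠ u) :
    Nd m (pX m (l i) (i : ℕ) e t) (pX m (l i) (i : ℕ) e' u) := by
  obtain ⟨k1, h1⟩ := ppair_X (m := m) (l i) (i : ℕ) e ht
  obtain ⟨k2, h2⟩ := ppair_X (m := m) (l i) (i : ℕ) e' hu
  have h3 : ppair_pr (l i) t ≠ ppair_pr (l i) u := by
    unfold ppair_pr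
    split_ifs <;> omega
  intro k hk
  rw [h1, h2] at hk
  refine ppair_YYq hm hl hs i he he' (ppair_pr_le _ ht) (ppair_pr_le _ hu) h3 (2 * k - 2 * k1 + 2 * k2) ?_
  push_cast
  linarith

theorem ppair_XY (hm : 0 < m) (hl : GenFam m l) (hs : Small m l e0) (i : Fin m) {e e' : ℝ} (he : |e| ≤ e0) (he' : |e'| ≤ e0)
    {t u : ℕ} (ht : t ≤ (l i).length) (hu : u ≤ (l i).length) :
    Nd m (pX m (l i) (i : ℕ) e t) (pY m (l i) (i : ℕ) e' u) := by
  obtain ⟨k1, h1⟩ := ppair_X (m := m) (l i) (i : ℕ) e ht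
  intro k hk
  rw [h1] at hk
  by_cases h3 : ppair_pr (l i) t = u
  · rw [h3] at hk
    have hm0 : (1 : ℝ) ≤ m := by exact_mod_cast hm
    have h4 : |pY m (l i) (i : ℕ) e u - pY m (l i) (i : ℕ) e' u| < 1 := by
      unfold pY
      split_ifs
      · rw [sub_self, abs_zero]
        exact one_pos
      · have e1 : ((i : ℕ) : ℝ) + m + e - ((i : ℕ) + m + e') = e - e' := by ring
        rw [e1]
        have := abs_sub e e'
        have := hs.lt
        linarith
    have h5 : pY m (l i) (i : ℕ) e u - pY m (l i) (i : ℕ) e' u = ((2 * k - 2 * k1 - 1 : ℤ) : ℝ) * m := by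
      push_cast
      linarith
    rw [h5, abs_mul, abs_of_pos (show (0 : ℝ) < m by linarith)] at h4
    have h6 : (1 : ℝ) ≤ |((2 * k - 2 * k1 - 1 : ℤ) : ℝ)| := by
      rw [← Int.cast_abs]
      have : (1 : ℤ) ≤ |2 * k - 2 * k1 - 1| := Int.one_le_abs (by omega)
      exact_mod_cast this
    nlinarith
  · refine ppair_YYq hm hl hs i he he' (ppair_pr_le _ ht) hu h3 (2 * k - 2 * k1 - 1) ?_
    push_cast
    linarith

theorem pair_bb (hm : 0 < m) (hl : GenFam m l) (hs : Small m l e0) (i : Fin m)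
    (hx : ∀ s t : ℕ, s ≤ (l i).length → t ≤ (l i).length → s ≠ t → xs m l i i s t = 1) (t u : ℕ)
    (ht : t ≤ (l i).length) (hu : u ≤ (l i).length) :
    bb m ((cn hm hl hs i).X t) ((cn hm hl hs i).Y t) ((cp hm hl hs i).X u) ((cp hm hl hs i).Y u) =
      if t = u then -1 else 0 := by
  rw [cp, cn, mkCS_X, mkCS_X, ppair_Y hm hl hs i _ _ ht, ppair_Y hm hl hs i _ _ hu]
  rw [← Int.natCast_mod, Nat.mod_eq_of_lt (show t < (l i).length + 1 by omega), Int.toNat_natCast, ← Int.natCast_mod,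
    Nat.mod_eq_of_lt (show u < (l i).length + 1 by omega), Int.toNat_natCast, ppair_bb1 hm, ppair_bb2 hm]
  have ha : |(-e0)| ≤ e0 := (small_abs' hs).le
  have hb : |e0| ≤ e0 := (small_abs hs).le
  by_cases htu : t = u
  · subst htu
    rw [if_pos rfl]
    have hm0 : (0 : ℝ) < m := by exact_mod_cast hm
    have hm1 : (1 : ℝ) ≤ m := by exact_mod_cast hm
    have h0 := hs.pos
    have h1 := hs.lt
    have c0 : Cl m (-(2 * e0)) = 0 := by
      unfold Cl
      rw [Int.ceil_eq_iff]
      push_cast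
      constructor
      · rw [lt_div_iff₀ (by positivity)]
        linarith
      · rw [div_le_iff₀ (by positivity)]
        linarith
    have c1 : Cl m (pY m (l i) (i : ℕ) (-e0) t - pY m (l i) (i : ℕ) e0 t) = 0 := by
      unfold pY
      split_ifs
      · rw [sub_self, Cl_zero]
      · rw [← c0]
        congr 1
        ring
    have c2 : Cl m (pX m (l i) (i : ℕ) (-e0) t - pX m (l i) (i : ℕ) e0 t) = 0 := by
      unfold pX
      split_ifs
      · rw [← c0]
        congr 1
        ring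
      · rw [sub_self, Cl_zero]
    have c3 : Cl m (pY m (l i) (i : ℕ) (-e0) t - pX m (l i) (i : ℕ) e0 t) =
        Cl m (pY m (l i) (i : ℕ) e0 t - pX m (l i) (i : ℕ) (-e0) t) := by
      unfold pX pY
      by_cases ht0 : t = 0
      · subst ht0
        by_cases hlen : 0 < (l i).length
        · rw [if_pos hlen, if_pos rfl, if_pos hlen, if_pos rfl]
          have hmem : (l i).getD 0 0 ∈ l i := by
            rw [List.getD_eq_getElem _ _ hlen]
            exact List.getElem_mem _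
          have h3 := ppair_const (a := (l i).getD 0 0 - (i : ℕ)) hm h0.le (fun e he k hk => by
            refine hs.nq i i (-e) (by rw [abs_neg]; exact he) _ hmem (-2 * k) ?_
            push_cast
            linarith)
          have e1 : (l i).getD 0 0 - (((i : ℕ) : ℝ) + e0) = (l i).getD 0 0 - (i : ℕ) - e0 := by ring
          have e2 : (l i).getD 0 0 - (((i : ℕ) : ℝ) + -e0) = (l i).getD 0 0 - (i : ℕ) + e0 := by ring
          rw [e1, e2]
          exact h3
        · rw [if_neg hlen, if_pos rfl, if_neg hlen, if_pos rfl]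
          have e1 : ∀ x : ℝ, 0 < x → x ≤ 2 * m → Cl m x = 1 := by
            intro x hx1 hx2
            unfold Cl
            rw [Int.ceil_eq_iff]
            push_cast
            constructor
            · rw [lt_div_iff₀ (by positivity)]
              linarith
            · rw [div_le_iff₀ (by positivity)]
              linarith
          rw [e1 _ (by linarith) (by linarith), e1 _ (by linarith) (by linarith)]
      · rw [if_neg ht0, if_neg ht0]
        by_cases htl : t < (l i).length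
        · rw [if_pos htl, if_pos htl]
        · rw [if_neg htl, if_neg htl]
          have hlt : t - 1 < (l i).length := by omega
          have hmem : (l i).getD (t - 1) 0 ∈ l i := by
            rw [List.getD_eq_getElem _ _ hlt]
            exact List.getElem_mem _
          have h3 := ppair_const (a := (i : ℕ) - (l i).getD (t - 1) 0) hm h0.le (fun e he k hk => by
            refine hs.nq i i e he _ hmem (2 * k) ?_
            push_cast
            linarith)
          have e1 : ((i : ℕ) : ℝ) + m + -e0 - ((l i).getD (t - 1) 0 + m) = (i : ℕ) - (l i).getD (t - 1) 0 - e0 := by ring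
          have e2 : ((i : ℕ) : ℝ) + m + e0 - ((l i).getD (t - 1) 0 + m) = (i : ℕ) - (l i).getD (t - 1) 0 + e0 := by ring
          rw [e1, e2]
          exact h3
    have c4 : Cl m (pY m (l i) (i : ℕ) e0 t - pX m (l i) (i : ℕ) (-e0) t) +
        Cl m (-(pY m (l i) (i : ℕ) e0 t - pX m (l i) (i : ℕ) (-e0) t)) = 1 :=
      Cl_neg hm (ppair_sub0 (ppair_symm (ppair_XY hm hl hs i ha hb ht hu)))
    unfold bb
    rw [c1, c2, c3]
    rw [neg_sub] at c4
    linarith
  · rw [if_neg htu]
    have h2 := hs.il i i (-e0) e0 ha hb t u ht hu (fun h => htu (Prod.mk.inj h).2)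
    rw [hx t u ht hu htu] at h2
    exact bb_zero hm h2 (ppair_XY hm hl hs i ha ha ht ht) (ppair_XY hm hl hs i hb hb hu hu)
      (ppair_XX hm hl hs i ha hb ht hu htu) (ppair_XY hm hl hs i ha hb ht hu)
      (ppair_symm (ppair_XY hm hl hs i hb ha hu ht)) (ppair_YY hm hl hs i ha hb ht hu htu)

theorem pair_AA (hh : IsHalf m h) (hm : 0 < m) (hl : GenFam m l) (hs : Small m l e0) (i : Fin m)
    (hx : ∀ s t : ℕ, s ≤ (l i).length → t ≤ (l i).length → s ≠ t → xs m l i i s t = 1) :
    AA m ((cp hm hl hs i).nV h) ((cn hm hl hs i).nV h) = 1 / 2 * sin (h (i : ℕ) - h ((i : ℕ) - 1)) := by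
  rw [gram_bb hh (cn hm hl hs i) (cp hm hl hs i)]
  rw [show (cp hm hl hs i).n = (l i).length + 1 from rfl, show (cn hm hl hs i).n = (l i).length + 1 from rfl]
  congr 1
  have h1 : ∀ t ∈ range ((l i).length + 1), (∑ u ∈ range ((l i).length + 1),
      (bb m ((cn hm hl hs i).X t) ((cn hm hl hs i).Y t) ((cp hm hl hs i).X u) ((cp hm hl hs i).Y u) : ℝ) *
        sin ((cn hm hl hs i).E h t - (cp hm hl hs i).E h u)) = (-1) ^ t * sin (h (i : ℕ) - h ((i : ℕ) - 1)) := by
    intro t ht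
    have ht' : t ≤ (l i).length := Nat.lt_succ_iff.1 (Finset.mem_range.1 ht)
    rw [Finset.sum_eq_single_of_mem t ht]
    · rw [pair_bb hm hl hs i hx t t ht' ht', if_pos rfl]
      have h2 := pair_E hh hm hl hs i t ht'
      have h3 : (cn hm hl hs i).E h t - (cp hm hl hs i).E h t = -((-1) ^ t * (h (i : ℕ) - h ((i : ℕ) - 1))) := by
        rw [← h2]
        ring
      rw [h3, sin_neg]
      rcases neg_one_pow_eq_or ℝ t with h4 | h4 <;> rw [h4]
      · push_cast
        ring_nf
      · rw [neg_one_mul, neg_one_mul, sin_neg]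
        push_cast
        ring
    · intro u hu hut
      have hu' : u ≤ (l i).length := Nat.lt_succ_iff.1 (Finset.mem_range.1 hu)
      rw [pair_bb hm hl hs i hx t u ht' hu', if_neg (Ne.symm hut)]
      push_cast
      rw [zero_mul]
  rw [Finset.sum_congr rfl h1, ← Finset.sum_mul]
  have h5 : ∀ k : ℕ, Even k → ∑ t ∈ range (k + 1), ((-1 : ℝ)) ^ t = 1 := by
    rintro k ⟨j, rfl⟩
    induction j with
    | zero => simp
    | succ j ih =>
      have e : j + 1 + (j + 1) + 1 = (j + j + 1) + 1 + 1 := by ring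
      rw [e, Finset.sum_range_succ, Finset.sum_range_succ, ih, pow_succ]
      ring
  rw [h5 _ (hl.even i), one_mul]

end H47A
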